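import Mathlib.NumberTheory.LegendreSymbol.JacobiSymbol
import Pool.Agent.MP_a43263_nt.Defs

/-! PROJECT RANK2: definitions. Blueprint: `/team-store/RANK2_BLUEPRINT.md`. -/

set_option autoImplicit false

noncomputable section

namespace Pool.Agent.MP_a43263_nt.R2

open Finset Filter

/-! ### the curves -/

/-- the curve `y ^ 2 = x (x - a) (x - b)` -/
def Ecv (a b : ℚ) : WeierstrassCurve ℚ := ⟨0, -(a + b), 0, a * b, 0⟩

/-- rank two and trivial 2-primary part of the Tate-Shafarevich group -/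
def Good (E : WeierstrassCurve ℚ) : Prop :=
  E.IsElliptic ∧ Module.rank ℤ (Pt E ℚ) = 2 ∧ ∀ k : ℕ, ∀ x ∈ Sha E, 2 ^ k • x = 0 → x = 0

/-- the family -/
def Efam (u v w z α β : ℕ) : WeierstrassCurve ℚ :=
  Ecv ((α * u ^ 2 + β * w ^ 2) * (α * v ^ 2 + β * z ^ 2))
    ((α * u ^ 2 + β * z ^ 2) * (α * v ^ 2 + β * w ^ 2))

/-- the 2-covering attached to `(d₂, d₃)` has a point over `K` -/
def Sol2 {K : Type} [Field K] (a b d₂ d₃ : K) : Prop :=
  ∃ z₀ z₂ z₃ t : K, ¬(z₀ = 0 ∧ z₂ = 0 ∧ z₃ = 0 ∧ t = 0) ∧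
    d₂ * d₃ * z₀ ^ 2 - d₂ * z₂ ^ 2 = a * t ^ 2 ∧ d₂ * d₃ * z₀ ^ 2 - d₃ * z₃ ^ 2 = b * t ^ 2

/-- everywhere locally soluble -/
def ELS (a b d₂ d₃ : ℚ) : Prop :=
  Sol2 (a : ℝ) b d₂ d₃ ∧ ∀ (p : ℕ) [Fact p.Prime], Sol2 (a : ℚ_[p]) b d₂ d₃

/-! ### symmetric sign matrices; vectors over the field with two elements are subsets -/

section
variable {ι : Type} [DecidableEq ι]

/-- a symmetric matrix of signs -/
def Sgn (g : ι → ι → ℤ) : Prop := (∀ a b, g a b = g b a) ∧ ∀ a b, g a b = 1 ∨ g a b = -1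

/-- the bilinear pairing -/
def chi (g : ι → ι → ℤ) (x y : Finset ι) : ℤ := ∏ a ∈ x, ∏ b ∈ y, g a b

/-- the kernel of the principal submatrix on `V` -/
def Ker (g : ι → ι → ℤ) (V : Finset ι) : Finset (Finset ι) :=
  V.powerset.filter fun x => ∀ b ∈ V, ∏ a ∈ x, g a b = 1

end

/-! ### generators: tags `0, ..., 5` are the six linear forms, tag `6` is `-1` (written `(6, 1)`)
and the primes dividing `M` -/

abbrev Gen : Type := Fin 7 × ℕ

def cls : Fin 7 → Fin 3 := ![0, 0, 1, 1, 2, 2, 0]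

def val (a : Gen) : ℤ := if a.2 = 1 then -1 else a.2

def sg (j : ℤ) : ℤ := if j = -1 then -1 else 1

/-- the descent matrix -/
def gp (c : ℤ) (a b : Gen) : ℤ :=
  if a = b then (if cls a.1 = 0 then 1 else sg (jacobiSym c a.2))
  else if cls a.1 = 0 then (if cls b.1 = 0 then 1 else sg (jacobiSym (val a) b.2))
  else if cls b.1 = 0 then sg (jacobiSym (val b) a.2)
  else if cls a.1 = 1 then
    (if cls b.1 = 1 then (if a.2 % 4 = 3 ∧ b.2 % 4 = 3 then -1 else 1)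
      else sg (jacobiSym a.2 b.2))
  else (if cls b.1 = 1 then sg (jacobiSym b.2 a.2) else 1)

/-- the product of the generators of `x` outside the class `j` -/
def Gv (j : Fin 3) (x : Finset Gen) : ℤ := ∏ a ∈ x.filter (fun a => cls a.1 ≠ j), val a

/-- no prime occurs twice -/
def Dist (V : Finset Gen) : Prop := ∀ a ∈ V, ∀ b ∈ V, a.2 = b.2 → a = b

/-- well formed sets of generators -/
structure Nice (V : Finset Gen) : Prop where
  neg : ((6 : Fin 7), 1) ∈ V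
  pr : ∀ a ∈ V, a = (6, 1) ∨ a.2.Prime
  dist : Dist V
  odd : ∀ a ∈ V, cls a.1 ≠ 0 → a.2 ≠ 2

def V0 (M : ℕ) : Finset Gen := insert (6, 1) (M.primeFactors.image fun p => (6, p))

def gens (l : Fin 6 → ℕ) : Finset Gen :=
  univ.biUnion fun h => (l h).primeFactors.image fun p => (h.castSucc, p)

def VV (M : ℕ) (l : Fin 6 → ℕ) : Finset Gen := V0 M ∪ gens l

/-- generators of size at most `Y` -/
def le (Y : ℕ) (V : Finset Gen) : Finset Gen := V.filter fun a => a.2 ≤ Y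

/-- generators of size between `Y` and `Y'` -/
def md (Y Y' : ℕ) (V : Finset Gen) : Finset Gen := V.filter fun a => Y < a.2 ∧ a.2 ≤ Y'

/-- all generators with a tag in `y` -/
def ones (V : Finset Gen) (y : Finset (Fin 7)) : Finset Gen := V.filter fun a => a.1 ∈ y

def Ys : Finset (Finset (Fin 7)) := (univ.erase 6).powerset

def Yne (j : Fin 3) (y : Finset (Fin 7)) : ℕ := (y.filter fun h => cls h ≠ j).card

/-- tag and label -/
abbrev TL : Type := Fin 7 × Bool × Bool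

def tl (U U' : Finset Gen) (s : Gen) : TL := (s.1, decide (s ∈ U), decide (s ∈ U'))

def pat (W U U' : Finset Gen) : Finset TL := W.image (tl U U')

/-- the exponent of the symbol between medium primes of types `f` and `g` -/
def expo (y y' : Finset (Fin 7)) (f g : TL) : ℕ :=
  (if cls f.1 = cls g.1 then 0 else f.2.1.toNat * g.2.2.toNat + f.2.2.toNat * g.2.1.toNat) +
    g.2.2.toNat * Yne (cls g.1) y + g.2.1.toNat * Yne (cls g.1) y'

def Osc (y y' : Finset (Fin 7)) (π : Finset TL) : Prop :=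
  ∃ f ∈ π, ∃ g ∈ π, f.1 ≠ g.1 ∧ Odd (expo y y' f g)

/-- the normalised term -/
def term (g : Gen → Gen → ℤ) (V : Finset Gen) (y y' : Finset (Fin 7)) (U U' : Finset Gen) : ℝ :=
  (chi g (symmDiff U (ones V y)) (symmDiff U' (ones V y')) : ℝ) / 2 ^ V.card

open Classical in
/-- the oscillating part of the count of the kernel -/
def osc (g : Gen → Gen → ℤ) (Y Y' : ℕ) (V : Finset Gen) : ℝ :=
  ∑ y ∈ Ys, ∑ y' ∈ Ys, ∑ U ∈ (le Y' V).powerset, ∑ U' ∈ (le Y' V).powerset,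
    if Osc y y' (pat (md Y Y' V) U U') then term g V y y' U U' else 0

/-! ### six linear forms, scales, shapes -/

def lf (A B : Fin 6 → ℕ) (x : ℕ × ℕ) (h : Fin 6) : ℕ := A h * x.1 + B h * x.2

def res (A B : Fin 6 → ℕ) (h k : Fin 6) : ℤ := (A h : ℤ) * B k - A k * B h

/-- admissible systems of forms -/
structure Sys (M : ℕ) (A B : Fin 6 → ℕ) : Prop where
  pos : 0 < M
  dvd : 210 ∣ M
  a0 : A 0 = 1
  b0 : B 0 = 0
  a1 : A 1 = 0
  b1 : B 1 = 1
  ne : ∀ h k, h ≠ k → res A B h k ≠ 0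
  sm : ∀ h k, h ≠ k → ∀ p : ℕ, p.Prime → (p : ℤ) ∣ res A B h k → p ∣ M
  cop : ∀ h, (A h + B h).Coprime M

def cA (u v : ℕ) : Fin 6 → ℕ := ![1, 0, 3 * u ^ 2, 3 * v ^ 2, 3 * u ^ 2, 3 * v ^ 2]

def cB (N w z : ℕ) : Fin 6 → ℕ := ![0, 1, N * w ^ 2, N * z ^ 2, N * z ^ 2, N * w ^ 2]

/-- the parameters -/
structure Sc where
  M : ℕ
  Y0 : ℕ
  Y : ℕ
  Y' : ℕ
  Z : ℕ
  J : ℕ
  e : ℕ

/-- the relations between the scales -/
structure Rel (S : Sc) : Prop where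
  hY : S.Y = S.Y0 ^ 1000000
  hY' : S.Y' = S.Y ^ 128 ^ S.J
  lo : S.Y' ^ 10000 ≤ S.Z
  hi : S.Z ≤ S.Y' ^ 20000

/-- `P` holds for fixed `M`, `J` and all large scales -/
def Ev (M J : ℕ) (P : Sc → Prop) : Prop :=
  ∃ t₀ : ℕ, ∀ S : Sc, S.M = M → S.J = J → t₀ ≤ S.Y0 → Rel S → P S

/-- the part of a good number made of small and medium primes -/
structure Core (S : Sc) (c : ℕ) : Prop where
  sqf : Squarefree c
  cop : c.Coprime S.M
  gap : ∀ p ∈ c.primeFactors, p ≤ S.Y0 ∨ (S.Y < p ∧ p ≤ S.Y')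
  sm : ∏ p ∈ c.primeFactors.filter (· ≤ S.Y0), p ≤ S.Y0 ^ 3
  me : ∏ p ∈ c.primeFactors.filter (S.Y < ·), p ≤ S.Y' ^ 3
  lo : 4 * S.J ≤ (c.primeFactors.filter (S.Y < ·)).card
  hi : (c.primeFactors.filter (S.Y < ·)).card ≤ 6 * S.J
  par : (c.primeFactors.card + 1) % 2 = S.e % 2

/-- good numbers: a core times one large prime -/
def Shape (S : Sc) (n : ℕ) : Prop := ∃ c P : ℕ, Core S c ∧ P.Prime ∧ S.Y' < P ∧ n = c * P

open Classical in
def CC (S : Sc) : Finset ℕ := (Icc 1 (S.Y' ^ 6)).filter (Core S)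

def mu (S : Sc) : ℝ := ∑ c ∈ CC S, (1 : ℝ) / c

def muT (S : Sc) : ℝ := mu { S with e := 0 } + mu { S with e := 1 }

/-- the indicator function of good numbers, with logarithmic weight -/
def Fs (S : Sc) (n : ℕ) : ℝ :=
  ∑ c ∈ CC S, if c ∣ n ∧ (n / c).Prime ∧ S.Y' < n / c then Real.log (n / c : ℕ) else 0

def rho (M : ℕ) : ℝ := (M : ℝ) / M.totient

open Classical in
/-- the set of parameters that is studied -/
def AA (S : Sc) (A B : Fin 6 → ℕ) : Finset (ℕ × ℕ) :=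
  (Icc 1 S.Z ×ˢ Icc 1 S.Z).filter fun x => x.1 ≡ 1 [MOD 8 * S.M] ∧ x.2 ≡ 1 [MOD 8 * S.M] ∧
    x.1.Coprime x.2 ∧ ∀ h, Shape S (lf A B x h)

/-- the conditions needed to evaluate symbols between the forms -/
structure Adm (M : ℕ) (A B : Fin 6 → ℕ) (x : ℕ × ℕ) : Prop where
  c1 : x.1 ≡ 1 [MOD 8 * M]
  c2 : x.2 ≡ 1 [MOD 8 * M]
  cop : x.1.Coprime x.2
  sqf : ∀ h, Squarefree (lf A B x h)

/-! ### the dominating product measure -/

def pri (a b : ℕ) : Finset ℕ := (Ioc a b).filter Nat.Prime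

def PP (M a b : ℕ) : Finset ℕ := (pri a b).filter fun p => ¬p ∣ M

def TT (P : Finset ℕ) : Finset Gen := univ.erase 6 ×ˢ P

def wt (p : ℕ) : ℝ := 1 / ((p : ℝ) - 5)

def Wt (Z : Finset Gen) : ℝ := ∏ a ∈ Z, wt a.2

def Mass (P : Finset ℕ) : ℝ := ∏ p ∈ P, (1 + wt p) ^ 6

/-- a character sum over primes -/
def chs (G : ℤ) (a b : ℕ) : ℝ := ∑ p ∈ pri a b, (jacobiSym G p : ℝ) / p

/-- a nonzero vector of the kernel on `V` that also satisfies the rows of `W` -/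
def Bad (c : ℤ) (V W : Finset Gen) : Prop :=
  ∃ x ∈ Ker (gp c) V, x ≠ ∅ ∧ ∀ b ∈ W, ∏ a ∈ x, gp c a b = 1

/-! ### oscillation -/

def eR (x : ℝ) : ℂ := Complex.exp (2 * Real.pi * x * Complex.I)

/-- the centred kernel -/
def kc (P : Finset ℕ) (c : ℕ → ℝ) (x : ℤ) : ℝ :=
  ∑ s ∈ P, c s * ((if (s : ℤ) ∣ x then 1 else 0) - 1 / s)

/-- a vertex of the cube -/
def vx {k T : ℕ} (t t' : Fin k → Fin T) (ω : Fin k → Bool) (i : Fin k) : Fin T :=
  if ω i then t' i else t i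

/-- the product of the medium primes of type `f` -/
def nOf (S : Sc) (V U U' : Finset Gen) (f : TL) : ℕ :=
  ∏ b ∈ (md S.Y S.Y' V).filter (fun b => tl U U' b = f), b.2

/-- the generators that are frozen -/
def outer (S : Sc) (V U U' : Finset Gen) (f g : TL) (s : Gen) : Finset Gen :=
  (le S.Y' V).filter fun b => b.2 ≤ S.Y ∨ (b.1 = f.1 ∧ tl U U' b ≠ f) ∨ (b.1 = g.1 ∧ b ≠ s)

open Classical in
/-- the sum of all terms with given frozen data -/
def keySum (S : Sc) (A B : Fin 6 → ℕ) (c : ℤ) (y y' : Finset (Fin 7)) (f g : TL)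
    (ok : Finset TL → Prop) (O O₁ O₂ : Finset Gen) (i : ℕ) : ℝ :=
  ∑ x ∈ AA S A B, ∑ U ∈ (le S.Y' (VV S.M (lf A B x))).powerset,
    ∑ U' ∈ (le S.Y' (VV S.M (lf A B x))).powerset, ∑ s ∈ md S.Y S.Y' (VV S.M (lf A B x)),
      if ok (pat (md S.Y S.Y' (VV S.M (lf A B x))) U U') ∧ tl U U' s = g ∧
          outer S (VV S.M (lf A B x)) U U' f g s = O ∧ O ∩ U = O₁ ∧ O ∩ U' = O₂ ∧
          2 ^ i < nOf S (VV S.M (lf A B x)) U U' f ∧ nOf S (VV S.M (lf A B x)) U U' f ≤ 2 ^ (i + 1)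
        then term (gp c) (VV S.M (lf A B x)) y y' U U' else 0

end Pool.Agent.MP_a43263_nt.R2
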