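import Mathlib.Analysis.SpecialFunctions.Pow.Real
import Pool.Agent.MP_a43263_nt.R2.Defs

/-! PROJECT RANK2: the statements of the modules. Blueprint: `/team-store/RANK2_BLUEPRINT.md`. -/

set_option autoImplicit false

noncomputable section

namespace Pool.Agent.MP_a43263_nt.R2

open Finset Filter

/-! ### A. descent -/

/-- the 2-primary part of Sha vanishes when all 2-coverings satisfy the Hasse principle -/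
def SHAStmt : Prop := ∀ a b : ℚ, a ≠ 0 → b ≠ 0 → a ≠ b →
  (∀ d₂ d₃ : ℚ, d₂ ≠ 0 → d₃ ≠ 0 → ELS a b d₂ d₃ → Sol2 a b d₂ d₃) →
  ∀ k : ℕ, ∀ x ∈ Sha (Ecv a b), 2 ^ k • x = 0 → x = 0

/-- the rank is two when exactly sixteen 2-coverings have a rational point -/
def RANKStmt : Prop := ∀ (a b : ℚ) (g₂ g₃ : Fin 4 → ℚ), a ≠ 0 → b ≠ 0 → a ≠ b →
  (∀ i, g₂ i ≠ 0 ∧ g₃ i ≠ 0 ∧ Sol2 a b (g₂ i) (g₃ i)) →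
  (∀ I : Finset (Fin 4), IsSquare (∏ i ∈ I, g₂ i) → IsSquare (∏ i ∈ I, g₃ i) → I = ∅) →
  (∀ d₂ d₃ : ℚ, d₂ ≠ 0 → d₃ ≠ 0 → Sol2 a b d₂ d₃ →
    ∃ I : Finset (Fin 4), IsSquare (d₂ * ∏ i ∈ I, g₂ i) ∧ IsSquare (d₃ * ∏ i ∈ I, g₃ i)) →
  (Ecv a b).IsElliptic ∧ Module.rank ℤ (Pt (Ecv a b) ℚ) = 2 ∧
    ∀ I : Finset (Fin 4), Sol2 a b (∏ i ∈ I, g₂ i) (∏ i ∈ I, g₃ i)

/-- the members of the family to which the descent applies -/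
structure Fam (u v w z N : ℕ) (x : ℕ × ℕ) : Prop where
  ou : Odd u
  ov : Odd v
  ow : Odd w
  oz : Odd z
  uv : u ≠ v
  wz : w ≠ z
  two : 2 ∣ N
  sqM : Squarefree (3 * N)
  sm : ∀ p : ℕ, p.Prime → (p : ℤ) ∣ ((u : ℤ) ^ 2 - v ^ 2) * (z ^ 2 - w ^ 2) → p ∣ 3 * N
  sqf : ∀ h, Squarefree (lf (cA u v) (cB N w z) x h)
  one : ∀ h, 1 < lf (cA u v) (cB N w z) x h
  cM : ∀ h, (lf (cA u v) (cB N w z) x h).Coprime (3 * N)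
  cop : ∀ h k, h ≠ k → (lf (cA u v) (cB N w z) x h).Coprime (lf (cA u v) (cB N w z) x k)

/-- the local conditions -/
def LOCStmt : Prop := ∀ (u v w z N : ℕ) (x : ℕ × ℕ), Fam u v w z N x →
  ∀ d₂ d₃ : ℚ, d₂ ≠ 0 → d₃ ≠ 0 →
    ELS ((lf (cA u v) (cB N w z) x 2 * lf (cA u v) (cB N w z) x 3 : ℕ) : ℚ)
      ((lf (cA u v) (cB N w z) x 4 * lf (cA u v) (cB N w z) x 5 : ℕ) : ℚ) d₂ d₃ →
    ∃ y ∈ Ker (gp (((u : ℤ) ^ 2 - v ^ 2) * (z ^ 2 - w ^ 2))) (VV (3 * N) (lf (cA u v) (cB N w z) x)),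
      IsSquare (d₂ * (Gv 2 y : ℚ)) ∧ IsSquare (d₃ * (Gv 1 y : ℚ))

def ALGStmt : Prop := ∀ (u v w z N : ℕ) (x : ℕ × ℕ), Fam u v w z N x →
  (Ker (gp (((u : ℤ) ^ 2 - v ^ 2) * (z ^ 2 - w ^ 2)))
    (VV (3 * N) (lf (cA u v) (cB N w z) x))).card ≤ 16 →
  Good (Efam u v w z (3 * x.1) (N * x.2))

/-! ### B. linear algebra and symbols -/

/-- bordering a symmetric matrix; the parity of the corank -/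
def BORStmt : Prop := ∀ (g : Gen → Gen → ℤ), Sgn g → ∀ V : Finset Gen,
  (∀ A : Finset Gen, (Ker g (V ∪ A)).card ≤ 2 ^ A.card * (Ker g V).card) ∧
  (∀ b, b ∉ V → (∃ x ∈ Ker g V, ∏ a ∈ x, g a b = -1) →
    2 * (Ker g (insert b V)).card = (Ker g V).card) ∧
  (∀ b, ∑ x ∈ Ker g V, ∏ a ∈ x, g a b =
    if ∀ x ∈ Ker g V, ∏ a ∈ x, g a b = 1 then ((Ker g V).card : ℤ) else 0) ∧
  (∀ w ⊆ V, (∀ a ∈ V, g a a = ∏ t ∈ w, g t a) → chi g w w = 1 → Even V.card →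
    ∃ k : ℕ, (Ker g V).card = 4 ^ k)

/-- the count of the kernel -/
def CNTStmt : Prop := ∀ (g : Gen → Gen → ℤ), Sgn g → ∀ (V : Finset Gen) (Y Y' J : ℕ), Y ≤ Y' →
  1 ≤ J → (∀ a ∈ V, Y < a.2 → a.1 ≠ 6) →
  (∀ h : Fin 7, h ≠ 6 → (V.filter fun a => a.1 = h ∧ Y' < a.2).card = 1) →
  (∀ h : Fin 7, h ≠ 6 → 4 * J ≤ ((md Y Y' V).filter fun a => a.1 = h).card ∧
    ((md Y Y' V).filter fun a => a.1 = h).card ≤ 6 * J) →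
  ((Ker g V).card : ℝ) ≤ osc g Y Y' V + 48 * (((Ker g V).filter (· ⊆ le Y V)).card : ℝ) +
    192 * ((Ker g (le Y V)).card : ℝ) / 16 ^ J

/-- rows of the descent matrix as Jacobi symbols -/
def KCStmt : Prop :=
  (∀ (c : ℤ) (V x : Finset Gen) (b : Gen), Nice (insert b V) → b ∉ V → b ≠ (6, 1) → b.2 ≠ 2 →
    x ⊆ V → ∏ a ∈ x, gp c a (6, 1) = 1 →
    ∏ a ∈ x, gp c a b = jacobiSym (Gv (cls b.1) x) b.2) ∧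
  (∀ (c : ℤ) (V x : Finset Gen) (b : Gen), Nice (insert b V) → b ∉ V → b ≠ (6, 1) → b.2 ≠ 2 →
    x ⊆ V → ∏ a ∈ x, gp c a b =
      jacobiSym ((if cls b.1 = 2 then 1 else ∏ a ∈ x, gp c a (6, 1)) * Gv (cls b.1) x) b.2) ∧
  (∀ (V x : Finset Gen) (j : Fin 3), Nice V → x ⊆ V →
    Squarefree (Gv j x).natAbs ∧ (Gv j x = 1 → ∀ a ∈ x, cls a.1 = j) ∧
    (Gv j x ≠ 1 → ¬IsSquare (Gv j x)) ∧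
    ∀ p ∈ (Gv j x).natAbs.primeFactors, ∃ a ∈ x, a.2 = p) ∧
  (∀ (c : ℤ) (W : Finset Gen) (k : Fin 7), (∀ b ∈ W, b.1 ≠ k ∧ b.2.Prime ∧ b.2 ≠ 2) →
    ∃ σ : ℤ, (σ = 1 ∨ σ = -1) ∧ ∀ s : ℕ, s.Prime → s ≠ 2 → (∀ b ∈ W, b.2 ≠ s) →
      ∏ b ∈ W, gp c b (k, s) =
        jacobiSym (σ * ∏ b ∈ W.filter (fun b => cls b.1 ≠ cls k), (b.2 : ℤ)) s)

/-- symbols that involve a whole form -/
def SYMStmt : Prop := ∀ (M : ℕ) (A B : Fin 6 → ℕ) (c : ℤ), Sys M A B → c ≠ 0 →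
  (∀ p : ℕ, p.Prime → (p : ℤ) ∣ c → p ∣ M) →
  (∀ y ∈ Ys, ∀ y' ∈ Ys, ∀ f g : Fin 6, f ≠ g → ∃ (σ : ℤ) (e : ℕ), (σ = 1 ∨ σ = -1) ∧
    ∀ x, Adm M A B x → chi (gp c) (ones (VV M (lf A B x)) y) (ones (VV M (lf A B x)) y') =
      σ * jacobiSym (lf A B x g) (lf A B x f) ^ e) ∧
  (∀ y ∈ Ys, ∀ b ∈ V0 M, ∃ τ : ℤ, (τ = 1 ∨ τ = -1) ∧
    ∀ x, Adm M A B x → ∏ a ∈ ones (VV M (lf A B x)) y, gp c a b = τ) ∧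
  (∀ y ∈ Ys, ∀ k k' : Fin 6, k ≠ k' → ∃ C : ℤ, ∀ x, Adm M A B x → ∀ p : ℕ, p.Prime →
    p ∣ lf A B x k → ∏ a ∈ ones (VV M (lf A B x)) y, gp c a (k.castSucc, p) =
      jacobiSym C p * jacobiSym (lf A B x k') p ^ Yne (cls k.castSucc) y)

/-! ### C. tools -/

def MERStmt : Prop :=
  (∃ C : ℝ, ∀ a b : ℕ, 2 ≤ a → a ≤ b →
    |∑ p ∈ pri a b, (1 : ℝ) / p - Real.log (Real.log b / Real.log a)| ≤ C / Real.log a) ∧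
  (∃ C : ℝ, ∀ a b : ℕ, 1 ≤ b → ∑ p ∈ pri a b, Real.log p / p ≤ Real.log b + C) ∧
  (∀ κ : ℕ, ∃ C : ℝ, ∀ y : ℕ, 2 ≤ y → ∏ p ∈ pri 0 y, (1 + (κ : ℝ) / p) ≤ C * Real.log y ^ κ) ∧
  (∃ c : ℝ, 0 < c ∧ ∀ a b : ℕ, 1 ≤ a → a ≤ b →
    c * Real.log b ≤ (1 + Real.log a) * ∏ p ∈ pri a b, (1 + (1 : ℝ) / p)) ∧
  (∃ C : ℝ, ∀ M a y : ℕ, 210 ∣ M → 2 ≤ y → Mass (PP M a y) ≤ C * Real.log y ^ 6)

/-- moments of product measures -/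
def PMStmt : Prop := ∀ (P : Finset ℕ) (w : ℕ → ℝ), (∀ p ∈ P, 0 ≤ w p) →
  (∀ (φ : ℕ → ℝ) (T : ℝ), (∀ p ∈ P, 0 ≤ φ p) →
    T * ∑ A ∈ P.powerset.filter (fun A => T < ∑ p ∈ A, φ p), ∏ p ∈ A, w p ≤
      (∑ p ∈ P, φ p * w p) * ∏ p ∈ P, (1 + w p)) ∧
  ∑ A ∈ P.powerset, ((A.card : ℝ) - ∑ p ∈ P, w p / (1 + w p)) ^ 2 * ∏ p ∈ A, w p ≤
    (∑ p ∈ P, w p) * ∏ p ∈ P, (1 + w p)

/-- independence of coprime moduli -/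
def CRTStmt : Prop := ∀ (P : Finset ℕ) (f : ℕ → ℤ → ℝ) (a : ℤ) (N : ℕ), (∀ p ∈ P, p.Prime) →
  (∀ p ∈ P, ∀ n, f p (n + p) = f p n) → (∀ p ∈ P, ∀ n, |f p n| ≤ 1) →
  |∑ n ∈ Ico a (a + N), ∏ p ∈ P, f p n - N * ∏ p ∈ P, ((∑ r ∈ range p, f p r) / p)| ≤
    2 * ∏ p ∈ P, (p : ℝ)

open Classical in
/-- Selberg's upper bound sieve -/
def SVStmt : Prop := ∀ (P : Finset ℕ) (bad : ℕ → ℤ → Prop) (ω : ℕ → ℕ) (Q : Finset (Finset ℕ))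
  (a : ℤ) (N R : ℕ), (∀ p ∈ P, p.Prime) → (∀ p ∈ P, ∀ n, bad p (n + p) ↔ bad p n) →
  (∀ p ∈ P, ((range p).filter fun r : ℕ => bad p r).card = ω p ∧ 2 * ω p ≤ p) →
  ∅ ∈ Q → (∀ q ∈ Q, q ⊆ P ∧ ∏ p ∈ q, p ≤ R) →
  (((Ico a (a + N)).filter fun n => ∀ p ∈ P, ¬bad p n).card : ℝ) ≤
    N / (∑ q ∈ Q, ∏ p ∈ q, (ω p : ℝ) / (p - ω p)) + 2 * R ^ 6

/-- complete sums of Jacobi symbols -/
def JACStmt : Prop :=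
  (∀ N : ℕ, Odd N → ¬IsSquare N → ∑ l ∈ range N, jacobiSym l N = 0) ∧
  ∀ G : ℤ, G ≠ 0 → ¬IsSquare G →
    ∑ l ∈ (range (4 * G.natAbs)).filter Odd, jacobiSym G l = 0

/-- double oscillation -/
def DOStmt : Prop := ∃ C : ℕ, ∀ (U U' P P' : ℕ) (b : ℕ → ℝ), 1 ≤ U → 1 ≤ P → (∀ n, |b n| ≤ 1) →
  (∀ n, b n ≠ 0 → Odd n) →
  ∑ m ∈ Ioc U U', (1 : ℝ) / m * |∑ n ∈ Ioc P P', b n * jacobiSym m n / n| ≤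
    C * (1 + Real.log U' + Real.log P') ^ C * ((min U P : ℕ) : ℝ) ^ (-(1 / 8) : ℝ)

/-- Siegel-Walfisz -/
def SWStmt : Prop := ∀ A B : ℕ, ∀ᶠ x : ℝ in atTop, ∀ (y : ℝ) (q a : ℕ), 0 ≤ y → y ≤ x → 1 ≤ q →
  (q : ℝ) ≤ Real.log x ^ B → a.Coprime q →
  |∑ p ∈ (pri 0 ⌊y⌋₊).filter (fun p => p ≡ a [MOD q]), Real.log p - y / q.totient| ≤
    x / Real.log x ^ A

def CHSStmt : Prop := ∀ (k B : ℕ) (ε : ℝ), 0 < ε → ∀ᶠ y : ℕ in atTop, ∀ (y' : ℕ) (G : ℤ),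
  y' ≤ y ^ k → G ≠ 0 → ¬IsSquare G → (|G| : ℝ) ≤ Real.log y ^ B → |chs G y y'| ≤ ε

/-- exceptional characters are rare -/
def EXCStmt : Prop := ∀ (k κ A : ℕ) (ε : ℝ), 0 < ε → ∀ᶠ y : ℕ in atTop,
  ∀ (y' : ℕ) (E : Finset ℤ), y' ≤ y ^ k →
    (∀ G ∈ E, Squarefree G.natAbs ∧ G ≠ 1 ∧ (∀ p ∈ G.natAbs.primeFactors, p ≤ y) ∧
      ε < |chs G y y'|) →
    ∑ G ∈ E, (κ : ℝ) ^ G.natAbs.primeFactors.card / |(G : ℝ)| ≤ 1 / Real.log y ^ A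

open Classical in
/-- exceptional configurations are rare -/
def EXPStmt : Prop := ∀ (M k : ℕ) (ε η : ℝ), 0 < M → 210 ∣ M → 0 < ε → 0 < η →
  ∀ᶠ y : ℕ in atTop, ∀ y₀ y' : ℕ, y₀ ≤ y → y' ≤ y ^ k →
    ∑ Z ∈ (TT (PP M 0 y₀)).powerset.filter (fun Z => Dist Z ∧
      ∃ x ⊆ V0 M ∪ Z, ∃ j, Gv j x ≠ 1 ∧ ε < |chs (Gv j x) y y'|), Wt Z * 2 ^ Z.card ≤ η

/-! ### D. positivity -/

/-- the minor arcs -/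
def BILStmt : Prop := ∃ C : ℝ, ∀ (x N d : ℕ) (a : ℤ) (φ : ℝ) (α β : ℕ → ℂ), 1 ≤ N → 1 ≤ d →
  a.natAbs.Coprime d → |φ - a / d| ≤ 1 / (d : ℝ) ^ 2 → (∀ n, ‖α n‖ ≤ 1) → (∀ n, ‖β n‖ ≤ 1) →
  ‖∑ c ∈ Ioc N (2 * N), ∑ P ∈ Icc 1 (x / c), α c * β P * eR (c * P * φ)‖ ^ 2 ≤
    C * (1 + Real.log d) * (x ^ 2 / d + x ^ 2 / N + x * (N + d))

/-- the major arcs -/
def MAJStmt : Prop := ∀ M P₀ q H J A B : ℕ, 0 < M → 2 ≤ P₀ →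
  (∀ p : ℕ, p.Prime → p ≤ P₀ → p ∣ M) → 0 < q → M ∣ q → (∀ p : ℕ, p.Prime → p ∣ q → p ∣ M) →
  Ev M J fun S => ∀ (r x₁ x₂ d : ℕ) (a : ℤ), r.Coprime M → x₁ ≤ x₂ → x₂ ≤ H * S.Z → 1 ≤ d →
    (d : ℝ) ≤ Real.log S.Z ^ B → a.natAbs.Coprime d →
    ‖∑ n ∈ (Ioc x₁ x₂).filter (fun n => n ≡ r [MOD q]),
        ((Fs S n - rho M * mu S : ℝ) : ℂ) * eR (n * a / d)‖ ≤
      4 / P₀ * (rho M * muT S) * ((x₂ - x₁ : ℝ) / q) + S.Z / Real.log S.Z ^ A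

/-- Fourier uniformity in a residue class -/
def UStmt : Prop := ∀ (M P₀ q H J : ℕ) (ε : ℝ), 0 < M → 2 ≤ P₀ →
  (∀ p : ℕ, p.Prime → p ≤ P₀ → p ∣ M) → 0 < q → M ∣ q → (∀ p : ℕ, p.Prime → p ∣ q → p ∣ M) →
  1 ≤ J → 0 < ε →
  Ev M J fun S => ∀ (r L : ℕ) (θ : ℝ), r.Coprime M → 1 ≤ r → r ≤ H → r + q * L ≤ H * S.Z →
    ‖∑ k ∈ range L, ((Fs S (r + q * k) - rho M * mu S : ℝ) : ℂ) * eR (k * θ)‖ ≤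
      4 / P₀ * (rho M * muT S) * L + ε * S.Z * Real.log S.Z

/-- ternary sums -/
def TERStmt : Prop := ∀ (N₁ N₂ : ℕ) (f₁ f₂ g : ℕ → ℝ) (T : ℝ), (∀ n, |f₁ n| ≤ 1) →
  (∀ n, |f₂ n| ≤ 1) → (∀ θ : ℝ, ‖∑ k ∈ range (N₁ + N₂), (g k : ℂ) * eR (k * θ)‖ ≤ T) →
  |∑ a ∈ range N₁, ∑ b ∈ range N₂, f₁ a * f₂ b * g (a + b)| ≤ T * √(N₁ * N₂)

/-- good numbers have positive density -/
def MASStmt : Prop := ∃ (c : ℝ) (J₀ : ℕ), 0 < c ∧ ∀ M J : ℕ, 0 < M → J₀ ≤ J →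
  Ev M J fun S => c * Real.log S.Z ≤ rho M * muT S

open Classical in
/-- three good values -/
def TRIStmt : Prop := ∃ (δ : ℝ) (J₀ : ℕ), 0 < δ ∧ ∀ K : ℕ, ∃ P₀ : ℕ, ∀ N : ℕ, 0 < N →
  (∀ p : ℕ, p.Prime → p ≤ P₀ → p ∣ 3 * N) → ¬3 ∣ N → ∀ J H : ℕ, J₀ ≤ J →
  Ev (3 * N) J fun S => ∃ e : ℕ, ∀ n : ℕ, 225 ^ K ∣ n → 24 * N * (N * n) ≤ S.Z → S.Z ≤ H * n →
    ∀ i < K, ∀ j < K, δ * ((N * n : ℕ) * (3 * n : ℕ)) ≤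
      (((range (N * n) ×ˢ range (3 * n)).filter fun x =>
        Shape { S with e := e } (1 + 24 * N * x.1) ∧ Shape { S with e := e } (1 + 24 * N * x.2) ∧
        Shape { S with e := e }
          (3 * (3 ^ i) ^ 2 * (1 + 24 * N * x.1) + N * (5 ^ j) ^ 2 * (1 + 24 * N * x.2))).card : ℝ)

/-- six good values -/
def POSStmt : Prop := ∃ K P₀ J₀ : ℕ, ∀ N : ℕ, 0 < N →
  (∀ p : ℕ, p.Prime → p ≤ P₀ → p ∣ 3 * N) → ¬3 ∣ N → ∃ c : ℝ, 0 < c ∧ ∀ J : ℕ, J₀ ≤ J →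
  Ev (3 * N) J fun S => ∃ e : ℕ, ∃ i < K, ∃ i' < K, ∃ j < K, ∃ j' < K, i ≠ i' ∧ j ≠ j' ∧
    c * (S.Z : ℝ) ^ 2 ≤
      ((AA { S with e := e } (cA (3 ^ i) (3 ^ i')) (cB N (5 ^ j) (5 ^ j'))).card : ℝ)

/-! ### E. domination by a product measure -/

open Classical in
/-- the sieve bound -/
def FIBStmt : Prop := ∀ (M : ℕ) (A B : Fin 6 → ℕ), Sys M A B → ∃ C : ℝ, ∀ᶠ y : ℕ in atTop,
  ∀ (Z : ℕ) (c : Fin 6 → ℕ), y ^ 200 ≤ Z → (∀ h, Squarefree (c h) ∧ (c h).Coprime M ∧ c h ≤ y ^ 6 ∧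
    ∀ p ∈ (c h).primeFactors, p ≤ y) → (∀ h k, h ≠ k → (c h).Coprime (c k)) →
    (((Icc 1 Z ×ˢ Icc 1 Z).filter fun x => ∀ h, ∃ P : ℕ, P.Prime ∧ y < P ∧
      lf A B x h = c h * P).card : ℝ) ≤
      C * (Z : ℝ) ^ 2 / Real.log y ^ 6 * ∏ h, ∏ p ∈ (c h).primeFactors, wt p

open Classical in
def DOMStmt : Prop := ∀ (M : ℕ) (A B : Fin 6 → ℕ), Sys M A B → ∃ C : ℝ, 0 ≤ C ∧ ∀ J : ℕ,
  Ev M J fun S => ∀ Φ : Finset Gen → Finset Gen → ℝ, (∀ W W', 0 ≤ Φ W W') →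
    ∑ x ∈ AA S A B, Φ (le S.Y (gens (lf A B x))) (md S.Y S.Y' (gens (lf A B x))) ≤
      C * (S.Z : ℝ) ^ 2 / Real.log S.Y' ^ 6 *
        ∑ W ∈ (TT (PP M 0 S.Y0)).powerset.filter Dist, ∑ W' ∈ (TT (PP M S.Y S.Y')).powerset,
          Wt W * Wt W' * Φ W W'

open Classical in
/-- one new prime contracts the kernel on average -/
def STEPStmt : Prop := ∀ (c : ℤ) (V : Finset Gen) (P : Finset ℕ) (w : ℕ → ℝ), Nice V →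
  (∀ p ∈ P, p.Prime ∧ p ≠ 2 ∧ 0 ≤ w p ∧ ∀ a ∈ V, a.2 ≠ p) → 10000 ≤ (Ker (gp c) V).card →
  (∀ x ⊆ V, ∀ j, Gv j x ≠ 1 →
    |∑ p ∈ P, w p * jacobiSym (Gv j x) p| ≤ (∑ p ∈ P, w p) / 100) →
  ∑ b ∈ TT P, w b.2 * √((Ker (gp c) (insert b V)).card) ≤
    0.96 * (6 * ∑ p ∈ P, w p) * √((Ker (gp c) V).card)

open Classical in
/-- the kernel on the small primes is tight -/
def LYAStmt : Prop := ∀ (M : ℕ) (c : ℤ), 0 < M → 210 ∣ M → ∃ C : ℝ, ∀ y : ℕ,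
  ∑ W ∈ (TT (PP M 0 y)).powerset.filter Dist, Wt W * √((Ker (gp c) (V0 M ∪ W)).card) ≤
    C * Mass (PP M 0 y)

open Classical in
/-- small vectors are killed by the medium primes -/
def KILStmt : Prop := ∀ (M : ℕ) (c : ℤ) (T J : ℕ), 0 < M → 210 ∣ M →
  Ev M J fun S =>
    ∑ W ∈ (TT (PP M 0 S.Y0)).powerset.filter Dist, ∑ W' ∈ (TT (PP M S.Y S.Y')).powerset,
      Wt W * Wt W' *
        (if (Ker (gp c) (V0 M ∪ W)).card ≤ T ∧ Bad c (V0 M ∪ W) W' then 1 else 0) ≤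
      3 * T / 2 ^ J * (Mass (PP M 0 S.Y0) * Mass (PP M S.Y S.Y'))

/-! ### G. oscillation -/

/-- the Gowers-Cauchy-Schwarz inequality -/
def BOXStmt : Prop := ∀ (k T : ℕ) (g : Fin k → (Fin k → Fin T) → ℝ) (h : (Fin k → Fin T) → ℝ),
  (∀ i t, |g i t| ≤ 1) → (∀ i t x, g i (Function.update t i x) = g i t) →
  (∑ t, (∏ i, g i t) * h t) ^ 2 ^ k * (T : ℝ) ^ (2 * k) ≤
    (T : ℝ) ^ (k * 2 ^ k) * ∑ t, ∑ t', ∏ ω : Fin k → Bool, h (vx t t' ω)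

/-- shifting along the kernels of the forms -/
def SHIStmt : Prop := ∀ (k T H R Q : ℕ) (i₀ j₀ : ℤ) (A B : Fin k → ℤ) (ψ : Fin k → ℤ → ℝ)
  (κ : ℤ → ℝ), 1 ≤ k → 1 ≤ T → (∀ m, |A m| ≤ H ∧ |B m| ≤ H) → (∀ m x, |ψ m x| ≤ 1) →
  (∀ i j, ∏ m, ψ m (A m * i + B m * j) ≠ 0 → i ∈ Ico i₀ (i₀ + R)) →
  (∀ j, κ j ≠ 0 → j ∈ Ico j₀ (j₀ + Q)) →
  (∑ i ∈ Ico i₀ (i₀ + R), ∑ j ∈ Ico j₀ (j₀ + Q), (∏ m, ψ m (A m * i + B m * j)) * κ j) ^ 2 ^ k *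
      (T : ℝ) ^ (2 * k) ≤
    (((R : ℝ) + 2 * k * H * T) * (Q + 2 * k * H * T)) ^ (2 ^ k - 1) * (R + 2 * k * H * T) *
      ∑ t : Fin k → Fin T, ∑ t' : Fin k → Fin T,
        ∑ j ∈ Ico (j₀ - k * H * T) (j₀ + Q + k * H * T),
          ∏ ω : Fin k → Bool, κ (j - ∑ m, A m * (vx t t' ω m : ℕ))

/-- the centred kernel is Gowers uniform -/
def CENStmt : Prop := ∀ k : ℕ, 1 ≤ k → ∃ C : ℝ, ∀ (Y Y' T Q D : ℕ) (q₀ j₀ a b : ℤ) (P : Finset ℕ)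
  (c : ℕ → ℝ) (A : Fin k → ℤ) (L : ℝ), 1 ≤ Y → 1 ≤ T →
  (∀ s ∈ P, s.Prime ∧ Y < s ∧ s ≤ Y' ∧ ¬s ∣ D ∧ ∀ m, ¬(s : ℤ) ∣ A m) → (∀ s, |c s| ≤ 1) → 1 ≤ L →
  (∀ j ∈ Ico j₀ (j₀ + Q), ∑ s ∈ P, |(if (s : ℤ) ∣ q₀ + D * j then 1 else 0) - 1 / (s : ℝ)| ≤ L) →
  ∑ t : Fin k → Fin T, ∑ t' : Fin k → Fin T, ∑ j ∈ Ico a b, ∏ ω : Fin k → Bool,
      (fun i : ℤ => if i ∈ Ico j₀ (j₀ + Q) then kc P c (q₀ + D * i) else 0)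
        (j - ∑ m, A m * (vx t t' ω m : ℕ)) ≤
    C * (T : ℝ) ^ (2 * k) * (L ^ 2 ^ k * (Q + Y') * (1 / Y + 1 / T) + (Y' : ℝ) ^ 2 ^ (k + 1))

/-- one pair of inner variables: the centred part -/
def PAIRStmt : Prop := ∀ k : ℕ, ∀ᶠ Y : ℕ in atTop, ∀ (Y' R Q D m : ℕ) (P : Finset ℕ) (c : ℕ → ℝ)
  (A B : Fin 10 → ℤ) (ψ : Fin 10 → ℤ → ℝ) (Per : ℤ → ℝ) (ρ : ℤ → ℤ), Y ≤ Y' → Y' ≤ Y ^ k →
  Y' ^ 5000 ≤ R → Y' ^ 5000 ≤ Q → Q ≤ Y' ^ 30000 → 1 ≤ D → D ≤ Y' ^ 32 → m ∣ D →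
  (∀ s ∈ P, s.Prime ∧ Y < s ∧ s ≤ Y' ∧ ¬s ∣ D ∧ ∀ i, ¬(s : ℤ) ∣ A i) → (∀ s, |c s| ≤ 1) →
  (∀ i, |A i| ≤ (Y' : ℤ) ^ 12 ∧ |B i| ≤ (Y' : ℤ) ^ 12) → (∀ i x, |ψ i x| ≤ 1) →
  (∀ q, |Per q| ≤ 1) → (∀ q, Per (q + D) = Per q) → (∀ r r', r ≡ r' [ZMOD D] → ρ r = ρ r') →
  (∀ r q : ℤ, (∀ i, ψ i (A i * r + B i * q) ≠ 0) → q ≡ ρ r [ZMOD m]) →
  |∑ r ∈ Icc 1 R, ∑ q ∈ Icc 1 Q, Per q * (∏ i, ψ i (A i * r + B i * q)) * kc P c q| ≤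
    R * Q / m * (Y : ℝ) ^ (-(1 / 2100) : ℝ)

/-- the oscillation estimate -/
def GStmt : Prop := ∀ k F : ℕ, ∀ᶠ Y : ℕ in atTop, ∀ (Y' R Q N : ℕ) (P : Finset ℕ) (Ω : Type)
  (W : Finset Ω) (ν : Ω → ℕ) (K : Ω → ℤ) (σ : ℕ → Ω → ℤ) (α β : Fin 5 → ℤ) (A : ℕ → ℕ → ℕ → ℝ)
  (B : ℕ → Ω → ℝ) (Per : ℕ → Ω → ℤ → ℝ) (ψ : ℕ → Ω → Fin 5 → ℤ → ℝ), Y ≤ Y' → Y' ≤ Y ^ k →
  Y' ^ 5000 ≤ R → Y' ^ 5000 ≤ Q → Q ≤ Y' ^ 30000 → Y ≤ 2 * N → N ≤ Y' ^ 3 →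
  (∀ s ∈ P, s.Prime ∧ Y < s ∧ s ≤ Y' ∧ ∀ i, ¬(s : ℤ) ∣ α i) →
  (∀ i, |α i| ≤ (Y' : ℤ) ^ 8 ∧ |β i| ≤ (Y' : ℤ) ^ 8) → (∀ ω ∈ W, 1 ≤ ν ω ∧ ν ω ≤ Y' ^ 12) →
  (∀ m, (W.filter fun ω => ν ω = m).card ≤ F) → (∀ n ω, σ n ω = 1 ∨ σ n ω = -1) →
  (∀ r q s, |A r q s| ≤ 1) → (∀ n ω, |B n ω| ≤ 1) → (∀ n ω q, |Per n ω q| ≤ 1) →
  (∀ n ω i x, |ψ n ω i x| ≤ 1) → (∀ n ω q, Per n ω (q + n * ν ω) = Per n ω q) →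
  (∀ n ω q, Per n ω q ≠ 0 → IsCoprime q (n * ν ω)) →
  (∀ n, ∀ ω ∈ W, ∃ ρ : ℤ, ∀ r q : ℤ, (∀ i, ψ n ω i (α i * n * r + β i * q) ≠ 0) →
    q ≡ ρ * r [ZMOD ν ω]) →
  |∑ r ∈ Icc 1 R, ∑ q ∈ Icc 1 Q, ∑ s ∈ P.filter (· ∣ q), A r q s *
      ∑ n ∈ Ioc N (2 * N), ∑ ω ∈ W, B n ω * jacobiSym (σ n ω * n * K ω) s * Per n ω q *
        ∏ i, ψ n ω i (α i * n * r + β i * q)| ≤ R * Q * N * (Y : ℝ) ^ (-(1 / 5000) : ℝ)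

/-- the sum with frozen data -/
def KEYStmt : Prop := ∀ (M : ℕ) (A B : Fin 6 → ℕ) (c : ℤ) (J : ℕ), Sys M A B → c ≠ 0 →
  (∀ p : ℕ, p.Prime → (p : ℤ) ∣ c → p ∣ M) →
  Ev M J fun S => ∀ y ∈ Ys, ∀ y' ∈ Ys, ∀ (f g : TL) (ok : Finset TL → Prop)
    (O O₁ O₂ : Finset Gen) (i : ℕ), f.1 ≠ g.1 → Odd (expo y y' f g) →
    |keySum S A B c y y' f g ok O O₁ O₂ i| ≤
      (S.Z : ℝ) ^ 2 / ((S.Y0 : ℝ) ^ 60 * ∏ b ∈ O.filter (fun b => S.Y < b.2), (b.2 : ℝ))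

open Classical in
def OSCStmt : Prop := ∀ (M : ℕ) (A B : Fin 6 → ℕ) (c : ℤ) (J : ℕ) (ε : ℝ), Sys M A B → c ≠ 0 →
  (∀ p : ℕ, p.Prime → (p : ℤ) ∣ c → p ∣ M) → 0 < ε →
  Ev M J fun S => ∀ pr : Finset Gen → Prop,
    |∑ x ∈ (AA S A B).filter (fun x => pr (le S.Y (VV M (lf A B x)))),
      osc (gp c) S.Y S.Y' (VV M (lf A B x))| ≤ ε * (S.Z : ℝ) ^ 2

/-! ### I. the end -/

open Classical in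
/-- a positive proportion of the parameters has a kernel of size at most sixteen -/
def MKVStmt : Prop := ∀ (M : ℕ) (A B : Fin 6 → ℕ) (c : ℤ) (δ : ℝ), Sys M A B → c ≠ 0 →
  (∀ p : ℕ, p.Prime → (p : ℤ) ∣ c → p ∣ M) → Odd M.primeFactors.card → 0 < δ →
  ∃ J₀ : ℕ, ∀ J : ℕ, J₀ ≤ J → Ev M J fun S => δ * (S.Z : ℝ) ^ 2 ≤ (AA S A B).card →
    δ / 32 * (S.Z : ℝ) ^ 2 ≤
      (((AA S A B).filter fun x => (Ker (gp c) (VV M (lf A B x))).card ≤ 16).card : ℝ)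

open Classical in
def MainStmt : Prop := ∃ (K : ℕ) (c : ℝ), 0 < c ∧ ∀ᶠ X : ℕ in atTop,
  ∃ u ∈ Icc 1 K, ∃ v ∈ Icc 1 K, ∃ w ∈ Icc 1 K, ∃ z ∈ Icc 1 K, c * (X : ℝ) ^ 2 ≤
    (((Icc 1 X ×ˢ Icc 1 X).filter fun x : ℕ × ℕ =>
      x.1.Coprime x.2 ∧ Good (Efam u v w z x.1 x.2)).card : ℝ)

theorem main_of (sha : SHAStmt) (rank : RANKStmt) (loc : KCStmt → LOCStmt)
    (alg : KCStmt → SHAStmt → RANKStmt → LOCStmt → ALGStmt) (bor : BORStmt) (cnt : CNTStmt) (kc : KCStmt)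
    (sym : SYMStmt) (mer : MERStmt) (pm : PMStmt) (crt : CRTStmt) (sv : CRTStmt → SVStmt)
    (jac : JACStmt) (dos : JACStmt → DOStmt) (sw : SWStmt) (chs : JACStmt → SWStmt → CHSStmt)
    (exc : MERStmt → DOStmt → CHSStmt → EXCStmt) (exp : KCStmt → MERStmt → EXCStmt → EXPStmt)
    (bil : BILStmt) (maj : SWStmt → MAJStmt) (uu : BILStmt → MAJStmt → UStmt) (ter : TERStmt)
    (mas : MERStmt → PMStmt → MASStmt) (tri : UStmt → TERStmt → MASStmt → TRIStmt)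
    (pos : TRIStmt → POSStmt) (fib : MERStmt → PMStmt → SVStmt → FIBStmt)
    (dom : FIBStmt → DOMStmt) (step : BORStmt → KCStmt → STEPStmt)
    (lya : BORStmt → MERStmt → EXPStmt → STEPStmt → LYAStmt)
    (kil : KCStmt → MERStmt → EXPStmt → KILStmt) (box : BOXStmt) (shi : BOXStmt → SHIStmt)
    (cen : CRTStmt → CENStmt) (pair : MERStmt → SHIStmt → CENStmt → PAIRStmt)
    (gg : MERStmt → DOStmt → PAIRStmt → GStmt) (key : KCStmt → SYMStmt → GStmt → KEYStmt)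
    (os : KEYStmt → OSCStmt)
    (mkv : BORStmt → CNTStmt → MERStmt → DOMStmt → LYAStmt → KILStmt → OSCStmt → MKVStmt)
    (fin : ALGStmt → POSStmt → MKVStmt → MainStmt) : MainStmt :=
  have hdo := dos jac
  have hexp := exp kc mer (exc mer hdo (chs jac sw))
  fin (alg kc sha rank (loc kc)) (pos (tri (uu bil (maj sw)) ter (mas mer pm)))
    (mkv bor cnt mer (dom (fib mer pm (sv crt))) (lya bor mer hexp (step bor kc))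
      (kil kc mer hexp) (os (key kc sym (gg mer hdo (pair mer (shi box) (cen crt))))))

end Pool.Agent.MP_a43263_nt.R2
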