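import Mathlib.Topology.Sheaves.Presheaf
import Mathlib.Tactic.Monotonicity.Lemmas
import Mathlib.Algebra.Order.Ring.Star
import Mathlib.Algebra.Order.Star.Real
import Mathlib.Combinatorics.SimpleGraph.Basic
import Mathlib.Tactic.NormNum.Prime
import Pool.Agent.MP_a43263_nt.R2.Spec

/-! PROJECT RANK2: elementary facts used by several modules. -/

set_option autoImplicit false
set_option linter.unusedSectionVars false

noncomputable section

namespace Pool.Agent.MP_a43263_nt.R2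

open Finset Filter

/-! ### signs -/

theorem sg_sgn (j : ℤ) : sg j = 1 ∨ sg j = -1 := by
  unfold sg; split_ifs <;> simp

theorem sg_eq {j : ℤ} (h : j = 1 ∨ j = -1) : sg j = j := by
  rcases h with rfl | rfl <;> simp [sg]

theorem gp_sgn (c : ℤ) : Sgn (gp c) := by
  refine ⟨fun a b => ?_, fun a b => ?_⟩
  · by_cases h : a = b
    · rw [h]
    · have h3 : ∀ j : Fin 3, j = 0 ∨ j = 1 ∨ j = 2 := by decide
      unfold gp
      rw [if_neg h, if_neg (Ne.symm h)]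
      rcases h3 (cls a.1) with ha | ha | ha <;> rcases h3 (cls b.1) with hb | hb | hb <;>
        simp [ha, hb, and_comm]
  · unfold gp
    split_ifs <;> first | exact sg_sgn _ | simp

section
variable {ι : Type} [DecidableEq ι]

theorem prod_sgn {f : ι → ℤ} (x : Finset ι) (hf : ∀ a ∈ x, f a = 1 ∨ f a = -1) :
    ∏ a ∈ x, f a = 1 ∨ ∏ a ∈ x, f a = -1 :=
  prod_induction f (fun z => z = 1 ∨ z = -1)
    (by rintro a b (rfl | rfl) (rfl | rfl) <;> simp) (.inl rfl) hf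

theorem prod_symmDiff {f : ι → ℤ} (hf : ∀ a, f a = 1 ∨ f a = -1) (x y : Finset ι) :
    ∏ a ∈ symmDiff x y, f a = (∏ a ∈ x, f a) * ∏ a ∈ y, f a := by
  have h1 : ∏ a ∈ x, f a = (∏ a ∈ x \ y, f a) * ∏ a ∈ x ∩ y, f a := by
    rw [← prod_union (disjoint_sdiff_inter x y), sdiff_union_inter]
  have h2 : ∏ a ∈ y, f a = (∏ a ∈ y \ x, f a) * ∏ a ∈ x ∩ y, f a := by
    rw [inter_comm, ← prod_union (disjoint_sdiff_inter y x), sdiff_union_inter]
  rw [h1, h2, symmDiff_def, sup_eq_union, prod_union disjoint_sdiff_sdiff]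
  rcases prod_sgn (x ∩ y) (fun a _ => hf a) with h | h <;> rw [h] <;> ring

variable {g : ι → ι → ℤ}

theorem chi_comm (hg : Sgn g) (x y : Finset ι) : chi g x y = chi g y x := by
  unfold chi
  rw [Finset.prod_comm]
  exact prod_congr rfl fun _ _ => prod_congr rfl fun _ _ => hg.1 _ _

theorem chi_sgn (hg : Sgn g) (x y : Finset ι) : chi g x y = 1 ∨ chi g x y = -1 :=
  prod_sgn _ fun _ _ => prod_sgn _ fun _ _ => hg.2 _ _

/-- the pairing as a product over the rows -/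
theorem chi_eq_rows (g : ι → ι → ℤ) (x y : Finset ι) : chi g x y = ∏ b ∈ y, ∏ a ∈ x, g a b :=
  Finset.prod_comm

theorem chi_symmDiff_left (hg : Sgn g) (x x' y : Finset ι) :
    chi g (symmDiff x x') y = chi g x y * chi g x' y :=
  prod_symmDiff (fun _ => prod_sgn _ fun _ _ => hg.2 _ _) x x'

theorem chi_symmDiff_right (hg : Sgn g) (x y y' : Finset ι) :
    chi g x (symmDiff y y') = chi g x y * chi g x y' := by
  rw [chi_comm hg, chi_symmDiff_left hg, chi_comm hg y, chi_comm hg y']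

theorem chi_union_left {x x' : Finset ι} (h : Disjoint x x') (y : Finset ι) :
    chi g (x ∪ x') y = chi g x y * chi g x' y := prod_union h

theorem chi_union_right (x : Finset ι) {y y' : Finset ι} (h : Disjoint y y') :
    chi g x (y ∪ y') = chi g x y * chi g x y' := by
  unfold chi
  rw [← prod_mul_distrib]
  exact prod_congr rfl fun _ _ => prod_union h

theorem mem_Ker {V x : Finset ι} : x ∈ Ker g V ↔ x ⊆ V ∧ ∀ b ∈ V, ∏ a ∈ x, g a b = 1 := by
  simp [Ker]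

theorem empty_mem_Ker (V : Finset ι) : ∅ ∈ Ker g V := by simp [Ker]

theorem Ker_card_pos (V : Finset ι) : 0 < (Ker g V).card := card_pos.2 ⟨_, empty_mem_Ker V⟩

theorem symmDiff_mem_Ker (hg : Sgn g) {V x y : Finset ι} (hx : x ∈ Ker g V) (hy : y ∈ Ker g V) :
    symmDiff x y ∈ Ker g V := by
  rw [mem_Ker] at *
  refine ⟨symmDiff_subset_union.trans (union_subset hx.1 hy.1), fun b hb => ?_⟩
  rw [prod_symmDiff (fun a => hg.2 a b), hx.2 b hb, hy.2 b hb, mul_one]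

theorem Ker_card_le (V : Finset ι) : (Ker g V).card ≤ 2 ^ V.card :=
  (card_filter_le _ _).trans (card_powerset V).le

/-- orthogonality: the sum over all subsets of a product of signs -/
theorem sum_powerset_prod_sgn {f : ι → ℤ} (V : Finset ι) (hf : ∀ b ∈ V, f b = 1 ∨ f b = -1) :
    ∑ y ∈ V.powerset, ∏ b ∈ y, f b = if ∀ b ∈ V, f b = 1 then 2 ^ V.card else 0 := by
  rw [← prod_one_add]
  split_ifs with h
  · rw [prod_congr rfl fun b hb => by rw [h b hb], prod_const]; norm_num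
  · push Not at h
    obtain ⟨b, hb, h⟩ := h
    exact prod_eq_zero hb (by rw [(hf b hb).resolve_left h]; norm_num)

end

/-! ### membership -/

theorem mem_pri {a b p : ℕ} : p ∈ pri a b ↔ a < p ∧ p ≤ b ∧ p.Prime := by
  simp [pri, and_assoc]

theorem mem_PP {M a b p : ℕ} : p ∈ PP M a b ↔ a < p ∧ p ≤ b ∧ p.Prime ∧ ¬p ∣ M := by
  simp [PP, mem_pri, and_assoc]

theorem mem_TT {P : Finset ℕ} {a : Gen} : a ∈ TT P ↔ a.1 ≠ 6 ∧ a.2 ∈ P := by
  simp [TT]

theorem mem_V0 {M : ℕ} {a : Gen} :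
    a ∈ V0 M ↔ a.1 = 6 ∧ (a.2 = 1 ∨ a.2 ∈ M.primeFactors) := by
  obtain ⟨k, p⟩ := a
  simp only [V0, mem_insert, mem_image, Prod.mk.injEq]
  constructor
  · rintro (⟨rfl, rfl⟩ | ⟨q, hq, rfl, rfl⟩)
    · exact ⟨rfl, .inl rfl⟩
    · exact ⟨rfl, .inr hq⟩
  · rintro ⟨rfl, rfl | h⟩
    · exact .inl ⟨rfl, rfl⟩
    · exact .inr ⟨p, h, rfl, rfl⟩

theorem mem_gens {l : Fin 6 → ℕ} {a : Gen} :
    a ∈ gens l ↔ ∃ h : Fin 6, a.1 = h.castSucc ∧ a.2 ∈ (l h).primeFactors := by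
  obtain ⟨k, p⟩ := a
  simp only [gens, mem_biUnion, mem_univ, true_and, mem_image, Prod.mk.injEq]
  constructor
  · rintro ⟨h, q, hq, rfl, rfl⟩
    exact ⟨h, rfl, hq⟩
  · rintro ⟨h, rfl, hq⟩
    exact ⟨h, p, hq, rfl, rfl⟩

theorem castSucc_ne_six (h : Fin 6) : h.castSucc ≠ (6 : Fin 7) := (Fin.castSucc_lt_last h).ne

theorem exists_castSucc {k : Fin 7} (hk : k ≠ 6) : ∃ h : Fin 6, k = h.castSucc :=
  (Fin.exists_castSucc_eq.2 hk).imp fun _ h => h.symm

theorem mk_mem_gens {l : Fin 6 → ℕ} {h : Fin 6} {p : ℕ} :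
    (h.castSucc, p) ∈ gens l ↔ p ∈ (l h).primeFactors := by
  rw [mem_gens]
  refine ⟨fun ⟨k, e, hk⟩ => ?_, fun hp => ⟨h, rfl, hp⟩⟩
  rwa [Fin.castSucc_injective _ e]

theorem mem_VV {M : ℕ} {l : Fin 6 → ℕ} {a : Gen} : a ∈ VV M l ↔ a ∈ V0 M ∨ a ∈ gens l := mem_union

theorem mk_mem_VV {M : ℕ} {l : Fin 6 → ℕ} {h : Fin 6} {p : ℕ} :
    (h.castSucc, p) ∈ VV M l ↔ p ∈ (l h).primeFactors := by
  rw [mem_VV, mk_mem_gens, mem_V0]
  exact or_iff_right fun e => castSucc_ne_six h e.1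

theorem disjoint_V0_gens (M : ℕ) (l : Fin 6 → ℕ) : Disjoint (V0 M) (gens l) := by
  rw [disjoint_left]
  intro a ha hb
  obtain ⟨h, e, -⟩ := mem_gens.1 hb
  exact castSucc_ne_six h (e ▸ (mem_V0.1 ha).1)

theorem card_V0 (M : ℕ) : (V0 M).card = M.primeFactors.card + 1 := by
  rw [V0, card_insert_of_notMem, card_image_of_injective _ (Prod.mk_right_injective _)]
  simp only [mem_image, Prod.mk.injEq, true_and, exists_eq_right]
  exact fun h => Nat.not_prime_one (Nat.prime_of_mem_primeFactors h)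

theorem filter_tag_gens (l : Fin 6 → ℕ) (h : Fin 6) :
    (gens l).filter (fun a => a.1 = h.castSucc) =
      (l h).primeFactors.image fun p => (h.castSucc, p) := by
  ext ⟨k, p⟩
  simp only [mem_filter, mem_image, Prod.mk.injEq]
  constructor
  · rintro ⟨h1, rfl⟩
    exact ⟨p, mk_mem_gens.1 h1, rfl, rfl⟩
  · rintro ⟨q, hq, rfl, rfl⟩
    exact ⟨mk_mem_gens.2 hq, rfl⟩

/-- products over all generators, form by form -/
theorem prod_gens {R : Type} [CommMonoid R] (l : Fin 6 → ℕ) (F : Gen → R) :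
    ∏ a ∈ gens l, F a = ∏ h, ∏ p ∈ (l h).primeFactors, F (h.castSucc, p) := by
  rw [gens, prod_biUnion]
  · exact prod_congr rfl fun h _ => prod_image fun _ _ _ _ e => (Prod.mk.inj e).2
  · intro h _ k _ hk
    simp only [Function.onFun, disjoint_left, mem_image]
    rintro _ ⟨p, -, rfl⟩ ⟨q, -, e⟩
    exact hk (Fin.castSucc_injective _ (Prod.mk.inj e).1).symm

theorem card_gens (l : Fin 6 → ℕ) : (gens l).card = ∑ h, (l h).primeFactors.card := by
  have := prod_gens l fun _ => Multiplicative.ofAdd (1 : ℕ)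
  simpa using congrArg Multiplicative.toAdd this

theorem mem_le {Y : ℕ} {V : Finset Gen} {a : Gen} : a ∈ le Y V ↔ a ∈ V ∧ a.2 ≤ Y := mem_filter

theorem mem_md {Y Y' : ℕ} {V : Finset Gen} {a : Gen} :
    a ∈ md Y Y' V ↔ a ∈ V ∧ Y < a.2 ∧ a.2 ≤ Y' := mem_filter

theorem mem_ones {V : Finset Gen} {y : Finset (Fin 7)} {a : Gen} :
    a ∈ ones V y ↔ a ∈ V ∧ a.1 ∈ y := mem_filter

theorem mem_Ys {y : Finset (Fin 7)} : y ∈ Ys ↔ (6 : Fin 7) ∉ y := by
  simp [Ys, subset_erase]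

theorem Dist.mono {V W : Finset Gen} (h : Dist V) (hW : W ⊆ V) : Dist W :=
  fun a ha b hb => h a (hW ha) b (hW hb)

theorem Nice.mono {V W : Finset Gen} (h : Nice V) (hW : W ⊆ V) (h1 : ((6 : Fin 7), 1) ∈ W) :
    Nice W :=
  ⟨h1, fun a ha => h.pr a (hW ha), h.dist.mono hW, fun a ha => h.odd a (hW ha)⟩

theorem neg_mem_V0 (M : ℕ) : ((6 : Fin 7), 1) ∈ V0 M := mem_insert_self _ _

/-- a new odd prime can be added -/
theorem Nice.insert {V : Finset Gen} (h : Nice V) {b : Gen} (hb : b.2.Prime) (h2 : b.2 ≠ 2)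
    (hn : ∀ a ∈ V, a.2 ≠ b.2) : Nice (insert b V) := by
  refine ⟨mem_insert_of_mem h.neg, fun a ha => ?_, fun a ha a' ha' e => ?_, fun a ha => ?_⟩
  · rcases mem_insert.1 ha with rfl | ha
    · exact .inr hb
    · exact h.pr a ha
  · rcases mem_insert.1 ha with k | k <;> rcases mem_insert.1 ha' with k' | k'
    · rw [k, k']
    · exact absurd (k ▸ e.symm) (hn _ k')
    · exact absurd (k' ▸ e) (hn _ k)
    · exact h.dist a k a' k' e
  · rcases mem_insert.1 ha with rfl | ha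
    · exact fun _ => h2
    · exact h.odd a ha

theorem nice_V0_union {M : ℕ} (h2 : 2 ∣ M) {W : Finset Gen} (hW : Dist W)
    (hp : ∀ a ∈ W, a.2.Prime ∧ ¬a.2 ∣ M) : Nice (V0 M ∪ W) := by
  have h0 : ∀ a ∈ V0 M, ∀ b ∈ W, a.2 ≠ b.2 := by
    intro a ha b hb e
    rcases (mem_V0.1 ha).2 with h | h
    · exact Nat.not_prime_one (h ▸ e ▸ (hp b hb).1)
    · exact (hp b hb).2 (e ▸ Nat.dvd_of_mem_primeFactors h)
  refine ⟨mem_union_left _ (neg_mem_V0 M), fun a ha => ?_, fun a ha b hb e => ?_, fun a ha => ?_⟩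
  · rcases mem_union.1 ha with ha | ha
    · obtain ⟨h1, h | h⟩ := mem_V0.1 ha
      · exact .inl (Prod.ext h1 h)
      · exact .inr (Nat.prime_of_mem_primeFactors h)
    · exact .inr (hp a ha).1
  · rcases mem_union.1 ha with ha | ha <;> rcases mem_union.1 hb with hb | hb
    · exact Prod.ext ((mem_V0.1 ha).1.trans (mem_V0.1 hb).1.symm) e
    · exact absurd e (h0 a ha b hb)
    · exact absurd e.symm (h0 b hb a ha)
    · exact hW a ha b hb e
  · rcases mem_union.1 ha with ha | ha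
    · intro h
      rw [(mem_V0.1 ha).1] at h
      exact absurd rfl h
    · exact fun _ e => (hp a ha).2 (e ▸ h2)

theorem nice_TT {M a b : ℕ} (h2 : 2 ∣ M) {W : Finset Gen} (hW : Dist W)
    (hs : W ⊆ TT (PP M a b)) : Nice (V0 M ∪ W) :=
  nice_V0_union h2 hW fun _ h => (mem_PP.1 (mem_TT.1 (hs h)).2).2.2

theorem dist_gens {l : Fin 6 → ℕ} (hc : ∀ h k, h ≠ k → (l h).Coprime (l k)) : Dist (gens l) := by
  rintro ⟨k, p⟩ ha ⟨k', p'⟩ hb e
  obtain ⟨h, rfl, h1⟩ := mem_gens.1 ha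
  obtain ⟨h', rfl, h2⟩ := mem_gens.1 hb
  obtain rfl : p = p' := e
  by_contra hne
  have := Nat.eq_one_of_dvd_coprimes (hc h h' fun e => hne (by rw [e]))
    (Nat.dvd_of_mem_primeFactors h1) (Nat.dvd_of_mem_primeFactors h2)
  exact (Nat.prime_of_mem_primeFactors h1).ne_one this

theorem nice_VV {M : ℕ} (h2 : 2 ∣ M) {l : Fin 6 → ℕ} (hM : ∀ h, (l h).Coprime M)
    (hc : ∀ h k, h ≠ k → (l h).Coprime (l k)) : Nice (VV M l) := by
  refine nice_V0_union h2 (dist_gens hc) fun a ha => ?_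
  obtain ⟨h, -, h1⟩ := mem_gens.1 ha
  have hp := Nat.prime_of_mem_primeFactors h1
  exact ⟨hp, fun hd => hp.ne_one
    (Nat.eq_one_of_dvd_coprimes (hM h) (Nat.dvd_of_mem_primeFactors h1) hd)⟩

/-! ### weights -/

theorem eleven_le {M p : ℕ} (hM : 210 ∣ M) (hp : p.Prime) (h : ¬p ∣ M) : 11 ≤ p := by
  by_contra hlt
  have : p ∣ 210 := by
    have : p < 11 := by omega
    interval_cases p <;> first | decide | norm_num at hp
  exact h (this.trans hM)

theorem wt_pos {p : ℕ} (h : 11 ≤ p) : 0 < wt p := by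
  have : (11 : ℝ) ≤ p := by exact_mod_cast h
  exact one_div_pos.2 (by linarith)

theorem wt_le {p : ℕ} (h : 11 ≤ p) : wt p ≤ 2 / p := by
  have : (11 : ℝ) ≤ p := by exact_mod_cast h
  rw [wt, div_le_div_iff₀ (by linarith) (by linarith)]; linarith

theorem le_wt {p : ℕ} (h : 11 ≤ p) : 1 / (p : ℝ) ≤ wt p := by
  have : (11 : ℝ) ≤ p := by exact_mod_cast h
  exact one_div_le_one_div_of_le (by linarith) (by linarith)

theorem wt_sub_le {p : ℕ} (h : 11 ≤ p) : wt p - 1 / p ≤ 10 / (p : ℝ) ^ 2 := by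
  have : (11 : ℝ) ≤ p := by exact_mod_cast h
  rw [wt, div_sub_div _ _ (by linarith) (by linarith), div_le_div_iff₀ (by nlinarith) (by positivity)]
  nlinarith

theorem PP_ge {M a b p : ℕ} (hM : 210 ∣ M) (h : p ∈ PP M a b) : 11 ≤ p :=
  eleven_le hM (mem_PP.1 h).2.2.1 (mem_PP.1 h).2.2.2

theorem Wt_nonneg {M a b : ℕ} (hM : 210 ∣ M) {W : Finset Gen} (h : W ⊆ TT (PP M a b)) :
    0 ≤ Wt W := prod_nonneg fun _ ha => (wt_pos (PP_ge hM (mem_TT.1 (h ha)).2)).le

theorem prod_TT (P : Finset ℕ) (F : ℕ → ℝ) : ∏ a ∈ TT P, F a.2 = ∏ p ∈ P, F p ^ 6 := by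
  simp only [TT, prod_product, prod_const, prod_pow]
  rfl

theorem sum_TT (P : Finset ℕ) (F : ℕ → ℝ) : ∑ a ∈ TT P, F a.2 = 6 * ∑ p ∈ P, F p := by
  simp only [TT, sum_product, sum_const, nsmul_eq_mul]
  rfl

theorem sum_Wt (P : Finset ℕ) : ∑ W ∈ (TT P).powerset, Wt W = Mass P := by
  rw [Mass, ← prod_TT P fun p => 1 + wt p, prod_one_add]
  rfl

theorem one_le_Mass {M : ℕ} (hM : 210 ∣ M) (a b : ℕ) : 1 ≤ Mass (PP M a b) :=
  prod_induction _ (1 ≤ ·) (fun _ _ => one_le_mul_of_one_le_of_one_le) le_rfl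
    fun _ h => one_le_pow₀ (le_add_of_nonneg_right (wt_pos (PP_ge hM h)).le)

theorem PP_union (M : ℕ) {a b c : ℕ} (h1 : a ≤ b) (h2 : b ≤ c) :
    PP M a c = PP M a b ∪ PP M b c ∧ Disjoint (PP M a b) (PP M b c) := by
  refine ⟨?_, disjoint_left.2 fun p h h' => ?_⟩
  · ext p
    simp only [mem_union, mem_PP]
    constructor
    · rintro ⟨k1, k2, k3⟩
      by_cases h : p ≤ b
      · exact .inl ⟨k1, h, k3⟩
      · exact .inr ⟨by omega, k2, k3⟩
    · rintro (⟨k1, k2, k3⟩ | ⟨k1, k2, k3⟩)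
      · exact ⟨k1, by omega, k3⟩
      · exact ⟨by omega, k2, k3⟩
  · have := (mem_PP.1 h).2.1
    have := (mem_PP.1 h').1
    omega

theorem PP_eq_pri {M a b : ℕ} (hM : 0 < M) (h : M ≤ a) : PP M a b = pri a b :=
  filter_true_of_mem fun p hp hd => by
    have := Nat.le_of_dvd hM hd
    have := (mem_pri.1 hp).1
    omega

/-! ### large scales -/

theorem Rel.par {S : Sc} (h : Rel S) (e : ℕ) : Rel { S with e := e } := ⟨h.hY, h.hY', h.lo, h.hi⟩

theorem Rel.Y0_le {S : Sc} (h : Rel S) : S.Y0 ≤ S.Y := by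
  rw [h.hY]; exact Nat.le_self_pow (by norm_num) _

theorem Rel.Y_le {S : Sc} (h : Rel S) : S.Y ≤ S.Y' := by
  rw [h.hY']; exact Nat.le_self_pow (by positivity) _

theorem Rel.Y'_le {S : Sc} (h : Rel S) : S.Y' ≤ S.Z :=
  (Nat.le_self_pow (by norm_num) _).trans h.lo

theorem Rel.log_Y {S : Sc} (h : Rel S) : Real.log S.Y = 1000000 * Real.log S.Y0 := by
  rw [h.hY, Nat.cast_pow, Real.log_pow]; norm_num

theorem Rel.log_Y' {S : Sc} (h : Rel S) : Real.log S.Y' = 128 ^ S.J * Real.log S.Y := by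
  rw [h.hY', Nat.cast_pow, Real.log_pow]; norm_num

theorem Rel.log_Z_le {S : Sc} (h : Rel S) : Real.log S.Z ≤ 20000 * Real.log S.Y' := by
  rcases Nat.eq_zero_or_pos S.Z with h0 | h0
  · rw [h0, Nat.cast_zero, Real.log_zero]
    exact mul_nonneg (by norm_num) (Real.log_natCast_nonneg _)
  · have := Real.log_le_log (Nat.cast_pos.2 h0) (Nat.cast_le.2 h.hi)
    rwa [Nat.cast_pow, Real.log_pow, Nat.cast_ofNat] at this

theorem Rel.le_log_Z {S : Sc} (h : Rel S) : 10000 * Real.log S.Y' ≤ Real.log S.Z := by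
  rcases Nat.eq_zero_or_pos S.Y' with h0 | h0
  · rw [h0, Nat.cast_zero, Real.log_zero, mul_zero]
    exact Real.log_natCast_nonneg _
  · have := Real.log_le_log (Nat.cast_pos.2 (pow_pos h0 _)) (Nat.cast_le.2 h.lo)
    rwa [Nat.cast_pow, Real.log_pow, Nat.cast_ofNat] at this

section
variable {M J : ℕ} {P Q : Sc → Prop}

theorem Ev.mono (h : Ev M J P) (hPQ : ∀ S : Sc, S.M = M → S.J = J → Rel S → P S → Q S) :
    Ev M J Q :=
  h.imp fun _ h S h1 h2 h3 h4 => hPQ S h1 h2 h4 (h S h1 h2 h3 h4)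

theorem Ev.and (h : Ev M J P) (h' : Ev M J Q) : Ev M J fun S => P S ∧ Q S := by
  obtain ⟨t, h⟩ := h
  obtain ⟨t', h'⟩ := h'
  exact ⟨max t t', fun S h1 h2 h3 h4 =>
    ⟨h S h1 h2 (le_of_max_le_left h3) h4, h' S h1 h2 (le_of_max_le_right h3) h4⟩⟩

theorem Ev.of_forall (h : ∀ S : Sc, S.M = M → S.J = J → Rel S → P S) : Ev M J P :=
  ⟨0, fun S h1 h2 _ h4 => h S h1 h2 h4⟩

theorem Ev.all {ι : Type} (I : Finset ι) {P : ι → Sc → Prop} (h : ∀ i ∈ I, Ev M J (P i)) :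
    Ev M J fun S => ∀ i ∈ I, P i S := by
  classical
  induction I using Finset.induction_on with
  | empty => exact Ev.of_forall (by simp)
  | insert a I _ ih =>
    exact ((h a (mem_insert_self _ _)).and (ih fun i hi => h i (mem_insert_of_mem hi))).mono
      fun S _ _ _ k => (forall_mem_insert _ _ _).2 k

/-- the statement also holds for every parity -/
theorem Ev.par (h : Ev M J P) : Ev M J fun S => ∀ e, P { S with e := e } :=
  h.imp fun _ h _ h1 h2 h3 h4 e => h _ h1 h2 h3 (h4.par e)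

theorem ev_Y0 {p : ℕ → Prop} (h : ∀ᶠ y in atTop, p y) : Ev M J fun S => p S.Y0 :=
  (eventually_atTop.1 h).imp fun _ h _ _ _ h3 _ => h _ h3

theorem ev_Y {p : ℕ → Prop} (h : ∀ᶠ y in atTop, p y) : Ev M J fun S => p S.Y :=
  (eventually_atTop.1 h).imp fun _ h _ _ _ h3 h4 => h _ (h3.trans h4.Y0_le)

theorem ev_Y' {p : ℕ → Prop} (h : ∀ᶠ y in atTop, p y) : Ev M J fun S => p S.Y' :=
  (eventually_atTop.1 h).imp fun _ h _ _ _ h3 h4 => h _ (h3.trans (h4.Y0_le.trans h4.Y_le))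

theorem ev_Z {p : ℕ → Prop} (h : ∀ᶠ y in atTop, p y) : Ev M J fun S => p S.Z :=
  (eventually_atTop.1 h).imp fun _ h _ _ _ h3 h4 =>
    h _ (h3.trans (h4.Y0_le.trans (h4.Y_le.trans h4.Y'_le)))

theorem ev_ge (t : ℕ) : Ev M J fun S => t ≤ S.Y0 := ev_Y0 (eventually_ge_atTop t)

/-- powers of `log Z` are smaller than the smallest scale -/
theorem ev_log (C : ℝ) (k : ℕ) : Ev M J fun S => C * Real.log S.Z ^ k ≤ S.Y0 := by
  have h1 := (Real.isLittleO_pow_log_id_atTop (n := k)).bound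
    (c := 1 / ((|C| + 1) * (20000 * (128 ^ J * 1000000)) ^ k)) (by positivity)
  refine (ev_Y0 (tendsto_natCast_atTop_atTop.eventually h1)).mono fun S _ hJ hR h => ?_
  have h2 := hR.log_Z_le
  rw [hR.log_Y', hR.log_Y, hJ] at h2
  have h3 := Real.log_natCast_nonneg S.Y0
  have h4 := Real.log_natCast_nonneg S.Z
  rw [Real.norm_of_nonneg (by positivity), id, Real.norm_of_nonneg (by positivity), one_div,
    ← div_eq_inv_mul, le_div_iff₀ (by positivity)] at h
  calc C * Real.log S.Z ^ k ≤ (|C| + 1) * (20000 * (128 ^ J * (1000000 * Real.log S.Y0))) ^ k := by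
        gcongr
        linarith [le_abs_self C]
    _ = _ := by rw [← mul_assoc (128 ^ J : ℝ), ← mul_assoc (20000 : ℝ), mul_pow]; ring
    _ ≤ _ := h

end

/-! ### shapes -/

section
variable {S : Sc} {c P n : ℕ}

theorem Core.pos (h : Core S c) : 0 < c := Nat.pos_of_ne_zero h.sqf.ne_zero

theorem Core.le_Y' (hR : Rel S) (h : Core S c) {p : ℕ} (hp : p ∈ c.primeFactors) : p ≤ S.Y' := by
  rcases h.gap p hp with k | k
  · exact k.trans (hR.Y0_le.trans hR.Y_le)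
  · exact k.2

theorem Core.le_pow (hR : Rel S) (h : Core S c) : c ≤ S.Y' ^ 6 := by
  have h1 := prod_filter_mul_prod_filter_not c.primeFactors (· ≤ S.Y0) fun p => p
  rw [Nat.prod_primeFactors_of_squarefree h.sqf] at h1
  have h2 : c.primeFactors.filter (fun p => ¬p ≤ S.Y0) = c.primeFactors.filter (S.Y < ·) :=
    filter_congr fun p hp => by
      have := h.gap p hp
      have := hR.Y0_le
      omega
  rw [h2] at h1
  calc c = _ := h1.symm
    _ ≤ S.Y' ^ 3 * S.Y' ^ 3 := Nat.mul_le_mul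
        (h.sm.trans (Nat.pow_le_pow_left (hR.Y0_le.trans hR.Y_le) 3)) h.me
    _ = _ := by ring

theorem mem_CC (hR : Rel S) : c ∈ CC S ↔ Core S c := by
  classical
  simp only [CC, mem_filter, mem_Icc]
  exact ⟨fun h => h.2, fun h => ⟨⟨h.pos, h.le_pow hR⟩, h⟩⟩

theorem Core.coprime_large (hR : Rel S) (h : Core S c) (hP : P.Prime) (hl : S.Y' < P) :
    c.Coprime P := by
  rw [Nat.coprime_comm, hP.coprime_iff_not_dvd]
  intro hd
  have := h.le_Y' hR (Nat.mem_primeFactors.2 ⟨hP, hd, h.pos.ne'⟩)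
  omega

theorem Core.primeFactors_mul (h : Core S c) (hP : P.Prime) :
    (c * P).primeFactors = insert P c.primeFactors := by
  rw [Nat.primeFactors_mul h.pos.ne' hP.ne_zero, hP.primeFactors, union_comm]
  rfl

theorem Core.filter_le (hR : Rel S) (h : Core S c) (hP : P.Prime) (hl : S.Y' < P) :
    (c * P).primeFactors.filter (· ≤ S.Y') = c.primeFactors := by
  rw [h.primeFactors_mul hP, filter_insert, if_neg (by omega)]
  exact filter_true_of_mem fun p hp => h.le_Y' hR hp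

theorem Core.filter_gt (hR : Rel S) (h : Core S c) (hP : P.Prime) (hl : S.Y' < P) :
    (c * P).primeFactors.filter (S.Y' < ·) = {P} := by
  rw [h.primeFactors_mul hP, filter_insert, if_pos hl,
    filter_false_of_mem fun p hp => not_lt.2 (h.le_Y' hR hp)]
  rfl

theorem Core.card_mul (hR : Rel S) (h : Core S c) (hP : P.Prime) (hl : S.Y' < P) :
    (c * P).primeFactors.card = c.primeFactors.card + 1 := by
  rw [h.primeFactors_mul hP, card_insert_of_notMem fun hp => not_lt.2 (h.le_Y' hR hp) hl]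

/-- the decomposition of a good number is unique -/
theorem Core.unique (hR : Rel S) {c' P' : ℕ} (h : Core S c) (hP : P.Prime) (hl : S.Y' < P)
    (h' : Core S c') (hP' : P'.Prime) (hl' : S.Y' < P') (e : c * P = c' * P') :
    c = c' ∧ P = P' := by
  have h1 := h.filter_gt hR hP hl
  rw [e, h'.filter_gt hR hP' hl'] at h1
  obtain rfl := singleton_injective h1
  exact ⟨Nat.eq_of_mul_eq_mul_right hP.pos e, rfl⟩

theorem Shape.sqf (hR : Rel S) (h : Shape S n) : Squarefree n := by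
  obtain ⟨c, P, hc, hP, hl, rfl⟩ := h
  exact (Nat.squarefree_mul (hc.coprime_large hR hP hl)).2 ⟨hc.sqf, hP.squarefree⟩

theorem Shape.one_lt (h : Shape S n) : 1 < n := by
  obtain ⟨c, P, hc, hP, hl, rfl⟩ := h
  exact hP.one_lt.trans_le (Nat.le_mul_of_pos_left _ hc.pos)

theorem Fs_nonneg (S : Sc) (n : ℕ) : 0 ≤ Fs S n :=
  sum_nonneg fun _ _ => by
    split_ifs
    · exact Real.log_natCast_nonneg _
    · rfl

open Classical in
theorem Fs_le (hR : Rel S) (n : ℕ) : Fs S n ≤ if Shape S n then Real.log n else 0 := by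
  split_ifs with h
  · obtain ⟨c, P, hc, hP, hl, rfl⟩ := h
    rw [Fs, sum_eq_single c]
    · split_ifs
      · rw [Nat.mul_div_cancel_left _ hc.pos]
        exact Real.log_le_log (Nat.cast_pos.2 hP.pos)
          (Nat.cast_le.2 (Nat.le_mul_of_pos_left _ hc.pos))
      · exact Real.log_natCast_nonneg _
    · intro c' hc' hne
      rw [if_neg]
      rintro ⟨k1, k2, k3⟩
      exact hne (((mem_CC hR).1 hc').unique hR k2 k3 hc hP hl (Nat.mul_div_cancel' k1)).1
    · exact fun h => absurd ((mem_CC hR).2 hc) h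
  · refine (sum_eq_zero fun c hc => if_neg ?_).le
    rintro ⟨k1, k2, k3⟩
    exact h ⟨c, _, (mem_CC hR).1 hc, k2, k3, (Nat.mul_div_cancel' k1).symm⟩

theorem mu_nonneg (S : Sc) : 0 ≤ mu S := sum_nonneg fun _ _ => by positivity

theorem mu_mod (S : Sc) : mu S = mu { S with e := S.e % 2 } := by
  classical
  refine sum_congr ?_ fun _ _ => rfl
  ext c
  simp only [CC, mem_filter]
  exact and_congr_right fun _ =>
    ⟨fun h => ⟨h.sqf, h.cop, h.gap, h.sm, h.me, h.lo, h.hi, by simpa using h.par⟩,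
      fun h => ⟨h.sqf, h.cop, h.gap, h.sm, h.me, h.lo, h.hi, by simpa using h.par⟩⟩

theorem mu_le_muT (S : Sc) : mu S ≤ muT S := by
  rw [mu_mod, muT]
  rcases Nat.mod_two_eq_zero_or_one S.e with h | h <;> rw [h]
  · exact le_add_of_nonneg_right (mu_nonneg _)
  · exact le_add_of_nonneg_left (mu_nonneg _)

end

/-! ### systems of forms -/

section
variable {M : ℕ} {A B : Fin 6 → ℕ} {x : ℕ × ℕ}

theorem Sys.two (h : Sys M A B) : 2 ∣ M := (by norm_num : 2 ∣ 210).trans h.dvd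

theorem Sys.lf0 (h : Sys M A B) (x : ℕ × ℕ) : lf A B x 0 = x.1 := by simp [lf, h.a0, h.b0]

theorem Sys.lf1 (h : Sys M A B) (x : ℕ × ℕ) : lf A B x 1 = x.2 := by simp [lf, h.a1, h.b1]

/-- Cramer's rule -/
theorem cramer (A B : Fin 6 → ℕ) (x : ℕ × ℕ) (f g h : Fin 6) :
    res A B f g * lf A B x h = res A B h g * lf A B x f + res A B f h * lf A B x g := by
  simp only [res, lf]; push_cast; ring

theorem lf_modEq (A B : Fin 6 → ℕ) (h1 : x.1 ≡ 1 [MOD 8 * M]) (h2 : x.2 ≡ 1 [MOD 8 * M])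
    (h : Fin 6) : lf A B x h ≡ A h + B h [MOD 8 * M] := by
  simpa [lf] using (h1.mul_left (A h)).add (h2.mul_left (B h))

theorem Sys.lf_coprime_M (hs : Sys M A B) (h1 : x.1 ≡ 1 [MOD 8 * M]) (h2 : x.2 ≡ 1 [MOD 8 * M])
    (h : Fin 6) : (lf A B x h).Coprime M := by
  have := ((lf_modEq A B h1 h2 h).of_mul_left 8).gcd_eq
  rw [Nat.Coprime, this]
  exact hs.cop h

theorem Sys.lf_coprime (hs : Sys M A B) (h1 : x.1 ≡ 1 [MOD 8 * M]) (h2 : x.2 ≡ 1 [MOD 8 * M])
    (hc : x.1.Coprime x.2) {h k : Fin 6} (hk : h ≠ k) : (lf A B x h).Coprime (lf A B x k) := by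
  refine Nat.coprime_of_dvd fun p hp d1 d2 => ?_
  have hp' : Prime (p : ℤ) := Nat.prime_iff_prime_int.1 hp
  have h3 : ¬(p : ℤ) ∣ res A B h k := fun hd => hp.ne_one
    (Nat.eq_one_of_dvd_coprimes (hs.lf_coprime_M h1 h2 h) d1 (hs.sm h k hk p hp hd))
  have h4 : ∀ j, p ∣ lf A B x j := fun j => by
    have : (p : ℤ) ∣ res A B h k * lf A B x j := by
      rw [cramer]
      exact dvd_add ((Int.natCast_dvd_natCast.2 d1).mul_left _)
        ((Int.natCast_dvd_natCast.2 d2).mul_left _)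
    exact Int.natCast_dvd_natCast.1 ((hp'.dvd_or_dvd this).resolve_left h3)
  exact hp.ne_one (Nat.eq_one_of_dvd_coprimes hc (hs.lf0 x ▸ h4 0) (hs.lf1 x ▸ h4 1))

theorem Adm.coprime_M (hs : Sys M A B) (h : Adm M A B x) (k : Fin 6) : (lf A B x k).Coprime M :=
  hs.lf_coprime_M h.c1 h.c2 k

theorem Adm.coprime (hs : Sys M A B) (h : Adm M A B x) {j k : Fin 6} (hk : j ≠ k) :
    (lf A B x j).Coprime (lf A B x k) := hs.lf_coprime h.c1 h.c2 h.cop hk

theorem Adm.nice (hs : Sys M A B) (h : Adm M A B x) : Nice (VV M (lf A B x)) :=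
  nice_VV hs.two (h.coprime_M hs) fun _ _ => h.coprime hs

theorem mem_AA {S : Sc} : x ∈ AA S A B ↔ (1 ≤ x.1 ∧ x.1 ≤ S.Z) ∧ (1 ≤ x.2 ∧ x.2 ≤ S.Z) ∧
    x.1 ≡ 1 [MOD 8 * S.M] ∧ x.2 ≡ 1 [MOD 8 * S.M] ∧ x.1.Coprime x.2 ∧
      ∀ h, Shape S (lf A B x h) := by
  classical
  simp only [AA, mem_filter, mem_product, mem_Icc, and_assoc]

theorem adm_of_mem {S : Sc} (hR : Rel S) (h : x ∈ AA S A B) : Adm S.M A B x := by
  obtain ⟨-, -, h1, h2, h3, h4⟩ := mem_AA.1 h
  exact ⟨h1, h2, h3, fun k => (h4 k).sqf hR⟩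

theorem card_AA_le (S : Sc) (A B : Fin 6 → ℕ) : (AA S A B).card ≤ S.Z ^ 2 := by
  classical
  refine (card_filter_le _ _).trans ?_
  simp [sq]

theorem le_VV {Y : ℕ} (hM : 0 < M) (h : M ≤ Y) (l : Fin 6 → ℕ) :
    le Y (VV M l) = V0 M ∪ le Y (gens l) := by
  rw [le, VV, filter_union, filter_true_of_mem, le]
  intro a ha
  rcases (mem_V0.1 ha).2 with k | k
  · omega
  · exact (Nat.le_of_mem_primeFactors k).trans h

theorem md_VV {Y Y' : ℕ} (hM : 0 < M) (h : M ≤ Y) (l : Fin 6 → ℕ) :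
    md Y Y' (VV M l) = md Y Y' (gens l) := by
  rw [md, VV, filter_union, filter_false_of_mem, empty_union, md]
  intro a ha
  rcases (mem_V0.1 ha).2 with k | k
  · omega
  · have := Nat.le_of_mem_primeFactors k
    omega

theorem le_gens_subset {S : Sc} (hR : Rel S) (h : x ∈ AA S A B) :
    le S.Y (gens (lf A B x)) ⊆ TT (PP S.M 0 S.Y0) := by
  intro a ha
  obtain ⟨h1, h2⟩ := mem_le.1 ha
  obtain ⟨k, e, h3⟩ := mem_gens.1 h1
  obtain ⟨c, P, hc, hP, hl, e'⟩ := (mem_AA.1 h).2.2.2.2.2 k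
  have hp := Nat.prime_of_mem_primeFactors h3
  have := hR.Y_le
  rw [e', hc.primeFactors_mul hP, mem_insert] at h3
  have h4 := h3.resolve_left (by omega)
  refine mem_TT.2 ⟨e ▸ castSucc_ne_six k, mem_PP.2 ⟨hp.pos, ?_, hp, fun hd => hp.ne_one
    (Nat.eq_one_of_dvd_coprimes hc.cop (Nat.dvd_of_mem_primeFactors h4) hd)⟩⟩
  have := hc.gap _ h4
  omega

theorem md_gens_subset {S : Sc} (h : x ∈ AA S A B) :
    md S.Y S.Y' (gens (lf A B x)) ⊆ TT (PP S.M S.Y S.Y') := by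
  intro a ha
  obtain ⟨h1, h2, h2'⟩ := mem_md.1 ha
  obtain ⟨k, e, h3⟩ := mem_gens.1 h1
  obtain ⟨c, P, hc, hP, hl, e'⟩ := (mem_AA.1 h).2.2.2.2.2 k
  have hp := Nat.prime_of_mem_primeFactors h3
  rw [e', hc.primeFactors_mul hP, mem_insert] at h3
  have h4 := h3.resolve_left (by omega)
  exact mem_TT.2 ⟨e ▸ castSucc_ne_six k, mem_PP.2 ⟨h2, h2', hp, fun hd => hp.ne_one
    (Nat.eq_one_of_dvd_coprimes hc.cop (Nat.dvd_of_mem_primeFactors h4) hd)⟩⟩

end

end Pool.Agent.MP_a43263_nt.R2
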