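import Mathlib.NumberTheory.DirichletCharacter.Orthogonality
import Pool.Agent.MP_a43263_nt.R2.Basic
import Pool.Agent.MP_678834_nt.PW.Top

/-! PROJECT RANK2: the Siegel-Walfisz theorem and character sums over primes. -/

set_option autoImplicit false

noncomputable section

namespace Pool.Agent.MP_a43263_nt.R2

open Finset Filter ArithmeticFunction

namespace Sw

open Pool.Agent.MP_678834_nt.PW Pool.Agent.MP_db1c88_nt.z94

/-- orthogonality of characters -/
theorem orth (N q a : ℕ) (hq : 1 ≤ q) (ha : a.Coprime q) (E : ℝ)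
    (h : ∀ χ : DirichletCharacter ℂ q,
      ‖DP (Icc 1 N) (fun n => (Λ n : ℂ) * χ n - tv χ 1 0) 0‖ ≤ E) :
    |∑ n ∈ (Icc 1 N).filter (fun n => n ≡ a [MOD q]), Λ n - (N : ℝ) / q.totient| ≤ E := by
  have : NeZero q := ⟨by omega⟩
  have hu : IsUnit (a : ZMod q) := (ZMod.isUnit_iff_coprime a q).2 ha
  have hφ : (0 : ℝ) < q.totient := by exact_mod_cast Nat.totient_pos.2 (by omega)
  have hui : IsUnit (a : ZMod q)⁻¹ := by
    obtain ⟨u, hu⟩ := hu
    rw [← hu, ZMod.inv_coe_unit]; exact Units.isUnit _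
  have key : ((q.totient * ∑ n ∈ (Icc 1 N).filter (fun n => n ≡ a [MOD q]), Λ n - N : ℝ) : ℂ) =
      ∑ χ : DirichletCharacter ℂ q, χ (a : ZMod q)⁻¹ *
        DP (Icc 1 N) (fun n => (Λ n : ℂ) * χ n - tv χ 1 0) 0 := by
    simp only [DP, zero_mul, ei, Complex.ofReal_zero, Complex.exp_zero, mul_one, sum_sub_distrib,
      mul_sub, mul_sum]
    push_cast
    congr 1
    · rw [sum_comm, sum_filter]
      refine sum_congr rfl fun n _ => ?_
      have := DirichletCharacter.sum_char_inv_mul_char_eq ℂ hu (n : ZMod q)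
      have e : ∑ χ : DirichletCharacter ℂ q, χ (a : ZMod q)⁻¹ * ((Λ n : ℂ) * χ n) =
          (Λ n : ℂ) * ∑ χ : DirichletCharacter ℂ q, χ (a : ZMod q)⁻¹ * χ n := by
        rw [mul_sum]; exact sum_congr rfl fun χ _ => by ring
      rw [e, this]
      by_cases hn : n ≡ a [MOD q]
      · rw [if_pos hn, if_pos ((ZMod.natCast_eq_natCast_iff _ _ _).2 hn.symm)]; ring
      · rw [if_neg hn, if_neg fun h => hn ((ZMod.natCast_eq_natCast_iff _ _ _).1 h).symm]; ring
    · rw [sum_eq_single (1 : DirichletCharacter ℂ q)]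
      · simp [tv, MulChar.one_apply hui]
      · intro χ _ hχ; simp [tv, hχ]
      · simp
  have hb : |q.totient * ∑ n ∈ (Icc 1 N).filter (fun n => n ≡ a [MOD q]), Λ n - (N : ℝ)| ≤
      q.totient * E := by
    rw [← Real.norm_eq_abs, ← Complex.norm_real, key]
    refine (norm_sum_le _ _).trans ?_
    have hc : (univ : Finset (DirichletCharacter ℂ q)).card = q.totient := by
      rw [card_univ, ← Nat.card_eq_fintype_card]
      exact DirichletCharacter.card_eq_totient_of_hasEnoughRootsOfUnity ℂ q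
    calc _ ≤ ∑ _χ : DirichletCharacter ℂ q, E := by
          refine sum_le_sum fun χ _ => ?_
          rw [norm_mul]
          have := DirichletCharacter.norm_le_one χ (a : ZMod q)⁻¹
          calc _ ≤ 1 * E := mul_le_mul this (h χ) (norm_nonneg _) zero_le_one
            _ = E := one_mul _
      _ = _ := by rw [sum_const, hc, nsmul_eq_mul]
  have e : ∑ n ∈ (Icc 1 N).filter (fun n => n ≡ a [MOD q]), Λ n - (N : ℝ) / q.totient =
      (q.totient * ∑ n ∈ (Icc 1 N).filter (fun n => n ≡ a [MOD q]), Λ n - (N : ℝ)) / q.totient := by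
    field_simp
  rw [e, abs_div, abs_of_pos hφ, div_le_iff₀ hφ]
  linarith

/-- from prime powers to primes -/
theorem to_primes (y : ℝ) (hy : 1 ≤ y) (q a : ℕ) :
    |∑ p ∈ (pri 0 ⌊y⌋₊).filter (fun p => p ≡ a [MOD q]), Real.log p -
      ∑ n ∈ (Icc 1 ⌊y⌋₊).filter (fun n => n ≡ a [MOD q]), Λ n| ≤ 2 * √y * Real.log y := by
  have h1 : ∑ n ∈ (Icc 1 ⌊y⌋₊).filter (fun n => n ≡ a [MOD q]), Λ n =
      ∑ p ∈ (pri 0 ⌊y⌋₊).filter (fun p => p ≡ a [MOD q]), Real.log p +
      ∑ n ∈ ((Ioc 0 ⌊y⌋₊).filter (fun n => ¬n.Prime)).filter (fun n => n ≡ a [MOD q]), Λ n := by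
    rw [← sum_filter_add_sum_filter_not _ Nat.Prime]
    congr 1
    · refine sum_congr ?_ fun p hp => ?_
      · ext p; simp only [mem_filter, mem_Icc, mem_pri]; constructor
        · rintro ⟨⟨⟨h1, h2⟩, h3⟩, h4⟩; exact ⟨⟨h1, h2, h4⟩, h3⟩
        · rintro ⟨⟨h1, h2, h4⟩, h3⟩; exact ⟨⟨⟨h1, h2⟩, h3⟩, h4⟩
      · exact vonMangoldt_apply_prime (mem_pri.1 (mem_filter.1 hp).1).2.2
    · refine sum_congr ?_ fun _ _ => rfl
      ext p; simp only [mem_filter, mem_Icc, mem_Ioc]; constructor
      · rintro ⟨⟨⟨h1, h2⟩, h3⟩, h4⟩; exact ⟨⟨⟨h1, h2⟩, h4⟩, h3⟩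
      · rintro ⟨⟨⟨h1, h2⟩, h4⟩, h3⟩; exact ⟨⟨⟨h1, h2⟩, h3⟩, h4⟩
  have h2 := Chebyshev.psi_sub_theta_le hy
  rw [Chebyshev.psi_sub_theta_eq_sum_not_prime] at h2
  rw [h1, sub_add_cancel_left, abs_neg, abs_of_nonneg (sum_nonneg fun _ _ => vonMangoldt_nonneg)]
  exact (sum_le_sum_of_subset_of_nonneg (filter_subset _ _) fun _ _ _ => vonMangoldt_nonneg).trans h2

theorem triv (y : ℝ) (hy : 0 ≤ y) (q a : ℕ) (hq : 1 ≤ q) :
    |∑ p ∈ (pri 0 ⌊y⌋₊).filter (fun p => p ≡ a [MOD q]), Real.log p - y / q.totient| ≤ 2 * y := by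
  have hφ : (1 : ℝ) ≤ q.totient := by exact_mod_cast Nat.totient_pos.2 (by omega)
  have h1 : y / q.totient ≤ y := div_le_self hy hφ
  have h2 : 0 ≤ y / q.totient := by positivity
  have h3 : 0 ≤ ∑ p ∈ (pri 0 ⌊y⌋₊).filter (fun p => p ≡ a [MOD q]), Real.log p :=
    sum_nonneg fun p _ => Real.log_natCast_nonneg p
  have h4 : ∑ p ∈ (pri 0 ⌊y⌋₊).filter (fun p => p ≡ a [MOD q]), Real.log p ≤ Chebyshev.theta y :=
    sum_le_sum_of_subset_of_nonneg (filter_subset _ _) fun p _ _ => Real.log_natCast_nonneg p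
  have h5 := Chebyshev.theta_le_log4_mul_x hy
  have h6 : Real.log 4 ≤ 2 := by
    have := Real.log_two_lt_d9
    rw [show (4 : ℝ) = 2 ^ 2 by norm_num, Real.log_pow]; push_cast; linarith
  rw [abs_le]; constructor <;> nlinarith

theorem ev_sqrt (A : ℕ) : ∀ᶠ x : ℝ in atTop, 8 * Real.log x ^ A ≤ √x := by
  have h := (isLittleO_log_rpow_rpow_atTop (A : ℝ) (by norm_num : (0 : ℝ) < 1 / 2)).bound
    (by norm_num : (0 : ℝ) < 1 / 8)
  filter_upwards [h, eventually_ge_atTop 1] with x hx h1
  have := Real.log_nonneg h1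
  rw [Real.norm_of_nonneg (by positivity), Real.norm_of_nonneg (by positivity), Real.rpow_natCast,
    ← Real.sqrt_eq_rpow] at hx
  linarith

end Sw

open Sw in
theorem sw : SWStmt := fun A B => by
  obtain ⟨C, y₀, hC⟩ := Pool.Agent.MP_678834_nt.PW.top (A + 1) (2 * B)
  filter_upwards [ev_sqrt (A + 1), eventually_ge_atTop (y₀ ^ 2), eventually_ge_atTop 1,
    Real.tendsto_log_atTop.eventually_ge_atTop (4 + 3 * |C| * 2 ^ (A + 1))]
    with x hs hx₀ hx1 hL y q a hy0 hyx hq hqB ha
  set L := Real.log x with hLdef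
  have hC0 : 0 ≤ 3 * |C| * 2 ^ (A + 1) := by positivity
  have hL4 : 4 ≤ L := by linarith
  have hLA : 1 ≤ L ^ A := one_le_pow₀ (by linarith)
  have hsx : √x * √x = x := Real.mul_self_sqrt (by linarith)
  have hs0 : 1 ≤ √x := Real.one_le_sqrt.2 hx1
  by_cases hsm : y ≤ √x
  · refine (triv y hy0 q a hq).trans ?_
    rw [le_div_iff₀ (by positivity)]
    rw [pow_succ] at hs
    have : 2 * L ^ A ≤ √x := by nlinarith
    nlinarith
  push Not at hsm
  have hy1 : 1 ≤ y := by linarith
  have hly : L / 2 ≤ Real.log y := by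
    rw [hLdef, ← Real.log_sqrt (by linarith)]
    exact Real.log_le_log (by linarith) hsm.le
  have hlyx : Real.log y ≤ L := Real.log_le_log (by linarith) hyx
  have hy₀ : y₀ ≤ y := by
    refine le_trans ?_ hsm.le
    exact (le_abs_self _).trans (Real.abs_le_sqrt hx₀)
  have hq2 : (q : ℝ) ≤ Real.log y ^ (2 * B) := by
    refine hqB.trans ?_
    rw [pow_mul]
    exact pow_le_pow_left₀ (by linarith) (by nlinarith) _
  have h1 := orth ⌊y⌋₊ q a hq ha _ fun χ => hC y 0 q χ hy₀ hq hq2 (by simpa using hy0)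
  have h2 := to_primes y hy1 q a
  have hφ : (1 : ℝ) ≤ q.totient := by exact_mod_cast Nat.totient_pos.2 (by omega)
  have h3 : |(⌊y⌋₊ : ℝ) / q.totient - y / q.totient| ≤ 1 := by
    rw [← sub_div, abs_div, abs_of_pos (by linarith : (0 : ℝ) < q.totient),
      div_le_iff₀ (by linarith), abs_le]
    have := Nat.floor_le hy0
    have := Nat.lt_floor_add_one y
    constructor <;> linarith
  have h4 : C * y / Real.log y ^ (A + 1) ≤ x / L ^ A / 3 := by
    have hp : (L / 2) ^ (A + 1) ≤ Real.log y ^ (A + 1) := pow_le_pow_left₀ (by linarith) hly _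
    have hl0 : 0 ≤ Real.log y := Real.log_nonneg hy1
    calc C * y / Real.log y ^ (A + 1) ≤ |C| * x / (L / 2) ^ (A + 1) := by
          refine (div_le_div_of_nonneg_right
            (mul_le_mul (le_abs_self C) hyx hy0 (abs_nonneg C)) (by positivity)).trans ?_
          exact div_le_div_of_nonneg_left (by positivity) (by positivity) hp
      _ = x / L ^ A / 3 * (3 * |C| * 2 ^ (A + 1) / L) := by
          rw [div_pow, pow_succ L]; field_simp
      _ ≤ x / L ^ A / 3 * 1 := by
          refine mul_le_mul_of_nonneg_left ?_ (by positivity)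
          rw [div_le_one (by linarith)]; linarith
      _ = _ := mul_one _
  have h5 : 2 * √y * Real.log y + 1 ≤ x / L ^ A * (2 / 3) := by
    have hsy : √y ≤ √x := Real.sqrt_le_sqrt hyx
    have h6 : 2 * √y * Real.log y ≤ 2 * √x * L :=
      mul_le_mul (by linarith) hlyx (Real.log_nonneg hy1) (by linarith)
    have h7 : 4 * √x * L ≤ x / L ^ A * (2 / 3) := by
      rw [div_mul_eq_mul_div, le_div_iff₀ (by positivity)]
      rw [pow_succ] at hs
      nlinarith
    nlinarith
  calc _ ≤ |∑ p ∈ (pri 0 ⌊y⌋₊).filter (fun p => p ≡ a [MOD q]), Real.log p -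
          ∑ n ∈ (Icc 1 ⌊y⌋₊).filter (fun n => n ≡ a [MOD q]), Λ n| +
        (|∑ n ∈ (Icc 1 ⌊y⌋₊).filter (fun n => n ≡ a [MOD q]), Λ n - (⌊y⌋₊ : ℝ) / q.totient| +
        |(⌊y⌋₊ : ℝ) / q.totient - y / q.totient|) :=
        (abs_sub_le _ _ _).trans (by gcongr; exact abs_sub_le _ _ _)
    _ ≤ _ := by linarith

namespace Sw

theorem abel (a f g : ℕ → ℝ) (y M : ℕ) (δ : ℝ) (hδ : 0 ≤ δ)
    (hD : ∀ n, y ≤ n → n ≤ M → |∑ m ∈ Ioc y n, a m| ≤ δ * n) (hf : ∀ n, y ≤ n → f (n + 1) ≤ f n)
    (hg : ∀ n, y ≤ n → n * (f n - f (n + 1)) ≤ g (n + 1) - g n) (N : ℕ) (hN : y ≤ N) :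
    N ≤ M → |∑ m ∈ Ioc y N, a m * f m - (∑ m ∈ Ioc y N, a m) * f N| ≤ δ * (g N - g y) := by
  induction N, hN using Nat.le_induction with
  | base => intro _; simp
  | succ n hn ih =>
    intro hM
    have e : ∑ m ∈ Ioc y (n + 1), a m * f m - (∑ m ∈ Ioc y (n + 1), a m) * f (n + 1) =
        (∑ m ∈ Ioc y n, a m * f m - (∑ m ∈ Ioc y n, a m) * f n) +
          (∑ m ∈ Ioc y n, a m) * (f n - f (n + 1)) := by
      rw [sum_Ioc_succ_top hn, sum_Ioc_succ_top hn]; ring
    rw [e]
    refine (abs_add_le _ _).trans ?_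
    have h1 := ih (by omega)
    have h0 : 0 ≤ f n - f (n + 1) := by linarith [hf n hn]
    have h2 : |(∑ m ∈ Ioc y n, a m) * (f n - f (n + 1))| ≤ δ * (g (n + 1) - g n) := by
      rw [abs_mul, abs_of_nonneg h0]
      calc _ ≤ δ * n * (f n - f (n + 1)) := mul_le_mul_of_nonneg_right (hD n hn (by omega)) h0
        _ = δ * (n * (f n - f (n + 1))) := by ring
        _ ≤ _ := mul_le_mul_of_nonneg_left (hg n hn) hδ
    linarith

theorem abel' (a : ℕ → ℝ) (y N : ℕ) (δ : ℝ) (hδ : 0 ≤ δ) (hy : 1 ≤ Real.log y) (hN : y ≤ N)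
    (hD : ∀ n, y ≤ n → n ≤ N → |∑ m ∈ Ioc y n, a m| ≤ δ * n) :
    |∑ m ∈ Ioc y N, a m * (1 / (m * Real.log m))| ≤ δ * (Real.log N / Real.log y) := by
  have hy1 : (1 : ℝ) < y := by
    by_contra h
    have := Real.log_nonpos (Nat.cast_nonneg y) (not_lt.1 h)
    linarith
  have hl : ∀ n : ℕ, y ≤ n → Real.log y ≤ Real.log n := fun n hn =>
    Real.log_le_log (by linarith) (by exact_mod_cast hn)
  have hn1 : ∀ n : ℕ, y ≤ n → (1 : ℝ) < n := fun n hn => hy1.trans_le (by exact_mod_cast hn)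
  have h := abel a (fun m => 1 / (m * Real.log m))
    (fun n => Real.log n / Real.log y - 1 / Real.log n) y N δ hδ hD ?_ ?_ N hN le_rfl
  · have h1 : |(∑ m ∈ Ioc y N, a m) * (1 / (N * Real.log N))| ≤ δ * (1 / Real.log N) := by
      have := hl N hN
      have := hn1 N hN
      rw [abs_mul, abs_of_nonneg (by positivity : (0 : ℝ) ≤ 1 / (N * Real.log N))]
      calc _ ≤ δ * N * (1 / (N * Real.log N)) :=
            mul_le_mul_of_nonneg_right (hD N hN le_rfl) (by positivity)
        _ = _ := by field_simp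
    have h2 : 1 / Real.log y ≤ 1 := by rw [div_le_one (by linarith)]; exact hy
    have h3 : Real.log y / Real.log y = 1 := div_self (by linarith)
    simp only [h3] at h
    have h4 := abs_add_le (∑ m ∈ Ioc y N, a m * (1 / (m * Real.log m)) -
      (∑ m ∈ Ioc y N, a m) * (1 / (N * Real.log N))) ((∑ m ∈ Ioc y N, a m) * (1 / (N * Real.log N)))
    rw [sub_add_cancel] at h4
    nlinarith
  · intro n hn
    have := hl n hn
    have := hn1 n hn
    refine one_div_le_one_div_of_le (mul_pos (by linarith) (by linarith)) ?_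
    push_cast
    exact mul_le_mul (by linarith) (Real.log_le_log (by linarith) (by linarith)) (by linarith)
      (by linarith)
  · intro n hn
    have h1 := hl n hn
    have h2 := hn1 n hn
    have h3 := hl (n + 1) (by omega)
    push_cast at h3 ⊢
    have h4 : 1 / ((n : ℝ) + 1) ≤ Real.log (n + 1) - Real.log n := by
      have := Real.log_le_sub_one_of_pos (by positivity : (0 : ℝ) < n / (n + 1))
      rw [Real.log_div (by positivity) (by positivity)] at this
      have e : (n : ℝ) / (n + 1) - 1 = -(1 / (n + 1)) := by field_simp; ring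
      linarith
    have h5 : 1 / ((n + 1) * Real.log (n + 1)) ≤
        (Real.log (n + 1) - Real.log n) / Real.log y := by
      calc 1 / (((n : ℝ) + 1) * Real.log (n + 1)) = 1 / (n + 1) / Real.log (n + 1) := by
            rw [div_div]
        _ ≤ 1 / (n + 1) / Real.log y :=
            div_le_div_of_nonneg_left (by positivity) (by linarith) h3
        _ ≤ _ := div_le_div_of_nonneg_right h4 (by linarith)
    have e : (n : ℝ) * (1 / (n * Real.log n) - 1 / ((n + 1) * Real.log (n + 1))) =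
        1 / Real.log n - 1 / Real.log (n + 1) + 1 / ((n + 1) * Real.log (n + 1)) := by
      have : Real.log n ≠ 0 := by linarith
      have : Real.log (n + 1) ≠ 0 := by linarith
      field_simp; ring
    rw [e, sub_div] at *
    linarith

/-- splitting into residue classes -/
theorem split (G : ℤ) (hG : G ≠ 0) (y n : ℕ) (hy : 2 ≤ y) :
    ∑ p ∈ pri y n, (jacobiSym G p : ℝ) * Real.log p =
      ∑ l ∈ (range (4 * G.natAbs)).filter (fun l => l.Coprime (4 * G.natAbs)),
        (jacobiSym G l : ℝ) *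
          ∑ p ∈ (pri y n).filter (fun p => p ≡ l [MOD 4 * G.natAbs]), Real.log p := by
  have hq : 0 < 4 * G.natAbs := by have := Int.natAbs_pos.2 hG; omega
  have hodd : ∀ p ∈ pri y n, Odd p := fun p hp =>
    (mem_pri.1 hp).2.2.odd_of_ne_two (by have := (mem_pri.1 hp).1; omega)
  rw [← sum_fiberwise_of_maps_to (s := pri y n) (t := range (4 * G.natAbs))
    (g := fun p => p % (4 * G.natAbs)) fun p _ => mem_range.2 (Nat.mod_lt _ hq), sum_filter]
  refine sum_congr rfl fun l hl => ?_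
  have hl' : l % (4 * G.natAbs) = l := Nat.mod_eq_of_lt (mem_range.1 hl)
  split_ifs with hc
  · rw [mul_sum]
    refine sum_congr (filter_congr fun p _ => by rw [Nat.ModEq, hl']) fun p hp => ?_
    obtain ⟨hp, hm⟩ := mem_filter.1 hp
    rw [jacobiSym.mod_right G (hodd p hp), hm, hl']
  · refine sum_eq_zero fun p hp => ?_
    obtain ⟨hp, hm⟩ := mem_filter.1 hp
    have hpp := (mem_pri.1 hp).2.2
    have : NeZero p := ⟨hpp.ne_zero⟩
    have : jacobiSym G p = 0 := by
      rw [jacobiSym.eq_zero_iff_not_coprime]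
      intro h
      apply hc
      have h1 : p.Coprime G.natAbs := by
        rw [Int.gcd_comm] at h; simpa [Int.gcd] using h
      have h2 : p.Coprime 4 := by
        have := (Nat.coprime_two_right.2 (hodd p hp)).pow_right 2
        simpa using this
      have h3 : p.Coprime (4 * G.natAbs) := h2.mul_right h1
      rw [← hm, Nat.Coprime, ← Nat.gcd_rec, Nat.gcd_comm]
      exact h3
    rw [this]; simp

theorem mean (hj : JACStmt) (G : ℤ) (hG : G ≠ 0) (hs : ¬IsSquare G) :
    ∑ l ∈ (range (4 * G.natAbs)).filter (fun l => l.Coprime (4 * G.natAbs)),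
      (jacobiSym G l : ℝ) = 0 := by
  have h := hj.2 G hG hs
  have : ∑ l ∈ (range (4 * G.natAbs)).filter (fun l => l.Coprime (4 * G.natAbs)), jacobiSym G l =
      ∑ l ∈ (range (4 * G.natAbs)).filter Odd, jacobiSym G l := by
    refine sum_subset (fun l hl => ?_) fun l hl hl' => ?_
    · obtain ⟨h1, h2⟩ := mem_filter.1 hl
      refine mem_filter.2 ⟨h1, Nat.coprime_two_right.1 ?_⟩
      exact h2.coprime_dvd_right (Dvd.dvd.mul_right (by norm_num) _)
    · obtain ⟨h1, h2⟩ := mem_filter.1 hl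
      have : NeZero l := ⟨h2.pos.ne'⟩
      rw [jacobiSym.eq_zero_iff_not_coprime]
      intro h
      refine hl' (mem_filter.2 ⟨h1, ?_⟩)
      have h3 : l.Coprime G.natAbs := by
        rw [Int.gcd_comm] at h; simpa [Int.gcd] using h
      have h4 : l.Coprime 4 := by
        have := (Nat.coprime_two_right.2 h2).pow_right 2
        simpa using this
      exact h4.mul_right h3
  rw [h] at this
  exact_mod_cast this

theorem pri_diff (y n : ℕ) (hn : y ≤ n) (P : ℕ → Prop) [DecidablePred P] (f : ℕ → ℝ) :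
    ∑ p ∈ (pri y n).filter P, f p =
      ∑ p ∈ (pri 0 n).filter P, f p - ∑ p ∈ (pri 0 y).filter P, f p := by
  rw [eq_sub_iff_add_eq, ← sum_union]
  · refine sum_congr ?_ fun _ _ => rfl
    ext p
    simp only [mem_union, mem_filter, mem_pri]
    constructor
    · rintro (⟨⟨h1, h2, h3⟩, h4⟩ | ⟨⟨h1, h2, h3⟩, h4⟩)
      · exact ⟨⟨by omega, h2, h3⟩, h4⟩
      · exact ⟨⟨h1, by omega, h3⟩, h4⟩
    · rintro ⟨⟨h1, h2, h3⟩, h4⟩
      by_cases h : p ≤ y
      · exact Or.inr ⟨⟨h1, h, h3⟩, h4⟩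
      · exact Or.inl ⟨⟨by omega, h2, h3⟩, h4⟩
  · rw [disjoint_left]
    intro p h1 h2
    have := (mem_pri.1 (mem_filter.1 h1).1).1
    have := (mem_pri.1 (mem_filter.1 h2).1).2.1
    omega

theorem jac_abs (G : ℤ) (l : ℕ) : |(jacobiSym G l : ℝ)| ≤ 1 := by
  rcases jacobiSym.trichotomy G l with h | h | h <;> rw [h] <;> simp

end Sw

open Sw in
theorem chss : JACStmt → SWStmt → CHSStmt := fun hj hsw k B ε hε => by
  obtain ⟨x₀, hx₀⟩ := eventually_atTop.1 (hsw (B + 2) (B + 1))
  have hlog : Tendsto (fun y : ℕ => Real.log y) atTop atTop :=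
    Real.tendsto_log_atTop.comp tendsto_natCast_atTop_atTop
  filter_upwards [(tendsto_natCast_atTop_atTop (R := ℝ)).eventually_ge_atTop x₀,
    eventually_ge_atTop 2, hlog.eventually_ge_atTop (4 + 2 * k / ε)] with y hy₀ hy2 hL y' G hy' hG hs hGB
  have hk : 0 ≤ 2 * (k : ℝ) / ε := by positivity
  have hL4 : 4 ≤ Real.log y := by linarith
  rcases le_or_gt y' y with hyy | hyy
  · have : pri y y' = ∅ := by
      refine eq_empty_of_forall_notMem fun p hp => ?_
      have := mem_pri.1 hp; omega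
    simp [chs, this, hε.le]
  have hy0 : (0 : ℝ) < y := by exact_mod_cast (by omega : 0 < y)
  have hq : 1 ≤ 4 * G.natAbs := by have := Int.natAbs_pos.2 hG; omega
  have hD : ∀ n, y ≤ n → n ≤ y' →
      |∑ m ∈ Ioc y n, (if m.Prime then (jacobiSym G m : ℝ) * Real.log m else 0)| ≤
        2 / Real.log y * n := by
    intro n hn _
    have hnr : (y : ℝ) ≤ n := by exact_mod_cast hn
    have hln : Real.log y ≤ Real.log n := Real.log_le_log hy0 hnr
    have hqB : ((4 * G.natAbs : ℕ) : ℝ) ≤ Real.log n ^ (B + 1) := by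
      have e : ((4 * G.natAbs : ℕ) : ℝ) = 4 * |(G : ℝ)| := by
        push_cast; rw [Nat.cast_natAbs]; push_cast; rfl
      rw [e, pow_succ']
      exact mul_le_mul (by linarith) (hGB.trans (pow_le_pow_left₀ (by linarith) hln _))
        (abs_nonneg _) (by linarith)
    rw [← sum_filter]
    change |∑ p ∈ pri y n, (jacobiSym G p : ℝ) * Real.log p| ≤ _
    rw [split G hG y n hy2]
    set q := 4 * G.natAbs with hqdef
    set T := (range q).filter (fun l => l.Coprime q) with hT
    have e : ∑ l ∈ T, (jacobiSym G l : ℝ) *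
          ∑ p ∈ (pri y n).filter (fun p => p ≡ l [MOD q]), Real.log p =
        ∑ l ∈ T, (jacobiSym G l : ℝ) *
          ((∑ p ∈ (pri 0 n).filter (fun p => p ≡ l [MOD q]), Real.log p - (n : ℝ) / q.totient) -
           (∑ p ∈ (pri 0 y).filter (fun p => p ≡ l [MOD q]), Real.log p - (y : ℝ) / q.totient)) +
        (∑ l ∈ T, (jacobiSym G l : ℝ)) * ((n : ℝ) / q.totient - (y : ℝ) / q.totient) := by
      rw [sum_mul, ← sum_add_distrib]
      refine sum_congr rfl fun l _ => ?_
      rw [pri_diff y n hn]; ring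
    rw [e, mean hj G hG hs, zero_mul, add_zero]
    refine (abs_sum_le_sum_abs _ _).trans ?_
    have hc : (T.card : ℝ) ≤ Real.log n ^ (B + 1) := by
      refine le_trans ?_ hqB
      exact_mod_cast (card_filter_le _ _).trans (card_range _).le
    calc _ ≤ ∑ _l ∈ T, 2 * (n / Real.log n ^ (B + 2)) := by
          refine sum_le_sum fun l hl => ?_
          have hl' := (mem_filter.1 hl).2
          have h1 := hx₀ n (hy₀.trans hnr) n q l (by positivity) le_rfl hq hqB hl'
          have h2 := hx₀ n (hy₀.trans hnr) y q l hy0.le hnr hq hqB hl'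
          rw [Nat.floor_natCast] at h1 h2
          rw [abs_mul]
          refine (mul_le_mul (jac_abs G l) (abs_sub _ _) (abs_nonneg _) zero_le_one).trans ?_
          linarith
      _ = T.card * (2 * (n / Real.log n ^ (B + 2))) := by rw [sum_const, nsmul_eq_mul]
      _ ≤ Real.log n ^ (B + 1) * (2 * (n / Real.log n ^ (B + 2))) :=
          mul_le_mul_of_nonneg_right hc (by have : 0 < Real.log n := by linarith
                                            positivity)
      _ = 2 / Real.log n * n := by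
          have : Real.log n ≠ 0 := by linarith
          field_simp
          ring
      _ ≤ _ := mul_le_mul_of_nonneg_right
          (div_le_div_of_nonneg_left (by norm_num) (by linarith) hln) (by positivity)
  have h := abel' _ y y' _ (by positivity) (by linarith) hyy.le hD
  have e : chs G y y' = ∑ m ∈ Ioc y y',
      (if m.Prime then (jacobiSym G m : ℝ) * Real.log m else 0) * (1 / (m * Real.log m)) := by
    rw [chs, pri, sum_filter]
    refine sum_congr rfl fun m _ => ?_
    split_ifs with hm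
    · have : Real.log m ≠ 0 := (Real.log_pos (by exact_mod_cast hm.one_lt)).ne'
      field_simp
    · simp
  rw [e]
  refine h.trans ?_
  have h1 : Real.log y' / Real.log y ≤ k := by
    rw [div_le_iff₀ (by linarith), ← Real.log_pow]
    exact Real.log_le_log (hy0.trans (by exact_mod_cast hyy)) (by exact_mod_cast hy')
  calc 2 / Real.log y * (Real.log y' / Real.log y) ≤ 2 / Real.log y * k :=
        mul_le_mul_of_nonneg_left h1 (by positivity)
    _ ≤ ε := by
        rw [div_mul_eq_mul_div, div_le_iff₀ (by linarith)]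
        have : 2 * (k : ℝ) / ε ≤ Real.log y := by linarith
        rw [div_le_iff₀ hε] at this
        linarith

end Pool.Agent.MP_a43263_nt.R2

end
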