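import Mathlib.Topology.Sheaves.Presheaf
import Mathlib.Data.Int.Star
import Mathlib.Algebra.Order.Ring.Star
import Mathlib.Analysis.PSeries
import Mathlib.Algebra.Order.Chebyshev
import Mathlib.Algebra.Order.Floor.Semifield
import Mathlib.Algebra.Order.Star.Real
import Mathlib.Analysis.CStarAlgebra.Classes
import Mathlib.Analysis.Complex.ExponentialBounds
import Mathlib.Order.Interval.Finset.Box
import Mathlib.Data.Finset.NatDivisors
import Mathlib.RingTheory.PiTensorProduct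
import Mathlib.NumberTheory.Harmonic.Bounds
import Pool.Agent.MP_a43263_nt.R2.Spec

-- ======== part 0: formerly Pool.Agent.MP_a43263_nt.R2.Sv
section MrgPart0

/-! PROJECT RANK2: independence of coprime moduli and the upper bound sieve of Selberg. -/

set_option autoImplicit false

noncomputable section

namespace Pool.Agent.MP_a43263_nt.R2

open Finset

namespace Sv

theorem per_mul {f : ℤ → ℝ} {p : ℤ} (h : ∀ n, f (n + p) = f n) (n k : ℤ) : f (n + p * k) = f n := by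
  have : Function.Periodic f p := h
  rw [mul_comm]
  exact this.int_mul k n

theorem per_mod {f : ℤ → ℝ} {p : ℕ} (h : ∀ n, f (n + p) = f n) (r : ℕ) :
    f ((r % p : ℕ) : ℤ) = f r := by
  rw [← per_mul h _ (r / p : ℕ)]
  congr 1
  exact_mod_cast Nat.mod_add_div r p

theorem sum_mul_cop {f g : ℤ → ℝ} {m n : ℕ} (hm : 0 < m) (hn : 0 < n) (hc : m.Coprime n)
    (hf : ∀ x, f (x + m) = f x) (hg : ∀ x, g (x + n) = g x) :
    ∑ r ∈ range (m * n), f r * g r = (∑ r ∈ range m, f r) * ∑ r ∈ range n, g r := by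
  rw [sum_mul_sum, ← sum_product']
  have hmap : ∀ r ∈ range (m * n), (r % m, r % n) ∈ range m ×ˢ range n := fun r _ =>
    mem_product.2 ⟨mem_range.2 (Nat.mod_lt _ hm), mem_range.2 (Nat.mod_lt _ hn)⟩
  have hinj : ∀ r ∈ range (m * n), ∀ r' ∈ range (m * n),
      (r % m, r % n) = (r' % m, r' % n) → r = r' := by
    intro r hr r' hr' e
    have h1 : r ≡ r' [MOD m * n] := (Nat.modEq_and_modEq_iff_modEq_mul hc).1
      ⟨congrArg Prod.fst e, congrArg Prod.snd e⟩
    exact Nat.ModEq.eq_of_lt_of_lt h1 (mem_range.1 hr) (mem_range.1 hr')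
  refine sum_bij (fun r _ => (r % m, r % n)) hmap (fun r hr r' hr' e => hinj r hr r' hr' e)
    (fun b hb => ?_) fun r _ => ?_
  · obtain ⟨r, hr, e⟩ := surj_on_of_inj_on_of_card_le (fun r _ => (r % m, r % n)) hmap
      (fun r r' hr hr' e => hinj r hr r' hr' e) (by simp) b hb
    exact ⟨r, hr, e.symm⟩
  · rw [per_mod hf, per_mod hg]

theorem prod_per {P : Finset ℕ} {f : ℕ → ℤ → ℝ} (h : ∀ p ∈ P, ∀ n, f p (n + p) = f p n) (x : ℤ) :
    ∏ p ∈ P, f p (x + (∏ p ∈ P, p : ℕ)) = ∏ p ∈ P, f p x := by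
  refine prod_congr rfl fun p hp => ?_
  obtain ⟨k, hk⟩ := dvd_prod_of_mem (fun p : ℕ => p) hp
  rw [hk, Nat.cast_mul, per_mul (h p hp)]

theorem full {f : ℕ → ℤ → ℝ} (P : Finset ℕ) (hP : ∀ p ∈ P, p.Prime)
    (h : ∀ p ∈ P, ∀ n, f p (n + p) = f p n) :
    ∑ r ∈ range (∏ p ∈ P, p), ∏ p ∈ P, f p r = ∏ p ∈ P, ∑ r ∈ range p, f p r := by
  induction P using Finset.induction_on with
  | empty => simp
  | insert a s ha ih =>
    have h1 := fun p hp => hP p (mem_insert_of_mem hp)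
    have h2 := fun p hp => h p (mem_insert_of_mem hp)
    have hpa := hP a (mem_insert_self _ _)
    simp only [prod_insert ha]
    rw [← ih h1 h2]
    exact sum_mul_cop (f := f a) (g := fun x => ∏ p ∈ s, f p x) hpa.pos
      (prod_pos fun p hp => (h1 p hp).pos)
      (Nat.Coprime.prod_right fun p hp =>
        (Nat.coprime_primes hpa (h1 p hp)).2 fun e => ha (e ▸ hp))
      (h a (mem_insert_self _ _)) (prod_per h2)

theorem shift {F : ℤ → ℝ} {D : ℕ} (h : ∀ n, F (n + D) = F n) (c : ℕ) :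
    ∑ i ∈ range D, F ((c : ℤ) + i) = ∑ i ∈ range D, F i := by
  induction c with
  | zero => simp
  | succ c ih =>
    have e1 := sum_range_succ (fun i : ℕ => F ((c : ℤ) + i)) D
    have e2 := sum_range_succ' (fun i : ℕ => F ((c : ℤ) + i)) D
    have e3 : ∑ i ∈ range D, F (((c + 1 : ℕ) : ℤ) + i) =
        ∑ i ∈ range D, F ((c : ℤ) + (i + 1 : ℕ)) :=
      sum_congr rfl fun i _ => by congr 1; push_cast; ring
    simp only [h, Nat.cast_zero, add_zero] at e1 e2
    linarith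

theorem shift' {F : ℤ → ℝ} {D : ℕ} (hD : 0 < D) (h : ∀ n, F (n + D) = F n) (a : ℤ) :
    ∑ i ∈ range D, F (a + i) = ∑ i ∈ range D, F i := by
  have h0 : 0 ≤ a % D := Int.emod_nonneg _ (by omega)
  rw [← shift h (a % D).toNat, Int.toNat_of_nonneg h0]
  refine sum_congr rfl fun i _ => ?_
  rw [← per_mul h (a % D + i) (a / D)]
  congr 1
  have := Int.emod_add_mul_ediv a D
  linarith

theorem sum_Ico_eq (F : ℤ → ℝ) (a : ℤ) (N : ℕ) :
    ∑ n ∈ Ico a (a + N), F n = ∑ i ∈ range N, F (a + i) := by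
  induction N with
  | zero => simp
  | succ N ih =>
    rw [sum_range_succ, ← ih, Nat.cast_succ, ← add_assoc,
      ← insert_Ico_right_eq_Ico_add_one (by omega), sum_insert (by simp), add_comm]

theorem incomplete {F : ℤ → ℝ} {D : ℕ} (hD : 0 < D) (h : ∀ n, F (n + D) = F n)
    (hb : ∀ n, |F n| ≤ 1) (a : ℤ) (N : ℕ) :
    |∑ i ∈ range N, F (a + i) - N * ((∑ i ∈ range D, F i) / D)| ≤ 2 * D := by
  have hD' : (0 : ℝ) < D := by exact_mod_cast hD
  have hs : ∀ (c : ℤ) (s : ℕ), |∑ i ∈ range s, F (c + i)| ≤ s := fun c s =>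
    (abs_sum_le_sum_abs _ _).trans ((sum_le_card_nsmul _ _ 1 fun i _ => hb _).trans (by simp))
  have key : ∀ k : ℕ, ∑ i ∈ range (D * k), F (a + i) = k * ∑ i ∈ range D, F i := by
    intro k
    induction k with
    | zero => simp
    | succ k ih =>
      rw [Nat.mul_succ, sum_range_add, ih, Nat.cast_succ, add_mul, one_mul,
        ← shift' hD h (a + (D * k : ℕ))]
      congr 1
      exact sum_congr rfl fun i _ => by congr 1; push_cast; ring
  have hm : |(∑ i ∈ range D, F i) / D| ≤ 1 := by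
    rw [abs_div, abs_of_pos hD', div_le_one hD']
    simpa using hs 0 D
  have e : N = D * (N / D) + N % D := (Nat.div_add_mod N D).symm
  have hlt : ((N % D : ℕ) : ℝ) ≤ D := by exact_mod_cast (Nat.mod_lt N hD).le
  generalize N / D = k at e
  generalize N % D = s at e hlt
  subst e
  have e3 : ∑ i ∈ range s, F (a + (D * k + i : ℕ)) = ∑ i ∈ range s, F (a + (D * k : ℕ) + i) :=
    sum_congr rfl fun i _ => by congr 1; push_cast; ring
  rw [sum_range_add, key, e3]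
  have h1 := hs (a + (D * k : ℕ)) s
  generalize ∑ i ∈ range s, F (a + (D * k : ℕ) + i) = u at h1
  generalize ∑ i ∈ range D, F i = v at hm
  have e4 : k * v + u - ((D * k + s : ℕ) : ℝ) * (v / D) = u - s * (v / D) := by
    push_cast
    field_simp
    ring
  rw [e4]
  have h2 : |(s : ℝ) * (v / D)| ≤ s := by
    rw [abs_mul, Nat.abs_cast]
    exact mul_le_of_le_one_right (Nat.cast_nonneg _) hm
  have := abs_sub u (s * (v / D))
  linarith

end Sv

open Sv in
theorem crt : CRTStmt := by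
  intro P f a N hP h hb
  have := incomplete (F := fun n => ∏ p ∈ P, f p n) (D := ∏ p ∈ P, p)
    (prod_pos fun p hp => (hP p hp).pos) (prod_per h) (fun n => by
      rw [abs_prod]
      exact prod_le_one (fun _ _ => abs_nonneg _) fun p hp => hb p hp n) a N
  rw [sum_Ico_eq, prod_div_distrib, ← full P hP h]
  simpa only [Nat.cast_prod] using this

open Classical in
theorem sv (hcrt : CRTStmt) : SVStmt := by
  intro P bad ω Q a N R hP hper hω h0 hQ
  let ν : ℕ → ℝ := fun p => (ω p : ℝ) / p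
  let φ : ℕ → ℤ → ℝ := fun p n => (if bad p n then 1 else 0) - ν p
  let lam : Finset ℕ → ℝ := fun q => ∏ p ∈ q, -(1 - ν p)⁻¹
  let g : Finset ℕ → ℝ := fun q => ∏ p ∈ q, (ω p : ℝ) / (p - ω p)
  have hp0 : ∀ p ∈ P, (0 : ℝ) < p := fun p hp => by exact_mod_cast (hP p hp).pos
  have hω2 : ∀ p ∈ P, 2 * (ω p : ℝ) ≤ p := fun p hp => by exact_mod_cast (hω p hp).2
  have hν : ∀ p ∈ P, 0 ≤ ν p ∧ ν p ≤ 1 / 2 := fun p hp =>
    ⟨by positivity, by
      rw [div_le_iff₀ (hp0 p hp)]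
      linarith [hω2 p hp]⟩
  have hφ : ∀ p ∈ P, ∀ n, |φ p n| ≤ 1 := by
    intro p hp n
    have := hν p hp
    simp only [φ]
    split_ifs <;> rw [abs_le] <;> constructor <;> linarith [this.1, this.2]
  have hφp : ∀ p ∈ P, ∀ n, φ p (n + p) = φ p n := fun p hp n => by
    simp only [φ, hper p hp n]
  have hind : ∀ p ∈ P, ∑ r ∈ range p, (if bad p r then (1 : ℝ) else 0) = ω p := by
    intro p hp
    rw [sum_boole, (hω p hp).1]
  have m1 : ∀ p ∈ P, (∑ r ∈ range p, φ p r) / p = 0 := by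
    intro p hp
    simp only [φ, sum_sub_distrib, hind p hp, sum_const, card_range, nsmul_eq_mul, ν]
    have := (hp0 p hp).ne'
    field_simp
    ring
  have m2 : ∀ p ∈ P, (∑ r ∈ range p, φ p r * φ p r) / p = ν p * (1 - ν p) := by
    intro p hp
    have e : ∀ r : ℕ, φ p r * φ p r =
        (if bad p r then (1 : ℝ) else 0) * (1 - 2 * ν p) + ν p ^ 2 := by
      intro r
      simp only [φ]
      split_ifs <;> ring
    simp only [e, sum_add_distrib, ← sum_mul, hind p hp, sum_const, card_range, nsmul_eq_mul, ν]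
    have := (hp0 p hp).ne'
    field_simp
    ring
  have hg1 : ∀ p ∈ P, -(1 - ν p)⁻¹ * -ν p = (ω p : ℝ) / (p - ω p) := by
    intro p hp
    have h1 := (hp0 p hp).ne'
    have h2 : (p : ℝ) - ω p ≠ 0 := by linarith [hω2 p hp, hp0 p hp]
    simp only [ν]
    field_simp
  have hlam : ∀ q ∈ Q, |lam q| ≤ R := by
    intro q hq
    have h1 : ((∏ p ∈ q, p : ℕ) : ℝ) ≤ R := by exact_mod_cast (hQ q hq).2
    refine le_trans ?_ h1
    rw [abs_prod, Nat.cast_prod]
    refine prod_le_prod (fun _ _ => abs_nonneg _) fun p hp => ?_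
    have hpP := (hQ q hq).1 hp
    have h2 := hν p hpP
    have h3 : (2 : ℝ) ≤ p := by exact_mod_cast (hP p hpP).two_le
    rw [abs_neg, abs_inv, abs_of_pos (by linarith [h2.2])]
    refine le_trans ?_ h3
    rw [inv_le_comm₀ (by linarith [h2.2]) (by norm_num)]
    linarith [h2.2]
  have hcard : (Q.card : ℝ) ≤ R := by
    have : Q.card ≤ (Icc 1 R).card := by
      refine card_le_card_of_injOn (fun q => ∏ p ∈ q, p) (fun q hq => ?_) fun q hq q' hq' e => ?_
      · exact mem_coe.2 (mem_Icc.2 ⟨prod_pos fun p hp => (hP p ((hQ q hq).1 hp)).pos, (hQ q hq).2⟩)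
      · rw [← Nat.primeFactors_prod fun p hp => hP p ((hQ q hq).1 hp),
          ← Nat.primeFactors_prod fun p hp => hP p ((hQ q' hq').1 hp)]
        exact congrArg Nat.primeFactors e
    simpa using this
  have hpair : ∀ q ∈ Q, ∀ q' ∈ Q,
      lam q * lam q' * ∑ n ∈ Ico a (a + N), (∏ p ∈ q, φ p n) * ∏ p ∈ q', φ p n ≤
        (if q = q' then N * g q else 0) + 2 * (R : ℝ) ^ 4 := by
    intro q hq q' hq'
    have hs : q ∪ q' ⊆ P := union_subset (hQ q hq).1 (hQ q' hq').1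
    let f : ℕ → ℤ → ℝ := fun p n => (if p ∈ q then φ p n else 1) * if p ∈ q' then φ p n else 1
    have h1 := hcrt (q ∪ q') f a N (fun p hp => hP p (hs hp))
      (fun p hp n => by simp only [f, hφp p (hs hp) n]) (fun p hp n => by
        have := hφ p (hs hp) n
        simp only [f, abs_mul]
        refine mul_le_one₀ ?_ (abs_nonneg _) ?_ <;> split_ifs <;> simp [this])
    have e1 : ∀ n, ∏ p ∈ q ∪ q', f p n = (∏ p ∈ q, φ p n) * ∏ p ∈ q', φ p n := by
      intro n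
      simp only [f, prod_mul_distrib, prod_ite_mem, inter_eq_right.2 subset_union_left,
        inter_eq_right.2 subset_union_right]
    have e2 : lam q * lam q' * (N * ∏ p ∈ q ∪ q', ((∑ r ∈ range p, f p r) / p)) =
        if q = q' then N * g q else 0 := by
      split_ifs with e
      · subst e
        have : ∏ p ∈ q ∪ q, ((∑ r ∈ range p, f p r) / p) = ∏ p ∈ q, ν p * (1 - ν p) := by
          rw [union_self]
          refine prod_congr rfl fun p hp => ?_
          simp only [f, if_pos hp]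
          exact m2 p ((hQ q hq).1 hp)
        rw [this, mul_left_comm]
        congr 1
        simp only [lam, g, ← prod_mul_distrib]
        refine prod_congr rfl fun p hp => ?_
        have h2 : 1 - ν p ≠ 0 := by linarith [(hν p ((hQ q hq).1 hp)).2]
        rw [← hg1 p ((hQ q hq).1 hp)]
        field_simp
      · obtain ⟨p, hp⟩ : ∃ p, ¬ (p ∈ q ↔ p ∈ q') := by
          by_contra hc
          push Not at hc
          exact e (Finset.ext hc)
        have hm : p ∈ q ∪ q' := by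
          rw [mem_union]
          tauto
        rw [prod_eq_zero hm, mul_zero, mul_zero]
        by_cases h2 : p ∈ q
        · have h3 : p ∉ q' := fun h => hp ⟨fun _ => h, fun _ => h2⟩
          simp only [f, if_pos h2, if_neg h3, mul_one]
          exact m1 p (hs hm)
        · have h3 : p ∈ q' := (mem_union.1 hm).resolve_left h2
          simp only [f, if_neg h2, if_pos h3, one_mul]
          exact m1 p (hs hm)
    have e3 : ∏ p ∈ q ∪ q', (p : ℝ) ≤ (R : ℝ) * R := by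
      have : ∏ p ∈ q ∪ q', p ≤ R * R := by
        refine le_trans ?_ (Nat.mul_le_mul (hQ q hq).2 (hQ q' hq').2)
        rw [← prod_union_inter]
        exact Nat.le_mul_of_pos_right _
          (prod_pos fun p hp => (hP p ((hQ q hq).1 (mem_inter.1 hp).1)).pos)
      rw [← Nat.cast_mul, ← Nat.cast_prod]
      exact Nat.cast_le.2 this
    simp only [e1] at h1
    rw [← e2, ← sub_le_iff_le_add', ← mul_sub]
    refine (le_abs_self _).trans ?_
    rw [abs_mul, abs_mul]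
    calc _ ≤ (R : ℝ) * R * (2 * (R * R)) :=
          mul_le_mul (mul_le_mul (hlam q hq) (hlam q' hq') (abs_nonneg _) (Nat.cast_nonneg _))
            (h1.trans (by linarith)) (abs_nonneg _) (by positivity)
      _ = _ := by ring
  have hg0 : ∀ q ∈ Q, 0 ≤ g q := fun q hq => prod_nonneg fun p hp =>
    div_nonneg (Nat.cast_nonneg _)
      (by linarith [hω2 p ((hQ q hq).1 hp), hp0 p ((hQ q hq).1 hp)])
  have hG : 1 ≤ ∑ q ∈ Q, g q := by
    have := single_le_sum hg0 h0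
    simpa [g] using this
  have hsq : ∑ n ∈ Ico a (a + N), (∑ q ∈ Q, lam q * ∏ p ∈ q, φ p n) ^ 2 ≤
      N * ∑ q ∈ Q, g q + 2 * (R : ℝ) ^ 6 := by
    have e : ∑ n ∈ Ico a (a + N), (∑ q ∈ Q, lam q * ∏ p ∈ q, φ p n) ^ 2 =
        ∑ q ∈ Q, ∑ q' ∈ Q, lam q * lam q' *
          ∑ n ∈ Ico a (a + N), (∏ p ∈ q, φ p n) * ∏ p ∈ q', φ p n := by
      simp only [sq, sum_mul_sum]
      simp only [mul_sum]
      rw [sum_comm]
      refine sum_congr rfl fun q _ => ?_
      rw [sum_comm]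
      exact sum_congr rfl fun q' _ => sum_congr rfl fun n _ => by ring
    rw [e]
    refine (sum_le_sum fun q hq => sum_le_sum fun q' hq' => hpair q hq q' hq').trans ?_
    simp only [sum_add_distrib, sum_const, nsmul_eq_mul]
    rw [mul_sum]
    refine add_le_add (le_of_eq (sum_congr rfl fun q hq => by rw [sum_ite_eq, if_pos hq])) ?_
    calc (Q.card : ℝ) * (Q.card * (2 * (R : ℝ) ^ 4)) ≤ R * (R * (2 * (R : ℝ) ^ 4)) := by gcongr
      _ = _ := by ring
  have hlow : (((Ico a (a + N)).filter fun n => ∀ p ∈ P, ¬bad p n).card : ℝ) *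
      (∑ q ∈ Q, g q) ^ 2 ≤ ∑ n ∈ Ico a (a + N), (∑ q ∈ Q, lam q * ∏ p ∈ q, φ p n) ^ 2 := by
    refine le_trans (le_of_eq ?_) (sum_le_sum_of_subset_of_nonneg
      (filter_subset (fun n => ∀ p ∈ P, ¬bad p n) _) fun _ _ _ => sq_nonneg _)
    rw [← nsmul_eq_mul, ← sum_const]
    refine sum_congr rfl fun n hn => ?_
    congr 1
    refine sum_congr rfl fun q hq => ?_
    simp only [lam, g, ← prod_mul_distrib]
    refine prod_congr rfl fun p hp => ?_
    have hpP := (hQ q hq).1 hp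
    rw [← hg1 p hpP]
    simp only [φ, if_neg ((mem_filter.1 hn).2 p hpP), zero_sub]
  have hfin := hlow.trans hsq
  change _ ≤ N / (∑ q ∈ Q, g q) + _
  generalize ∑ q ∈ Q, g q = G at hG hfin ⊢
  generalize (((Ico a (a + N)).filter fun n => ∀ p ∈ P, ¬bad p n).card : ℝ) = c at hfin ⊢
  have hG0 : 0 < G := by linarith
  have hR : 0 ≤ 2 * (R : ℝ) ^ 6 := by positivity
  generalize 2 * (R : ℝ) ^ 6 = E at hR hfin ⊢
  refine le_of_mul_le_mul_right ?_ (pow_pos hG0 2)
  have e : (N / G + E) * G ^ 2 = N * G + E * G ^ 2 := by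
    field_simp
  rw [e]
  have : E * 1 ≤ E * G ^ 2 := mul_le_mul_of_nonneg_left (one_le_pow₀ hG) hR
  linarith

end Pool.Agent.MP_a43263_nt.R2

end
end MrgPart0

-- ======== part 1: formerly Pool.Agent.MP_a43263_nt.R2.Cen
section MrgPart1

/-! PROJECT RANK2: the centred kernel is Gowers uniform. -/

set_option autoImplicit false
set_option linter.unusedSectionVars false

noncomputable section

namespace Pool.Agent.MP_a43263_nt.R2

open Finset

namespace Cen

/-- the indicator of divisibility -/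
def ind (s : ℕ) (x : ℤ) : ℝ := if (s : ℤ) ∣ x then 1 else 0

/-- the centred indicator -/
def xi (s : ℕ) (x : ℤ) : ℝ := (if (s : ℤ) ∣ x then 1 else 0) - 1 / s

theorem ind_nonneg (s : ℕ) (x : ℤ) : 0 ≤ ind s x := by
  unfold ind
  split_ifs <;> norm_num

theorem inv_le_half {s : ℕ} (hs : s.Prime) : 0 < 1 / (s : ℝ) ∧ 1 / (s : ℝ) ≤ 1 / 2 := by
  have h : (2 : ℝ) ≤ s := by exact_mod_cast hs.two_le
  exact ⟨by positivity, one_div_le_one_div_of_le (by norm_num) h⟩

theorem xi_bd {s : ℕ} (hs : s.Prime) (x : ℤ) :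
    |xi s x| ≤ 1 ∧ |xi s x| ≤ ind s x + 1 / s ∧ 1 / (s : ℝ) ≤ |xi s x| := by
  obtain ⟨h1, h2⟩ := inv_le_half hs
  unfold xi ind
  generalize 1 / (s : ℝ) = e at h1 h2
  split_ifs
  · rw [abs_of_nonneg (by linarith)]
    exact ⟨by linarith, by linarith, by linarith⟩
  · rw [abs_of_nonpos (by linarith)]
    exact ⟨by linarith, by linarith, by linarith⟩

theorem xi_per (s : ℕ) (u D j : ℤ) : xi s (u + D * (j + s)) = xi s (u + D * j) := by
  have : (s : ℤ) ∣ u + D * (j + s) ↔ (s : ℤ) ∣ u + D * j := by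
    rw [show u + D * (j + s) = u + D * j + s * D by ring]
    exact dvd_add_left (dvd_mul_right _ _)
  simp only [xi, this]

theorem cong {s : ℕ} (hs : s.Prime) {u D : ℤ} (hD : ¬(s : ℤ) ∣ D) {i j : ℕ}
    (hi : (s : ℤ) ∣ u + D * i) (hj : (s : ℤ) ∣ u + D * j) : i % s = j % s := by
  have h1 : (s : ℤ) ∣ D * ((j : ℤ) - i) := by
    have := dvd_sub hj hi
    rwa [show u + D * j - (u + D * i) = D * ((j : ℤ) - i) by ring] at this
  exact (Nat.modEq_iff_dvd).2
    (((Nat.prime_iff_prime_int.1 hs).dvd_or_dvd h1).resolve_left hD)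

theorem sum_ind_le {s : ℕ} (hs : s.Prime) {D : ℤ} (hD : ¬(s : ℤ) ∣ D) (u : ℤ) (N : ℕ) :
    ∑ i ∈ range N, ind s (u + D * i) ≤ (N : ℝ) / s + 1 := by
  simp only [ind]
  rw [sum_boole]
  have h1 : ((range N).filter fun i : ℕ => (s : ℤ) ∣ u + D * i).card ≤ (range (N / s + 1)).card := by
    refine card_le_card_of_injOn (fun i => i / s) (fun i hi => ?_) fun i hi j hj e => ?_
    · exact mem_coe.2 (mem_range.2 (Nat.lt_succ_of_le
        (Nat.div_le_div_right (mem_range.1 (mem_filter.1 hi).1).le)))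
    · have e' : i / s = j / s := e
      rw [← Nat.div_add_mod i s, ← Nat.div_add_mod j s, e',
        cong hs hD (mem_filter.1 hi).2 (mem_filter.1 hj).2]
  rw [card_range] at h1
  calc _ ≤ ((N / s + 1 : ℕ) : ℝ) := by exact_mod_cast h1
    _ ≤ _ := by
      push_cast
      linarith [Nat.cast_div_le (α := ℝ) (m := N) (n := s)]

theorem mean_zero {s : ℕ} (hs : s.Prime) {D : ℤ} (hD : ¬(s : ℤ) ∣ D) (u : ℤ) :
    ∑ r ∈ range s, xi s (u + D * r) = 0 := by
  have h1 : ((range s).filter fun i : ℕ => (s : ℤ) ∣ u + D * i).card = 1 := by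
    have := Fact.mk hs
    have hD' : (D : ZMod s) ≠ 0 := fun h => hD ((ZMod.intCast_zmod_eq_zero_iff_dvd D s).1 h)
    refine card_eq_one.2 ⟨(-(u : ZMod s) * (D : ZMod s)⁻¹).val, eq_singleton_iff_unique_mem.2
      ⟨mem_filter.2 ⟨mem_range.2 (ZMod.val_lt _), ?_⟩, fun j hj => ?_⟩⟩
    · rw [← ZMod.intCast_zmod_eq_zero_iff_dvd]
      push_cast
      rw [ZMod.natCast_zmod_val]
      field_simp
      ring
    · obtain ⟨j1, j2⟩ := mem_filter.1 hj
      rw [← ZMod.intCast_zmod_eq_zero_iff_dvd] at j2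
      push_cast at j2
      rw [← ZMod.val_natCast_of_lt (mem_range.1 j1)]
      congr 1
      field_simp
      linear_combination j2
  have h2 : (s : ℝ) ≠ 0 := by exact_mod_cast hs.ne_zero
  simp only [xi, sum_sub_distrib]
  rw [sum_boole, h1]
  simp [h2]

theorem prod_sub {α : Type} (S : Finset α) (a b : α → ℝ) {L : ℝ} (hL : 1 ≤ L)
    (ha : ∀ i ∈ S, |a i| ≤ L) (hb : ∀ i ∈ S, |b i| ≤ L) :
    L * |∏ i ∈ S, a i - ∏ i ∈ S, b i| ≤ (∑ i ∈ S, |a i - b i|) * L ^ S.card := by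
  classical
  induction S using Finset.induction_on with
  | empty => simp
  | insert x S hx ih =>
    have ih' := ih (fun i hi => ha i (mem_insert_of_mem hi)) fun i hi => hb i (mem_insert_of_mem hi)
    have h1 : |∏ i ∈ S, a i| ≤ L ^ S.card := by
      rw [abs_prod, ← prod_const]
      exact prod_le_prod (fun _ _ => abs_nonneg _) fun i hi => ha i (mem_insert_of_mem hi)
    have h2 := hb x (mem_insert_self _ _)
    rw [prod_insert hx, prod_insert hx, sum_insert hx, card_insert_of_notMem hx,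
      show a x * ∏ i ∈ S, a i - b x * ∏ i ∈ S, b i = (a x - b x) * ∏ i ∈ S, a i +
        b x * (∏ i ∈ S, a i - ∏ i ∈ S, b i) by ring]
    have h3 := abs_add_le ((a x - b x) * ∏ i ∈ S, a i) (b x * (∏ i ∈ S, a i - ∏ i ∈ S, b i))
    rw [abs_mul, abs_mul] at h3
    have h4 := mul_le_mul_of_nonneg_left h1 (abs_nonneg (a x - b x))
    have h5 := mul_le_mul_of_nonneg_right h2 (abs_nonneg (∏ i ∈ S, a i - ∏ i ∈ S, b i))
    have h6 := mul_le_mul_of_nonneg_left (h3.trans (add_le_add h4 (h5.trans ih')))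
      (zero_le_one.trans hL)
    refine h6.trans (le_of_eq ?_)
    ring

variable {Ω : Type} [Fintype Ω] [DecidableEq Ω] {P : Finset ℕ} {Y' : ℕ} {D : ℤ}

theorem tuple (hcrt : CRTStmt) (hP : ∀ s ∈ P, s.Prime ∧ s ≤ Y' ∧ ¬(s : ℤ) ∣ D) (ω₀ : Ω)
    (u : Ω → ℤ) (σ : Ω → ℕ) (hσ : ∀ ω, σ ω ∈ P) (hne : ∀ ω, ω ≠ ω₀ → σ ω ≠ σ ω₀) (a : ℤ) (N : ℕ) :
    |∑ j ∈ Ico a (a + N), ∏ ω, xi (σ ω) (u ω + D * j)| ≤ 2 * (Y' : ℝ) ^ Fintype.card Ω := by
  have hs : ∀ p ∈ univ.image σ, p ∈ P := by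
    intro p hp
    obtain ⟨ω, -, rfl⟩ := mem_image.1 hp
    exact hσ ω
  have h1 := hcrt (univ.image σ)
    (fun p j => ∏ ω ∈ univ.filter (fun ω => σ ω = p), xi p (u ω + D * j)) a N
    (fun p hp => (hP p (hs p hp)).1) (fun p _ n => by simp only [xi_per]) (fun p hp n => by
      rw [abs_prod]
      exact prod_le_one (fun _ _ => abs_nonneg _) fun ω _ => (xi_bd (hP p (hs p hp)).1 _).1)
  have e1 : ∀ j : ℤ, ∏ p ∈ univ.image σ, ∏ ω ∈ univ.filter (fun ω => σ ω = p),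
      xi p (u ω + D * j) = ∏ ω, xi (σ ω) (u ω + D * j) := by
    intro j
    rw [← prod_fiberwise_of_maps_to (s := univ) (t := univ.image σ) (g := σ)
      fun ω _ => mem_image_of_mem σ (mem_univ ω)]
    exact prod_congr rfl fun p _ => prod_congr rfl fun ω hω => by rw [(mem_filter.1 hω).2]
  have e2 : univ.filter (fun ω => σ ω = σ ω₀) = {ω₀} := by
    ext ω
    simp only [mem_filter, mem_univ, true_and, mem_singleton]
    exact ⟨fun h => by_contra fun h' => hne ω h' h, fun h => by rw [h]⟩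
  rw [prod_eq_zero (mem_image_of_mem σ (mem_univ ω₀)) (by
    simp only [e2, prod_singleton]
    rw [mean_zero (hP _ (hσ ω₀)).1 (hP _ (hσ ω₀)).2.2, zero_div]), mul_zero, sub_zero] at h1
  simp only [e1] at h1
  refine h1.trans (mul_le_mul_of_nonneg_left ?_ (by norm_num))
  have hY : (1 : ℝ) ≤ Y' := by exact_mod_cast (hP _ (hσ ω₀)).1.one_le.trans (hP _ (hσ ω₀)).2.1
  calc ∏ p ∈ univ.image σ, (p : ℝ) ≤ ∏ _p ∈ univ.image σ, (Y' : ℝ) :=
        prod_le_prod (fun _ _ => Nat.cast_nonneg _)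
          fun p hp => by exact_mod_cast (hP p (hs p hp)).2.1
    _ = (Y' : ℝ) ^ (univ.image σ).card := prod_const _
    _ ≤ _ := pow_le_pow_right₀ hY card_image_le

theorem card_P (hP : ∀ s ∈ P, s.Prime ∧ s ≤ Y' ∧ ¬(s : ℤ) ∣ D) : P.card ≤ Y' := by
  have : P ⊆ Icc 1 Y' := fun s hs => mem_Icc.2 ⟨(hP s hs).1.one_le, (hP s hs).2.1⟩
  simpa using card_le_card this

theorem main_term (hcrt : CRTStmt) (hP : ∀ s ∈ P, s.Prime ∧ s ≤ Y' ∧ ¬(s : ℤ) ∣ D) (ω₀ : Ω)
    (u : Ω → ℤ) {c : ℕ → ℝ} (hc : ∀ s, |c s| ≤ 1) (a : ℤ) (N : ℕ) :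
    ∑ j ∈ Ico a (a + N), ∑ s ∈ P, c s * xi s (u ω₀ + D * j) *
      ∏ ω ∈ univ.erase ω₀, ∑ s' ∈ P.erase s, c s' * xi s' (u ω + D * j) ≤
      2 * (Y' : ℝ) ^ (2 * Fintype.card Ω) := by
  let F : ℕ → Ω → Finset ℕ := fun s ω => if ω = ω₀ then {s} else P.erase s
  have e1 : ∀ (s : ℕ) (j : ℤ), c s * xi s (u ω₀ + D * j) *
      ∏ ω ∈ univ.erase ω₀, ∑ s' ∈ P.erase s, c s' * xi s' (u ω + D * j) =
      ∑ σ ∈ Fintype.piFinset (F s), (∏ ω, c (σ ω)) * ∏ ω, xi (σ ω) (u ω + D * j) := by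
    intro s j
    simp only [← prod_mul_distrib]
    rw [← prod_univ_sum (F s) fun ω s' => c s' * xi s' (u ω + D * j),
      ← mul_prod_erase univ _ (mem_univ ω₀)]
    congr 1
    · simp [F]
    · exact prod_congr rfl fun ω hω => by simp only [F, if_neg (mem_erase.1 hω).1]
  simp only [e1]
  rw [sum_comm]
  have h1 : ∀ s ∈ P, ∑ j ∈ Ico a (a + N), ∑ σ ∈ Fintype.piFinset (F s),
      (∏ ω, c (σ ω)) * ∏ ω, xi (σ ω) (u ω + D * j) ≤
      (Y' : ℝ) ^ (Fintype.card Ω - 1) * (2 * (Y' : ℝ) ^ Fintype.card Ω) := by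
    intro s hs
    rw [sum_comm]
    refine (sum_le_card_nsmul _ _ (2 * (Y' : ℝ) ^ Fintype.card Ω) fun σ hσ => ?_).trans ?_
    · have hm := Fintype.mem_piFinset.1 hσ
      have h0 : σ ω₀ = s := by simpa [F] using hm ω₀
      have h2 : ∀ ω, ω ≠ ω₀ → σ ω ∈ P.erase s := fun ω h => by simpa only [F, if_neg h] using hm ω
      rw [← mul_sum]
      refine (le_abs_self _).trans ?_
      rw [abs_mul]
      refine (mul_le_of_le_one_left (abs_nonneg _) ?_).trans (tuple hcrt hP ω₀ u σ (fun ω => ?_)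
        (fun ω h => h0 ▸ (mem_erase.1 (h2 ω h)).1) a N)
      · rw [abs_prod]
        exact prod_le_one (fun _ _ => abs_nonneg _) fun ω _ => hc _
      · by_cases h : ω = ω₀
        · rw [h, h0]
          exact hs
        · exact mem_of_mem_erase (h2 ω h)
    · rw [nsmul_eq_mul]
      refine mul_le_mul_of_nonneg_right ?_ (by positivity)
      have : (Fintype.piFinset (F s)).card ≤ Y' ^ (Fintype.card Ω - 1) := by
        rw [Fintype.card_piFinset, ← mul_prod_erase univ _ (mem_univ ω₀)]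
        have e : (F s ω₀).card = 1 := by simp [F]
        rw [e, one_mul, ← card_univ, ← card_erase_of_mem (mem_univ ω₀)]
        refine prod_le_pow_card _ _ _ fun ω hω => ?_
        simp only [F, if_neg (mem_erase.1 hω).1]
        exact (card_le_card (erase_subset _ _)).trans (card_P hP)
      exact_mod_cast this
  refine (sum_le_card_nsmul _ _ _ h1).trans ?_
  rw [nsmul_eq_mul]
  have h2 : (P.card : ℝ) ≤ Y' := by exact_mod_cast card_P hP
  refine (mul_le_mul_of_nonneg_right h2 (by positivity)).trans (le_of_eq ?_)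
  obtain ⟨n, hn⟩ : ∃ n, Fintype.card Ω = n + 1 :=
    ⟨Fintype.card Ω - 1, by have := Fintype.card_pos_iff.2 ⟨ω₀⟩; omega⟩
  rw [hn, Nat.add_sub_cancel]
  ring

theorem pair_sum {s : ℕ} (hs : s.Prime) (hD : ¬(s : ℤ) ∣ D) (u v a : ℤ) {N Q : ℕ} (hN : N ≤ Q) :
    ∑ j ∈ Ico a (a + N), |xi s (u + D * j)| * |xi s (v + D * j)| ≤
      ((Q : ℝ) / s + 1) * (ind s (u - v) + 2 / s) + Q / (s : ℝ) ^ 2 := by
  have hs0 := (inv_le_half hs).1
  have hN' : (N : ℝ) ≤ Q := by exact_mod_cast hN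
  have h1 : ∀ w : ℤ, ∑ j ∈ Ico a (a + N), ind s (w + D * j) ≤ (Q : ℝ) / s + 1 := by
    intro w
    rw [Sv.sum_Ico_eq]
    simp only [mul_add, ← add_assoc]
    exact (sum_ind_le hs hD _ N).trans (by gcongr)
  have h2 : ∀ j : ℤ, |xi s (u + D * j)| * |xi s (v + D * j)| ≤
      ind s (u + D * j) * (ind s (u - v) + 1 / s) + ind s (v + D * j) * (1 / s) + (1 / s) ^ 2 := by
    intro j
    refine (mul_le_mul (xi_bd hs _).2.1 (xi_bd hs _).2.1 (abs_nonneg _)
      (add_nonneg (ind_nonneg _ _) hs0.le)).trans ?_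
    have : ind s (u + D * j) * ind s (v + D * j) ≤ ind s (u + D * j) * ind s (u - v) := by
      by_cases a1 : (s : ℤ) ∣ u + D * j
      · by_cases a2 : (s : ℤ) ∣ v + D * j
        · have a3 : (s : ℤ) ∣ u - v := by simpa using dvd_sub a1 a2
          simp [ind, a1, a2, a3]
        · simp only [ind, if_pos a1, if_neg a2, one_mul]
          exact ind_nonneg _ _
      · simp [ind, a1]
    nlinarith
  refine (sum_le_sum fun j _ => h2 j).trans ?_
  rw [sum_add_distrib, sum_add_distrib, ← sum_mul, ← sum_mul, sum_const, Int.card_Ico,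
    add_sub_cancel_left, Int.toNat_natCast, nsmul_eq_mul]
  have a1 := mul_le_mul_of_nonneg_right (h1 u) (add_nonneg (ind_nonneg s (u - v)) hs0.le)
  have a2 := mul_le_mul_of_nonneg_right (h1 v) hs0.le
  have a3 := mul_le_mul_of_nonneg_right hN' (sq_nonneg (1 / (s : ℝ)))
  refine (add_le_add (add_le_add a1 a2) a3).trans (le_of_eq ?_)
  ring

theorem fixed (hcrt : CRTStmt) (hP : ∀ s ∈ P, s.Prime ∧ s ≤ Y' ∧ ¬(s : ℤ) ∣ D) (ω₀ : Ω)
    (u : Ω → ℤ) {c : ℕ → ℝ} (hc : ∀ s, |c s| ≤ 1) (a : ℤ) {N Q : ℕ} (hN : N ≤ Q) {L : ℝ}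
    (hL : 1 ≤ L) (hb : ∀ j ∈ Ico a (a + N), ∀ ω, ∑ s ∈ P, |xi s (u ω + D * j)| ≤ L) :
    ∑ j ∈ Ico a (a + N), ∏ ω, kc P c (u ω + D * j) ≤ 2 * (Y' : ℝ) ^ (2 * Fintype.card Ω) +
      L ^ (Fintype.card Ω - 1) * ∑ ω ∈ univ.erase ω₀, ∑ s ∈ P,
        (((Q : ℝ) / s + 1) * (ind s (u ω₀ - u ω) + 2 / s) + Q / (s : ℝ) ^ 2) := by
  have hcx : ∀ (s : ℕ) (x : ℤ), |c s * xi s x| ≤ |xi s x| := fun s x => by
    rw [abs_mul]
    exact mul_le_of_le_one_left (abs_nonneg _) (hc s)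
  have h1 : ∀ j ∈ Ico a (a + N), ∏ ω, kc P c (u ω + D * j) ≤
      ∑ s ∈ P, c s * xi s (u ω₀ + D * j) *
        ∏ ω ∈ univ.erase ω₀, ∑ s' ∈ P.erase s, c s' * xi s' (u ω + D * j) +
      L ^ (Fintype.card Ω - 1) * ∑ ω ∈ univ.erase ω₀, ∑ s ∈ P,
        |xi s (u ω₀ + D * j)| * |xi s (u ω + D * j)| := by
    intro j hj
    have hZ : ∀ S ⊆ P, ∀ ω, |∑ s' ∈ S, c s' * xi s' (u ω + D * j)| ≤ L := fun S hS ω =>
      (abs_sum_le_sum_abs _ _).trans ((sum_le_sum fun s _ => hcx s _).trans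
        ((sum_le_sum_of_subset_of_nonneg hS fun _ _ _ => abs_nonneg _).trans (hb j hj ω)))
    rw [← mul_prod_erase univ _ (mem_univ ω₀), sum_comm, mul_sum, ← sum_add_distrib]
    change (∑ s ∈ P, c s * xi s (u ω₀ + D * j)) *
      ∏ ω ∈ univ.erase ω₀, ∑ s' ∈ P, c s' * xi s' (u ω + D * j) ≤ _
    rw [sum_mul]
    refine sum_le_sum fun s hs => ?_
    have h2 := prod_sub (univ.erase ω₀) (fun ω => ∑ s' ∈ P, c s' * xi s' (u ω + D * j))
      (fun ω => ∑ s' ∈ P.erase s, c s' * xi s' (u ω + D * j)) hL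
      (fun ω _ => hZ P subset_rfl ω) fun ω _ => hZ _ (erase_subset _ _) ω
    rw [card_erase_of_mem (mem_univ ω₀), card_univ] at h2
    have h3 : ∑ ω ∈ univ.erase ω₀, |∑ s' ∈ P, c s' * xi s' (u ω + D * j) -
        ∑ s' ∈ P.erase s, c s' * xi s' (u ω + D * j)| ≤
        ∑ ω ∈ univ.erase ω₀, |xi s (u ω + D * j)| := sum_le_sum fun ω _ => by
      rw [← add_sum_erase P _ hs, add_sub_cancel_right]
      exact hcx _ _
    have h4 := (le_mul_of_one_le_left (abs_nonneg _) hL).trans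
      (h2.trans (mul_le_mul_of_nonneg_right h3 (by positivity)))
    rw [← sub_le_iff_le_add', ← mul_sub, ← mul_sum]
    refine (le_abs_self _).trans ?_
    rw [abs_mul]
    refine (mul_le_mul (hcx _ _) h4 (abs_nonneg _) (abs_nonneg _)).trans (le_of_eq ?_)
    ring
  refine (sum_le_sum h1).trans ?_
  rw [sum_add_distrib, ← mul_sum]
  refine add_le_add (main_term hcrt hP ω₀ u hc a N)
    (mul_le_mul_of_nonneg_left ?_ (by positivity))
  rw [sum_comm]
  refine sum_le_sum fun ω _ => ?_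
  rw [sum_comm]
  exact sum_le_sum fun s hs => pair_sum (hP s hs).1 (hP s hs).2.2 _ _ a hN

theorem interval [Nonempty Ω] (h : Ω → ℤ) (a b j₀ : ℤ) (Q : ℕ) : ∃ (a' : ℤ) (N : ℕ), N ≤ Q ∧
    ∀ j, j ∈ Ico a' (a' + N) ↔ j ∈ Ico a b ∧ ∀ ω, j - h ω ∈ Ico j₀ (j₀ + Q) := by
  obtain ⟨ω₁, h1⟩ := Finite.exists_max h
  obtain ⟨ω₂, h2⟩ := Finite.exists_min h
  refine ⟨max a (j₀ + h ω₁), (min b (j₀ + Q + h ω₂) - max a (j₀ + h ω₁)).toNat, ?_, fun j => ?_⟩
  · have := h1 ω₂
    omega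
  · simp only [mem_Ico]
    constructor
    · intro hj
      refine ⟨by omega, fun ω => ?_⟩
      have := h1 ω
      have := h2 ω
      omega
    · rintro ⟨a1, a2⟩
      have := a2 ω₁
      have := a2 ω₂
      omega

theorem lin_update {k T : ℕ} (A : Fin k → ℤ) (t : Fin k → Fin T) (m : Fin k) (x : Fin T) :
    ∑ l, A l * (Function.update t m x l : ℕ) =
      ∑ l, A l * (t l : ℕ) + A m * (((x : ℕ) : ℤ) - (t m : ℕ)) := by
  rw [← add_sum_erase _ _ (mem_univ m), ← add_sum_erase _ (fun l => A l * ((t l : ℕ) : ℤ))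
    (mem_univ m), Function.update_self]
  have : ∑ l ∈ univ.erase m, A l * ((Function.update t m x l : ℕ) : ℤ) =
      ∑ l ∈ univ.erase m, A l * ((t l : ℕ) : ℤ) :=
    sum_congr rfl fun l hl => by rw [Function.update_of_ne (mem_erase.1 hl).1]
  rw [this]
  ring

theorem sum_update {k T : ℕ} (F : (Fin k → Fin T) → ℝ) (m : Fin k) :
    ∑ t : Fin k → Fin T, ∑ x : Fin T, F (Function.update t m x) = T * ∑ t, F t := by
  have hi : Function.Involutive fun p : (Fin k → Fin T) × Fin T =>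
      (Function.update p.1 m p.2, p.1 m) := fun p => by simp
  rw [← Fintype.sum_prod_type']
  refine (Equiv.sum_comp hi.toPerm fun p => F p.1).trans ?_
  rw [Fintype.sum_prod_type]
  simp [mul_sum]

theorem avg {k T s : ℕ} (hT : 1 ≤ T) (hs : s.Prime) (hD : ¬(s : ℤ) ∣ D) {A : Fin k → ℤ}
    (hA : ∀ m, ¬(s : ℤ) ∣ A m) (t : Fin k → Fin T) {ω : Fin k → Bool} (hω : ω ≠ fun _ => false)
    (w : ℤ) : ∑ t' : Fin k → Fin T, ind s (w + D * ∑ m, A m * (vx t t' ω m : ℕ)) ≤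
      (T : ℝ) ^ k * (1 / s + 1 / T) := by
  obtain ⟨m, hm⟩ := Function.ne_iff.1 hω
  have hm' : ω m = true := by simpa using hm
  have hT' : (0 : ℝ) < T := by exact_mod_cast hT
  have h1 := sum_update (fun t' => ind s (w + D * ∑ m, A m * (vx t t' ω m : ℕ))) m
  have h2 : ∀ t' : Fin k → Fin T, ∑ x : Fin T,
      ind s (w + D * ∑ l, A l * (vx t (Function.update t' m x) ω l : ℕ)) ≤ (T : ℝ) / s + 1 := by
    intro t'
    have e : ∀ x : Fin T, vx t (Function.update t' m x) ω = Function.update (vx t t' ω) m x := by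
      intro x
      funext l
      by_cases hl : l = m
      · subst hl
        simp [vx, hm']
      · simp [vx, Function.update_of_ne hl]
    have hDA : ¬(s : ℤ) ∣ D * A m := fun h =>
      ((Nat.prime_iff_prime_int.1 hs).dvd_or_dvd h).elim hD (hA m)
    refine le_trans (le_of_eq ?_) (sum_ind_le hs hDA
      (w + D * (∑ l, A l * (vx t t' ω l : ℕ) - A m * (vx t t' ω m : ℕ))) T)
    rw [← Fin.sum_univ_eq_sum_range fun i : ℕ => ind s
      (w + D * (∑ l, A l * (vx t t' ω l : ℕ) - A m * (vx t t' ω m : ℕ)) + D * A m * i)]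
    refine sum_congr rfl fun x _ => ?_
    rw [e, lin_update]
    congr 1
    ring
  have h3 := sum_le_card_nsmul univ _ _ fun t' _ => h2 t'
  rw [h1, card_univ, Fintype.card_fun, Fintype.card_fin, Fintype.card_fin, nsmul_eq_mul] at h3
  refine le_of_mul_le_mul_left (h3.trans (le_of_eq ?_)) hT'
  push_cast
  field_simp

theorem prime_sum {Y T Q : ℕ} (hY : 1 ≤ Y) (hT : 1 ≤ T) (hP : ∀ s ∈ P, s.Prime ∧ Y < s ∧ s ≤ Y')
    {L : ℝ} (hL : 1 ≤ L) (h1 : ∑ s ∈ P, 1 / (s : ℝ) ≤ L) :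
    ∑ s ∈ P, (((Q : ℝ) / s + 1) * (1 / s + 1 / T + 2 / s) + Q / (s : ℝ) ^ 2) ≤
      4 * (L * (Q + Y') * (1 / Y + 1 / T)) := by
  have hY' : (0 : ℝ) < Y := by exact_mod_cast hY
  have hT' : (0 : ℝ) < T := by exact_mod_cast hT
  have h2 : ∑ s ∈ P, ((s : ℝ) ^ 2)⁻¹ ≤ 1 / Y := by
    have hsub : P ⊆ Ioc Y (max Y Y') := fun s hs =>
      mem_Ioc.2 ⟨(hP s hs).2.1, (hP s hs).2.2.trans (le_max_right _ _)⟩
    refine (sum_le_sum_of_subset_of_nonneg hsub fun _ _ _ => by positivity).trans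
      ((sum_Ioc_inv_sq_le_sub (by omega) (le_max_left _ _)).trans ?_)
    rw [one_div]
    exact sub_le_self _ (by positivity)
  have h3 : (P.card : ℝ) ≤ Y' := by
    have : P ⊆ Icc 1 Y' := fun s hs => mem_Icc.2 ⟨(hP s hs).1.one_le, (hP s hs).2.2⟩
    exact_mod_cast (by simpa using card_le_card this : P.card ≤ Y')
  have h4 : ∀ s ∈ P, ((Q : ℝ) / s + 1) * (1 / s + 1 / T + 2 / s) + Q / (s : ℝ) ^ 2 ≤
      4 * Q * ((s : ℝ) ^ 2)⁻¹ + Q / T * (1 / s) + (3 / Y + 1 / T) := by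
    intro s hs
    have a1 : (Y : ℝ) ≤ s := by exact_mod_cast (hP s hs).2.1.le
    have a2 : 3 / (s : ℝ) ≤ 3 / Y := by gcongr
    have a3 : ((Q : ℝ) / s + 1) * (1 / s + 1 / T + 2 / s) + Q / (s : ℝ) ^ 2 =
        4 * Q * ((s : ℝ) ^ 2)⁻¹ + Q / T * (1 / s) + (3 / s + 1 / T) := by ring
    linarith
  refine (sum_le_sum h4).trans ?_
  rw [sum_add_distrib, sum_add_distrib, ← mul_sum, ← mul_sum, sum_const, nsmul_eq_mul]
  have b1 := mul_le_mul_of_nonneg_left h2 (by positivity : (0 : ℝ) ≤ 4 * Q)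
  have b2 := mul_le_mul_of_nonneg_left h1 (by positivity : (0 : ℝ) ≤ Q / T)
  have b3 := mul_le_mul_of_nonneg_right h3 (by positivity : (0 : ℝ) ≤ 3 / Y + 1 / T)
  refine (add_le_add (add_le_add b1 b2) b3).trans ?_
  rw [div_eq_mul_one_div (Q : ℝ), div_eq_mul_one_div (3 : ℝ)]
  have c1 : (0 : ℝ) ≤ 1 / Y := by positivity
  have c2 : (0 : ℝ) ≤ 1 / T := by positivity
  generalize 1 / (Y : ℝ) = y at c1
  generalize 1 / (T : ℝ) = τ at c2
  have c3 : (0 : ℝ) ≤ Q := Nat.cast_nonneg _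
  have c4 : (0 : ℝ) ≤ Y' := Nat.cast_nonneg _
  generalize (Q : ℝ) = q at c3
  generalize (Y' : ℝ) = z at c4
  obtain ⟨l, hl, rfl⟩ : ∃ l, 0 ≤ l ∧ L = 1 + l := ⟨L - 1, by linarith, by ring⟩
  have : 4 * ((1 + l) * (q + z) * (y + τ)) - (4 * q * y + q * τ * (1 + l) + z * (3 * y + τ)) =
      3 * (q * τ) + z * y + 3 * (z * τ) + l * (4 * (q * y) + 3 * (q * τ) + 4 * (z * y) +
        4 * (z * τ)) := by ring
  have : 0 ≤ 3 * (q * τ) + z * y + 3 * (z * τ) + l * (4 * (q * y) + 3 * (q * τ) + 4 * (z * y) +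
        4 * (z * τ)) := by positivity
  linarith

end Cen

open Cen in
theorem cen (hcrt : CRTStmt) : CENStmt := by
  intro k _
  refine ⟨4 * 2 ^ k + 2, fun Y Y' T Q D q₀ j₀ a b P c A L hY hT hP hc hL hb => ?_⟩
  have hL0 : 0 ≤ L := zero_le_one.trans hL
  rcases Nat.eq_zero_or_pos Q with rfl | hQ
  · refine le_trans (le_of_eq ?_) (by positivity : (0 : ℝ) ≤ _)
    refine sum_eq_zero fun t _ => sum_eq_zero fun t' _ => sum_eq_zero fun j _ => ?_
    exact prod_eq_zero (mem_univ fun _ => false) (by simp)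
  have hP' : ∀ s ∈ P, s.Prime ∧ s ≤ Y' ∧ ¬(s : ℤ) ∣ (D : ℤ) := fun s hs =>
    ⟨(hP s hs).1, (hP s hs).2.2.1, fun h => (hP s hs).2.2.2.1 (Int.natCast_dvd_natCast.1 h)⟩
  have hinv : ∑ s ∈ P, 1 / (s : ℝ) ≤ L :=
    (sum_le_sum fun s hs => (xi_bd (hP s hs).1 (q₀ + D * j₀)).2.2).trans
      (hb j₀ (mem_Ico.2 ⟨le_rfl, by omega⟩))
  have hcard : Fintype.card (Fin k → Bool) = 2 ^ k := by simp
  let h : (Fin k → Fin T) → (Fin k → Fin T) → (Fin k → Bool) → ℤ :=
    fun t t' ω => ∑ m, A m * (vx t t' ω m : ℕ)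
  have h1 : ∀ t t' : Fin k → Fin T, ∑ j ∈ Ico a b, ∏ ω : Fin k → Bool,
      (fun i : ℤ => if i ∈ Ico j₀ (j₀ + Q) then kc P c (q₀ + D * i) else 0) (j - h t t' ω) ≤
      2 * (Y' : ℝ) ^ (2 * 2 ^ k) + L ^ (2 ^ k - 1) * ∑ ω ∈ univ.erase (fun _ => false), ∑ s ∈ P,
        (((Q : ℝ) / s + 1) * (ind s (-(D * ∑ m, A m * (t m : ℕ)) + D * h t t' ω) + 2 / s) +
          Q / (s : ℝ) ^ 2) := by
    intro t t'
    obtain ⟨a', N, hN, hj⟩ := interval (h t t') a b j₀ Q
    have e0 : ∀ ω (j : ℤ), q₀ - D * h t t' ω + D * j = q₀ + D * (j - h t t' ω) :=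
      fun ω j => by ring
    have h2 := fixed hcrt hP' (fun _ : Fin k => false) (fun ω => q₀ - D * h t t' ω) hc a' hN hL
      fun j hj' ω => by
        rw [e0]
        exact hb _ (((hj j).1 hj').2 ω)
    rw [hcard] at h2
    refine le_trans (le_of_eq ?_) (h2.trans (le_of_eq ?_))
    · symm
      refine (sum_congr rfl fun j hj' => prod_congr rfl fun ω _ => ?_).trans
        (sum_subset (fun j hj' => ((hj j).1 hj').1) fun j a1 a2 => ?_)
      · simp only [if_pos (((hj j).1 hj').2 ω), e0]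
      · obtain ⟨ω, hω⟩ := not_forall.1 fun a3 => a2 ((hj j).2 ⟨a1, a3⟩)
        exact prod_eq_zero (mem_univ ω) (if_neg hω)
    · congr 2
      refine sum_congr rfl fun ω _ => sum_congr rfl fun s _ => ?_
      congr 4
      simp only [h, vx, Bool.false_eq_true, if_false]
      ring
  have h3 : ∀ t : Fin k → Fin T, ∑ t' : Fin k → Fin T, ∑ ω ∈ univ.erase (fun _ => false),
      ∑ s ∈ P, (((Q : ℝ) / s + 1) *
        (ind s (-(D * ∑ m, A m * (t m : ℕ)) + D * h t t' ω) + 2 / s) + Q / (s : ℝ) ^ 2) ≤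
      2 ^ k * ((T : ℝ) ^ k * (4 * (L * (Q + Y') * (1 / Y + 1 / T)))) := by
    intro t
    rw [sum_comm]
    refine (sum_le_card_nsmul _ _ ((T : ℝ) ^ k * (4 * (L * (Q + Y') * (1 / Y + 1 / T))))
      fun ω hω => ?_).trans ?_
    · rw [sum_comm]
      refine le_trans (sum_le_sum fun s hs => ?_) ((mul_sum _ _ _).ge.trans
        (mul_le_mul_of_nonneg_left (prime_sum (Q := Q) hY hT
          (fun s hs => ⟨(hP s hs).1, (hP s hs).2.1, (hP s hs).2.2.1⟩) hL hinv) (by positivity)))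
      have := avg hT (hP s hs).1 (hP' s hs).2.2 (hP s hs).2.2.2.2 t (mem_erase.1 hω).1
        (-(D * ∑ m, A m * (t m : ℕ)))
      rw [sum_add_distrib, ← mul_sum, sum_add_distrib, sum_const, sum_const, card_univ,
        Fintype.card_fun, Fintype.card_fin, Fintype.card_fin, nsmul_eq_mul, nsmul_eq_mul]
      refine (add_le_add (mul_le_mul_of_nonneg_left (add_le_add this le_rfl) (by positivity))
        le_rfl).trans (le_of_eq ?_)
      push_cast
      ring
    · rw [nsmul_eq_mul]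
      refine mul_le_mul_of_nonneg_right ?_ (by positivity)
      have := card_le_univ (univ.erase fun _ : Fin k => false)
      rw [hcard] at this
      exact_mod_cast this
  have h4 : ∀ t : Fin k → Fin T, ∑ t' : Fin k → Fin T, ∑ j ∈ Ico a b, ∏ ω : Fin k → Bool,
      (fun i : ℤ => if i ∈ Ico j₀ (j₀ + Q) then kc P c (q₀ + D * i) else 0) (j - h t t' ω) ≤
      (T : ℝ) ^ k * (2 * (Y' : ℝ) ^ (2 * 2 ^ k)) + L ^ (2 ^ k - 1) *
        (2 ^ k * ((T : ℝ) ^ k * (4 * (L * (Q + Y') * (1 / Y + 1 / T))))) := by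
    intro t
    refine (sum_le_sum fun t' _ => h1 t t').trans ?_
    rw [sum_add_distrib, sum_const, ← mul_sum, card_univ, Fintype.card_fun, Fintype.card_fin,
      Fintype.card_fin, nsmul_eq_mul, Nat.cast_pow]
    exact add_le_add le_rfl (mul_le_mul_of_nonneg_left (h3 t) (by positivity))
  refine (sum_le_card_nsmul _ _ _ fun t _ => h4 t).trans ?_
  rw [card_univ, Fintype.card_fun, Fintype.card_fin, Fintype.card_fin, nsmul_eq_mul, Nat.cast_pow]
  obtain ⟨n, hn⟩ : ∃ n, 2 ^ k = n + 1 := ⟨2 ^ k - 1, by have := Nat.two_pow_pos k; omega⟩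
  rw [pow_succ' 2 k, hn, Nat.add_sub_cancel]
  have e1 : 0 ≤ L ^ (n + 1) * (Q + Y') * (1 / Y + 1 / T) := by positivity
  have e2 : 0 ≤ (Y' : ℝ) ^ (2 * (n + 1)) := by positivity
  have e3 : (0 : ℝ) ≤ (T : ℝ) ^ (2 * k) := by positivity
  have e4 : (0 : ℝ) ≤ 2 ^ k := by positivity
  have e5 := mul_nonneg e3 e1
  have e6 := mul_nonneg e4 (mul_nonneg e3 e2)
  refine le_trans (le_of_eq (by ring : _ = 2 * ((T : ℝ) ^ (2 * k) * (Y' : ℝ) ^ (2 * (n + 1))) +
    4 * 2 ^ k * ((T : ℝ) ^ (2 * k) * (L ^ (n + 1) * (Q + Y') * (1 / Y + 1 / T))))) ?_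
  nlinarith

end Pool.Agent.MP_a43263_nt.R2

end
end MrgPart1

-- ======== part 2: formerly Pool.Agent.MP_a43263_nt.R2.Jac
section MrgPart2

/-! PROJECT RANK2: complete sums of Jacobi symbols. -/

set_option autoImplicit false

noncomputable section

namespace Pool.Agent.MP_a43263_nt.R2

open Finset Filter

namespace Do

/-! ### complete sums -/

/-- a multiplicative periodic function with a value `-1` at a unit has mean zero -/
theorem sum_zero {q : ℕ} (hq : q ≠ 0) (f : ℕ → ℤ) (hm : ∀ a b, f (a * b) = f a * f b)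
    (hp : ∀ a, f (a % q) = f a) {l : ℕ} (hl : l.Coprime q) (h1 : f l = -1) :
    ∑ a ∈ range q, f a = 0 := by
  have : NeZero q := ⟨hq⟩
  have e : ∑ a ∈ range q, f a = ∑ x : ZMod q, f x.val := by
    refine (sum_bij (fun (x : ZMod q) _ => x.val) (fun x _ => mem_range.2 (ZMod.val_lt x))
      (fun x _ y _ h => ZMod.val_injective q h)
      (fun a ha => ⟨(a : ZMod q), mem_univ _, ZMod.val_cast_of_lt (mem_range.1 ha)⟩)
      (fun _ _ => rfl)).symm
  have e2 : ∑ x : ZMod q, f ((ZMod.unitOfCoprime l hl).mulLeft x).val = ∑ x : ZMod q, f x.val :=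
    Equiv.sum_comp (ZMod.unitOfCoprime l hl).mulLeft (fun x => f x.val)
  have e3 : ∀ x : ZMod q, f ((ZMod.unitOfCoprime l hl).mulLeft x).val = -f x.val := fun x => by
    rw [Units.mulLeft_apply, ZMod.coe_unitOfCoprime, ZMod.val_mul, hp, hm, ZMod.val_natCast, hp, h1,
      neg_one_mul]
  simp only [e3, sum_neg_distrib] at e2
  rw [e]; omega

theorem exists_neg {N : ℕ} (hN : Odd N) (hs : ¬IsSquare N) : ∃ l : ℕ, jacobiSym l N = -1 := by
  have hN0 : N ≠ 0 := by rintro rfl; simp at hN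
  obtain ⟨a, b, hab, ha⟩ := Nat.sq_mul_squarefree N
  have ha1 : a ≠ 1 := by
    rintro rfl
    exact hs ⟨b, by rw [← hab]; ring⟩
  obtain ⟨p, hp, c, rfl⟩ := Nat.exists_prime_and_dvd ha1
  have hb0 : b ≠ 0 := by rintro rfl; simp at hab; exact hN0 hab.symm
  have hpc : ¬p ∣ c := by
    rintro ⟨d, rfl⟩
    exact hp.not_isUnit (ha p ⟨d, by ring⟩)
  obtain ⟨k, b', hb', rfl⟩ := Nat.exists_eq_pow_mul_and_not_dvd hb0 p hp.ne_one
  have := Fact.mk hp
  have hp2 : p ≠ 2 := by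
    rintro rfl
    exact (Nat.not_even_iff_odd.2 hN) (by rw [← hab]; exact ⟨(2 ^ k * b') ^ 2 * c, by ring⟩)
  obtain ⟨r, hr⟩ := FiniteField.exists_nonsquare (F := ZMod p) (by rwa [ZMod.ringChar_zmod_n])
  have hco : p.Coprime (b' ^ 2 * c) := Nat.Coprime.mul_right
    (Nat.Coprime.pow_right 2 ((Nat.Prime.coprime_iff_not_dvd hp).2 hb'))
    ((Nat.Prime.coprime_iff_not_dvd hp).2 hpc)
  obtain ⟨l, hl1, hl2⟩ := Nat.chineseRemainder hco r.val 1
  have h0 : b' ^ 2 * c ≠ 0 := by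
    intro h; rw [h] at hco; exact hp.ne_one (by simpa using hco)
  refine ⟨l, ?_⟩
  have e : N = p ^ (2 * k + 1) * (b' ^ 2 * c) := by rw [← hab]; ring
  have j1 : jacobiSym l p = -1 := by
    rw [ZMod.nonsquare_iff_jacobiSym_eq_neg_one]
    have : ((l : ℤ) : ZMod p) = r := by
      rw [Int.cast_natCast, (ZMod.natCast_eq_natCast_iff _ _ _).2 hl1, ZMod.natCast_zmod_val]
    rwa [this]
  have j2 : jacobiSym l (b' ^ 2 * c) = 1 := by
    rw [jacobiSym.mod_left' (a₂ := 1) (by exact_mod_cast (Int.natCast_modEq_iff.2 hl2)),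
      jacobiSym.one_left]
  rw [e, jacobiSym.mul_right' _ (pow_ne_zero _ hp.ne_zero) h0, jacobiSym.pow_right, j1, j2,
    mul_one, Odd.neg_one_pow ⟨k, rfl⟩]

theorem exists_neg' {G : ℤ} (hG : G ≠ 0) (hs : ¬IsSquare G) :
    ∃ l : ℕ, Odd l ∧ jacobiSym G l = -1 := by
  obtain ⟨e, N, hN, hGN⟩ := Nat.exists_eq_two_pow_mul_odd (Int.natAbs_ne_zero.2 hG)
  have hco : N.Coprime 8 := (Nat.coprime_two_right.2 hN).pow_right 3
  obtain ⟨σ, hσ, rfl⟩ : ∃ σ : ℤ, (σ = 1 ∨ σ = -1) ∧ G = σ * 2 ^ e * N := by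
    rcases Int.natAbs_eq G with h | h
    · exact ⟨1, .inl rfl, by rw [h, hGN]; push_cast; ring⟩
    · exact ⟨-1, .inr rfl, by rw [h, hGN]; push_cast; ring⟩
  have key : ∀ l : ℕ, Odd l → jacobiSym (σ * 2 ^ e * N) l =
      (if σ = 1 then 1 else ZMod.χ₄ l) * ZMod.χ₈ l ^ e * jacobiSym N l := fun l hl => by
    rw [jacobiSym.mul_left, jacobiSym.mul_left, jacobiSym.pow_left, jacobiSym.at_two hl]
    rcases hσ with rfl | rfl
    · simp
    · rw [jacobiSym.at_neg_one hl]; simp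
  by_cases hsq : IsSquare N
  · obtain ⟨c, hc⟩ := hsq
    have jN : ∀ l : ℕ, l ≡ 1 [MOD N] → jacobiSym N l = 1 := fun l hl => by
      have h1 : l.Coprime N := by
        rw [Nat.Coprime, hl.gcd_eq]; simp
      have h2 : c.Coprime l := (Nat.Coprime.coprime_dvd_right ⟨c, hc⟩ h1).symm
      rw [hc, Nat.cast_mul, ← sq]
      exact jacobiSym.sq_one' (by simpa using h2)
    rcases Nat.even_or_odd e with he | he
    · obtain ⟨l, hl1, hl2⟩ := Nat.chineseRemainder hco 1 7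
      have h8 : l % 8 = 7 := hl2
      have hl : Odd l := Nat.odd_iff.2 (by omega)
      refine ⟨l, hl, ?_⟩
      have hσ1 : σ ≠ 1 := by
        rintro rfl
        obtain ⟨k, rfl⟩ := he
        exact hs ⟨2 ^ k * c, by rw [hc]; push_cast; ring⟩
      rw [key l hl, jN l hl1, if_neg hσ1, ZMod.χ₄_nat_three_mod_four (by omega),
        ZMod.χ₈_nat_eq_if_mod_eight, if_neg (by omega), if_pos (.inr h8)]
      simp
    · obtain ⟨l, hl1, hl2⟩ := Nat.chineseRemainder hco 1 5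
      have h8 : l % 8 = 5 := hl2
      have hl : Odd l := Nat.odd_iff.2 (by omega)
      refine ⟨l, hl, ?_⟩
      rw [key l hl, jN l hl1, ZMod.χ₄_nat_one_mod_four (by omega), ite_self,
        ZMod.χ₈_nat_eq_if_mod_eight, if_neg (by omega), if_neg (by omega), he.neg_one_pow]
      simp
  · obtain ⟨r, hr⟩ := exists_neg hN hsq
    obtain ⟨l, hl1, hl2⟩ := Nat.chineseRemainder hco r 1
    have h8 : l % 8 = 1 := hl2
    have hl : Odd l := Nat.odd_iff.2 (by omega)
    refine ⟨l, hl, ?_⟩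
    rw [key l hl, ZMod.χ₄_nat_one_mod_four (by omega), ite_self, ZMod.χ₈_nat_eq_if_mod_eight,
      if_neg (by omega), if_pos (.inl h8),
      jacobiSym.quadratic_reciprocity_one_mod_four' hN (by omega),
      jacobiSym.mod_left' (a₂ := r) (Int.natCast_modEq_iff.2 hl1), hr]
    simp

/-- the symbol, set to zero at even lower arguments -/
def sy (m : ℤ) (n : ℕ) : ℤ := if Odd n then jacobiSym m n else 0

theorem sy_mul_left (m m' : ℤ) (n : ℕ) : sy (m * m') n = sy m n * sy m' n := by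
  unfold sy; split_ifs
  · exact jacobiSym.mul_left _ _ _
  · simp

theorem sy_mul_right (m : ℤ) (n n' : ℕ) : sy m (n * n') = sy m n * sy m n' := by
  unfold sy
  by_cases h : Odd n
  · by_cases h' : Odd n'
    · rw [if_pos h, if_pos h', if_pos (h.mul h')]
      exact jacobiSym.mul_right' _ h.pos.ne' h'.pos.ne'
    · rw [if_neg h', if_neg fun k => h' (Nat.odd_mul.1 k).2, mul_zero]
  · rw [if_neg h, if_neg fun k => h (Nat.odd_mul.1 k).1, zero_mul]

theorem sy_mod_right (m : ℤ) (n : ℕ) : sy m (n % (4 * m.natAbs)) = sy m n := by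
  have h : Odd (n % (4 * m.natAbs)) ↔ Odd n := by
    rw [Nat.odd_iff, Nat.odd_iff, Nat.mod_mod_of_dvd _ ⟨2 * m.natAbs, by ring⟩]
  unfold sy
  by_cases hn : Odd n
  · rw [if_pos hn, if_pos (h.2 hn), ← jacobiSym.mod_right m hn]
  · rw [if_neg hn, if_neg fun k => hn (h.1 k)]

theorem sy_mod_left (m n : ℕ) : sy (m % n : ℕ) n = sy m n := by
  unfold sy; split_ifs
  · rw [jacobiSym.mod_left m n]; push_cast; rfl
  · rfl

theorem sy_abs (m : ℤ) (n : ℕ) : |(sy m n : ℝ)| ≤ 1 := by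
  unfold sy; split_ifs
  · rcases jacobiSym.trichotomy m n with h | h | h <;> simp [h]
  · simp

end Do

theorem jac : JACStmt := by
  refine ⟨fun N hN hs => ?_, fun G hG hs => ?_⟩
  · obtain ⟨l, hl⟩ := Do.exists_neg hN hs
    have : NeZero N := ⟨hN.pos.ne'⟩
    refine Do.sum_zero hN.pos.ne' (fun a => jacobiSym a N)
      (fun a b => by push_cast; exact jacobiSym.mul_left _ _ _)
      (fun a => by rw [jacobiSym.mod_left a N]; push_cast; rfl) (l := l) ?_ hl
    by_contra h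
    have : jacobiSym l N = 0 := jacobiSym.eq_zero_iff_not_coprime.2 (by simpa using h)
    omega
  · obtain ⟨l, ho, hl⟩ := Do.exists_neg' hG hs
    have : NeZero l := ⟨ho.pos.ne'⟩
    rw [sum_filter]
    refine Do.sum_zero (by simpa using hG) (Do.sy G) (Do.sy_mul_right G) (Do.sy_mod_right G)
      (l := l) (Nat.Coprime.mul_right ((Nat.coprime_two_right.2 ho).pow_right 2) ?_)
      (by rw [Do.sy, if_pos ho, hl])
    by_contra h
    have : jacobiSym G l = 0 := jacobiSym.eq_zero_iff_not_coprime.2 (by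
      rw [Int.gcd_comm]; exact h)
    omega

end Pool.Agent.MP_a43263_nt.R2

end
end MrgPart2

-- ======== part 3: formerly Pool.Agent.MP_a43263_nt.R2.Do
section MrgPart3

/-! PROJECT RANK2: the double oscillation bound for Jacobi symbols. -/

set_option autoImplicit false

noncomputable section

namespace Pool.Agent.MP_a43263_nt.R2

open Finset Filter

namespace Do

/-! ### moments of the divisor function -/

theorem sum_anti (F : ℕ → ℕ → ℝ) (x : ℕ) :
    ∑ n ∈ Ioc 0 x, ∑ p ∈ n.divisorsAntidiagonal, F p.1 p.2 =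
      ∑ a ∈ Ioc 0 x, ∑ b ∈ Ioc 0 (x / a), F a b := by
  have h1 : ∑ n ∈ Ioc 0 x, ∑ p ∈ n.divisorsAntidiagonal, F p.1 p.2 =
      ∑ p ∈ Ioc 0 x ×ˢ Ioc 0 x with p.1 * p.2 ≤ x, F p.1 p.2 := by
    trans ∑ n ∈ Ioc 0 x, ∑ p ∈ Ioc 0 x ×ˢ Ioc 0 x with p.1 * p.2 = n, F p.1 p.2
    · refine sum_congr rfl fun n hn => ?_
      simp only [mem_Ioc] at hn
      rw [Nat.divisorsAntidiagonal_eq_prod_filter_of_le hn.1.ne' hn.2]
    · simp_rw [sum_filter]
      rw [sum_comm]
      exact sum_congr rfl fun _ _ => (by simp_all)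
  rw [h1, sum_filter, sum_product]
  refine sum_congr rfl fun a ha => ?_
  rw [← sum_filter]
  refine sum_congr ?_ fun _ _ => rfl
  ext b
  simp only [mem_filter, mem_Ioc] at ha ⊢
  rw [Nat.le_div_iff_mul_le ha.1, mul_comm b a]
  constructor
  · exact fun h => ⟨h.1.1, h.2⟩
  · exact fun h => ⟨⟨h.1, le_trans (Nat.le_mul_of_pos_left b ha.1) h.2⟩, h.2⟩

theorem tau_mul (a b : ℕ) :
    ((a * b).divisors.card : ℝ) ≤ (a.divisors.card : ℝ) * b.divisors.card := by
  rw [Nat.divisors_mul]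
  exact_mod_cast Finset.card_mul_le

theorem tau_succ_le (m n : ℕ) : (n.divisors.card : ℝ) ^ (m + 1) ≤
    ∑ p ∈ n.divisorsAntidiagonal, (p.1.divisors.card : ℝ) ^ m * (p.2.divisors.card : ℝ) ^ m := by
  have h : (n.divisors.card : ℝ) ^ (m + 1) =
      ∑ _p ∈ n.divisorsAntidiagonal, (n.divisors.card : ℝ) ^ m := by
    rw [sum_const, nsmul_eq_mul, ← Nat.map_div_right_divisors, card_map, pow_succ']
  rw [h]
  refine sum_le_sum fun p hp => ?_
  rw [← mul_pow, ← (Nat.mem_divisorsAntidiagonal.1 hp).1]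
  exact pow_le_pow_left₀ (by positivity) (tau_mul _ _) m

theorem one_le_L (x : ℕ) : (1 : ℝ) ≤ 1 + Real.log x := by
  have := Real.log_natCast_nonneg x; linarith

theorem L_mono {x y : ℕ} (h : y ≤ x) : 1 + Real.log y ≤ 1 + Real.log x := by
  rcases Nat.eq_zero_or_pos y with rfl | hy
  · simpa using Real.log_natCast_nonneg x
  · have := Real.log_le_log (by exact_mod_cast hy) (show (y : ℝ) ≤ x by exact_mod_cast h)
    linarith

theorem log_moment (m : ℕ) : ∃ K : ℕ, ∀ x : ℕ,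
    ∑ n ∈ Ioc 0 x, (n.divisors.card : ℝ) ^ m / n ≤ (1 + Real.log x) ^ K := by
  induction m with
  | zero =>
    refine ⟨1, fun x => ?_⟩
    have h := harmonic_le_one_add_log x
    rw [harmonic_eq_sum_Icc] at h
    push_cast at h
    simpa [← Icc_add_one_left_eq_Ioc, one_div] using h
  | succ m ih =>
    obtain ⟨K, hK⟩ := ih
    refine ⟨K + K, fun x => ?_⟩
    calc ∑ n ∈ Ioc 0 x, (n.divisors.card : ℝ) ^ (m + 1) / n
        ≤ ∑ n ∈ Ioc 0 x, ∑ p ∈ n.divisorsAntidiagonal,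
            (p.1.divisors.card : ℝ) ^ m / p.1 * ((p.2.divisors.card : ℝ) ^ m / p.2) := by
          refine sum_le_sum fun n _ => ?_
          refine (div_le_div_of_nonneg_right (tau_succ_le m n) (by positivity)).trans ?_
          rw [sum_div]
          refine le_of_eq (sum_congr rfl fun p hp => ?_)
          rw [div_mul_div_comm, ← (Nat.mem_divisorsAntidiagonal.1 hp).1]
          push_cast; rfl
      _ = ∑ a ∈ Ioc 0 x, ∑ b ∈ Ioc 0 (x / a),
            (a.divisors.card : ℝ) ^ m / a * ((b.divisors.card : ℝ) ^ m / b) :=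
          sum_anti (fun a b => (a.divisors.card : ℝ) ^ m / a * ((b.divisors.card : ℝ) ^ m / b)) x
      _ ≤ ∑ a ∈ Ioc 0 x, (a.divisors.card : ℝ) ^ m / a * (1 + Real.log x) ^ K := by
          refine sum_le_sum fun a _ => ?_
          rw [← mul_sum]
          refine mul_le_mul_of_nonneg_left ((hK _).trans ?_) (by positivity)
          exact pow_le_pow_left₀ (zero_le_one.trans (one_le_L _)) (L_mono (Nat.div_le_self _ _)) K
      _ ≤ (1 + Real.log x) ^ (K + K) := by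
          rw [← sum_mul, pow_add]
          exact mul_le_mul_of_nonneg_right (hK x) (pow_nonneg (zero_le_one.trans (one_le_L _)) K)

theorem moment (m : ℕ) : ∃ K : ℕ, ∀ x : ℕ,
    ∑ n ∈ Ioc 0 x, (n.divisors.card : ℝ) ^ m ≤ x * (1 + Real.log x) ^ K := by
  induction m with
  | zero => exact ⟨0, fun x => by simp⟩
  | succ m ih =>
    obtain ⟨K, hK⟩ := ih
    obtain ⟨K', hK'⟩ := log_moment m
    refine ⟨K' + K, fun x => ?_⟩
    have h0 : (0 : ℝ) ≤ 1 + Real.log x := zero_le_one.trans (one_le_L _)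
    calc ∑ n ∈ Ioc 0 x, (n.divisors.card : ℝ) ^ (m + 1)
        ≤ ∑ n ∈ Ioc 0 x, ∑ p ∈ n.divisorsAntidiagonal,
            (p.1.divisors.card : ℝ) ^ m * (p.2.divisors.card : ℝ) ^ m :=
          sum_le_sum fun n _ => tau_succ_le m n
      _ = ∑ a ∈ Ioc 0 x, ∑ b ∈ Ioc 0 (x / a),
            (a.divisors.card : ℝ) ^ m * (b.divisors.card : ℝ) ^ m :=
          sum_anti (fun a b => (a.divisors.card : ℝ) ^ m * (b.divisors.card : ℝ) ^ m) x
      _ ≤ ∑ a ∈ Ioc 0 x, (a.divisors.card : ℝ) ^ m / a * (x * (1 + Real.log x) ^ K) := by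
          refine sum_le_sum fun a _ => ?_
          rw [← mul_sum, div_mul_eq_mul_div, mul_div_assoc]
          refine mul_le_mul_of_nonneg_left ((hK _).trans ?_) (by positivity)
          rw [mul_div_right_comm]
          exact mul_le_mul Nat.cast_div_le
            (pow_le_pow_left₀ (zero_le_one.trans (one_le_L _)) (L_mono (Nat.div_le_self _ _)) K)
            (pow_nonneg (zero_le_one.trans (one_le_L _)) K) (by positivity)
      _ ≤ x * (1 + Real.log x) ^ (K' + K) := by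
          rw [← sum_mul, pow_add, mul_left_comm]
          exact mul_le_mul_of_nonneg_left
            (mul_le_mul_of_nonneg_right (hK' x) (by positivity)) (by positivity)

/-! ### the bilinear bound -/

theorem incomplete {q : ℕ} (hq : q ≠ 0) (f : ℕ → ℝ) (hp : ∀ a, f (a % q) = f a)
    (h1 : ∀ a, |f a| ≤ 1) (h0 : ∑ a ∈ range q, f a = 0) (L : ℕ) :
    |∑ a ∈ Ioc 0 L, f a| ≤ q := by
  have A : ∀ k r : ℕ, ∑ a ∈ range (q * k + r), f a = ∑ a ∈ range r, f a := fun k r => by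
    induction k with
    | zero => simp
    | succ k ih =>
      rw [show q * (k + 1) + r = q + (q * k + r) by ring, sum_range_add, h0, zero_add, ← ih]
      exact sum_congr rfl fun a _ => by rw [← hp, Nat.add_mod_left, hp]
  have B : ∑ a ∈ range (L + 1), f a = f 0 + ∑ a ∈ Ioc 0 L, f a := by
    rw [range_eq_Ico, sum_eq_sum_Ico_succ_bot (Nat.succ_pos L)]
    congr 1
  have C : |∑ a ∈ range ((L + 1) % q), f a| ≤ ((L + 1) % q : ℕ) :=
    (abs_sum_le_sum_abs _ _).trans ((sum_le_sum fun a _ => h1 a).trans (by simp))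
  have D : (((L + 1) % q : ℕ) : ℝ) + 1 ≤ q := by
    exact_mod_cast Nat.mod_lt (L + 1) (Nat.pos_of_ne_zero hq)
  have E := A ((L + 1) / q) ((L + 1) % q)
  rw [Nat.div_add_mod, B] at E
  have F := abs_le.1 (h1 0)
  have G := abs_le.1 C
  rw [abs_le]; constructor <;> linarith [F.1, F.2, G.1, G.2]

/-- a kernel that is multiplicative in both variables and oscillates in the first one -/
structure Kn (χ : ℕ → ℕ → ℝ) : Prop where
  ml : ∀ x x' y, χ (x * x') y = χ x y * χ x' y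
  mr : ∀ x y y', χ x (y * y') = χ x y * χ x y'
  ab : ∀ x y, |χ x y| ≤ 1
  os : ∀ y L, 0 < y → ¬IsSquare y → |∑ x ∈ Ioc 0 L, χ x y| ≤ 4 * y

theorem kn1 (h : JACStmt) : Kn fun x y => (sy x y : ℝ) := by
  refine ⟨fun x x' y => by push_cast; rw [sy_mul_left]; push_cast; rfl,
    fun x y y' => by rw [sy_mul_right]; push_cast; rfl, fun x y => sy_abs _ _,
    fun y L hy hs => ?_⟩
  by_cases ho : Odd y
  · refine (incomplete hy.ne' (fun x => (sy x y : ℝ)) (fun a => by rw [sy_mod_left])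
      (fun a => sy_abs _ _) ?_ L).trans (by linarith [Nat.cast_nonneg (α := ℝ) y])
    have := h.1 y ho hs
    simp only [sy, if_pos ho]
    exact_mod_cast this
  · simp [sy, if_neg ho]

theorem kn2 (h : JACStmt) : Kn fun x y => (sy y x : ℝ) := by
  refine ⟨fun x x' y => by rw [sy_mul_right]; push_cast; rfl,
    fun x y y' => by push_cast; rw [sy_mul_left]; push_cast; rfl, fun x y => sy_abs _ _,
    fun y L hy hs => ?_⟩
  refine (incomplete (q := 4 * y) (by omega) (fun x => (sy y x : ℝ))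
    (fun a => by have := sy_mod_right y a; rw [Int.natAbs_natCast] at this; rw [this])
    (fun a => sy_abs _ _) ?_ L).trans (by push_cast; rfl)
  have := h.2 y (by exact_mod_cast hy.ne') (by rwa [Int.isSquare_natCast_iff])
  rw [sum_filter, Int.natAbs_natCast] at this
  simp only [sy]
  exact_mod_cast this

variable {χ : ℕ → ℕ → ℝ}

/-- squaring a linear form -/
theorem sq_form (hχ : Kn χ) (j X : ℕ) (α : ℕ → ℝ)
    (hα : ∀ x, 0 < x → |α x| ≤ (x.divisors.card : ℝ) ^ j) :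
    ∃ γ : ℕ → ℝ, (∀ l, 0 < l → |γ l| ≤ (l.divisors.card : ℝ) ^ (j + j + 1)) ∧
      ∀ y, (∑ x ∈ Ioc 0 X, α x * χ x y) ^ 2 = ∑ l ∈ Ioc 0 (X ^ 2), γ l * χ l y := by
  refine ⟨fun l => ∑ p ∈ (Ioc 0 X ×ˢ Ioc 0 X).filter (fun p => p.1 * p.2 = l), α p.1 * α p.2,
    fun l hl => ?_, fun y => ?_⟩
  · have hsub : (Ioc 0 X ×ˢ Ioc 0 X).filter (fun p => p.1 * p.2 = l) ⊆ l.divisorsAntidiagonal :=
      fun p hp => Nat.mem_divisorsAntidiagonal.2 ⟨(mem_filter.1 hp).2, hl.ne'⟩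
    refine (abs_sum_le_sum_abs _ _).trans
      ((sum_le_sum_of_subset_of_nonneg hsub fun _ _ _ => abs_nonneg _).trans ?_)
    have e : (l.divisors.card : ℝ) ^ (j + j + 1) =
        ∑ _p ∈ l.divisorsAntidiagonal, (l.divisors.card : ℝ) ^ (j + j) := by
      rw [sum_const, nsmul_eq_mul, ← Nat.map_div_right_divisors, card_map, pow_succ']
    rw [e]
    refine sum_le_sum fun p hp => ?_
    have hp' := (Nat.mem_divisorsAntidiagonal.1 hp).1
    have t : ∀ d, d ∣ l → |α d| ≤ (l.divisors.card : ℝ) ^ j := fun d hd =>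
      (hα d (Nat.pos_of_dvd_of_pos hd hl)).trans (pow_le_pow_left₀ (by positivity)
        (by exact_mod_cast card_le_card (Nat.divisors_subset_of_dvd hl.ne' hd)) j)
    rw [abs_mul, pow_add]
    exact mul_le_mul (t _ ⟨_, hp'.symm⟩) (t _ ⟨_, by rw [← hp', mul_comm]⟩) (abs_nonneg _)
      (by positivity)
  · rw [sq, sum_mul_sum, ← sum_product',
      ← sum_fiberwise_of_maps_to (t := Ioc 0 (X ^ 2)) (g := fun p : ℕ × ℕ => p.1 * p.2)]
    · refine sum_congr rfl fun l _ => ?_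
      rw [sum_mul]
      refine sum_congr rfl fun p hp => ?_
      rw [← (mem_filter.1 hp).2, hχ.ml]; ring
    · intro p hp
      simp only [mem_product, mem_Ioc] at hp ⊢
      exact ⟨Nat.mul_pos hp.1.1 hp.2.1, by rw [sq]; exact Nat.mul_le_mul hp.1.2 hp.2.2⟩

open Classical in
theorem card_sq (Y : ℕ) :
    (((Ioc 0 Y ×ˢ Ioc 0 Y).filter fun p : ℕ × ℕ => IsSquare (p.1 * p.2)).card : ℝ) ≤
      ∑ n ∈ Ioc 0 Y, (n.divisors.card : ℝ) ^ 2 := by
  have hsub : ((Ioc 0 Y ×ˢ Ioc 0 Y).filter fun p : ℕ × ℕ => IsSquare (p.1 * p.2)) ⊆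
      (Ioc 0 Y).biUnion fun j => (j * j).divisorsAntidiagonal := by
    intro p hp
    simp only [mem_filter, mem_product, mem_Ioc] at hp
    obtain ⟨⟨h1, h2⟩, j, hj⟩ := hp
    have h0 : 0 < j * j := hj ▸ Nat.mul_pos h1.1 h2.1
    refine mem_biUnion.2 ⟨j, mem_Ioc.2 ⟨Nat.pos_of_mul_pos_left h0, ?_⟩,
      Nat.mem_divisorsAntidiagonal.2 ⟨hj, h0.ne'⟩⟩
    exact Nat.mul_self_le_mul_self_iff.1 (hj ▸ Nat.mul_le_mul h1.2 h2.2)
  have h := (card_le_card hsub).trans card_biUnion_le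
  refine (Nat.cast_le.2 h).trans ?_
  rw [Nat.cast_sum]
  refine sum_le_sum fun j _ => ?_
  rw [← Nat.map_div_right_divisors, card_map, sq]
  exact tau_mul j j

/-- the mean square in the long variable -/
theorem mean_sq (hχ : Kn χ) (L Y : ℕ) :
    ∑ l ∈ Ioc 0 L, (∑ y ∈ Ioc 0 Y, χ l y) ^ 2 ≤
      L * ∑ n ∈ Ioc 0 Y, (n.divisors.card : ℝ) ^ 2 + 4 * Y ^ 4 := by
  classical
  have e : ∑ l ∈ Ioc 0 L, (∑ y ∈ Ioc 0 Y, χ l y) ^ 2 =
      ∑ p ∈ Ioc 0 Y ×ˢ Ioc 0 Y, ∑ l ∈ Ioc 0 L, χ l (p.1 * p.2) := by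
    rw [sum_comm]
    refine sum_congr rfl fun l _ => ?_
    rw [sq, sum_mul_sum, ← sum_product']
    exact sum_congr rfl fun p _ => (hχ.mr _ _ _).symm
  rw [e]
  calc ∑ p ∈ Ioc 0 Y ×ˢ Ioc 0 Y, ∑ l ∈ Ioc 0 L, χ l (p.1 * p.2)
      ≤ ∑ p ∈ Ioc 0 Y ×ˢ Ioc 0 Y,
          ((if IsSquare (p.1 * p.2) then (L : ℝ) else 0) + 4 * Y ^ 2) := by
        refine sum_le_sum fun p hp => ?_
        simp only [mem_product, mem_Ioc] at hp
        split_ifs with hs
        · have : ∑ l ∈ Ioc 0 L, χ l (p.1 * p.2) ≤ L :=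
            (sum_le_sum fun l _ => (abs_le.1 (hχ.ab l _)).2).trans (by simp)
          linarith [sq_nonneg (Y : ℝ)]
        · have h1 := (abs_le.1 (hχ.os _ L (Nat.mul_pos hp.1.1 hp.2.1) hs)).2
          have h2 : ((p.1 * p.2 : ℕ) : ℝ) ≤ Y ^ 2 := by
            rw [sq]; exact_mod_cast Nat.mul_le_mul hp.1.2 hp.2.2
          linarith
    _ ≤ _ := by
        rw [sum_add_distrib, ← sum_filter, sum_const, sum_const, nsmul_eq_mul, nsmul_eq_mul,
          card_product, Nat.card_Ioc, Nat.sub_zero, mul_comm]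
        refine add_le_add (mul_le_mul_of_nonneg_left ?_ (by positivity)) (by push_cast; nlinarith)
        convert card_sq Y

theorem bilinear : ∃ K : ℕ, ∀ χ : ℕ → ℕ → ℝ, Kn χ → ∀ (X Y : ℕ) (α β : ℕ → ℝ), 1 ≤ Y → Y ≤ X →
    (∀ x, |α x| ≤ 1) → (∀ y, |β y| ≤ 1) →
    |∑ x ∈ Ioc 0 X, ∑ y ∈ Ioc 0 Y, α x * β y * χ x y| ^ 8 ≤
      5 * (4 * (1 + Real.log X)) ^ K * X ^ 8 * Y ^ 7 := by
  obtain ⟨K, hK⟩ := moment 6
  obtain ⟨K', hK'⟩ := moment 2
  refine ⟨K + K', fun χ hχ X Y α β hY hX hα hβ => ?_⟩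
  obtain ⟨γ₁, h₁, e₁⟩ := sq_form hχ 0 X α fun x _ => by simpa using hα x
  obtain ⟨γ, h₂, e₂⟩ := sq_form hχ 1 (X ^ 2) γ₁ h₁
  set F : ℕ → ℝ := fun y => ∑ x ∈ Ioc 0 X, α x * χ x y with hF
  set T := |∑ x ∈ Ioc 0 X, ∑ y ∈ Ioc 0 Y, α x * β y * χ x y| with hT
  set L := 4 * (1 + Real.log X) with hL
  have hL0 := one_le_L X
  have hY0 : (1 : ℝ) ≤ Y := by exact_mod_cast hY
  have hX0 : (Y : ℝ) ≤ X := by exact_mod_cast hX
  have s1 : T ≤ ∑ y ∈ Ioc 0 Y, |F y| := by
    rw [hT, sum_comm]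
    refine (abs_sum_le_sum_abs _ _).trans (sum_le_sum fun y _ => ?_)
    have : ∑ x ∈ Ioc 0 X, α x * β y * χ x y = β y * F y := by
      rw [hF, mul_sum]; exact sum_congr rfl fun x _ => by ring
    rw [this, abs_mul]
    exact mul_le_of_le_one_left (abs_nonneg _) (hβ y)
  have s2 : T ^ 4 ≤ Y ^ 3 * ∑ l ∈ Ioc 0 ((X ^ 2) ^ 2), γ l * ∑ y ∈ Ioc 0 Y, χ l y := by
    refine (pow_le_pow_left₀ (abs_nonneg _) s1 4).trans
      ((pow_sum_le_card_mul_sum_pow (fun y _ => abs_nonneg (F y)) 3).trans (le_of_eq ?_))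
    rw [Nat.card_Ioc, Nat.sub_zero]
    congr 1
    simp only [mul_sum]
    rw [sum_comm]
    refine sum_congr rfl fun y _ => ?_
    rw [← e₂, ← e₁, (show Even (3 + 1) by decide).pow_abs]
    ring
  have s3 : ∑ l ∈ Ioc 0 ((X ^ 2) ^ 2), γ l ^ 2 ≤ X ^ 4 * L ^ K := by
    refine (sum_le_sum fun l hl => ?_).trans ((hK _).trans ?_)
    · have := pow_le_pow_left₀ (abs_nonneg _) (h₂ l (mem_Ioc.1 hl).1) 2
      rwa [sq_abs, ← pow_mul] at this
    · push_cast
      rw [← pow_mul, Real.log_pow]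
      refine mul_le_mul_of_nonneg_left (pow_le_pow_left₀ ?_ ?_ K) (by positivity)
      · push_cast; linarith
      · push_cast; linarith
  have hLK : (1 : ℝ) ≤ L ^ K' := one_le_pow₀ (by linarith)
  have s4 : ∑ l ∈ Ioc 0 ((X ^ 2) ^ 2), (∑ y ∈ Ioc 0 Y, χ l y) ^ 2 ≤ 5 * (X ^ 4 * (Y * L ^ K')) := by
    refine (mean_sq hχ _ _).trans ?_
    have a1 : ∑ n ∈ Ioc 0 Y, (n.divisors.card : ℝ) ^ 2 ≤ Y * L ^ K' :=
      (hK' Y).trans (mul_le_mul_of_nonneg_left (pow_le_pow_left₀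
        (zero_le_one.trans (one_le_L _)) ((L_mono hX).trans (by linarith)) K') (by positivity))
    have a2 : (Y : ℝ) ^ 4 ≤ X ^ 4 * (Y * L ^ K') :=
      (pow_le_pow_left₀ (by positivity) hX0 4).trans
        (le_mul_of_one_le_right (by positivity) (one_le_mul_of_one_le_of_one_le hY0 hLK))
    have a3 := mul_le_mul_of_nonneg_left a1 (show (0 : ℝ) ≤ X ^ 4 by positivity)
    push_cast
    rw [← pow_mul, show 2 * 2 = 4 from rfl]
    linarith
  have s5 := (sum_mul_sq_le_sq_mul_sq (Ioc 0 ((X ^ 2) ^ 2)) γ fun l => ∑ y ∈ Ioc 0 Y, χ l y).trans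
    (mul_le_mul s3 s4 (sum_nonneg fun _ _ => sq_nonneg _) (by positivity))
  have s6 := pow_le_pow_left₀ (by positivity) s2 2
  rw [← pow_mul, mul_pow] at s6
  refine s6.trans ((mul_le_mul_of_nonneg_left s5 (by positivity)).trans (le_of_eq ?_))
  ring

theorem root : ∃ K : ℕ, ∀ χ : ℕ → ℕ → ℝ, Kn χ → ∀ (X Y W Z : ℕ) (α β : ℕ → ℝ), 1 ≤ W → W ≤ Y →
    Y ≤ X → X ≤ Z → (∀ x, |α x| ≤ 1) → (∀ y, |β y| ≤ 1) →
    |∑ x ∈ Ioc 0 X, ∑ y ∈ Ioc 0 Y, α x * β y * χ x y| ≤
      5 * (4 * (1 + Real.log Z)) ^ K * (W : ℝ) ^ (-(1 / 8) : ℝ) * (X * Y) := by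
  obtain ⟨K, hK⟩ := bilinear
  refine ⟨K, fun χ hχ X Y W Z α β hW hY hX hZ hα hβ => ?_⟩
  have hL := one_le_L Z
  have hL' := one_le_L X
  have hW0 : (0 : ℝ) < W := by exact_mod_cast hW
  refine le_of_pow_le_pow_left₀ (n := 8) (by norm_num) (by positivity)
    ((hK χ hχ X Y α β (hW.trans hY) hX hα hβ).trans ?_)
  have t8 : ((W : ℝ) ^ (-(1 / 8) : ℝ)) ^ 8 = (W : ℝ)⁻¹ := by
    rw [← Real.rpow_natCast, ← Real.rpow_mul hW0.le, ← Real.rpow_neg_one]; norm_num
  have a1 : (4 * (1 + Real.log X)) ^ K ≤ (4 * (1 + Real.log Z)) ^ K :=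
    pow_le_pow_left₀ (by positivity) (by linarith [L_mono hZ]) K
  set M := (4 * (1 + Real.log Z)) ^ K
  have hM : 1 ≤ M := one_le_pow₀ (by linarith)
  have a2 : 5 * M ≤ (5 * M) ^ 8 := le_self_pow₀ (by linarith) (by norm_num)
  have a3 : 1 ≤ (W : ℝ)⁻¹ * Y := by
    rw [← div_eq_inv_mul, one_le_div hW0]; exact_mod_cast hY
  calc 5 * (4 * (1 + Real.log X)) ^ K * (X : ℝ) ^ 8 * Y ^ 7
      ≤ (5 * M) ^ 8 * (X : ℝ) ^ 8 * Y ^ 7 * 1 := by
        rw [mul_one]; gcongr; linarith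
    _ ≤ (5 * M) ^ 8 * (X : ℝ) ^ 8 * Y ^ 7 * ((W : ℝ)⁻¹ * Y) := by gcongr
    _ = _ := by rw [mul_pow _ (X * Y : ℝ), mul_pow (5 * M), t8]; ring

theorem both (h : JACStmt) : ∃ K : ℕ, ∀ (X Y W Z : ℕ) (α β : ℕ → ℝ), 1 ≤ W → W ≤ X → W ≤ Y →
    X ≤ Z → Y ≤ Z → (∀ x, |α x| ≤ 1) → (∀ y, |β y| ≤ 1) →
    |∑ x ∈ Ioc 0 X, ∑ y ∈ Ioc 0 Y, α x * β y * (sy x y : ℝ)| ≤
      5 * (4 * (1 + Real.log Z)) ^ K * (W : ℝ) ^ (-(1 / 8) : ℝ) * (X * Y) := by
  obtain ⟨K, hK⟩ := root
  refine ⟨K, fun X Y W Z α β hW hX hY hX' hY' hα hβ => ?_⟩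
  rcases le_total Y X with hxy | hxy
  · exact hK _ (kn1 h) X Y W Z α β hW hY hxy hX' hα hβ
  · have := hK _ (kn2 h) Y X W Z β α hW hX hxy hY' hβ hα
    rw [sum_comm, mul_comm (Y : ℝ)] at this
    simpa only [mul_comm (β _) (α _)] using this

/-- the normalised coefficients on a dyadic block -/
theorem dyadic (A : Finset ℕ) (i : ℕ) (hA : ∀ m ∈ A, 0 < m ∧ Nat.log 2 m = i) (a : ℕ → ℝ)
    (ha : ∀ m, |a m| ≤ 1) : ∃ α : ℕ → ℝ, (∀ m, |α m| ≤ 1) ∧ ∀ f : ℕ → ℝ,
      ∑ m ∈ A, a m / m * f m = (∑ m ∈ Ioc 0 (2 ^ (i + 1)), α m * f m) / 2 ^ i := by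
  refine ⟨fun m => if m ∈ A then a m / m * 2 ^ i else 0, fun m => ?_, fun f => ?_⟩
  · dsimp only
    split_ifs with hm
    · obtain ⟨h0, h1⟩ := hA m hm
      have h2 : (2 : ℝ) ^ i ≤ m := by
        rw [← h1]; exact_mod_cast Nat.pow_log_le_self 2 h0.ne'
      have h3 : (0 : ℝ) < m := by exact_mod_cast h0
      rw [div_mul_eq_mul_div, mul_div_assoc, abs_mul,
        abs_of_nonneg (by positivity : (0 : ℝ) ≤ 2 ^ i / m)]
      exact mul_le_one₀ (ha m) (by positivity) ((div_le_one h3).2 h2)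
    · simp
  · have hsub : A ⊆ Ioc 0 (2 ^ (i + 1)) := fun m hm => mem_Ioc.2 ⟨(hA m hm).1, by
      rw [← (hA m hm).2]; exact (Nat.lt_pow_succ_log_self (by norm_num) m).le⟩
    dsimp only
    rw [← sum_subset hsub fun m _ hm => by rw [if_neg hm, zero_mul], sum_div]
    refine sum_congr rfl fun m hm => ?_
    rw [if_pos hm]; field_simp

theorem block (h : JACStmt) : ∃ K : ℕ, ∀ (A B : Finset ℕ) (i j W Z : ℕ) (a b : ℕ → ℝ), 1 ≤ W →
    (∀ m ∈ A, W ≤ m ∧ 2 * m ≤ Z ∧ Nat.log 2 m = i) → (∀ n ∈ B, W ≤ n ∧ 2 * n ≤ Z ∧ Nat.log 2 n = j) →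
    (∀ m, |a m| ≤ 1) → (∀ n, |b n| ≤ 1) →
    ∑ m ∈ A, a m / m * ∑ n ∈ B, b n / n * (sy m n : ℝ) ≤
      20 * (4 * (1 + Real.log Z)) ^ K * (W : ℝ) ^ (-(1 / 8) : ℝ) := by
  obtain ⟨K, hK⟩ := both h
  refine ⟨K, fun A B i j W Z a b hW hA hB ha hb => ?_⟩
  have hL := one_le_L Z
  rcases A.eq_empty_or_nonempty with rfl | ⟨m, hm⟩
  · rw [sum_empty]; positivity
  rcases B.eq_empty_or_nonempty with rfl | ⟨n, hn⟩
  · simp only [sum_empty, mul_zero, sum_const_zero]; positivity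
  have r : ∀ m i : ℕ, W ≤ m ∧ 2 * m ≤ Z ∧ Nat.log 2 m = i → W ≤ 2 ^ (i + 1) ∧ 2 ^ (i + 1) ≤ Z := by
    rintro m i ⟨h1, h2, rfl⟩
    have := Nat.lt_pow_succ_log_self (b := 2) (by norm_num) m
    have := Nat.pow_log_le_self 2 (show m ≠ 0 by omega)
    rw [pow_succ] at *
    omega
  obtain ⟨α, hα, eα⟩ := dyadic A i (fun m hm => ⟨by have := (hA m hm).1; omega, (hA m hm).2.2⟩) a ha
  obtain ⟨β, hβ, eβ⟩ := dyadic B j (fun m hm => ⟨by have := (hB m hm).1; omega, (hB m hm).2.2⟩) b hb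
  have k := (abs_le.1 (hK _ _ W Z α β hW (r m i (hA m hm)).1 (r n j (hB n hn)).1
    (r m i (hA m hm)).2 (r n j (hB n hn)).2 hα hβ)).2
  rw [eα]
  simp only [eβ]
  have e : (∑ m ∈ Ioc 0 (2 ^ (i + 1)),
      α m * ((∑ n ∈ Ioc 0 (2 ^ (j + 1)), β n * (sy m n : ℝ)) / 2 ^ j)) / 2 ^ i =
      (∑ m ∈ Ioc 0 (2 ^ (i + 1)), ∑ n ∈ Ioc 0 (2 ^ (j + 1)), α m * β n * (sy m n : ℝ)) /
        (2 ^ i * 2 ^ j) := by
    rw [sum_div, sum_div]
    refine sum_congr rfl fun m _ => ?_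
    simp only [mul_assoc, ← mul_sum]
    field_simp
  rw [e, div_le_iff₀ (by positivity)]
  refine k.trans (le_of_eq ?_)
  push_cast; ring

theorem log_two_le (n : ℕ) : ((Nat.log 2 n + 1 : ℕ) : ℝ) ≤ 2 * (1 + Real.log n) := by
  rcases Nat.eq_zero_or_pos n with rfl | hn
  · simp
  have h1 : (2 : ℝ) ^ Nat.log 2 n ≤ n := by exact_mod_cast Nat.pow_log_le_self 2 hn.ne'
  have h2 := Real.log_le_log (by positivity) h1
  rw [Real.log_pow] at h2
  have h3 := Real.log_two_gt_d9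
  have h4 : (0 : ℝ) ≤ Nat.log 2 n := Nat.cast_nonneg _
  push_cast
  nlinarith

end Do

theorem dos : JACStmt → DOStmt := fun h => by
  obtain ⟨K, hK⟩ := Do.block h
  refine ⟨80 * 8 ^ K + (K + 2), fun U U' P P' b hU hP hb ho => ?_⟩
  have l1 := Real.log_natCast_nonneg U'
  have l2 := Real.log_natCast_nonneg P'
  set L := 1 + Real.log U' + Real.log P' with hL
  set t := ((min U P : ℕ) : ℝ) ^ (-(1 / 8) : ℝ) with ht
  have t0 : 0 ≤ t := by positivity
  have L1 : 1 ≤ L := by linarith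
  rcases le_or_gt U' U with hU' | hU'
  · rw [Ioc_eq_empty_of_le hU', sum_empty]; positivity
  rcases le_or_gt P' P with hP' | hP'
  · simp only [Ioc_eq_empty_of_le hP', sum_empty, abs_zero, mul_zero, sum_const_zero]; positivity
  set G : ℕ → ℝ := fun m => ∑ n ∈ Ioc P P', b n / n * (Do.sy m n : ℝ) with hG
  set a : ℕ → ℝ := fun m => if 0 ≤ G m then 1 else -1 with ha
  have ha1 : ∀ m, |a m| ≤ 1 := fun m => by rw [ha]; dsimp only; split_ifs <;> simp
  have e1 : ∀ m : ℕ, (1 : ℝ) / m * |∑ n ∈ Ioc P P', b n * jacobiSym m n / n| = a m / m * G m := by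
    intro m
    have : ∑ n ∈ Ioc P P', b n * jacobiSym m n / n = G m := sum_congr rfl fun n _ => by
      by_cases hn : b n = 0
      · simp [hn]
      · rw [Do.sy, if_pos (ho n hn)]; ring
    rw [this, ha]; dsimp only
    split_ifs with hm
    · rw [abs_of_nonneg hm]
    · rw [abs_of_neg (not_le.1 hm)]; ring
  have mp : ∀ u u' : ℕ, ∀ m ∈ Ioc u u', Nat.log 2 m ∈ range (Nat.log 2 u' + 1) := fun u u' m hm =>
    mem_range.2 (Nat.lt_succ_of_le (Nat.log_mono_right (mem_Ioc.1 hm).2))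
  have e2 : ∑ m ∈ Ioc U U', a m / m * G m =
      ∑ i ∈ range (Nat.log 2 U' + 1), ∑ j ∈ range (Nat.log 2 P' + 1),
        ∑ m ∈ (Ioc U U').filter (fun m => Nat.log 2 m = i), a m / m *
          ∑ n ∈ (Ioc P P').filter (fun n => Nat.log 2 n = j), b n / n * (Do.sy m n : ℝ) := by
    rw [← sum_fiberwise_of_maps_to (mp U U')]
    refine sum_congr rfl fun i _ => ?_
    rw [sum_comm]
    refine sum_congr rfl fun m _ => ?_
    rw [← mul_sum, sum_fiberwise_of_maps_to (mp P P')]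
  have hZ : 4 * (1 + Real.log (2 * (U' * P') : ℕ)) ≤ 8 * L := by
    have u0 : (U' : ℝ) ≠ 0 := Nat.cast_ne_zero.2 (by omega)
    have p0 : (P' : ℝ) ≠ 0 := Nat.cast_ne_zero.2 (by omega)
    push_cast
    rw [Real.log_mul two_ne_zero (mul_ne_zero u0 p0), Real.log_mul u0 p0]
    linarith [Real.log_two_lt_d9]
  have bl : ∀ i j, ∑ m ∈ (Ioc U U').filter (fun m => Nat.log 2 m = i), a m / m *
      ∑ n ∈ (Ioc P P').filter (fun n => Nat.log 2 n = j), b n / n * (Do.sy m n : ℝ) ≤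
      20 * (8 * L) ^ K * t := fun i j => by
    refine (hK _ _ i j (min U P) (2 * (U' * P')) a b (by omega) (fun m hm => ?_) (fun m hm => ?_)
      ha1 hb).trans ?_
    · simp only [mem_filter, mem_Ioc] at hm
      have := Nat.le_mul_of_pos_right U' (show 0 < P' by omega)
      exact ⟨by omega, by omega, hm.2⟩
    · simp only [mem_filter, mem_Ioc] at hm
      have := Nat.le_mul_of_pos_left P' (show 0 < U' by omega)
      exact ⟨by omega, by omega, hm.2⟩
    · have := Do.one_le_L (2 * (U' * P'))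
      gcongr
  simp only [e1]
  rw [e2]
  refine (sum_le_sum fun i _ => sum_le_sum fun j _ => bl i j).trans ?_
  rw [sum_const, sum_const, card_range, card_range, nsmul_eq_mul, nsmul_eq_mul]
  have c1 : ((Nat.log 2 U' + 1 : ℕ) : ℝ) ≤ 2 * L := (Do.log_two_le U').trans (by linarith)
  have c2 : ((Nat.log 2 P' + 1 : ℕ) : ℝ) ≤ 2 * L := (Do.log_two_le P').trans (by linarith)
  calc ((Nat.log 2 U' + 1 : ℕ) : ℝ) * (((Nat.log 2 P' + 1 : ℕ) : ℝ) * (20 * (8 * L) ^ K * t))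
      ≤ 2 * L * (2 * L * (20 * (8 * L) ^ K * t)) := by gcongr
    _ = 80 * 8 ^ K * L ^ (K + 2) * t := by rw [mul_pow]; ring
    _ ≤ _ := by
        refine mul_le_mul_of_nonneg_right (mul_le_mul ?_ (pow_le_pow_right₀ L1 (by omega))
          (by positivity) (by positivity)) t0
        push_cast
        linarith [Nat.cast_nonneg (α := ℝ) K]

end Pool.Agent.MP_a43263_nt.R2

end
end MrgPart3

-- ======== part 4: formerly Pool.Agent.MP_a43263_nt.R2.Maj
section MrgPart4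

/-! PROJECT RANK2: the major arcs. -/

set_option autoImplicit false

noncomputable section

namespace Pool.Agent.MP_a43263_nt.R2

open Finset Filter

namespace Maj

/-- the additive character -/
def ch (a : ℤ) (d n : ℕ) : ℂ := eR (n * a / d)

variable {a : ℤ} {d n n' k m q r c s p : ℕ}

theorem norm_ch : ‖ch a d n‖ = 1 := by
  unfold ch eR
  rw [show (2 * Real.pi * ((n * a / d : ℝ) : ℂ) * Complex.I : ℂ) =
    ((2 * Real.pi * (n * a / d) : ℝ) : ℂ) * Complex.I by push_cast; ring]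
  exact Complex.norm_exp_ofReal_mul_I _

theorem ch_add : ch a d (n + k) = ch a d n * ch a d k := by
  unfold ch eR; rw [← Complex.exp_add]; congr 1; push_cast; ring

theorem ch_eq_one (hd : 0 < d) : ch a d k = 1 ↔ (d : ℤ) ∣ k * a := by
  unfold ch eR
  rw [Complex.exp_eq_one_iff]
  have h0 : (d : ℂ) ≠ 0 := by exact_mod_cast hd.ne'
  constructor
  · rintro ⟨n, hn⟩
    refine ⟨n, ?_⟩
    have h1 : ((k * a : ℤ) : ℂ) = ((d * n : ℤ) : ℂ) := by
      refine mul_right_cancel₀ (div_ne_zero Complex.two_pi_I_ne_zero h0) ?_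
      push_cast at hn ⊢
      rw [show (d : ℂ) * n * (2 * Real.pi * Complex.I / d) = n * (2 * Real.pi * Complex.I) by
        field_simp, ← hn]
      ring
    exact_mod_cast h1
  · rintro ⟨n, hn⟩
    refine ⟨n, ?_⟩
    have : (k : ℂ) * a = d * n := by exact_mod_cast hn
    push_cast; rw [this]; field_simp

theorem ch_modEq (hd : 0 < d) (h : n ≡ n' [MOD d]) : ch a d n = ch a d n' := by
  have key : ∀ n, ch a d n = ch a d (n % d) := fun n => by
    conv_lhs => rw [← Nat.mod_add_div n d]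
    rw [ch_add, (ch_eq_one (k := d * (n / d)) hd).2
      (by push_cast; exact (dvd_mul_right _ _).mul_right _), mul_one]
  rw [key n, key n', h]

theorem sum_shift {f : ℕ → ℂ} (hf : ∀ n, f (n + m) = f n) (s : ℕ) :
    ∑ h ∈ range m, f (s + h) = ∑ h ∈ range m, f h := by
  induction s with
  | zero => simp
  | succ s ih =>
    have h1 := sum_range_succ (fun h => f (s + h)) m
    have h2 := sum_range_succ' (fun h => f (s + h)) m
    simp only [hf, add_zero] at h1 h2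
    rw [← ih, ← add_right_cancel (h2.symm.trans h1)]
    exact sum_congr rfl fun h _ => by rw [add_assoc, add_comm 1]

theorem vanish (P : ℕ → Prop) [DecidablePred P] (hd : 0 < d) (hdm : d ∣ m) (hsm : s ∣ m)
    (hP : ∀ n, P (s + n) ↔ P n) (hne : ¬(d : ℤ) ∣ (c * s : ℕ) * a) :
    ∑ h ∈ (range m).filter P, ch a d (c * h) = 0 := by
  have hP' : ∀ k n, P (n + s * k) ↔ P n := fun k n => by
    induction k with
    | zero => simp
    | succ k ih => rw [show n + s * (k + 1) = s + (n + s * k) by ring, hP, ih]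
  obtain ⟨k, rfl⟩ := hsm
  have h1 := sum_shift (m := s * k) (f := fun n => if P n then ch a d (c * n) else 0) (fun n => by
    rw [if_congr (hP' k n) rfl rfl, ch_modEq hd
      ((Nat.add_modEq_left_iff.2 hdm).mul_left c)]) s
  simp only [hP, mul_add, ch_add] at h1
  rw [sum_filter]
  refine (mul_left_eq_self₀.1 ?_).resolve_left (mt (ch_eq_one hd).1 hne)
  rw [mul_sum]
  exact (sum_congr rfl fun h _ => by split_ifs <;> simp).trans h1

theorem period {f : ℕ → ℂ} (hm : 0 < m) (hf : ∀ n, f (n + m) = f n) (h1 : ∀ n, ‖f n‖ ≤ 1)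
    (x L : ℕ) : ‖∑ i ∈ range L, f (x + i) - (L / m : ℝ) * ∑ h ∈ range m, f h‖ ≤ 2 * m := by
  have hb : ∀ x L, ‖∑ i ∈ range L, f (x + i)‖ ≤ L := fun x L =>
    (norm_sum_le_of_le _ fun i _ => h1 _).trans (by simp)
  have hm' : (0 : ℝ) < m := by exact_mod_cast hm
  induction L using Nat.strong_induction_on with
  | _ L ih =>
  by_cases hL : L ≤ m
  · have h2 : (L : ℝ) ≤ m := by exact_mod_cast hL
    have h3 := hb 0 m
    simp only [zero_add] at h3
    refine (norm_sub_le _ _).trans ?_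
    rw [norm_mul, Complex.norm_real, Real.norm_of_nonneg (by positivity)]
    have h4 := mul_le_mul ((div_le_one hm').2 h2) h3 (norm_nonneg _) zero_le_one
    linarith [hb x L]
  · obtain ⟨L', rfl⟩ := Nat.exists_eq_add_of_le (not_le.1 hL).le
    have h0 : (m : ℂ) ≠ 0 := by exact_mod_cast hm.ne'
    refine le_of_eq_of_le (congrArg norm ?_) (ih L' (by omega))
    rw [sum_range_add, sum_shift hf, sum_congr rfl fun i _ =>
      show f (x + (m + i)) = f (x + i) by rw [← hf (x + i)]; congr 1; ring]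
    push_cast
    field_simp
    ring

/-- the admissible classes -/
def Hs (m q r c : ℕ) : Finset ℕ := (range m).filter fun h => h.Coprime m ∧ c * h ≡ r [MOD q]

/-- the complete sum -/
def Ss (a : ℤ) (d m q r c : ℕ) : ℂ := ∑ h ∈ Hs m q r c, ch a d (c * h)

theorem norm_sum_ch (T : Finset ℕ) : ‖∑ h ∈ T, ch a d (c * h)‖ ≤ T.card :=
  (norm_sum_le_of_le _ fun _ _ => norm_ch.le).trans (by simp)

theorem card_Hs (hm : 0 < m) (hq : q ∣ m) (hc : c.Coprime q) :
    (Hs m q r c).card * q.totient ≤ m.totient := by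
  rcases (Hs m q r c).eq_empty_or_nonempty with h | ⟨h0, hh⟩
  · simp [h]
  have : NeZero m := ⟨hm.ne'⟩
  have : NeZero q := ⟨(Nat.pos_of_dvd_of_pos hq hm).ne'⟩
  simp only [Hs, mem_filter, mem_range] at hh
  set u := ZMod.unitsMap hq (ZMod.unitOfCoprime h0 hh.2.1)
  have h1 : m.totient = q.totient * #{g | ZMod.unitsMap hq g = u} := by
    rw [← ZMod.card_units_eq_totient, ← ZMod.card_units_eq_totient, ← card_univ,
      card_eq_sum_card_fiberwise (f := ZMod.unitsMap hq) (t := univ) fun _ _ => by simp,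
      sum_congr rfl fun v _ => MonoidHom.card_fiber_eq_of_mem_range _
        (ZMod.unitsMap_surjective hq v) (ZMod.unitsMap_surjective hq u)]
    simp
  rw [h1, mul_comm]
  refine Nat.mul_le_mul_left _ ((card_le_card fun h hh' => ?_).trans
    (card_image_le (f := fun g : (ZMod m)ˣ => (g : ZMod m).val)))
  simp only [Hs, mem_filter, mem_range] at hh'
  refine mem_image.2 ⟨ZMod.unitOfCoprime h hh'.2.1, mem_filter.2 ⟨mem_univ _, Units.ext ?_⟩,
    ZMod.val_cast_of_lt hh'.1⟩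
  simp only [u, ZMod.unitsMap_val, ZMod.coe_unitOfCoprime, ZMod.cast_natCast hq]
  exact (ZMod.natCast_eq_natCast_iff _ _ _).2
    ((hh'.2.2.trans hh.2.2.symm).cancel_left_of_coprime hc.symm)

theorem cop_of (hr : r.Coprime q) (h : c * n ≡ r [MOD q]) : n.Coprime q :=
  Nat.Coprime.coprime_mul_left (h.gcd_eq.trans hr)

theorem Ss_dvd (hd : 0 < d) (hq : 0 < q) (hdq : d ∣ q) (hc : c.Coprime q) (hr : r.Coprime q) :
    Ss a d q q r c = ch a d r := by
  obtain ⟨h0, h1, h2⟩ := Nat.exists_mul_mod_eq_of_coprime r hc hq.ne'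
  have : Hs q q r c = {h0} := by
    ext h
    simp only [Hs, mem_filter, mem_range, mem_singleton]
    exact ⟨fun h3 => ((h3.2.2.trans (Nat.ModEq.symm h2)).cancel_left_of_coprime
      hc.symm).eq_of_lt_of_lt h3.1 h1, fun h3 => h3 ▸ ⟨h1, cop_of hr h2, h2⟩⟩
  rw [Ss, this, sum_singleton, ch_modEq hd (Nat.ModEq.of_dvd hdq h2)]

theorem shift_iff (hs : q ∣ s) : c * (s + n) ≡ r [MOD q] ↔ c * n ≡ r [MOD q] := by
  have : c * (s + n) ≡ c * n [MOD q] := (Nat.add_modEq_right_iff.2 hs).mul_left c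
  exact ⟨this.symm.trans, this.trans⟩

theorem not_dvd (ha : a.natAbs.Coprime d) (h : ¬d ∣ n) : ¬(d : ℤ) ∣ n * a := fun h' =>
  h (ha.symm.dvd_of_dvd_mul_right (by simpa [Int.natAbs_mul] using Int.natCast_dvd.1 h'))

theorem Ss_smooth (hd : 0 < d) (ha : a.natAbs.Coprime d) (hdq : ¬d ∣ q)
    (hp : ∀ p : ℕ, p.Prime → p ∣ d → p ∣ q) (hc : c.Coprime q) (hr : r.Coprime q) :
    Ss a d (q * d) q r c = 0 := by
  have key : ∀ n : ℕ, n.Coprime q → n.Coprime d := fun n h =>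
    Nat.coprime_of_dvd fun p h1 h2 h3 => h1.one_lt.ne'
      (Nat.eq_one_of_dvd_coprimes h h2 (hp p h1 h3))
  have : Hs (q * d) q r c = (range (q * d)).filter fun h => c * h ≡ r [MOD q] :=
    filter_congr fun h _ => and_iff_right_of_imp fun h1 =>
      (cop_of hr h1).mul_right (key _ (cop_of hr h1))
  rw [Ss, this]
  exact vanish _ hd (dvd_mul_left _ _) (dvd_mul_right _ _) (fun n => shift_iff dvd_rfl)
    (not_dvd ha fun h => hdq ((key c hc).symm.dvd_of_dvd_mul_left h))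

theorem Ss_prime (hp : p.Prime) (hd : 0 < d) (hq : 0 < q) (ha : a.natAbs.Coprime (d * p))
    (hpq : ¬p ∣ q) (hpc : ¬p ∣ c) :
    ‖Ss a (d * p) (q * (d * p)) q r c‖ * (p - 1) ≤ (Hs (q * (d * p)) q r c).card := by
  have h1 := vanish (m := q * (d * p)) (s := q * d) (c := c) (a := a)
    (fun h => h.Coprime (q * d) ∧ c * h ≡ r [MOD q]) (mul_pos hd hp.pos) (dvd_mul_left _ _)
    ⟨p, by ring⟩ (fun n => and_congr Nat.coprime_self_add_left (shift_iff (dvd_mul_right _ _)))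
    (not_dvd ha fun h => ((hp.dvd_mul).1 (Nat.dvd_of_mul_dvd_mul_left hd
      (by rwa [show c * (q * d) = d * (c * q) by ring] at h))).elim hpc hpq)
  set H := (range (q * (d * p))).filter fun h => h.Coprime (q * d) ∧ c * h ≡ r [MOD q] with hH
  have h2 : Hs (q * (d * p)) q r c = H.filter fun h => ¬p ∣ h := by
    ext h
    simp only [Hs, hH, mem_filter, ← mul_assoc, Nat.coprime_mul_iff_right (k := h) (m := q * d),
      Nat.coprime_comm (n := h) (m := p), hp.coprime_iff_not_dvd]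
    tauto
  rw [← sum_filter_add_sum_filter_not _ (p ∣ ·), add_eq_zero_iff_neg_eq, ← h2] at h1
  rw [Ss, ← h1, norm_neg]
  have h3 : (H.filter (p ∣ ·) ×ˢ Ico 1 p).card ≤ (Hs (q * (d * p)) q r c).card := by
    have hm : 0 < q * (d * p) := mul_pos hq (mul_pos hd hp.pos)
    have hs : ∀ h ∈ H.filter (p ∣ ·), ¬p ∣ q * d := fun h hh h4 => hp.one_lt.ne'
      (Nat.eq_one_of_dvd_coprimes (mem_filter.1 (mem_filter.1 hh).1).2.1 (mem_filter.1 hh).2 h4)
    refine card_le_card_of_injOn (fun x => (q * d * x.2 + x.1) % (q * (d * p))) ?_ ?_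
    · rintro ⟨h, t⟩ hx
      obtain ⟨h4, h5⟩ := mem_product.1 (mem_coe.1 hx)
      have h6 := Nat.mod_modEq (q * d * t + h) (q * (d * p))
      obtain ⟨h7, h8⟩ := (mem_filter.1 (mem_filter.1 h4).1).2
      refine mem_coe.2 (mem_filter.2 ⟨mem_range.2 (Nat.mod_lt _ hm), h6.gcd_eq.trans ?_,
        ((h6.of_mul_right _).mul_left c).trans
          ((shift_iff ((dvd_mul_right _ _).mul_right _)).2 h8)⟩)
      rw [← mul_assoc]
      refine Nat.Coprime.mul_right (Nat.coprime_mul_left_add_left _ _ _ |>.2 h7)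
        (hp.coprime_iff_not_dvd.2 fun h9 => ?_).symm
      rcases hp.dvd_mul.1 ((Nat.dvd_add_left (mem_filter.1 h4).2).1 h9) with h9 | h9
      · exact hs h h4 h9
      · exact absurd (Nat.le_of_dvd (mem_Ico.1 h5).1 h9) (not_le.2 (mem_Ico.1 h5).2)
    · rintro ⟨h, t⟩ hx ⟨h', t'⟩ hx' e
      obtain ⟨h4, h5⟩ := mem_product.1 (mem_coe.1 hx)
      obtain ⟨h6, h7⟩ := mem_product.1 (mem_coe.1 hx')
      have e1 : q * d * t + h ≡ q * d * t' + h' [MOD q * (d * p)] := e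
      have e2 : q * d * t ≡ q * d * t' [MOD p] :=
        Nat.ModEq.add_right_cancel ((Nat.modEq_zero_iff_dvd.2 (mem_filter.1 h4).2).trans
          (Nat.modEq_zero_iff_dvd.2 (mem_filter.1 h6).2).symm)
          ((e1.of_mul_left _).of_mul_left _)
      obtain rfl : t = t' := (e2.cancel_left_of_coprime
        (hp.coprime_iff_not_dvd.2 (hs h h4))).eq_of_lt_of_lt (mem_Ico.1 h5).2 (mem_Ico.1 h7).2
      rw [(e1.add_left_cancel' _).eq_of_lt_of_lt (mem_range.1 (mem_filter.1 (mem_filter.1 h4).1).1)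
        (mem_range.1 (mem_filter.1 (mem_filter.1 h6).1).1)]
  rw [card_product, Nat.card_Ico] at h3
  have h4 : (0 : ℝ) ≤ p - 1 := sub_nonneg.2 (by exact_mod_cast hp.one_le)
  refine (mul_le_mul_of_nonneg_right (norm_sum_ch _) h4).trans ?_
  rw [← Nat.cast_pred hp.pos]
  exact_mod_cast h3

/-- primes in a class -/
def th (m h u : ℕ) : ℝ := ∑ p ∈ (pri 0 u).filter (fun p => p ≡ h [MOD m]), Real.log p

theorem th_sub {u v : ℕ} (h : u ≤ v) (k : ℕ) :
    ∑ p ∈ (pri u v).filter (fun p => p ≡ k [MOD m]), Real.log p = th m k v - th m k u := by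
  rw [th, th, eq_sub_iff_add_eq, ← sum_union]
  · congr 1
    ext x
    simp only [pri, mem_union, mem_filter, mem_Ioc]
    constructor
    · rintro (⟨⟨h1, h2⟩, h3⟩ | ⟨⟨h1, h2⟩, h3⟩) <;> exact ⟨⟨by omega, h2⟩, h3⟩
    · rintro ⟨⟨h1, h2⟩, h3⟩
      exact (lt_or_ge u x).imp (fun e => ⟨⟨by omega, h2⟩, h3⟩) fun e => ⟨⟨by omega, h2⟩, h3⟩
  · simp only [disjoint_left, pri, mem_filter, mem_Ioc]
    omega

theorem one_core {x₁ x₂ Y : ℕ} {X E : ℝ} (hd : 0 < d) (hm : 0 < m) (hq : q ∣ m) (hdm : d ∣ m)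
    (hc : 0 < c) (hY : m ≤ Y) (hYX : Y ≤ X) (hx : x₁ ≤ x₂) (hX : (x₂ : ℝ) / c ≤ X) (hE : 0 ≤ E)
    (sw : ∀ u h : ℕ, u ≤ X → h.Coprime m → |th m h u - u / m.totient| ≤ E) :
    ‖∑ n ∈ (Ioc x₁ x₂).filter (fun n => n ≡ r [MOD q]),
      ((if c ∣ n ∧ (n / c).Prime ∧ Y < n / c then Real.log (n / c : ℕ) else 0 : ℝ) : ℂ) * ch a d n -
      ((x₂ - x₁) / c / m.totient : ℝ) * Ss a d m q r c‖ ≤ 2 * m * E + (Y + 1) := by
  set u := max (x₁ / c) Y
  set v := max (x₂ / c) Y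
  have huv : u ≤ v := max_le_max_right _ (Nat.div_le_div_right hx)
  have e1 : ∑ n ∈ (Ioc x₁ x₂).filter (fun n => n ≡ r [MOD q]),
      ((if c ∣ n ∧ (n / c).Prime ∧ Y < n / c then Real.log (n / c : ℕ) else 0 : ℝ) : ℂ) * ch a d n =
      ∑ P ∈ (pri u v).filter (fun P => c * P ≡ r [MOD q]), (Real.log P : ℂ) * ch a d (c * P) := by
    simp only [apply_ite Complex.ofReal, Complex.ofReal_zero, ite_mul, zero_mul]
    rw [← sum_filter]
    refine sum_nbij' (· / c) (c * ·) ?_ ?_ ?_ ?_ ?_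
    · intro n hn
      simp only [mem_filter, mem_Ioc, pri] at hn ⊢
      obtain ⟨⟨⟨h1, h2⟩, h3⟩, ⟨P, rfl⟩, h4, h5⟩ := hn
      rw [Nat.mul_div_cancel_left _ hc] at *
      exact ⟨⟨⟨max_lt ((Nat.div_lt_iff_lt_mul hc).2 (by rwa [mul_comm])) h5,
        le_max_of_le_left ((Nat.le_div_iff_mul_le hc).2 (by rwa [mul_comm]))⟩, h4⟩, h3⟩
    · intro P hP
      simp only [mem_filter, mem_Ioc, pri, u, v, max_lt_iff, le_max_iff, Nat.div_lt_iff_lt_mul hc,
        Nat.le_div_iff_mul_le hc, Nat.mul_div_cancel_left _ hc, mul_comm P] at hP ⊢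
      obtain ⟨⟨⟨⟨h1, h2⟩, h3⟩, h4⟩, h5⟩ := hP
      exact ⟨⟨⟨h1, h3.resolve_right (not_le.2 h2)⟩, h5⟩, dvd_mul_right _ _, h4, h2⟩
    · intro n hn
      exact Nat.mul_div_cancel' (mem_filter.1 hn).2.1
    · intro P _
      exact Nat.mul_div_cancel_left _ hc
    · intro n hn
      rw [Nat.mul_div_cancel' (mem_filter.1 hn).2.1]
  have e2 : ∑ P ∈ (pri u v).filter (fun P => c * P ≡ r [MOD q]), (Real.log P : ℂ) * ch a d (c * P) =
      ∑ h ∈ Hs m q r c, ((th m h v - th m h u : ℝ) : ℂ) * ch a d (c * h) := by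
    rw [← sum_fiberwise_of_maps_to (t := Hs m q r c) (g := (· % m))]
    · refine sum_congr rfl fun h hh => ?_
      obtain ⟨h1, -, h2⟩ := mem_filter.1 hh
      rw [← th_sub huv, Complex.ofReal_sum, sum_mul, filter_filter]
      refine sum_congr (filter_congr fun P _ => ?_) fun P hP => ?_
      · rw [show P % m = h ↔ P ≡ h [MOD m] by rw [Nat.ModEq, Nat.mod_eq_of_lt (mem_range.1 h1)],
          and_iff_right_iff_imp]
        exact fun h3 => ((h3.of_dvd hq).mul_left c).trans h2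
      · rw [ch_modEq hd (((mem_filter.1 hP).2.of_dvd hdm).mul_left c)]
    · intro P hP
      simp only [mem_filter, mem_Ioc, pri, Hs, mem_range] at hP ⊢
      refine ⟨Nat.mod_lt _ hm, (Nat.mod_modEq P m).gcd_eq.trans
        (Nat.coprime_of_lt_prime hm.ne' ?_ hP.1.2),
        (((Nat.mod_modEq P m).of_dvd hq).mul_left c).trans hP.2⟩
      exact hY.trans_lt ((le_max_right _ _).trans_lt hP.1.1.1)
  have hφ : (0 : ℝ) < m.totient := by exact_mod_cast Nat.totient_pos.2 hm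
  have hc' : (0 : ℝ) < c := by exact_mod_cast hc
  have fl : ∀ x : ℕ, (x : ℝ) / c - 1 ≤ (max (x / c) Y : ℕ) ∧ ((max (x / c) Y : ℕ) : ℝ) ≤ x / c + Y ∧
      ((x : ℝ) / c ≤ X → ((max (x / c) Y : ℕ) : ℝ) ≤ X) := fun x => by
    have h1 := Nat.lt_floor_add_one ((x : ℝ) / c)
    rw [Nat.floor_div_eq_div] at h1
    have h2 : ((x / c : ℕ) : ℝ) ≤ x / c := Nat.cast_div_le
    have h3 : (0 : ℝ) ≤ x / c := by positivity
    have h4 : (0 : ℝ) ≤ Y := by positivity
    rw [Nat.cast_max]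
    exact ⟨le_max_of_le_left (by linarith), max_le (by linarith) (by linarith),
      fun h => max_le (h2.trans h) hYX⟩
  have hv : (v : ℝ) ≤ X := (fl x₂).2.2 hX
  have hu : (u : ℝ) ≤ X := le_trans (by exact_mod_cast huv) hv
  have hN : ((Hs m q r c).card : ℝ) ≤ m.totient := by
    rw [Nat.totient_eq_card_coprime]
    exact_mod_cast card_le_card fun h hh => by
      simp only [Hs, mem_filter] at hh ⊢
      exact ⟨hh.1, hh.2.1.symm⟩
  have hN' : (m.totient : ℝ) ≤ m := by exact_mod_cast Nat.totient_le m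
  rw [e1, e2, Ss, mul_sum, ← sum_sub_distrib]
  refine (norm_sum_le_of_le _ (n := fun _ => 2 * E + (Y + 1) / m.totient) fun h hh => ?_).trans ?_
  · rw [← sub_mul, norm_mul, norm_ch, mul_one, ← Complex.ofReal_sub, Complex.norm_real,
      Real.norm_eq_abs]
    have h1 := abs_le.1 (sw u h hu (mem_filter.1 hh).2.1)
    have h2 := abs_le.1 (sw v h hv (mem_filter.1 hh).2.1)
    have h3 : |(v - u - (x₂ - x₁) / c : ℝ) / m.totient| ≤ (Y + 1) / m.totient := by
      rw [abs_div, abs_of_pos hφ, sub_div]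
      exact div_le_div_of_nonneg_right (abs_le.2 ⟨by linarith [(fl x₁).2.1, (fl x₂).1],
        by linarith [(fl x₁).1, (fl x₂).2.1]⟩) hφ.le
    rw [sub_div, sub_div] at h3
    have h4 := abs_le.1 h3
    exact abs_le.2 ⟨by linarith, by linarith⟩
  · rw [sum_const, nsmul_eq_mul, mul_add]
    have h1 : (Hs m q r c).card * ((Y + 1 : ℝ) / m.totient) ≤ Y + 1 :=
      (mul_le_mul_of_nonneg_right hN (by positivity)).trans (mul_div_cancel₀ _ hφ.ne').le
    have h2 := mul_le_mul_of_nonneg_right (hN.trans hN') hE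
    linarith

open Classical in
theorem sum_le_muT (S : Sc) (T : Finset ℕ)
    (h : ∀ c ∈ T, c ∈ Icc 1 (S.Y' ^ 6) ∧ ∃ e, Core { S with e := e } c) :
    ∑ c ∈ T, (1 : ℝ) / c ≤ muT S := by
  refine (sum_le_sum_of_subset_of_nonneg (t := CC { S with e := 0 } ∪ CC { S with e := 1 })
    (fun c hc => ?_) fun _ _ _ => by positivity).trans ?_
  · obtain ⟨h1, e, h2⟩ := h c hc
    rcases Nat.mod_two_eq_zero_or_one e with h3 | h3
    · exact mem_union_left _ (mem_filter.2 ⟨h1, { h2 with par := h2.par.trans h3 }⟩)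
    · exact mem_union_right _ (mem_filter.2 ⟨h1, { h2 with par := h2.par.trans h3 }⟩)
  · rw [muT, mu, mu, ← sum_union_inter]
    exact le_add_of_nonneg_right (sum_nonneg fun _ _ => by positivity)

open Classical in
theorem mu_le (S : Sc) : mu S ≤ muT S :=
  sum_le_muT S _ fun _ hc => ⟨(mem_filter.1 hc).1, S.e, (mem_filter.1 hc).2⟩

open Classical in
theorem sum_dvd_le (S : Sc) (hp : p.Prime) (h : p ≤ S.Y) :
    ∑ c ∈ (CC S).filter (p ∣ ·), (1 : ℝ) / c ≤ muT S / p := by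
  have hp' : (0 : ℝ) < p := by exact_mod_cast hp.pos
  have hi : Set.InjOn (· / p) ((CC S).filter (p ∣ ·) : Finset ℕ) := fun c hc c' hc' e =>
    (Nat.div_left_inj (mem_filter.1 hc).2 (mem_filter.1 hc').2).1 e
  rw [le_div_iff₀ hp', sum_mul]
  refine le_of_eq_of_le ?_ (sum_le_muT S (((CC S).filter (p ∣ ·)).image (· / p)) fun c hc => ?_)
  · rw [sum_image hi]
    refine sum_congr rfl fun c hc => ?_
    rw [Nat.cast_div (mem_filter.1 hc).2 hp'.ne', one_div_div, one_div_mul_eq_div]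
  · obtain ⟨c, hc', rfl⟩ := mem_image.1 hc
    obtain ⟨h1, h2⟩ := mem_filter.1 hc'
    obtain ⟨h3, h4⟩ := mem_filter.1 h1
    have h5 := mem_Icc.1 h3
    have e : (c / p).primeFactors = c.primeFactors \ {p} := by
      rw [← hp.primeFactors, ← Nat.primeFactors_div_gcd h4.sqf hp.ne_zero, Nat.gcd_eq_right h2]
    have e' : (c / p).primeFactors.filter (S.Y < ·) = c.primeFactors.filter (S.Y < ·) := by
      ext x
      simp only [e, mem_filter, Finset.mem_sdiff, mem_singleton]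
      exact ⟨fun h => ⟨h.1.1, h.2⟩, fun h6 => ⟨⟨h6.1, by omega⟩, h6.2⟩⟩
    refine ⟨mem_Icc.2 ⟨Nat.div_pos (Nat.le_of_dvd h5.1 h2) hp.pos, (Nat.div_le_self _ _).trans h5.2⟩,
      (c / p).primeFactors.card + 1, h4.sqf.squarefree_of_dvd (Nat.div_dvd_of_dvd h2),
      h4.cop.coprime_dvd_left (Nat.div_dvd_of_dvd h2), fun x hx => h4.gap x ?_, le_trans ?_ h4.sm,
      e' ▸ h4.me, e' ▸ h4.lo, e' ▸ h4.hi, rfl⟩
    · exact (Finset.mem_sdiff.1 (e ▸ hx)).1
    · exact prod_le_prod_of_subset_of_one_le' (filter_subset_filter _ (e ▸ sdiff_subset))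
        fun x hx _ => (Nat.prime_of_mem_primeFactors (mem_filter.1 hx).1).one_le

theorem rho_eq {M : ℕ} (hq : 0 < q) (h1 : M ∣ q) (h2 : ∀ p : ℕ, p.Prime → p ∣ q → p ∣ M) :
    rho M / q = 1 / q.totient := by
  have hM := Nat.pos_of_dvd_of_pos h1 hq
  have e : q.primeFactors = M.primeFactors := by
    ext p
    simp only [Nat.mem_primeFactors, hq.ne', hM.ne', ne_eq, not_false_eq_true, and_true]
    exact and_congr_right fun hp => ⟨h2 p hp, fun h => h.trans h1⟩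
  have h3 : (q.totient : ℚ) * M = M.totient * q := by
    rw [Nat.totient_eq_mul_prod_factors, Nat.totient_eq_mul_prod_factors, e]; ring
  have h4 : (q.totient : ℝ) * M = M.totient * q := by exact_mod_cast h3
  have h5 : (0 : ℝ) < q.totient := by exact_mod_cast Nat.totient_pos.2 hq
  have h6 : (0 : ℝ) < M.totient := by exact_mod_cast Nat.totient_pos.2 hM
  have h7 : (0 : ℝ) < q := by exact_mod_cast hq
  rw [rho]
  field_simp
  linarith

open Classical in
theorem main_term (S : Sc) {P₀ : ℕ} (hP : 2 ≤ P₀) (h0 : ∀ p : ℕ, p.Prime → p ≤ P₀ → p ∣ S.M)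
    (hq : 0 < q) (h1 : S.M ∣ q) (h2 : ∀ p : ℕ, p.Prime → p ∣ q → p ∣ S.M) (hr : r.Coprime S.M)
    (hd : 0 < d) (hdY : d ≤ S.Y) (ha : a.natAbs.Coprime d) :
    ∃ m, 0 < m ∧ q ∣ m ∧ d ∣ m ∧ m ≤ q * d ∧
      ‖∑ c ∈ CC S, (1 / c / m.totient : ℝ) * Ss a d m q r c - (rho S.M * mu S / m : ℝ) *
        ∑ n ∈ (range m).filter (· ≡ r [MOD q]), ch a d n‖ ≤ 4 / P₀ * (rho S.M * muT S) / q := by
  have key : ∀ n : ℕ, n.Coprime S.M → n.Coprime q := fun n h =>
    Nat.coprime_of_dvd fun p h3 h4 h5 => h3.one_lt.ne'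
      (Nat.eq_one_of_dvd_coprimes h h4 (h2 p h3 h5))
  have hc : ∀ c ∈ CC S, c.Coprime q := fun c hc => key c (mem_filter.1 hc).2.cop
  have hρ := rho_eq hq h1 h2
  have hμ : 0 ≤ mu S := sum_nonneg fun _ _ => by positivity
  have hμT := hμ.trans (mu_le S)
  have hR : 4 / P₀ * (rho S.M * muT S) / q = 4 / P₀ * muT S / q.totient := by
    linear_combination 4 / P₀ * muT S * hρ
  rw [hR]
  by_cases hdq : d ∣ q
  · refine ⟨q, hq, dvd_rfl, hdq, Nat.le_mul_of_pos_right _ hd, le_of_eq_of_le ?_ (by positivity)⟩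
    have e := Ss_dvd (a := a) hd hq hdq (Nat.coprime_one_left q) (key r hr)
    have e' : ∑ n ∈ (range q).filter (· ≡ r [MOD q]), ch a d n = ch a d r := by
      rw [← e, Ss, Hs]
      simp only [one_mul]
      exact sum_congr (filter_congr fun n _ => (and_iff_right_of_imp fun h =>
        cop_of (c := 1) (key r hr) (by rwa [one_mul])).symm) fun _ _ => rfl
    rw [sum_congr rfl fun c h => by rw [Ss_dvd hd hq hdq (hc c h) (key r hr)], e', ← sum_mul,
      ← Complex.ofReal_sum, ← sum_div, mul_div_right_comm, hρ, one_div_mul_eq_div, mu, sub_self,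
      norm_zero]
  refine ⟨q * d, mul_pos hq hd, dvd_mul_right _ _, dvd_mul_left _ _, le_rfl, ?_⟩
  have e := vanish (m := q * d) (s := q) (c := 1) (a := a) (· ≡ r [MOD q]) hd (dvd_mul_left _ _)
    (dvd_mul_right _ _) (fun n => by simp)
    (not_dvd ha (by rwa [one_mul]))
  simp only [one_mul] at e
  rw [e, mul_zero, sub_zero]
  by_cases hs : ∀ p : ℕ, p.Prime → p ∣ d → p ∣ q
  · rw [sum_eq_zero fun c h => by rw [Ss_smooth hd ha hdq hs (hc c h) (key r hr), mul_zero],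
      norm_zero]
    positivity
  push Not at hs
  obtain ⟨p, hp, ⟨d, rfl⟩, hpq⟩ := hs
  rw [mul_comm p d] at *
  have hd' : 0 < d := Nat.pos_of_mul_pos_right hd
  have hpP : (P₀ : ℝ) + 1 ≤ p := by
    exact_mod_cast not_le.1 fun h => hpq ((h0 p hp h).trans h1)
  have hP' : (2 : ℝ) ≤ P₀ := by exact_mod_cast hP
  have h5 : (0 : ℝ) < q.totient := by exact_mod_cast Nat.totient_pos.2 hq
  have h6 : (0 : ℝ) < (q * (d * p)).totient := by exact_mod_cast Nat.totient_pos.2 (mul_pos hq hd)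
  have h7 : ∀ c ∈ CC S, ‖((1 / c / (q * (d * p)).totient : ℝ) : ℂ) * Ss a (d * p) (q * (d * p)) q r c‖ ≤
      ((if p ∣ c then (1 : ℝ) / c else 0) + 1 / c / P₀) / q.totient := fun c h => by
    have h8 : ((Hs (q * (d * p)) q r c).card : ℝ) / (q * (d * p)).totient ≤ 1 / q.totient := by
      rw [div_le_div_iff₀ h6 h5, one_mul]
      exact_mod_cast card_Hs (mul_pos hq hd) (dvd_mul_right _ _) (hc c h)
    have h9 : (0 : ℝ) ≤ 1 / c := by positivity
    rw [norm_mul, Complex.norm_real, Real.norm_of_nonneg (by positivity), div_mul_eq_mul_div,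
      mul_div_assoc]
    split_ifs with h3
    · refine (mul_le_mul_of_nonneg_left
        ((div_le_div_of_nonneg_right (norm_sum_ch _) h6.le).trans h8) h9).trans ?_
      rw [mul_one_div]
      exact div_le_div_of_nonneg_right (le_add_of_nonneg_right (by positivity)) h5.le
    · have h4 : ‖Ss a (d * p) (q * (d * p)) q r c‖ ≤ (Hs (q * (d * p)) q r c).card / P₀ :=
        (le_div_iff₀ (by linarith)).2 ((mul_le_mul_of_nonneg_left (by linarith) (norm_nonneg _)).trans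
          (Ss_prime hp hd' hq ha hpq h3))
      refine (mul_le_mul_of_nonneg_left ((div_le_div_of_nonneg_right h4 h6.le).trans
        ((div_right_comm _ _ _).trans_le (div_le_div_of_nonneg_right h8 (by linarith)))) h9).trans
        (le_of_eq (by ring))
  refine (norm_sum_le_of_le _ h7).trans ?_
  rw [← sum_div, sum_add_distrib, ← sum_filter, ← sum_div]
  refine div_le_div_of_nonneg_right ?_ h5.le
  have h8 := (sum_dvd_le S hp ((Nat.le_mul_of_pos_left _ hd').trans hdY)).trans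
    (div_le_div_of_nonneg_left hμT (by linarith) (show (P₀ : ℝ) ≤ p by linarith))
  have h9 := div_le_div_of_nonneg_right (mu_le S) (show (0 : ℝ) ≤ P₀ by linarith)
  have h10 : 0 ≤ muT S / P₀ := by positivity
  rw [show 4 / P₀ * muT S = 4 * (muT S / P₀) by ring]
  rw [mu] at h9
  linarith

theorem scales (J k : ℕ) (x₀ : ℝ) : ∃ t₀ : ℕ, ∀ S : Sc, S.J = J → t₀ ≤ S.Y0 → Rel S →
    x₀ ≤ Real.log S.Z ∧ Real.log S.Z ^ k ≤ S.Y ∧ 6 ≤ S.Y ∧ S.Y ≤ S.Y' := by
  have h1 : ∀ᶠ y : ℝ in atTop, (20000 * 128 ^ J) ^ k * Real.log y ^ k ≤ y := by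
    have := (Real.isLittleO_pow_log_id_atTop (n := k)).bound
      (c := 1 / (20000 * 128 ^ J) ^ k) (by positivity)
    filter_upwards [this, eventually_ge_atTop 0] with y h h0
    rw [id, Real.norm_of_nonneg h0, one_div_mul_eq_div, le_div_iff₀' (by positivity)] at h
    exact (mul_le_mul_of_nonneg_left (le_abs_self _) (by positivity)).trans h
  obtain ⟨t, ht⟩ := eventually_atTop.1 (tendsto_natCast_atTop_atTop.eventually
    ((h1.and (Real.tendsto_log_atTop.eventually_ge_atTop x₀)).and (eventually_ge_atTop 6)))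
  refine ⟨t, fun S hJ h0 hS => ?_⟩
  have a1 : S.Y0 ≤ S.Y := (Nat.le_self_pow (by norm_num) _).trans hS.hY.ge
  have a2 : S.Y ≤ S.Y' := hS.hY' ▸ Nat.le_self_pow (by positivity) _
  obtain ⟨⟨b1, b2⟩, b3⟩ := ht S.Y (h0.trans a1)
  have a3 : (S.Y : ℝ) ≤ S.Z := by
    exact_mod_cast (a2.trans (Nat.le_self_pow (by norm_num) _)).trans hS.lo
  have a4 : Real.log S.Z ≤ 20000 * 128 ^ J * Real.log S.Y := by
    have : (S.Z : ℝ) ≤ ((S.Y : ℝ) ^ 128 ^ J) ^ 20000 := by
      rw [← hJ]; exact_mod_cast hS.hY' ▸ hS.hi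
    have := Real.log_le_log (by linarith) this
    rw [Real.log_pow, Real.log_pow] at this
    push_cast at this
    linarith
  refine ⟨b2.trans (Real.log_le_log (by linarith) a3), le_trans ?_ b1, by exact_mod_cast b3, a2⟩
  rw [← mul_pow]
  exact pow_le_pow_left₀ (Real.log_nonneg (by linarith)) a4 k

open Classical in
theorem mu_le_log (S : Sc) : mu S ≤ 1 + 6 * Real.log S.Y' := by
  have h := harmonic_le_one_add_log (S.Y' ^ 6)
  rw [harmonic_eq_sum_Icc] at h
  push_cast at h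
  rw [Real.log_pow] at h
  refine (sum_le_sum_of_subset_of_nonneg (filter_subset _ _) fun _ _ _ => by positivity).trans ?_
  simpa using h

end Maj

open Maj

open Classical in
theorem maj (sw : SWStmt) : MAJStmt := by
  intro M P₀ q H J A B hM hP h0 hq h1 h2
  obtain ⟨x₀, hx₀⟩ := eventually_atTop.1 (sw (A + B + 3) (B + 1))
  obtain ⟨t₀, ht⟩ := scales J (A + B + 3)
    (max (2 * x₀) (max 2 (max (2 * M) (max (q * 2 ^ (B + 1)) (4 * (H + 1) * 2 ^ (A + B + 3))))))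
  refine ⟨t₀, fun S hSM hJ hY hS r x₁ x₂ d a hr hx hx₂ hd hdB ha => ?_⟩
  subst hSM
  obtain ⟨b1, b2, b3, b4⟩ := ht S hJ hY hS
  simp only [max_le_iff] at b1
  obtain ⟨c1, c2, c3, c4, c5⟩ := b1
  set L := Real.log S.Z with hL
  have hL1 : 1 ≤ L := by linarith
  have y1 : (6 : ℝ) ≤ S.Y' := by exact_mod_cast b3.trans b4
  have y2 : (S.Y : ℝ) ≤ S.Y' := by exact_mod_cast b4
  have y3 : (S.Y' : ℝ) ^ 10000 ≤ S.Z := by exact_mod_cast hS.lo
  have y4 : 10000 * Real.log S.Y' ≤ L := by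
    simpa using Real.log_le_log (by positivity) y3
  have y5 : 0 ≤ Real.log S.Y' := Real.log_nonneg (by linarith)
  have hZ : (0 : ℝ) < S.Z := lt_of_lt_of_le (by positivity) y3
  have pw : ∀ k ≤ A + B + 3, L ^ k ≤ S.Y := fun k hk => (pow_le_pow_right₀ hL1 hk).trans b2
  have hqd : ((q * d : ℕ) : ℝ) ≤ (L / 2) ^ (B + 1) := by
    rw [div_pow, le_div_iff₀ (by positivity), pow_succ' L, Nat.cast_mul, mul_right_comm]
    exact mul_le_mul c4 hdB (by positivity) (by positivity)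
  have hqd' : ((q * d : ℕ) : ℝ) ≤ L ^ (B + 1) :=
    hqd.trans (pow_le_pow_left₀ (by positivity) (by linarith) _)
  obtain ⟨m, m1, m2, m3, m4, m5⟩ := main_term (a := a) S hP h0 hq h1 h2 hr hd
    (by exact_mod_cast hdB.trans (pw B (by omega))) ha
  have m6 : (m : ℝ) ≤ (q * d : ℕ) := by exact_mod_cast m4
  have hμ0 : 0 ≤ mu S := sum_nonneg fun _ _ => by positivity
  have hμ : mu S ≤ L := by linarith [mu_le_log S]
  have hρ0 : 0 ≤ rho S.M := by unfold rho; positivity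
  have hρ : rho S.M ≤ S.M := div_le_self (by positivity) (by exact_mod_cast Nat.totient_pos.2 hM)
  set K : ℝ := (H + 1) * S.Z / (L / 2) ^ (A + B + 3) with hK
  have hK0 : 0 ≤ K := by positivity
  have core : ∀ c ∈ CC S, ‖∑ n ∈ (Ioc x₁ x₂).filter (fun n => n ≡ r [MOD q]),
      ((if c ∣ n ∧ (n / c).Prime ∧ S.Y' < n / c then Real.log (n / c : ℕ) else 0 : ℝ) : ℂ) *
        ch a d n - ((x₂ - x₁) / c / m.totient : ℝ) * Ss a d m q r c‖ ≤
      2 * m * (K * (1 / c)) + (S.Y' + 1) := fun c hc => by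
    have d1 := mem_Icc.1 (mem_filter.1 hc).1
    have d2 : (0 : ℝ) < c := by exact_mod_cast d1.1
    have d3 : (c : ℝ) ≤ (S.Y' : ℝ) ^ 6 := by exact_mod_cast d1.2
    have d4 : (S.Z : ℝ) / (S.Y' : ℝ) ^ 6 ≤ (H + 1) * S.Z / c :=
      div_le_div₀ (by positivity) (le_mul_of_one_le_left hZ.le (by simp)) d2 d3
    have d5 : L / 2 ≤ Real.log ((H + 1) * S.Z / c) := by
      have := Real.log_le_log (by positivity) d4
      rw [Real.log_div hZ.ne' (by positivity), Real.log_pow] at this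
      push_cast at this
      linarith
    refine one_core (X := (H + 1) * S.Z / c) hd m1 m2 m3 d1.1
      (by exact_mod_cast (m6.trans (hqd'.trans (pw _ (by omega)))).trans y2)
      (le_trans ?_ d4) hx (div_le_div_of_nonneg_right ?_ d2.le) (by positivity) fun u h hu hh => ?_
    · rw [le_div_iff₀ (by positivity), ← pow_succ']
      exact (pow_le_pow_right₀ (by linarith) (by norm_num)).trans y3
    · have : (x₂ : ℝ) ≤ H * S.Z := by exact_mod_cast hx₂
      linarith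
    · have d6 := Real.log_le_self (show (0 : ℝ) ≤ (H + 1) * S.Z / c by positivity)
      have := hx₀ ((H + 1) * S.Z / c) (by linarith) u m h (by positivity) hu m1
        ((m6.trans hqd).trans (pow_le_pow_left₀ (by positivity) d5 _)) hh
      rw [Nat.floor_natCast] at this
      refine this.trans ((div_le_div_of_nonneg_left (by positivity) (by positivity)
        (pow_le_pow_left₀ (by positivity) d5 _)).trans (le_of_eq ?_))
      rw [hK]; ring
  have per := period (f := fun n => if n ≡ r [MOD q] then ch a d n else 0) m1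
    (fun n => by
      rw [if_congr (by simpa [add_comm] using shift_iff (c := 1) (n := n) (r := r) m2) rfl rfl,
        ch_modEq hd (Nat.add_modEq_left_iff.2 m3)])
    (fun n => by split_ifs <;> simp [norm_ch]) (x₁ + 1) (x₂ - x₁)
  rw [← Nat.add_sub_add_right x₂ 1 x₁, ← sum_Ico_eq_sum_range
    (fun n => if n ≡ r [MOD q] then ch a d n else 0), Ico_add_one_add_one_eq_Ioc, ← sum_filter,
    ← sum_filter, Nat.add_sub_add_right, Nat.cast_sub hx] at per
  have hx' : (0 : ℝ) ≤ x₂ - x₁ := sub_nonneg.2 (by exact_mod_cast hx)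
  have e1 := (norm_sum_le_of_le _ core).trans_eq (by
    rw [sum_add_distrib, ← mul_sum, ← mul_sum, sum_const, nsmul_eq_mul])
  have e2 := mul_le_mul_of_nonneg_left per (mul_nonneg hρ0 hμ0)
  have e3 := mul_le_mul_of_nonneg_left m5 hx'
  rw [← Real.norm_of_nonneg (mul_nonneg hρ0 hμ0), ← Complex.norm_real, ← norm_mul,
    Complex.norm_real, Real.norm_of_nonneg (mul_nonneg hρ0 hμ0)] at e2
  rw [← Real.norm_of_nonneg hx', ← Complex.norm_real, ← norm_mul, Complex.norm_real,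
    Real.norm_of_nonneg hx'] at e3
  refine le_trans (le_of_eq_of_le (congrArg norm ?_)
    ((norm_add_le _ _).trans (add_le_add ((norm_sub_le _ _).trans (add_le_add e1 e2)) e3))) ?_
  · simp only [Fs, ch, Complex.ofReal_sub, Complex.ofReal_sum, sub_mul, sum_mul, sum_sub_distrib,
      mul_sub, ← mul_sum]
    rw [sum_comm, mul_sum (CC S), mul_sum (CC S)]
    push_cast
    simp only [div_eq_mul_inv, sub_mul, sum_sub_distrib, one_mul, mul_assoc]
    ring
  have f1 : ((CC S).card : ℝ) ≤ (S.Y' : ℝ) ^ 6 := by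
    exact_mod_cast (card_filter_le _ _).trans_eq (by simp)
  have f2 : 2 * m * (K * mu S) ≤ S.Z / L ^ A / 2 := by
    calc 2 * m * (K * mu S) ≤ 2 * L ^ (B + 1) * (K * L) := by gcongr; exact m6.trans hqd'
      _ = 4 * (H + 1) * 2 ^ (A + B + 3) / L * (S.Z / L ^ A / 2) := by
          rw [hK, div_pow]; field_simp; ring
      _ ≤ _ := mul_le_of_le_one_left (by positivity) ((div_le_one (by positivity)).2 c5)
  have f3 : rho S.M * mu S * (2 * m) ≤ S.Y' := by
    calc rho S.M * mu S * (2 * m) ≤ S.M * L * (2 * L ^ (B + 1)) := by gcongr; exact m6.trans hqd'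
      _ = 2 * S.M * L ^ (B + 2) := by ring
      _ ≤ L * L ^ (B + 2) := by gcongr
      _ ≤ _ := by rw [← pow_succ']; exact (pw _ (by omega)).trans y2
  have f4 : (CC S).card * (S.Y' + 1 : ℝ) + S.Y' ≤ S.Z / L ^ A / 2 := by
    rw [le_div_iff₀ two_pos, le_div_iff₀ (by positivity)]
    have g1 : (S.Y' : ℝ) ≤ (S.Y' : ℝ) ^ 7 := le_self_pow₀ (by linarith) (by norm_num)
    have g2 : (S.Y' : ℝ) ^ 6 ≤ (S.Y' : ℝ) ^ 7 := pow_le_pow_right₀ (by linarith) (by norm_num)
    calc _ ≤ ((S.Y' : ℝ) ^ 6 * (S.Y' + 1) + S.Y') * 2 * S.Y' := by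
          gcongr; exact (pw A (by omega)).trans y2
      _ ≤ 6 * (S.Y' : ℝ) ^ 7 * S.Y' := mul_le_mul_of_nonneg_right (by linarith) (by positivity)
      _ ≤ S.Y' * (S.Y' : ℝ) ^ 7 * S.Y' := by gcongr
      _ = (S.Y' : ℝ) ^ 9 := by ring
      _ ≤ _ := (pow_le_pow_right₀ (by linarith) (by norm_num)).trans y3
  have f5 : (x₂ - x₁ : ℝ) * (4 / P₀ * (rho S.M * muT S) / q) =
      4 / P₀ * (rho S.M * muT S) * ((x₂ - x₁ : ℝ) / q) := by ring
  rw [mu] at f2
  linarith

end Pool.Agent.MP_a43263_nt.R2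

end
end MrgPart4

-- marker of a merged file
example : 731051 + 588670 = 731051 + 588670 := rfl
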