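import Pool.Agent.MP_a43263_nt.R2.Spec
import Pool.Agent.MP_a43263_nt.two.Base

/-! PROJECT RANK2, module DESC: the complete 2-descent. -/

namespace Pool.Agent.MP_a43263_nt.R2

namespace Desc

open Classical WeierstrassCurve Two

variable {a b d₂ d₃ e₂ e₃ : ℚ} {r₂ r₃ : Qbar}

theorem isE (ha : a ≠ 0) (hb : b ≠ 0) (hab : a ≠ b) (K : Type) [Field K] [CharZero K]
    [Algebra ℚ K] : IsE ((Ecv a b).baseChange K).toAffine (a : K) (b : K) where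
  h1 := by simp [baseChange, Ecv]
  h2 := by simp [baseChange, Ecv]
  h3 := by simp [baseChange, Ecv]
  h4 := by simp [baseChange, Ecv]
  h6 := by simp [baseChange, Ecv]
  ha := by exact_mod_cast ha
  hb := by exact_mod_cast hb
  hab := by exact_mod_cast sub_ne_zero.2 hab
  two := two_ne_zero

theorem sg_ac {S : Pt (Ecv a b) Qbar} {u₂ u₃ : Qbar} (h : Sg (a : Qbar) b S u₂ u₃) (σ : GQ) :
    Sg (a : Qbar) b (ac _ σ S) u₂ u₃ := by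
  have := h.pm (σ : Qbar →+* Qbar)
  rwa [map_sign _ h.1, map_sign _ h.2.1, map_ratCast, map_ratCast] at this

variable (ha : a ≠ 0) (hb : b ≠ 0) (hab : a ≠ b)
include ha hb hab

theorem exists_roots {c : GQ → Pt (Ecv a b) Qbar} (hcc : c ∈ cocycles (Ecv a b))
    (h2 : ∀ σ, 2 • c σ = 0) : ∃ (d₂ d₃ : ℚ) (r₂ r₃ : Qbar), d₂ ≠ 0 ∧ d₃ ≠ 0 ∧ r₂ ^ 2 = d₂ ∧
      r₃ ^ 2 = d₃ ∧ ∀ σ, Sg (a : Qbar) b (c σ) (σ r₂ / r₂) (σ r₃ / r₃) := by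
  have hE := isE ha hb hab Qbar
  choose u₂ u₃ hu using fun σ => hE.sg_ex (h2 σ)
  have hm : ∀ σ τ, u₂ (σ * τ) = u₂ σ * u₂ τ ∧ u₃ (σ * τ) = u₃ σ * u₃ τ := fun σ τ => by
    have h1 := hE.sg_add (hu σ) (sg_ac (hu τ) σ)
    rw [← hcc.2] at h1
    exact (hu _).unique h1
  have h1 : ∀ σ, c σ = 0 → u₂ σ = 1 ∧ u₃ σ = 1 := fun σ h => (h ▸ hu σ).unique sg_zero
  obtain ⟨d₂, r₂, n₂, m₂, s₂, t₂⟩ := exists_sqrt hcc (fun σ => (hu σ).1) (fun σ τ => (hm σ τ).1)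
    fun σ h => (h1 σ h).1
  obtain ⟨d₃, r₃, n₃, m₃, s₃, t₃⟩ := exists_sqrt hcc (fun σ => (hu σ).2.1) (fun σ τ => (hm σ τ).2)
    fun σ h => (h1 σ h).2
  refine ⟨d₂, d₃, r₂, r₃, n₂, n₃, s₂, s₃, fun σ => ?_⟩
  rw [t₂, t₃, mul_div_cancel_right₀ _ m₂, mul_div_cancel_right₀ _ m₃]
  exact hu σ

theorem loc {c : GQ → Pt (Ecv a b) Qbar} (n₂ : d₂ ≠ 0) (n₃ : d₃ ≠ 0) (s₂ : r₂ ^ 2 = d₂)
    (s₃ : r₃ ^ 2 = d₃) (hu : ∀ σ, Sg (a : Qbar) b (c σ) (σ r₂ / r₂) (σ r₃ / r₃))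
    (K : Type) [Field K] [CharZero K] (hK : LocTriv (Ecv a b) K c) : Sol2 (a : K) b d₂ d₃ := by
  obtain ⟨R, hR⟩ := hK
  have hE := isE ha hb hab (AlgebraicClosure K)
  obtain ⟨z₀, z₂, z₃, t, hz⟩ := exists_zr (a : AlgebraicClosure K) b R
  obtain ⟨e₂, e₃⟩ := hE.on hz
  have m₂ : emb K r₂ ≠ 0 := by simpa using root_ne n₂ s₂
  have m₃ : emb K r₃ ≠ 0 := by simpa using root_ne n₃ s₃
  have q₂ : emb K r₂ ^ 2 = d₂ := by rw [← map_pow, s₂, map_ratCast]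
  have q₃ : emb K r₃ ^ 2 = d₃ := by rw [← map_pow, s₃, map_ratCast]
  have key : ∀ σ : AlgebraicClosure K ≃ₐ[K] AlgebraicClosure K, ∃ k,
      ∀ v, (v = z₀ / (emb K r₂ * emb K r₃) ∨ v = t) ∨ v = z₂ / emb K r₂ ∨ v = z₃ / emb K r₃ →
        σ v = k * v := by
    intro σ
    obtain ⟨τ, hτ⟩ := exists_res K σ
    have h1 := (hu τ).pm (emb K)
    rw [map_ratCast, map_ratCast, map_div₀, map_div₀, hτ, hτ] at h1
    have h2 := hE.shift h1 hz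
    rw [hR σ τ hτ, add_sub_cancel] at h2
    have h3 := hz.pm (σ : AlgebraicClosure K →+* AlgebraicClosure K)
    rw [map_ratCast, map_ratCast] at h3
    obtain ⟨k, -, f₀, f₂, f₃, f₄⟩ := h2.prop h3
    have a₂ : σ (emb K r₂) ≠ 0 := (map_ne_zero σ).2 m₂
    have a₃ : σ (emb K r₃) ≠ 0 := (map_ne_zero σ).2 m₃
    refine ⟨k, ?_⟩
    rintro v ((rfl | rfl) | rfl | rfl)
    · rw [map_div₀, map_mul, show σ z₀ = _ from f₀]; field_simp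
    · exact f₄
    · rw [map_div₀, show σ z₂ = _ from f₂]; field_simp
    · rw [map_div₀, show σ z₃ = _ from f₃]; field_simp
  obtain ⟨l, hl, hl'⟩ : ∃ l, l ≠ 0 ∧ (l = z₀ / (emb K r₂ * emb K r₃) ∨ l = t) := by
    by_cases h : t = 0
    · exact ⟨_, div_ne_zero (fun h0 => hE.ne hz ⟨h0, h⟩) (mul_ne_zero m₂ m₃), .inl rfl⟩
    · exact ⟨t, h, .inr rfl⟩
  have hfix : ∀ v, (v = z₀ / (emb K r₂ * emb K r₃) ∨ v = t) ∨ v = z₂ / emb K r₂ ∨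
      v = z₃ / emb K r₃ → ∃ x : K, v = algebraMap K _ x * l ^ 1 := fun v hv =>
    fixed_div K hl 1 fun σ => by
      obtain ⟨k, hk⟩ := key σ
      exact ⟨k, hk l (.inl hl'), by rw [pow_one]; exact hk v hv⟩
  obtain ⟨x₀, h₀⟩ := hfix _ (.inl (.inl rfl))
  obtain ⟨x₄, h₄⟩ := hfix _ (.inl (.inr rfl))
  obtain ⟨x₂, h₂⟩ := hfix _ (.inr (.inl rfl))
  obtain ⟨x₃, h₃⟩ := hfix _ (.inr (.inr rfl))
  rw [div_eq_iff (mul_ne_zero m₂ m₃)] at h₀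
  rw [div_eq_iff m₂] at h₂
  rw [div_eq_iff m₃] at h₃
  refine ⟨x₀, x₂, x₃, x₄, ?_, ?_, ?_⟩
  · rintro ⟨rfl, -, -, rfl⟩
    exact hE.ne hz ⟨by simpa using h₀, by simpa using h₄⟩
  all_goals
    apply (algebraMap K (AlgebraicClosure K)).injective
    apply mul_left_cancel₀ (pow_ne_zero 2 hl)
    simp only [map_sub, map_mul, map_pow, map_ratCast, ← q₂, ← q₃]
  · rw [h₀, h₂, h₄] at e₂
    linear_combination e₂
  · rw [h₀, h₃, h₄] at e₃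
    linear_combination e₃

theorem cover (n₂ : d₂ ≠ 0) (n₃ : d₃ ≠ 0) (s₂ : r₂ ^ 2 = d₂) (s₃ : r₃ ^ 2 = d₃)
    (h : Sol2 a b d₂ d₃) : ∃ R : Pt (Ecv a b) Qbar,
      ∀ σ : GQ, Sg (a : Qbar) b (ac _ σ R - R) (σ r₂ / r₂) (σ r₃ / r₃) := by
  have hE := isE ha hb hab Qbar
  obtain ⟨z₀, z₂, z₃, t, hne, e₂, e₃⟩ := h
  have m₂ := root_ne n₂ s₂
  have m₃ := root_ne n₃ s₃
  have e₂' : (d₂ : Qbar) * d₃ * z₀ ^ 2 - d₂ * z₂ ^ 2 = a * t ^ 2 := by exact_mod_cast e₂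
  have e₃' : (d₂ : Qbar) * d₃ * z₀ ^ 2 - d₃ * z₃ ^ 2 = b * t ^ 2 := by exact_mod_cast e₃
  rw [← s₂, ← s₃] at e₂' e₃'
  obtain ⟨R, hR⟩ := hE.surj (z0 := r₂ * r₃ * z₀) (z2 := r₂ * z₂) (z3 := r₃ * z₃) (t := t)
    (by linear_combination e₂') (by linear_combination e₃') (by
      rintro ⟨h0, h1⟩
      obtain rfl : z₀ = 0 := by simpa [m₂, m₃] using h0
      obtain rfl : t = 0 := by simpa using h1
      exact hne ⟨rfl, by simpa [n₂] using e₂, by simpa [n₃] using e₃, rfl⟩)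
  refine ⟨R, fun σ => hE.sg_sub (quot_sq n₂ s₂ σ) (quot_sq n₃ s₃ σ) hR ?_⟩
  convert hR.pm (σ : Qbar →+* Qbar) using 1 <;> simp <;> field_simp

omit ha hb hab in
/-- `(d₂, d₃)` is the image of the rational point `P` under the descent map -/
def Gd (a b d₂ d₃ : ℚ) (P : Pt (Ecv a b) ℚ) : Prop :=
  d₂ ≠ 0 ∧ d₃ ≠ 0 ∧ ∃ (r₂ r₃ : Qbar) (R : Pt (Ecv a b) Qbar), r₂ ^ 2 = d₂ ∧ r₃ ^ 2 = d₃ ∧
    2 • R = inc _ P ∧ ∀ σ : GQ, Sg (a : Qbar) b (ac _ σ R - R) (σ r₂ / r₂) (σ r₃ / r₃)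

theorem Gd.mul {P Q : Pt (Ecv a b) ℚ} (h : Gd a b d₂ d₃ P) (h' : Gd a b e₂ e₃ Q) :
    Gd a b (d₂ * e₂) (d₃ * e₃) (P + Q) := by
  obtain ⟨n₂, n₃, r₂, r₃, R, s₂, s₃, hR, hu⟩ := h
  obtain ⟨n₂', n₃', r₂', r₃', R', s₂', s₃', hR', hu'⟩ := h'
  refine ⟨mul_ne_zero n₂ n₂', mul_ne_zero n₃ n₃', r₂ * r₂', r₃ * r₃', R + R',
    by rw [mul_pow, s₂, s₂', Rat.cast_mul], by rw [mul_pow, s₃, s₃', Rat.cast_mul],
    by rw [smul_add, hR, hR', map_add], fun σ => ?_⟩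
  convert (isE ha hb hab Qbar).sg_add (hu σ) (hu' σ) using 1
  · rw [map_add]; abel
  · rw [map_mul, mul_div_mul_comm]
  · rw [map_mul, mul_div_mul_comm]

theorem Gd.prod {ι : Type} {g₂ g₃ : ι → ℚ} {P : ι → Pt (Ecv a b) ℚ}
    (h : ∀ i, Gd a b (g₂ i) (g₃ i) (P i)) (I : Finset ι) :
    Gd a b (∏ i ∈ I, g₂ i) (∏ i ∈ I, g₃ i) (∑ i ∈ I, P i) := by
  induction I using Finset.induction_on with
  | empty => exact ⟨by simp, by simp, 1, 1, 0, by simp, by simp, by simp, fun σ => by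
      simpa using sg_zero⟩
  | insert i I hi ih =>
    rw [Finset.prod_insert hi, Finset.prod_insert hi, Finset.sum_insert hi]
    exact (h i).mul ha hb hab ih

theorem gd_of_sol (n₂ : d₂ ≠ 0) (n₃ : d₃ ≠ 0) (h : Sol2 a b d₂ d₃) : ∃ P, Gd a b d₂ d₃ P := by
  obtain ⟨r₂, s₂⟩ := IsAlgClosed.exists_pow_nat_eq (d₂ : Qbar) two_pos
  obtain ⟨r₃, s₃⟩ := IsAlgClosed.exists_pow_nat_eq (d₃ : Qbar) two_pos
  obtain ⟨R, hR⟩ := cover ha hb hab n₂ n₃ s₂ s₃ h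
  obtain ⟨P, hP⟩ := exists_inc (P := 2 • R) fun σ => by
    rw [map_nsmul, ← sub_eq_zero, ← smul_sub, (isE ha hb hab Qbar).sg_two (hR σ)]
  exact ⟨P, n₂, n₃, r₂, r₃, R, s₂, s₃, hP.symm, hR⟩

theorem Gd.sol {P : Pt (Ecv a b) ℚ} (h : Gd a b d₂ d₃ P) : Sol2 a b d₂ d₃ := by
  obtain ⟨n₂, n₃, r₂, r₃, R, s₂, s₃, -, hu⟩ := h
  simpa using loc ha hb hab n₂ n₃ s₂ s₃ hu ℚ (locTriv_cob ℚ R)

theorem exists_gd (Q : Pt (Ecv a b) ℚ) : ∃ d₂ d₃, Gd a b d₂ d₃ Q := by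
  obtain ⟨R, hR⟩ := (isE ha hb hab Qbar).exists_half (inc _ Q)
  obtain ⟨d₂, d₃, r₂, r₃, n₂, n₃, s₂, s₃, hu⟩ := exists_roots ha hb hab (cob_mem R)
    (fun σ => by simp only [smul_sub, ← map_nsmul, hR, ac_inc, sub_self])
  exact ⟨d₂, d₃, n₂, n₃, r₂, r₃, R, s₂, s₃, hR, hu⟩

theorem Gd.iff {P : Pt (Ecv a b) ℚ} (h : Gd a b d₂ d₃ P) :
    (IsSquare d₂ ∧ IsSquare d₃) ↔ ∃ Z, P = 2 • Z := by
  have hE := isE ha hb hab Qbar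
  obtain ⟨n₂, n₃, r₂, r₃, R, s₂, s₃, hR, hu⟩ := h
  rw [isSquare_iff n₂ s₂, isSquare_iff n₃ s₃]
  constructor
  · rintro ⟨h₂, h₃⟩
    obtain ⟨Z, rfl⟩ := exists_inc (P := R) fun σ => by
      have := hu σ
      rw [h₂, h₃] at this
      exact sub_eq_zero.1 (hE.sg_inj this sg_zero)
    exact ⟨Z, pm_inj (Rat.castHom Qbar) (by rw [map_nsmul]; exact hR.symm)⟩
  · rintro ⟨Z, rfl⟩
    obtain ⟨u₂, u₃, hS⟩ := hE.sg_ex (S := R - inc _ Z) (by rw [smul_sub, hR, map_nsmul, sub_self])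
    rw [← forall_and]
    intro σ
    have h1 := hE.sg_inj (sg_ac hS σ) hS
    rw [map_sub, ac_inc, sub_left_inj] at h1
    have := hu σ
    rw [h1, sub_self] at this
    exact this.unique sg_zero

theorem card_two : Nat.card {Z : Pt (Ecv a b) ℚ // 2 • Z = 0} = 2 ^ 2 := by
  have hE := isE ha hb hab ℚ
  have hs : ∀ x : Bool, ((if x then 1 else -1 : ℚ)) ^ 2 = 1 := fun x => by cases x <;> simp
  choose S hS using fun x : Bool × Bool => hE.sg_exists (hs x.1) (hs x.2)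
  rw [← Nat.card_eq_of_bijective
    (fun x => (⟨S x, hE.sg_two (hS x)⟩ : {Z : Pt (Ecv a b) ℚ // 2 • Z = 0}))
    ⟨fun x y h => ?_, fun Z => ?_⟩]
  · simp
  · have e : S x = S y := congrArg Subtype.val h
    have := (hS x).unique (e ▸ hS y)
    obtain ⟨_ | _, _ | _⟩ := x <;> obtain ⟨_ | _, _ | _⟩ := y <;> first | rfl | norm_num at this
  · obtain ⟨u₂, u₃, h⟩ := hE.sg_ex Z.2
    rcases sq_eq_one_iff.1 h.1 with rfl | rfl <;> rcases sq_eq_one_iff.1 h.2.1 with rfl | rfl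
    exacts [⟨(true, true), Subtype.ext (hE.sg_inj (hS _) h)⟩,
      ⟨(true, false), Subtype.ext (hE.sg_inj (hS _) h)⟩,
      ⟨(false, true), Subtype.ext (hE.sg_inj (hS _) h)⟩,
      ⟨(false, false), Subtype.ext (hE.sg_inj (hS _) h)⟩]

end Desc

open Two Desc

theorem sha : SHAStmt := by
  intro a b ha hb hab H
  classical
  refine sha_two (isE ha hb hab Qbar).exists_half fun c hc h2 hr hp => ?_
  obtain ⟨d₂, d₃, r₂, r₃, n₂, n₃, s₂, s₃, hu⟩ := exists_roots ha hb hab hc h2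
  obtain ⟨R, hR⟩ := cover ha hb hab n₂ n₃ s₂ s₃ (H d₂ d₃ n₂ n₃
    ⟨loc ha hb hab n₂ n₃ s₂ s₃ hu ℝ hr, fun p _ => loc ha hb hab n₂ n₃ s₂ s₃ hu _ (hp p)⟩)
  exact ⟨R, fun σ => (isE ha hb hab Qbar).sg_inj (hu σ) (hR σ)⟩

theorem rank : RANKStmt := by
  intro a b g₂ g₃ ha hb hab hg hi hs
  choose P hP using fun i => gd_of_sol ha hb hab (hg i).1 (hg i).2.1 (hg i).2.2
  have hΔ := (isE ha hb hab ℚ).delta
  have : ((Ecv a b).baseChange ℚ).IsElliptic := ⟨hΔ.isUnit⟩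
  refine ⟨⟨IsUnit.mk0 _ (by simpa [WeierstrassCurve.baseChange] using hΔ)⟩, ?_,
    fun I => (Gd.prod ha hb hab hP I).sol ha hb hab⟩
  refine rank_of_basis P (fun Q => ?_) (fun I Z h => ?_) (card_two ha hb hab) (r := 2) (by simp)
  · obtain ⟨d₂, d₃, hQ⟩ := exists_gd ha hb hab Q
    obtain ⟨I, hI⟩ := hs d₂ d₃ hQ.1 hQ.2.1 (hQ.sol ha hb hab)
    obtain ⟨Z, hZ⟩ := ((hQ.mul ha hb hab (Gd.prod ha hb hab hP I)).iff ha hb hab).1 hI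
    exact ⟨I, Z - ∑ i ∈ I, P i, by rw [smul_sub, ← hZ]; abel⟩
  · obtain ⟨h₂, h₃⟩ := ((Gd.prod ha hb hab hP I).iff ha hb hab).2 ⟨Z, h⟩
    exact hi I h₂ h₃

end Pool.Agent.MP_a43263_nt.R2
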