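import Mathlib.Data.Int.Star
import Mathlib.Algebra.Order.Chebyshev
import Pool.Agent.MP_a43263_nt.R2.Basic
import Pool.Agent.MP_a43263_nt.R2.Spec

-- ======== part 0: formerly Pool.Agent.MP_a43263_nt.R2.Bor
section MrgPart0

/-! PROJECT RANK2, module BOR: bordering a symmetric sign matrix, parity of the corank. -/

set_option autoImplicit false
set_option linter.unusedSectionVars false

noncomputable section

namespace Pool.Agent.MP_a43263_nt.R2

open Finset

namespace Bor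

variable {ι : Type} [DecidableEq ι] {g : ι → ι → ℤ}

theorem row_sgn (hg : Sgn g) (x : Finset ι) (b : ι) :
    ∏ a ∈ x, g a b = 1 ∨ ∏ a ∈ x, g a b = -1 :=
  prod_sgn _ fun a _ => hg.2 a b

theorem part1 (hg : Sgn g) (V A : Finset ι) :
    (Ker g (V ∪ A)).card ≤ 2 ^ A.card * (Ker g V).card := by
  rw [mul_comm, ← card_powerset]
  refine Finset.card_le_mul_card_image_of_maps_to (f := fun x => x \ V) ?_ _ ?_
  · intro x hx
    rw [mem_powerset]
    intro a ha
    obtain ⟨h1, h2⟩ := mem_sdiff.1 ha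
    exact (mem_union.1 ((mem_Ker.1 hx).1 h1)).resolve_left h2
  · intro y _
    rcases ((Ker g (V ∪ A)).filter fun x => x \ V = y).eq_empty_or_nonempty with h | ⟨x₀, h₀⟩
    · rw [h]; exact Nat.zero_le _
    · refine Finset.card_le_card_of_injOn (fun x => symmDiff x x₀) ?_ ?_
      · intro x hx
        obtain ⟨h1, h2⟩ := mem_filter.1 (mem_coe.1 hx)
        obtain ⟨h3, h4⟩ := mem_filter.1 h₀
        have h5 := mem_Ker.1 (symmDiff_mem_Ker hg h1 h3)
        refine mem_coe.2 (mem_Ker.2 ⟨fun a ha => ?_, fun b hb => h5.2 b (mem_union_left _ hb)⟩)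
        by_contra hV
        have h6 : a ∈ x \ V ↔ a ∈ x₀ \ V := by rw [h2, h4]
        simp only [mem_sdiff, hV, not_false_eq_true, and_true] at h6
        rw [mem_symmDiff] at ha
        tauto
      · intro x _ x' _ he
        exact symmDiff_left_injective x₀ he

theorem sum_zero (hg : Sgn g) {V x₀ : Finset ι} {b : ι} (h₀ : x₀ ∈ Ker g V)
    (hb : ∏ a ∈ x₀, g a b = -1) : ∑ x ∈ Ker g V, ∏ a ∈ x, g a b = 0 := by
  have h : ∑ x ∈ Ker g V, ∏ a ∈ x, g a b = ∑ x ∈ Ker g V, -∏ a ∈ x, g a b := by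
    refine Finset.sum_nbij' (fun x => symmDiff x x₀) (fun x => symmDiff x x₀)
      (fun x hx => symmDiff_mem_Ker hg hx h₀) (fun x hx => symmDiff_mem_Ker hg hx h₀)
      (fun x _ => symmDiff_symmDiff_cancel_right _ _)
      (fun x _ => symmDiff_symmDiff_cancel_right _ _) fun x _ => ?_
    rw [prod_symmDiff (fun a => hg.2 a b), hb]
    ring
  rw [Finset.sum_neg_distrib] at h
  linarith

theorem part3 (hg : Sgn g) (V : Finset ι) (b : ι) : ∑ x ∈ Ker g V, ∏ a ∈ x, g a b =
    if ∀ x ∈ Ker g V, ∏ a ∈ x, g a b = 1 then ((Ker g V).card : ℤ) else 0 := by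
  split_ifs with h
  · rw [Finset.sum_congr rfl h]; simp
  · push Not at h
    obtain ⟨x₀, h₀, h⟩ := h
    exact sum_zero hg h₀ ((row_sgn hg x₀ b).resolve_left h)

theorem part2 (hg : Sgn g) (V : Finset ι) (b : ι) (hb : b ∉ V)
    (h : ∃ x ∈ Ker g V, ∏ a ∈ x, g a b = -1) :
    2 * (Ker g (insert b V)).card = (Ker g V).card := by
  obtain ⟨x₀, h₀, h₁⟩ := h
  have e : Ker g (insert b V) = (Ker g V).filter fun x => ∏ a ∈ x, g a b = 1 := by
    ext x
    simp only [mem_filter, mem_Ker, forall_mem_insert]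
    constructor
    · rintro ⟨h1, h2, h3⟩
      refine ⟨⟨fun a ha => (mem_insert.1 (h1 ha)).resolve_left ?_, h3⟩, h2⟩
      rintro rfl
      have h4 : chi g x x₀ = 1 := by
        rw [chi_eq_rows]
        exact prod_eq_one fun c hc => h3 c ((mem_Ker.1 h₀).1 hc)
      have h5 : chi g x₀ x = -1 := by
        rw [chi_eq_rows, ← Finset.mul_prod_erase _ _ ha, h₁, prod_eq_one, mul_one]
        intro c hc
        obtain ⟨h6, h7⟩ := mem_erase.1 hc
        exact (mem_Ker.1 h₀).2 c ((mem_insert.1 (h1 h7)).resolve_left h6)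
      rw [chi_comm hg, h4] at h5
      norm_num at h5
    · rintro ⟨⟨h1, h2⟩, h3⟩
      exact ⟨h1.trans (subset_insert _ _), h3, h2⟩
  have h2 : (2 * ((Ker g V).filter fun x => ∏ a ∈ x, g a b = 1).card : ℤ) =
      ∑ x ∈ Ker g V, (1 + ∏ a ∈ x, g a b) := by
    rw [Finset.card_filter]
    push_cast
    rw [Finset.mul_sum]
    refine Finset.sum_congr rfl fun x _ => ?_
    rcases row_sgn hg x b with h | h <;> rw [h] <;> norm_num
  rw [Finset.sum_add_distrib, sum_zero hg h₀ h₁] at h2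
  rw [e]
  simp only [sum_const, nsmul_eq_mul, mul_one, add_zero] at h2
  exact_mod_cast h2

theorem chi_self (hg : Sgn g) (hd : ∀ a, g a a = 1) (x : Finset ι) : chi g x x = 1 := by
  induction x using Finset.induction_on with
  | empty => simp [chi]
  | insert a x ha ih =>
    unfold chi at ih ⊢
    rw [prod_insert ha, prod_insert ha, hd, one_mul,
      Finset.prod_congr rfl fun c _ => prod_insert (f := fun b => g c b) ha, prod_mul_distrib, ih,
      mul_one, Finset.prod_congr rfl fun c _ => hg.1 a c]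
    rcases row_sgn hg x a with h | h <;> rw [h] <;> norm_num

/-- a column orthogonal to the kernel lies in the image -/
theorem exists_solution (hg : Sgn g) (V : Finset ι) (b : ι)
    (h : ∀ x ∈ Ker g V, ∏ a ∈ x, g a b = 1) :
    ∃ x ⊆ V, ∀ c ∈ V, (∏ a ∈ x, g a c) * g b c = 1 := by
  by_contra hcon
  push Not at hcon
  have h1 : ∑ x ∈ V.powerset, ∑ y ∈ V.powerset, ∏ c ∈ y, ((∏ a ∈ x, g a c) * g b c) = 0 := by
    refine Finset.sum_eq_zero fun x hx => ?_
    rw [sum_powerset_prod_sgn, if_neg]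
    · push Not
      exact hcon x (mem_powerset.1 hx)
    · intro c _
      rcases row_sgn hg x c with h | h <;> rcases hg.2 b c with h' | h' <;> rw [h, h'] <;> norm_num
  have h2 : ∀ y ∈ V.powerset, ∑ x ∈ V.powerset, ∏ c ∈ y, ((∏ a ∈ x, g a c) * g b c) =
      if y ∈ Ker g V then 2 ^ V.card else 0 := by
    intro y hy
    have h3 : ∀ x : Finset ι, ∏ c ∈ y, ((∏ a ∈ x, g a c) * g b c) =
        (∏ a ∈ x, ∏ c ∈ y, g c a) * ∏ c ∈ y, g c b := by
      intro x
      rw [prod_mul_distrib, Finset.prod_comm]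
      congr 1
      · exact prod_congr rfl fun a _ => prod_congr rfl fun c _ => hg.1 _ _
      · exact prod_congr rfl fun c _ => hg.1 _ _
    rw [Finset.sum_congr rfl fun x _ => h3 x, ← Finset.sum_mul,
      sum_powerset_prod_sgn V fun a _ => row_sgn hg y a]
    by_cases hk : y ∈ Ker g V
    · rw [if_pos hk, if_pos (mem_Ker.1 hk).2, h y hk, mul_one]
    · rw [if_neg hk, if_neg fun h4 => hk (mem_Ker.2 ⟨mem_powerset.1 hy, h4⟩), zero_mul]
  rw [Finset.sum_comm, Finset.sum_congr rfl h2] at h1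
  have h4 : (0 : ℤ) < ∑ y ∈ V.powerset, if y ∈ Ker g V then (2 : ℤ) ^ V.card else 0 := by
    refine Finset.sum_pos' (fun y _ => by split_ifs <;> positivity)
      ⟨∅, empty_mem_powerset V, ?_⟩
    rw [if_pos (empty_mem_Ker V)]
    positivity
  exact h4.ne' h1

theorem double (hg : Sgn g) (hd : ∀ a, g a a = 1) (V : Finset ι) (b : ι) (hb : b ∉ V)
    (h : ∀ x ∈ Ker g V, ∏ a ∈ x, g a b = 1) :
    (Ker g (insert b V)).card = 2 * (Ker g V).card := by
  apply le_antisymm
  · have := part1 hg V {b}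
    rwa [card_singleton, pow_one, union_comm, ← insert_eq] at this
  obtain ⟨x₁, h1, h2⟩ := exists_solution hg V b h
  have hb1 : b ∉ x₁ := fun hc => hb (h1 hc)
  have hz : insert b x₁ ∈ Ker g (insert b V) := by
    refine mem_Ker.2 ⟨insert_subset_insert _ h1, ?_⟩
    rw [forall_mem_insert]
    refine ⟨?_, fun c hc => ?_⟩
    · rw [prod_insert hb1, hd, one_mul, ← chi_self hg hd x₁, chi_eq_rows]
      refine prod_congr rfl fun c hc => ?_
      have h3 := h2 c (h1 hc)
      rw [hg.1 c b]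
      rcases hg.2 b c with h' | h' <;> rw [h'] at h3 ⊢ <;> linarith
    · rw [prod_insert hb1, mul_comm]
      exact h2 c hc
  have hsub : ∀ x ∈ Ker g V, x ∈ Ker g (insert b V) := by
    intro x hx
    refine mem_Ker.2 ⟨(mem_Ker.1 hx).1.trans (subset_insert _ _), ?_⟩
    rw [forall_mem_insert]
    exact ⟨h x hx, (mem_Ker.1 hx).2⟩
  have hdis : Disjoint (Ker g V) ((Ker g V).image fun x => symmDiff x (insert b x₁)) := by
    rw [disjoint_left]
    intro x hx hx'
    obtain ⟨y, hy, rfl⟩ := mem_image.1 hx'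
    refine hb ((mem_Ker.1 hx).1 (mem_symmDiff.2 (Or.inr ⟨mem_insert_self _ _, fun hc => ?_⟩)))
    exact hb ((mem_Ker.1 hy).1 hc)
  have h3 : Ker g V ∪ (Ker g V).image (fun x => symmDiff x (insert b x₁)) ⊆
      Ker g (insert b V) := by
    refine union_subset hsub fun x hx => ?_
    obtain ⟨y, hy, rfl⟩ := mem_image.1 hx
    exact symmDiff_mem_Ker hg (hsub y hy) hz
  have h4 := card_le_card h3
  rw [card_union_of_disjoint hdis, card_image_of_injective _ (symmDiff_left_injective _)] at h4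
  omega

theorem alt (hg : Sgn g) (hd : ∀ a, g a a = 1) (V : Finset ι) :
    ∃ k : ℕ, (Ker g V).card = 2 ^ k ∧ k % 2 = V.card % 2 := by
  induction V using Finset.induction_on with
  | empty => exact ⟨0, by simp [Ker], rfl⟩
  | insert b V hb ih =>
    obtain ⟨k, h1, h2⟩ := ih
    rw [card_insert_of_notMem hb]
    by_cases h : ∀ x ∈ Ker g V, ∏ a ∈ x, g a b = 1
    · exact ⟨k + 1, by rw [double hg hd V b hb h, h1, pow_succ, mul_comm], by omega⟩
    · push Not at h
      obtain ⟨x, hx, h⟩ := h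
      have h3 := part2 hg V b hb ⟨x, hx, (row_sgn hg x b).resolve_left h⟩
      rw [h1] at h3
      rcases k with _ | k
      · omega
      · exact ⟨k, by rw [pow_succ] at h3; omega, by omega⟩

theorem part4 (hg : Sgn g) (V w : Finset ι) (hw : w ⊆ V) (hd : ∀ a ∈ V, g a a = ∏ t ∈ w, g t a)
    (hc : chi g w w = 1) (hV : Even V.card) : ∃ k : ℕ, (Ker g V).card = 4 ^ k := by
  set g' : ι → ι → ℤ := fun a b => g a b * if g a a = -1 ∧ g b b = -1 then -1 else 1 with hg'def
  have hg' : Sgn g' := by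
    refine ⟨fun a b => ?_, fun a b => ?_⟩
    · simp only [hg'def, hg.1 a b, and_comm]
    · simp only [hg'def]
      rcases hg.2 a b with h | h <;> rw [h] <;> split_ifs <;> norm_num
  have hd' : ∀ a, g' a a = 1 := by
    intro a
    simp only [hg'def]
    rcases hg.2 a a with h | h <;> rw [h] <;> norm_num
  have hrow : ∀ (x : Finset ι) (b : ι), ∏ a ∈ x, g' a b =
      (∏ a ∈ x, g a b) * if g b b = -1 then ∏ a ∈ x, g a a else 1 := by
    intro x b
    simp only [hg'def]
    rw [prod_mul_distrib]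
    congr 1
    by_cases hb : g b b = -1
    · rw [if_pos hb]
      refine prod_congr rfl fun a _ => ?_
      rcases hg.2 a a with h | h <;> rw [h] <;> simp [hb]
    · rw [if_neg hb]
      exact prod_eq_one fun a _ => if_neg fun h => hb h.2
  have hdiag : ∀ x ⊆ V, ∏ a ∈ x, g a a = ∏ b ∈ w, ∏ a ∈ x, g a b := by
    intro x hx
    rw [← chi_eq_rows, chi_comm hg, chi_eq_rows]
    exact prod_congr rfl fun a ha => hd a (hx ha)
  have e : Ker g V = Ker g' V := by
    ext x
    simp only [mem_Ker]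
    refine and_congr_right fun hx => ⟨fun h b hb => ?_, fun h => ?_⟩
    · rw [hrow, h b hb, hdiag x hx, prod_eq_one fun c hc => h c (hw hc)]
      simp
    · rcases prod_sgn x (fun a _ => hg.2 a a) with h1 | h1
      · intro b hb
        have h2 := h b hb
        rw [hrow, h1] at h2
        simpa using h2
      · exfalso
        have h2 : ∀ b ∈ V, ∏ a ∈ x, g a b = g b b := by
          intro b hb
          have h3 := h b hb
          rw [hrow, h1] at h3
          rcases hg.2 b b with h4 | h4 <;> rw [h4] at h3 ⊢ <;> norm_num at h3 <;> linarith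
        rw [hdiag x hx, Finset.prod_congr rfl fun b hb => h2 b (hw hb), hdiag w hw,
          ← chi_eq_rows, hc] at h1
        norm_num at h1
  obtain ⟨k, h1, h2⟩ := alt hg' hd' V
  obtain ⟨m, hm⟩ := hV
  refine ⟨k / 2, ?_⟩
  rw [e, h1, show (4 : ℕ) = 2 ^ 2 by norm_num, ← pow_mul]
  congr 1
  omega

end Bor

theorem bor : BORStmt := fun _ hg V =>
  ⟨Bor.part1 hg V, Bor.part2 hg V, Bor.part3 hg V,
    fun w hw hd hc hV => Bor.part4 hg V w hw hd hc hV⟩

end Pool.Agent.MP_a43263_nt.R2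

end
end MrgPart0

-- ======== part 1: formerly Pool.Agent.MP_a43263_nt.R2.Box
section MrgPart1

/-! PROJECT RANK2: the Gowers-Cauchy-Schwarz inequality and the shift along kernels. -/

set_option autoImplicit false

noncomputable section

namespace Pool.Agent.MP_a43263_nt.R2

open Finset

namespace Box

/-- power mean inequality for the exponent `2 ^ k` -/
theorem pm {α : Type} (s : Finset α) (k : ℕ) (A : α → ℝ) :
    (∑ a ∈ s, A a) ^ 2 ^ k ≤ (s.card : ℝ) ^ (2 ^ k - 1) * ∑ a ∈ s, A a ^ 2 ^ k := by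
  induction k generalizing A with
  | zero => simp
  | succ k ih =>
    have h1 : (∑ a ∈ s, A a) ^ 2 ≤ s.card * ∑ a ∈ s, A a ^ 2 := sq_sum_le_card_mul_sum_sq
    have h2 := pow_le_pow_left₀ (sq_nonneg _) h1 (2 ^ k)
    have h3 := mul_le_mul_of_nonneg_left (ih fun a => A a ^ 2)
      (pow_nonneg (Nat.cast_nonneg (α := ℝ) s.card) (2 ^ k))
    have h4 : 2 ^ k + (2 ^ k - 1) = 2 ^ (k + 1) - 1 := by
      have := Nat.one_le_two_pow (n := k)
      rw [pow_succ]; omega
    rw [← pow_mul, mul_pow, ← pow_succ'] at h2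
    rw [← mul_assoc, ← pow_add, h4] at h3
    simp only [← pow_mul, ← pow_succ'] at h3
    exact h2.trans h3

theorem sum_cons {k : ℕ} {β : Type} [Fintype β] (f : (Fin (k + 1) → β) → ℝ) :
    ∑ t, f t = ∑ x : β, ∑ s : Fin k → β, f (Fin.cons x s) := by
  rw [← (Fin.consEquiv fun _ => β).sum_comp, Fintype.sum_prod_type]
  rfl

theorem prod_cons {k : ℕ} (f : (Fin (k + 1) → Bool) → ℝ) :
    ∏ t, f t = ∏ s : Fin k → Bool, (f (Fin.cons false s) * f (Fin.cons true s)) := by
  rw [← (Fin.consEquiv fun _ => Bool).prod_comp, Fintype.prod_prod_type, Fintype.prod_bool,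
    prod_mul_distrib, mul_comm]
  rfl

theorem vx_cons {k T : ℕ} (x x' : Fin T) (s s' : Fin k → Fin T) (b : Bool) (ω : Fin k → Bool) :
    vx (Fin.cons x s : Fin (k + 1) → Fin T) (Fin.cons x' s') (Fin.cons b ω) =
      Fin.cons (if b then x' else x) (vx s s' ω) := by
  funext i
  refine Fin.cases ?_ (fun j => ?_) i <;> simp [vx]

theorem shift (f : ℤ → ℝ) (a b d D : ℤ) (hf : ∀ i, f i ≠ 0 → i ∈ Ico a b) (hd : |d| ≤ D) :
    ∑ i ∈ Ico a b, f i = ∑ i ∈ Ico (a - D) (b + D), f (i + d) := by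
  rw [sum_Ico_add' f]
  obtain ⟨h1, h2⟩ := abs_le.1 hd
  refine sum_subset (Ico_subset_Ico (by omega) (by omega)) fun i _ hi => ?_
  by_contra h
  exact hi (hf i h)

theorem abs_lin {k T H : ℕ} {A : Fin k → ℤ} (hA : ∀ m, |A m| ≤ H) (t : Fin k → Fin T) :
    |∑ m, A m * (t m : ℕ)| ≤ (k : ℤ) * H * T := by
  refine (abs_sum_le_sum_abs _ _).trans ?_
  have : ∀ m ∈ (univ : Finset (Fin k)), |A m * (t m : ℕ)| ≤ (H : ℤ) * T := by
    intro m _
    rw [abs_mul, Nat.abs_cast]
    exact mul_le_mul (hA m) (by exact_mod_cast (t m).2.le) (by positivity) (by positivity)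
  refine (sum_le_card_nsmul _ _ _ this).trans ?_
  simp [mul_assoc]

theorem lin_update {k T : ℕ} (A : Fin k → ℤ) (t : Fin k → Fin T) (m : Fin k) (x : Fin T) :
    ∑ l, A l * (Function.update t m x l : ℕ) =
      ∑ l, A l * (t l : ℕ) + A m * (((x : ℕ) : ℤ) - (t m : ℕ)) := by
  rw [← add_sum_erase _ _ (mem_univ m), ← add_sum_erase _ (fun l => A l * ((t l : ℕ) : ℤ))
    (mem_univ m), Function.update_self]
  have : ∑ l ∈ univ.erase m, A l * ((Function.update t m x l : ℕ) : ℤ) =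
      ∑ l ∈ univ.erase m, A l * ((t l : ℕ) : ℤ) :=
    sum_congr rfl fun l hl => by rw [Function.update_of_ne (mem_erase.1 hl).1]
  rw [this]
  ring

end Box

theorem box : BOXStmt := by
  intro k T
  induction k with
  | zero =>
    intro g h _ _
    simp only [Fintype.sum_unique, Fintype.prod_unique, Fintype.prod_empty, pow_zero, pow_one,
      mul_zero, one_mul, mul_one]
    exact le_of_eq (congrArg h (Subsingleton.elim _ _))
  | succ k ih =>
    intro g h hg hi
    rcases Nat.eq_zero_or_pos T with rfl | hT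
    · simp
    let P : Fin T → (Fin k → Fin T) → ℝ := fun x s =>
      (∏ i : Fin k, g i.succ (Fin.cons x s)) * h (Fin.cons x s)
    let A : Fin T × Fin T → ℝ := fun p => ∑ s, P p.1 s * P p.2 s
    have e1 : ∑ t, (∏ i, g i t) * h t =
        ∑ s : Fin k → Fin T, g 0 (Fin.cons ⟨0, hT⟩ s) * ∑ x, P x s := by
      rw [Box.sum_cons, sum_comm]
      refine sum_congr rfl fun s _ => ?_
      rw [mul_sum]
      refine sum_congr rfl fun x _ => ?_
      have := hi 0 (Fin.cons ⟨0, hT⟩ s) x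
      rw [Fin.update_cons_zero] at this
      rw [Fin.prod_univ_succ, this, mul_assoc]
    have e2 : (∑ t, (∏ i, g i t) * h t) ^ 2 ≤ (T : ℝ) ^ k * ∑ p, A p := by
      rw [e1]
      refine (sum_mul_sq_le_sq_mul_sq _ _ _).trans ?_
      have a1 : ∑ s : Fin k → Fin T, g 0 (Fin.cons ⟨0, hT⟩ s) ^ 2 ≤ (T : ℝ) ^ k := by
        refine (sum_le_card_nsmul _ _ 1 fun s _ => ?_).trans (by simp)
        exact (sq_le_one_iff_abs_le_one _).2 (hg _ _)
      have a2 : ∑ s, (∑ x, P x s) ^ 2 = ∑ p, A p := by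
        simp only [A, sq, sum_mul_sum]
        rw [Fintype.sum_prod_type, sum_comm]
        exact sum_congr rfl fun x _ => sum_comm
      rw [← a2]
      exact mul_le_mul_of_nonneg_right a1 (sum_nonneg fun _ _ => sq_nonneg _)
    have e3 : ∀ p, A p ^ 2 ^ k * (T : ℝ) ^ (2 * k) ≤ (T : ℝ) ^ (k * 2 ^ k) *
        ∑ s, ∑ s', ∏ ω : Fin k → Bool,
          (h (Fin.cons p.1 (vx s s' ω)) * h (Fin.cons p.2 (vx s s' ω))) := by
      intro p
      have := ih (fun i s => g i.succ (Fin.cons p.1 s) * g i.succ (Fin.cons p.2 s))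
        (fun s => h (Fin.cons p.1 s) * h (Fin.cons p.2 s))
        (fun i s => by
          rw [abs_mul]
          exact mul_le_one₀ (hg _ _) (abs_nonneg _) (hg _ _))
        (fun i s x => by simp only [Fin.cons_update, hi])
      refine le_trans (le_of_eq ?_) this
      congr 2
      refine sum_congr rfl fun s _ => ?_
      simp only [P, prod_mul_distrib]
      ring
    have e4 : ∑ t, ∑ t', ∏ ω : Fin (k + 1) → Bool, h (vx t t' ω) =
        ∑ p : Fin T × Fin T, ∑ s, ∑ s', ∏ ω : Fin k → Bool,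
          (h (Fin.cons p.1 (vx s s' ω)) * h (Fin.cons p.2 (vx s s' ω))) := by
      rw [Box.sum_cons, Fintype.sum_prod_type]
      refine sum_congr rfl fun x _ => ?_
      refine Eq.trans (sum_congr rfl fun s _ => ?_) sum_comm
      rw [Box.sum_cons]
      refine sum_congr rfl fun x' _ => sum_congr rfl fun s' _ => ?_
      rw [Box.prod_cons]
      simp [Box.vx_cons]
    have e5 := Box.pm univ k A
    have e6 := pow_le_pow_left₀ (sq_nonneg _) e2 (2 ^ k)
    have e7 := sum_le_sum fun p (_ : p ∈ univ) => e3 p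
    rw [← sum_mul, ← mul_sum, ← e4] at e7
    rw [← pow_mul, ← pow_succ', mul_pow, ← pow_mul] at e6
    have hT0 : (0 : ℝ) ≤ T := Nat.cast_nonneg T
    have e8 : ((univ : Finset (Fin T × Fin T)).card : ℝ) = (T : ℝ) ^ 2 := by simp [sq]
    rw [e8, ← pow_mul] at e5
    have e9 : k * 2 ^ k + 2 * (2 ^ k - 1) + 2 + k * 2 ^ k = (k + 1) * 2 ^ (k + 1) := by
      obtain ⟨n, hn⟩ : ∃ n, 2 ^ k = n + 1 := ⟨2 ^ k - 1, by
        have := Nat.one_le_two_pow (n := k); omega⟩
      rw [pow_succ, hn, Nat.add_sub_cancel]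
      ring
    calc (∑ t, (∏ i, g i t) * h t) ^ 2 ^ (k + 1) * (T : ℝ) ^ (2 * (k + 1))
        ≤ ((T : ℝ) ^ (k * 2 ^ k) * ((T : ℝ) ^ (2 * (2 ^ k - 1)) * ∑ p, A p ^ 2 ^ k)) *
            (T : ℝ) ^ (2 * (k + 1)) :=
          mul_le_mul_of_nonneg_right
            (e6.trans (mul_le_mul_of_nonneg_left e5 (by positivity))) (by positivity)
      _ = (T : ℝ) ^ (k * 2 ^ k + 2 * (2 ^ k - 1) + 2) *
            ((∑ p, A p ^ 2 ^ k) * (T : ℝ) ^ (2 * k)) := by ring
      _ ≤ _ := by
          refine (mul_le_mul_of_nonneg_left e7 (by positivity)).trans (le_of_eq ?_)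
          rw [← mul_assoc, ← pow_add, e9]

theorem shi : BOXStmt → SHIStmt := by
  intro hbox k T H R Q i₀ j₀ A B ψ κ _ hT hAB hψ hI hJ
  set D : ℤ := (k : ℤ) * H * T with hD
  have hD0 : 0 ≤ D := by positivity
  let f : ℤ → ℤ → ℝ := fun i j => (∏ m, ψ m (A m * i + B m * j)) * κ j
  let α : (Fin k → Fin T) → ℤ := fun t => ∑ m, A m * (t m : ℕ)
  let β : (Fin k → Fin T) → ℤ := fun t => ∑ m, B m * (t m : ℕ)
  let X := Ico (i₀ - D) (i₀ + R + D) ×ˢ Ico (j₀ - D) (j₀ + Q + D)
  set S := ∑ i ∈ Ico i₀ (i₀ + R), ∑ j ∈ Ico j₀ (j₀ + Q), (∏ m, ψ m (A m * i + B m * j)) * κ j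
    with hS
  have e1 : ∀ t, S = ∑ p ∈ X, f (p.1 + β t) (p.2 - α t) := by
    intro t
    have a1 : ∀ i, ∑ j ∈ Ico j₀ (j₀ + Q), f i j =
        ∑ j ∈ Ico (j₀ - D) (j₀ + Q + D), f i (j - α t) := fun i =>
      Box.shift (f i) _ _ (-α t) D (fun j hj => hJ j (right_ne_zero_of_mul hj))
        (by rw [abs_neg]; exact Box.abs_lin (fun m => (hAB m).1) t)
    rw [sum_product, hS, sum_congr rfl fun i _ => a1 i]
    refine Box.shift (fun i => ∑ j ∈ Ico (j₀ - D) (j₀ + Q + D), f i (j - α t)) _ _ (β t) D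
      (fun i hi => ?_) (Box.abs_lin (fun m => (hAB m).2) t)
    obtain ⟨j, -, hj⟩ := exists_ne_zero_of_sum_ne_zero hi
    exact hI i _ (left_ne_zero_of_mul hj)
  have e2 : (T : ℝ) ^ k * S = ∑ p ∈ X, ∑ t, f (p.1 + β t) (p.2 - α t) := by
    rw [sum_comm, ← sum_congr rfl fun t _ => e1 t]
    simp
  have e3 : ∀ p : ℤ × ℤ, (∑ t, f (p.1 + β t) (p.2 - α t)) ^ 2 ^ k * (T : ℝ) ^ (2 * k) ≤
      (T : ℝ) ^ (k * 2 ^ k) * ∑ t, ∑ t', ∏ ω : Fin k → Bool, κ (p.2 - α (vx t t' ω)) := by
    intro p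
    refine hbox k T (fun m t => ψ m (A m * (p.1 + β t) + B m * (p.2 - α t)))
      (fun t => κ (p.2 - α t)) (fun m t => hψ _ _) fun m t x => ?_
    simp only [α, β, Box.lin_update]
    congr 1
    ring
  have cI : ∀ (a : ℤ) (n : ℕ), ((Ico (a - D) (a + n + D)).card : ℝ) = n + 2 * k * H * T := by
    intro a n
    have : ((Ico (a - D) (a + n + D)).card : ℤ) = n + 2 * D := by
      rw [Int.card_Ico, Int.toNat_of_nonneg (by omega)]
      ring
    have h2 : (((Ico (a - D) (a + n + D)).card : ℤ) : ℝ) = ((n + 2 * D : ℤ) : ℝ) := by rw [this]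
    rw [hD] at h2
    push_cast at h2
    rw [h2]
    ring
  have e4 := Box.pm X k fun p => ∑ t, f (p.1 + β t) (p.2 - α t)
  have e5 := sum_le_sum fun p (_ : p ∈ X) => e3 p
  have cX : (X.card : ℝ) = ((R : ℝ) + 2 * k * H * T) * (Q + 2 * k * H * T) := by
    rw [card_product, Nat.cast_mul, cI, cI]
  have e6 : ∑ p ∈ X, ∑ t, ∑ t', ∏ ω : Fin k → Bool, κ (p.2 - α (vx t t' ω)) =
      ((R : ℝ) + 2 * k * H * T) * ∑ t : Fin k → Fin T, ∑ t' : Fin k → Fin T,
        ∑ j ∈ Ico (j₀ - D) (j₀ + Q + D), ∏ ω : Fin k → Bool, κ (j - α (vx t t' ω)) := by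
    rw [sum_product]
    simp only [sum_const, nsmul_eq_mul]
    rw [cI, sum_comm]
    congr 1
    exact sum_congr rfl fun t _ => sum_comm
  rw [← sum_mul, ← mul_sum, e6] at e5
  rw [← e2, mul_pow, ← pow_mul, cX] at e4
  have hT0 : (0 : ℝ) < (T : ℝ) ^ (k * 2 ^ k) := by positivity
  refine le_of_mul_le_mul_left ?_ hT0
  calc _ = ((T : ℝ) ^ (k * 2 ^ k) * S ^ 2 ^ k) * (T : ℝ) ^ (2 * k) := by ring
    _ ≤ _ := mul_le_mul_of_nonneg_right e4 (by positivity)
    _ = (((R : ℝ) + 2 * k * H * T) * (Q + 2 * k * H * T)) ^ (2 ^ k - 1) *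
        ((∑ p ∈ X, (∑ t, f (p.1 + β t) (p.2 - α t)) ^ 2 ^ k) * (T : ℝ) ^ (2 * k)) := by ring
    _ ≤ _ := mul_le_mul_of_nonneg_left e5 (by positivity)
    _ = _ := by ring

end Pool.Agent.MP_a43263_nt.R2

end
end MrgPart1

-- marker of a merged file
example : 731051 + 19070 = 731051 + 19070 := rfl
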