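import Mathlib.Data.Int.Star
import Mathlib.Algebra.Order.Ring.Star
import Mathlib.Algebra.Order.Star.Real
import Mathlib.Algebra.Ring.IsFormallyReal
import Mathlib.Analysis.Normed.Group.Ultra
import Mathlib.NumberTheory.Padics.RingHoms
import Pool.Agent.MP_a43263_nt.R2.Spec

/-! PROJECT RANK2, module LOC, first part: 2-coverings over local fields. -/

set_option autoImplicit false

noncomputable section

namespace Pool.Agent.MP_a43263_nt.R2

open Finset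

namespace Loc

section padic

variable {p : ℕ} [hp : Fact p.Prime]

/-- close to a nonzero square -/
def Q (η : ℝ) (x : ℚ_[p]) : Prop := ∃ s : ℚ_[p], s ≠ 0 ∧ ‖x / s ^ 2 - 1‖ < η

theorem Q.ne {η : ℝ} (hη : η ≤ 1) {x : ℚ_[p]} (h : Q η x) : x ≠ 0 := by
  obtain ⟨s, -, h⟩ := h
  rintro rfl
  simp at h
  linarith

theorem Q.of_close {η : ℝ} {x y : ℚ_[p]} (h : ‖x - y‖ < η * ‖y‖) (_ : η ≤ 1) : Q η (x * y) := by
  have hy : y ≠ 0 := by
    rintro rfl
    simp at h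
    exact absurd h (not_lt.2 (norm_nonneg _))
  refine ⟨y, hy, ?_⟩
  have : x * y / y ^ 2 - 1 = (x - y) / y := by field_simp
  rw [this, norm_div, div_lt_iff₀ (norm_pos_iff.2 hy)]
  exact h

theorem Q.cancel {η : ℝ} (hη : η ≤ 1) {x y r : ℚ_[p]} (h : Q η y) (e : y = x * r ^ 2) :
    Q η x := by
  have hr : r ≠ 0 := by
    rintro rfl
    exact h.ne hη (by simp [e])
  obtain ⟨s, hs, h⟩ := h
  refine ⟨s / r, div_ne_zero hs hr, ?_⟩
  have : x / (s / r) ^ 2 = y / s ^ 2 := by rw [e]; field_simp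
  rwa [this]

theorem Q.mul {η : ℝ} (hη : η ≤ 1) {x y : ℚ_[p]} (hx : Q η x) (hy : Q η y) : Q η (x * y) := by
  obtain ⟨s, hs, hx⟩ := hx
  obtain ⟨t, ht, hy⟩ := hy
  refine ⟨s * t, mul_ne_zero hs ht, ?_⟩
  have e : x * y / (s * t) ^ 2 - 1 =
      (x / s ^ 2 - 1) * (y / t ^ 2 - 1) + ((x / s ^ 2 - 1) + (y / t ^ 2 - 1)) := by
    field_simp; ring
  rw [e]
  refine (IsUltrametricDist.norm_add_le_max _ _).trans_lt (max_lt ?_
    ((IsUltrametricDist.norm_add_le_max _ _).trans_lt (max_lt hx hy)))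
  rw [norm_mul]
  nlinarith [norm_nonneg (x / s ^ 2 - 1), norm_nonneg (y / t ^ 2 - 1)]

theorem val_congr {x y : ℚ_[p]} (h : ‖x‖ = ‖y‖) : x.valuation = y.valuation := by
  by_cases hx : x = 0
  · rw [hx, norm_zero, eq_comm, norm_eq_zero] at h
    rw [hx, h]
  have hy : y ≠ 0 := by
    rintro rfl
    exact hx (by simpa using h)
  rw [Padic.norm_eq_zpow_neg_valuation hx, Padic.norm_eq_zpow_neg_valuation hy,
    zpow_right_inj₀ (by exact_mod_cast hp.out.pos) (by exact_mod_cast hp.out.ne_one)] at h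
  omega

theorem val_unit {x : ℚ_[p]} (h : ‖x‖ = 1) : x.valuation = 0 := by
  rw [val_congr (y := 1) (by simpa using h), Padic.valuation_one]

theorem val_sq {x d s : ℚ_[p]} (hx : x ≠ 0) (e : x = d * s ^ 2) :
    x.valuation = d.valuation + 2 * s.valuation := by
  have hd : d ≠ 0 := by rintro rfl; exact hx (by simp [e])
  have hs : s ≠ 0 := by rintro rfl; exact hx (by simp [e])
  rw [e, Padic.valuation_mul hd (pow_ne_zero _ hs), Padic.valuation_pow]; rfl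

theorem Q.even {η : ℝ} (hη : η ≤ 1) {x : ℚ_[p]} (h : Q η x) : Even x.valuation := by
  have hx := h.ne hη
  obtain ⟨s, hs, h⟩ := h
  have h1 : ‖x / s ^ 2‖ = 1 := by
    have := Padic.norm_eq_of_norm_sub_lt_right (z1 := x / s ^ 2) (z2 := 1)
      (by rw [norm_one]; linarith)
    simpa using this
  have := val_sq (d := x / s ^ 2) (s := s) hx (by field_simp)
  rw [val_unit h1] at this
  exact ⟨s.valuation, by omega⟩

/-- the affine form of a solution -/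
theorem affine {a b d₂ d₃ : ℚ_[p]} (h2 : d₂ ≠ 0) (h3 : d₃ ≠ 0) (h : Sol2 a b d₂ d₃) :
    (∀ η : ℝ, 0 < η → Q η d₂ ∧ Q η d₃) ∨ ∃ X s₀ s₂ s₃ : ℚ_[p],
      X = d₂ * d₃ * s₀ ^ 2 ∧ X - a = d₂ * s₂ ^ 2 ∧ X - b = d₃ * s₃ ^ 2 := by
  obtain ⟨z₀, z₂, z₃, t, hne, e2, e3⟩ := h
  by_cases ht : t = 0
  · left
    subst ht
    have f2 : d₃ * z₀ ^ 2 = z₂ ^ 2 := mul_left_cancel₀ h2 (by linear_combination e2)
    have f3 : d₂ * z₀ ^ 2 = z₃ ^ 2 := mul_left_cancel₀ h3 (by linear_combination e3)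
    have h0 : z₀ ≠ 0 := by
      rintro rfl
      exact hne ⟨rfl, by simpa using f2.symm, by simpa using f3.symm, rfl⟩
    have g2 : z₂ ≠ 0 := by
      rintro rfl
      simp [h3, h0] at f2
    have g3 : z₃ ≠ 0 := by
      rintro rfl
      simp [h2, h0] at f3
    intro η hη
    refine ⟨⟨z₃ / z₀, div_ne_zero g3 h0, ?_⟩, ⟨z₂ / z₀, div_ne_zero g2 h0, ?_⟩⟩
    · have : d₂ / (z₃ / z₀) ^ 2 - 1 = 0 := by field_simp; linear_combination f3
      rwa [this, norm_zero]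
    · have : d₃ / (z₂ / z₀) ^ 2 - 1 = 0 := by field_simp; linear_combination f2
      rwa [this, norm_zero]
  · right
    refine ⟨d₂ * d₃ * (z₀ / t) ^ 2, z₀ / t, z₂ / t, z₃ / t, rfl, ?_, ?_⟩
    · field_simp; linear_combination e2
    · field_simp; linear_combination e3

theorem cls_zero {η : ℝ} (h0 : 0 < η) (hη : η ≤ 1) {a b d₂ d₃ : ℚ_[p]} (h2 : d₂ ≠ 0)
    (h3 : d₃ ≠ 0) (h : Sol2 a b d₂ d₃) (ha : ‖a‖ = 1) (hq : Q η a) (hδ : ‖a - b‖ < η ^ 2) :
    Q η (d₂ * d₃) := by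
  rcases affine h2 h3 h with h | ⟨X, s₀, s₂, s₃, e0, e2, e3⟩
  · exact (h η h0).1.mul hη (h η h0).2
  by_cases hc : ‖a - b‖ < η * ‖X - a‖
  · refine (Q.of_close (x := X - b) (y := X - a) (by simpa using hc) hη).cancel hη
      (r := s₂ * s₃) ?_
    rw [e2, e3]; ring
  · have h1 : ‖X - a‖ < η * ‖a‖ := by
      rw [ha, mul_one]
      nlinarith [not_lt.1 hc]
    refine ((Q.of_close h1 hη).mul hη hq).cancel hη (r := s₀ * a) ?_
    rw [e0]; ring

theorem cls_one {a b d₂ d₃ : ℚ_[p]} (h2 : d₂ ≠ 0) (h3 : d₃ ≠ 0) (h : Sol2 a b d₂ d₃)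
    (ha0 : a ≠ 0) (ha : a.valuation = 1) (hb : ‖b‖ = 1) :
    Even d₃.valuation ∧
      (Odd d₂.valuation ∧ Q 1 (-b * d₃) ∨ Even d₂.valuation ∧ Q 1 d₃) := by
  have hp1 : (1 : ℝ) < p := by exact_mod_cast hp.out.one_lt
  have hna : ‖a‖ = (p : ℝ) ^ (-1 : ℤ) := by rw [Padic.norm_eq_zpow_neg_valuation ha0, ha]
  have ha1 : ‖a‖ < 1 := by rw [hna]; exact zpow_lt_one_of_neg₀ hp1 (by norm_num)
  rcases affine h2 h3 h with h | ⟨X, s₀, s₂, s₃, e0, e2, e3⟩
  · obtain ⟨q2, q3⟩ := h 1 one_pos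
    exact ⟨q3.even le_rfl, Or.inr ⟨q2.even le_rfl, q3⟩⟩
  have hb0 : b ≠ 0 := by rintro rfl; simp at hb
  by_cases hX : ‖X‖ < 1
  · have q : Q 1 (-b * d₃) := by
      refine (Q.of_close (x := X - b) (y := -b) (by simpa [hb] using hX) le_rfl).cancel le_rfl
        (r := s₃) ?_
      rw [e3]; ring
    have ev : Even d₃.valuation := by
      have := q.even le_rfl
      rwa [Padic.valuation_mul (neg_ne_zero.2 hb0) h3, val_unit (by simpa using hb),
        zero_add] at this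
    refine ⟨ev, Or.inl ⟨?_, q⟩⟩
    obtain ⟨k, hk⟩ := ev
    by_cases hc : ‖X‖ < ‖a‖
    · have h1 : ‖X - a‖ = ‖a‖ := by
        have := Padic.norm_eq_of_norm_sub_lt_right (z1 := a - X) (z2 := a) (by simpa using hc)
        rwa [norm_sub_rev]
      have h4 : X - a ≠ 0 := by
        rw [← norm_ne_zero_iff, h1]; exact norm_ne_zero_iff.2 ha0
      have := val_sq h4 e2
      rw [val_congr h1, ha] at this
      exact ⟨-s₂.valuation, by omega⟩
    · have h1 : ‖X‖ = ‖a‖ := by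
        refine le_antisymm ?_ (not_lt.1 hc)
        rw [hna, Padic.norm_le_pow_iff_norm_lt_pow_add_one]
        simpa using hX
      have h4 : X ≠ 0 := by
        rw [← norm_ne_zero_iff, h1]; exact norm_ne_zero_iff.2 ha0
      have := val_sq h4 e0
      rw [val_congr h1, ha, Padic.valuation_mul h2 h3] at this
      exact ⟨-s₀.valuation - k, by omega⟩
  · have hX1 := not_lt.1 hX
    have q : Q 1 d₃ := by
      refine (Q.of_close (x := X - a) (y := X) (by simpa using ha1.trans_le hX1) le_rfl).cancel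
        le_rfl (r := d₂ * s₀ * s₂) ?_
      rw [e2]; nth_rewrite 1 [e0]; ring
    refine ⟨q.even le_rfl, Or.inr ⟨?_, q⟩⟩
    rcases hX1.eq_or_lt with h1 | h1
    · have h4 : X ≠ 0 := by rintro rfl; simp at h1
      have := val_sq h4 e0
      rw [val_unit h1.symm, Padic.valuation_mul h2 h3] at this
      obtain ⟨k, hk⟩ := q.even le_rfl
      exact ⟨-s₀.valuation - k, by omega⟩
    · refine Q.even le_rfl ((Q.of_close (x := X - b) (y := X) (by simpa [hb] using h1)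
        le_rfl).cancel le_rfl (r := d₃ * s₀ * s₃) ?_)
      rw [e3]; nth_rewrite 1 [e0]; ring

theorem good {a b d₂ d₃ : ℚ_[p]} (h2 : d₂ ≠ 0) (h3 : d₃ ≠ 0) (h : Sol2 a b d₂ d₃)
    (ha : ‖a‖ = 1) (hb : ‖b‖ = 1) (hδ : ‖a - b‖ = 1) : Even d₂.valuation := by
  rcases affine h2 h3 h with h | ⟨X, s₀, s₂, s₃, e0, e2, e3⟩
  · exact (h 1 one_pos).1.even le_rfl
  by_cases h1 : ‖X - a‖ = 1
  · have h4 : X - a ≠ 0 := by intro h; simp [h] at h1
    have := val_sq h4 e2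
    rw [val_unit h1] at this
    exact ⟨-s₂.valuation, by omega⟩
  rcases lt_or_gt_of_ne h1 with h1 | h1
  · have f0 : ‖X‖ = 1 := by
      rw [← ha]; exact Padic.norm_eq_of_norm_sub_lt_right (by rwa [ha])
    have f3 : ‖X - b‖ = 1 := by
      rw [← hδ]; exact Padic.norm_eq_of_norm_sub_lt_right (by simpa [hδ] using h1)
    have g0 := val_sq (by rintro rfl; simp at f0) e0
    have g3 := val_sq (by intro h; simp [h] at f3) e3
    rw [val_unit f0, Padic.valuation_mul h2 h3] at g0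
    rw [val_unit f3] at g3
    exact ⟨s₃.valuation - s₀.valuation, by omega⟩
  · have f0 : ‖X‖ = ‖X - a‖ := Padic.norm_eq_of_norm_sub_lt_right (by simpa [ha] using h1)
    refine Q.even le_rfl ((Q.of_close (x := X - b) (y := X) (by simpa [hb, f0] using h1)
      le_rfl).cancel le_rfl (r := d₃ * s₀ * s₃) ?_)
    rw [e3]; nth_rewrite 1 [e0]; ring

theorem norm_int {n : ℤ} (h : ¬(p : ℤ) ∣ n) : ‖(n : ℚ_[p])‖ = 1 :=
  le_antisymm (Padic.norm_int_le_one n) (not_lt.1 (mt Padic.norm_intCast_lt_one_iff.1 h))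

theorem val_one {n : ℤ} (h : (p : ℤ) ∣ n) (h2 : ¬(p : ℤ) ^ 2 ∣ n) :
    (n : ℚ_[p]).valuation = 1 := by
  rw [Padic.valuation_intCast]
  have h1 := (padicValInt_dvd_iff (p := p) 1 n).1 (by simpa using h)
  rw [padicValInt_dvd_iff] at h2
  omega

theorem even_iff {n : ℤ} (hn : Squarefree n) : Even (n : ℚ_[p]).valuation ↔ ¬(p : ℤ) ∣ n := by
  constructor
  · intro he h
    rw [val_one h fun h2 => (Nat.prime_iff_prime_int.1 hp.out).not_isUnit
      (hn _ (by rwa [← sq]))] at he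
    exact absurd he (by decide)
  · intro h
    rw [val_unit (norm_int h)]
    exact ⟨0, rfl⟩

theorem extract {k : ℕ} (hk : 1 ≤ k) {m : ℤ} (hm : ¬(p : ℤ) ∣ m)
    (h : Q ((p : ℝ) ^ (-(k : ℤ) + 1)) (m : ℚ_[p])) : ∃ r : ℤ, (p : ℤ) ^ k ∣ m - r ^ 2 := by
  obtain ⟨s, hs, h⟩ := h
  have hp1 : (1 : ℝ) < p := by exact_mod_cast hp.out.one_lt
  have h1 : ‖(m : ℚ_[p]) / s ^ 2‖ = 1 := by
    have := Padic.norm_eq_of_norm_sub_lt_right (z1 := (m : ℚ_[p]) / s ^ 2) (z2 := 1)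
      (by rw [norm_one]; exact h.trans_le (zpow_le_one_of_nonpos₀ hp1.le (by omega)))
    simpa using this
  rw [norm_div, norm_int hm, norm_pow, div_eq_one_iff_eq (by positivity)] at h1
  have hs1 : ‖s‖ = 1 := by nlinarith [norm_nonneg s]
  rw [← Padic.norm_le_pow_iff_norm_lt_pow_add_one] at h
  let z : ℤ_[p] := ⟨s, hs1.le⟩
  have hz : ‖s - (z.appr k : ℚ_[p])‖ ≤ (p : ℝ) ^ (-(k : ℤ)) :=
    ((z - z.appr k).norm_le_pow_iff_mem_span_pow k).2 (z.appr_spec k)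
  refine ⟨z.appr k, ?_⟩
  rw [← Padic.norm_int_le_pow_iff_dvd]
  have e : (((m - (z.appr k : ℤ) ^ 2 : ℤ)) : ℚ_[p]) =
      ((m : ℚ_[p]) / s ^ 2 - 1) * s ^ 2 + (s - z.appr k) * (s + z.appr k) := by
    push_cast; field_simp; ring
  rw [e]
  refine (IsUltrametricDist.norm_add_le_max _ _).trans (max_le ?_ ?_)
  · rwa [norm_mul, norm_pow, hs1, one_pow, mul_one]
  · rw [norm_mul]
    refine (mul_le_of_le_one_right (norm_nonneg _) ?_).trans hz
    refine (IsUltrametricDist.norm_add_le_max _ _).trans (max_le hs1.le ?_)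
    exact_mod_cast Padic.norm_int_le_one (p := p) (z.appr k : ℤ)

theorem gcd_one {m : ℤ} (hm : ¬(p : ℤ) ∣ m) : m.gcd p = 1 := by
  rw [Int.gcd_comm, ← Int.isCoprime_iff_gcd_eq_one]
  exact (Nat.prime_iff_prime_int.1 hp.out).irreducible.coprime_iff_not_dvd.2 hm

theorem jac_of_sq {m r : ℤ} (hm : ¬(p : ℤ) ∣ m) (h : (p : ℤ) ∣ m - r ^ 2) : jacobiSym m p = 1 := by
  have hr : ¬(p : ℤ) ∣ r := fun hr => hm (by simpa using h.add (hr.pow two_ne_zero))
  rw [jacobiSym.mod_left' (a₂ := r ^ 2) (Int.modEq_iff_dvd.2 h).symm,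
    jacobiSym.sq_one' (gcd_one hr)]

theorem jac_of_Q {m : ℤ} (hm : ¬(p : ℤ) ∣ m) (h : Q 1 (m : ℚ_[p])) : jacobiSym m p = 1 := by
  obtain ⟨r, hr⟩ := extract (k := 1) le_rfl hm (by simpa using h)
  exact jac_of_sq hm (by simpa using hr)

end padic

theorem swap {K : Type} [Field K] {a b d₂ d₃ : K} (h : Sol2 a b d₂ d₃) : Sol2 b a d₃ d₂ := by
  obtain ⟨z₀, z₂, z₃, t, hne, e2, e3⟩ := h
  exact ⟨z₀, z₃, z₂, t, fun h => hne ⟨h.1, h.2.2.1, h.2.1, h.2.2.2⟩, by linear_combination e3,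
    by linear_combination e2⟩

theorem scale {K : Type} [Field K] {a b d₂ d₃ n₂ n₃ s r : K} (hs : s ≠ 0) (hr : r ≠ 0)
    (e2 : d₂ = n₂ * s ^ 2) (e3 : d₃ = n₃ * r ^ 2) (h : Sol2 a b d₂ d₃) : Sol2 a b n₂ n₃ := by
  obtain ⟨z₀, z₂, z₃, t, hne, f2, f3⟩ := h
  subst e2 e3
  refine ⟨s * r * z₀, s * z₂, r * z₃, t, fun h => hne ?_, by linear_combination f2,
    by linear_combination f3⟩
  simpa [hs, hr] using h

theorem real_aux {a b d₂ d₃ : ℝ} (ha : 0 < a) (h2 : 0 < d₂) (h3 : d₃ < 0)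
    (h : Sol2 a b d₂ d₃) : False := by
  obtain ⟨z₀, z₂, z₃, t, hne, f2, f3⟩ := h
  have h0 : 0 < -(d₂ * d₃) := by nlinarith
  have p0 := mul_nonneg h0.le (sq_nonneg z₀)
  have p2 := mul_nonneg h2.le (sq_nonneg z₂)
  have pt := mul_nonneg ha.le (sq_nonneg t)
  have e0 : z₀ = 0 := by
    have : -(d₂ * d₃) * z₀ ^ 2 = 0 := by linarith
    simpa [h2.ne', h3.ne] using this
  have e2 : z₂ = 0 := by
    have : d₂ * z₂ ^ 2 = 0 := by linarith
    simpa [h2.ne'] using this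
  have et : t = 0 := by
    have : a * t ^ 2 = 0 := by linarith
    simpa [ha.ne'] using this
  subst e0 e2 et
  exact hne ⟨rfl, rfl, by simpa [h3.ne] using f3, rfl⟩

theorem exists_sqf {d : ℚ} (hd : d ≠ 0) :
    ∃ (n : ℤ) (s : ℚ), Squarefree n ∧ s ≠ 0 ∧ d = n * s ^ 2 := by
  have h0 : d.num * d.den ≠ 0 := mul_ne_zero (Rat.num_ne_zero.2 hd) (by exact_mod_cast d.den_nz)
  obtain ⟨a, b, -, hb, hab, ha⟩ := Nat.sq_mul_squarefree_of_pos (Int.natAbs_pos.2 h0)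
  have hden : (d.den : ℚ) ≠ 0 := by exact_mod_cast d.den_nz
  have hb' : (b : ℚ) ≠ 0 := by exact_mod_cast hb.ne'
  have e : d = ((d.num * d.den : ℤ) : ℚ) / d.den ^ 2 := by
    push_cast
    rw [← Rat.mul_den_eq_num d]; field_simp
  rcases Int.natAbs_eq (d.num * d.den) with h | h
  · refine ⟨a, b / d.den, Int.squarefree_natCast.2 ha, div_ne_zero hb' hden, ?_⟩
    rw [h, ← hab] at e
    refine e.trans ?_
    push_cast; ring
  · refine ⟨-a, b / d.den, ?_, div_ne_zero hb' hden, ?_⟩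
    · rw [← Int.squarefree_natAbs]; simpa using ha
    · rw [h, ← hab] at e
      refine e.trans ?_
      push_cast; ring

section int

variable {p : ℕ} [hp : Fact p.Prime] {a b n₂ n₃ : ℤ} (h2 : Squarefree n₂) (h3 : Squarefree n₃)
  (h : Sol2 (a : ℚ_[p]) b n₂ n₃)
include h2 h3 h

theorem int_good (ha : ¬(p : ℤ) ∣ a) (hb : ¬(p : ℤ) ∣ b) (hδ : ¬(p : ℤ) ∣ a - b) :
    ¬(p : ℤ) ∣ n₂ :=
  (even_iff h2).1 (good (by exact_mod_cast h2.ne_zero) (by exact_mod_cast h3.ne_zero) h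
    (norm_int ha) (norm_int hb) (by exact_mod_cast norm_int hδ))

theorem int_one (ha : (p : ℤ) ∣ a) (ha2 : ¬(p : ℤ) ^ 2 ∣ a) (hb : ¬(p : ℤ) ∣ b) :
    ¬(p : ℤ) ∣ n₃ ∧ jacobiSym ((if (p : ℤ) ∣ n₂ then -b else 1) * n₃) p = 1 := by
  have ha0 : a ≠ 0 := by rintro rfl; simp at ha2
  obtain ⟨e, h⟩ := cls_one (by exact_mod_cast h2.ne_zero) (by exact_mod_cast h3.ne_zero) h
    (by exact_mod_cast ha0) (val_one ha ha2) (norm_int hb)
  rw [even_iff h3] at e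
  refine ⟨e, ?_⟩
  rcases h with ⟨o, q⟩ | ⟨o, q⟩
  · rw [← Int.not_even_iff_odd, even_iff h2, not_not] at o
    rw [if_pos o]
    refine jac_of_Q (fun hd => ?_) (by exact_mod_cast q)
    rcases (Nat.prime_iff_prime_int.1 hp.out).dvd_or_dvd hd with hd | hd
    · exact hb (by simpa using hd)
    · exact e hd
  · rw [even_iff h2] at o
    rw [if_neg o, one_mul]
    exact jac_of_Q e q

theorem int_zero {η : ℝ} (h0 : 0 < η) (hη : η ≤ 1) (ha : ¬(p : ℤ) ∣ a) {r : ℤ}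
    (hr : ‖((a - r ^ 2 : ℤ) : ℚ_[p])‖ < η) (hδ : ‖((a - b : ℤ) : ℚ_[p])‖ < η ^ 2) :
    ((p : ℤ) ∣ n₂ ↔ (p : ℤ) ∣ n₃) ∧
      ∀ d e : ℤ, n₂ * n₃ = d * e ^ 2 → Q η (d : ℚ_[p]) := by
  have g2 : (n₂ : ℚ_[p]) ≠ 0 := by exact_mod_cast h2.ne_zero
  have g3 : (n₃ : ℚ_[p]) ≠ 0 := by exact_mod_cast h3.ne_zero
  have hn := norm_int ha
  have qa : Q η (a : ℚ_[p]) := by
    have h1 : ‖(r : ℚ_[p]) ^ 2 - a‖ < η * ‖(a : ℚ_[p])‖ := by
      rw [hn, mul_one, norm_sub_rev]; exact_mod_cast hr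
    exact (Q.of_close h1 hη).cancel hη (mul_comm _ _)
  have q := cls_zero h0 hη g2 g3 h hn qa (by exact_mod_cast hδ)
  refine ⟨?_, fun d e hd => q.cancel hη (r := e) (by exact_mod_cast hd)⟩
  have := q.even hη
  rw [Padic.valuation_mul g2 g3, Int.even_add, even_iff h2, even_iff h3] at this
  tauto

end int

end Loc

end Pool.Agent.MP_a43263_nt.R2
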