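import Mathlib.Algebra.Ring.IsFormallyReal
import Pool.Agent.MP_a43263_nt.R2.Basic

/-! PROJECT RANK2, module CNT: the count of the kernel (section B2 of the blueprint). -/

set_option autoImplicit false

noncomputable section

namespace Pool.Agent.MP_a43263_nt.R2

open Finset

namespace Cnt

/-! ### general facts on subsets and sign matrices -/

section
variable {ι : Type} [DecidableEq ι]

theorem sum_powerset_union {A B : Finset ι} (h : Disjoint A B) (F : Finset ι → ℝ) :
    ∑ U ∈ (A ∪ B).powerset, F U = ∑ T ∈ B.powerset, ∑ W ∈ A.powerset, F (W ∪ T) := by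
  rw [← sum_product']
  refine sum_nbij' (fun U => (U ∩ B, U ∩ A)) (fun p => p.2 ∪ p.1) ?_ ?_ ?_ ?_ ?_
  · intro U _
    simp only [mem_product, mem_powerset]
    exact ⟨inter_subset_right, inter_subset_right⟩
  · intro p hp
    simp only [mem_product, mem_powerset] at hp ⊢
    exact union_subset_union hp.2 hp.1
  · intro U hU
    simp only [mem_powerset] at hU
    rw [← inter_union_distrib_left, inter_eq_left.2 hU]
  · intro p hp
    simp only [mem_product, mem_powerset] at hp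
    have h1 : p.2 ∩ B = ∅ := disjoint_iff_inter_eq_empty.1 (h.mono_left hp.2)
    have h2 : p.1 ∩ A = ∅ := disjoint_iff_inter_eq_empty.1 (h.symm.mono_left hp.1)
    rw [union_inter_distrib_right, union_inter_distrib_right, h1, h2, inter_eq_left.2 hp.1,
      inter_eq_left.2 hp.2, empty_union, union_empty]
  · intro U hU
    simp only [mem_powerset] at hU
    rw [← inter_union_distrib_left, inter_eq_left.2 hU]

/-- the vector `x` satisfies the rows in `B` -/
def Rows (g : ι → ι → ℤ) (B x : Finset ι) : Prop := ∀ b ∈ B, ∏ a ∈ x, g a b = 1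

instance (g : ι → ι → ℤ) (B x : Finset ι) : Decidable (Rows g B x) := by
  unfold Rows; infer_instance

variable {g : ι → ι → ℤ}

theorem Rows.symmDiff (hg : Sgn g) {B x z : Finset ι} (hx : Rows g B x) (hz : Rows g B z) :
    Rows g B (symmDiff x z) := fun b hb => by
  rw [prod_symmDiff (fun a => hg.2 a b), hx b hb, hz b hb, mul_one]

/-- a coset is not larger than the subgroup -/
theorem coset (hg : Sgn g) (A B z : Finset ι) :
    (A.powerset.filter fun U => Rows g B (symmDiff U z)).card ≤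
      (A.powerset.filter fun U => Rows g B U).card := by
  rcases (A.powerset.filter fun U => Rows g B (symmDiff U z)).eq_empty_or_nonempty with h | ⟨U₀, h⟩
  · rw [h]; exact Nat.zero_le _
  · rw [mem_filter, mem_powerset] at h
    refine card_le_card_of_injOn (fun U => symmDiff U U₀) ?_ ?_
    · intro U hU
      simp only [coe_filter, mem_powerset, Set.mem_ofPred_eq] at hU ⊢
      refine ⟨symmDiff_subset_union.trans (union_subset hU.1 h.1), ?_⟩
      have := hU.2.symmDiff hg h.2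
      rwa [symmDiff_symmDiff_symmDiff_comm, symmDiff_self, symmDiff_bot] at this
    · intro U _ U' _ e
      exact symmDiff_left_injective U₀ e

theorem sum_chi (hg : Sgn g) (B x : Finset ι) :
    ∑ W ∈ B.powerset, (chi g x W : ℝ) = if Rows g B x then 2 ^ B.card else 0 := by
  have h := sum_powerset_prod_sgn (f := fun b => ∏ a ∈ x, g a b) B
    fun b _ => prod_sgn x fun a _ => hg.2 a b
  have h2 : ∑ W ∈ B.powerset, (chi g x W : ℝ) =
      ((∑ W ∈ B.powerset, ∏ b ∈ W, ∏ a ∈ x, g a b : ℤ) : ℝ) := by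
    rw [Int.cast_sum]
    exact sum_congr rfl fun W _ => by rw [chi_eq_rows]
  rw [h2, h]
  by_cases k : Rows g B x
  · rw [if_pos k, if_pos (show ∀ b ∈ B, _ from k)]; norm_num
  · rw [if_neg k, if_neg (show ¬∀ b ∈ B, _ from k)]; norm_num

/-- duality -/
theorem dual (hg : Sgn g) (A B : Finset ι) :
    (2 : ℝ) ^ B.card * (A.powerset.filter (Rows g B)).card =
      2 ^ A.card * (B.powerset.filter (Rows g A)).card := by
  have h : ∀ A B : Finset ι, (2 : ℝ) ^ B.card * (A.powerset.filter (Rows g B)).card =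
      ∑ x ∈ A.powerset, ∑ W ∈ B.powerset, (chi g x W : ℝ) := fun A B => by
    rw [sum_congr rfl fun x _ => sum_chi hg B x, ← sum_filter, sum_const, nsmul_eq_mul, mul_comm]
  rw [h, h, sum_comm]
  exact sum_congr rfl fun x _ => sum_congr rfl fun W _ => by rw [chi_comm hg]

theorem abs_chi (hg : Sgn g) (x y : Finset ι) : (chi g x y : ℝ) ≤ 1 := by
  rcases chi_sgn hg x y with h | h <;> rw [h] <;> norm_num

end

/-! ### finite checks on the tags -/

theorem card_Ys : Ys.card = 64 := by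
  rw [Ys, card_powerset, card_erase_of_mem (mem_univ _)]; simp

theorem partner : ∀ h : Fin 7, h ≠ 6 → ∃ h' : Fin 7, h' ≠ 6 ∧ h' ≠ h ∧ cls h' = cls h := by
  decide

theorem card_two : ∀ i j : Fin 3, i ≠ j → ∀ p q : Fin 2,
    (Ys.filter fun y => Yne i y % 2 = p ∧ Yne j y % 2 = q).card ≤ 16 := by
  decide +kernel

theorem two_odd : ∀ y ∈ Ys, (∀ j, Yne j y % 2 = 0) ∨
    ∃ i : Fin 3, ∀ j, j ≠ i → Yne j y % 2 = 1 := by
  decide +kernel

/-! ### the parametrisation of the subsets -/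

/-- the hypotheses on the set of generators -/
structure Hyp (V : Finset Gen) (Y Y' J : ℕ) : Prop where
  hle : Y ≤ Y'
  hJ : 1 ≤ J
  tag : ∀ a ∈ V, Y < a.2 → a.1 ≠ 6
  one : ∀ h : Fin 7, h ≠ 6 → (V.filter fun a => a.1 = h ∧ Y' < a.2).card = 1
  med : ∀ h : Fin 7, h ≠ 6 → 4 * J ≤ ((md Y Y' V).filter fun a => a.1 = h).card ∧
    ((md Y Y' V).filter fun a => a.1 = h).card ≤ 6 * J

section
variable {V : Finset Gen} {Y Y' J : ℕ}

theorem disj (V : Finset Gen) (Y Y' : ℕ) : Disjoint (le Y V) (md Y Y' V) :=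
  disjoint_left.2 fun _ h h' => not_lt.2 (mem_le.1 h).2 (mem_md.1 h').2.1

theorem Hyp.split (H : Hyp V Y Y' J) : le Y' V = le Y V ∪ md Y Y' V := by
  ext a
  have := H.hle
  simp only [mem_union, mem_le, mem_md, ← and_or_left]
  exact and_congr_right fun _ => by omega

theorem Hyp.md_tag (H : Hyp V Y Y' J) {a : Gen} (ha : a ∈ md Y Y' V) : a.1 ≠ 6 :=
  H.tag a (mem_md.1 ha).1 (mem_md.1 ha).2.1

theorem Hyp.card_V (H : Hyp V Y Y' J) : V.card = (le Y V).card + (md Y Y' V).card + 6 := by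
  rw [← card_union_of_disjoint (disj V Y Y'), ← H.split,
    ← card_filter_add_card_filter_not (s := V) (fun a => a.2 ≤ Y')]
  congr 1
  rw [card_eq_sum_card_fiberwise (f := fun a : Gen => a.1) (t := univ.erase 6)]
  · rw [sum_congr rfl (g := fun _ => 1)]
    · simp
    · intro h hh
      rw [← H.one h (ne_of_mem_erase hh), filter_filter]
      exact congrArg _ (filter_congr fun a _ => by rw [not_le, and_comm])
  · intro a ha
    simp only [coe_filter, Set.mem_ofPred_eq, not_le] at ha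
    simpa using H.tag a ha.1 (H.hle.trans_lt ha.2)

theorem mem_large {U : Finset Gen} (hU : U ⊆ le Y' V) (y : Finset (Fin 7)) {a : Gen}
    (ha : a ∈ V) (hl : Y' < a.2) : a ∈ symmDiff U (ones V y) ↔ a.1 ∈ y := by
  have : a ∉ U := fun h => not_lt.2 (mem_le.1 (hU h)).2 hl
  simp [mem_symmDiff, this, mem_ones, ha]

theorem Hyp.large (H : Hyp V Y Y' J) {h : Fin 7} (hh : h ≠ 6) :
    ∃ a ∈ V, a.1 = h ∧ Y' < a.2 := by
  obtain ⟨a, ha⟩ := card_pos.1 ((H.one h hh).symm ▸ Nat.one_pos :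
    0 < (V.filter fun a => a.1 = h ∧ Y' < a.2).card)
  exact ⟨a, (mem_filter.1 ha).1, (mem_filter.1 ha).2⟩

theorem Hyp.large_eq (H : Hyp V Y Y' J) {a b : Gen} (ha : a ∈ V) (hb : b ∈ V) (h1 : Y' < a.2)
    (h2 : Y' < b.2) (e : a.1 = b.1) : a = b :=
  card_le_one.1 (H.one a.1 (H.tag a ha (H.hle.trans_lt h1))).le a (mem_filter.2 ⟨ha, rfl, h1⟩) b
    (mem_filter.2 ⟨hb, e.symm, h2⟩)

theorem Hyp.sum_param (H : Hyp V Y Y' J) (F : Finset Gen → ℝ) :
    ∑ y ∈ Ys, ∑ U ∈ (le Y' V).powerset, F (symmDiff U (ones V y)) = ∑ x ∈ V.powerset, F x := by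
  rw [← sum_product']
  refine sum_bij (fun p _ => symmDiff p.2 (ones V p.1)) ?_ ?_ ?_ fun _ _ => rfl
  · intro p hp
    simp only [mem_product, mem_powerset] at hp ⊢
    exact symmDiff_subset_union.trans
      (union_subset (hp.2.trans (filter_subset _ _)) (filter_subset _ _))
  · intro p hp q hq e
    simp only [mem_product, mem_powerset, mem_Ys] at hp hq
    have h1 : p.1 = q.1 := by
      ext h
      by_cases hh : h = 6
      · rw [hh]; exact iff_of_false hp.1 hq.1
      · obtain ⟨a, ha, rfl, hl⟩ := H.large hh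
        rw [← mem_large hp.2 p.1 ha hl, ← mem_large hq.2 q.1 ha hl, e]
    rw [h1] at e
    exact Prod.ext h1 (symmDiff_left_injective _ e)
  · intro x hx
    rw [mem_powerset] at hx
    obtain ⟨y, hy⟩ : ∃ y : Finset (Fin 7), ∀ h, h ∈ y ↔ ∃ a ∈ x, Y' < a.2 ∧ a.1 = h :=
      ⟨(x.filter fun a => Y' < a.2).image fun a => a.1, fun h => by
        simp only [mem_image, mem_filter, and_assoc]⟩
    refine ⟨(y, symmDiff x (ones V y)), mem_product.2 ⟨mem_Ys.2 fun k => ?_,
      mem_powerset.2 fun a ha => ?_⟩, symmDiff_symmDiff_cancel_right (ones V y) x⟩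
    · obtain ⟨a, h1, h2, h3⟩ := (hy 6).1 k
      exact H.tag a (hx h1) (H.hle.trans_lt h2) h3
    have haV : a ∈ V :=
      symmDiff_subset_union.trans (union_subset hx (filter_subset _ _)) ha
    refine mem_le.2 ⟨haV, not_lt.1 fun hl => ?_⟩
    simp only [mem_symmDiff, mem_ones, hy] at ha
    rcases ha with ⟨h1, h2⟩ | ⟨⟨-, b, h1, h2, h3⟩, h4⟩
    · exact h2 ⟨haV, a, h1, hl, rfl⟩
    · exact h4 (H.large_eq (hx h1) haV h2 hl h3 ▸ h1)

/-- the medium generators of one class -/
def cl (W : Finset Gen) (i : Fin 3) : Finset Gen := W.filter fun a => cls a.1 = i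

theorem Hyp.card_cl (H : Hyp V Y Y' J) (i : Fin 3) :
    2 * (cl (md Y Y' V) i).card + 4 * J ≤ (md Y Y' V).card := by
  have h1 : ∀ W : Finset Gen, W.card = ∑ h, (W.filter fun a => a.1 = h).card := fun W =>
    card_eq_sum_card_fiberwise fun _ _ => mem_univ _
  have h2 : ∀ h, ((cl (md Y Y' V) i).filter fun a => a.1 = h).card =
      if cls h = i then ((md Y Y' V).filter fun a => a.1 = h).card else 0 := fun h => by
    rw [cl, filter_filter]
    split_ifs with k
    · exact congrArg _ (filter_congr fun a _ => and_iff_right_of_imp fun e => by rw [e, k])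
    · rw [card_eq_zero, filter_eq_empty_iff]
      rintro a - ⟨e1, e2⟩
      exact k (e2 ▸ e1)
  have h6 : ((md Y Y' V).filter fun a => a.1 = 6).card = 0 := by
    rw [card_eq_zero, filter_eq_empty_iff]
    exact fun a ha => H.md_tag ha
  have m0 := H.med 0 (by decide)
  have m1 := H.med 1 (by decide)
  have m2 := H.med 2 (by decide)
  have m3 := H.med 3 (by decide)
  have m4 := H.med 4 (by decide)
  have m5 := H.med 5 (by decide)
  rw [h1 (cl _ _), h1 (md Y Y' V), sum_congr rfl fun h _ => h2 h, Fin.sum_univ_seven,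
    Fin.sum_univ_seven, h6]
  have h3 : i = 0 ∨ i = 1 ∨ i = 2 := by omega
  rcases h3 with rfl | rfl | rfl <;> simp only [cls] <;> simp <;> omega

/-! ### the terms that do not oscillate -/

variable {y y' : Finset (Fin 7)} {U T : Finset Gen}

theorem nosc {W : Finset Gen} (h : ¬Osc y y' (pat W U T)) {s t : Gen} (hs : s ∈ W) (ht : t ∈ W)
    (hne : s.1 ≠ t.1) : Even (expo y y' (tl U T s) (tl U T t)) :=
  Nat.not_odd_iff_even.1 fun k =>
    h ⟨_, mem_image_of_mem _ hs, _, mem_image_of_mem _ ht, hne, k⟩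

theorem Hyp.beta (H : Hyp V Y Y' J) (h : ¬Osc y y' (pat (md Y Y' V) U T)) {t : Gen}
    (ht : t ∈ md Y Y' V) : Even ((decide (t ∈ T)).toNat * Yne (cls t.1) y +
      (decide (t ∈ U)).toNat * Yne (cls t.1) y') := by
  obtain ⟨h', k1, k2, k3⟩ := partner t.1 (H.md_tag ht)
  have := H.hJ
  obtain ⟨s, hs⟩ := card_pos.1 (lt_of_lt_of_le (by omega) (H.med h' k1).1)
  rw [mem_filter] at hs
  have := nosc h hs.1 ht (hs.2 ▸ k2)
  simpa only [expo, tl, hs.2, k3, if_true, zero_add] using this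

theorem Hyp.alpha (H : Hyp V Y Y' J) (h : ¬Osc y y' (pat (md Y Y' V) U T)) {s t : Gen}
    (hs : s ∈ md Y Y' V) (ht : t ∈ md Y Y' V) (hne : cls s.1 ≠ cls t.1) :
    (s ∈ U ∧ t ∈ T) ↔ (s ∈ T ∧ t ∈ U) := by
  have h1 := nosc h hs ht fun e => hne (by rw [e])
  have h2 := H.beta h ht
  simp only [expo, tl, if_neg hne, add_assoc] at h1
  rw [← add_assoc, Nat.even_add, iff_true_right h2] at h1
  by_cases a : s ∈ U <;> by_cases b : t ∈ T <;> by_cases c : s ∈ T <;> by_cases d : t ∈ U <;>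
    simp [a, b, c, d] at h1 ⊢

open Classical in
/-- the data that do not oscillate -/
def NO (W : Finset Gen) (y : Finset (Fin 7)) (U : Finset Gen) :
    Finset (Finset (Fin 7) × Finset Gen) :=
  (Ys ×ˢ W.powerset).filter fun p => ¬Osc y p.1 (pat W U p.2)

theorem mem_NO {W : Finset Gen} {p : Finset (Fin 7) × Finset Gen} :
    p ∈ NO W y U ↔ (p.1 ∈ Ys ∧ p.2 ⊆ W) ∧ ¬Osc y p.1 (pat W U p.2) := by
  simp only [NO, mem_filter, mem_product, mem_powerset]

/-- type (G): two classes are met -/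
theorem Hyp.card_G (H : Hyp V Y Y' J) {s t : Gen} (hs : s ∈ md Y Y' V) (ht : t ∈ md Y Y' V)
    (hne : cls s.1 ≠ cls t.1) (su : s ∈ U) (tu : t ∈ U) : (NO (md Y Y' V) y U).card ≤ 32 := by
  have two : ∀ n : ℕ, n % 2 < 2 := fun n => Nat.mod_lt _ two_pos
  have c1 := card_two _ _ hne 0 0
  have c2 := card_two _ _ hne ⟨_, two (Yne (cls s.1) y)⟩ ⟨_, two (Yne (cls t.1) y)⟩
  refine (card_le_card (t := (Ys.filter fun z => Yne (cls s.1) z % 2 = (0 : Fin 2) ∧
      Yne (cls t.1) z % 2 = (0 : Fin 2)) ×ˢ {∅} ∪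
    (Ys.filter fun z => Yne (cls s.1) z % 2 = Yne (cls s.1) y % 2 ∧
      Yne (cls t.1) z % 2 = Yne (cls t.1) y % 2) ×ˢ {U ∩ md Y Y' V}) ?_).trans ?_
  · rintro ⟨z, T⟩ hp
    obtain ⟨⟨h1, h2⟩, h⟩ := mem_NO.1 hp
    simp only at h1 h2 h
    have e1 : s ∈ T ↔ t ∈ T := by
      have := H.alpha h hs ht hne
      tauto
    have e2 : ∀ r ∈ md Y Y' V, r ∈ T ↔ s ∈ T ∧ r ∈ U := fun r hr => by
      by_cases k : cls s.1 = cls r.1
      · have := H.alpha h ht hr (k ▸ hne.symm)
        tauto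
      · have := H.alpha h hs hr k
        tauto
    have b1 := Nat.even_iff.1 (H.beta h hs)
    have b2 := Nat.even_iff.1 (H.beta h ht)
    simp only [mem_union, mem_product, mem_filter, mem_singleton]
    by_cases k : s ∈ T
    · refine .inr ⟨⟨h1, ?_, ?_⟩, ?_⟩
      · simp only [k, su, decide_true, Bool.toNat_true, one_mul] at b1
        omega
      · simp only [e1.1 k, tu, decide_true, Bool.toNat_true, one_mul] at b2
        omega
      · ext r
        rw [mem_inter]
        exact ⟨fun hr => ⟨((e2 r (h2 hr)).1 hr).2, h2 hr⟩, fun hr => (e2 r hr.2).2 ⟨k, hr.1⟩⟩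
    · refine .inl ⟨⟨h1, ?_, ?_⟩, ?_⟩
      · simpa [k, su] using b1
      · simpa [mt e1.2 k, tu] using b2
      · exact eq_empty_of_forall_notMem fun r hr => k ((e2 r (h2 hr)).1 hr).1
  · refine (card_union_le _ _).trans ?_
    rw [card_product, card_product, card_singleton, card_singleton]
    simp only at c2
    omega

theorem card_N {W : Finset Gen} {i : Fin 3}
    (h : ∀ p ∈ NO W y U, ∀ t ∈ p.2, cls t.1 = i) : (NO W y U).card ≤ 64 * 2 ^ (cl W i).card := by
  rw [← card_Ys, ← card_powerset, ← card_product]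
  refine card_le_card fun p hp => ?_
  obtain ⟨⟨h1, h2⟩, -⟩ := mem_NO.1 hp
  exact mem_product.2 ⟨h1, mem_powerset.2 fun t ht => mem_filter.2 ⟨h2 ht, h p hp t ht⟩⟩

/-- the three types -/
theorem Hyp.types (H : Hyp V Y Y' J) (hy : y ∈ Ys) (U : Finset Gen) :
    (Disjoint U (md Y Y' V) ∧ ∀ j, Yne j y % 2 = 0) ∨ (NO (md Y Y' V) y U).card ≤ 32 ∨
      ∃ i, U ∩ md Y Y' V ⊆ cl (md Y Y' V) i ∧
        (NO (md Y Y' V) y U).card ≤ 64 * 2 ^ (cl (md Y Y' V) i).card := by
  by_cases h0 : Disjoint U (md Y Y' V)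
  · rcases two_odd y hy with k | ⟨i, k⟩
    · exact .inl ⟨h0, k⟩
    · refine .inr (.inr ⟨i, ?_, card_N fun p hp t ht => ?_⟩)
      · rw [disjoint_iff_inter_eq_empty.1 h0]; exact empty_subset _
      · obtain ⟨⟨-, h2⟩, h⟩ := mem_NO.1 hp
        by_contra hne
        have b := Nat.even_iff.1 (H.beta h (h2 ht))
        have := k _ hne
        simp only [ht, disjoint_right.1 h0 (h2 ht), decide_true, decide_false, Bool.toNat_true,
          Bool.toNat_false, one_mul, zero_mul] at b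
        omega
  · obtain ⟨s, su, hs⟩ := not_disjoint_iff.1 h0
    by_cases h1 : ∀ t ∈ U ∩ md Y Y' V, cls t.1 = cls s.1
    · refine .inr (.inr ⟨cls s.1, fun t ht => mem_filter.2 ⟨(mem_inter.1 ht).2, h1 t ht⟩,
        card_N fun p hp t ht => ?_⟩)
      obtain ⟨⟨-, h2⟩, h⟩ := mem_NO.1 hp
      by_contra hne
      exact hne (h1 t (mem_inter.2 ⟨((H.alpha h hs (h2 ht) (Ne.symm hne)).1 ⟨su, ht⟩).2, h2 ht⟩))
    · push Not at h1
      obtain ⟨t, ht, hne⟩ := h1
      exact .inr (.inl (H.card_G hs (mem_inter.1 ht).2 hne.symm su (mem_inter.1 ht).1))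

end

/-! ### the contribution of one vector -/

section
variable {V : Finset Gen} {Y Y' J : ℕ} {g : Gen → Gen → ℤ}

open Classical in
/-- the terms that do not oscillate, for one vector -/
def rest (g : Gen → Gen → ℤ) (Y Y' : ℕ) (V : Finset Gen) (y : Finset (Fin 7)) (U : Finset Gen) :
    ℝ :=
  ∑ y' ∈ Ys, ∑ U' ∈ (le Y' V).powerset,
    if Osc y y' (pat (md Y Y' V) U U') then 0 else term g V y y' U U'

theorem Ker_eq (g : Gen → Gen → ℤ) (V : Finset Gen) : Ker g V = V.powerset.filter (Rows g V) := by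
  ext x
  rw [mem_Ker, mem_filter, mem_powerset, Rows]

theorem Hyp.full (H : Hyp V Y Y' J) (hg : Sgn g) (y : Finset (Fin 7)) (U : Finset Gen) :
    ∑ y' ∈ Ys, ∑ U' ∈ (le Y' V).powerset, term g V y y' U U' =
      if Rows g V (symmDiff U (ones V y)) then 1 else 0 := by
  refine (H.sum_param fun x => (chi g (symmDiff U (ones V y)) x : ℝ) / 2 ^ V.card).trans ?_
  rw [← sum_div, sum_chi hg]
  split_ifs
  · exact div_self (pow_ne_zero _ two_ne_zero)
  · exact zero_div _

theorem Hyp.total (H : Hyp V Y Y' J) (hg : Sgn g) : ((Ker g V).card : ℝ) =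
    osc g Y Y' V + ∑ y ∈ Ys, ∑ U ∈ (le Y' V).powerset, rest g Y Y' V y U := by
  rw [Ker_eq, card_filter, Nat.cast_sum, ← H.sum_param, osc, ← sum_add_distrib]
  refine sum_congr rfl fun y _ => ?_
  rw [sum_comm, ← sum_add_distrib]
  refine sum_congr rfl fun U _ => ?_
  rw [Nat.cast_ite, Nat.cast_one, Nat.cast_zero, ← H.full hg, rest, ← sum_add_distrib]
  refine sum_congr rfl fun y' _ => ?_
  rw [← sum_add_distrib]
  refine sum_congr rfl fun U' _ => ?_
  split_ifs
  · exact (add_zero _).symm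
  · exact (zero_add _).symm

theorem Hyp.rest_R (H : Hyp V Y Y' J) (hg : Sgn g) {y : Finset (Fin 7)} {U : Finset Gen}
    (hU : Disjoint U (md Y Y' V)) (hy : ∀ j, Yne j y % 2 = 0) :
    rest g Y Y' V y U = if Rows g V (symmDiff U (ones V y)) then 1 else 0 := by
  rw [← H.full hg]
  refine sum_congr rfl fun y' _ => sum_congr rfl fun U' _ => if_neg ?_
  rintro ⟨f, hf, k, hk, -, ho⟩
  obtain ⟨s, hs, rfl⟩ := mem_image.1 hf
  obtain ⟨t, ht, rfl⟩ := mem_image.1 hk
  simp only [expo, tl, disjoint_right.1 hU hs, disjoint_right.1 hU ht, decide_false,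
    Bool.toNat_false, zero_mul, mul_zero, add_zero, ite_self, zero_add] at ho
  exact Nat.not_odd_iff_even.2 ((Nat.even_iff.2 (hy _)).mul_left _) ho

theorem union_symmDiff {W T : Finset Gen} (hW : W ⊆ le Y V) (hT : T ⊆ md Y Y' V)
    (z : Finset Gen) : symmDiff (W ∪ T) z = symmDiff W (symmDiff T z) := by
  rw [← symmDiff_assoc, ((disj V Y Y').mono hW hT).symmDiff_eq_sup, sup_eq_union]

theorem Hyp.rest_le (H : Hyp V Y Y' J) (hg : Sgn g) (y : Finset (Fin 7)) (U : Finset Gen) :
    rest g Y Y' V y U ≤ if Rows g (le Y V) (symmDiff U (ones V y)) then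
      ((NO (md Y Y' V) y U).card : ℝ) * (2 ^ (le Y V).card / 2 ^ V.card) else 0 := by
  classical
  have h1 : rest g Y Y' V y U ≤ ∑ p ∈ Ys ×ˢ (md Y Y' V).powerset,
      if ¬Osc y p.1 (pat (md Y Y' V) U p.2) then
        (if Rows g (le Y V) (symmDiff U (ones V y)) then 2 ^ (le Y V).card else 0) / 2 ^ V.card
      else (0 : ℝ) := by
    rw [sum_product, rest, H.split]
    refine sum_le_sum fun y' _ => ?_
    rw [sum_powerset_union (disj V Y Y')]
    refine sum_le_sum fun T hT => ?_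
    have h2 : ∀ W ∈ (le Y V).powerset, pat (md Y Y' V) U (W ∪ T) = pat (md Y Y' V) U T :=
      fun W hW => image_congr fun s hs => by
        simp [tl, disjoint_right.1 ((disj V Y Y').mono_left (mem_powerset.1 hW)) hs]
    rw [sum_congr rfl fun W hW => by rw [h2 W hW]]
    by_cases k : Osc y y' (pat (md Y Y' V) U T)
    · simp [k]
    · simp only [k, if_false, not_false_eq_true, if_true]
      have h3 : ∀ W ∈ (le Y V).powerset, term g V y y' U (W ∪ T) =
          (chi g (symmDiff U (ones V y)) W : ℝ) / 2 ^ V.card *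
            chi g (symmDiff U (ones V y)) (symmDiff T (ones V y')) := fun W hW => by
        rw [term, union_symmDiff (mem_powerset.1 hW) (mem_powerset.1 hT),
          chi_symmDiff_right hg _ W, Int.cast_mul, mul_div_right_comm]
      rw [sum_congr rfl h3, ← sum_mul, ← sum_div, sum_chi hg]
      refine mul_le_of_le_one_right (div_nonneg ?_ (pow_pos two_pos _).le) (abs_chi hg _ _)
      split_ifs
      · exact (pow_pos two_pos _).le
      · rfl
  refine h1.trans (le_of_eq ?_)
  rw [← sum_filter, sum_const, nsmul_eq_mul]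
  split_ifs
  · rfl
  · rw [zero_div, mul_zero]

/-! ### the three sums -/

theorem sum_R (hg : Sgn g) (V S L : Finset Gen) :
    ∑ y ∈ Ys, ∑ U ∈ L.powerset, (if (∀ j, Yne j y % 2 = 0) ∧ U ⊆ S ∧
      Rows g V (symmDiff U (ones V y)) then 1 else 0 : ℝ) ≤
      16 * (S.powerset.filter (Rows g V)).card := by
  have h1 : ∀ y ∈ Ys, ∑ U ∈ L.powerset, (if (∀ j, Yne j y % 2 = 0) ∧ U ⊆ S ∧
      Rows g V (symmDiff U (ones V y)) then 1 else 0 : ℝ) ≤
      if Yne 0 y % 2 = (0 : Fin 2) ∧ Yne 1 y % 2 = (0 : Fin 2) then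
        ((S.powerset.filter (Rows g V)).card : ℝ) else 0 := fun y _ => by
    rw [sum_boole]
    split_ifs with k
    · refine Nat.cast_le.2 ((card_le_card fun U hU => ?_).trans (coset hg S V (ones V y)))
      simp only [mem_filter, mem_powerset] at hU ⊢
      exact hU.2.2
    · rw [filter_false_of_mem fun U _ h => k ⟨h.1 0, h.1 1⟩, card_empty, Nat.cast_zero]
  refine (sum_le_sum h1).trans ?_
  rw [← sum_filter, sum_const, nsmul_eq_mul]
  exact mul_le_mul_of_nonneg_right (by exact_mod_cast card_two 0 1 (by decide) 0 0)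
    (Nat.cast_nonneg _)

theorem Hyp.sum_G (H : Hyp V Y Y' J) (hg : Sgn g) :
    ∑ y ∈ Ys, ∑ U ∈ (le Y' V).powerset, (if Rows g (le Y V) (symmDiff U (ones V y)) then
      32 * (2 ^ (le Y V).card / 2 ^ V.card) else 0 : ℝ) =
      32 * ((le Y V).powerset.filter (Rows g V)).card := by
  refine (H.sum_param fun x => if Rows g (le Y V) x then
    32 * (2 ^ (le Y V).card / 2 ^ V.card) else 0).trans ?_
  have h := dual hg V (le Y V)
  rw [← sum_filter, sum_const, nsmul_eq_mul, mul_left_comm, ← mul_div_assoc,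
    mul_comm _ ((2 : ℝ) ^ (le Y V).card), h, mul_div_cancel_left₀ _ (pow_ne_zero _ two_ne_zero)]

theorem Hyp.sum_N (H : Hyp V Y Y' J) (hg : Sgn g) (i : Fin 3) :
    ∑ y ∈ Ys, ∑ U ∈ (le Y' V).powerset, (if U ∩ md Y Y' V ⊆ cl (md Y Y' V) i ∧
      Rows g (le Y V) (symmDiff U (ones V y)) then
      64 * 2 ^ (cl (md Y Y' V) i).card * (2 ^ (le Y V).card / 2 ^ V.card) else 0 : ℝ) ≤
      64 * (Ker g (le Y V)).card / 16 ^ J := by
  obtain ⟨c, hc⟩ : ∃ c : ℝ, c = 64 * 2 ^ (cl (md Y Y' V) i).card *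
    (2 ^ (le Y V).card / 2 ^ V.card) := ⟨_, rfl⟩
  have c0 : 0 ≤ c := by rw [hc]; positivity
  rw [← hc]
  have h1 : ∀ y ∈ Ys, ∑ U ∈ (le Y' V).powerset, (if U ∩ md Y Y' V ⊆ cl (md Y Y' V) i ∧
      Rows g (le Y V) (symmDiff U (ones V y)) then c else 0) ≤
      2 ^ (cl (md Y Y' V) i).card * ((Ker g (le Y V)).card * c) := fun y _ => by
    rw [H.split, sum_powerset_union (disj V Y Y')]
    have h2 : ∀ T ∈ (md Y Y' V).powerset, ∑ W ∈ (le Y V).powerset,
        (if (W ∪ T) ∩ md Y Y' V ⊆ cl (md Y Y' V) i ∧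
          Rows g (le Y V) (symmDiff (W ∪ T) (ones V y)) then c else 0) ≤
        if T ⊆ cl (md Y Y' V) i then (Ker g (le Y V)).card * c else 0 := fun T hT => by
      rw [← sum_filter, sum_const, nsmul_eq_mul]
      split_ifs with k
      · refine mul_le_mul_of_nonneg_right (Nat.cast_le.2 ?_) c0
        rw [Ker_eq]
        refine (card_le_card fun W hW => ?_).trans (coset hg _ _ (symmDiff T (ones V y)))
        rw [mem_filter] at hW ⊢
        exact ⟨hW.1, union_symmDiff (mem_powerset.1 hW.1) (mem_powerset.1 hT) _ ▸ hW.2.2⟩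
      · rw [filter_false_of_mem fun W _ h => k
          ((subset_inter subset_union_right (mem_powerset.1 hT)).trans h.1), card_empty,
          Nat.cast_zero, zero_mul]
    refine (sum_le_sum h2).trans ?_
    rw [← sum_filter, sum_const, nsmul_eq_mul]
    refine mul_le_mul_of_nonneg_right ?_ (mul_nonneg (Nat.cast_nonneg _) c0)
    have h3 : ((md Y Y' V).powerset.filter (· ⊆ cl (md Y Y' V) i)).card ≤
        2 ^ (cl (md Y Y' V) i).card := by
      rw [← card_powerset]
      exact card_le_card fun T hT => mem_powerset.2 (mem_filter.1 hT).2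
    exact_mod_cast h3
  refine (sum_le_sum h1).trans ?_
  have h4 : (2 : ℝ) ^ (2 * (cl (md Y Y' V) i).card + 4 * J + (le Y V).card + 6) ≤ 2 ^ V.card :=
    pow_le_pow_right₀ one_le_two (by have := H.card_cl i; have := H.card_V; omega)
  have h5 : (16 : ℝ) ^ J = 2 ^ (4 * J) := by rw [pow_mul]; norm_num
  rw [sum_const, card_Ys, nsmul_eq_mul, hc, h5, le_div_iff₀ (pow_pos two_pos _)]
  have h6 := mul_le_mul_of_nonneg_left ((div_le_one (pow_pos two_pos _)).2 h4)
    (show (0 : ℝ) ≤ 64 * (Ker g (le Y V)).card by positivity)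
  refine le_of_eq_of_le ?_ (h6.trans_eq (mul_one _))
  push_cast
  ring

end

end Cnt

open Cnt in
theorem cnt : CNTStmt := by
  intro g hg V Y Y' J h1 h2 h3 h4 h5
  have H : Hyp V Y Y' J := ⟨h1, h2, h3, h4, h5⟩
  have hk : (Ker g V).filter (· ⊆ le Y V) = (le Y V).powerset.filter (Rows g V) := by
    ext x
    rw [mem_filter, mem_filter, mem_Ker, mem_powerset, Rows]
    exact ⟨fun h => ⟨h.2, h.1.2⟩, fun h => ⟨⟨h.1.trans (filter_subset _ _), h.2⟩, h.1⟩⟩
  have hR := sum_R hg V (le Y V) (le Y' V)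
  have hG := H.sum_G hg
  have hN := H.sum_N hg
  obtain ⟨q, hq⟩ : ∃ q : ℝ, q = 2 ^ (le Y V).card / 2 ^ V.card := ⟨_, rfl⟩
  have q0 : 0 ≤ q := by rw [hq]; positivity
  rw [← hq] at hG hN
  have hN' := sum_le_sum (s := univ) fun i _ => hN i
  rw [sum_const, card_univ, Fintype.card_fin, nsmul_eq_mul, sum_comm] at hN'
  rw [sum_congr rfl fun y _ => sum_comm] at hN'
  have key := add_le_add (add_le_add hR hG.le) hN'
  rw [← sum_add_distrib, ← sum_add_distrib] at key
  rw [H.total hg, hk, add_assoc]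
  refine add_le_add_right ((sum_le_sum fun y hy => ?_).trans (key.trans_eq (by push_cast; ring))) _
  rw [← sum_add_distrib, ← sum_add_distrib]
  refine sum_le_sum fun U hU => ?_
  have nn : ∀ (p : Prop) [Decidable p] (c : ℝ), 0 ≤ c → 0 ≤ if p then c else 0 :=
    fun p _ c hc => by
      split_ifs
      · exact hc
      · rfl
  have n1 := nn ((∀ j, Yne j y % 2 = 0) ∧ U ⊆ le Y V ∧ Rows g V (symmDiff U (ones V y))) 1
    zero_le_one
  have n2 := nn (Rows g (le Y V) (symmDiff U (ones V y))) (32 * q) (by positivity)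
  have n3 := fun i => nn (U ∩ md Y Y' V ⊆ cl (md Y Y' V) i ∧
    Rows g (le Y V) (symmDiff U (ones V y))) (64 * 2 ^ (cl (md Y Y' V) i).card * q) (by positivity)
  have n4 := sum_nonneg (s := univ) fun i _ => n3 i
  have hr := H.rest_le hg y U
  rw [← hq] at hr
  rcases H.types hy U with ⟨k1, k2⟩ | k | ⟨i, k1, k2⟩
  · have k3 : U ⊆ le Y V := by
      have := mem_powerset.1 hU
      rw [H.split] at this
      exact fun a ha => (mem_union.1 (this ha)).resolve_right (disjoint_left.1 k1 ha)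
    refine le_add_of_le_of_nonneg (le_add_of_le_of_nonneg (le_of_eq ?_) n2) n4
    rw [H.rest_R hg k1 k2]
    exact if_congr ⟨fun h => ⟨k2, k3, h⟩, fun h => h.2.2⟩ rfl rfl
  · refine le_add_of_le_of_nonneg (le_add_of_nonneg_of_le n1 (hr.trans ?_)) n4
    split_ifs
    · exact mul_le_mul_of_nonneg_right (by exact_mod_cast k) q0
    · rfl
  · refine le_add_of_nonneg_of_le (add_nonneg n1 n2)
      (hr.trans (le_trans ?_ (single_le_sum (fun i _ => n3 i) (mem_univ i))))
    by_cases k : Rows g (le Y V) (symmDiff U (ones V y))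
    · rw [if_pos k, if_pos ⟨k1, k⟩]
      exact mul_le_mul_of_nonneg_right (by exact_mod_cast k2) q0
    · rw [if_neg k]
      exact n3 i

end Pool.Agent.MP_a43263_nt.R2
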