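import Mathlib.Algebra.Order.Chebyshev
import Mathlib.Analysis.CStarAlgebra.Classes
import Mathlib.Analysis.Complex.ExponentialBounds
import Mathlib.RingTheory.PiTensorProduct
import Mathlib.NumberTheory.Harmonic.Bounds
import Pool.Agent.MP_a43263_nt.R2.Spec
import Pool.Agent.MP_a43263_nt.R2.Basic

-- ======== part 0: formerly Pool.Agent.MP_a43263_nt.R2.Bil
section MrgPart0

/-! PROJECT RANK2: the bilinear minor arc bound and the ternary bound. -/

set_option autoImplicit false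

noncomputable section

namespace Pool.Agent.MP_a43263_nt.R2

open Finset Filter

namespace Bil

theorem eR_add (x y : ℝ) : eR (x + y) = eR x * eR y := by
  unfold eR
  rw [← Complex.exp_add]
  congr 1
  push_cast
  ring

theorem eR_zero : eR 0 = 1 := by simp [eR]

theorem eR_int (n : ℤ) : eR n = 1 := by
  unfold eR
  rw [Complex.exp_eq_one_iff]
  exact ⟨n, by push_cast; ring⟩

theorem norm_eR (x : ℝ) : ‖eR x‖ = 1 := by
  have : eR x = Complex.exp (((2 * Real.pi * x : ℝ) : ℂ) * Complex.I) := by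
    unfold eR
    push_cast
    rfl
  rw [this, Complex.norm_exp_ofReal_mul_I]

theorem conj_eR (x : ℝ) : (starRingEnd ℂ) (eR x) = eR (-x) := by
  unfold eR
  rw [← Complex.exp_conj]
  congr 1
  simp [Complex.conj_ofReal, map_ofNat]

theorem eR_nat (n : ℕ) (x : ℝ) : eR (n * x) = eR x ^ n := by
  induction n with
  | zero => simp [eR_zero]
  | succ n ih => rw [Nat.cast_succ, add_mul, one_mul, eR_add, ih, pow_succ]

/-- a lower bound for the distance of `eR t` to one -/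
theorem le_norm_eR_sub_one {t u : ℝ} (n : ℤ) (h0 : 0 ≤ u) (h1 : u ≤ t - n) (h2 : t - n ≤ 1 - u) :
    4 * u ≤ ‖eR t - 1‖ := by
  have e1 : eR t = eR (t - n) := by
    conv_lhs => rw [show t = (t - n) + n by ring, eR_add, eR_int, mul_one]
  have e2 : eR (t - n) = Complex.exp (Complex.I * ((2 * Real.pi * (t - n) : ℝ) : ℂ)) := by
    unfold eR
    congr 1
    push_cast
    ring
  rw [e1, e2, Complex.norm_exp_I_mul_ofReal_sub_one,
    show 2 * Real.pi * (t - n) / 2 = Real.pi * (t - n) by ring]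
  generalize t - n = y at h1 h2
  have hp := Real.pi_pos
  have key : ∀ z : ℝ, u ≤ z → z ≤ 1 / 2 → 2 * u ≤ Real.sin (Real.pi * z) := fun z h3 h4 => by
    have h5 := Real.mul_le_sin (x := Real.pi * z) (mul_nonneg hp.le (h0.trans h3)) (by nlinarith)
    rw [show 2 / Real.pi * (Real.pi * z) = 2 * z by field_simp] at h5
    linarith
  have h6 : 2 * u ≤ Real.sin (Real.pi * y) := by
    rcases le_total y (1 / 2) with h | h
    · exact key y h1 h
    · rw [← Real.sin_pi_sub, show Real.pi - Real.pi * y = Real.pi * (1 - y) by ring]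
      exact key _ (by linarith) (by linarith)
  rw [Real.norm_eq_abs]
  exact le_trans (by linarith) (le_abs_self _)

/-- the geometric sum -/
def gs (m : ℕ) (t : ℝ) : ℂ := ∑ P ∈ Icc 1 m, eR (P * t)

theorem gs_le (m : ℕ) (t : ℝ) : ‖gs m t‖ ≤ m := by
  refine (norm_sum_le _ _).trans ?_
  simp [norm_eR]

theorem gs_mul (m : ℕ) (t : ℝ) : gs m t * (eR t - 1) = eR ((m + 1 : ℕ) * t) - eR t := by
  induction m with
  | zero => simp [gs]
  | succ m ih =>
    unfold gs at ih ⊢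
    rw [sum_Icc_succ_top (by omega), add_mul, ih, eR_nat, eR_nat (m + 1 + 1)]
    ring

theorem gs_le' (m : ℕ) {t u : ℝ} (n : ℤ) (h0 : 0 < u) (h1 : u ≤ t - n) (h2 : t - n ≤ 1 - u) :
    ‖gs m t‖ ≤ 1 / (2 * u) := by
  have h3 := le_norm_eR_sub_one n h0.le h1 h2
  have h4 : ‖gs m t‖ * ‖eR t - 1‖ ≤ 2 := by
    rw [← norm_mul, gs_mul]
    refine (norm_sub_le _ _).trans ?_
    rw [norm_eR, norm_eR]
    norm_num
  rw [le_div_iff₀ (by positivity)]
  nlinarith [norm_nonneg (gs m t)]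

/-- the majorant -/
def Fm (T d s : ℕ) : ℝ := (if s ≤ 2 then (T : ℝ) else 0) + (d : ℝ) / s

theorem Fm_nonneg (T d s : ℕ) : 0 ≤ Fm T d s := by
  unfold Fm
  split_ifs <;> positivity

theorem sum_Fm (T d : ℕ) : ∑ s ∈ range (d + 1), Fm T d s ≤ 3 * T + d * (1 + Real.log d) := by
  unfold Fm
  rw [sum_add_distrib]
  refine add_le_add ?_ ?_
  · rw [← sum_filter, sum_const, nsmul_eq_mul]
    refine mul_le_mul_of_nonneg_right ?_ (Nat.cast_nonneg _)
    have : ((range (d + 1)).filter fun s => s ≤ 2).card ≤ (range 3).card :=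
      card_le_card fun s hs => mem_range.2 (Nat.lt_succ_of_le (mem_filter.1 hs).2)
    rw [card_range] at this
    exact_mod_cast this
  · rw [sum_range_succ']
    have h := harmonic_le_one_add_log d
    simp only [harmonic, Rat.cast_sum, Rat.cast_inv, Rat.cast_natCast] at h
    simp only [Nat.cast_zero, inv_zero, mul_zero, add_zero, div_eq_mul_inv, ← mul_sum]
    exact mul_le_mul_of_nonneg_left h (Nat.cast_nonneg _)

theorem gs_le_Fm {m T d s : ℕ} {t ε : ℝ} (n : ℤ) (hm : m ≤ T) (hs : s < d)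
    (ht : t = s / d + n + ε) (hε : |ε| ≤ 3 / (2 * d)) : ‖gs m t‖ ≤ Fm T d s + Fm T d (d - s) := by
  have hT : ‖gs m t‖ ≤ T := (gs_le m t).trans (by exact_mod_cast hm)
  by_cases h1 : s ≤ 2
  · have := Fm_nonneg T d (d - s)
    have h2 : (0 : ℝ) ≤ (d : ℝ) / s := by positivity
    unfold Fm at this ⊢
    rw [if_pos h1]
    linarith
  by_cases h2 : d - s ≤ 2
  · have := Fm_nonneg T d s
    have h3 : (0 : ℝ) ≤ (d : ℝ) / (d - s : ℕ) := by positivity
    unfold Fm at this ⊢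
    rw [if_pos h2]
    linarith
  obtain ⟨k, hk, k1, k2, k3⟩ : ∃ k : ℕ, 3 ≤ k ∧ k ≤ s ∧ k + s ≤ d ∧ (k = s ∨ k = d - s) :=
    ⟨min s (d - s), by omega, by omega, by omega, by omega⟩
  have hd : (0 : ℝ) < d := by exact_mod_cast (by omega : 0 < d)
  have hk' : (3 : ℝ) ≤ k := by exact_mod_cast hk
  have k1' : (k : ℝ) ≤ s := by exact_mod_cast k1
  have k2' : (k : ℝ) + s ≤ d := by exact_mod_cast k2
  obtain ⟨e1, e2⟩ := abs_le.1 hε
  have e3 : (3 : ℝ) / (2 * d) = (3 / 2) / d := by field_simp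
  have h4 := gs_le' m (t := t) (u := (k / 2) / d) n (by positivity) (by
      rw [ht, show (s : ℝ) / d + n + ε - n = s / d + ε by ring]
      have : (k / 2 : ℝ) / d ≤ s / d - (3 / 2) / d := by
        rw [← sub_div]
        exact div_le_div_of_nonneg_right (by linarith) hd.le
      linarith) (by
      rw [ht, show (s : ℝ) / d + n + ε - n = s / d + ε by ring]
      have : (s : ℝ) / d + (3 / 2) / d + (k / 2) / d ≤ 1 := by
        rw [← add_div, ← add_div, div_le_one hd]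
        linarith
      linarith)
  rw [show 1 / (2 * ((k / 2 : ℝ) / d)) = d / k by field_simp] at h4
  have p1 : (0 : ℝ) ≤ (d : ℝ) / s := by positivity
  have p2 : (0 : ℝ) ≤ (d : ℝ) / (d - s : ℕ) := by positivity
  unfold Fm
  rw [if_neg h1, if_neg h2]
  rcases k3 with rfl | rfl <;> linarith

/-- one block of `d` consecutive frequencies -/
theorem block {T d : ℕ} {a : ℤ} {φ : ℝ} (hd : 1 ≤ d) (ha : a.natAbs.Coprime d)
    (hφ : |φ - a / d| ≤ 1 / (d : ℝ) ^ 2) (ψ : ℝ) (m : ℕ → ℕ) (hm : ∀ j, m j ≤ T) :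
    ∑ j ∈ range d, ‖gs (m j) (ψ + j * φ)‖ ≤ 2 * (3 * T + d * (1 + Real.log d)) := by
  have hd0 : (0 : ℝ) < d := by exact_mod_cast hd
  have hdz : (0 : ℤ) < d := by exact_mod_cast hd
  obtain ⟨r, hr⟩ : ∃ r : ℤ, |ψ * d - r| ≤ 1 / 2 := ⟨_, abs_sub_round _⟩
  let s : ℕ → ℕ := fun j => ((r + j * a) % d).toNat
  have hs0 : ∀ j, (s j : ℤ) = (r + j * a) % d := fun j =>
    Int.toNat_of_nonneg (Int.emod_nonneg _ hdz.ne')
  have hs1 : ∀ j, s j < d := fun j => by
    have := Int.emod_lt_of_pos (r + j * a) hdz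
    rw [← hs0] at this
    exact_mod_cast this
  have hinj : Set.InjOn s (range d : Finset ℕ) := by
    intro j hj j' hj' e
    have h1 : (r + j * a) % d = (r + j' * a) % d := by rw [← hs0, ← hs0, e]
    have h2 : (d : ℤ) ∣ ((j' : ℤ) - j) * a := by
      have := Int.ModEq.dvd h1
      rwa [show r + j' * a - (r + j * a) = ((j' : ℤ) - j) * a by ring] at this
    have h3 : IsCoprime (d : ℤ) a := by
      rw [Int.isCoprime_iff_gcd_eq_one, Int.gcd_comm]
      simpa [Int.gcd] using ha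
    have h4 := h3.dvd_of_dvd_mul_right h2
    have h5 := mem_range.1 (mem_coe.1 hj)
    have h6 := mem_range.1 (mem_coe.1 hj')
    have h7 := Int.eq_zero_of_abs_lt_dvd h4 (by rw [abs_lt]; omega)
    omega
  have h1 : ∀ j ∈ range d, ‖gs (m j) (ψ + j * φ)‖ ≤ Fm T d (s j) + Fm T d (d - s j) := by
    intro j hj
    have hj' : (j : ℝ) ≤ d := by exact_mod_cast (mem_range.1 hj).le
    refine gs_le_Fm ((r + j * a) / d) (ε := (ψ * d - r) / d + j * (φ - a / d)) (hm j) (hs1 j) ?_ ?_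
    · have h2 : ((r + j * a : ℤ) : ℝ) = (s j : ℕ) + d * ((r + j * a) / d : ℤ) := by
        have := Int.emod_add_mul_ediv (r + j * a) d
        rw [← hs0] at this
        exact_mod_cast this.symm
      push_cast at h2
      generalize (((r + j * a) / d : ℤ) : ℝ) = q at h2 ⊢
      have h3 : ((s j : ℕ) : ℝ) = r + j * a - d * q := by linarith
      rw [h3]
      field_simp
      ring
    · refine (abs_add_le _ _).trans ?_
      rw [abs_div, abs_mul, abs_of_pos hd0, abs_of_nonneg (Nat.cast_nonneg j : (0 : ℝ) ≤ j)]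
      have h2 : |ψ * d - r| / d ≤ (1 / 2) / d := div_le_div_of_nonneg_right hr hd0.le
      have h3 : (j : ℝ) * |φ - a / d| ≤ d * (1 / (d : ℝ) ^ 2) :=
        mul_le_mul hj' hφ (abs_nonneg _) hd0.le
      have h4 : (1 / 2 : ℝ) / d + d * (1 / (d : ℝ) ^ 2) = 3 / (2 * d) := by
        field_simp
        norm_num
      linarith
  refine (sum_le_sum h1).trans ?_
  rw [← sum_image (f := fun y => Fm T d y + Fm T d (d - y)) hinj]
  refine (sum_le_sum_of_subset_of_nonneg (t := range (d + 1)) (fun y hy => ?_)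
    fun _ _ _ => add_nonneg (Fm_nonneg _ _ _) (Fm_nonneg _ _ _)).trans ?_
  · obtain ⟨j, -, rfl⟩ := mem_image.1 hy
    exact mem_range.2 ((hs1 j).trans (Nat.lt_succ_self d))
  · have h2 := sum_range_reflect (Fm T d) (d + 1)
    simp only [Nat.add_sub_cancel] at h2
    rw [sum_add_distrib, h2]
    have := sum_Fm T d
    linarith

/-- the lemma of Vinogradov -/
theorem vino {T d : ℕ} {a : ℤ} {φ : ℝ} (hd : 1 ≤ d) (ha : a.natAbs.Coprime d)
    (hφ : |φ - a / d| ≤ 1 / (d : ℝ) ^ 2) (ψ : ℝ) (m : ℕ → ℕ) (hm : ∀ j, m j ≤ T) (L : ℕ) :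
    ∑ j ∈ range L, ‖gs (m j) (ψ + j * φ)‖ ≤
      ((L : ℝ) / d + 1) * (2 * (3 * T + d * (1 + Real.log d))) := by
  have key : ∀ k : ℕ, ∑ j ∈ range (k * d), ‖gs (m j) (ψ + j * φ)‖ ≤
      k * (2 * (3 * T + d * (1 + Real.log d))) := by
    intro k
    induction k with
    | zero => simp
    | succ k ih =>
      rw [Nat.succ_mul, sum_range_add, Nat.cast_succ, add_mul, one_mul]
      refine add_le_add ih (le_trans (le_of_eq (sum_congr rfl fun j _ => ?_))
        (block hd ha hφ (ψ + (k * d : ℕ) * φ) (fun j => m (k * d + j)) fun j => hm _))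
      rw [Nat.cast_add, add_mul, add_assoc]
  have h1 : L ≤ (L / d + 1) * d := by
    have := Nat.lt_div_mul_add (a := L) hd
    rw [add_mul, one_mul]
    omega
  refine (sum_le_sum_of_subset_of_nonneg (range_subset_range.2 h1)
    fun _ _ _ => norm_nonneg _).trans ((key _).trans (mul_le_mul_of_nonneg_right ?_ ?_))
  · push_cast
    exact add_le_add Nat.cast_div_le le_rfl
  · have := Real.log_natCast_nonneg d
    positivity

/-- the expansion of the square -/
theorem sum_sq_le (N x : ℕ) (φ : ℝ) (α : ℕ → ℂ) (hN : 1 ≤ N) (hα : ∀ n, ‖α n‖ ≤ 1) :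
    ∑ P ∈ Icc 1 (x / N), ‖∑ c ∈ Ioc N (2 * N), if P ≤ x / c then α c * eR (c * P * φ) else 0‖ ^ 2 ≤
      ∑ c' ∈ Ioc N (2 * N), ∑ c ∈ Ioc N (2 * N), ‖gs (min (x / c) (x / c')) ((c - c') * φ)‖ := by
  have h1 : ((∑ P ∈ Icc 1 (x / N),
      ‖∑ c ∈ Ioc N (2 * N), if P ≤ x / c then α c * eR (c * P * φ) else 0‖ ^ 2 : ℝ) : ℂ) =
      ∑ c' ∈ Ioc N (2 * N), ∑ c ∈ Ioc N (2 * N),
        α c * (starRingEnd ℂ) (α c') * gs (min (x / c) (x / c')) ((c - c') * φ) := by
    push_cast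
    simp only [← Complex.mul_conj', map_sum, sum_mul_sum]
    rw [sum_comm]
    refine (sum_congr rfl fun c _ => sum_comm).trans (sum_comm.trans ?_)
    refine sum_congr rfl fun c' _ => sum_congr rfl fun c hc => ?_
    have hc1 : x / c ≤ x / N := Nat.div_le_div_left (mem_Ioc.1 hc).1.le hN
    have e : Icc 1 (min (x / c) (x / c')) =
        (Icc 1 (x / N)).filter fun P => P ≤ x / c ∧ P ≤ x / c' := by
      ext P
      simp only [mem_Icc, mem_filter]
      omega
    rw [gs, e, sum_filter, mul_sum]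
    refine sum_congr rfl fun P _ => ?_
    by_cases h1 : P ≤ x / c <;> by_cases h2 : P ≤ x / c' <;> simp only [h1, h2, if_true, if_false,
      and_self, and_true, and_false, map_zero, mul_zero, zero_mul, map_mul, conj_eR]
    rw [show (P : ℝ) * ((c - c') * φ) = c * P * φ + -(c' * P * φ) by ring, eR_add]
    ring
  refine le_trans (le_abs_self _) ?_
  rw [← Real.norm_eq_abs, ← Complex.norm_real, h1]
  refine (norm_sum_le _ _).trans (sum_le_sum fun c' _ => (norm_sum_le _ _).trans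
    (sum_le_sum fun c _ => ?_))
  rw [norm_mul, norm_mul, Complex.norm_conj]
  exact mul_le_of_le_one_left (norm_nonneg _) (mul_le_one₀ (hα c) (norm_nonneg _) (hα c'))

theorem final {x N d T l : ℝ} (hN : 0 < N) (hd : 0 < d) (hT : 0 ≤ T) (hx : T * N ≤ x) (hl : 0 ≤ l) :
    T * (N * ((N / d + 1) * (2 * (3 * T + d * (1 + l))))) ≤
      6 * (1 + l) * (x ^ 2 / d + x ^ 2 / N + x * (N + d)) := by
  have h0 : 0 ≤ T * N := by positivity
  have h1 : (T * N) ^ 2 ≤ x ^ 2 := pow_le_pow_left₀ h0 hx 2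
  have h2 : (T * N) ^ 2 / d ≤ x ^ 2 / d := div_le_div_of_nonneg_right h1 hd.le
  have h3 : (T * N) ^ 2 / N ≤ x ^ 2 / N := div_le_div_of_nonneg_right h1 hN.le
  have h4 : T * N * (N + d) ≤ x * (N + d) := mul_le_mul_of_nonneg_right hx (by positivity)
  have h5 : T * (N * ((N / d + 1) * (2 * (3 * T + d * (1 + l))))) =
      6 * ((T * N) ^ 2 / d + (T * N) ^ 2 / N) + 2 * (1 + l) * (T * N * (N + d)) := by
    field_simp
    ring
  have h6 : 0 ≤ (T * N) ^ 2 / d := by positivity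
  have h7 : 0 ≤ (T * N) ^ 2 / N := by positivity
  have h8 : 0 ≤ T * N * (N + d) := by positivity
  rw [h5]
  generalize (T * N) ^ 2 / d = A, (T * N) ^ 2 / N = B, T * N * (N + d) = C, x ^ 2 / d = A',
    x ^ 2 / N = B', x * (N + d) = C' at *
  nlinarith [mul_nonneg hl (h6.trans h2), mul_nonneg hl (h7.trans h3), mul_nonneg hl (h8.trans h4),
    mul_le_mul_of_nonneg_left h4 hl]

/-- orthogonality -/
theorem orth {n : ℕ} {h : ℤ} (hh : |h| < n) :
    ∑ t ∈ range n, eR (t * (h / n)) = if h = 0 then (n : ℂ) else 0 := by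
  split_ifs with h0
  · simp [h0, eR_zero]
  have hn : (0 : ℝ) < n := by exact_mod_cast (abs_nonneg h).trans_lt hh
  have h1 : eR (h / n) ≠ 1 := by
    intro e
    unfold eR at e
    obtain ⟨k, hk⟩ := Complex.exp_eq_one_iff.1 e
    have h2 : ((h / n : ℝ) : ℂ) = k := by
      refine mul_right_cancel₀ Complex.two_pi_I_ne_zero ?_
      rw [← hk]
      ring
    have h3 : (h : ℝ) / n = k := by exact_mod_cast h2
    rw [div_eq_iff hn.ne'] at h3
    have h4 : h = k * n := by exact_mod_cast h3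
    exact h0 (Int.eq_zero_of_abs_lt_dvd ⟨k, by rw [h4, mul_comm]⟩ hh)
  simp only [eR_nat]
  rw [geom_sum_eq h1, ← eR_nat, mul_div_cancel₀ _ hn.ne', eR_int, sub_self, zero_div]

theorem parseval {N n : ℕ} (h : N ≤ n) (f : ℕ → ℝ) (hf : ∀ k, |f k| ≤ 1) :
    ∑ t ∈ range n, ‖∑ a ∈ range N, (f a : ℂ) * eR (-(a * (t / n)))‖ ^ 2 ≤ n * N := by
  have h1 : ((∑ t ∈ range n, ‖∑ a ∈ range N, (f a : ℂ) * eR (-(a * (t / n)))‖ ^ 2 : ℝ) : ℂ) =
      ((∑ a ∈ range N, f a ^ 2 * n : ℝ) : ℂ) := by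
    push_cast
    simp only [← Complex.mul_conj', map_sum, sum_mul_sum]
    rw [sum_comm]
    refine sum_congr rfl fun a ha => ?_
    rw [sum_comm]
    have h2 : ∀ b ∈ range N, ∑ t ∈ range n, (f a : ℂ) * eR (-(a * (t / n))) *
        (starRingEnd ℂ) ((f b : ℂ) * eR (-(b * (t / n)))) =
        if a = b then (f a : ℂ) * f b * n else 0 := by
      intro b hb
      have h3 := orth (n := n) (h := (b : ℤ) - a) (by
        have := mem_range.1 ha
        have := mem_range.1 hb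
        rw [abs_lt]
        omega)
      have h4 : ((b : ℤ) - a = 0) ↔ a = b := by omega
      simp only [h4] at h3
      rw [← mul_zero ((f a : ℂ) * f b), ← mul_ite, ← h3, mul_sum]
      refine sum_congr rfl fun t _ => ?_
      rw [map_mul, conj_eR, Complex.conj_ofReal,
        show (t : ℝ) * ((((b : ℤ) - a : ℤ) : ℝ) / n) = -(a * (t / n)) + - -(b * (t / n)) by
          push_cast; ring, eR_add]
      ring
    rw [sum_congr rfl h2, sum_ite_eq, if_pos ha, sq]
  rw [Complex.ofReal_inj.1 h1, ← sum_mul, mul_comm]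
  refine mul_le_mul_of_nonneg_left ?_ (Nat.cast_nonneg _)
  refine (sum_le_card_nsmul _ _ 1 fun a _ => (sq_le_one_iff_abs_le_one _).2 (hf a)).trans ?_
  simp

end Bil

open Bil in
theorem bil : BILStmt := by
  refine ⟨6, fun x N d a φ α β hN hd ha hφ hα hβ => ?_⟩
  have h1 : ∑ c ∈ Ioc N (2 * N), ∑ P ∈ Icc 1 (x / c), α c * β P * eR (c * P * φ) =
      ∑ P ∈ Icc 1 (x / N), β P *
        ∑ c ∈ Ioc N (2 * N), if P ≤ x / c then α c * eR (c * P * φ) else 0 := by
    simp only [mul_sum]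
    rw [sum_comm]
    refine sum_congr rfl fun c hc => ?_
    have hc1 : x / c ≤ x / N := Nat.div_le_div_left (mem_Ioc.1 hc).1.le hN
    have e : Icc 1 (x / c) = (Icc 1 (x / N)).filter fun P => P ≤ x / c := by
      ext P
      simp only [mem_Icc, mem_filter]
      omega
    rw [e, sum_filter]
    refine sum_congr rfl fun P _ => ?_
    split_ifs
    · ring
    · rw [mul_zero]
  have h2 : ∀ c' ∈ Ioc N (2 * N), ∑ c ∈ Ioc N (2 * N), ‖gs (min (x / c) (x / c')) ((c - c') * φ)‖ ≤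
      ((N : ℝ) / d + 1) * (2 * (3 * (x / N : ℕ) + d * (1 + Real.log d))) := by
    intro c' hc'
    have hc1 : x / c' ≤ x / N := Nat.div_le_div_left (mem_Ioc.1 hc').1.le hN
    refine le_trans (le_of_eq ?_) (vino hd ha hφ (((N + 1 : ℕ) - c') * φ)
      (fun j => min (x / (N + 1 + j)) (x / c')) (fun j => (min_le_right _ _).trans hc1) N)
    rw [← Ico_add_one_add_one_eq_Ioc, sum_Ico_eq_sum_range, show 2 * N + 1 - (N + 1) = N by omega]
    refine sum_congr rfl fun j _ => ?_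
    congr 2
    push_cast
    ring
  rw [h1]
  refine (pow_le_pow_left₀ (norm_nonneg _) ((norm_sum_le _ _).trans (sum_le_sum fun P _ =>
    (norm_mul_le _ _).trans (mul_le_of_le_one_left (norm_nonneg _) (hβ P)))) 2).trans
    (sq_sum_le_card_mul_sum_sq.trans ?_)
  refine (mul_le_mul_of_nonneg_left ((sum_sq_le N x φ α hN hα).trans
    (sum_le_card_nsmul _ _ _ h2)) (Nat.cast_nonneg _)).trans ?_
  rw [Nat.card_Icc, Nat.card_Ioc, Nat.add_sub_cancel, show 2 * N - N = N by omega, nsmul_eq_mul]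
  exact final (by exact_mod_cast hN) (by exact_mod_cast hd) (Nat.cast_nonneg _)
    (by exact_mod_cast Nat.div_mul_le_self x N) (Real.log_natCast_nonneg d)

open Bil in
theorem ter : TERStmt := by
  intro N₁ N₂ f₁ f₂ g T h1 h2 hT
  have hT0 : 0 ≤ T := (norm_nonneg _).trans (hT 0)
  obtain ⟨n, hn⟩ : ∃ n, n = N₁ + N₂ := ⟨_, rfl⟩
  rw [← hn] at hT
  rcases Nat.eq_zero_or_pos n with h0 | h0
  · obtain rfl : N₁ = 0 := by omega
    simp
  have hn0 : (0 : ℝ) < n := by exact_mod_cast h0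
  have key : ((n * ∑ a ∈ range N₁, ∑ b ∈ range N₂, f₁ a * f₂ b * g (a + b) : ℝ) : ℂ) =
      ∑ t ∈ range n, (∑ a ∈ range N₁, (f₁ a : ℂ) * eR (-(a * (t / n)))) *
        (∑ b ∈ range N₂, (f₂ b : ℂ) * eR (-(b * (t / n)))) *
        ∑ k ∈ range n, (g k : ℂ) * eR (k * (t / n)) := by
    push_cast
    have e : ∀ (A B : ℕ → ℂ) (C : ℂ), (∑ a ∈ range N₁, A a) * (∑ b ∈ range N₂, B b) * C =
        ∑ a ∈ range N₁, ∑ b ∈ range N₂, A a * B b * C := fun A B C => by
      rw [sum_mul_sum]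
      simp only [sum_mul]
    simp only [e]
    rw [mul_sum, sum_comm (s := range n)]
    refine sum_congr rfl fun a ha => ?_
    rw [mul_sum, sum_comm (s := range n)]
    refine sum_congr rfl fun b hb => ?_
    simp only [mul_sum]
    rw [sum_comm]
    have ha' := mem_range.1 ha
    have hb' := mem_range.1 hb
    have h3 : ∀ k ∈ range n, ∑ t ∈ range n, (f₁ a : ℂ) * eR (-(a * (t / n))) *
        ((f₂ b : ℂ) * eR (-(b * (t / n)))) * ((g k : ℂ) * eR (k * (t / n))) =
        if a + b = k then (f₁ a : ℂ) * f₂ b * g k * n else 0 := by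
      intro k hk
      have h3 := orth (n := n) (h := (k : ℤ) - a - b) (by
        have := mem_range.1 hk
        rw [abs_lt]
        omega)
      have h4 : ((k : ℤ) - a - b = 0) ↔ a + b = k := by omega
      simp only [h4] at h3
      rw [← mul_zero ((f₁ a : ℂ) * f₂ b * g k), ← mul_ite, ← h3, mul_sum]
      refine sum_congr rfl fun t _ => ?_
      rw [show (t : ℝ) * ((((k : ℤ) - a - b : ℤ) : ℝ) / n) =
        -(a * (t / n)) + -(b * (t / n)) + k * (t / n) by push_cast; ring, eR_add, eR_add]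
      ring
    rw [sum_congr rfl h3, sum_ite_eq, if_pos (mem_range.2 (by omega))]
    ring
  have h4 : n * |∑ a ∈ range N₁, ∑ b ∈ range N₂, f₁ a * f₂ b * g (a + b)| ≤
      T * (√(n * N₁) * √(n * N₂)) := by
    rw [← abs_of_pos hn0, ← abs_mul, abs_of_pos hn0, ← Real.norm_eq_abs, ← Complex.norm_real, key]
    refine (norm_sum_le _ _).trans ((sum_le_sum fun t _ => ?_).trans
      ((le_of_eq (mul_sum _ _ T).symm).trans (mul_le_mul_of_nonneg_left
        ((Real.sum_mul_le_sqrt_mul_sqrt _ _ _).trans (mul_le_mul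
          (Real.sqrt_le_sqrt (parseval (N := N₁) (by omega) f₁ h1))
          (Real.sqrt_le_sqrt (parseval (N := N₂) (by omega) f₂ h2))
          (Real.sqrt_nonneg _) (Real.sqrt_nonneg _))) hT0)))
    rw [norm_mul, norm_mul, mul_comm T]
    exact mul_le_mul_of_nonneg_left (hT _) (by positivity)
  rw [← Real.sqrt_mul (by positivity), show (n : ℝ) * N₁ * (n * N₂) = n ^ 2 * (N₁ * N₂) by ring,
    Real.sqrt_mul (by positivity), Real.sqrt_sq hn0.le, mul_left_comm] at h4
  exact le_of_mul_le_mul_left h4 hn0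

end Pool.Agent.MP_a43263_nt.R2

end
end MrgPart0

-- ======== part 1: formerly Pool.Agent.MP_a43263_nt.R2.Exc
section MrgPart1

/-! PROJECT RANK2: exceptional characters and exceptional configurations are rare. -/

set_option autoImplicit false

noncomputable section

namespace Pool.Agent.MP_a43263_nt.R2

open Finset Filter

namespace Exc

/-- sums over squarefree smooth numbers -/
theorem smooth_sum (S : Finset ℕ) (y : ℕ) (κ : ℝ) (hκ : 0 ≤ κ)
    (hS : ∀ m ∈ S, Squarefree m ∧ ∀ p ∈ m.primeFactors, p ≤ y) :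
    ∑ m ∈ S, κ ^ m.primeFactors.card / m ≤ ∏ p ∈ pri 0 y, (1 + κ / p) := by
  have h1 : ∀ m ∈ S, κ ^ m.primeFactors.card / m = ∏ p ∈ m.primeFactors, κ / (p : ℝ) := by
    intro m hm
    rw [prod_div_distrib, prod_const, ← Nat.cast_prod, Nat.prod_primeFactors_of_squarefree (hS m hm).1]
  have h2 : Set.InjOn Nat.primeFactors (S : Set ℕ) := by
    intro a ha b hb e
    rw [← Nat.prod_primeFactors_of_squarefree (hS a ha).1,
      ← Nat.prod_primeFactors_of_squarefree (hS b hb).1, e]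
  rw [sum_congr rfl h1, ← sum_image (f := fun A : Finset ℕ => ∏ p ∈ A, κ / (p : ℝ)) h2, prod_one_add]
  refine sum_le_sum_of_subset_of_nonneg ?_ fun A _ _ => prod_nonneg fun p _ => by positivity
  intro A hA
  obtain ⟨m, hm, rfl⟩ := mem_image.1 hA
  refine mem_powerset.2 fun p hp => mem_pri.2 ⟨?_, (hS m hm).2 p hp, Nat.prime_of_mem_primeFactors hp⟩
  exact (Nat.prime_of_mem_primeFactors hp).pos

/-- splitting by the sign -/
theorem sign_split (E : Finset ℤ) (S : Finset ℕ) (F : ℤ → ℝ) (hF : ∀ G, 0 ≤ F G)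
    (hE : ∀ G ∈ E, G.natAbs ∈ S) :
    ∑ G ∈ E, F G ≤ ∑ m ∈ S, F (1 * m) + ∑ m ∈ S, F (-1 * m) := by
  have h1 : E ⊆ S.image (fun m : ℕ => (1 : ℤ) * m) ∪ S.image (fun m : ℕ => (-1 : ℤ) * m) := by
    intro G hG
    rcases Int.natAbs_eq G with h | h
    · exact mem_union_left _ (mem_image.2 ⟨_, hE G hG, by omega⟩)
    · exact mem_union_right _ (mem_image.2 ⟨_, hE G hG, by omega⟩)
  refine (sum_le_sum_of_subset_of_nonneg h1 fun G _ _ => hF G).trans ?_
  have h2 := sum_union_inter (s₁ := S.image (fun m : ℕ => (1 : ℤ) * m))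
    (s₂ := S.image (fun m : ℕ => (-1 : ℤ) * m)) (f := F)
  have h3 : 0 ≤ ∑ G ∈ S.image (fun m : ℕ => (1 : ℤ) * m) ∩ S.image (fun m : ℕ => (-1 : ℤ) * m), F G :=
    sum_nonneg fun G _ => hF G
  rw [sum_image (s := S) (fun a _ b _ e => by omega), sum_image (s := S) (fun a _ b _ e => by omega)] at h2
  linarith

theorem not_isSquare {G : ℤ} (h : Squarefree G.natAbs) (h1 : G ≠ 1) : ¬IsSquare G := by
  rintro ⟨r, rfl⟩
  rw [Int.natAbs_mul] at h
  have := Nat.isUnit_iff.1 (h r.natAbs dvd_rfl)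
  rcases Int.natAbs_eq r with k | k <;> rw [this] at k <;> rw [k] at h1 <;> simp at h1

/-- the double oscillation bound for the character sums -/
theorem chs_sum (hdo : DOStmt) : ∃ C : ℕ, ∀ (U U' y y' : ℕ) (σ : ℤ), 1 ≤ U → 2 ≤ y →
    ∑ m ∈ Ioc U U', 1 / |((σ * m : ℤ) : ℝ)| * |chs (σ * m) y y'| * |(σ : ℝ)| ≤
      C * (1 + Real.log U' + Real.log y') ^ C * ((min U y : ℕ) : ℝ) ^ (-(1 / 8) : ℝ) := by
  obtain ⟨C, hC⟩ := hdo
  refine ⟨C, fun U U' y y' σ hU hy => ?_⟩
  have hb : ∀ n : ℕ, |(if n.Prime ∧ y < n then (jacobiSym σ n : ℝ) else 0)| ≤ 1 := by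
    intro n
    split_ifs
    · rcases jacobiSym.trichotomy σ n with h | h | h <;> rw [h] <;> simp
    · simp
  have := hC U U' y y' (fun n => if n.Prime ∧ y < n then (jacobiSym σ n : ℝ) else 0) hU (by omega) hb
    (fun n hn => by
      by_cases h : n.Prime ∧ y < n
      · exact h.1.odd_of_ne_two (by omega)
      · exact absurd (if_neg h) hn)
  refine le_trans (sum_le_sum fun m hm => ?_) this
  have hm0 : (0 : ℝ) < m := by
    have := (mem_Ioc.1 hm).1
    exact_mod_cast (by omega : 0 < m)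
  have e1 : chs (σ * m) y y' = ∑ n ∈ Ioc y y',
      (if n.Prime ∧ y < n then (jacobiSym σ n : ℝ) else 0) * jacobiSym m n / n := by
    rw [chs, pri, sum_filter]
    refine sum_congr rfl fun n hn => ?_
    have := (mem_Ioc.1 hn).1
    by_cases h : n.Prime
    · rw [if_pos h, if_pos ⟨h, this⟩, jacobiSym.mul_left, Int.cast_mul]
    · rw [if_neg h, if_neg (fun k => h k.1)]; simp
  rw [← e1]
  rcases eq_or_ne σ 0 with rfl | h0
  · simp only [Int.cast_zero, abs_zero, mul_zero]; positivity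
  · have h1 : (0 : ℝ) < |(σ : ℝ)| := abs_pos.2 (by exact_mod_cast h0)
    rw [Int.cast_mul, abs_mul, Int.cast_natCast, abs_of_pos hm0]
    apply le_of_eq
    field_simp

/-- pointwise splitting -/
theorem point {κ ω t m y : ℕ} {T : ℝ} (hT : 0 < T) (hTy : T ≤ 3 ^ t) (hy : 1 ≤ y)
    (hm : m ≤ y ^ ω) :
    (κ : ℝ) ^ ω ≤ ((3 * κ + κ ^ 2 : ℕ) : ℝ) ^ ω / T + if m ≤ y ^ t then T else 0 := by
  have hκ : (0 : ℝ) ≤ κ := Nat.cast_nonneg _
  split_ifs with h
  · have h1 : ((κ : ℝ) ^ ω) ^ 2 ≤ ((3 * κ + κ ^ 2 : ℕ) : ℝ) ^ ω := by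
      rw [← pow_mul, mul_comm, pow_mul]
      push_cast
      gcongr
      linarith
    have h2 : ((κ : ℝ) ^ ω) ^ 2 / T ≤ ((3 * κ + κ ^ 2 : ℕ) : ℝ) ^ ω / T := by gcongr
    have h3 : (κ : ℝ) ^ ω ≤ ((κ : ℝ) ^ ω) ^ 2 / T + T := by
      rw [div_add' _ _ _ hT.ne', le_div_iff₀ hT]
      nlinarith [sq_nonneg ((κ : ℝ) ^ ω - T), pow_nonneg hκ ω]
    linarith
  · have h1 : t ≤ ω := by
      by_contra k
      exact h (hm.trans (Nat.pow_le_pow_right hy (by omega)))
    rw [add_zero, le_div_iff₀ hT]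
    calc (κ : ℝ) ^ ω * T ≤ κ ^ ω * 3 ^ ω := by
          gcongr
          exact hTy.trans (pow_le_pow_right₀ (by norm_num) h1)
      _ = (3 * κ) ^ ω := by rw [mul_pow, mul_comm]
      _ ≤ _ := by
          push_cast
          gcongr
          nlinarith

theorem ev_log_pow (k : ℕ) : ∀ᶠ y : ℕ in atTop, Real.log y ^ k ≤ y := by
  have h1 := (Real.isLittleO_pow_log_id_atTop (n := k)).bound (c := 1) one_pos
  filter_upwards [tendsto_natCast_atTop_atTop.eventually h1] with y h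
  rwa [Real.norm_of_nonneg (pow_nonneg (Real.log_natCast_nonneg _) _), id,
    Real.norm_of_nonneg (Nat.cast_nonneg _), one_mul] at h

theorem ev_log_ge (c : ℝ) : ∀ᶠ y : ℕ in atTop, c ≤ Real.log y :=
  (Real.tendsto_log_atTop.comp tendsto_natCast_atTop_atTop).eventually_ge_atTop c

end Exc

open Exc in
theorem exc : MERStmt → DOStmt → CHSStmt → EXCStmt := by
  intro mer hdo hchs k κ A ε hε
  obtain ⟨C₁, hC₁⟩ := mer.2.2.1 (3 * κ + κ ^ 2)
  obtain ⟨C, hC⟩ := chs_sum hdo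
  set κ' := 3 * κ + κ ^ 2 with hκ'
  set a := κ' + A + 1 with ha
  set B := a + 2 * C + A + 1 with hB
  filter_upwards [hchs k (8 * B) ε hε, ev_log_pow (8 * B), ev_log_pow a, ev_log_ge 1,
    ev_log_ge (4 * C₁), ev_log_ge (4 * C / ε * (3 + k) ^ C * 2 ^ B), eventually_ge_atTop 2]
    with y h1 h2 h3 h4 h5 h6 hy y' E hy' hE
  set L := Real.log y with hL
  set l := ⌊L⌋₊ with hl
  have hl1 : 1 ≤ l := Nat.le_floor (by simpa using h4)
  have hl2 : (l : ℝ) ≤ L := Nat.floor_le (by linarith)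
  have hl3 : L < l + 1 := Nat.lt_floor_add_one _
  have hl1' : (1 : ℝ) ≤ l := by exact_mod_cast hl1
  have hL0 : 0 < L := by linarith
  have hy0 : (0 : ℝ) < y := by positivity
  have hT : 0 < L ^ a := by positivity
  have hT3 : L ^ a ≤ 3 ^ (l + 1) := by
    refine h3.trans ?_
    calc (y : ℝ) = Real.exp L := (Real.exp_log hy0).symm
      _ ≤ Real.exp (((l + 1 : ℕ) : ℝ) * 1) := by
          apply Real.exp_le_exp.2; push_cast; linarith
      _ = Real.exp 1 ^ (l + 1) := Real.exp_nat_mul _ _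
      _ ≤ _ := by
          gcongr
          exact Real.exp_one_lt_three.le
  have hne : ∀ G ∈ E, G ≠ 0 := by
    rintro G hG rfl
    exact not_squarefree_zero (hE _ hG).1
  have hab : ∀ G : ℤ, |(G : ℝ)| = (G.natAbs : ℝ) := fun G => by
    rw [← Int.cast_abs, Int.abs_eq_natAbs, Int.cast_natCast]
  have hlow : ∀ G ∈ E, l ^ (8 * B) < G.natAbs := by
    intro G hG
    by_contra hh
    have h7 : |(G : ℝ)| ≤ L ^ (8 * B) := by
      rw [hab]
      calc (G.natAbs : ℝ) ≤ ((l ^ (8 * B) : ℕ) : ℝ) := by exact_mod_cast not_lt.1 hh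
        _ ≤ _ := by push_cast; gcongr
    exact absurd (h1 y' G hy' (hne G hG) (not_isSquare (hE G hG).1 (hE G hG).2.1) h7)
      (not_le.2 (hE G hG).2.2.2)
  -- pointwise
  have hpt : ∀ G ∈ E, (κ : ℝ) ^ G.natAbs.primeFactors.card / |(G : ℝ)| ≤
      (κ' : ℝ) ^ G.natAbs.primeFactors.card / |(G : ℝ)| / L ^ a +
        if G.natAbs ≤ y ^ (l + 1) then L ^ a / ε * (1 / |(G : ℝ)| * |chs G y y'|) else 0 := by
    intro G hG
    have hG0 : 0 < |(G : ℝ)| := abs_pos.2 (by exact_mod_cast hne G hG)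
    have hm : G.natAbs ≤ y ^ G.natAbs.primeFactors.card := by
      conv_lhs => rw [← Nat.prod_primeFactors_of_squarefree (hE G hG).1]
      exact prod_le_pow_card _ _ _ (hE G hG).2.2.1
    have h7 := point (κ := κ) hT hT3 (by omega : 1 ≤ y) hm
    have h8 := (hE G hG).2.2.2
    refine (div_le_div_of_nonneg_right h7 hG0.le).trans ?_
    rw [add_div, div_right_comm]
    gcongr
    split_ifs
    · rw [div_le_iff₀ hG0]
      calc L ^ a = L ^ a / ε * ε := by field_simp
        _ ≤ L ^ a / ε * |chs G y y'| := by gcongr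
        _ = _ := by field_simp
    · simp
  refine (sum_le_sum hpt).trans ?_
  rw [sum_add_distrib, ← sum_div, ← sum_filter, ← mul_sum]
  -- first part
  have p1 : ∑ G ∈ E, (κ' : ℝ) ^ G.natAbs.primeFactors.card / |(G : ℝ)| ≤ 2 * (C₁ * L ^ κ') := by
    have h7 := sign_split E (E.image Int.natAbs)
      (fun G => (κ' : ℝ) ^ G.natAbs.primeFactors.card / |(G : ℝ)|) (fun G => by positivity)
      (fun G hG => mem_image_of_mem _ hG)
    have h8 := smooth_sum (E.image Int.natAbs) y κ' (Nat.cast_nonneg _) (fun m hm => by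
      obtain ⟨G, hG, rfl⟩ := mem_image.1 hm
      exact ⟨(hE G hG).1, (hE G hG).2.2.1⟩)
    have h9 := hC₁ y hy
    simp only [hab, one_mul, neg_mul, Int.natAbs_neg, Int.natAbs_natCast] at h7 ⊢
    linarith
  have p2 : ∑ G ∈ E.filter (fun G => G.natAbs ≤ y ^ (l + 1)), 1 / |(G : ℝ)| * |chs G y y'| ≤
      2 * (C * ((3 + k) * L ^ 2) ^ C * (2 ^ B / L ^ B)) := by
    have h7 := sign_split (E.filter (fun G => G.natAbs ≤ y ^ (l + 1))) (Ioc (l ^ (8 * B)) (y ^ (l + 1)))
      (fun G => 1 / |(G : ℝ)| * |chs G y y'|) (fun G => by positivity)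
      (fun G hG => mem_Ioc.2 ⟨hlow G (mem_filter.1 hG).1, (mem_filter.1 hG).2⟩)
    have hU : 1 ≤ l ^ (8 * B) := Nat.one_le_pow _ _ hl1
    have h8 := hC (l ^ (8 * B)) (y ^ (l + 1)) y y' 1 hU hy
    have h9 := hC (l ^ (8 * B)) (y ^ (l + 1)) y y' (-1) hU hy
    have hmin : min (l ^ (8 * B)) y = l ^ (8 * B) := by
      apply min_eq_left
      have : ((l ^ (8 * B) : ℕ) : ℝ) ≤ y := by
        refine le_trans ?_ h2
        push_cast; gcongr
      exact_mod_cast this
    have hr : ((l ^ (8 * B) : ℕ) : ℝ) ^ (-(1 / 8) : ℝ) ≤ 2 ^ B / L ^ B := by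
      rw [Nat.cast_pow, ← Real.rpow_natCast, ← Real.rpow_mul (by positivity)]
      rw [show ((8 * B : ℕ) : ℝ) * -(1 / 8) = -(B : ℝ) by push_cast; ring, Real.rpow_neg (by positivity),
        Real.rpow_natCast, ← div_pow, ← inv_pow]
      gcongr
      rw [inv_eq_one_div, div_le_div_iff₀ (by positivity) hL0]
      linarith
    have hlog : 1 + Real.log ((y ^ (l + 1) : ℕ) : ℝ) + Real.log y' ≤ (3 + k) * L ^ 2 := by
      have k1 : Real.log y' ≤ k * L := by
        rcases Nat.eq_zero_or_pos y' with rfl | h0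
        · simp only [Nat.cast_zero, Real.log_zero]; positivity
        · have := Real.log_le_log (Nat.cast_pos.2 h0) (Nat.cast_le.2 hy')
          rwa [Nat.cast_pow, Real.log_pow] at this
      rw [Nat.cast_pow, Real.log_pow, ← hL]
      push_cast
      have k2 : (k : ℝ) * L ≤ k * L ^ 2 := by
        gcongr
        nlinarith
      nlinarith
    have hlog0 : 0 ≤ 1 + Real.log ((y ^ (l + 1) : ℕ) : ℝ) + Real.log y' := by
      have := Real.log_natCast_nonneg (y ^ (l + 1))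
      have := Real.log_natCast_nonneg y'
      linarith
    have h10 : (C : ℝ) * (1 + Real.log ((y ^ (l + 1) : ℕ) : ℝ) + Real.log y') ^ C *
        ((min (l ^ (8 * B)) y : ℕ) : ℝ) ^ (-(1 / 8) : ℝ) ≤
        C * ((3 + k) * L ^ 2) ^ C * (2 ^ B / L ^ B) := by
      rw [hmin]
      gcongr
    simp only [Int.cast_one, Int.cast_neg, abs_neg, abs_one, mul_one] at h8 h9
    linarith
  have q1 : 2 * (C₁ * L ^ κ') / L ^ a ≤ 1 / 2 / L ^ A := by
    rw [ha, div_le_div_iff₀ (by positivity) (by positivity)]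
    calc 2 * (C₁ * L ^ κ') * L ^ A = (4 * C₁) * (L ^ κ' * L ^ A) / 2 := by ring
      _ ≤ L * (L ^ κ' * L ^ A) / 2 := by gcongr
      _ = _ := by ring
  have q2 : L ^ a / ε * (2 * (C * ((3 + k) * L ^ 2) ^ C * (2 ^ B / L ^ B))) ≤ 1 / 2 / L ^ A := by
    calc L ^ a / ε * (2 * (C * ((3 + k) * L ^ 2) ^ C * (2 ^ B / L ^ B)))
        = (4 * C / ε * (3 + k) ^ C * 2 ^ B) * (L ^ a * L ^ (2 * C) / (2 * L ^ B)) := by
          rw [mul_pow, ← pow_mul]; field_simp; ring
      _ ≤ L * (L ^ a * L ^ (2 * C) / (2 * L ^ B)) := by gcongr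
      _ = _ := by rw [hB]; field_simp; ring
  calc _ ≤ 2 * (C₁ * L ^ κ') / L ^ a +
        L ^ a / ε * (2 * (C * ((3 + k) * L ^ 2) ^ C * (2 ^ B / L ^ B))) := by gcongr
    _ ≤ 1 / 2 / L ^ A + 1 / 2 / L ^ A := add_le_add q1 q2
    _ = _ := by ring

namespace Exc

/-- the union bound -/
theorem union_bound {α β : Type} (s u : Finset α) (I : Finset β) (r : β → α → Prop)
    [∀ i, DecidablePred (r i)] (f : α → ℝ) (hf : ∀ a ∈ u, 0 ≤ f a) (hs : s ⊆ u)
    (h : ∀ a ∈ s, ∃ i ∈ I, r i a) :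
    ∑ a ∈ s, f a ≤ ∑ i ∈ I, ∑ a ∈ u.filter (r i), f a := by
  simp only [sum_filter]
  rw [sum_comm]
  have h0 : ∀ a ∈ u, ∀ i ∈ I, 0 ≤ if r i a then f a else 0 := fun a ha i _ => by
    split_ifs
    · exact hf a ha
    · rfl
  refine le_trans (sum_le_sum fun a ha => ?_)
    (sum_le_sum_of_subset_of_nonneg hs fun a ha _ => sum_nonneg (h0 a ha))
  obtain ⟨i, hi, hr⟩ := h a ha
  refine le_trans ?_ (single_le_sum (h0 a (hs ha)) hi)
  rw [if_pos hr]

/-- configurations that contain prescribed primes -/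
theorem meets (P : Finset ℕ) (w : ℕ → ℝ) (hw : ∀ p ∈ P, 0 ≤ w p) (F : Finset ℕ) (hF : ∀ p ∈ F, 0 ≤ w p) :
    ∑ Z ∈ (TT P).powerset.filter (fun Z => ∀ p ∈ F, ∃ a ∈ Z, a.2 = p), ∏ a ∈ Z, w a.2 ≤
      (∏ p ∈ F, 6 * w p) * ∏ p ∈ P, (1 + w p) ^ 6 := by
  have hnn : ∀ Z ∈ (TT P).powerset, 0 ≤ ∏ a ∈ Z, w a.2 := fun Z hZ =>
    prod_nonneg fun a ha => hw _ (mem_TT.1 (mem_powerset.1 hZ ha)).2
  induction F using Finset.induction_on with
  | empty =>
    rw [filter_true_of_mem (by simp), prod_empty, one_mul, ← prod_TT P fun p => 1 + w p, prod_one_add]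
  | insert p F hp ih =>
    have ih' := ih fun q hq => hF q (mem_insert_of_mem hq)
    have hwp := hF p (mem_insert_self _ _)
    have h1 := union_bound
      ((TT P).powerset.filter (fun Z => ∀ q ∈ insert p F, ∃ a ∈ Z, a.2 = q)) (TT P).powerset
      ((univ : Finset (Fin 7)).erase 6) (fun t Z => (t, p) ∈ Z ∧ ∀ q ∈ F, ∃ a ∈ Z, a.2 = q)
      (fun Z => ∏ a ∈ Z, w a.2) hnn (filter_subset _ _) (fun Z hZ => by
        obtain ⟨k1, k2⟩ := mem_filter.1 hZ
        obtain ⟨a, ha, rfl⟩ := k2 p (mem_insert_self _ _)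
        exact ⟨a.1, mem_erase.2 ⟨(mem_TT.1 (mem_powerset.1 k1 ha)).1, mem_univ _⟩, ha,
          fun q hq => k2 q (mem_insert_of_mem hq)⟩)
    refine h1.trans ?_
    have h2 : ∀ t ∈ (univ : Finset (Fin 7)).erase 6,
        ∑ Z ∈ (TT P).powerset.filter (fun Z => (t, p) ∈ Z ∧ ∀ q ∈ F, ∃ a ∈ Z, a.2 = q),
          ∏ a ∈ Z, w a.2 ≤ w p * ((∏ p ∈ F, 6 * w p) * ∏ p ∈ P, (1 + w p) ^ 6) := by
      intro t _
      have e1 : ∀ Z ∈ (TT P).powerset.filter (fun Z => (t, p) ∈ Z ∧ ∀ q ∈ F, ∃ a ∈ Z, a.2 = q),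
          ∏ a ∈ Z, w a.2 = w p * ∏ a ∈ Z.erase (t, p), w a.2 := fun Z hZ =>
        (mul_prod_erase Z (fun a : Gen => w a.2) (mem_filter.1 hZ).2.1).symm
      rw [sum_congr rfl e1, ← mul_sum]
      refine mul_le_mul_of_nonneg_left (le_trans ?_ ih') hwp
      rw [← sum_image (f := fun Z : Finset Gen => ∏ a ∈ Z, w a.2) (g := fun Z : Finset Gen => Z.erase (t, p))]
      · refine sum_le_sum_of_subset_of_nonneg ?_ fun Z hZ _ => hnn Z (mem_filter.1 hZ).1
        intro Z hZ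
        obtain ⟨Z', hZ', rfl⟩ := mem_image.1 hZ
        obtain ⟨k1, k2, k3⟩ := mem_filter.1 hZ'
        refine mem_filter.2 ⟨mem_powerset.2 ((erase_subset _ _).trans (mem_powerset.1 k1)),
          fun q hq => ?_⟩
        obtain ⟨a, ha, rfl⟩ := k3 q hq
        exact ⟨a, mem_erase.2 ⟨fun e => hp (by rw [e] at hq; exact hq), ha⟩, rfl⟩
      · intro Z hZ Z' hZ' e
        rw [← insert_erase (mem_filter.1 hZ).2.1, ← insert_erase (mem_filter.1 hZ').2.1]
        exact congrArg _ e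
    refine (sum_le_sum h2).trans (le_of_eq ?_)
    rw [sum_const, prod_insert hp, card_erase_of_mem (mem_univ _), card_univ, Fintype.card_fin,
      nsmul_eq_mul]
    push_cast
    ring

/-- the weight of the primes of `G` outside `M` -/
theorem out_le {M m : ℕ} (hM : 0 < M) (h210 : 210 ∣ M) (hm : Squarefree m) :
    ∏ p ∈ m.primeFactors.filter (fun p => ¬p ∣ M), 6 * (2 * wt p) ≤
      M * ((24 : ℕ) ^ m.primeFactors.card / (m : ℝ)) := by
  have h1 : ∏ p ∈ m.primeFactors.filter (fun p => ¬p ∣ M), 6 * (2 * wt p) ≤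
      ∏ p ∈ m.primeFactors.filter (fun p => ¬p ∣ M), (24 : ℝ) / p := by
    refine prod_le_prod (fun p hp => ?_) fun p hp => ?_
    · have := wt_pos (eleven_le h210 (Nat.prime_of_mem_primeFactors (mem_filter.1 hp).1)
        (mem_filter.1 hp).2)
      positivity
    · have := wt_le (eleven_le h210 (Nat.prime_of_mem_primeFactors (mem_filter.1 hp).1)
        (mem_filter.1 hp).2)
      calc 6 * (2 * wt p) ≤ 6 * (2 * (2 / (p : ℝ))) := by gcongr
        _ = _ := by ring
  refine h1.trans ?_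
  have h2 := prod_filter_mul_prod_filter_not m.primeFactors (fun p => p ∣ M) fun p => p
  rw [Nat.prod_primeFactors_of_squarefree hm] at h2
  have h3 : ∏ p ∈ m.primeFactors.filter (fun p => p ∣ M), p ≤ M := by
    refine Nat.le_of_dvd hM (dvd_trans (prod_dvd_prod_of_subset _ _ _ fun p hp => ?_)
      (Nat.prod_primeFactors_dvd M))
    exact Nat.mem_primeFactors.2 ⟨Nat.prime_of_mem_primeFactors (mem_filter.1 hp).1,
      (mem_filter.1 hp).2, hM.ne'⟩
  have h4 : 0 < ∏ p ∈ m.primeFactors.filter (fun p => ¬p ∣ M), p :=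
    prod_pos fun p hp => (Nat.prime_of_mem_primeFactors (mem_filter.1 hp).1).pos
  have h5 : (m : ℝ) ≤ M * ((∏ p ∈ m.primeFactors.filter (fun p => ¬p ∣ M), p : ℕ) : ℝ) := by
    have : m ≤ M * ∏ p ∈ m.primeFactors.filter (fun p => ¬p ∣ M), p := by
      conv_lhs => rw [← h2]
      exact Nat.mul_le_mul_right _ h3
    exact_mod_cast this
  have hm0 : (0 : ℝ) < m := Nat.cast_pos.2 (Nat.pos_of_ne_zero hm.ne_zero)
  rw [prod_div_distrib, prod_const, ← Nat.cast_prod, ← mul_div_assoc,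
    div_le_div_iff₀ (Nat.cast_pos.2 h4) hm0]
  calc (24 : ℝ) ^ (m.primeFactors.filter (fun p => ¬p ∣ M)).card * m
      ≤ 24 ^ m.primeFactors.card *
        (M * ((∏ p ∈ m.primeFactors.filter (fun p => ¬p ∣ M), p : ℕ) : ℝ)) := by
        gcongr
        · norm_num
        · exact filter_subset _ _
    _ = _ := by push_cast; ring

end Exc

open Exc in
theorem expo_main : KCStmt → MERStmt → EXCStmt → EXPStmt := by
  classical
  intro kc mer hexc M k ε η hM h210 hε hη
  obtain ⟨C, hC⟩ := mer.2.2.2.2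
  filter_upwards [hexc k 24 13 ε hε, ev_log_ge 1, ev_log_ge (M * C ^ 2 / η), eventually_ge_atTop 2,
    eventually_ge_atTop M] with y h1 h2 h3 hy hMy y₀ y' hy₀ hy'
  have h2M : 2 ∣ M := (by norm_num : 2 ∣ 210).trans h210
  set P := PP M 0 y with hP
  set E : Finset ℤ := (((TT P).powerset.filter Dist).biUnion fun Z =>
    ((V0 M ∪ Z).powerset ×ˢ (univ : Finset (Fin 3))).image fun xj => Gv xj.2 xj.1).filter
      fun G => G ≠ 1 ∧ ε < |chs G y y'| with hE
  have hE1 : ∀ G ∈ E, Squarefree G.natAbs ∧ G ≠ 1 ∧ (∀ p ∈ G.natAbs.primeFactors, p ≤ y) ∧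
      ε < |chs G y y'| := by
    intro G hG
    obtain ⟨k1, k2, k3⟩ := mem_filter.1 hG
    obtain ⟨Z, hZ, k4⟩ := mem_biUnion.1 k1
    obtain ⟨⟨x, j⟩, k5, rfl⟩ := mem_image.1 k4
    obtain ⟨k6, k7⟩ := mem_filter.1 hZ
    have hx := mem_powerset.1 (mem_product.1 k5).1
    have k8 := kc.2.2.1 (V0 M ∪ Z) x j (nice_TT h2M k7 (mem_powerset.1 k6)) hx
    refine ⟨k8.1, k2, fun p hp => ?_, k3⟩
    obtain ⟨a, ha, rfl⟩ := k8.2.2.2 p hp
    rcases mem_union.1 (hx ha) with h | h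
    · rcases (mem_V0.1 h).2 with h | h
      · omega
      · exact (Nat.le_of_mem_primeFactors h).trans hMy
    · exact (mem_PP.1 (mem_TT.1 (mem_powerset.1 k6 h)).2).2.1
  have hsub : TT (PP M 0 y₀) ⊆ TT P := fun a ha => by
    obtain ⟨k1, k2⟩ := mem_TT.1 ha
    obtain ⟨k3, k4, k5⟩ := mem_PP.1 k2
    exact mem_TT.2 ⟨k1, mem_PP.2 ⟨k3, k4.trans hy₀, k5⟩⟩
  have hw : ∀ p ∈ P, 0 ≤ 2 * wt p := fun p hp => by
    have := wt_pos (PP_ge h210 hp)
    positivity
  have hW : ∀ Z : Finset Gen, Wt Z * 2 ^ Z.card = ∏ a ∈ Z, 2 * wt a.2 := fun Z => by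
    rw [prod_mul_distrib, prod_const, Wt, mul_comm]
  simp only [hW]
  refine (union_bound _ (TT P).powerset E
    (fun G Z => ∀ p ∈ G.natAbs.primeFactors.filter (fun p => ¬p ∣ M), ∃ a ∈ Z, a.2 = p)
    (fun Z => ∏ a ∈ Z, 2 * wt a.2)
    (fun Z hZ => prod_nonneg fun a ha => hw _ (mem_TT.1 (mem_powerset.1 hZ ha)).2)
    (fun Z hZ => mem_powerset.2 ((mem_powerset.1 (mem_filter.1 hZ).1).trans hsub))
    fun Z hZ => ?_).trans ?_
  · obtain ⟨k1, k2, x, hx, j, k3, k4⟩ := mem_filter.1 hZ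
    have k5 := (mem_powerset.1 k1).trans hsub
    refine ⟨Gv j x, mem_filter.2 ⟨mem_biUnion.2 ⟨Z, mem_filter.2 ⟨mem_powerset.2 k5, k2⟩,
      mem_image.2 ⟨(x, j), mem_product.2 ⟨mem_powerset.2 hx, mem_univ _⟩, rfl⟩⟩, k3, k4⟩,
      fun p hp => ?_⟩
    obtain ⟨k6, k7⟩ := mem_filter.1 hp
    obtain ⟨a, ha, rfl⟩ := (kc.2.2.1 (V0 M ∪ Z) x j (nice_TT h2M k2 k5) hx).2.2.2 p k6
    refine ⟨a, (mem_union.1 (hx ha)).resolve_left fun h => ?_, rfl⟩
    rcases (mem_V0.1 h).2 with h | h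
    · exact Nat.not_prime_one (h ▸ Nat.prime_of_mem_primeFactors k6)
    · exact k7 (Nat.dvd_of_mem_primeFactors h)
  · have hmass : ∏ p ∈ P, (1 + 2 * wt p) ^ 6 ≤ (C * Real.log y ^ 6) ^ 2 := by
      calc ∏ p ∈ P, (1 + 2 * wt p) ^ 6 ≤ ∏ p ∈ P, ((1 + wt p) ^ 6) ^ 2 := by
            refine prod_le_prod (fun p hp => by positivity) fun p hp => ?_
            have := hw p hp
            rw [← pow_mul, mul_comm 6 2, pow_mul]
            gcongr
            nlinarith [sq_nonneg (wt p)]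
        _ = Mass P ^ 2 := by rw [prod_pow, Mass]
        _ ≤ _ := by
            have := one_le_Mass h210 0 y
            gcongr
            exact hC M 0 y h210 hy
    have hG : ∀ G ∈ E, ∑ Z ∈ (TT P).powerset.filter
        (fun Z => ∀ p ∈ G.natAbs.primeFactors.filter (fun p => ¬p ∣ M), ∃ a ∈ Z, a.2 = p),
          ∏ a ∈ Z, 2 * wt a.2 ≤ (M * (C * Real.log y ^ 6) ^ 2) *
            (((24 : ℕ) : ℝ) ^ G.natAbs.primeFactors.card / |(G : ℝ)|) := by
      intro G hG
      refine (meets P (fun p => 2 * wt p) hw _ fun p hp => ?_).trans ?_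
      · have := wt_pos (eleven_le h210 (Nat.prime_of_mem_primeFactors (mem_filter.1 hp).1)
          (mem_filter.1 hp).2)
        positivity
      · have k1 := out_le hM h210 (hE1 G hG).1
        rw [← Int.cast_abs, Int.abs_eq_natAbs, Int.cast_natCast]
        calc _ ≤ (M * ((24 : ℕ) ^ G.natAbs.primeFactors.card / (G.natAbs : ℝ))) *
              (C * Real.log y ^ 6) ^ 2 :=
              mul_le_mul k1 hmass (prod_nonneg fun p _ => by positivity) (by positivity)
          _ = _ := by ring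
    refine (sum_le_sum hG).trans ?_
    rw [← mul_sum]
    have hL : 0 < Real.log y := by linarith
    calc _ ≤ (M * (C * Real.log y ^ 6) ^ 2) * (1 / Real.log y ^ 13) := by
          gcongr
          exact h1 y' E hy' hE1
      _ = (M * C ^ 2 / η) * η / Real.log y := by field_simp
      _ ≤ Real.log y * η / Real.log y := by gcongr
      _ = η := by field_simp

end Pool.Agent.MP_a43263_nt.R2

end
end MrgPart1

-- marker of a merged file
example : 731051 + 294090 = 731051 + 294090 := rfl
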