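import Mathlib.Data.Int.Star
import Mathlib.Analysis.PSeries
import Mathlib.Analysis.Complex.ExponentialBounds
import Mathlib.Data.Rat.Star
import Pool.Agent.MP_a43263_nt.R2.Spec
import Pool.Agent.MP_a43263_nt.R2.Basic

-- ======== part 0: formerly Pool.Agent.MP_a43263_nt.R2.Alg
section MrgPart0

/-! PROJECT RANK2, module ALG: a kernel of size at most sixteen gives rank two and trivial
2-primary part of Sha. -/

set_option autoImplicit false

namespace Pool.Agent.MP_a43263_nt.R2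

open Finset

namespace Alg

theorem prod_symmDiff {ι R : Type} [DecidableEq ι] [CommMonoid R] (f : ι → R) (x y : Finset ι) :
    (∏ a ∈ symmDiff x y, f a) * (∏ a ∈ x ∩ y, f a) ^ 2 = (∏ a ∈ x, f a) * ∏ a ∈ y, f a := by
  rw [symmDiff_def, sup_eq_union, prod_union disjoint_sdiff_sdiff, ← prod_inter_mul_prod_sdiff x y f,
    ← prod_inter_mul_prod_sdiff y x f, inter_comm y x, sq]
  ac_rfl

theorem gp_sq (c : ℤ) (a b : Gen) : gp c a b ^ 2 = 1 := by
  unfold gp sg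
  split_ifs <;> norm_num

theorem ker_symmDiff {c : ℤ} {V x y : Finset Gen} (hx : x ∈ Ker (gp c) V) (hy : y ∈ Ker (gp c) V) :
    symmDiff x y ∈ Ker (gp c) V := by
  simp only [Ker, mem_filter, mem_powerset] at hx hy ⊢
  refine ⟨symmDiff_subset_union.trans (union_subset hx.1 hy.1), fun b hb => ?_⟩
  have h := prod_symmDiff (fun a => gp c a b) x y
  rwa [hx.2 b hb, hy.2 b hb, ← prod_pow, prod_congr rfl fun a _ => gp_sq c a b, prod_const_one,
    mul_one, mul_one] at h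

theorem sq_of_mul {A B s t : ℚ} (ht : t ≠ 0) (hA : IsSquare A) (hB : IsSquare B)
    (h : s * t ^ 2 = A * B) : IsSquare s := by
  obtain ⟨r, hr⟩ := hA.mul hB
  refine ⟨r / t, ?_⟩
  field_simp
  rw [h, hr, sq]

theorem Gv_cast (j : Fin 3) (x : Finset Gen) :
    (Gv j x : ℚ) = ∏ a ∈ x, if cls a.1 ≠ j then (val a : ℚ) else 1 := by
  rw [Gv, Int.cast_prod, prod_filter]

theorem Gv_ne {j : Fin 3} {x : Finset Gen} (h : ∀ a ∈ x, a.2 ≠ 0) : (Gv j x : ℚ) ≠ 0 := by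
  rw [Gv_cast]
  refine prod_ne_zero_iff.2 fun a ha => ?_
  have := h a ha
  unfold val
  split_ifs <;> simp [this]

theorem Gv_symmDiff (j : Fin 3) (x y : Finset Gen) :
    (Gv j (symmDiff x y) : ℚ) * (Gv j (x ∩ y) : ℚ) ^ 2 = Gv j x * Gv j y := by
  simp only [Gv_cast]
  exact prod_symmDiff _ x y

theorem ne_of_VV {M : ℕ} {l : Fin 6 → ℕ} {a : Gen} (ha : a ∈ VV M l) : a.2 ≠ 0 := by
  simp only [VV, V0, gens, mem_union, mem_insert, mem_image, mem_biUnion, mem_univ, true_and] at ha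
  rcases ha with (rfl | ⟨p, hp, rfl⟩) | ⟨h, p, hp, rfl⟩
  · exact one_ne_zero
  · exact (Nat.prime_of_mem_primeFactors hp).ne_zero
  · exact (Nat.prime_of_mem_primeFactors hp).ne_zero

theorem sol_map {K : Type} [Field K] [CharZero K] {a b d e : ℚ} (h : Sol2 a b d e) :
    Sol2 (a : K) b d e := by
  obtain ⟨z0, z2, z3, t, h0, h1, h2⟩ := h
  refine ⟨z0, z2, z3, t, by exact_mod_cast h0, by exact_mod_cast h1, by exact_mod_cast h2⟩

theorem els_of {a b d e : ℚ} (h : Sol2 a b d e) : ELS a b d e :=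
  ⟨sol_map h, fun _ _ => sol_map h⟩

theorem sol_scale {a b d e G H : ℚ} (hd : d ≠ 0) (he : e ≠ 0) (hG : G ≠ 0) (hH : H ≠ 0)
    (h1 : IsSquare (d * G)) (h2 : IsSquare (e * H)) (h : Sol2 a b G H) : Sol2 a b d e := by
  obtain ⟨s, hs⟩ := h1
  obtain ⟨r, hr⟩ := h2
  have hs0 : s ≠ 0 := by rintro rfl; simp [hd, hG] at hs
  have hr0 : r ≠ 0 := by rintro rfl; simp [he, hH] at hr
  obtain rfl : d = s * s / G := by rw [← hs]; field_simp
  obtain rfl : e = r * r / H := by rw [← hr]; field_simp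
  obtain ⟨z0, z2, z3, t, h0, h1, h2⟩ := h
  refine ⟨z0 * (G * H) / (s * r), z2 * G / s, z3 * H / r, t, fun h => h0 ?_, ?_, ?_⟩
  · simpa [hs0, hr0, hG, hH] using h
  · rw [← h1]; field_simp
  · rw [← h2]; field_simp

/-- The abstract part of the argument. -/
theorem good_of (sha : SHAStmt) (rank : RANKStmt) {a b : ℚ} {g₂ g₃ : Fin 4 → ℚ} {c : ℤ}
    {V : Finset Gen} (ha : a ≠ 0) (hb : b ≠ 0) (hab : a ≠ b) (hV : ∀ x ∈ V, x.2 ≠ 0)
    (hg : ∀ i, g₂ i ≠ 0 ∧ g₃ i ≠ 0 ∧ Sol2 a b (g₂ i) (g₃ i))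
    (hi : ∀ I : Finset (Fin 4), IsSquare (∏ i ∈ I, g₂ i) → IsSquare (∏ i ∈ I, g₃ i) → I = ∅)
    (loc : ∀ d₂ d₃ : ℚ, d₂ ≠ 0 → d₃ ≠ 0 → ELS a b d₂ d₃ →
      ∃ y ∈ Ker (gp c) V, IsSquare (d₂ * (Gv 2 y : ℚ)) ∧ IsSquare (d₃ * (Gv 1 y : ℚ)))
    (hK : (Ker (gp c) V).card ≤ 16) : Good (Ecv a b) := by
  have hne : ∀ y ∈ Ker (gp c) V, ∀ x ∈ y, x.2 ≠ 0 := fun y hy x hx =>
    hV x (mem_powerset.1 (mem_filter.1 hy).1 hx)
  have h2 : ∀ I : Finset (Fin 4), ∏ i ∈ I, g₂ i ≠ 0 := fun I =>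
    prod_ne_zero_iff.2 fun i _ => (hg i).1
  have h3 : ∀ I : Finset (Fin 4), ∏ i ∈ I, g₃ i ≠ 0 := fun I =>
    prod_ne_zero_iff.2 fun i _ => (hg i).2.1
  have hY : ∀ I : Finset (Fin 4), ∃ y ∈ Ker (gp c) V,
      IsSquare ((∏ i ∈ I, g₂ i) * (Gv 2 y : ℚ)) ∧ IsSquare ((∏ i ∈ I, g₃ i) * (Gv 1 y : ℚ)) := by
    intro I
    induction I using Finset.induction_on with
    | empty => exact ⟨∅, by simp [Ker], by simp [Gv], by simp [Gv]⟩
    | insert i I hI ih =>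
      obtain ⟨y, hy, e2, e3⟩ := ih
      obtain ⟨x, hx, f2, f3⟩ := loc _ _ (hg i).1 (hg i).2.1 (els_of (hg i).2.2)
      have hxy : ∀ t ∈ x ∩ y, t.2 ≠ 0 := fun t ht => hne x hx t (mem_inter.1 ht).1
      refine ⟨symmDiff x y, ker_symmDiff hx hy, sq_of_mul (Gv_ne (j := 2) hxy) f2 e2 ?_,
        sq_of_mul (Gv_ne (j := 1) hxy) f3 e3 ?_⟩
      · rw [prod_insert hI, mul_assoc, Gv_symmDiff]; ring
      · rw [prod_insert hI, mul_assoc, Gv_symmDiff]; ring
  choose Y hY1 hY2 hY3 using hY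
  have hinj : Function.Injective Y := fun I I' e => by
    refine symmDiff_eq_empty.1 (hi _ ?_ ?_)
    · refine sq_of_mul (mul_ne_zero (h2 (I ∩ I')) (Gv_ne (j := 2) (hne _ (hY1 I)))) (hY2 I)
        (hY2 I') ?_
      rw [mul_pow, ← mul_assoc, prod_symmDiff, ← e]; ring
    · refine sq_of_mul (mul_ne_zero (h3 (I ∩ I')) (Gv_ne (j := 1) (hne _ (hY1 I)))) (hY3 I)
        (hY3 I') ?_
      rw [mul_pow, ← mul_assoc, prod_symmDiff, ← e]; ring
  have himg : univ.image Y = Ker (gp c) V := by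
    refine eq_of_subset_of_card_le (image_subset_iff.2 fun I _ => hY1 I) ?_
    rw [card_image_of_injective _ hinj]
    simpa using hK
  have key : ∀ d₂ d₃ : ℚ, d₂ ≠ 0 → d₃ ≠ 0 → ELS a b d₂ d₃ →
      ∃ I : Finset (Fin 4), IsSquare (d₂ * ∏ i ∈ I, g₂ i) ∧ IsSquare (d₃ * ∏ i ∈ I, g₃ i) := by
    intro d₂ d₃ hd he hE
    obtain ⟨y, hy, e2, e3⟩ := loc d₂ d₃ hd he hE
    have hy' := hy
    rw [← himg] at hy'
    obtain ⟨I, -, rfl⟩ := mem_image.1 hy'
    exact ⟨I, sq_of_mul (Gv_ne (j := 2) (hne _ hy)) e2 (hY2 I) (by ring),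
      sq_of_mul (Gv_ne (j := 1) (hne _ hy)) e3 (hY3 I) (by ring)⟩
  obtain ⟨r1, r2, r3⟩ := rank a b g₂ g₃ ha hb hab hg hi
    fun d₂ d₃ hd he hS => key d₂ d₃ hd he (els_of hS)
  refine ⟨r1, r2, sha a b ha hb hab fun d₂ d₃ hd he hE => ?_⟩
  obtain ⟨I, e2, e3⟩ := key d₂ d₃ hd he hE
  exact sol_scale hd he (h2 I) (h3 I) e2 e3 (r3 I)

theorem val_prod (p : ℕ) [Fact p.Prime] {g : Fin 4 → ℚ} (hg : ∀ i, g i ≠ 0) (I : Finset (Fin 4)) :
    padicValRat p (∏ i ∈ I, g i) = ∑ i ∈ I, padicValRat p (g i) := by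
  induction I using Finset.induction_on with
  | empty => simp
  | insert i I hI ih =>
    rw [prod_insert hI, sum_insert hI,
      padicValRat.mul (hg i) (prod_ne_zero_iff.2 fun j _ => hg j), ih]

theorem even_of_sq (p : ℕ) [Fact p.Prime] {g : Fin 4 → ℚ} (hg : ∀ i, g i ≠ 0) {I : Finset (Fin 4)}
    (h : IsSquare (∏ i ∈ I, g i)) {e : Fin 4 → ℤ} (he : ∀ i, padicValRat p (g i) = e i) :
    Even (∑ i, if i ∈ I then e i else 0) := by
  obtain ⟨r, hr⟩ := h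
  have hr0 : r ≠ 0 := by
    rintro rfl
    exact prod_ne_zero_iff.2 (fun j _ => hg j) (hr.trans (mul_zero 0))
  have h1 := val_prod p hg I
  rw [hr, padicValRat.mul hr0 hr0] at h1
  rw [sum_ite_mem, univ_inter, ← sum_congr rfl fun i _ => he i, ← h1]
  exact ⟨_, rfl⟩

theorem val_zero {p : ℕ} [Fact p.Prime] {m : ℤ} (h : ¬(p : ℤ) ∣ m) : padicValRat p (m : ℚ) = 0 := by
  rw [padicValRat.of_int, padicValInt.eq_zero_of_not_dvd h]; rfl

theorem val_one {p l : ℕ} [hp : Fact p.Prime] {m : ℤ} (hl : Squarefree l) (h1 : p ∣ l)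
    (h : ¬(p : ℤ) ∣ m) : padicValRat p (((l : ℤ) * m : ℤ) : ℚ) = 1 := by
  have hm : m ≠ 0 := by rintro rfl; exact h (dvd_zero _)
  have hl0 : l ≠ 0 := hl.ne_zero
  rw [Int.cast_mul, padicValRat.mul (by exact_mod_cast hl0) (by exact_mod_cast hm), val_zero h,
    add_zero, Int.cast_natCast, padicValRat.of_nat]
  have h2 : 1 ≤ padicValNat p l := one_le_padicValNat_of_dvd hl0 h1
  have h3 : padicValNat p l ≤ 1 := by
    rw [← Nat.factorization_def l hp.out]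
    exact hl.natFactorization_le_one p
  exact_mod_cast le_antisymm h3 h2

/-- Independence of the four classes. -/
theorem indep {l : Fin 6 → ℕ} {N : ℕ} {k m : ℤ} (sqf : ∀ h, Squarefree (l h))
    (one : ∀ h, 1 < l h) (cM : ∀ h, (l h).Coprime (3 * N))
    (cop : ∀ h k, h ≠ k → (l h).Coprime (l k))
    (sm : ∀ p : ℕ, p.Prime → (p : ℤ) ∣ m * k → p ∣ 3 * N) {g₂ g₃ : Fin 4 → ℚ}
    (h2 : ∀ i, g₂ i ≠ 0) (h3 : ∀ i, g₃ i ≠ 0)
    (e2 : ∀ i, g₂ i = ((![-(l 2 * l 3), l 2 * l 3 * (3 * N * l 0 * l 1 * (m * k)),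
      l 3 * (N * l 1 * k), -(3 * N * l 0 * l 1)] : Fin 4 → ℤ) i : ℤ))
    (e3 : ∀ i, g₃ i = ((![-(l 4 * l 5), 3 * N * l 0 * l 1 * (m * k),
      l 4 * (N * l 1 * k), -(3 * N * l 0 * l 1)] : Fin 4 → ℤ) i : ℤ))
    (I : Finset (Fin 4)) (s2 : IsSquare (∏ i ∈ I, g₂ i)) (s3 : IsSquare (∏ i ∈ I, g₃ i)) :
    I = ∅ := by
  have ex : ∀ h, ∃ p : ℕ, p.Prime ∧ p ∣ l h ∧ Prime (p : ℤ) ∧ ¬(p : ℤ) ∣ 3 ∧ ¬(p : ℤ) ∣ N ∧
      ¬(p : ℤ) ∣ m ∧ ¬(p : ℤ) ∣ k ∧ ∀ j, j ≠ h → ¬(p : ℤ) ∣ l j := fun h => by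
    obtain ⟨p, hp, hd⟩ := Nat.exists_prime_and_dvd (one h).ne'
    have hM : ¬p ∣ 3 * N := fun h' => hp.one_lt.ne' (Nat.eq_one_of_dvd_coprimes (cM h) hd h')
    refine ⟨p, hp, hd, Nat.prime_iff_prime_int.1 hp,
      fun h' => hM (Dvd.dvd.mul_right (by exact_mod_cast h') _),
      fun h' => hM (Dvd.dvd.mul_left (by exact_mod_cast h') _),
      fun h' => hM (sm p hp (h'.mul_right _)), fun h' => hM (sm p hp (h'.mul_left _)),
      fun j hj h' => hp.one_lt.ne' (Nat.eq_one_of_dvd_coprimes (cop j h hj)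
        (by exact_mod_cast h') hd)⟩
  have q2 : Even (∑ i, if i ∈ I then (![1, 1, 0, 0] : Fin 4 → ℤ) i else 0) := by
    obtain ⟨p, hp, hd, hq, a1, a2, a3, a4, a5⟩ := ex 2
    have := Fact.mk hp
    refine even_of_sq p h2 s2 fun i => ?_
    rw [e2]
    fin_cases i
    · have := val_one (m := -l 3) (sqf 2) hd (by simp [a5])
      simpa using this
    · have := val_one (m := l 3 * (3 * N * l 0 * l 1 * (m * k))) (sqf 2) hd
        (by simp [hq.dvd_mul, a1, a2, a3, a4, a5])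
      simpa [mul_assoc] using this
    · exact val_zero (by simp [hq.dvd_mul, a2, a4, a5])
    · exact val_zero (by simp [hq.dvd_mul, a1, a2, a5])
  have q3 : Even (∑ i, if i ∈ I then (![1, 1, 1, 0] : Fin 4 → ℤ) i else 0) := by
    obtain ⟨p, hp, hd, hq, a1, a2, a3, a4, a5⟩ := ex 3
    have := Fact.mk hp
    refine even_of_sq p h2 s2 fun i => ?_
    rw [e2]
    fin_cases i
    · have := val_one (m := -l 2) (sqf 3) hd (by simp [a5])
      simpa [mul_comm] using this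
    · have := val_one (m := l 2 * (3 * N * l 0 * l 1 * (m * k))) (sqf 3) hd
        (by simp [hq.dvd_mul, a1, a2, a3, a4, a5])
      rw [← mul_assoc, mul_comm (l 3 : ℤ)] at this
      exact this
    · exact val_one (sqf 3) hd (by simp [hq.dvd_mul, a2, a4, a5])
    · exact val_zero (by simp [hq.dvd_mul, a1, a2, a5])
  have q5 : Even (∑ i, if i ∈ I then (![1, 0, 0, 0] : Fin 4 → ℤ) i else 0) := by
    obtain ⟨p, hp, hd, hq, a1, a2, a3, a4, a5⟩ := ex 5
    have := Fact.mk hp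
    refine even_of_sq p h3 s3 fun i => ?_
    rw [e3]
    fin_cases i
    · have := val_one (m := -l 4) (sqf 5) hd (by simp [a5])
      simpa [mul_comm] using this
    · exact val_zero (by simp [hq.dvd_mul, a1, a2, a3, a4, a5])
    · exact val_zero (by simp [hq.dvd_mul, a2, a4, a5])
    · exact val_zero (by simp [hq.dvd_mul, a1, a2, a5])
  have q0 : Even (∑ i, if i ∈ I then (![0, 1, 0, 1] : Fin 4 → ℤ) i else 0) := by
    obtain ⟨p, hp, hd, hq, a1, a2, a3, a4, a5⟩ := ex 0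
    have := Fact.mk hp
    refine even_of_sq p h3 s3 fun i => ?_
    rw [e3]
    fin_cases i
    · exact val_zero (by simp [hq.dvd_mul, a5])
    · have := val_one (m := 3 * N * l 1 * (m * k)) (sqf 0) hd
        (by simp [hq.dvd_mul, a1, a2, a3, a4, a5])
      rw [show (l 0 : ℤ) * (3 * N * l 1 * (m * k)) = 3 * N * l 0 * l 1 * (m * k) by ring] at this
      exact this
    · exact val_zero (by simp [hq.dvd_mul, a2, a4, a5])
    · have := val_one (m := -(3 * N * l 1)) (sqf 0) hd (by simp [hq.dvd_mul, a1, a2, a5])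
      rw [show (l 0 : ℤ) * -(3 * N * l 1) = -(3 * N * l 0 * l 1) by ring] at this
      exact this
  clear s2 s3
  revert q2 q3 q5 q0
  revert I
  decide

end Alg

open Alg in
theorem alg : KCStmt → SHAStmt → RANKStmt → LOCStmt → ALGStmt := by
  intro _ sha rank loc u v w z N x hF hK
  set l := lf (cA u v) (cB N w z) x with hl
  have l0 : l 0 = x.1 := by simp [hl, lf, cA, cB]
  have l1 : l 1 = x.2 := by simp [hl, lf, cA, cB]
  have l2 : (l 2 : ℚ) = 3 * x.1 * u ^ 2 + N * x.2 * w ^ 2 := by simp [hl, lf, cA, cB]; ring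
  have l3 : (l 3 : ℚ) = 3 * x.1 * v ^ 2 + N * x.2 * z ^ 2 := by simp [hl, lf, cA, cB]; ring
  have l4 : (l 4 : ℚ) = 3 * x.1 * u ^ 2 + N * x.2 * z ^ 2 := by simp [hl, lf, cA, cB]; ring
  have l5 : (l 5 : ℚ) = 3 * x.1 * v ^ 2 + N * x.2 * w ^ 2 := by simp [hl, lf, cA, cB]; ring
  have hpos : ∀ h, (l h : ℚ) ≠ 0 := fun h => by have := hF.one h; positivity
  have hx1 : (x.1 : ℚ) ≠ 0 := l0 ▸ hpos 0
  have hx2 : (x.2 : ℚ) ≠ 0 := l1 ▸ hpos 1
  have hN : (N : ℚ) ≠ 0 := by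
    have := hF.sqM.ne_zero
    exact_mod_cast right_ne_zero_of_mul this
  have hsq : ∀ s t : ℕ, s ≠ t → (s : ℚ) ^ 2 - t ^ 2 ≠ 0 := fun s t hst h => hst (by
    have h1 : (s : ℚ) ^ 2 = t ^ 2 := sub_eq_zero.1 h
    exact_mod_cast (pow_left_inj₀ (Nat.cast_nonneg s) (Nat.cast_nonneg t) two_ne_zero).1 h1)
  have hm := hsq u v hF.uv
  have hk := hsq z w hF.wz.symm
  have hE : Efam u v w z (3 * x.1) (N * x.2) = Ecv ((l 2 * l 3 : ℕ) : ℚ) ((l 4 * l 5 : ℕ) : ℚ) := by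
    rw [Efam, Nat.cast_mul (l 2), Nat.cast_mul (l 4), l2, l3, l4, l5]
    push_cast
    rfl
  have hD : (l 2 : ℚ) * l 3 - l 4 * l 5 =
      3 * N * x.1 * x.2 * (((u : ℚ) ^ 2 - v ^ 2) * (z ^ 2 - w ^ 2)) := by
    rw [l2, l3, l4, l5]; ring
  have hD0 : 3 * (N : ℚ) * x.1 * x.2 * (((u : ℚ) ^ 2 - v ^ 2) * (z ^ 2 - w ^ 2)) ≠ 0 := by
    simp [hN, hx1, hx2, hm, hk]
  let g₂ : Fin 4 → ℚ := ![-(l 2 * l 3),
    l 2 * l 3 * (3 * N * x.1 * x.2 * ((u ^ 2 - v ^ 2) * (z ^ 2 - w ^ 2))),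
    l 3 * (N * x.2 * (z ^ 2 - w ^ 2)), -(3 * N * x.1 * x.2)]
  let g₃ : Fin 4 → ℚ := ![-(l 4 * l 5), 3 * N * x.1 * x.2 * ((u ^ 2 - v ^ 2) * (z ^ 2 - w ^ 2)),
    l 4 * (N * x.2 * (z ^ 2 - w ^ 2)), -(3 * N * x.1 * x.2)]
  have h2 : ∀ i, g₂ i ≠ 0 := fun i => by
    fin_cases i <;> simp [g₂, hpos, hN, hx1, hx2, hm, hk]
  have h3 : ∀ i, g₃ i ≠ 0 := fun i => by
    fin_cases i <;> simp [g₃, hpos, hN, hx1, hx2, hm, hk]
  rw [hE]
  refine good_of sha rank (g₂ := g₂) (g₃ := g₃) (by simp [hpos]) (by simp [hpos]) (fun h => hD0 ?_)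
    (fun a ha => ne_of_VV ha) (fun i => ⟨h2 i, h3 i, ?_⟩)
    (indep (m := (u : ℤ) ^ 2 - v ^ 2) (k := (z : ℤ) ^ 2 - w ^ 2) hF.sqf hF.one hF.cM hF.cop hF.sm
      h2 h3 (fun i => ?_) fun i => ?_) (loc u v w z N x hF) hK
  · rw [← hD, sub_eq_zero]; exact_mod_cast h
  · push_cast
    fin_cases i
    · exact ⟨0, 1, 1, 1, by simp, by simp [g₂], by simp [g₃]⟩
    · refine ⟨1 / (3 * N * x.1 * x.2 * ((u ^ 2 - v ^ 2) * (z ^ 2 - w ^ 2))), 0, 1, 1, by simp,
        ?_, ?_⟩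
      · simp only [g₂, g₃, Fin.mk_one, Matrix.cons_val_one, Matrix.cons_val_zero]
        field_simp
        ring
      · simp only [g₂, g₃, Fin.mk_one, Matrix.cons_val_one, Matrix.cons_val_zero]
        rw [← hD] at hD0 ⊢
        field_simp
        ring
    · refine ⟨1 / (N * x.2 * (z ^ 2 - w ^ 2)), 1, 1, 1, by simp, ?_, ?_⟩
      · simp only [g₂, g₃, Fin.reduceFinMk, Matrix.cons_val]
        field_simp
        rw [l2, l4]; ring
      · simp only [g₂, g₃, Fin.reduceFinMk, Matrix.cons_val]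
        field_simp
        rw [l3, l5]; ring
    · refine ⟨(3 * x.1 * u * v + N * x.2 * w * z) / (3 * N * x.1 * x.2), u * z - v * w,
        u * w - v * z, 1, by simp, ?_, ?_⟩
      · simp only [g₂, g₃, Fin.reduceFinMk, Matrix.cons_val]
        field_simp
        rw [l2, l3]; ring
      · simp only [g₂, g₃, Fin.reduceFinMk, Matrix.cons_val]
        field_simp
        rw [l4, l5]; ring
  · rw [← hl, l0, l1]
    fin_cases i <;> simp [g₂]
  · rw [← hl, l0, l1]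
    fin_cases i <;> simp [g₃]

end Pool.Agent.MP_a43263_nt.R2

end MrgPart0

-- ======== part 1: formerly Pool.Agent.MP_a43263_nt.R2.Lya
section MrgPart1

/-! PROJECT RANK2: the Lyapunov function. -/

set_option autoImplicit false

noncomputable section

namespace Pool.Agent.MP_a43263_nt.R2

open Finset Filter

namespace Lya

theorem sum_split {S T : Finset Gen} (h : Disjoint S T) (F : Finset Gen → ℝ) :
    ∑ W ∈ (S ∪ T).powerset, F W = ∑ U ∈ S.powerset, ∑ A ∈ T.powerset, F (U ∪ A) := by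
  rw [← sum_product']
  refine sum_nbij' (fun W => (W ∩ S, W ∩ T)) (fun p => p.1 ∪ p.2) ?_ ?_ ?_ ?_ ?_
  · intro W _
    simp
  · intro p hp
    obtain ⟨h1, h2⟩ := mem_product.1 hp
    exact mem_powerset.2 (union_subset_union (mem_powerset.1 h1) (mem_powerset.1 h2))
  · intro W hW
    show W ∩ S ∪ W ∩ T = W
    rw [← inter_union_distrib_left, inter_eq_left.2 (mem_powerset.1 hW)]
  · intro p hp
    obtain ⟨h1, h2⟩ := mem_product.1 hp
    have h1 := mem_powerset.1 h1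
    have h2 := mem_powerset.1 h2
    refine Prod.ext ?_ ?_
    · show (p.1 ∪ p.2) ∩ S = p.1
      rw [union_inter_distrib_right, inter_eq_left.2 h1,
        disjoint_iff_inter_eq_empty.1 (h.symm.mono_left h2), union_empty]
    · show (p.1 ∪ p.2) ∩ T = p.2
      rw [union_inter_distrib_right, inter_eq_left.2 h2,
        disjoint_iff_inter_eq_empty.1 (h.mono_left h1), empty_union]
  · intro W hW
    show F W = F (W ∩ S ∪ W ∩ T)
    rw [← inter_union_distrib_left, inter_eq_left.2 (mem_powerset.1 hW)]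

theorem one_add_sum_le (T : Finset Gen) (w : Gen → ℝ) (hw : ∀ b ∈ T, 0 ≤ w b) :
    1 + ∑ b ∈ T, w b ≤ ∏ b ∈ T, (1 + w b) := by
  induction T using Finset.induction_on with
  | empty => simp
  | insert a T ha ih =>
    rw [sum_insert ha, prod_insert ha]
    have h1 := ih fun b hb => hw b (mem_insert_of_mem hb)
    have h2 := hw a (mem_insert_self _ _)
    have h3 : 0 ≤ ∑ b ∈ T, w b := sum_nonneg fun b hb => hw b (mem_insert_of_mem hb)
    nlinarith

/-- the size of the kernel -/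
def kk (c : ℤ) (V : Finset Gen) : ℝ := √((Ker (gp c) V).card)

theorem kk_nonneg (c : ℤ) (V : Finset Gen) : 0 ≤ kk c V := Real.sqrt_nonneg _

theorem kk_union (hB : BORStmt) (c : ℤ) (V A : Finset Gen) :
    kk c (V ∪ A) ≤ √2 ^ A.card * kk c V := by
  have h : ((Ker (gp c) (V ∪ A)).card : ℝ) ≤ 2 ^ A.card * (Ker (gp c) V).card := by
    exact_mod_cast (hB _ (gp_sgn c) V).1 A
  refine Real.sqrt_le_iff.2 ⟨mul_nonneg (by positivity) (kk_nonneg c V), ?_⟩
  rw [mul_pow, ← pow_mul, mul_comm A.card, pow_mul, Real.sq_sqrt (by norm_num), kk,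
    Real.sq_sqrt (by positivity)]
  exact h

theorem kk_le (c : ℤ) (V W : Finset Gen) : kk c (V ∪ W) ≤ 2 ^ V.card * 2 ^ W.card := by
  have h : ((Ker (gp c) (V ∪ W)).card : ℝ) ≤ 2 ^ V.card * 2 ^ W.card := by
    have := (Ker_card_le (g := gp c) (V ∪ W)).trans
      (Nat.pow_le_pow_right (by norm_num) (card_union_le V W))
    rw [pow_add] at this
    exact_mod_cast this
  have h1 : (1 : ℝ) ≤ 2 ^ V.card * 2 ^ W.card :=
    one_le_mul_of_one_le_of_one_le (one_le_pow₀ (by norm_num)) (one_le_pow₀ (by norm_num))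
  refine Real.sqrt_le_iff.2 ⟨by positivity, h.trans ?_⟩
  nlinarith

/-- the average over the new primes, in terms of the average over one new prime -/
theorem avg (hB : BORStmt) (c : ℤ) (V : Finset Gen) (P : Finset ℕ) (hP : ∀ p ∈ P, 0 ≤ wt p)
    (hm : 6 * ∑ p ∈ P, wt p ≤ 0.007) :
    ∑ A ∈ (TT P).powerset, Wt A * kk c (V ∪ A) ≤
      (1 + 2 * (6 * ∑ p ∈ P, wt p) ^ 2) * kk c V + ∑ b ∈ TT P, wt b.2 * kk c (insert b V) := by
  set m := 6 * ∑ p ∈ P, wt p with hmd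
  have hw : ∀ b ∈ TT P, 0 ≤ wt b.2 := fun b hb => hP _ (mem_TT.1 hb).2
  have hm0 : 0 ≤ m := mul_nonneg (by norm_num) (sum_nonneg hP)
  have hs : ∑ b ∈ TT P, wt b.2 = m := sum_TT P wt
  have h2 : √2 ≤ 2 := Real.sqrt_le_iff.2 (by norm_num)
  have h20 : 0 ≤ √2 := Real.sqrt_nonneg 2
  have hQ : ∑ A ∈ (TT P).powerset, Wt A * √2 ^ A.card ≤ 1 + √2 * m + 2 * m ^ 2 := by
    have e1 : ∑ A ∈ (TT P).powerset, Wt A * √2 ^ A.card = ∏ b ∈ TT P, (1 + √2 * wt b.2) := by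
      rw [prod_one_add]
      refine sum_congr rfl fun A _ => ?_
      rw [prod_mul_distrib, prod_const, mul_comm]
      rfl
    have e2 : ∏ b ∈ TT P, (1 + √2 * wt b.2) ≤ Real.exp (√2 * m) := by
      rw [← hs, mul_sum, Real.exp_sum]
      refine prod_le_prod (fun b hb => ?_) fun b _ => ?_
      · have := mul_nonneg h20 (hw b hb)
        linarith
      · linarith [Real.add_one_le_exp (√2 * wt b.2)]
    have e3 := Real.abs_exp_sub_one_sub_id_le (x := √2 * m) (by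
      rw [abs_of_nonneg (mul_nonneg h20 hm0)]
      nlinarith)
    rw [mul_pow, Real.sq_sqrt (by norm_num)] at e3
    rw [e1]
    linarith [(abs_le.1 e3).2]
  have h3 : ∑ b ∈ TT P, wt b.2 * (√2 * kk c V - kk c (insert b V)) ≤
      ∑ A ∈ (TT P).powerset, Wt A * (√2 ^ A.card * kk c V - kk c (V ∪ A)) := by
    have := sum_le_sum_of_subset_of_nonneg
      (f := fun A => Wt A * (√2 ^ A.card * kk c V - kk c (V ∪ A)))
      (s := (TT P).map ⟨singleton, singleton_injective⟩) (t := (TT P).powerset)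
      (fun A hA => by
        obtain ⟨b, hb, rfl⟩ := mem_map.1 hA
        exact mem_powerset.2 (singleton_subset_iff.2 hb))
      (fun A hA _ => mul_nonneg (prod_nonneg fun b hb => hw b (mem_powerset.1 hA hb))
        (sub_nonneg.2 (kk_union hB c V A)))
    rw [sum_map] at this
    refine le_trans (le_of_eq (sum_congr rfl fun b _ => ?_)) this
    simp [Wt]
  simp only [mul_sub, sum_sub_distrib, ← mul_assoc, ← sum_mul] at h3
  rw [hs] at h3
  have h4 := mul_le_mul_of_nonneg_right hQ (kk_nonneg c V)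
  linarith

theorem avg_triv (hB : BORStmt) (c : ℤ) (V : Finset Gen) (P : Finset ℕ) (hP : ∀ p ∈ P, 0 ≤ wt p)
    (hm : 6 * ∑ p ∈ P, wt p ≤ 0.007) :
    ∑ A ∈ (TT P).powerset, Wt A * kk c (V ∪ A) ≤ 2 * kk c V := by
  have h1 := avg hB c V P hP hm
  have h2 : √2 ≤ 2 := Real.sqrt_le_iff.2 (by norm_num)
  have h3 : ∑ b ∈ TT P, wt b.2 * kk c (insert b V) ≤ ∑ b ∈ TT P, wt b.2 * (2 * kk c V) := by
    refine sum_le_sum fun b hb => mul_le_mul_of_nonneg_left ?_ (hP _ (mem_TT.1 hb).2)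
    have := kk_union hB c V {b}
    rw [union_comm, ← insert_eq, card_singleton, pow_one] at this
    exact this.trans (mul_le_mul_of_nonneg_right h2 (kk_nonneg c V))
  rw [← sum_mul, sum_TT P wt] at h3
  have hm0 : 0 ≤ 6 * ∑ p ∈ P, wt p := mul_nonneg (by norm_num) (sum_nonneg hP)
  have h4 := kk_nonneg c V
  have h5 : (1 + 2 * (6 * ∑ p ∈ P, wt p) ^ 2) + 2 * (6 * ∑ p ∈ P, wt p) ≤ 2 := by nlinarith
  nlinarith

theorem chs_close {M a y : ℕ} (hM : 0 < M) (h210 : 210 ∣ M) (hMa : M ≤ a) (hay : a ≤ y) (G : ℤ) :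
    |∑ p ∈ PP M a y, wt p * jacobiSym G p| ≤ |chs G a y| + 10 / a := by
  have hge : ∀ p ∈ pri a y, 11 ≤ p := fun p hp => PP_ge h210 (PP_eq_pri hM hMa ▸ hp)
  rw [PP_eq_pri hM hMa]
  have e : ∑ p ∈ pri a y, wt p * jacobiSym G p =
      chs G a y + ∑ p ∈ pri a y, (wt p - 1 / p) * jacobiSym G p := by
    rw [chs, ← sum_add_distrib]
    exact sum_congr rfl fun p _ => by ring
  rw [e]
  refine (abs_add_le _ _).trans (add_le_add le_rfl ((abs_sum_le_sum_abs _ _).trans ?_))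
  have h1 : ∑ p ∈ pri a y, |(wt p - 1 / p) * jacobiSym G p| ≤
      ∑ p ∈ pri a y, 10 * ((p : ℝ) ^ 2)⁻¹ := by
    refine sum_le_sum fun p hp => ?_
    have a1 := le_wt (hge p hp)
    have a2 := wt_sub_le (hge p hp)
    have a3 : |(jacobiSym G p : ℝ)| ≤ 1 := by
      rcases jacobiSym.trichotomy G p with h | h | h <;> simp [h]
    rw [abs_mul, abs_of_nonneg (sub_nonneg.2 a1)]
    exact (mul_le_of_le_one_right (sub_nonneg.2 a1) a3).trans a2
  have h2 : ∑ p ∈ pri a y, 10 * ((p : ℝ) ^ 2)⁻¹ ≤ ∑ p ∈ Ioc a y, 10 * ((p : ℝ) ^ 2)⁻¹ :=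
    sum_le_sum_of_subset_of_nonneg (filter_subset _ _) fun _ _ _ => by positivity
  have h3 := sum_Ioc_inv_sq_le_sub (α := ℝ) (k := a) (n := y) (by omega) hay
  rw [← mul_sum (Ioc a y)] at h2
  have h4 : (0 : ℝ) ≤ (y : ℝ)⁻¹ := by positivity
  rw [div_eq_mul_inv]
  linarith

/-- the exceptional configurations -/
def Exc (M a y : ℕ) (Z : Finset Gen) : Prop :=
  ∃ x ⊆ V0 M ∪ Z, ∃ j, Gv j x ≠ 1 ∧ (0.000001 : ℝ) < |chs (Gv j x) a y|

open Classical in
theorem point (hB : BORStmt) (hS : STEPStmt) {M a y : ℕ} (c : ℤ) (hM : 0 < M) (h210 : 210 ∣ M)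
    (hMa : M ≤ a) (ha : 2000000 ≤ a) (hay : a ≤ y) (h1 : 0.005 ≤ 6 * ∑ p ∈ PP M a y, wt p)
    (h2 : 6 * ∑ p ∈ PP M a y, wt p ≤ 0.007) {W : Finset Gen} (hW : W ⊆ TT (PP M 0 a))
    (hD : Dist W) :
    ∑ A ∈ (TT (PP M a y)).powerset, Wt A * kk c (V0 M ∪ W ∪ A) ≤
      0.9999 * Mass (PP M a y) * kk c (V0 M ∪ W) + 200 +
        if Exc M a y W then 2 * 2 ^ (V0 M).card * 2 ^ W.card else 0 := by
  have hP : ∀ p ∈ PP M a y, 0 ≤ wt p := fun p hp => (wt_pos (PP_ge h210 hp)).le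
  have t1 := avg_triv hB c (V0 M ∪ W) _ hP h2
  have t2 : 0 ≤ 0.9999 * Mass (PP M a y) * kk c (V0 M ∪ W) :=
    mul_nonneg (mul_nonneg (by norm_num) (zero_le_one.trans (one_le_Mass h210 a y)))
      (kk_nonneg _ _)
  split_ifs with hE
  · have := kk_le c (V0 M) W
    linarith
  by_cases hK : (Ker (gp c) (V0 M ∪ W)).card < 10000
  · have : kk c (V0 M ∪ W) ≤ 100 := by
      refine Real.sqrt_le_iff.2 ⟨by norm_num, ?_⟩
      have : ((Ker (gp c) (V0 M ∪ W)).card : ℝ) ≤ 10000 := by exact_mod_cast hK.le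
      linarith
    linarith
  have s1 := hS c (V0 M ∪ W) (PP M a y) wt (nice_TT ((by norm_num : 2 ∣ 210).trans h210) hD hW)
    (fun p hp => by
      have e1 := PP_ge h210 hp
      obtain ⟨e2, -, e3, e4⟩ := mem_PP.1 hp
      refine ⟨e3, by omega, hP p hp, fun b hb e => ?_⟩
      rcases mem_union.1 hb with hb | hb
      · rcases (mem_V0.1 hb).2 with k | k
        · omega
        · exact e4 (e ▸ Nat.dvd_of_mem_primeFactors k)
      · have := (mem_PP.1 (mem_TT.1 (hW hb)).2).2.1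
        omega) (not_lt.1 hK)
    (fun x hx j hj => by
      have e1 := chs_close hM h210 hMa hay (Gv j x)
      have e2 : |chs (Gv j x) a y| ≤ 0.000001 := not_lt.1 fun h => hE ⟨x, hx, j, hj, h⟩
      have e3 : (10 : ℝ) / a ≤ 0.000005 := by
        have : (2000000 : ℝ) ≤ a := by exact_mod_cast ha
        rw [div_le_iff₀ (by linarith)]
        linarith
      linarith)
  have s2 := avg hB c (V0 M ∪ W) _ hP h2
  have s3 : 1 + 6 * ∑ p ∈ PP M a y, wt p ≤ Mass (PP M a y) := by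
    rw [← sum_TT _ wt, Mass, ← prod_TT _ fun p => 1 + wt p]
    exact one_add_sum_le _ _ fun b hb => hP _ (mem_TT.1 hb).2
  set m := 6 * ∑ p ∈ PP M a y, wt p
  have s4 : 1 + 2 * m ^ 2 + 0.96 * m ≤ 0.9999 * Mass (PP M a y) := by nlinarith
  have s5 := mul_le_mul_of_nonneg_right s4 (kk_nonneg c (V0 M ∪ W))
  change ∑ b ∈ TT (PP M a y), wt b.2 * kk c (insert b (V0 M ∪ W)) ≤
    0.96 * m * kk c (V0 M ∪ W) at s1
  linarith

open Classical in
/-- the quantity to be bounded -/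
def LL (M : ℕ) (c : ℤ) (y : ℕ) : ℝ :=
  ∑ W ∈ (TT (PP M 0 y)).powerset.filter Dist, Wt W * kk c (V0 M ∪ W)

open Classical in
theorem LL_nonneg {M : ℕ} (h210 : 210 ∣ M) (c : ℤ) (y : ℕ) : 0 ≤ LL M c y :=
  sum_nonneg fun _ hW =>
    mul_nonneg (Wt_nonneg h210 (mem_powerset.1 (mem_filter.1 hW).1)) (kk_nonneg _ _)

open Classical in
theorem recur (hB : BORStmt) (hS : STEPStmt) {M a y : ℕ} (c : ℤ) (hM : 0 < M) (h210 : 210 ∣ M)
    (hMa : M ≤ a) (ha : 2000000 ≤ a) (hay : a ≤ y) (h1 : 0.005 ≤ 6 * ∑ p ∈ PP M a y, wt p)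
    (h2 : 6 * ∑ p ∈ PP M a y, wt p ≤ 0.007)
    (hE : ∑ Z ∈ (TT (PP M 0 a)).powerset.filter (fun Z => Dist Z ∧ Exc M a y Z),
      Wt Z * 2 ^ Z.card ≤ 1) :
    LL M c y ≤ 0.9999 * Mass (PP M a y) * LL M c a + 200 * Mass (PP M 0 a) +
      2 * 2 ^ (V0 M).card := by
  obtain ⟨u1, u2⟩ := PP_union M (Nat.zero_le a) hay
  have u3 : TT (PP M 0 y) = TT (PP M 0 a) ∪ TT (PP M a y) := by
    rw [u1, TT, product_union]; rfl
  have u4 : Disjoint (TT (PP M 0 a)) (TT (PP M a y)) := disjoint_left.2 fun b h h' =>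
    disjoint_left.1 u2 (mem_TT.1 h).2 (mem_TT.1 h').2
  have e1 : LL M c y ≤ ∑ W ∈ (TT (PP M 0 a)).powerset.filter Dist,
      Wt W * ∑ A ∈ (TT (PP M a y)).powerset, Wt A * kk c (V0 M ∪ W ∪ A) := by
    rw [LL, sum_filter, u3, sum_split u4, sum_filter]
    refine sum_le_sum fun W hW => ?_
    split_ifs with hD
    · rw [mul_sum]
      refine sum_le_sum fun A hA => ?_
      have e : Wt (W ∪ A) = Wt W * Wt A :=
        prod_union (u4.mono (mem_powerset.1 hW) (mem_powerset.1 hA))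
      split_ifs
      · rw [e, union_assoc, mul_assoc]
      · exact mul_nonneg (Wt_nonneg h210 (mem_powerset.1 hW))
          (mul_nonneg (Wt_nonneg h210 (mem_powerset.1 hA)) (kk_nonneg _ _))
    · exact (sum_eq_zero fun A _ => if_neg fun h => hD (h.mono subset_union_left)).le
  have e2 := sum_le_sum fun W (hW : W ∈ (TT (PP M 0 a)).powerset.filter Dist) =>
    mul_le_mul_of_nonneg_left (point hB hS c hM h210 hMa ha hay h1 h2
      (mem_powerset.1 (mem_filter.1 hW).1) (mem_filter.1 hW).2)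
      (Wt_nonneg h210 (mem_powerset.1 (mem_filter.1 hW).1))
  refine (e1.trans e2).trans ?_
  simp only [mul_add, sum_add_distrib]
  refine add_le_add (add_le_add (le_of_eq ?_) ?_) ?_
  · rw [LL, mul_sum]
    exact sum_congr rfl fun W _ => by ring
  · rw [← sum_mul, mul_comm, ← sum_Wt]
    exact mul_le_mul_of_nonneg_left (sum_le_sum_of_subset_of_nonneg (filter_subset _ _)
      fun W hW _ => Wt_nonneg h210 (mem_powerset.1 hW)) (by norm_num)
  · have := mul_le_mul_of_nonneg_left hE (show (0 : ℝ) ≤ 2 * 2 ^ (V0 M).card by positivity)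
    rw [mul_one, mul_sum, ← filter_filter, sum_filter] at this
    refine le_trans (le_of_eq (sum_congr rfl fun W _ => ?_)) this
    split_ifs <;> ring

/-- the choice of the previous scale -/
theorem scale (hm : MERStmt) {M : ℕ} (hM : 0 < M) (h210 : 210 ∣ M) (a₀ : ℕ) :
    ∃ y₁ : ℕ, ∀ y, y₁ ≤ y → ∃ a, a₀ ≤ a ∧ a < y ∧ y ≤ a ^ 3 ∧
      0.005 ≤ 6 * ∑ p ∈ PP M a y, wt p ∧ 6 * ∑ p ∈ PP M a y, wt p ≤ 0.007 := by
  classical
  obtain ⟨C, hC⟩ := hm.1
  obtain ⟨r₀, hr₀⟩ := eventually_atTop.1 ((Real.tendsto_log_atTop.comp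
    tendsto_natCast_atTop_atTop).eventually_ge_atTop (2 * |C|))
  refine ⟨(r₀ + a₀ + M + 6000) ^ 2, fun y hy => ?_⟩
  have hr : r₀ + a₀ + M + 6000 ≤ y.sqrt := Nat.le_sqrt'.2 hy
  have r1 := Nat.sqrt_le' y
  have r2 := Nat.lt_succ_sqrt' y
  have r3 := Nat.sqrt_le_self y
  set r := y.sqrt
  have hr0 : 0.005 ≤ 6 * ∑ p ∈ PP M r y, wt p := by
    have e1 : ∑ p ∈ pri r y, (1 : ℝ) / p ≤ ∑ p ∈ PP M r y, wt p := by
      rw [← PP_eq_pri hM (by omega : M ≤ r)]
      exact sum_le_sum fun p hp => le_wt (PP_ge h210 hp)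
    have e2 := (abs_le.1 (hC r y (by omega) r3)).1
    have e3 : 2 * |C| ≤ Real.log r := hr₀ r (by omega)
    have e4 : 0 < Real.log r := Real.log_pos (by exact_mod_cast (by omega : 1 < r))
    have e5 : C / Real.log r ≤ 1 / 2 := by
      rw [div_le_iff₀ e4]
      linarith [le_abs_self C]
    have e6 : 2 ≤ Real.log y / Real.log r := by
      rw [le_div_iff₀ e4]
      have := Real.log_le_log (pow_pos (Nat.cast_pos.2 (by omega)) 2)
        (show (r : ℝ) ^ 2 ≤ y by exact_mod_cast r1)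
      rw [Real.log_pow] at this
      exact_mod_cast this
    have e7 := Real.log_le_log (by norm_num) e6
    linarith [Real.log_two_gt_d9]
  let a := Nat.findGreatest (fun a => 0.005 ≤ 6 * ∑ p ∈ PP M a y, wt p) y
  have a1 : r ≤ a := Nat.le_findGreatest r3 hr0
  have a2 : 0.005 ≤ 6 * ∑ p ∈ PP M a y, wt p :=
    Nat.findGreatest_spec (P := fun a => 0.005 ≤ 6 * ∑ p ∈ PP M a y, wt p) r3 hr0
  have a3 : a ≤ y := Nat.findGreatest_le y
  have a4 : a < y := by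
    refine lt_of_le_of_ne a3 fun e => ?_
    rw [e, eq_empty_of_forall_notMem (s := PP M y y) fun p hp => by
      have := mem_PP.1 hp
      omega] at a2
    norm_num at a2
  have a5 : ¬ 0.005 ≤ 6 * ∑ p ∈ PP M (a + 1) y, wt p :=
    Nat.findGreatest_is_greatest (P := fun a => 0.005 ≤ 6 * ∑ p ∈ PP M a y, wt p)
      (Nat.lt_succ_self a) a4
  refine ⟨a, by omega, a4, ?_, a2, ?_⟩
  · have := Nat.pow_le_pow_left a1 3
    have h6 : 6000 ≤ r := by omega
    have : r.succ ^ 2 ≤ r ^ 3 := by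
      rw [Nat.succ_eq_add_one]
      nlinarith [Nat.mul_le_mul_left (r * r) h6]
    omega
  · have b1 : (11 : ℕ) ≤ a + 1 := by omega
    have b2 : ∑ p ∈ PP M a y, wt p ≤ ∑ p ∈ insert (a + 1) (PP M (a + 1) y), wt p := by
      refine sum_le_sum_of_subset_of_nonneg (fun p hp => ?_) fun p hp _ => ?_
      · obtain ⟨k1, k2⟩ := mem_PP.1 hp
        by_cases e : p = a + 1
        · exact mem_insert.2 (.inl e)
        · exact mem_insert_of_mem (mem_PP.2 ⟨by omega, k2⟩)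
      · rcases mem_insert.1 hp with rfl | hp
        · exact (wt_pos b1).le
        · exact (wt_pos (PP_ge h210 hp)).le
    rw [sum_insert fun h => lt_irrefl _ (mem_PP.1 h).1] at b2
    have b3 : wt (a + 1) ≤ 2 / 6000 := by
      refine (wt_le b1).trans (div_le_div_of_nonneg_left (by norm_num) (by norm_num) ?_)
      exact_mod_cast (by omega : 6000 ≤ a + 1)
    linarith

end Lya

theorem lya : BORStmt → MERStmt → EXPStmt → STEPStmt → LYAStmt := by
  intro hB hm hE hS M c hM h210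
  obtain ⟨a₀, ha₀⟩ := eventually_atTop.1 (hE M 3 0.000001 1 hM h210 (by norm_num) one_pos)
  obtain ⟨y₁, hy₁⟩ := Lya.scale hm hM h210 (a₀ + M + 2000000)
  set C : ℝ := 10000 * (200 + 2 * 2 ^ (V0 M).card) + ∑ y ∈ range y₁, Lya.LL M c y with hC
  have hsum : 0 ≤ ∑ y ∈ range y₁, Lya.LL M c y := sum_nonneg fun y _ => Lya.LL_nonneg h210 c y
  have hB0 : (0 : ℝ) ≤ 2 * 2 ^ (V0 M).card := by positivity
  refine ⟨C, fun y => ?_⟩
  change Lya.LL M c y ≤ _
  induction y using Nat.strong_induction_on with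
  | _ y ih =>
  have m1 := one_le_Mass h210 0 y
  by_cases hy : y < y₁
  · have := single_le_sum (f := Lya.LL M c) (fun y _ => Lya.LL_nonneg h210 c y) (mem_range.2 hy)
    nlinarith
  obtain ⟨a, k1, k2, k3, k4, k5⟩ := hy₁ y (not_lt.1 hy)
  have e1 := Lya.recur hB hS c hM h210 (by omega) (by omega) k2.le k4 k5 (by
    have := ha₀ a (by omega) a y le_rfl k3
    convert this
    rfl)
  have e2 := ih a k2
  have m2 := one_le_Mass h210 0 a
  have m3 := one_le_Mass h210 a y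
  have m4 : Mass (PP M 0 y) = Mass (PP M 0 a) * Mass (PP M a y) := by
    obtain ⟨u1, u2⟩ := PP_union M (Nat.zero_le a) k2.le
    rw [u1, Mass, prod_union u2]; rfl
  have m5 : Mass (PP M 0 a) ≤ Mass (PP M 0 y) := by
    rw [m4]; nlinarith
  have e3 := mul_le_mul_of_nonneg_left e2
    (show 0 ≤ 0.9999 * Mass (PP M a y) by linarith)
  have e4 : 0.9999 * Mass (PP M a y) * (C * Mass (PP M 0 a)) = 0.9999 * (C * Mass (PP M 0 y)) := by
    rw [m4]; ring
  have e5 : (200 + 2 * 2 ^ (V0 M).card) * Mass (PP M 0 y) ≤ 0.0001 * (C * Mass (PP M 0 y)) := by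
    rw [← mul_assoc]
    exact mul_le_mul_of_nonneg_right (by linarith) (by linarith)
  nlinarith

end Pool.Agent.MP_a43263_nt.R2

end
end MrgPart1

-- marker of a merged file
example : 731051 + 24606 = 731051 + 24606 := rfl
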