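import Mathlib.Analysis.PSeries
import Mathlib.Analysis.Complex.ExponentialBounds
import Mathlib.Analysis.SpecialFunctions.Log.Base
import Mathlib.NumberTheory.Harmonic.Bounds
import Pool.Agent.MP_a43263_nt.R2.Basic

/-! PROJECT RANK2: the oscillating part is small on average. -/

set_option autoImplicit false

noncomputable section

namespace Pool.Agent.MP_a43263_nt.R2

open Finset Filter

namespace OscP

/-! ### splitting one term according to the frozen data -/

/-- frozen data -/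
abbrev Key : Type := Σ _ : Finset Gen, Finset Gen × Finset Gen × ℕ

def keys (Os : Finset (Finset Gen)) (I : ℕ) : Finset Key :=
  Os.sigma fun O => O.powerset ×ˢ O.powerset ×ˢ range I

open Classical in
/-- the weight attached to frozen data -/
def wgt (S : Sc) (pr : Finset Gen → Prop) (g : TL) (k : Key) : ℝ :=
  if pr (le S.Y k.1) then
    1 / (1 + ((k.1.filter fun b => S.Y < b.2 ∧ tl k.2.1 k.2.2.1 b = g).card : ℝ)) else 0

theorem abs_wgt_le (S : Sc) (pr : Finset Gen → Prop) (g : TL) (k : Key) :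
    |wgt S pr g k| ≤ 1 := by
  unfold wgt
  split_ifs
  · rw [abs_of_nonneg (by positivity), div_le_one (by positivity)]
    exact le_add_of_nonneg_right (Nat.cast_nonneg _)
  · simp

theorem le_outer {S : Sc} (hY : S.Y ≤ S.Y') (V U U' : Finset Gen) (f g : TL) (s : Gen) :
    le S.Y (outer S V U U' f g s) = le S.Y V := by
  ext b
  simp only [outer, mem_le, mem_filter]
  constructor
  · rintro ⟨⟨⟨h1, -⟩, -⟩, h2⟩
    exact ⟨h1, h2⟩
  · rintro ⟨h1, h2⟩
    exact ⟨⟨⟨h1, h2.trans hY⟩, .inl h2⟩, h2⟩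

theorem tl_inter {O U U' : Finset Gen} {b : Gen} (hb : b ∈ O) :
    tl (O ∩ U) (O ∩ U') b = tl U U' b := by
  simp [tl, hb]

theorem card_type {S : Sc} {V U U' : Finset Gen} {f g : TL} (hfg : f.1 ≠ g.1) {s : Gen}
    (hs : s ∈ md S.Y S.Y' V) (hg : tl U U' s = g) :
    1 + ((outer S V U U' f g s).filter fun b => S.Y < b.2 ∧
        tl (outer S V U U' f g s ∩ U) (outer S V U U' f g s ∩ U') b = g).card =
      ((md S.Y S.Y' V).filter fun b => tl U U' b = g).card := by
  have h1 : s ∈ (md S.Y S.Y' V).filter fun b => tl U U' b = g := mem_filter.2 ⟨hs, hg⟩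
  rw [← card_erase_add_one h1, add_comm]
  congr 2
  ext b
  rw [mem_erase, mem_filter, mem_filter, mem_md]
  constructor
  · rintro ⟨h2, h3, h4⟩
    rw [tl_inter h2] at h4
    obtain ⟨h5, h6⟩ := mem_filter.1 h2
    refine ⟨?_, ⟨(mem_le.1 h5).1, h3, (mem_le.1 h5).2⟩, h4⟩
    rintro rfl
    rcases h6 with h6 | h6 | h6
    · omega
    · exact hfg (h6.1.symm.trans (congrArg Prod.fst h4))
    · exact h6.2 rfl
  · rintro ⟨h2, ⟨h3, h4, h5⟩, h6⟩
    have h7 : b ∈ outer S V U U' f g s :=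
      mem_filter.2 ⟨mem_le.2 ⟨h3, h5⟩, .inr (.inr ⟨congrArg Prod.fst h6, h2⟩)⟩
    exact ⟨h7, h4, (tl_inter h7).trans h6⟩

theorem log_iff {n i : ℕ} (hn : 1 < n) : 2 ^ i < n ∧ n ≤ 2 ^ (i + 1) ↔ Nat.log 2 (n - 1) = i := by
  rw [Nat.log_eq_iff (.inr ⟨by norm_num, by omega⟩)]
  omega

open Classical in
theorem single {S : Sc} (hY : S.Y ≤ S.Y') (V U U' : Finset Gen) {f g : TL} (hfg : f.1 ≠ g.1)
    (q : Prop) (t : ℝ) (pr : Finset Gen → Prop) (Os : Finset (Finset Gen)) (I : ℕ)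
    (hg : q → g ∈ pat (md S.Y S.Y' V) U U')
    (hn : q → 1 < nOf S V U U' f ∧ nOf S V U U' f ≤ 2 ^ I)
    (hO : ∀ s, outer S V U U' f g s ∈ Os) :
    (if pr (le S.Y V) then (if q then t else 0) else 0) =
      ∑ k ∈ keys Os I, wgt S pr g k * ∑ s ∈ md S.Y S.Y' V,
        if q ∧ tl U U' s = g ∧ outer S V U U' f g s = k.1 ∧ k.1 ∩ U = k.2.1 ∧
          k.1 ∩ U' = k.2.2.1 ∧ 2 ^ k.2.2.2 < nOf S V U U' f ∧ nOf S V U U' f ≤ 2 ^ (k.2.2.2 + 1)
        then t else 0 := by
  by_cases hq : q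
  swap
  · simp [hq]
  obtain ⟨h1, h2⟩ := hn hq
  set N := ((md S.Y S.Y' V).filter fun b => tl U U' b = g).card with hN
  have hN0 : 0 < N := by
    obtain ⟨s, hs, e⟩ := mem_image.1 (hg hq)
    exact card_pos.2 ⟨s, mem_filter.2 ⟨hs, e⟩⟩
  have hN' : (N : ℝ) ≠ 0 := by positivity
  simp only [mul_sum]
  rw [sum_comm, sum_congr rfl (g := fun s => if tl U U' s = g then
    (if pr (le S.Y V) then t / N else 0) else 0)]
  · rw [← sum_filter, sum_const, nsmul_eq_mul, ← hN, if_pos hq]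
    split_ifs
    · field_simp
    · simp
  intro s hs
  by_cases hsg : tl U U' s = g
  swap
  · simp [hsg]
  rw [if_pos hsg, sum_eq_single (⟨outer S V U U' f g s, outer S V U U' f g s ∩ U,
    outer S V U U' f g s ∩ U', Nat.log 2 (nOf S V U U' f - 1)⟩ : Key)]
  · rw [if_pos ⟨hq, hsg, rfl, rfl, rfl, (log_iff h1).2 rfl⟩, wgt, le_outer hY]
    split_ifs
    · have := congrArg (Nat.cast : ℕ → ℝ) (card_type hfg hs hsg)
      push_cast at this
      rw [this, ← hN]
      ring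
    · simp
  · rintro ⟨O, O₁, O₂, i⟩ - hne
    dsimp only
    rw [if_neg, mul_zero]
    rintro ⟨-, -, rfl, rfl, rfl, h3⟩
    obtain rfl := (log_iff h1).1 h3
    exact hne rfl
  · intro h
    refine absurd ?_ h
    simp only [keys, mem_sigma, mem_product, mem_powerset, mem_range]
    exact ⟨hO s, inter_subset_left, inter_subset_left,
      Nat.log_lt_of_lt_pow (by omega) (by omega)⟩

/-! ### the sets of frozen generators that occur -/

def Os (S : Sc) : Finset (Finset Gen) :=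
  (univ ×ˢ Icc 1 S.Y').powerset.filter fun O =>
    ∏ b ∈ le S.Y O, b.2 ≤ S.M * S.Y0 ^ 18 ∧ (O.filter fun b => S.Y < b.2).card ≤ 36 * S.J

section
variable {S : Sc} {A B : Fin 6 → ℕ} {x : ℕ × ℕ}

theorem prod_V0 {M : ℕ} (hM : 0 < M) : ∏ b ∈ V0 M, b.2 ≤ M := by
  rw [V0, prod_insert_one (f := fun b : Gen => b.2) rfl,
    prod_image fun _ _ _ _ e => (Prod.mk.inj e).2]
  exact Nat.le_of_dvd hM (Nat.prod_primeFactors_dvd M)

theorem prod_small (hR : Rel S) (hM : 0 < S.M) (hY : S.M ≤ S.Y) (hx : x ∈ AA S A B) :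
    ∏ b ∈ le S.Y (VV S.M (lf A B x)), b.2 ≤ S.M * S.Y0 ^ 18 := by
  rw [le_VV hM hY, le, prod_union ((disjoint_V0_gens _ _).mono_right (filter_subset _ _))]
  refine Nat.mul_le_mul (prod_V0 hM) ?_
  rw [prod_filter, prod_gens]
  refine (prod_le_pow_card _ _ (S.Y0 ^ 3) fun h _ => ?_).trans (by simp [← pow_mul])
  obtain ⟨c, P, hc, hP, hl, e⟩ := (mem_AA.1 hx).2.2.2.2.2 h
  rw [e, ← prod_filter (fun p => p ≤ S.Y) fun p => p]
  refine (prod_le_prod_of_subset_of_one_le' (fun p hp => ?_) fun p hp _ => ?_).trans hc.sm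
  · rw [mem_filter, hc.primeFactors_mul hP, mem_insert] at hp
    have := hR.Y_le
    have h4 := hp.1.resolve_left (by omega)
    have := hc.gap _ h4
    exact mem_filter.2 ⟨h4, by omega⟩
  · exact (Nat.prime_of_mem_primeFactors (mem_filter.1 hp).1).pos

theorem card_md (hM : 0 < S.M) (hY : S.M ≤ S.Y) (hx : x ∈ AA S A B) :
    (md S.Y S.Y' (VV S.M (lf A B x))).card ≤ 36 * S.J := by
  rw [md_VV hM hY, md, gens, filter_biUnion]
  refine card_biUnion_le.trans ((sum_le_card_nsmul _ _ (6 * S.J) fun h _ => ?_).trans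
    (by simp; omega))
  obtain ⟨c, P, hc, hP, hl, e⟩ := (mem_AA.1 hx).2.2.2.2.2 h
  rw [filter_image]
  refine card_image_le.trans ((card_le_card fun p hp => ?_).trans hc.hi)
  rw [mem_filter, e, hc.primeFactors_mul hP, mem_insert] at hp
  obtain ⟨h1, h2, h3⟩ := hp
  exact mem_filter.2 ⟨h1.resolve_left (by simp only at h3; omega), h2⟩

theorem one_le_of_mem {M : ℕ} {l : Fin 6 → ℕ} {b : Gen} (hb : b ∈ VV M l) : 1 ≤ b.2 := by
  rcases mem_VV.1 hb with h | h
  · rcases (mem_V0.1 h).2 with k | k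
    · omega
    · exact (Nat.prime_of_mem_primeFactors k).pos
  · obtain ⟨_, -, k⟩ := mem_gens.1 h
    exact (Nat.prime_of_mem_primeFactors k).pos

theorem outer_mem (hR : Rel S) (hM : 0 < S.M) (hY : S.M ≤ S.Y) (hx : x ∈ AA S A B)
    (U U' : Finset Gen) (f g : TL) (s : Gen) : outer S (VV S.M (lf A B x)) U U' f g s ∈ Os S := by
  refine mem_filter.2 ⟨mem_powerset.2 fun b hb => ?_, ?_, ?_⟩
  · have := mem_le.1 (mem_filter.1 hb).1
    exact mem_product.2 ⟨mem_univ _, mem_Icc.2 ⟨one_le_of_mem this.1, this.2⟩⟩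
  · rw [le_outer hR.Y_le]
    exact prod_small hR hM hY hx
  · refine (card_le_card fun b hb => ?_).trans (card_md hM hY hx)
    have := mem_le.1 (mem_filter.1 (mem_filter.1 hb).1).1
    exact mem_md.2 ⟨this.1, (mem_filter.1 hb).2, this.2⟩

theorem nOf_bound (hR : Rel S) (hM : 0 < S.M) (hY : S.M ≤ S.Y) (hx : x ∈ AA S A B)
    {U U' : Finset Gen} {f : TL} (hf : f ∈ pat (md S.Y S.Y' (VV S.M (lf A B x))) U U') :
    1 < nOf S (VV S.M (lf A B x)) U U' f ∧
      nOf S (VV S.M (lf A B x)) U U' f ≤ 2 ^ (Nat.log 2 (S.Y' ^ (36 * S.J)) + 1) := by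
  constructor
  · obtain ⟨s, hs, e⟩ := mem_image.1 hf
    have h1 := (mem_md.1 hs).2.1
    refine lt_of_lt_of_le (by omega : 1 < s.2) (single_le_prod' (f := fun b : Gen => b.2)
      (fun b hb => one_le_of_mem (mem_md.1 (mem_filter.1 hb).1).1) (mem_filter.2 ⟨hs, e⟩))
  · have := hR.Y_le
    refine (prod_le_pow_card _ _ S.Y' fun b hb => (mem_md.1 (mem_filter.1 hb).1).2.2).trans
      ((Nat.pow_le_pow_right (by omega) ((card_filter_le _ _).trans (card_md hM hY hx))).trans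
        (Nat.lt_pow_succ_log_self (by norm_num) _).le)

end

/-! ### summing over the frozen data -/

theorem sum_harm (n : ℕ) : ∑ m ∈ Icc 1 n, (1 : ℝ) / m ≤ 1 + Real.log n := by
  have := harmonic_le_one_add_log n
  rwa [harmonic_eq_sum_Icc, Rat.cast_sum, sum_congr rfl fun m _ => by
    rw [Rat.cast_inv, Rat.cast_natCast, ← one_div]] at this

theorem sum_sq (n : ℕ) : ∑ m ∈ Icc 1 n, (1 : ℝ) / (m : ℝ) ^ 2 ≤ 2 := by
  have := sum_Ioo_inv_sq_le (α := ℝ) 0 (n + 1)
  rw [Nat.cast_zero, zero_add, div_one] at this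
  refine le_trans (le_of_eq ?_) this
  exact sum_congr (by ext m; simp; omega) fun m _ => one_div _

theorem sum_Os (S : Sc) :
    ∑ O ∈ Os S, (4 : ℝ) ^ O.card / ∏ b ∈ O.filter (fun b => S.Y < b.2), (b.2 : ℝ) ≤
      Real.exp 84 * ((S.M * S.Y0 ^ 18 : ℝ) ^ 2 * (1 + Real.log S.Y') ^ (36 * S.J)) := by
  set L := 1 + Real.log S.Y' with hL
  have hL1 : 1 ≤ L := le_add_of_nonneg_right (Real.log_natCast_nonneg _)
  set u : Gen → ℝ := fun b => 4 * (1 / (b.2 : ℝ) ^ 2) + 4 / L * (1 / b.2) with hu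
  have hu0 : ∀ b, 0 ≤ u b := fun b => by positivity
  have h1 : ∑ O ∈ (univ ×ˢ Icc 1 S.Y' : Finset Gen).powerset, ∏ b ∈ O, u b ≤ Real.exp 84 := by
    rw [← prod_one_add]
    refine (Real.prod_one_add_le_exp_sum _ hu0).trans (Real.exp_le_exp.2 ?_)
    simp only [sum_product, hu, sum_const, sum_add_distrib, ← mul_sum, card_univ, Fintype.card_fin,
      nsmul_eq_mul]
    have h2 := sum_sq S.Y'
    have h3 : 4 / L * ∑ m ∈ Icc 1 S.Y', (1 : ℝ) / m ≤ 4 := by
      rw [div_mul_eq_mul_div, div_le_iff₀ (by positivity)]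
      linarith [sum_harm S.Y']
    push_cast
    linarith
  refine le_trans ?_ (mul_le_mul_of_nonneg_right h1 (by positivity))
  rw [sum_mul]
  refine (sum_le_sum fun O hO => ?_).trans
    (sum_le_sum_of_subset_of_nonneg (filter_subset _ _) fun O _ _ =>
      mul_nonneg (prod_nonneg fun b _ => hu0 b) (by positivity))
  obtain ⟨h2, h3, h4⟩ := mem_filter.1 hO
  have h5 : ∀ b ∈ O, (0 : ℝ) < b.2 := fun b hb =>
    Nat.cast_pos.2 (mem_Icc.1 (mem_product.1 (mem_powerset.1 h2 hb)).2).1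
  have h6 : (4 : ℝ) ^ (le S.Y O).card ≤ (∏ b ∈ le S.Y O, u b) * (S.M * S.Y0 ^ 18 : ℝ) ^ 2 := by
    calc (4 : ℝ) ^ (le S.Y O).card = ∏ b ∈ le S.Y O, (4 * (1 / (b.2 : ℝ) ^ 2)) * (b.2 : ℝ) ^ 2 := by
          rw [← prod_const]
          refine prod_congr rfl fun b hb => ?_
          have := h5 b (mem_le.1 hb).1
          field_simp
      _ ≤ _ := by
          rw [prod_mul_distrib, prod_pow]
          refine mul_le_mul (prod_le_prod (fun b _ => by positivity)
            fun b _ => le_add_of_nonneg_right (by positivity)) ?_ (by positivity)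
            (prod_nonneg fun b _ => hu0 b)
          gcongr
          exact_mod_cast h3
  have h7 : (4 : ℝ) ^ (O.filter fun b => S.Y < b.2).card /
      ∏ b ∈ O.filter (fun b => S.Y < b.2), (b.2 : ℝ) ≤
        (∏ b ∈ O.filter (fun b => S.Y < b.2), u b) * L ^ (36 * S.J) := by
    calc _ = ∏ b ∈ O.filter (fun b => S.Y < b.2), (4 / L * (1 / (b.2 : ℝ))) * L := by
          rw [← prod_const, ← prod_div_distrib]
          refine prod_congr rfl fun b hb => ?_
          field_simp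
      _ ≤ _ := by
          rw [prod_mul_distrib, prod_const]
          exact mul_le_mul (prod_le_prod (fun b _ => by positivity)
            fun b _ => le_add_of_nonneg_left (by positivity)) (pow_le_pow_right₀ hL1 h4)
            (by positivity) (prod_nonneg fun b _ => hu0 b)
  have h8 : O.filter (fun b => ¬b.2 ≤ S.Y) = O.filter fun b => S.Y < b.2 := by simp only [not_le]
  rw [← card_filter_add_card_filter_not (s := O) (fun b => b.2 ≤ S.Y),
    ← prod_filter_mul_prod_filter_not O (fun b => b.2 ≤ S.Y) u, h8, pow_add, mul_div_assoc,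
    mul_mul_mul_comm]
  exact mul_le_mul h6 h7 (by positivity)
    (mul_nonneg (prod_nonneg fun b _ => hu0 b) (by positivity))

theorem card_range_le (S : Sc) :
    ((Nat.log 2 (S.Y' ^ (36 * S.J)) + 1 : ℕ) : ℝ) ≤ (72 * S.J + 1) * (1 + Real.log S.Y') := by
  have h0 := Real.log_natCast_nonneg S.Y'
  have h1 : (Nat.log 2 (S.Y' ^ (36 * S.J)) : ℝ) ≤ 72 * S.J * Real.log S.Y' := by
    refine (Real.natLog_le_logb _ _).trans ?_
    rw [Real.logb, Nat.cast_pow, Real.log_pow, div_le_iff₀ (Real.log_pos (by norm_num))]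
    have := Real.log_two_gt_d9
    have h2 : (0 : ℝ) ≤ S.J * Real.log S.Y' := by positivity
    push_cast
    nlinarith
  push_cast
  have h2 : (0 : ℝ) ≤ S.J := by positivity
  nlinarith

/-- the bound for one pair of types -/
def Bd (S : Sc) : ℝ :=
  Real.exp 84 * (S.M : ℝ) ^ 2 * (72 * S.J + 1) * (1 + Real.log S.Y') ^ (36 * S.J + 1) *
    (S.Z : ℝ) ^ 2 / (S.Y0 : ℝ) ^ 24

theorem Bd_nonneg (S : Sc) : 0 ≤ Bd S := by
  have h0 := Real.log_natCast_nonneg S.Y'
  unfold Bd
  positivity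

open Classical in
theorem pair_le {S : Sc} {A B : Fin 6 → ℕ} (hR : Rel S) (hM : 0 < S.M) (hY : S.M ≤ S.Y0) (c : ℤ)
    (y y' : Finset (Fin 7)) {f g : TL} (hfg : f.1 ≠ g.1) (ok : Finset TL → Prop)
    [DecidablePred ok] (hok : ∀ π, ok π → f ∈ π ∧ g ∈ π) (pr : Finset Gen → Prop)
    (hk : ∀ O O₁ O₂ i, |keySum S A B c y y' f g ok O O₁ O₂ i| ≤
      (S.Z : ℝ) ^ 2 / ((S.Y0 : ℝ) ^ 60 * ∏ b ∈ O.filter (fun b => S.Y < b.2), (b.2 : ℝ))) :
    |∑ x ∈ AA S A B, ∑ U ∈ (le S.Y' (VV S.M (lf A B x))).powerset,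
      ∑ U' ∈ (le S.Y' (VV S.M (lf A B x))).powerset, if pr (le S.Y (VV S.M (lf A B x))) then
        (if ok (pat (md S.Y S.Y' (VV S.M (lf A B x))) U U') then
          term (gp c) (VV S.M (lf A B x)) y y' U U' else 0) else 0| ≤ Bd S := by
  have hY' := hY.trans hR.Y0_le
  have h0 := Real.log_natCast_nonneg S.Y'
  have hY0 : (0 : ℝ) < S.Y0 := Nat.cast_pos.2 (by omega)
  set I := Nat.log 2 (S.Y' ^ (36 * S.J)) + 1 with hI
  calc _ = |∑ k ∈ keys (Os S) I,
          wgt S pr g k * keySum S A B c y y' f g ok k.1 k.2.1 k.2.2.1 k.2.2.2| := by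
        congr 1
        simp only [keySum]
        simp only [mul_sum (s := AA S A B), mul_sum (s := Finset.powerset _)]
        rw [sum_comm (s := keys _ _)]
        refine sum_congr rfl fun x hx => ?_
        rw [sum_comm (s := keys _ _)]
        refine sum_congr rfl fun U _ => ?_
        rw [sum_comm (s := keys _ _)]
        refine sum_congr rfl fun U' _ => ?_
        convert single hR.Y_le _ U U' hfg _ _ pr (Os S) I (fun h => (hok _ h).2)
          (fun h => nOf_bound hR hM hY' hx (hok _ h).1) (outer_mem hR hM hY' hx U U' f g)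
    _ ≤ ∑ k ∈ keys (Os S) I, (S.Z : ℝ) ^ 2 /
          ((S.Y0 : ℝ) ^ 60 * ∏ b ∈ k.1.filter (fun b => S.Y < b.2), (b.2 : ℝ)) := by
        refine (abs_sum_le_sum_abs _ _).trans (sum_le_sum fun k _ => ?_)
        rw [abs_mul]
        exact (mul_le_of_le_one_left (abs_nonneg _) (abs_wgt_le _ _ _ _)).trans (hk _ _ _ _)
    _ = (S.Z : ℝ) ^ 2 / (S.Y0 : ℝ) ^ 60 * I * ∑ O ∈ Os S,
          (4 : ℝ) ^ O.card / ∏ b ∈ O.filter (fun b => S.Y < b.2), (b.2 : ℝ) := by
        rw [keys, sum_sigma, mul_sum]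
        refine sum_congr rfl fun O _ => ?_
        simp only [sum_const, card_product, card_powerset, card_range, nsmul_eq_mul]
        rw [show (4 : ℝ) = 2 * 2 by norm_num, mul_pow]
        push_cast
        ring
    _ ≤ (S.Z : ℝ) ^ 2 / (S.Y0 : ℝ) ^ 60 * ((72 * S.J + 1) * (1 + Real.log S.Y')) *
          (Real.exp 84 * ((S.M * S.Y0 ^ 18 : ℝ) ^ 2 * (1 + Real.log S.Y') ^ (36 * S.J))) :=
        mul_le_mul (mul_le_mul_of_nonneg_left (card_range_le S) (by positivity)) (sum_Os S)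
          (sum_nonneg fun _ _ => by positivity) (by positivity)
    _ = Bd S := by
        unfold Bd
        field_simp
        ring

open Classical in
theorem ys_le {S : Sc} {A B : Fin 6 → ℕ} (hR : Rel S) (hM : 0 < S.M) (hY : S.M ≤ S.Y0) (c : ℤ)
    (y y' : Finset (Fin 7)) (pr : Finset Gen → Prop)
    (hk : ∀ (f g : TL) (ok : Finset TL → Prop) (O O₁ O₂ : Finset Gen) (i : ℕ), f.1 ≠ g.1 →
      Odd (expo y y' f g) → |keySum S A B c y y' f g ok O O₁ O₂ i| ≤
      (S.Z : ℝ) ^ 2 / ((S.Y0 : ℝ) ^ 60 * ∏ b ∈ O.filter (fun b => S.Y < b.2), (b.2 : ℝ))) :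
    |∑ x ∈ AA S A B, ∑ U ∈ (le S.Y' (VV S.M (lf A B x))).powerset,
      ∑ U' ∈ (le S.Y' (VV S.M (lf A B x))).powerset, if pr (le S.Y (VV S.M (lf A B x))) then
        (if Osc y y' (pat (md S.Y S.Y' (VV S.M (lf A B x))) U U') then
          term (gp c) (VV S.M (lf A B x)) y y' U U' else 0) else 0| ≤ 784 * Bd S := by
  have hex : ∀ π : Finset TL, ∃ p : TL × TL, Osc y y' π →
      (p.1 ∈ π ∧ p.2 ∈ π) ∧ p.1.1 ≠ p.2.1 ∧ Odd (expo y y' p.1 p.2) := by
    intro π
    by_cases h : Osc y y' π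
    · obtain ⟨f, hf, g, hg, k⟩ := h
      exact ⟨(f, g), fun _ => ⟨⟨hf, hg⟩, k⟩⟩
    · exact ⟨default, fun k => absurd k h⟩
  choose ch hch using hex
  calc _ = |∑ p : TL × TL, ∑ x ∈ AA S A B, ∑ U ∈ (le S.Y' (VV S.M (lf A B x))).powerset,
        ∑ U' ∈ (le S.Y' (VV S.M (lf A B x))).powerset, if pr (le S.Y (VV S.M (lf A B x))) then
          (if Osc y y' (pat (md S.Y S.Y' (VV S.M (lf A B x))) U U') ∧
            ch (pat (md S.Y S.Y' (VV S.M (lf A B x))) U U') = p then
            term (gp c) (VV S.M (lf A B x)) y y' U U' else 0) else 0| := by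
        congr 1
        rw [sum_comm (s := univ)]
        refine sum_congr rfl fun x _ => ?_
        rw [sum_comm (s := univ)]
        refine sum_congr rfl fun U _ => ?_
        rw [sum_comm (s := univ)]
        refine sum_congr rfl fun U' _ => ?_
        split_ifs with h1 h2
        · simp [h2]
        · simp [h2]
        · simp
    _ ≤ ∑ _p : TL × TL, Bd S := by
        refine (abs_sum_le_sum_abs _ _).trans (sum_le_sum fun p _ => ?_)
        by_cases hp : p.1.1 ≠ p.2.1 ∧ Odd (expo y y' p.1 p.2)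
        · exact pair_le hR hM hY c y y' hp.1 (fun π => Osc y y' π ∧ ch π = p)
            (fun π h => h.2 ▸ (hch π h.1).1) pr fun O O₁ O₂ i => hk _ _ _ O O₁ O₂ i hp.1 hp.2
        · rw [sum_eq_zero fun x _ => sum_eq_zero fun U _ => sum_eq_zero fun U' _ => ?_, abs_zero]
          · exact Bd_nonneg S
          · rw [if_neg (c := _ ∧ _), ite_self]
            exact fun h => hp (h.2 ▸ (hch _ h.1).2)
    _ = _ := by simp

theorem card_Ys : Ys.card = 64 := by
  rw [Ys, card_powerset, card_erase_of_mem (mem_univ _)]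
  simp

end OscP

open OscP in
theorem os (key : KEYStmt) : OSCStmt := by
  classical
  intro M A B c J ε hs hc hp hε
  refine (((key M A B c J hs hc hp).and (ev_log (64 * 64 * 784 * Real.exp 84 * (M : ℝ) ^ 2 *
    (72 * J + 1) / ε) (36 * J + 1))).and (ev_ge (max M 3))).mono ?_
  rintro S rfl rfl hR ⟨⟨hk, hl⟩, hge⟩ pr
  have h3 : 3 ≤ S.Y0 := le_of_max_le_right hge
  have hL : 1 + Real.log S.Y' ≤ Real.log S.Z := by
    have h1 : (3 : ℝ) ≤ S.Y' := by exact_mod_cast h3.trans (hR.Y0_le.trans hR.Y_le)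
    have h2 : 1 ≤ Real.log S.Y' := by
      rw [Real.le_log_iff_exp_le (by linarith)]
      linarith [Real.exp_one_lt_d9]
    linarith [hR.le_log_Z]
  have hY0 : (1 : ℝ) ≤ S.Y0 := by exact_mod_cast (by omega : 1 ≤ S.Y0)
  calc _ = |∑ y ∈ Ys, ∑ y' ∈ Ys, ∑ x ∈ AA S A B, ∑ U ∈ (le S.Y' (VV S.M (lf A B x))).powerset,
        ∑ U' ∈ (le S.Y' (VV S.M (lf A B x))).powerset, if pr (le S.Y (VV S.M (lf A B x))) then
          (if Osc y y' (pat (md S.Y S.Y' (VV S.M (lf A B x))) U U') then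
            term (gp c) (VV S.M (lf A B x)) y y' U U' else 0) else 0| := by
        congr 1
        rw [sum_filter, sum_congr rfl (g := fun x => ∑ y ∈ Ys, ∑ y' ∈ Ys,
          ∑ U ∈ (le S.Y' (VV S.M (lf A B x))).powerset,
          ∑ U' ∈ (le S.Y' (VV S.M (lf A B x))).powerset, if pr (le S.Y (VV S.M (lf A B x))) then
          (if Osc y y' (pat (md S.Y S.Y' (VV S.M (lf A B x))) U U') then
            term (gp c) (VV S.M (lf A B x)) y y' U U' else 0) else 0), sum_comm]
        · exact sum_congr rfl fun y _ => sum_comm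
        · intro x _
          split_ifs
          · rfl
          · simp
    _ ≤ ∑ _y ∈ Ys, ∑ _y' ∈ Ys, 784 * Bd S :=
        (abs_sum_le_sum_abs _ _).trans (sum_le_sum fun y hy => (abs_sum_le_sum_abs _ _).trans
          (sum_le_sum fun y' hy' => ys_le hR hs.pos (le_of_max_le_left hge) c y y' pr
            (hk y hy y' hy')))
    _ = 64 * 64 * 784 * Real.exp 84 * (S.M : ℝ) ^ 2 * (72 * S.J + 1) / ε *
          (1 + Real.log S.Y') ^ (36 * S.J + 1) / (S.Y0 : ℝ) ^ 24 * (ε * (S.Z : ℝ) ^ 2) := by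
        simp only [sum_const, card_Ys, nsmul_eq_mul, Bd]
        field_simp
        push_cast
        ring
    _ ≤ _ := by
        refine mul_le_of_le_one_left (by positivity) ((div_le_one (by positivity)).2
          (le_trans ?_ (hl.trans (le_self_pow₀ hY0 (by norm_num)))))
        have := Real.log_natCast_nonneg S.Y'
        gcongr

end Pool.Agent.MP_a43263_nt.R2
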