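import Mathlib.Data.Int.Star
import Mathlib.Analysis.PSeries
import Mathlib.Algebra.Order.Chebyshev
import Mathlib.Analysis.Complex.ExponentialBounds
import Mathlib.RingTheory.PiTensorProduct
import Pool.Agent.MP_a43263_nt.R2.Basic

-- ======== part 0: formerly Pool.Agent.MP_a43263_nt.R2.Mkv
section MrgPart0

/-! PROJECT RANK2, module MKV: a positive proportion of the parameters has a small kernel. -/

set_option autoImplicit false

noncomputable section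

namespace Pool.Agent.MP_a43263_nt.R2

open Finset Filter

namespace Mkv

theorem jac_prod (w : Finset Gen) (q : ℕ) :
    jacobiSym (∏ t ∈ w, val t) q = ∏ t ∈ w, jacobiSym (val t) q := by
  induction w using Finset.induction_on with
  | empty => simp
  | insert a w ha ih => rw [prod_insert ha, prod_insert ha, jacobiSym.mul_left, ih]

/-- `c` is a product of generators times a square -/
theorem exists_w {M : ℕ} {c : ℤ} (hM : 0 < M) (hc : c ≠ 0)
    (hp : ∀ p : ℕ, p.Prime → (p : ℤ) ∣ c → p ∣ M) :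
    ∃ w ⊆ V0 M, ∃ s : ℤ, c = (∏ t ∈ w, val t) * s ^ 2 := by
  obtain ⟨a, b, h1, h2⟩ := Nat.sq_mul_squarefree c.natAbs
  have h3 : ∏ t ∈ a.primeFactors.image (fun p => ((6 : Fin 7), p)), val t = a := by
    rw [prod_image fun _ _ _ _ e => (Prod.mk.inj e).2]
    conv_rhs => rw [← Nat.prod_primeFactors_of_squarefree h2]
    push_cast
    exact prod_congr rfl fun p hp => if_neg (Nat.prime_of_mem_primeFactors hp).ne_one
  have h4 : a.primeFactors.image (fun p => ((6 : Fin 7), p)) ⊆ V0 M := by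
    intro t ht
    obtain ⟨p, h, rfl⟩ := mem_image.1 ht
    have k := Nat.prime_of_mem_primeFactors h
    refine mem_V0.2 ⟨rfl, .inr (Nat.mem_primeFactors.2 ⟨k, hp p k ?_, hM.ne'⟩)⟩
    rw [← Int.dvd_natAbs, Int.natCast_dvd_natCast, ← h1]
    exact (Nat.dvd_of_mem_primeFactors h).mul_left _
  have h5 : (b : ℤ) ^ 2 * a = |c| := by rw [← Int.natCast_natAbs, ← h1]; push_cast; rfl
  rcases lt_or_gt_of_ne hc with h | h
  · refine ⟨insert (6, 1) _, insert_subset (neg_mem_V0 M) h4, b, ?_⟩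
    rw [prod_insert, h3]
    · rw [abs_of_neg h] at h5
      simp only [val, if_true]
      linarith
    · simp only [mem_image, Prod.mk.injEq, true_and, exists_eq_right]
      exact fun k => Nat.not_prime_one (Nat.prime_of_mem_primeFactors k)
  · refine ⟨_, h4, b, ?_⟩
    rw [h3]
    rw [abs_of_pos h] at h5
    linarith

theorem gp_zero (c : ℤ) {a b : Gen} (ha : cls a.1 = 0) (hb : cls b.1 = 0) : gp c a b = 1 := by
  unfold gp
  simp [ha, hb]

theorem cls_V0 {M : ℕ} {a : Gen} (h : a ∈ V0 M) : cls a.1 = 0 := by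
  rw [(mem_V0.1 h).1]; rfl

/-- the size of the kernel is a power of four -/
theorem pow_four (bor : BORStmt) {M : ℕ} {c : ℤ} (hM : 0 < M) (hc : c ≠ 0)
    (hp : ∀ p : ℕ, p.Prime → (p : ℤ) ∣ c → p ∣ M) {l : Fin 6 → ℕ} (hl : ∀ h, (l h).Coprime M)
    (he : Even (VV M l).card) : ∃ k : ℕ, (Ker (gp c) (VV M l)).card = 4 ^ k := by
  obtain ⟨w, hw, s, hs⟩ := exists_w hM hc hp
  refine (bor _ (gp_sgn c) _).2.2.2 w (hw.trans subset_union_left) (fun a ha => ?_) ?_ he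
  · by_cases h0 : cls a.1 = 0
    · rw [gp_zero c h0 h0, prod_eq_one fun t ht => gp_zero c (cls_V0 (hw ht)) h0]
    · obtain ⟨h, -, hq⟩ := mem_gens.1 ((mem_VV.1 ha).resolve_left fun k => h0 (cls_V0 k))
      have q1 := Nat.prime_of_mem_primeFactors hq
      have q2 : ¬(a.2 : ℤ) ∣ c := fun k => q1.ne_one
        (Nat.eq_one_of_dvd_coprimes (hl h) (Nat.dvd_of_mem_primeFactors hq) (hp _ q1 k))
      have q3 : jacobiSym c a.2 ≠ 0 := by
        have : NeZero a.2 := ⟨q1.ne_zero⟩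
        rw [Ne, jacobiSym.eq_zero_iff_not_coprime, not_not, Int.gcd_comm]
        rw [Int.natCast_dvd] at q2
        exact (Nat.Prime.coprime_iff_not_dvd q1).2 q2
      have q4 : jacobiSym c a.2 = (∏ t ∈ w, jacobiSym (val t) a.2) * jacobiSym s a.2 ^ 2 := by
        rw [hs, jacobiSym.mul_left, jacobiSym.pow_left, jac_prod]
      have q5 : jacobiSym s a.2 ^ 2 = 1 := by
        rcases jacobiSym.trichotomy s a.2 with k | k | k
        · rw [k] at q4
          simp at q4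
          exact absurd q4 q3
        · rw [k]; norm_num
        · rw [k]; norm_num
      rw [q5, mul_one] at q4
      have q6 : ∀ t ∈ w, gp c t a = jacobiSym (val t) a.2 := by
        intro t ht
        have k0 := cls_V0 (hw ht)
        have k1 : t ≠ a := fun e => h0 (e ▸ k0)
        unfold gp
        rw [if_neg k1, if_pos k0, if_neg h0]
        exact sg_eq ((jacobiSym.trichotomy _ _).resolve_left
          fun k => q3 (q4.trans (prod_eq_zero ht k)))
      rw [prod_congr rfl q6, ← q4]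
      unfold gp
      rw [if_pos rfl, if_neg h0]
      exact sg_eq ((jacobiSym.trichotomy _ _).resolve_left q3)
  · exact prod_eq_one fun a ha => prod_eq_one fun b hb =>
      gp_zero c (cls_V0 (hw ha)) (cls_V0 (hw hb))

theorem even_VV {S : Sc} {A B : Fin 6 → ℕ} {x : ℕ × ℕ} (hR : Rel S)
    (ho : Odd S.M.primeFactors.card) (hx : x ∈ AA S A B) : Even (VV S.M (lf A B x)).card := by
  have h : ∀ h, (lf A B x h).primeFactors.card % 2 = S.e % 2 := fun h => by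
    obtain ⟨c, P, hc, hP, hl, e⟩ := (mem_AA.1 hx).2.2.2.2.2 h
    rw [e, hc.card_mul hR hP hl, hc.par]
  rw [VV, card_union_of_disjoint (disjoint_V0_gens _ _), card_V0, card_gens, Fin.sum_univ_six,
    Nat.even_iff]
  have := Nat.odd_iff.1 ho
  have := h 0
  have := h 1
  have := h 2
  have := h 3
  have := h 4
  have := h 5
  omega

theorem card_tag (M : ℕ) (l : Fin 6 → ℕ) (h : Fin 6) (q : ℕ → Prop) [DecidablePred q] :
    ((VV M l).filter fun a => a.1 = h.castSucc ∧ q a.2).card =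
      ((l h).primeFactors.filter q).card := by
  rw [← card_image_of_injective ((l h).primeFactors.filter q)
    (Prod.mk_right_injective h.castSucc)]
  congr 1
  ext ⟨k, p⟩
  simp only [mem_filter, mem_image, Prod.mk.injEq]
  constructor
  · rintro ⟨h1, rfl, h2⟩
    exact ⟨p, ⟨mk_mem_VV.1 h1, h2⟩, rfl, rfl⟩
  · rintro ⟨p', ⟨h1, h2⟩, rfl, rfl⟩
    exact ⟨mk_mem_VV.2 h1, rfl, h2⟩

/-- the count of the kernel on the set of parameters -/
theorem cnt_AA (cnt : CNTStmt) (c : ℤ) {S : Sc} {A B : Fin 6 → ℕ} {x : ℕ × ℕ} (hR : Rel S)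
    (hM : 0 < S.M) (hY : S.M ≤ S.Y) (hJ : 1 ≤ S.J) (hx : x ∈ AA S A B) :
    ((Ker (gp c) (VV S.M (lf A B x))).card : ℝ) ≤ osc (gp c) S.Y S.Y' (VV S.M (lf A B x)) +
      48 * (((Ker (gp c) (VV S.M (lf A B x))).filter
        (· ⊆ le S.Y (VV S.M (lf A B x)))).card : ℝ) +
      192 * ((Ker (gp c) (le S.Y (VV S.M (lf A B x)))).card : ℝ) / 16 ^ S.J := by
  refine cnt _ (gp_sgn c) _ _ _ _ hR.Y_le hJ (fun a ha h => ?_) (fun h hh => ?_) fun h hh => ?_
  · rcases mem_VV.1 ha with k | k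
    · rcases (mem_V0.1 k).2 with k | k
      · omega
      · have := Nat.le_of_mem_primeFactors k
        omega
    · obtain ⟨j, e, -⟩ := mem_gens.1 k
      exact e ▸ castSucc_ne_six j
  · obtain ⟨j, rfl⟩ := exists_castSucc hh
    obtain ⟨c, P, hc, hP, hl, e⟩ := (mem_AA.1 hx).2.2.2.2.2 j
    rw [card_tag _ _ j (S.Y' < ·), e, hc.filter_gt hR hP hl, card_singleton]
  · obtain ⟨j, rfl⟩ := exists_castSucc hh
    obtain ⟨c, P, hc, hP, hl, e⟩ := (mem_AA.1 hx).2.2.2.2.2 j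
    have h1 : ((md S.Y S.Y' (VV S.M (lf A B x))).filter fun a => a.1 = j.castSucc).card =
        (c.primeFactors.filter (S.Y < ·)).card := by
      rw [md, filter_filter, filter_congr fun _ _ => and_comm,
        card_tag _ _ j fun p => S.Y < p ∧ p ≤ S.Y', e, filter_congr fun _ _ => and_comm,
        ← filter_filter, hc.filter_le hR hP hl]
    rw [h1]
    exact ⟨hc.lo, hc.hi⟩

theorem small_sub (c : ℤ) (V : Finset Gen) (Y : ℕ) :
    (Ker (gp c) V).filter (· ⊆ le Y V) ⊆ Ker (gp c) (le Y V) := fun _ hy =>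
  mem_Ker.2 ⟨(mem_filter.1 hy).2, fun b hb =>
    (mem_Ker.1 (mem_filter.1 hy).1).2 b (mem_le.1 hb).1⟩

theorem small_le_one (c : ℤ) (V : Finset Gen) (Y Y' : ℕ) (h : ¬Bad c (le Y V) (md Y Y' V)) :
    ((Ker (gp c) V).filter (· ⊆ le Y V)).card ≤ 1 := by
  refine (card_le_card (t := {∅}) fun y hy => mem_singleton.2 ?_).trans (card_singleton _).le
  by_contra hne
  exact h ⟨y, small_sub c V Y hy, hne, fun b hb =>
    (mem_Ker.1 (mem_filter.1 hy).1).2 b (mem_md.1 hb).1⟩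

theorem mass_mul {M a b d : ℕ} (hM : 210 ∣ M) (h1 : a ≤ b) (h2 : b ≤ d) :
    Mass (PP M 0 a) * Mass (PP M b d) ≤ Mass (PP M 0 d) := by
  obtain ⟨e1, d1⟩ := PP_union M (Nat.zero_le b) h2
  obtain ⟨e2, d2⟩ := PP_union M (Nat.zero_le a) h1
  have k1 : Mass (PP M 0 d) = Mass (PP M 0 b) * Mass (PP M b d) := by
    rw [e1]; exact prod_union d1
  have k2 : Mass (PP M 0 b) = Mass (PP M 0 a) * Mass (PP M a b) := by
    rw [e2]; exact prod_union d2
  have := one_le_Mass hM 0 a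
  have := one_le_Mass hM b d
  rw [k1, k2]
  exact mul_le_mul_of_nonneg_right (le_mul_of_one_le_right (by linarith) (one_le_Mass hM a b))
    (by linarith)

end Mkv

open Mkv in
theorem mkv : BORStmt → CNTStmt → MERStmt → DOMStmt → LYAStmt → KILStmt → OSCStmt → MKVStmt := by
  classical
  intro bor cnt mer dom lya kil os M A B c δ hs hc hp ho hδ
  obtain ⟨CD, hCD, dom⟩ := dom M A B hs
  obtain ⟨CM, mer⟩ := mer.2.2.2.2
  obtain ⟨CL, lya⟩ := lya M c hs.pos hs.dvd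
  have hCM : 0 ≤ CM := by
    have h1 := (one_le_Mass hs.dvd 0 2).trans (mer M 0 2 hs.dvd le_rfl)
    by_contra h
    have : CM * Real.log (2 : ℕ) ^ 6 ≤ 0 :=
      mul_nonpos_of_nonpos_of_nonneg (not_le.1 h).le (by positivity)
    linarith
  have hCL : 0 ≤ CL := by
    have h1 := (sum_nonneg fun W hW => mul_nonneg (Wt_nonneg hs.dvd
      (mem_powerset.1 (mem_filter.1 hW).1)) (Real.sqrt_nonneg _)).trans (lya 0)
    exact nonneg_of_mul_nonneg_left h1 (zero_lt_one.trans_le (one_le_Mass hs.dvd 0 0))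
  obtain ⟨t, ht⟩ := exists_nat_gt (2 * (CD * CM * CL) / δ)
  have ht0 : (0 : ℝ) < t := lt_of_le_of_lt (by positivity) ht
  rw [div_lt_iff₀ hδ] at ht
  obtain ⟨J₀, hJ₀⟩ := pow_unbounded_of_one_lt
    ((144 * (CD * CM) * ((t : ℝ) ^ 2) ^ 2 + 192 * (t : ℝ) ^ 2) / δ) (one_lt_two (α := ℝ))
  refine ⟨J₀ + 1, fun J hJ => ?_⟩
  have hJ1 : 144 * (CD * CM) * ((t : ℝ) ^ 2) ^ 2 + 192 * (t : ℝ) ^ 2 ≤ δ * 2 ^ J := by
    rw [div_lt_iff₀ hδ] at hJ₀
    have : (2 : ℝ) ^ J₀ ≤ 2 ^ J := pow_le_pow_right₀ one_le_two (by omega)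
    nlinarith
  refine ((((dom J).and (kil M c (t ^ 2) J hs.pos hs.dvd)).and
    (os M A B c J δ hs hc hp hδ)).and (ev_ge (M + 2))).mono ?_
  rintro S rfl rfl hR ⟨⟨⟨dom, kil⟩, os⟩, hY0⟩ hA
  have hY := hR.Y0_le
  have hY' := hR.Y_le
  have hMY : S.M ≤ S.Y := by omega
  have hL : 0 < Real.log S.Y' ^ 6 :=
    pow_pos (Real.log_pos (by exact_mod_cast (by omega : 1 < S.Y'))) 6
  have hm : CD * (S.Z : ℝ) ^ 2 / Real.log S.Y' ^ 6 *
      (Mass (PP S.M 0 S.Y0) * Mass (PP S.M S.Y S.Y')) ≤ CD * CM * (S.Z : ℝ) ^ 2 := by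
    have h1 := (mass_mul hs.dvd hY hY').trans (mer S.M 0 S.Y' hs.dvd (by omega))
    calc _ ≤ CD * (S.Z : ℝ) ^ 2 / Real.log S.Y' ^ 6 * (CM * Real.log S.Y' ^ 6) := by gcongr
      _ = _ := by rw [div_mul_eq_mul_div, div_eq_iff hL.ne']; ring
  have hq : 0 ≤ CD * (S.Z : ℝ) ^ 2 / Real.log S.Y' ^ 6 := by positivity
  -- the parameters with a large kernel on the small primes
  have h1 : (t : ℝ) * (((AA S A B).filter fun x =>
      ¬(Ker (gp c) (le S.Y (VV S.M (lf A B x)))).card ≤ t ^ 2).card : ℝ) ≤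
      CD * CM * CL * (S.Z : ℝ) ^ 2 := by
    have k1 := dom (fun W _ => √((Ker (gp c) (V0 S.M ∪ W)).card)) fun _ _ => Real.sqrt_nonneg _
    have k2 : ∑ W ∈ (TT (PP S.M 0 S.Y0)).powerset.filter Dist,
        ∑ W' ∈ (TT (PP S.M S.Y S.Y')).powerset, Wt W * Wt W' * √((Ker (gp c) (V0 S.M ∪ W)).card) ≤
        CL * (Mass (PP S.M 0 S.Y0) * Mass (PP S.M S.Y S.Y')) := by
      have : ∀ W, ∑ W' ∈ (TT (PP S.M S.Y S.Y')).powerset,
          Wt W * Wt W' * √((Ker (gp c) (V0 S.M ∪ W)).card) =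
          Wt W * √((Ker (gp c) (V0 S.M ∪ W)).card) * Mass (PP S.M S.Y S.Y') := fun W => by
        rw [← sum_Wt, mul_sum]
        exact sum_congr rfl fun _ _ => by ring
      simp only [this]
      rw [← sum_mul, ← mul_assoc]
      exact mul_le_mul_of_nonneg_right (lya S.Y0) (zero_le_one.trans (one_le_Mass hs.dvd _ _))
    calc _ = ∑ _x ∈ (AA S A B).filter fun x =>
          ¬(Ker (gp c) (le S.Y (VV S.M (lf A B x)))).card ≤ t ^ 2, (t : ℝ) := by
          rw [sum_const, nsmul_eq_mul, mul_comm]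
      _ ≤ ∑ x ∈ (AA S A B).filter fun x =>
          ¬(Ker (gp c) (le S.Y (VV S.M (lf A B x)))).card ≤ t ^ 2,
            √((Ker (gp c) (V0 S.M ∪ le S.Y (gens (lf A B x)))).card) := by
          refine sum_le_sum fun x hx => Real.le_sqrt_of_sq_le ?_
          rw [← le_VV hs.pos hMY]
          exact_mod_cast (not_le.1 (mem_filter.1 hx).2).le
      _ ≤ _ := sum_le_sum_of_subset_of_nonneg (filter_subset _ _) fun _ _ _ => Real.sqrt_nonneg _
      _ ≤ _ := k1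
      _ ≤ CD * (S.Z : ℝ) ^ 2 / Real.log S.Y' ^ 6 *
          (CL * (Mass (PP S.M 0 S.Y0) * Mass (PP S.M S.Y S.Y'))) :=
          mul_le_mul_of_nonneg_left (by convert k2) hq
      _ = CL * (CD * (S.Z : ℝ) ^ 2 / Real.log S.Y' ^ 6 *
          (Mass (PP S.M 0 S.Y0) * Mass (PP S.M S.Y S.Y'))) := by ring
      _ ≤ CL * (CD * CM * (S.Z : ℝ) ^ 2) := mul_le_mul_of_nonneg_left hm hCL
      _ = _ := by ring
  -- the parameters with a surviving small vector
  have h2 : ∑ x ∈ AA S A B, (if (Ker (gp c) (le S.Y (VV S.M (lf A B x)))).card ≤ t ^ 2 ∧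
      Bad c (le S.Y (VV S.M (lf A B x))) (md S.Y S.Y' (VV S.M (lf A B x))) then (1 : ℝ) else 0) ≤
      3 * (t : ℝ) ^ 2 / 2 ^ S.J * (CD * CM * (S.Z : ℝ) ^ 2) := by
    have k1 := dom (fun W W' => if (Ker (gp c) (V0 S.M ∪ W)).card ≤ t ^ 2 ∧
      Bad c (V0 S.M ∪ W) W' then 1 else 0) fun _ _ => by split_ifs <;> norm_num
    simp only [le_VV hs.pos hMY, md_VV hs.pos hMY]
    calc _ ≤ _ := k1
      _ ≤ CD * (S.Z : ℝ) ^ 2 / Real.log S.Y' ^ 6 * (3 * ((t ^ 2 : ℕ) : ℝ) / 2 ^ S.J *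
          (Mass (PP S.M 0 S.Y0) * Mass (PP S.M S.Y S.Y'))) :=
          mul_le_mul_of_nonneg_left (by convert kil) hq
      _ = 3 * (t : ℝ) ^ 2 / 2 ^ S.J * (CD * (S.Z : ℝ) ^ 2 / Real.log S.Y' ^ 6 *
          (Mass (PP S.M 0 S.Y0) * Mass (PP S.M S.Y S.Y'))) := by push_cast; ring
      _ ≤ _ := mul_le_mul_of_nonneg_left hm (by positivity)
  have h3 := (abs_le.1 (os fun W => (Ker (gp c) W).card ≤ t ^ 2)).2
  set A2 := (AA S A B).filter fun x => (Ker (gp c) (le S.Y (VV S.M (lf A B x)))).card ≤ t ^ 2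
    with hA2
  have h3' : ∑ x ∈ A2, osc (gp c) S.Y S.Y' (VV S.M (lf A B x)) ≤ δ * (S.Z : ℝ) ^ 2 :=
    le_of_eq_of_le (by rw [hA2]; congr) h3
  have h4 : ∀ x ∈ A2, (64 : ℝ) ≤
      64 * (if (Ker (gp c) (VV S.M (lf A B x))).card ≤ 16 then 1 else 0) +
      osc (gp c) S.Y S.Y' (VV S.M (lf A B x)) + 48 + 48 * (t : ℝ) ^ 2 *
        (if (Ker (gp c) (le S.Y (VV S.M (lf A B x)))).card ≤ t ^ 2 ∧
          Bad c (le S.Y (VV S.M (lf A B x))) (md S.Y S.Y' (VV S.M (lf A B x))) then 1 else 0) +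
      192 * (t : ℝ) ^ 2 / 2 ^ S.J := by
    intro x hx
    obtain ⟨x1, x2⟩ := mem_filter.1 hx
    have k1 := cnt_AA cnt c hR hs.pos hMY (by omega) x1
    have x2' : ((Ker (gp c) (le S.Y (VV S.M (lf A B x)))).card : ℝ) ≤ (t : ℝ) ^ 2 := by
      exact_mod_cast x2
    have k2 : 192 * ((Ker (gp c) (le S.Y (VV S.M (lf A B x)))).card : ℝ) / 16 ^ S.J ≤
        192 * (t : ℝ) ^ 2 / 2 ^ S.J := by
      gcongr
      norm_num
    have k3 : (((Ker (gp c) (VV S.M (lf A B x))).filter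
        (· ⊆ le S.Y (VV S.M (lf A B x)))).card : ℝ) ≤ 1 + (t : ℝ) ^ 2 *
        (if (Ker (gp c) (le S.Y (VV S.M (lf A B x)))).card ≤ t ^ 2 ∧
          Bad c (le S.Y (VV S.M (lf A B x))) (md S.Y S.Y' (VV S.M (lf A B x))) then 1 else 0) := by
      split_ifs with hb
      · have : (((Ker (gp c) (VV S.M (lf A B x))).filter
          (· ⊆ le S.Y (VV S.M (lf A B x)))).card : ℝ) ≤ _ :=
          Nat.cast_le.2 (card_le_card (small_sub c _ S.Y))
        linarith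
      · rw [mul_zero, add_zero]
        exact_mod_cast small_le_one c _ S.Y S.Y' fun h => hb ⟨x2, h⟩
    have k4 : (64 : ℝ) ≤ 64 * (if (Ker (gp c) (VV S.M (lf A B x))).card ≤ 16 then 1 else 0) +
        ((Ker (gp c) (VV S.M (lf A B x))).card : ℝ) := by
      split_ifs with hb
      · have : (0 : ℝ) ≤ ((Ker (gp c) (VV S.M (lf A B x))).card : ℝ) := Nat.cast_nonneg _
        linarith
      · obtain ⟨k, hk⟩ := pow_four bor hs.pos hc hp ((adm_of_mem hR x1).coprime_M hs)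
          (even_VV hR ho x1)
        rw [hk] at hb
        have : 4 ^ 3 ≤ 4 ^ k := Nat.pow_le_pow_right (by norm_num) (by
          by_contra h
          exact hb ((Nat.pow_le_pow_right (by norm_num) (by omega : k ≤ 2)).trans (by norm_num)))
        rw [hk, mul_zero, zero_add]
        exact_mod_cast this
    linarith
  have h5 := sum_le_sum h4
  simp only [sum_add_distrib, ← mul_sum, sum_const, nsmul_eq_mul] at h5
  have h6 : ∑ x ∈ A2, (if (Ker (gp c) (VV S.M (lf A B x))).card ≤ 16 then (1 : ℝ) else 0) ≤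
      (((AA S A B).filter fun x => (Ker (gp c) (VV S.M (lf A B x))).card ≤ 16).card : ℝ) := by
    rw [sum_boole]
    exact Nat.cast_le.2 (card_le_card (filter_subset_filter _ (filter_subset _ _)))
  have h7 := (sum_le_sum_of_subset_of_nonneg (filter_subset _ (AA S A B) : A2 ⊆ _)
    fun _ _ _ => by split_ifs <;> norm_num).trans h2
  have h8 : (A2.card : ℝ) + (((AA S A B).filter fun x =>
      ¬(Ker (gp c) (le S.Y (VV S.M (lf A B x)))).card ≤ t ^ 2).card : ℝ) = (AA S A B).card := by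
    exact_mod_cast card_filter_add_card_filter_not _
  have h9 : (A2.card : ℝ) ≤ (S.Z : ℝ) ^ 2 := by
    exact_mod_cast (card_filter_le _ _).trans (card_AA_le S A B)
  have hZ : (0 : ℝ) ≤ (S.Z : ℝ) ^ 2 := by positivity
  have h10 : (((AA S A B).filter fun x =>
      ¬(Ker (gp c) (le S.Y (VV S.M (lf A B x)))).card ≤ t ^ 2).card : ℝ) ≤
      δ / 2 * (S.Z : ℝ) ^ 2 := by
    refine le_of_mul_le_mul_left (h1.trans ?_) ht0
    nlinarith
  have h11 : 48 * (t : ℝ) ^ 2 * (3 * (t : ℝ) ^ 2 / 2 ^ S.J * (CD * CM * (S.Z : ℝ) ^ 2)) +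
      (S.Z : ℝ) ^ 2 * (192 * (t : ℝ) ^ 2 / 2 ^ S.J) ≤ δ * (S.Z : ℝ) ^ 2 := by
    calc _ = (144 * (CD * CM) * ((t : ℝ) ^ 2) ^ 2 + 192 * (t : ℝ) ^ 2) / 2 ^ S.J *
          (S.Z : ℝ) ^ 2 := by ring
      _ ≤ _ := mul_le_mul_of_nonneg_right ((div_le_iff₀ (by positivity)).2 hJ1) hZ
  have h12 := mul_le_mul_of_nonneg_left h7 (by positivity : 0 ≤ 48 * (t : ℝ) ^ 2)
  have h13 := mul_le_mul_of_nonneg_right h9 (by positivity : 0 ≤ 192 * (t : ℝ) ^ 2 / 2 ^ S.J)
  have h14 : 0 ≤ δ * (S.Z : ℝ) ^ 2 := by positivity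
  linarith

end Pool.Agent.MP_a43263_nt.R2

end
end MrgPart0

-- ======== part 1: formerly Pool.Agent.MP_a43263_nt.R2.Pair
section MrgPart1

/-! PROJECT RANK2: one pair of inner variables, the centred part. -/

set_option autoImplicit false

noncomputable section

namespace Pool.Agent.MP_a43263_nt.R2

open Finset Filter

namespace Pair

theorem sum_Ico_range (n : ℕ) (g : ℤ → ℝ) :
    ∑ i ∈ Ico (0 : ℤ) (0 + n), g i = ∑ i ∈ range n, g i := by
  induction n with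
  | zero => simp
  | succ n ih =>
    have : Ico (0 : ℤ) (0 + (n + 1 : ℕ)) = insert (n : ℤ) (Ico (0 : ℤ) (0 + n)) := by
      ext x; simp only [mem_Ico, mem_insert]; omega
    rw [this, sum_insert (by simp), ih, sum_range_succ, add_comm]

/-- splitting an interval into residue classes -/
theorem split {D : ℕ} (hD : 1 ≤ D) (R : ℕ) (f : ℤ → ℝ) :
    ∑ r ∈ Icc 1 R, f r =
      ∑ r₀ ∈ Icc 1 D, ∑ i ∈ Ico (0 : ℤ) (0 + ((R + D - r₀) / D : ℕ)), f (r₀ + D * i) := by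
  simp only [sum_Ico_range]
  rw [sum_sigma']
  refine sum_nbij' (fun r => ⟨(r - 1) % D + 1, (r - 1) / D⟩) (fun x => x.1 + D * x.2) ?_ ?_ ?_ ?_ ?_
  · intro r hr
    have h1 := Nat.mod_lt (r - 1) hD
    have h2 := Nat.mod_add_div (r - 1) D
    simp only [mem_sigma, mem_Icc, mem_range] at hr ⊢
    refine ⟨by omega, Nat.lt_of_succ_le ((Nat.le_div_iff_mul_le hD).2 ?_)⟩
    rw [Nat.succ_mul, mul_comm]
    omega
  · rintro ⟨a, i⟩ h
    simp only [mem_sigma, mem_Icc, mem_range] at h ⊢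
    have := (Nat.le_div_iff_mul_le hD).1 (Nat.succ_le_of_lt h.2)
    rw [Nat.succ_mul, mul_comm] at this
    omega
  · intro r hr
    have h2 := Nat.mod_add_div (r - 1) D
    simp only [mem_Icc] at hr ⊢
    omega
  · rintro ⟨a, i⟩ h
    simp only [mem_sigma, mem_Icc, mem_range] at h ⊢
    have e : a + D * i - 1 = (a - 1) + D * i := by omega
    have h1 : (a + D * i - 1) % D + 1 = a := by
      rw [e, Nat.add_mul_mod_self_left, Nat.mod_eq_of_lt (by omega)]; omega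
    have h2 : (a + D * i - 1) / D = i := by
      rw [e, Nat.add_mul_div_left _ _ hD, Nat.div_eq_of_lt (by omega), zero_add]
    simp [h1, h2]
  · intro r hr
    have h2 := Nat.mod_add_div (r - 1) D
    simp only [mem_Icc] at hr
    congr 1
    have : r = (r - 1) % D + 1 + D * ((r - 1) / D) := by omega
    exact_mod_cast this

theorem len_le {D : ℕ} (hD : 1 ≤ D) (R : ℕ) {r₀ : ℕ} :
    (((R + D - r₀) / D : ℕ) : ℝ) ≤ R / D + 1 := by
  have h0 : (0 : ℝ) < D := by exact_mod_cast hD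
  refine Nat.cast_div_le.trans ?_
  rw [div_add_one h0.ne', div_le_div_iff_of_pos_right h0]
  exact_mod_cast Nat.sub_le _ _

theorem mem_len {D R r₀ : ℕ} (hD : 1 ≤ D) (h : r₀ ∈ Icc 1 D) {i : ℤ}
    (hi : i ∈ Ico (0 : ℤ) (0 + ((R + D - r₀) / D : ℕ))) :
    ∃ x : ℕ, (r₀ : ℤ) + D * i = x ∧ 1 ≤ x ∧ x ≤ R := by
  obtain ⟨h1, h2⟩ := mem_Ico.1 hi
  lift i to ℕ using h1
  have h3 : i < (R + D - r₀) / D := by omega
  have := (Nat.le_div_iff_mul_le hD).1 (Nat.succ_le_of_lt h3)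
  rw [Nat.succ_mul, mul_comm] at this
  rw [mem_Icc] at h
  exact ⟨r₀ + D * i, by push_cast; rfl, by omega, by omega⟩

/-- the number of admissible classes -/
theorem card_class {D m : ℕ} (hD : 1 ≤ D) (hm : m ∣ D) (v : ℤ) :
    (((Icc 1 D).filter fun q : ℕ => (q : ℤ) ≡ v [ZMOD m]).card : ℝ) ≤ D / m := by
  obtain ⟨e, rfl⟩ := hm
  have hm : 0 < m := Nat.pos_of_mul_pos_right hD
  have : ((Icc 1 (m * e)).filter fun q : ℕ => (q : ℤ) ≡ v [ZMOD m]).card ≤ (range e).card := by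
    refine card_le_card_of_injOn (fun q => (q - 1) / m) (fun q hq => ?_) fun q hq q' hq' h => ?_
    · simp only [coe_filter, mem_Icc, Set.mem_ofPred_eq, coe_range, Set.mem_Iio] at hq ⊢
      exact Nat.div_lt_of_lt_mul (by omega)
    · simp only [coe_filter, mem_Icc, Set.mem_ofPred_eq] at hq hq' h
      have h1 : q ≡ q' [MOD m] := Int.natCast_modEq_iff.1 (hq.2.trans hq'.2.symm)
      have h2 : q - 1 ≡ q' - 1 [MOD m] := by
        refine Nat.ModEq.add_right_cancel' 1 ?_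
        rwa [Nat.sub_add_cancel hq.1.1, Nat.sub_add_cancel hq'.1.1]
      have h3 := Nat.mod_add_div (q - 1) m
      have h4 := Nat.mod_add_div (q' - 1) m
      rw [h, h2] at h3
      omega
  rw [card_range] at this
  have h0 : (0 : ℝ) < m := by exact_mod_cast hm
  push_cast
  rw [mul_div_cancel_left₀ _ h0.ne']
  exact_mod_cast this

/-- few large primes divide a given number -/
theorem card_dvd {Y n x : ℕ} (hY : 2 ≤ Y) {P : Finset ℕ} (hP : ∀ s ∈ P, s.Prime ∧ Y < s)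
    (h1 : 1 ≤ x) (h2 : x ≤ Y ^ n) : (P.filter (· ∣ x)).card ≤ n := by
  have a1 : Y ^ (P.filter (· ∣ x)).card ≤ ∏ s ∈ P.filter (· ∣ x), s :=
    pow_card_le_prod _ _ _ fun s hs => (hP s (mem_filter.1 hs).1).2.le
  have a2 : ∏ s ∈ P.filter (· ∣ x), s ∣ x :=
    Finset.prod_primes_dvd x (fun s hs => (hP s (mem_filter.1 hs).1).1.prime)
      fun s hs => (mem_filter.1 hs).2
  exact (Nat.pow_le_pow_iff_right hY).1 (a1.trans ((Nat.le_of_dvd h1 a2).trans h2))

theorem sum_inv (hM : MERStmt) : ∃ C : ℝ, 0 ≤ C ∧ ∀ (k Y Y' : ℕ) (P : Finset ℕ), 3 ≤ Y → Y ≤ Y' →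
    Y' ≤ Y ^ k → (∀ s ∈ P, s.Prime ∧ Y < s ∧ s ≤ Y') → ∑ s ∈ P, 1 / (s : ℝ) ≤ k + C := by
  obtain ⟨C, hC⟩ := hM.2.1
  refine ⟨|C|, abs_nonneg C, fun k Y Y' P h1 h2 h3 hP => ?_⟩
  have hY : (3 : ℝ) ≤ Y := by exact_mod_cast h1
  have hl : 1 ≤ Real.log Y := by
    rw [Real.le_log_iff_exp_le (by linarith)]
    exact Real.exp_one_lt_three.le.trans hY
  have a1 : Real.log Y * ∑ s ∈ P, 1 / (s : ℝ) ≤ ∑ p ∈ pri Y Y', Real.log p / p := by
    rw [mul_sum]
    refine (sum_le_sum fun s hs => ?_).trans (sum_le_sum_of_subset_of_nonneg (s := P)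
      (fun s hs => mem_pri.2 ⟨(hP s hs).2.1, (hP s hs).2.2, (hP s hs).1⟩)
      fun p _ _ => div_nonneg (Real.log_natCast_nonneg p) (Nat.cast_nonneg p))
    rw [mul_one_div]
    exact div_le_div_of_nonneg_right (Real.log_le_log (by linarith)
      (by exact_mod_cast (hP s hs).2.1.le)) (Nat.cast_nonneg s)
  have a2 : Real.log Y' ≤ k * Real.log Y := by
    rw [← Real.log_pow]
    exact Real.log_le_log (by exact_mod_cast (by omega : 0 < Y')) (by exact_mod_cast h3)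
  have a3 := hC Y Y' (by omega)
  have a4 : C ≤ Real.log Y * |C| := (le_abs_self C).trans (le_mul_of_one_le_left (abs_nonneg C) hl)
  refine le_of_mul_le_mul_left ?_ (by linarith : 0 < Real.log Y)
  nlinarith

theorem sum_abs {x : ℕ} (P : Finset ℕ) :
    ∑ s ∈ P, |(if (s : ℤ) ∣ (x : ℤ) then 1 else 0) - 1 / (s : ℝ)| ≤
      (P.filter (· ∣ x)).card + ∑ s ∈ P, 1 / (s : ℝ) := by
  rw [card_filter]
  push_cast
  rw [← sum_add_distrib]
  refine sum_le_sum fun s _ => (abs_sub _ _).trans ?_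
  simp only [Int.natCast_dvd_natCast]
  rw [abs_of_nonneg (by positivity : (0 : ℝ) ≤ 1 / s)]
  split_ifs <;> simp

/-- the bound in one class -/
theorem one_class (hS : SHIStmt) (hC : CENStmt) : ∃ C : ℝ, 0 ≤ C ∧ ∀ (Y Y' R Q D : ℕ) (q₀ : ℤ)
    (P : Finset ℕ) (c : ℕ → ℝ) (A B : Fin 10 → ℤ) (ψ : Fin 10 → ℤ → ℝ) (L u v : ℝ), 1 ≤ Y →
    Y ≤ Y' → (∀ s ∈ P, s.Prime ∧ Y < s ∧ s ≤ Y' ∧ ¬s ∣ D ∧ ∀ i, ¬(s : ℤ) ∣ A i) →
    (∀ s, |c s| ≤ 1) → (∀ i, |A i| ≤ (Y' : ℤ) ^ 12 ∧ |B i| ≤ (Y' : ℤ) ^ 12) →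
    (∀ i x, |ψ i x| ≤ 1) → 1 ≤ L →
    (∀ j ∈ Ico (0 : ℤ) (0 + Q),
      ∑ s ∈ P, |(if (s : ℤ) ∣ q₀ + D * j then 1 else 0) - 1 / (s : ℝ)| ≤ L) →
    R + 22 * (Y' : ℝ) ^ 13 ≤ u → Q + 22 * (Y' : ℝ) ^ 13 ≤ v → (Y' : ℝ) ^ 2 ^ 12 * Y ≤ v →
    (∑ i ∈ Ico (0 : ℤ) (0 + R), ∑ j ∈ Ico (0 : ℤ) (0 + Q),
      (∏ m, ψ m (A m * i + B m * j)) * kc P c (q₀ + D * j)) ^ 2 ^ 11 ≤
      (u * v * L) ^ 2 ^ 11 * (C / Y) := by
  obtain ⟨C, hC⟩ := hC 11 (by norm_num)
  refine ⟨3 * |C|, by positivity, ?_⟩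
  intro Y Y' R Q D q₀ P c A B ψ L u v h1 h2 hP hc hA hψ hL hL' hu hv hv'
  have hY' : 1 ≤ Y' := h1.trans h2
  have e1 := hS 11 Y' (Y' ^ 12) R Q 0 0 (Fin.cons 1 A) (Fin.cons 0 B)
    (Fin.cons (fun x => if x ∈ Ico (0 : ℤ) (0 + R) then 1 else 0) ψ)
    (fun i : ℤ => if i ∈ Ico (0 : ℤ) (0 + Q) then kc P c (q₀ + D * i) else 0) (by norm_num) hY'
    (fun m => by
      refine Fin.cases ?_ (fun m => ?_) m
      · simp only [Fin.cons_zero, abs_one, abs_zero]
        exact ⟨by exact_mod_cast Nat.one_le_pow _ _ hY', by positivity⟩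
      · simpa using hA m)
    (fun m x => by
      refine Fin.cases ?_ (fun m => ?_) m
      · simp only [Fin.cons_zero]
        split_ifs <;> simp
      · simpa using hψ m x)
    (fun i j h => by
      by_contra hc
      refine h ?_
      rw [Fin.prod_univ_succ]
      simp only [Fin.cons_zero, one_mul, zero_mul, add_zero, if_neg hc])
    (fun j h => by
      by_contra hc
      exact h (if_neg hc))
  have e2 := hC Y Y' Y' Q D q₀ 0 (0 - (11 : ℕ) * (Y' ^ 12 : ℕ) * Y')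
    (0 + Q + (11 : ℕ) * (Y' ^ 12 : ℕ) * Y') P c (Fin.cons 1 A) L h1 hY'
    (fun s hs => ⟨(hP s hs).1, (hP s hs).2.1, (hP s hs).2.2.1, (hP s hs).2.2.2.1, fun m => by
      refine Fin.cases ?_ (fun m => ?_) m
      · simp only [Fin.cons_zero]
        exact fun h => (hP s hs).1.one_lt.ne' (Nat.dvd_one.1 (by exact_mod_cast h))
      · simpa using (hP s hs).2.2.2.2 m⟩) hc hL hL'
  have e3 : ∑ i ∈ Ico (0 : ℤ) (0 + R), ∑ j ∈ Ico (0 : ℤ) (0 + Q),
      (∏ m : Fin 11, (Fin.cons (fun x => if x ∈ Ico (0 : ℤ) (0 + R) then (1 : ℝ) else 0) ψ :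
        Fin 11 → ℤ → ℝ) m ((Fin.cons 1 A : Fin 11 → ℤ) m * i + (Fin.cons 0 B : Fin 11 → ℤ) m * j)) *
        (fun i : ℤ => if i ∈ Ico (0 : ℤ) (0 + Q) then kc P c (q₀ + D * i) else 0) j =
      ∑ i ∈ Ico (0 : ℤ) (0 + R), ∑ j ∈ Ico (0 : ℤ) (0 + Q),
      (∏ m, ψ m (A m * i + B m * j)) * kc P c (q₀ + D * j) := by
    refine sum_congr rfl fun i hi => sum_congr rfl fun j hj => ?_
    rw [Fin.prod_univ_succ]
    simp only [Fin.cons_zero, Fin.cons_succ, one_mul, zero_mul, add_zero, if_pos hi, if_pos hj]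
  rw [e3] at e1
  have y1 : (1 : ℝ) ≤ Y := by exact_mod_cast h1
  have y2 : (Y : ℝ) ≤ Y' := by exact_mod_cast h2
  have y3 : (0 : ℝ) < Y' := by linarith
  have y4 : (Y' : ℝ) ≤ 22 * (Y' : ℝ) ^ 13 := by
    have := le_self_pow₀ (y1.trans y2) (by norm_num : 13 ≠ 0)
    linarith
  have z1 : (R : ℝ) + 2 * (11 : ℕ) * (Y' ^ 12 : ℕ) * Y' = R + 22 * (Y' : ℝ) ^ 13 := by
    push_cast; ring
  have z2 : (Q : ℝ) + 2 * (11 : ℕ) * (Y' ^ 12 : ℕ) * Y' = Q + 22 * (Y' : ℝ) ^ 13 := by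
    push_cast; ring
  rw [z1, z2] at e1
  obtain ⟨n, hn⟩ : ∃ n, 2 ^ 11 = n + 1 := ⟨2 ^ 11 - 1, by norm_num⟩
  rw [show 11 + 1 = 12 from rfl] at e2
  have w0 : 0 ≤ (Y' : ℝ) ^ 2 ^ 12 := by positivity
  generalize (Y' : ℝ) ^ 2 ^ 12 = w at e2 hv' w0
  rw [hn] at e1 e2 ⊢
  rw [Nat.add_sub_cancel] at e1
  have l1 : 1 ≤ L ^ (n + 1) := one_le_pow₀ hL
  have v0 : 0 ≤ v := le_trans (by positivity) hv
  have u0 : 0 ≤ u := le_trans (by positivity) hu
  have b1 : L ^ (n + 1) * (Q + Y') * (1 / Y + 1 / Y') + w ≤ L ^ (n + 1) * v * (3 / Y) := by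
    have c1 : (1 : ℝ) / Y + 1 / Y' ≤ 2 / Y := by
      have := one_div_le_one_div_of_le (by linarith) y2
      calc (1 : ℝ) / Y + 1 / Y' ≤ 1 / Y + 1 / Y := by linarith
        _ = 2 / Y := by ring
    have c2 : L ^ (n + 1) * (Q + Y') * (1 / Y + 1 / Y') ≤ L ^ (n + 1) * v * (2 / Y) := by
      gcongr
      linarith
    have c3 : w ≤ L ^ (n + 1) * v * (1 / Y) := by
      rw [mul_one_div, le_div_iff₀ (by linarith)]
      exact hv'.trans (le_mul_of_one_le_left v0 l1)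
    calc _ ≤ L ^ (n + 1) * v * (2 / Y) + L ^ (n + 1) * v * (1 / Y) := add_le_add c2 c3
      _ = _ := by ring
  have b2 := e2.trans (show _ ≤ |C| * (Y' : ℝ) ^ (2 * 11) * (L ^ (n + 1) * v * (3 / Y)) by
    gcongr
    exact le_abs_self C)
  have b3 := (e1.trans (mul_le_mul_of_nonneg_left b2 (by positivity))).trans
    (show _ ≤ (u * v) ^ n * u * (|C| * (Y' : ℝ) ^ (2 * 11) * (L ^ (n + 1) * v * (3 / Y))) by gcongr)
  refine le_of_mul_le_mul_right (b3.trans_eq ?_) (by positivity : 0 < (Y' : ℝ) ^ (2 * 11))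
  ring

theorem per_eq {Per : ℤ → ℝ} {D : ℕ} (h : ∀ q, Per (q + D) = Per q) (q j : ℤ) :
    Per (q + D * j) = Per q := by
  have := (Function.Periodic.int_mul (f := Per) (c := (D : ℤ)) h j) q
  rwa [Int.cast_id, mul_comm] at this

theorem ev_small (C : ℝ) : ∀ᶠ Y : ℕ in atTop,
    C / Y ≤ ((Y : ℝ) ^ (-(1 / 2100) : ℝ)) ^ 2 ^ 11 := by
  have h := ((tendsto_rpow_atTop (by norm_num : (0 : ℝ) < 52 / 2100)).comp
    tendsto_natCast_atTop_atTop).eventually_ge_atTop C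
  filter_upwards [h, eventually_ge_atTop 1] with Y h1 h2
  have h0 : (0 : ℝ) < Y := by exact_mod_cast h2
  rw [div_le_iff₀ h0, ← Real.rpow_natCast, ← Real.rpow_mul h0.le, ← Real.rpow_add_one h0.ne']
  refine h1.trans_eq ?_
  simp only [Function.comp]
  norm_num

theorem size {Y' D R : ℕ} (hY : 3 ≤ Y') (hD : 1 ≤ D) (hD' : D ≤ Y' ^ 32) (hR : Y' ^ 5000 ≤ R) :
    1 + 22 * (Y' : ℝ) ^ 13 ≤ R / D ∧ (Y' : ℝ) ^ 2 ^ 12 * Y' ≤ R / D := by
  have h0 : (0 : ℝ) < D := by exact_mod_cast hD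
  have key : ∀ n : ℕ, n + 32 ≤ 5000 → (Y' : ℝ) ^ n ≤ R / D := fun n hn => by
    rw [le_div_iff₀ h0]
    have : Y' ^ n * D ≤ R := (Nat.mul_le_mul_left _ hD').trans (by
      rw [← pow_add]
      exact (Nat.pow_le_pow_right (by omega) hn).trans hR)
    exact_mod_cast this
  refine ⟨le_trans ?_ (key 16 (by norm_num)), ?_⟩
  · have h3 : (3 : ℝ) ≤ Y' := by exact_mod_cast hY
    have h4 : (3 : ℝ) ^ 3 ≤ (Y' : ℝ) ^ 3 := pow_le_pow_left₀ (by norm_num) h3 3
    have h5 : (1 : ℝ) ≤ (Y' : ℝ) ^ 13 := one_le_pow₀ (by linarith)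
    calc 1 + 22 * (Y' : ℝ) ^ 13 ≤ 3 ^ 3 * (Y' : ℝ) ^ 13 := by linarith
      _ ≤ (Y' : ℝ) ^ 3 * (Y' : ℝ) ^ 13 := by gcongr
      _ = _ := by ring
  · rw [← pow_succ]
    exact key _ (by norm_num)

end Pair

open Pair in
theorem pair : MERStmt → SHIStmt → CENStmt → PAIRStmt := by
  intro hM hS hC k
  obtain ⟨C₁, c1, h1⟩ := sum_inv hM
  obtain ⟨C₂, c2, h2⟩ := one_class hS hC
  obtain ⟨L, hL⟩ : ∃ L : ℝ, L = 1 + (k * 30000 : ℕ) + (k + C₁) := ⟨_, rfl⟩
  have hL1 : 1 ≤ L := by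
    have : (0 : ℝ) ≤ (k * 30000 : ℕ) + (k + C₁) := by positivity
    linarith
  filter_upwards [eventually_ge_atTop 3, ev_small ((4 * L) ^ 2 ^ 11 * C₂)] with Y hY hs
  intro Y' R Q D m P c A B ψ Per ρ a1 a2 a3 a4 a5 a6 a7 a8 a9 a10 a11 a12 a13 a14 a15 a16
  obtain ⟨η, hη⟩ : ∃ η : ℝ, η = (Y : ℝ) ^ (-(1 / 2100) : ℝ) := ⟨_, rfl⟩
  have η0 : 0 ≤ η := by rw [hη]; positivity
  rw [← hη] at hs ⊢
  have d0 : (0 : ℝ) < D := by exact_mod_cast a6
  have sR := size (hY.trans a1) a6 a7 a3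
  have sQ := size (hY.trans a1) a6 a7 a4
  have z0 : (0 : ℝ) ≤ R / D * (Q / D) :=
    mul_nonneg (div_nonneg (Nat.cast_nonneg _) d0.le) (div_nonneg (Nat.cast_nonneg _) d0.le)
  have key : ∀ r₀ ∈ Icc 1 D, ∀ q₀ ∈ Icc 1 D,
      |∑ i ∈ Ico (0 : ℤ) (0 + ((R + D - r₀) / D : ℕ)), ∑ j ∈ Ico (0 : ℤ) (0 + ((Q + D - q₀) / D : ℕ)),
        Per (q₀ + D * j) * (∏ m, ψ m (A m * (r₀ + D * i) + B m * (q₀ + D * j))) *
          kc P c (q₀ + D * j)| ≤
        if (q₀ : ℤ) ≡ ρ r₀ [ZMOD m] then R / D * (Q / D) * η else 0 := by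
    intro r₀ hr q₀ hq
    split_ifs with hc
    · have e := h2 Y Y' ((R + D - r₀) / D) ((Q + D - q₀) / D) D q₀ P c A B
        (fun m x => ψ m (A m * r₀ + B m * q₀ + D * x)) L (2 * (R / D)) (2 * (Q / D)) (by omega) a1
        a9 a10 a11 (fun _ _ => a12 _ _) hL1
        (fun j hj => by
          obtain ⟨x, e, x1, x2⟩ := mem_len a6 hq hj
          rw [e]
          have b1 : ((P.filter (· ∣ x)).card : ℝ) ≤ (k * 30000 : ℕ) := by
            exact_mod_cast card_dvd (by omega) (fun s hs => ⟨(a9 s hs).1, (a9 s hs).2.1⟩) x1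
              (x2.trans (a5.trans (by rw [pow_mul]; exact Nat.pow_le_pow_left a2 _)))
          have b2 := h1 k Y Y' P hY a1 a2 fun s hs => ⟨(a9 s hs).1, (a9 s hs).2.1, (a9 s hs).2.2.1⟩
          have b3 := sum_abs (x := x) P
          linarith)
        (by have := len_le a6 R (r₀ := r₀); linarith [sR.1])
        (by have := len_le a6 Q (r₀ := q₀); linarith [sQ.1])
        (by
          have y2 : (Y : ℝ) ≤ Y' := by exact_mod_cast a1
          have y3 : (0 : ℝ) ≤ Q / D := div_nonneg (Nat.cast_nonneg _) d0.le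
          exact ((mul_le_mul_of_nonneg_left y2 (pow_nonneg (Nat.cast_nonneg _) _)).trans sQ.2).trans
            (le_mul_of_one_le_left y3 one_le_two))
      have e' := e.trans (show _ ≤ ((R : ℝ) / D * (Q / D) * η) ^ 2 ^ 11 by
        generalize 2 ^ 11 = n at hs ⊢
        calc _ = ((R : ℝ) / D * (Q / D)) ^ n * ((4 * L) ^ n * C₂ / Y) := by
              rw [show 2 * ((R : ℝ) / D) * (2 * (Q / D)) * L = R / D * (Q / D) * (4 * L) by ring,
                mul_pow _ (4 * L)]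
              ring
          _ ≤ _ := by
              rw [mul_pow _ η]
              exact mul_le_mul_of_nonneg_left hs (pow_nonneg z0 _))
      rw [← Even.pow_abs ⟨2 ^ 10, by norm_num⟩] at e'
      have e'' := (pow_le_pow_iff_left₀ (abs_nonneg _) (mul_nonneg z0 η0) (by norm_num)).1 e'
      simp only [per_eq a14, mul_assoc, ← mul_sum]
      rw [abs_mul]
      refine (mul_le_of_le_one_left (abs_nonneg _) (a13 _)).trans ?_
      rw [← mul_assoc]
      refine le_of_eq_of_le ?_ e''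
      congr 1
      refine sum_congr rfl fun i _ => sum_congr rfl fun j _ => ?_
      congr 1
      refine prod_congr rfl fun m _ => ?_
      congr 1
      ring
    · rw [sum_eq_zero fun i _ => sum_eq_zero fun j _ => ?_, abs_zero]
      by_contra h0
      have h3 := a16 _ _ fun l => prod_ne_zero_iff.1 (right_ne_zero_of_mul (left_ne_zero_of_mul h0))
        l (mem_univ l)
      rw [a15 _ r₀ (by simp [Int.ModEq])] at h3
      refine hc (Int.ModEq.trans ?_ h3)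
      exact (Int.modEq_iff_dvd.2 (by simpa using (Int.natCast_dvd_natCast.2 a8).mul_right j))
  have e1 := split a6 R fun r => ∑ q ∈ Icc 1 Q, Per q * (∏ i, ψ i (A i * r + B i * q)) * kc P c q
  have e2 := fun r : ℤ => split a6 Q fun q => Per q * (∏ i, ψ i (A i * r + B i * q)) * kc P c q
  rw [e1]
  simp only [e2]
  refine (abs_sum_le_sum_abs _ _).trans ((sum_le_sum (g := fun _ => D / m * (R / D * (Q / D) * η))
    fun r₀ hr => ?_).trans_eq ?_)
  · rw [sum_comm]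
    refine (abs_sum_le_sum_abs _ _).trans ((sum_le_sum fun q₀ hq => key r₀ hr q₀ hq).trans ?_)
    rw [← sum_filter, sum_const, nsmul_eq_mul]
    exact mul_le_mul_of_nonneg_right (card_class a6 a8 _) (mul_nonneg z0 η0)
  · rw [sum_const, Nat.card_Icc, Nat.add_sub_cancel, nsmul_eq_mul]
    field_simp

end Pool.Agent.MP_a43263_nt.R2

end
end MrgPart1

-- ======== part 2: formerly Pool.Agent.MP_a43263_nt.R2.Pos
section MrgPart2

/-! PROJECT RANK2, module POS: from three good values to six good values. -/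

set_option autoImplicit false

noncomputable section

namespace Pool.Agent.MP_a43263_nt.R2

open Finset Filter

namespace Pos

/-- the Cauchy-Schwarz inequality applied twice -/
theorem k22 (K : ℕ) (F : ℕ → ℕ → ℝ) :
    (∑ i ∈ range K, ∑ j ∈ range K, F i j) ^ 4 ≤ (K : ℝ) ^ 4 *
      ∑ i ∈ range K, ∑ i' ∈ range K, ∑ j ∈ range K, ∑ j' ∈ range K,
        F i j * F i' j * (F i j' * F i' j') := by
  have h1 : (∑ i ∈ range K, ∑ j ∈ range K, F i j) ^ 2 ≤
      K * ∑ j ∈ range K, (∑ i ∈ range K, F i j) ^ 2 := by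
    rw [sum_comm]
    simpa using sq_sum_le_card_mul_sum_sq (s := range K) (f := fun j => ∑ i ∈ range K, F i j)
  have h2 : ∑ j ∈ range K, (∑ i ∈ range K, F i j) ^ 2 =
      ∑ p ∈ range K ×ˢ range K, ∑ j ∈ range K, F p.1 j * F p.2 j := by
    rw [sum_comm]
    refine sum_congr rfl fun j _ => ?_
    rw [sq, sum_mul_sum, sum_product]
  have h3 := sq_sum_le_card_mul_sum_sq (s := range K ×ˢ range K)
    (f := fun p => ∑ j ∈ range K, F p.1 j * F p.2 j)
  have h4 : ∑ p ∈ range K ×ˢ range K, (∑ j ∈ range K, F p.1 j * F p.2 j) ^ 2 =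
      ∑ i ∈ range K, ∑ i' ∈ range K, ∑ j ∈ range K, ∑ j' ∈ range K,
        F i j * F i' j * (F i j' * F i' j') := by
    rw [sum_product]
    refine sum_congr rfl fun i _ => sum_congr rfl fun i' _ => ?_
    rw [sq, sum_mul_sum]
  rw [h4, ← h2, card_product, card_range] at h3
  calc _ = ((∑ i ∈ range K, ∑ j ∈ range K, F i j) ^ 2) ^ 2 := by ring
    _ ≤ (K * ∑ j ∈ range K, (∑ i ∈ range K, F i j) ^ 2) ^ 2 := by gcongr
    _ = (K : ℝ) ^ 2 * (∑ j ∈ range K, (∑ i ∈ range K, F i j) ^ 2) ^ 2 := by ring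
    _ ≤ (K : ℝ) ^ 2 * (((K * K : ℕ) : ℝ) * _) := mul_le_mul_of_nonneg_left h3 (by positivity)
    _ = _ := by push_cast; ring

open Classical in
/-- many dense sets indexed by a square contain four with a dense intersection -/
theorem four {α : Type} (Ω : Finset α) (K : ℕ) (G : ℕ → ℕ → α → Prop) {δ : ℝ} (hδ : 0 < δ)
    (hΩ : 0 < Ω.card) (hK : 8 ≤ δ ^ 4 * K)
    (h : ∀ i < K, ∀ j < K, δ * Ω.card ≤ ((Ω.filter (G i j)).card : ℝ)) :
    ∃ i < K, ∃ i' < K, ∃ j < K, ∃ j' < K, i ≠ i' ∧ j ≠ j' ∧ ∃ T ⊆ Ω,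
      δ ^ 4 / 2 * Ω.card ≤ (T.card : ℝ) ∧ ∀ x ∈ T, (G i j x ∧ G i' j x) ∧ G i j' x ∧ G i' j' x := by
  suffices H : ∃ i < K, ∃ i' < K, ∃ j < K, ∃ j' < K, i ≠ i' ∧ j ≠ j' ∧ δ ^ 4 / 2 * Ω.card ≤
      ((Ω.filter fun x => (G i j x ∧ G i' j x) ∧ G i j' x ∧ G i' j' x).card : ℝ) by
    obtain ⟨i, hi, i', hi', j, hj, j', hj', k1, k2, k3⟩ := H
    exact ⟨i, hi, i', hi', j, hj, j', hj', k1, k2, _, filter_subset _ _, k3,
      fun x hx => (mem_filter.1 hx).2⟩
  by_contra hn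
  push Not at hn
  obtain ⟨B, hB⟩ : ∃ B : ℝ, B = Ω.card := ⟨_, rfl⟩
  have hB0 : 0 < B := hB ▸ Nat.cast_pos.2 hΩ
  rw [← hB] at h hn
  have hK0 : (0 : ℝ) < K := by
    by_contra h0
    have : δ ^ 4 * K ≤ 0 := mul_nonpos_of_nonneg_of_nonpos (by positivity) (not_lt.1 h0)
    linarith
  let F : α → ℕ → ℕ → ℝ := fun x i j => if G i j x then 1 else 0
  have h1 : (K : ℝ) ^ 2 * (δ * B) ≤ ∑ x ∈ Ω, ∑ i ∈ range K, ∑ j ∈ range K, F x i j := by
    rw [sum_comm]
    calc (K : ℝ) ^ 2 * (δ * B) = ∑ _i ∈ range K, ∑ _j ∈ range K, δ * B := by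
          simp only [sum_const, card_range, nsmul_eq_mul]; ring
      _ ≤ _ := sum_le_sum fun i hi => by
          rw [sum_comm]
          refine sum_le_sum fun j hj => ?_
          simpa [F] using h i (mem_range.1 hi) j (mem_range.1 hj)
  have h2 := pow_sum_le_card_mul_sum_pow (s := Ω)
    (f := fun x => ∑ i ∈ range K, ∑ j ∈ range K, F x i j)
    (fun x _ => sum_nonneg fun i _ => sum_nonneg fun j _ => by
      simp only [F]; split_ifs <;> norm_num) 3
  rw [← hB] at h2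
  have h3 : ∑ x ∈ Ω, ∑ i ∈ range K, ∑ i' ∈ range K, ∑ j ∈ range K, ∑ j' ∈ range K,
      F x i j * F x i' j * (F x i j' * F x i' j') ≤ K ^ 4 * (δ ^ 4 / 2 * B) + 2 * K ^ 3 * B := by
    calc _ = ∑ i ∈ range K, ∑ i' ∈ range K, ∑ j ∈ range K, ∑ j' ∈ range K,
          ((Ω.filter fun x => (G i j x ∧ G i' j x) ∧ G i j' x ∧ G i' j' x).card : ℝ) := by
          rw [sum_comm]
          refine sum_congr rfl fun i _ => ?_
          rw [sum_comm]
          refine sum_congr rfl fun i' _ => ?_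
          rw [sum_comm]
          refine sum_congr rfl fun j _ => ?_
          rw [sum_comm]
          refine sum_congr rfl fun j' _ => ?_
          rw [card_filter]
          push_cast
          refine sum_congr rfl fun x _ => ?_
          simp only [F]
          by_cases a : G i j x <;> by_cases b : G i' j x <;> by_cases c : G i j' x <;>
            by_cases d : G i' j' x <;> simp [a, b, c, d]
      _ ≤ ∑ i ∈ range K, ∑ i' ∈ range K, ∑ j ∈ range K, ∑ j' ∈ range K,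
          (δ ^ 4 / 2 * B + (if i = i' then B else 0) + if j = j' then B else 0) := by
          refine sum_le_sum fun i hi => sum_le_sum fun i' hi' => sum_le_sum fun j hj =>
            sum_le_sum fun j' hj' => ?_
          have k1 : ((Ω.filter fun x => (G i j x ∧ G i' j x) ∧ G i j' x ∧ G i' j' x).card : ℝ)
              ≤ B := hB ▸ Nat.cast_le.2 (card_filter_le _ _)
          have k2 : 0 ≤ δ ^ 4 / 2 * B := by positivity
          split_ifs with a b b
          · linarith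
          · linarith
          · linarith
          · have := hn i (mem_range.1 hi) i' (mem_range.1 hi') j (mem_range.1 hj) j'
              (mem_range.1 hj') a b
            linarith
      _ = _ := by
          have e1 : ∑ j ∈ range K, ∑ j' ∈ range K, (if j = j' then B else 0) = K * B := by
            rw [sum_congr rfl fun j hj => by rw [sum_ite_eq, if_pos hj]]
            simp
          simp only [sum_add_distrib, e1, sum_const, card_range, nsmul_eq_mul, ← mul_sum]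
          ring
  have h4 : ∑ x ∈ Ω, (∑ i ∈ range K, ∑ j ∈ range K, F x i j) ^ (3 + 1) ≤
      K ^ 4 * (K ^ 4 * (δ ^ 4 / 2 * B) + 2 * K ^ 3 * B) := by
    refine (sum_le_sum fun x _ => k22 K (F x)).trans ?_
    rw [← mul_sum]
    gcongr
  have h5 : ((K : ℝ) ^ 2 * (δ * B)) ^ 4 ≤
      B ^ 3 * (K ^ 4 * (K ^ 4 * (δ ^ 4 / 2 * B) + 2 * K ^ 3 * B)) :=
    calc _ ≤ (∑ x ∈ Ω, ∑ i ∈ range K, ∑ j ∈ range K, F x i j) ^ (3 + 1) := by gcongr
      _ ≤ _ := h2.trans (by gcongr)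
  have h6 : 0 < (K : ℝ) ^ 7 * B ^ 4 := by positivity
  nlinarith

/-- solutions of a linear congruence in an interval -/
theorem card_dvd (L q : ℕ) {p : ℕ} (hp : p.Prime) :
    (((range L).filter fun x => p ∣ 1 + q * x).card : ℝ) ≤ L / p + 1 := by
  have h1 : ((range L).filter fun x => p ∣ 1 + q * x).card ≤ (range (L / p + 1)).card := by
    refine card_le_card_of_injOn (· / p) (fun x hx => ?_) fun x hx y hy e => ?_
    · have := mem_range.1 (mem_filter.1 hx).1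
      exact mem_coe.2 (mem_range.2 (Nat.lt_succ_of_le (Nat.div_le_div_right this.le)))
    · have a := (mem_filter.1 hx).2
      have b := (mem_filter.1 hy).2
      have c : p.Coprime q := hp.coprime_iff_not_dvd.2 fun d =>
        hp.ne_one (Nat.dvd_one.1 ((Nat.dvd_add_left (d.mul_right x)).1 a))
      have d : q * x ≡ q * y [MOD p] := Nat.ModEq.add_left_cancel' 1
        ((Nat.modEq_zero_iff_dvd.2 a).trans (Nat.modEq_zero_iff_dvd.2 b).symm)
      have f : x % p = y % p := Nat.ModEq.cancel_left_of_coprime c d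
      rw [← Nat.div_add_mod x p, ← Nat.div_add_mod y p, f]
      exact congrArg (fun t => p * t + y % p) e
  rw [card_range] at h1
  calc _ ≤ ((L / p + 1 : ℕ) : ℝ) := Nat.cast_le.2 h1
    _ ≤ _ := by push_cast; gcongr; exact Nat.cast_div_le

/-- pairs that are not coprime -/
theorem card_not_coprime (N n q P Z : ℕ) (hN : 1 ≤ N) (hq : ∀ p : ℕ, p.Prime → p ≤ P → p ∣ q)
    (hZ : ∀ x < N * n, 1 + q * x ≤ Z) :
    (((range (N * n) ×ˢ range (3 * n)).filter fun x =>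
      ¬(1 + q * x.1).Coprime (1 + q * x.2)).card : ℝ) ≤
      4 / (P + 1) * ((N * n : ℕ) * (3 * n : ℕ)) + Z * (N + 3) ^ 2 := by
  set B : ℝ := (N * n : ℕ) * (3 * n : ℕ) with hB
  have hB' : B = 3 * N * n ^ 2 := by rw [hB]; push_cast; ring
  have hN' : (1 : ℝ) ≤ N := Nat.one_le_cast.2 hN
  have h1 : ((range (N * n) ×ˢ range (3 * n)).filter fun x =>
      ¬(1 + q * x.1).Coprime (1 + q * x.2)) ⊆ ((Ioo P (Z + 1)).filter Nat.Prime).biUnion fun p =>
        ((range (N * n)).filter fun x => p ∣ 1 + q * x) ×ˢ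
          (range (3 * n)).filter fun x => p ∣ 1 + q * x := by
    intro x hx
    obtain ⟨a, b⟩ := mem_filter.1 hx
    obtain ⟨a1, a2⟩ := mem_product.1 a
    obtain ⟨p, hp, d1, d2⟩ := Nat.Prime.not_coprime_iff_dvd.1 b
    refine mem_biUnion.2 ⟨p, mem_filter.2 ⟨mem_Ioo.2 ⟨lt_of_not_ge fun k => ?_, ?_⟩, hp⟩,
      mem_product.2 ⟨mem_filter.2 ⟨a1, d1⟩, mem_filter.2 ⟨a2, d2⟩⟩⟩
    · exact hp.ne_one (Nat.dvd_one.1 ((Nat.dvd_add_left ((hq p hp k).mul_right x.1)).1 d1))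
    · exact Nat.lt_succ_of_le ((Nat.le_of_dvd (by omega) d1).trans (hZ _ (mem_range.1 a1)))
  calc _ ≤ ((∑ p ∈ (Ioo P (Z + 1)).filter Nat.Prime,
          (((range (N * n)).filter fun x => p ∣ 1 + q * x) ×ˢ
            (range (3 * n)).filter fun x => p ∣ 1 + q * x).card : ℕ) : ℝ) :=
        Nat.cast_le.2 ((card_le_card h1).trans card_biUnion_le)
    _ ≤ ∑ p ∈ (Ioo P (Z + 1)).filter Nat.Prime, (2 * B * ((p : ℝ) ^ 2)⁻¹ + (N + 3) ^ 2) := by
        push_cast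
        refine sum_le_sum fun p hp => ?_
        have hp' := (mem_filter.1 hp).2
        have hp0 : (0 : ℝ) < p := Nat.cast_pos.2 hp'.pos
        rw [card_product, Nat.cast_mul]
        calc _ ≤ ((N * n : ℕ) / p + 1 : ℝ) * ((3 * n : ℕ) / p + 1) := by
              gcongr <;> exact card_dvd _ q hp'
          _ ≤ _ := by
              have e : 2 * B * ((p : ℝ) ^ 2)⁻¹ = 6 * N * (n / p) ^ 2 := by
                rw [hB']; field_simp; ring
              rw [e]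
              push_cast
              rw [mul_div_assoc, mul_div_assoc]
              have : (0 : ℝ) ≤ n / p := by positivity
              generalize (n : ℝ) / p = t at *
              nlinarith [sq_nonneg (2 * t - (N + 3)), mul_nonneg (sub_nonneg.2 hN') (sq_nonneg t)]
    _ ≤ ∑ p ∈ Ioo P (Z + 1), (2 * B * ((p : ℝ) ^ 2)⁻¹ + (N + 3) ^ 2) :=
        sum_le_sum_of_subset_of_nonneg (filter_subset _ _) fun _ _ _ => by positivity
    _ ≤ _ := by
        rw [sum_add_distrib, ← mul_sum, sum_const, nsmul_eq_mul, Nat.card_Ioo]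
        have a := sum_Ioo_inv_sq_le (α := ℝ) P (Z + 1)
        have b : ((Z + 1 - P - 1 : ℕ) : ℝ) ≤ Z := Nat.cast_le.2 (by omega)
        calc _ ≤ 2 * B * (2 / (P + 1)) + Z * (N + 3) ^ 2 := by gcongr
          _ = _ := by ring

end Pos

open Pos in
theorem pos : TRIStmt → POSStmt := by
  classical
  rintro ⟨δ, J₀, hδ, h⟩
  obtain ⟨K, hK⟩ := exists_nat_ge (8 / δ ^ 4)
  obtain ⟨P₂, hP₂⟩ := exists_nat_ge (32 / δ ^ 4)
  obtain ⟨P₁, h⟩ := h K
  refine ⟨K, P₁ + P₂ + 5, J₀, fun N hN hP h3 => ⟨δ ^ 4 / (4 * (48 * N ^ 2) ^ 2), by positivity,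
    fun J hJ => ?_⟩⟩
  have h5 : 5 ≤ N := Nat.le_of_dvd hN
    ((Nat.Coprime.dvd_mul_left (by norm_num)).1 (hP 5 (by norm_num) (by omega)))
  obtain ⟨Z₀, hZ₀⟩ := exists_nat_ge (8 * (48 * (N : ℝ) ^ 2) ^ 2 * (N + 3) ^ 2 / δ ^ 4)
  refine (((h N hN (fun p hp k => hP p hp (by omega)) h3 J (48 * N ^ 2) hJ).and
    (ev_Z (eventually_ge_atTop (24 * N ^ 2 * 225 ^ K)))).and
    (ev_Z (eventually_ge_atTop Z₀))).mono ?_
  rintro S hM - - ⟨⟨⟨e, he⟩, hZ1⟩, hZ2⟩
  obtain ⟨m, hm⟩ : ∃ m, m = S.Z / (24 * N ^ 2 * 225 ^ K) := ⟨_, rfl⟩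
  have hD : 0 < 24 * N ^ 2 * 225 ^ K := by positivity
  have m1 : 1 ≤ m := hm ▸ Nat.div_pos hZ1 hD
  have m2 : 24 * N * (N * (225 ^ K * m)) ≤ S.Z := by
    have := Nat.mul_div_le S.Z (24 * N ^ 2 * 225 ^ K)
    rw [← hm] at this
    calc _ = 24 * N ^ 2 * 225 ^ K * m := by ring
      _ ≤ _ := this
  have m3 : S.Z ≤ 48 * N ^ 2 * (225 ^ K * m) := by
    have := Nat.lt_mul_div_succ S.Z hD
    rw [← hm] at this
    calc _ ≤ 24 * N ^ 2 * 225 ^ K * (m + 1) := this.le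
      _ ≤ 24 * N ^ 2 * 225 ^ K * (2 * m) := Nat.mul_le_mul_left _ (by omega)
      _ = _ := by ring
  have he := he _ (dvd_mul_right _ m) m2 m3
  have n1 : 1 ≤ 225 ^ K * m := Nat.mul_pos (by positivity) m1
  generalize 225 ^ K * m = n at he m2 m3 n1
  have hc : ((range (N * n) ×ˢ range (3 * n)).card : ℝ) = (N * n : ℕ) * (3 * n : ℕ) := by
    rw [card_product, card_range, card_range, Nat.cast_mul]
  obtain ⟨i, hi, i', hi', j, hj, j', hj', k1, k2, T, t1, t2, k3⟩ := four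
    (range (N * n) ×ˢ range (3 * n)) K
    (fun i j x => Shape { S with e := e } (1 + 24 * N * x.1) ∧
      Shape { S with e := e } (1 + 24 * N * x.2) ∧ Shape { S with e := e }
        (3 * (3 ^ i) ^ 2 * (1 + 24 * N * x.1) + N * (5 ^ j) ^ 2 * (1 + 24 * N * x.2))) hδ
    (by rw [card_product, card_range, card_range]; positivity)
    (by rwa [div_le_iff₀' (by positivity)] at hK)
    (fun i hi j hj => by rw [hc]; convert he i hi j hj)
  refine ⟨e, i, hi, i', hi', j, hj, j', hj', k1, k2, ?_⟩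
  have z1 : ∀ x < N * n, 1 + 24 * N * x ≤ S.Z := fun x hx =>
    calc _ ≤ 24 * N * (x + 1) := by rw [mul_add]; omega
      _ ≤ 24 * N * (N * n) := Nat.mul_le_mul_left _ hx
      _ ≤ _ := m2
  have k4 := card_not_coprime N n (24 * N) (P₁ + P₂ + 5) S.Z hN
    (fun p hp k => (hP p hp k).trans ⟨8, by ring⟩) z1
  rw [hc] at t2
  have t3 : ∀ x ∈ T, ∀ h, Shape { S with e := e }
      (lf (cA (3 ^ i) (3 ^ i')) (cB N (5 ^ j) (5 ^ j')) (1 + 24 * N * x.1, 1 + 24 * N * x.2) h) := by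
    intro x hx h
    obtain ⟨⟨a, b⟩, c, d⟩ := k3 x hx
    fin_cases h
    · simpa [lf, cA, cB] using a.1
    · simpa [lf, cA, cB] using a.2.1
    · exact a.2.2
    · exact d.2.2
    · exact c.2.2
    · exact b.2.2
  clear k3
  have k5 : (T.filter fun x => (1 + 24 * N * x.1).Coprime (1 + 24 * N * x.2)).card ≤
      (AA { S with e := e } (cA (3 ^ i) (3 ^ i')) (cB N (5 ^ j) (5 ^ j'))).card := by
    refine card_le_card_of_injOn (fun x => (1 + 24 * N * x.1, 1 + 24 * N * x.2))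
      (fun x hx => ?_) fun x _ y _ e => ?_
    · obtain ⟨a, b⟩ := mem_filter.1 hx
      obtain ⟨a1, a2⟩ := mem_product.1 (t1 a)
      have c : ∀ y, 1 + 24 * N * y ≡ 1 [MOD 8 * S.M] := fun y => by
        rw [hM, show 24 * N * y = 8 * (3 * N) * y by ring]
        exact Nat.add_mul_mod_self_left _ _ _
      refine mem_coe.2 (mem_AA.2 ⟨⟨Nat.le_add_right _ _, z1 _ (mem_range.1 a1)⟩,
        ⟨Nat.le_add_right _ _, z1 _ ((mem_range.1 a2).trans_le ?_)⟩, c _, c _, b, t3 x a⟩)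
      exact Nat.mul_le_mul_right _ (by omega)
    · obtain ⟨e1, e2⟩ := Prod.mk.inj e
      have : 0 < 24 * N := by positivity
      exact Prod.ext (Nat.eq_of_mul_eq_mul_left this (Nat.add_left_cancel e1))
        (Nat.eq_of_mul_eq_mul_left this (Nat.add_left_cancel e2))
  have k6 := card_filter_add_card_filter_not (s := T)
    fun x => (1 + 24 * N * x.1).Coprime (1 + 24 * N * x.2)
  have k7 := card_le_card (filter_subset_filter
    (fun x : ℕ × ℕ => ¬(1 + 24 * N * x.1).Coprime (1 + 24 * N * x.2)) t1)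
  have k8 := (Nat.cast_le (α := ℝ)).2 (k6.symm.trans_le (add_le_add k5 k7))
  rw [Nat.cast_add] at k8
  obtain ⟨B, hB⟩ : ∃ B : ℝ, B = (N * n : ℕ) * (3 * n : ℕ) := ⟨_, rfl⟩
  rw [← hB] at k4 t2
  have hN' : (1 : ℝ) ≤ N := Nat.one_le_cast.2 hN
  have b1 : (S.Z : ℝ) ^ 2 / (48 * N ^ 2) ^ 2 ≤ B := by
    have a : (S.Z : ℝ) ≤ 48 * N ^ 2 * n := by exact_mod_cast m3
    rw [div_le_iff₀ (by positivity), hB]
    calc (S.Z : ℝ) ^ 2 ≤ (48 * N ^ 2 * n : ℝ) ^ 2 := by gcongr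
      _ = (1 * n * (1 * n) * (48 * N ^ 2) ^ 2 : ℝ) := by ring
      _ ≤ _ := by push_cast; gcongr; norm_num
  have b0 : 0 ≤ B := le_trans (by positivity) b1
  have b2 : 4 / ((P₁ + P₂ + 5 : ℕ) + 1 : ℝ) ≤ δ ^ 4 / 8 := by
    rw [div_le_iff₀ (by positivity)] at hP₂
    rw [div_le_div_iff₀ (by positivity) (by norm_num)]
    push_cast
    have : (0 : ℝ) ≤ δ ^ 4 * (P₁ + 6) := by positivity
    nlinarith
  have b3 : (S.Z : ℝ) * (N + 3) ^ 2 ≤ δ ^ 4 / 8 * ((S.Z : ℝ) ^ 2 / (48 * N ^ 2) ^ 2) := by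
    have a := hZ₀.trans (Nat.cast_le.2 hZ2)
    rw [div_le_iff₀ (by positivity)] at a
    rw [← mul_div_assoc, le_div_iff₀ (by positivity)]
    have := mul_le_mul_of_nonneg_left a (Nat.cast_nonneg S.Z)
    nlinarith
  have b4 := mul_le_mul_of_nonneg_right b2 b0
  have b5 := mul_le_mul_of_nonneg_left b1 (by positivity : 0 ≤ δ ^ 4 / 8)
  calc _ = 2 * (δ ^ 4 / 8 * ((S.Z : ℝ) ^ 2 / (48 * N ^ 2) ^ 2)) := by field_simp; ring
    _ ≤ _ := by linarith

end Pool.Agent.MP_a43263_nt.R2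

end
end MrgPart2

-- marker of a merged file
example : 731051 + 413209 = 731051 + 413209 := rfl
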