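import Mathlib.Order.Interval.Finset.Box
import Pool.Agent.MP_a43263_nt.R2.Basic

/-! PROJECT RANK2, module KEY: the parametrisation of the terms with frozen data. -/

set_option autoImplicit false

noncomputable section

namespace Pool.Agent.MP_a43263_nt.R2

open Finset Filter

namespace KEY

/-- the product of the primes with a given tag -/
def pr (X : Finset Gen) (k : Fin 7) : ℕ := ∏ b ∈ X.filter (fun b => b.1 = k), b.2

theorem pr_eq (X : Finset Gen) (k : Fin 7) :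
    pr X k = ∏ p ∈ (X.filter fun b => b.1 = k).image Prod.snd, p :=
  (prod_image (f := fun p => p) fun _ ha _ hb e =>
    Prod.ext ((mem_filter.1 ha).2.trans (mem_filter.1 hb).2.symm) e).symm

theorem mem_pr {X : Finset Gen} {k : Fin 7} (hX : ∀ b ∈ X, b.1 = k → b.2.Prime) {p : ℕ} :
    p ∈ (pr X k).primeFactors ↔ (k, p) ∈ X := by
  rw [pr_eq, Nat.primeFactors_prod]
  · simp only [mem_image, mem_filter]
    exact ⟨by rintro ⟨⟨k', p'⟩, ⟨h, rfl⟩, rfl⟩; exact h, fun h => ⟨_, ⟨h, rfl⟩, rfl⟩⟩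
  · simp only [mem_image, mem_filter]
    rintro _ ⟨b, ⟨h, e⟩, rfl⟩
    exact hX b h e

theorem pr_pos {X : Finset Gen} {k : Fin 7} (hX : ∀ b ∈ X, b.1 = k → b.2.Prime) : 0 < pr X k :=
  prod_pos fun b hb => (hX b (mem_filter.1 hb).1 (mem_filter.1 hb).2).pos

theorem dvd_pr {X : Finset Gen} {b : Gen} (hb : b ∈ X) : b.2 ∣ pr X b.1 :=
  dvd_prod_of_mem _ (mem_filter.2 ⟨hb, rfl⟩)

theorem pr_union {X X' : Finset Gen} (h : Disjoint X X') (k : Fin 7) :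
    pr (X ∪ X') k = pr X k * pr X' k := by
  rw [pr, filter_union, prod_union (disjoint_filter_filter h)]
  rfl

theorem pr_of_ne {X : Finset Gen} {k : Fin 7} (h : ∀ b ∈ X, b.1 ≠ k) : pr X k = 1 := by
  rw [pr, filter_false_of_mem h, prod_empty]

theorem pr_of_eq {X : Finset Gen} {k : Fin 7} (h : ∀ b ∈ X, b.1 = k) : pr X k = ∏ b ∈ X, b.2 := by
  rw [pr, filter_true_of_mem h]

theorem pr_gens {l : Fin 6 → ℕ} {h : Fin 6} (hl : Squarefree (l h)) :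
    pr (gens l) h.castSucc = l h := by
  rw [pr, filter_tag_gens, prod_image fun _ _ _ _ e => (Prod.mk.inj e).2]
  exact Nat.prod_primeFactors_of_squarefree hl

theorem le_eq {S : Sc} (hR : Rel S) (h0 : 0 < S.M) (hM : S.M ≤ S.Y) {l c P : Fin 6 → ℕ}
    (h : ∀ k, Core S (c k) ∧ (P k).Prime ∧ S.Y' < P k ∧ l k = c k * P k) :
    le S.Y' (VV S.M l) = V0 S.M ∪ gens c := by
  rw [le_VV h0 (hM.trans hR.Y_le)]
  congr 1
  ext ⟨k, p⟩
  simp only [mem_le, mem_gens]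
  constructor
  · rintro ⟨⟨j, e, h1⟩, h2⟩
    refine ⟨j, e, ?_⟩
    rw [← (h j).1.filter_le hR (h j).2.1 (h j).2.2.1, ← (h j).2.2.2]
    exact mem_filter.2 ⟨h1, h2⟩
  · rintro ⟨j, e, h1⟩
    have := h1
    rw [← (h j).1.filter_le hR (h j).2.1 (h j).2.2.1, ← (h j).2.2.2] at this
    exact ⟨⟨j, e, (mem_filter.1 this).1⟩, (mem_filter.1 this).2⟩

theorem card_VV {S : Sc} (hR : Rel S) {l c P : Fin 6 → ℕ}
    (h : ∀ k, Core S (c k) ∧ (P k).Prime ∧ S.Y' < P k ∧ l k = c k * P k) :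
    (VV S.M l).card = (V0 S.M ∪ gens c).card + 6 := by
  rw [VV, card_union_of_disjoint (disjoint_V0_gens _ _),
    card_union_of_disjoint (disjoint_V0_gens _ _), card_gens, card_gens,
    sum_congr rfl fun k _ => by rw [(h k).2.2.2, (h k).1.card_mul hR (h k).2.1 (h k).2.2.1],
    sum_add_distrib]
  simp [add_assoc]

abbrev T3 : Type := Finset Gen × Finset Gen × Finset Gen

/-- the frozen data -/
structure KD where
  S : Sc
  A : Fin 6 → ℕ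
  B : Fin 6 → ℕ
  f : TL
  g : TL
  f0 : Fin 6
  g0 : Fin 6
  O : Finset Gen
  O₁ : Finset Gen
  O₂ : Finset Gen
  ok : Finset TL → Prop

namespace KD

variable (D : KD)

def m (h : Fin 6) : ℕ := pr D.O h.castSucc

def dl : ℤ := res D.A D.B D.f0 D.g0

def al (h : Fin 6) : ℤ := res D.A D.B h D.g0 * D.m D.f0

def be (h : Fin 6) : ℤ := res D.A D.B D.f0 h * D.m D.g0

def Nn (n : ℕ) : Finset Gen := n.primeFactors.image fun p => (D.f.1, p)

def NL (n : ℕ) (ω : T3) (s : ℕ) : Finset Gen := D.O ∪ (D.Nn n ∪ ω.1) ∪ {(D.g.1, s)}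

def I1 (n : ℕ) (ω : T3) : Finset Gen := (if D.f.2.1 then D.Nn n else ∅) ∪ ω.2.1

def I2 (n : ℕ) (ω : T3) : Finset Gen := (if D.f.2.2 then D.Nn n else ∅) ∪ ω.2.2

def U1 (n : ℕ) (ω : T3) (s : ℕ) : Finset Gen :=
  D.O₁ ∪ D.I1 n ω ∪ if D.g.2.1 then {(D.g.1, s)} else ∅

def U2 (n : ℕ) (ω : T3) (s : ℕ) : Finset Gen :=
  D.O₂ ∪ D.I2 n ω ∪ if D.g.2.2 then {(D.g.1, s)} else ∅

/-- the cores of the forms other than `g` -/
def cc (n : ℕ) (ω : T3) (h : Fin 6) : ℕ := D.m h * if h = D.f0 then n else pr ω.1 h.castSucc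

def pt (r q n : ℕ) : ℕ × ℕ :=
  (((D.al 0 * n * r + D.be 0 * q) / D.dl).toNat, ((D.al 1 * n * r + D.be 1 * q) / D.dl).toNat)

def Cond (h : Fin 6) (l : ℕ) : Prop := (h = 0 ∨ h = 1) → l ≤ D.S.Z ∧ l ≡ 1 [MOD 8 * D.S.M]

def nu (ω : T3) : ℕ := ∏ b ∈ ω.1, b.2

def pt0 (ω : T3) : Finset TL :=
  pat (D.O.filter fun b => D.S.Y < b.2) D.O₁ D.O₂ ∪ pat ω.1 ω.2.1 ω.2.2 ∪ {D.f, D.g}

structure InW (ω : T3) : Prop where
  s1 : ω.2.1 ⊆ ω.1
  s2 : ω.2.2 ⊆ ω.1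
  dist : Dist ω.1
  tag : ∀ b ∈ ω.1, b.1 ≠ D.f.1 ∧ b.1 ≠ D.g.1 ∧ ¬b.2 ∣ D.m D.g0
  nu : nu ω ≤ D.S.Y' ^ 12
  card : ω.1.card ≤ 24 * D.S.J

open Classical in
def W : Finset T3 := ((TT (pri D.S.Y D.S.Y')).powerset ×ˢ (TT (pri D.S.Y D.S.Y')).powerset ×ˢ
  (TT (pri D.S.Y D.S.Y')).powerset).filter D.InW

def P : Finset ℕ := (pri D.S.Y D.S.Y').filter fun s => ¬s ∣ D.m D.f0

def IA (r q s : ℕ) : Prop := Core D.S (D.m D.g0 * s) ∧ (q / s).Prime ∧ D.S.Y' < q / s ∧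
  D.Cond D.g0 (D.m D.g0 * q) ∧ (D.m D.f0 * r).Coprime (D.m D.g0 * q)

def IB (n : ℕ) (ω : T3) : Prop := (∀ h, h ≠ D.g0 → Core D.S (D.cc n ω h)) ∧
  (∀ p ∈ n.primeFactors, D.S.Y < p) ∧ n.Coprime (D.m D.g0)

def IP (n : ℕ) (ω : T3) (h : Fin 6) (z : ℤ) : Prop :=
  ∃ P : ℕ, P.Prime ∧ D.S.Y' < P ∧ z = D.dl * (D.cc n ω h * P : ℕ) ∧ D.Cond h (D.cc n ω h * P)

/-- the properties of the frozen data -/
structure Ok : Prop where
  sys : Sys D.S.M D.A D.B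
  rel : Rel D.S
  hM : D.S.M ≤ D.S.Y
  hf : D.f.1 = D.f0.castSucc
  hg : D.g.1 = D.g0.castSucc
  ne : D.f0 ≠ D.g0
  v0 : V0 D.S.M ⊆ D.O
  el : ∀ b ∈ D.O, b ∈ V0 D.S.M ∨ (b.1 ≠ 6 ∧ b.2.Prime ∧ b.2 ≠ 2)
  med : ∀ b ∈ D.O, D.S.Y < b.2 → (b.1 = D.f.1 ∧ tl D.O₁ D.O₂ b ≠ D.f) ∨ b.1 = D.g.1
  s1 : D.O₁ ⊆ D.O
  s2 : D.O₂ ⊆ D.O

/-- the tuples that come from a term -/
structure Val (r q s n : ℕ) (ω : T3) : Prop where
  hs : s ∈ D.P
  dvd : s ∣ q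
  one : 1 < n
  hω : ω ∈ D.W
  ia : D.IA r q s
  ib : D.IB n ω
  cop : IsCoprime (q : ℤ) (n * nu ω)
  ip : ∀ h, h ≠ D.g0 → D.IP n ω h (D.al h * n * r + D.be h * q)

variable {D}

theorem mem_W {ω : T3} : ω ∈ D.W ↔ ω.1 ⊆ TT (pri D.S.Y D.S.Y') ∧ D.InW ω := by
  simp only [W, mem_filter, mem_product, mem_powerset]
  exact ⟨fun h => ⟨h.1.1, h.2⟩, fun h => ⟨⟨h.1, h.2.s1.trans h.1, h.2.s2.trans h.1⟩, h.2⟩⟩

theorem mem_Nn {n : ℕ} {b : Gen} : b ∈ D.Nn n ↔ b.1 = D.f.1 ∧ b.2 ∈ n.primeFactors := by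
  simp only [Nn, mem_image]
  exact ⟨by rintro ⟨p, h, rfl⟩; exact ⟨rfl, h⟩, fun h => ⟨b.2, h.2, Prod.ext h.1.symm rfl⟩⟩

theorem Ok.prime (hD : D.Ok) (h : Fin 6) : ∀ b ∈ D.O, b.1 = h.castSucc → b.2.Prime :=
  fun b hb e => (hD.el b hb).elim (fun k => absurd (e ▸ (mem_V0.1 k).1) (castSucc_ne_six h))
    fun k => k.2.1

theorem Ok.mem_m (hD : D.Ok) {h : Fin 6} {p : ℕ} :
    p ∈ (D.m h).primeFactors ↔ (h.castSucc, p) ∈ D.O := mem_pr (hD.prime h)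

theorem Ok.m_pos (hD : D.Ok) (h : Fin 6) : 0 < D.m h := pr_pos (hD.prime h)

theorem Ok.fg (hD : D.Ok) : D.f.1 ≠ D.g.1 := by
  rw [hD.hf, hD.hg]; exact fun e => hD.ne (Fin.castSucc_injective _ e)

theorem Ok.dl_ne (hD : D.Ok) : D.dl ≠ 0 := hD.sys.ne _ _ hD.ne

variable {r q s n : ℕ} {ω : T3}

theorem W_el (h : ω ∈ D.W) {b : Gen} (hb : b ∈ ω.1) :
    b.1 ≠ 6 ∧ D.S.Y < b.2 ∧ b.2 ≤ D.S.Y' ∧ b.2.Prime := by
  have := mem_TT.1 ((mem_W.1 h).1 hb)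
  exact ⟨this.1, mem_pri.1 this.2⟩

theorem Val.s_el (h : D.Val r q s n ω) : D.S.Y < s ∧ s ≤ D.S.Y' ∧ s.Prime :=
  mem_pri.1 (mem_filter.1 h.hs).1

/-- the values of the six forms -/
theorem Val.forms (hD : D.Ok) (h : D.Val r q s n ω) : ∃ c P : Fin 6 → ℕ,
    (∀ k, k ≠ D.g0 → c k = D.cc n ω k) ∧ c D.g0 = D.m D.g0 * s ∧
    (∀ k, Core D.S (c k) ∧ (P k).Prime ∧ D.S.Y' < P k ∧ lf D.A D.B (D.pt r q n) k = c k * P k) ∧
    (∀ k, D.Cond k (lf D.A D.B (D.pt r q n) k)) ∧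
    lf D.A D.B (D.pt r q n) D.f0 = D.m D.f0 * n * r ∧
    lf D.A D.B (D.pt r q n) D.g0 = D.m D.g0 * q := by
  classical
  have h1 : ∀ k, ∃ c P : ℕ, (k ≠ D.g0 → c = D.cc n ω k) ∧ (k = D.g0 → c = D.m D.g0 * s) ∧
      Core D.S c ∧ P.Prime ∧ D.S.Y' < P ∧ D.al k * n * r + D.be k * q = D.dl * (c * P : ℕ) ∧
      D.Cond k (c * P) := by
    intro k
    by_cases hk : k = D.g0
    · have e : D.m D.g0 * s * (q / s) = D.m D.g0 * q := by
        rw [mul_assoc, Nat.mul_div_cancel' h.dvd]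
      refine ⟨_, q / s, fun e => absurd hk e, fun _ => rfl, h.ia.1, h.ia.2.1, h.ia.2.2.1, ?_, ?_⟩
      · rw [e, hk]
        simp only [al, be, dl, res]
        push_cast
        ring
      · rw [e, hk]
        exact h.ia.2.2.2.1
    · obtain ⟨P, k1, k2, k3, k4⟩ := h.ip k hk
      exact ⟨_, P, fun _ => rfl, fun e => absurd e hk, h.ib.1 k hk, k1, k2, k3, k4⟩
  choose c P c1 c2 c3 c4 c5 c6 c7 using h1
  have h2 : D.pt r q n = (c 0 * P 0, c 1 * P 1) := by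
    rw [pt, c6, c6, Int.mul_ediv_cancel_left _ hD.dl_ne, Int.mul_ediv_cancel_left _ hD.dl_ne]
    simp only [Int.toNat_natCast]
  have h3 : ∀ k, D.dl * lf D.A D.B (D.pt r q n) k = D.al k * n * r + D.be k * q := by
    intro k
    have a0 := c6 0
    have a1 := c6 1
    rw [h2]
    simp only [lf, al, be, res, hD.sys.a0, hD.sys.a1, hD.sys.b0, hD.sys.b1] at a0 a1 ⊢
    push_cast at a0 a1 ⊢
    linear_combination (-(D.A k : ℤ)) * a0 - (D.B k : ℤ) * a1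
  have h4 : ∀ k, lf D.A D.B (D.pt r q n) k = c k * P k := fun k =>
    Nat.cast_injective (R := ℤ) (mul_left_cancel₀ hD.dl_ne ((h3 k).trans (c6 k)))
  refine ⟨c, P, c1, c2 _ rfl, fun k => ⟨c3 k, c4 k, c5 k, h4 k⟩, fun k => h4 k ▸ c7 k, ?_, ?_⟩
  · refine Nat.cast_injective (R := ℤ) (mul_left_cancel₀ hD.dl_ne ((h3 _).trans ?_))
    simp only [al, be, dl, res]
    push_cast
    ring
  · refine Nat.cast_injective (R := ℤ) (mul_left_cancel₀ hD.dl_ne ((h3 _).trans ?_))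
    simp only [al, be, dl, res]
    push_cast
    ring

theorem Val.mem_AA (hD : D.Ok) (h : D.Val r q s n ω) : D.pt r q n ∈ AA D.S D.A D.B := by
  obtain ⟨c, P, -, -, h1, h2, h3, h4⟩ := h.forms hD
  have hsh : ∀ k, Shape D.S (lf D.A D.B (D.pt r q n) k) := fun k => ⟨c k, P k, h1 k⟩
  have a0 := h2 0 (.inl rfl)
  have a1 := h2 1 (.inr rfl)
  have b0 := (hsh 0).one_lt
  have b1 := (hsh 1).one_lt
  rw [hD.sys.lf0] at a0 b0
  rw [hD.sys.lf1] at a1 b1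
  refine R2.mem_AA.2 ⟨⟨b0.le, a0.1⟩, ⟨b1.le, a1.1⟩, a0.2, a1.2, ?_, hsh⟩
  have hc : (lf D.A D.B (D.pt r q n) D.f0).Coprime (lf D.A D.B (D.pt r q n) D.g0) := by
    rw [h3, h4, mul_right_comm]
    refine Nat.Coprime.mul_left h.ia.2.2.2.2 (Nat.Coprime.mul_right h.ib.2.2 ?_)
    exact (Nat.isCoprime_iff_coprime.1 h.cop.of_mul_right_left).symm
  refine Nat.coprime_of_dvd fun p hp d1 d2 => hp.ne_one (Nat.eq_one_of_dvd_coprimes hc ?_ ?_) <;>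
    exact dvd_add (d1.mul_left _) (d2.mul_left _)

theorem Val.le_eq (hD : D.Ok) (h : D.Val r q s n ω) :
    le D.S.Y' (VV D.S.M (lf D.A D.B (D.pt r q n))) = D.NL n ω s ∧
    (VV D.S.M (lf D.A D.B (D.pt r q n))).card = (D.NL n ω s).card + 6 := by
  obtain ⟨c, P, c1, c2, h1, -⟩ := h.forms hD
  rw [KEY.le_eq hD.rel hD.sys.pos hD.hM h1, card_VV hD.rel h1]
  suffices e : V0 D.S.M ∪ gens c = D.NL n ω s by rw [e]; exact ⟨rfl, rfl⟩
  have hn : n ≠ 0 := by have := h.one; omega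
  ext ⟨k, p⟩
  simp only [NL, mem_union, mem_singleton, mem_Nn, Prod.mk.injEq]
  by_cases hk : k = 6
  · subst hk
    have e1 : (6 : Fin 7) ≠ D.f.1 := hD.hf ▸ (castSucc_ne_six _).symm
    have e2 : (6 : Fin 7) ≠ D.g.1 := hD.hg ▸ (castSucc_ne_six _).symm
    have e3 : ((6 : Fin 7), p) ∉ ω.1 := fun e => (W_el h.hω e).1 rfl
    have e4 : ((6 : Fin 7), p) ∉ gens c := fun e => by
      obtain ⟨j, e, -⟩ := mem_gens.1 e
      exact castSucc_ne_six j e.symm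
    simp only [e1, e2, e3, e4, false_and, or_false]
    exact ⟨fun e => hD.v0 e, fun e => (hD.el _ e).resolve_right fun e => e.1 rfl⟩
  obtain ⟨j, rfl⟩ := exists_castSucc hk
  have e0 : (j.castSucc, p) ∉ V0 D.S.M := fun e => hk (mem_V0.1 e).1
  rw [mk_mem_gens, hD.hf, hD.hg, Fin.castSucc_inj, Fin.castSucc_inj, ← hD.mem_m]
  simp only [e0, false_or]
  by_cases hg : j = D.g0
  · have e3 : (j.castSucc, p) ∉ ω.1 := fun e => ((mem_W.1 h.hω).2.tag _ e).2.1 (hg ▸ hD.hg.symm)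
    rw [hg] at e3
    rw [hg, c2, Nat.primeFactors_mul (hD.m_pos _).ne' h.s_el.2.2.ne_zero, h.s_el.2.2.primeFactors]
    simp only [mem_union, mem_singleton, e3, hD.ne.symm, false_and, or_false, true_and]
  · rw [c1 j hg, cc]
    split_ifs with hf
    · have e3 : (j.castSucc, p) ∉ ω.1 := fun e => ((mem_W.1 h.hω).2.tag _ e).1 (hf ▸ hD.hf.symm)
      rw [Nat.primeFactors_mul (hD.m_pos _).ne' hn]
      simp only [mem_union, e3, hg, or_false, false_and]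
      simp only [hf, true_and]
    · have hp : ∀ b ∈ ω.1, b.1 = j.castSucc → b.2.Prime := fun b hb _ => (W_el h.hω hb).2.2.2
      rw [Nat.primeFactors_mul (hD.m_pos _).ne' (pr_pos hp).ne', mem_union, mem_pr hp]
      simp only [hg, hf, or_false, false_and, false_or]

theorem not_dvd_both {a b p : ℕ} (h : Squarefree (a * b)) (hp : p.Prime) (h1 : p ∣ a)
    (h2 : p ∣ b) : False :=
  hp.ne_one (Nat.eq_one_of_dvd_coprimes (Nat.coprime_of_squarefree_mul h) h1 h2)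

/-- the four parts are disjoint -/
theorem Val.disj (hD : D.Ok) (h : D.Val r q s n ω) :
    (∀ b ∈ D.Nn n, b ∉ D.O) ∧ (∀ b ∈ ω.1, b ∉ D.O) ∧ (D.g.1, s) ∉ D.O ∧
    (∀ b ∈ ω.1, b ∉ D.Nn n) ∧ (D.g.1, s) ∉ D.Nn n ∧ (D.g.1, s) ∉ ω.1 := by
  have ht := (mem_W.1 h.hω).2.tag
  refine ⟨fun b hb e => ?_, fun b hb e => ?_, fun e => ?_, fun b hb e => ?_, fun e => ?_,
    fun e => (ht _ e).2.1 rfl⟩
  · have h1 := (h.ib.1 _ hD.ne).sqf
    rw [cc, if_pos rfl] at h1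
    obtain ⟨k1, k2⟩ := mem_Nn.1 hb
    refine not_dvd_both h1 (Nat.prime_of_mem_primeFactors k2) ?_ (Nat.dvd_of_mem_primeFactors k2)
    rw [m, ← hD.hf, ← k1]
    exact dvd_pr e
  · rcases hD.med b e (W_el h.hω hb).2.1 with k | k
    · exact (ht b hb).1 k.1
    · exact (ht b hb).2.1 k
  · refine not_dvd_both h.ia.1.sqf h.s_el.2.2 ?_ dvd_rfl
    rw [m, ← hD.hg]
    exact dvd_pr e
  · exact (ht b hb).1 (mem_Nn.1 e).1
  · exact hD.fg (mem_Nn.1 e).1.symm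

theorem tl_eq_iff {U U' : Finset Gen} {b : Gen} {f : TL} :
    tl U U' b = f ↔ b.1 = f.1 ∧ (b ∈ U ↔ f.2.1) ∧ (b ∈ U' ↔ f.2.2) := by
  obtain ⟨k, u, u'⟩ := f
  cases u <;> cases u' <;> simp [tl]

/-- the labels of the four parts -/
theorem Val.labels (hD : D.Ok) (h : D.Val r q s n ω) :
    (∀ b ∈ D.O, tl (D.U1 n ω s) (D.U2 n ω s) b = tl D.O₁ D.O₂ b) ∧
    (∀ b ∈ D.Nn n, tl (D.U1 n ω s) (D.U2 n ω s) b = D.f) ∧
    (∀ b ∈ ω.1, tl (D.U1 n ω s) (D.U2 n ω s) b = tl ω.2.1 ω.2.2 b) ∧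
    tl (D.U1 n ω s) (D.U2 n ω s) (D.g.1, s) = D.g := by
  obtain ⟨d1, d2, d3, d4, d5, d6⟩ := h.disj hD
  have w1 := (mem_W.1 h.hω).2.s1
  have w2 := (mem_W.1 h.hω).2.s2
  have key : ∀ (X Y : Finset Gen) (u v : Bool) (b : Gen), b ∈ X ∪ ((if u then D.Nn n else ∅) ∪ Y) ∪
      (if v then {(D.g.1, s)} else ∅) ↔
      b ∈ X ∨ (u ∧ b ∈ D.Nn n) ∨ b ∈ Y ∨ (v ∧ b = (D.g.1, s)) := by
    intro X Y u v b
    cases u <;> cases v <;> simp <;> tauto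
  simp only [tl_eq_iff, U1, U2, I1, I2, key]
  refine ⟨fun b hb => ?_, fun b hb => ?_, fun b hb => ?_, ?_⟩
  · have a1 : b ∉ D.Nn n := fun e => d1 b e hb
    have a2 : b ∉ ω.2.1 := fun e => d2 b (w1 e) hb
    have a3 : b ∉ ω.2.2 := fun e => d2 b (w2 e) hb
    have a4 : b ≠ (D.g.1, s) := fun e => d3 (e ▸ hb)
    simp [tl, a1, a2, a3, a4]
  · have a1 : b ∉ D.O₁ := fun e => d1 b hb (hD.s1 e)
    have a1' : b ∉ D.O₂ := fun e => d1 b hb (hD.s2 e)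
    have a2 : b ∉ ω.2.1 := fun e => d4 b (w1 e) hb
    have a3 : b ∉ ω.2.2 := fun e => d4 b (w2 e) hb
    have a4 : b ≠ (D.g.1, s) := fun e => d5 (e ▸ hb)
    simp [hb, a1, a1', a2, a3, a4, (mem_Nn.1 hb).1]
  · have a1 : b ∉ D.O₁ := fun e => d2 b hb (hD.s1 e)
    have a1' : b ∉ D.O₂ := fun e => d2 b hb (hD.s2 e)
    have a2 := d4 b hb
    have a4 : b ≠ (D.g.1, s) := fun e => d6 (e ▸ hb)
    simp [tl, a1, a1', a2, a4]
  · have a1 : (D.g.1, s) ∉ D.O₁ := fun e => d3 (hD.s1 e)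
    have a1' : (D.g.1, s) ∉ D.O₂ := fun e => d3 (hD.s2 e)
    have a2 : (D.g.1, s) ∉ ω.2.1 := fun e => d6 (w1 e)
    have a3 : (D.g.1, s) ∉ ω.2.2 := fun e => d6 (w2 e)
    simp [a1, a1', a2, a3, d5]

/-- the condition in the definition of `keySum` -/
structure Tm (D : KD) (i : ℕ) (x : ℕ × ℕ) (U U' : Finset Gen) (s : Gen) : Prop where
  hx : x ∈ AA D.S D.A D.B
  hU : U ⊆ le D.S.Y' (VV D.S.M (lf D.A D.B x))
  hU' : U' ⊆ le D.S.Y' (VV D.S.M (lf D.A D.B x))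
  hs : s ∈ md D.S.Y D.S.Y' (VV D.S.M (lf D.A D.B x))
  ok : D.ok (pat (md D.S.Y D.S.Y' (VV D.S.M (lf D.A D.B x))) U U')
  tg : tl U U' s = D.g
  out : outer D.S (VV D.S.M (lf D.A D.B x)) U U' D.f D.g s = D.O
  o1 : D.O ∩ U = D.O₁
  o2 : D.O ∩ U' = D.O₂
  lo : 2 ^ i < nOf D.S (VV D.S.M (lf D.A D.B x)) U U' D.f
  hi : nOf D.S (VV D.S.M (lf D.A D.B x)) U U' D.f ≤ 2 ^ (i + 1)

/-- the medium generators of the other four forms -/
def rest (D : KD) (x : ℕ × ℕ) : Finset Gen :=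
  (md D.S.Y D.S.Y' (VV D.S.M (lf D.A D.B x))).filter fun b => b.1 ≠ D.f.1 ∧ b.1 ≠ D.g.1

theorem md_eq (Y Y' : ℕ) (V : Finset Gen) : md Y Y' V = (le Y' V).filter fun b => Y < b.2 := by
  ext b; simp only [mem_md, mem_filter, mem_le]; tauto

theorem Val.back (hD : D.Ok) (h : D.Val r q s n ω) :
    nOf D.S (VV D.S.M (lf D.A D.B (D.pt r q n))) (D.U1 n ω s) (D.U2 n ω s) D.f = n ∧
    D.rest (D.pt r q n) = ω.1 ∧ ω.1 ∩ D.U1 n ω s = ω.2.1 ∧ ω.1 ∩ D.U2 n ω s = ω.2.2 ∧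
    pat (md D.S.Y D.S.Y' (VV D.S.M (lf D.A D.B (D.pt r q n)))) (D.U1 n ω s) (D.U2 n ω s) = D.pt0 ω ∧
    ∀ i, 2 ^ i < n → n ≤ 2 ^ (i + 1) → D.ok (D.pt0 ω) →
      D.Tm i (D.pt r q n) (D.U1 n ω s) (D.U2 n ω s) (D.g.1, s) := by
  obtain ⟨d1, d2, d3, d4, d5, d6⟩ := h.disj hD
  obtain ⟨l1, l2, l3, l4⟩ := h.labels hD
  have e := (h.le_eq hD).1
  have hw := (mem_W.1 h.hω).2
  have hN : ∀ b ∈ D.Nn n, D.S.Y < b.2 := fun b hb => h.ib.2.1 _ (mem_Nn.1 hb).2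
  have hω : ∀ b ∈ ω.1, D.S.Y < b.2 := fun b hb => (W_el h.hω hb).2.1
  have mem : ∀ b, b ∈ D.NL n ω s ↔ b ∈ D.O ∨ b ∈ D.Nn n ∨ b ∈ ω.1 ∨ b = (D.g.1, s) := fun b => by
    simp only [NL, mem_union, mem_singleton, or_assoc]
  have hsq : Squarefree n := by
    have h1 := (h.ib.1 _ hD.ne).sqf
    rw [cc, if_pos rfl] at h1
    exact h1.of_mul_right
  have e1 : nOf D.S (VV D.S.M (lf D.A D.B (D.pt r q n))) (D.U1 n ω s) (D.U2 n ω s) D.f = n := by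
    rw [nOf, md_eq, e, filter_filter, show (D.NL n ω s).filter (fun b => D.S.Y < b.2 ∧
      tl (D.U1 n ω s) (D.U2 n ω s) b = D.f) = D.Nn n from ?_, Nn,
      prod_image fun _ _ _ _ e => (Prod.mk.inj e).2]
    · exact Nat.prod_primeFactors_of_squarefree hsq
    ext b
    rw [mem_filter, mem]
    refine ⟨?_, fun hb => ⟨.inr (.inl hb), hN b hb, l2 b hb⟩⟩
    rintro ⟨hb | hb | hb | rfl, k1, k2⟩
    · rcases hD.med b hb k1 with k | k
      · exact absurd (l1 b hb ▸ k2) k.2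
      · exact absurd ((tl_eq_iff.1 k2).1.symm.trans k) hD.fg
    · exact hb
    · exact absurd (tl_eq_iff.1 k2).1 (hw.tag b hb).1
    · exact absurd (tl_eq_iff.1 k2).1.symm hD.fg
  have inter : ∀ (X X₁ X₂ : Finset Gen), X₁ ⊆ X → X₂ ⊆ X →
      (∀ b ∈ X, tl (D.U1 n ω s) (D.U2 n ω s) b = tl X₁ X₂ b) →
      X ∩ D.U1 n ω s = X₁ ∧ X ∩ D.U2 n ω s = X₂ := by
    intro X X₁ X₂ s1 s2 hl
    constructor <;> ext b <;> rw [mem_inter]
    · exact ⟨fun k => by simpa [tl] using (tl_eq_iff.1 (hl b k.1)).2.1.1 k.2,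
        fun k => ⟨s1 k, (tl_eq_iff.1 (hl b (s1 k))).2.1.2 (by simpa [tl] using k)⟩⟩
    · exact ⟨fun k => by simpa [tl] using (tl_eq_iff.1 (hl b k.1)).2.2.1 k.2,
        fun k => ⟨s2 k, (tl_eq_iff.1 (hl b (s2 k))).2.2.2 (by simpa [tl] using k)⟩⟩
  have sub : ∀ (X Y : Finset Gen) (u v : Bool), X ⊆ D.O → Y ⊆ ω.1 →
      X ∪ ((if u then D.Nn n else ∅) ∪ Y) ∪ (if v then {(D.g.1, s)} else ∅) ⊆ D.NL n ω s := by
    intro X Y u v s1 s2
    refine union_subset_union (union_subset_union s1 (union_subset_union ?_ s2)) ?_ <;>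
      split_ifs <;> simp
  have e2 : pat (md D.S.Y D.S.Y' (VV D.S.M (lf D.A D.B (D.pt r q n)))) (D.U1 n ω s) (D.U2 n ω s) =
      D.pt0 ω := by
    rw [md_eq, e]
    ext π
    simp only [pat, pt0, mem_image, mem_filter, mem, mem_union, mem_insert, mem_singleton]
    constructor
    · rintro ⟨b, ⟨hb | hb | hb | rfl, k1⟩, rfl⟩
      · exact .inl (.inl ⟨b, ⟨hb, k1⟩, (l1 b hb).symm⟩)
      · exact .inr (.inl (l2 b hb))
      · exact .inl (.inr ⟨b, hb, (l3 b hb).symm⟩)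
      · exact .inr (.inr l4)
    · rintro ((⟨b, ⟨hb, k1⟩, rfl⟩ | ⟨b, hb, rfl⟩) | rfl | rfl)
      · exact ⟨b, ⟨.inl hb, k1⟩, l1 b hb⟩
      · exact ⟨b, ⟨.inr (.inr (.inl hb)), hω b hb⟩, l3 b hb⟩
      · obtain ⟨p, hp⟩ := Nat.nonempty_primeFactors.2 h.one
        have hb : (D.f.1, p) ∈ D.Nn n := mem_Nn.2 ⟨rfl, hp⟩
        exact ⟨_, ⟨.inr (.inl hb), hN _ hb⟩, l2 _ hb⟩
      · exact ⟨_, ⟨.inr (.inr (.inr rfl)), h.s_el.1⟩, l4⟩
  refine ⟨e1, ?_, (inter _ _ _ hw.s1 hw.s2 l3).1, (inter _ _ _ hw.s1 hw.s2 l3).2, e2,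
    fun i i1 i2 hok => ⟨h.mem_AA hD, e ▸ sub _ _ _ _ hD.s1 hw.s1, e ▸ sub _ _ _ _ hD.s2 hw.s2, ?_,
      e2 ▸ hok, l4, ?_, (inter _ _ _ hD.s1 hD.s2 l1).1, (inter _ _ _ hD.s1 hD.s2 l1).2,
      e1.symm ▸ i1, e1.symm ▸ i2⟩⟩
  · ext b
    rw [rest, md_eq, e, mem_filter, mem_filter, mem]
    refine ⟨?_, fun hb => ⟨⟨.inr (.inr (.inl hb)), hω b hb⟩, (hw.tag b hb).1, (hw.tag b hb).2.1⟩⟩
    rintro ⟨⟨hb | hb | hb | rfl, k1⟩, k2, k3⟩
    · exact ((hD.med b hb k1).elim (fun k => k2 k.1) k3).elim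
    · exact absurd (mem_Nn.1 hb).1 k2
    · exact hb
    · exact absurd rfl k3
  · rw [md_eq, e, mem_filter, mem]
    exact ⟨.inr (.inr (.inr rfl)), h.s_el.1⟩
  · ext b
    rw [outer, e, mem_filter, mem]
    constructor
    · rintro ⟨hb | hb | hb | rfl, k⟩
      · exact hb
      · rcases k with k | k | k
        · exact absurd (hN b hb) (not_lt.2 k)
        · exact absurd (l2 b hb) k.2
        · exact absurd ((mem_Nn.1 hb).1.symm.trans k.1) hD.fg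
      · rcases k with k | k | k
        · exact absurd (hω b hb) (not_lt.2 k)
        · exact absurd k.1 (hw.tag b hb).1
        · exact absurd k.1 (hw.tag b hb).2.1
      · rcases k with k | k | k
        · exact absurd h.s_el.1 (not_lt.2 k)
        · exact absurd k.1.symm hD.fg
        · exact absurd rfl k.2
    · intro hb
      refine ⟨.inl hb, ?_⟩
      by_cases k : b.2 ≤ D.S.Y
      · exact .inl k
      rcases hD.med b hb (not_le.1 k) with k | k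
      · exact .inr (.inl ⟨k.1, l1 b hb ▸ k.2⟩)
      · exact .inr (.inr ⟨k, fun e => d3 (e ▸ hb)⟩)

theorem med_bound {S : Sc} {c : Fin 6 → ℕ} (hc : ∀ k, Core S (c k))
    {f g : Fin 6} (hfg : f ≠ g) {X : Finset Gen}
    (hX : ∀ b ∈ X, b ∈ gens c ∧ S.Y < b.2 ∧ b.1 ≠ f.castSucc ∧ b.1 ≠ g.castSucc) :
    ∏ b ∈ X, b.2 ≤ S.Y' ^ 12 ∧ X.card ≤ 24 * S.J := by
  let T : Finset (Fin 6) := (univ.erase f).erase g
  have hT : T.card = 4 := by
    rw [card_erase_of_mem (by simp [hfg.symm]), card_erase_of_mem (mem_univ _)]; rfl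
  let F : Fin 6 → Finset Gen := fun k =>
    ((c k).primeFactors.filter (S.Y < ·)).image fun p => (k.castSucc, p)
  have hs : X ⊆ T.biUnion F := by
    intro b hb
    obtain ⟨k1, k2, k3, k4⟩ := hX b hb
    obtain ⟨k, e, k5⟩ := mem_gens.1 k1
    refine mem_biUnion.2 ⟨k, ?_, mem_image.2 ⟨b.2, mem_filter.2 ⟨k5, k2⟩, Prod.ext e.symm rfl⟩⟩
    simp only [T, mem_erase, mem_univ, and_true]
    exact ⟨fun e' => k4 (e' ▸ e), fun e' => k3 (e' ▸ e)⟩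
  constructor
  · have hd : (T : Set (Fin 6)).PairwiseDisjoint F := by
      intro h _ k _ hk
      simp only [Function.onFun, disjoint_left, mem_image, F]
      rintro _ ⟨p, -, rfl⟩ ⟨q, -, e⟩
      exact hk (Fin.castSucc_injective _ (Prod.mk.inj e).1).symm
    calc ∏ b ∈ X, b.2 ≤ ∏ b ∈ T.biUnion F, b.2 := by
          refine prod_le_prod_of_subset_of_one_le' hs fun b hb _ => ?_
          obtain ⟨k, -, hb⟩ := mem_biUnion.1 hb
          obtain ⟨p, hp, rfl⟩ := mem_image.1 hb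
          exact (Nat.prime_of_mem_primeFactors (mem_filter.1 hp).1).pos
      _ ≤ ∏ _k ∈ T, S.Y' ^ 3 := by
          rw [prod_biUnion hd]
          refine prod_le_prod' fun k _ => ?_
          rw [prod_image fun _ _ _ _ e => (Prod.mk.inj e).2]
          exact (hc k).me
      _ = _ := by rw [prod_const, hT, ← pow_mul]
  · calc X.card ≤ ∑ k ∈ T, (F k).card := (card_le_card hs).trans card_biUnion_le
      _ ≤ ∑ _k ∈ T, 6 * S.J := sum_le_sum fun k _ => card_image_le.trans (hc k).hi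
      _ = _ := by rw [sum_const, hT, smul_eq_mul]; ring

theorem Tm.fwd (hD : D.Ok) {i : ℕ} {x : ℕ × ℕ} {U U' : Finset Gen} {s : Gen}
    (h : D.Tm i x U U' s) : ∃ (r q n : ℕ) (ω : T3), D.Val r q s.2 n ω ∧ D.pt r q n = x ∧
      D.U1 n ω s.2 = U ∧ D.U2 n ω s.2 = U' ∧ (D.g.1, s.2) = s := by
  have hA := adm_of_mem hD.rel h.hx
  obtain ⟨x1, x2, x3, x4, -, hsh⟩ := R2.mem_AA.1 h.hx
  choose c P hc using hsh
  have hX := KEY.le_eq hD.rel hD.sys.pos hD.hM hc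
  have hs1 : s.1 = D.g.1 := (tl_eq_iff.1 h.tg).1
  set V := VV D.S.M (lf D.A D.B x) with hV
  set Ns := (md D.S.Y D.S.Y' V).filter fun b => tl U U' b = D.f with hNs
  have med : ∀ b ∈ md D.S.Y D.S.Y' V, b ∈ gens c ∧ b.2.Prime := by
    intro b hb
    rw [md_eq, hX, mem_filter, mem_union] at hb
    have k : b ∈ gens c := hb.1.resolve_left fun k => by
      have := hD.hM
      have := hD.sys.pos
      rcases (mem_V0.1 k).2 with k | k
      · omega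
      · have := Nat.le_of_mem_primeFactors k
        omega
    obtain ⟨j, -, k'⟩ := mem_gens.1 k
    exact ⟨k, Nat.prime_of_mem_primeFactors k'⟩
  have hN1 : ∀ b ∈ Ns, b.1 = D.f.1 := fun b hb => (tl_eq_iff.1 (mem_filter.1 hb).2).1
  have hn : nOf D.S V U U' D.f = pr Ns D.f.1 := (pr_of_eq hN1).symm
  set n := nOf D.S V U U' D.f
  have hNn : D.Nn n = Ns := by
    ext b
    rw [mem_Nn, hn, mem_pr fun b hb _ => (med b (mem_filter.1 hb).1).2]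
    exact ⟨fun k => by have h2 := k.2; rw [← k.1] at h2; exact h2,
      fun k => ⟨hN1 b k, by rw [← hN1 b k]; exact k⟩⟩
  have hO : ∀ b, b ∈ D.O ↔ b ∈ le D.S.Y' V ∧ (b.2 ≤ D.S.Y ∨ (b.1 = D.f.1 ∧ tl U U' b ≠ D.f) ∨
      (b.1 = D.g.1 ∧ b ≠ s)) := fun b => by rw [← h.out, outer, mem_filter]
  have hR : ∀ b, b ∈ D.rest x ↔ (b ∈ le D.S.Y' V ∧ D.S.Y < b.2) ∧ b.1 ≠ D.f.1 ∧ b.1 ≠ D.g.1 :=
    fun b => by rw [rest, md_eq, mem_filter, mem_filter]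
  have hN : ∀ b, b ∈ Ns ↔ (b ∈ le D.S.Y' V ∧ D.S.Y < b.2) ∧ tl U U' b = D.f :=
    fun b => by rw [hNs, md_eq, mem_filter, mem_filter]
  have hs : s ∈ le D.S.Y' V ∧ D.S.Y < s.2 := by have := h.hs; rwa [md_eq, mem_filter] at this
  have fg := hD.fg
  have part : le D.S.Y' V = D.O ∪ (Ns ∪ D.rest x) ∪ {s} := by
    ext b
    simp only [mem_union, mem_singleton, hO, hR, hN]
    constructor
    · intro hb
      by_cases k1 : b.2 ≤ D.S.Y
      · exact .inl (.inl ⟨hb, .inl k1⟩)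
      by_cases k2 : b = s
      · exact .inr k2
      by_cases k3 : tl U U' b = D.f
      · exact .inl (.inr (.inl ⟨⟨hb, not_le.1 k1⟩, k3⟩))
      by_cases k4 : b.1 = D.f.1
      · exact .inl (.inl ⟨hb, .inr (.inl ⟨k4, k3⟩)⟩)
      by_cases k5 : b.1 = D.g.1
      · exact .inl (.inl ⟨hb, .inr (.inr ⟨k5, k2⟩)⟩)
      · exact .inl (.inr (.inr ⟨⟨hb, not_le.1 k1⟩, k4, k5⟩))
    · rintro ((k | k | k) | rfl)
      exacts [k.1, k.1.1, k.1.1, hs.1]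
  have d1 : Disjoint Ns (D.rest x) := disjoint_left.2 fun b k k' => ((hR b).1 k').2.1 (hN1 b k)
  have d2 : Disjoint D.O (Ns ∪ D.rest x) := disjoint_left.2 fun b k k' => by
    rcases mem_union.1 k' with k' | k' <;> rcases ((hO b).1 k).2 with k | k | k
    · exact absurd ((hN b).1 k').1.2 (not_lt.2 k)
    · exact k.2 ((hN b).1 k').2
    · exact fg ((hN1 b k').symm.trans k.1)
    · exact absurd ((hR b).1 k').1.2 (not_lt.2 k)
    · exact ((hR b).1 k').2.1 k.1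
    · exact ((hR b).1 k').2.2 k.1
  have d3 : Disjoint (D.O ∪ (Ns ∪ D.rest x)) {s} := disjoint_singleton_right.2 fun k => by
    rcases mem_union.1 k with k | k
    · rcases ((hO s).1 k).2 with k | k | k
      · exact absurd hs.2 (not_lt.2 k)
      · exact fg (k.1.symm.trans hs1)
      · exact k.2 rfl
    · rcases mem_union.1 k with k | k
      · exact fg ((hN1 s k).symm.trans hs1)
      · exact ((hR s).1 k).2.2 hs1
  have hcc : ∀ k, c k = D.m k * (pr Ns k.castSucc * pr (D.rest x) k.castSucc) *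
      pr {s} k.castSucc := by
    intro k
    rw [m, ← pr_union d1, ← pr_union d2, ← pr_union d3, ← part, hX,
      pr_union (disjoint_V0_gens _ _), pr_gens (hc k).1.sqf,
      pr_of_ne fun b hb e => castSucc_ne_six k (e.symm.trans (mem_V0.1 hb).1), one_mul]
  let ω : T3 := (D.rest x, D.rest x ∩ U, D.rest x ∩ U')
  have c1 : ∀ k, k ≠ D.g0 → c k = D.cc n ω k := by
    intro k hk
    rw [hcc, cc, pr_of_ne (X := {s}) (fun b hb e => hk (Fin.castSucc_injective _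
      (by rw [← e, mem_singleton.1 hb, hs1, hD.hg]))), mul_one]
    split_ifs with hf
    · rw [pr_of_ne (X := D.rest x) (fun b hb e => ((hR b).1 hb).2.1 (by rw [e, hf, hD.hf])),
        mul_one, hn, hf, hD.hf]
    · rw [pr_of_ne (X := Ns) (fun b hb e => hf (Fin.castSucc_injective _
        (by rw [← e, hN1 b hb, hD.hf]))), one_mul]
  have c2 : c D.g0 = D.m D.g0 * s.2 := by
    rw [hcc, pr_of_ne (X := Ns) (fun b hb e => fg (by rw [← hN1 b hb, e, hD.hg])),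
      pr_of_ne (X := D.rest x) (fun b hb e => ((hR b).1 hb).2.2 (by rw [e, hD.hg])),
      pr_of_eq (X := {s}) (fun b hb => by rw [mem_singleton.1 hb, hs1, hD.hg])]
    simp
  have lf1 : lf D.A D.B x D.f0 = D.m D.f0 * n * P D.f0 := by
    rw [(hc _).2.2.2, c1 _ hD.ne, cc, if_pos rfl]
  have lf2 : lf D.A D.B x D.g0 = D.m D.g0 * (s.2 * P D.g0) := by
    rw [(hc _).2.2.2, c2, mul_assoc]
  have sp := (med s h.hs).2
  have z : ∀ k, D.al k * n * P D.f0 + D.be k * (s.2 * P D.g0 : ℕ) = D.dl * lf D.A D.B x k := by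
    intro k
    rw [dl, cramer, lf1, lf2, al, be]
    push_cast
    ring
  have cond : ∀ k, D.Cond k (lf D.A D.B x k) := by
    rintro k (rfl | rfl)
    · rw [hD.sys.lf0]; exact ⟨x1.2, x3⟩
    · rw [hD.sys.lf1]; exact ⟨x2.2, x4⟩
  have cfg := hA.coprime hD.sys hD.ne
  rw [lf1, lf2] at cfg
  have rel : ∀ b ∈ D.rest x, b.2.Coprime (lf D.A D.B x D.g0) := by
    intro b hb
    obtain ⟨k, e, k1⟩ := mem_gens.1 (med b (mem_filter.1 hb).1).1
    have k2 : k ≠ D.g0 := fun e' => ((hR b).1 hb).2.2 (by rw [e, e', hD.hg])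
    refine Nat.Coprime.coprime_dvd_left ?_ (hA.coprime hD.sys k2)
    rw [(hc k).2.2.2]
    exact (Nat.dvd_of_mem_primeFactors k1).mul_right _
  have mb := med_bound (fun k => (hc k).1) hD.ne
    (X := D.rest x) fun b hb => ⟨(med b (mem_filter.1 hb).1).1, ((hR b).1 hb).1.2,
      hD.hf ▸ ((hR b).1 hb).2.1, hD.hg ▸ ((hR b).1 hb).2.2⟩
  have e5 : s.2 * P D.g0 / s.2 = P D.g0 := Nat.mul_div_cancel_left _ sp.pos
  have un : ∀ (X X₁ : Finset Gen) (u v : Bool), X ⊆ le D.S.Y' V → D.O ∩ X = X₁ →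
      (∀ b ∈ Ns, (b ∈ X ↔ u)) → (s ∈ X ↔ v) →
      X₁ ∪ ((if u then D.Nn n else ∅) ∪ D.rest x ∩ X) ∪ (if v then {(D.g.1, s.2)} else ∅) = X := by
    intro X X₁ u v k1 k2 k3 k4
    rw [hNn, ← hs1, ← k2]
    ext b
    have k5 : b ∈ X → b ∈ D.O ∨ b ∈ Ns ∨ b ∈ D.rest x ∨ b = s := fun hb => by
      have := k1 hb
      rw [part] at this
      simpa only [mem_union, mem_singleton, or_assoc] using this
    have k6 := k3 b
    cases u <;> cases v <;> simp only [mem_union, mem_inter, mem_singleton, notMem_empty,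
      Bool.false_eq_true, if_false, if_true, Prod.mk.eta, iff_false, iff_true] at * <;> grind
  refine ⟨P D.f0, s.2 * P D.g0, n, ω, ⟨?_, dvd_mul_right _ _, ?_, ?_, ?_, ?_, ?_, fun k hk => ?_⟩,
    ?_, un _ _ _ _ h.hU h.o1 (fun b hb => (tl_eq_iff.1 ((hN b).1 hb).2).2.1) (tl_eq_iff.1 h.tg).2.1,
    un _ _ _ _ h.hU' h.o2 (fun b hb => (tl_eq_iff.1 ((hN b).1 hb).2).2.2) (tl_eq_iff.1 h.tg).2.2,
    by rw [← hs1]⟩
  · refine mem_filter.2 ⟨mem_pri.2 ⟨hs.2, (mem_le.1 hs.1).2, sp⟩, fun hd => sp.ne_one ?_⟩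
    exact Nat.eq_one_of_dvd_coprimes cfg ((hd.mul_right _).mul_right _)
      ((dvd_mul_right _ _).mul_left _)
  · exact (Nat.one_le_two_pow).trans_lt h.lo
  · refine mem_W.2 ⟨fun b hb => ?_, inter_subset_left, inter_subset_left,
      (hA.nice hD.sys).dist.mono fun b hb => (mem_md.1 (mem_filter.1 hb).1).1, fun b hb =>
        ⟨((hR b).1 hb).2.1, ((hR b).1 hb).2.2, fun hd => (med b (mem_filter.1 hb).1).2.ne_one ?_⟩,
      mb.1, mb.2⟩
    · obtain ⟨k1, k2⟩ := med b (mem_filter.1 hb).1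
      obtain ⟨k, e, -⟩ := mem_gens.1 k1
      exact mem_TT.2 ⟨e ▸ castSucc_ne_six k, mem_pri.2 ⟨((hR b).1 hb).1.2,
        (mem_le.1 ((hR b).1 hb).1.1).2, k2⟩⟩
    · exact Nat.eq_one_of_dvd_coprimes (rel b hb) dvd_rfl (lf2 ▸ hd.mul_right _)
  · refine ⟨c2 ▸ (hc _).1, e5.symm ▸ (hc _).2.1, e5.symm ▸ (hc _).2.2.1, lf2 ▸ cond _, ?_⟩
    exact Nat.Coprime.coprime_dvd_left (by rw [mul_right_comm]; exact dvd_mul_right _ _) cfg
  · refine ⟨fun k hk => c1 k hk ▸ (hc k).1, fun p hp => ?_, ?_⟩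
    · have : (D.f.1, p) ∈ Ns := hNn ▸ mem_Nn.2 ⟨rfl, hp⟩
      exact ((hN _).1 this).1.2
    · exact Nat.Coprime.coprime_dvd_left ((dvd_mul_left _ _).mul_right _)
        (Nat.Coprime.coprime_dvd_right (dvd_mul_right _ _) cfg)
  · rw [← Nat.cast_mul, Nat.isCoprime_iff_coprime]
    refine Nat.Coprime.mul_right ?_ (Nat.Coprime.prod_right fun b hb => ?_)
    · exact (Nat.Coprime.coprime_dvd_left ((dvd_mul_left _ _).mul_right _)
        (Nat.Coprime.coprime_dvd_right (dvd_mul_left _ _) cfg)).symm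
    · exact Nat.Coprime.coprime_dvd_left (lf2 ▸ dvd_mul_left _ _) (rel b hb).symm
  · refine ⟨P k, (hc k).2.1, (hc k).2.2.1, ?_, ?_⟩
    · rw [z, (hc k).2.2.2, c1 k hk]
    · rw [← c1 k hk, ← (hc k).2.2.2]; exact cond k
  · rw [pt, z, z, Int.mul_ediv_cancel_left _ hD.dl_ne, Int.mul_ediv_cancel_left _ hD.dl_ne,
      hD.sys.lf0, hD.sys.lf1]
    simp only [Int.toNat_natCast]

end KD

end KEY

end Pool.Agent.MP_a43263_nt.R2
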