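import Mathlib.NumberTheory.DirichletCharacter.Orthogonality
import Pool.Agent.MP_a43263_nt.R2.Spec
import Pool.Agent.MP_a43263_nt.R2.KeyB
import Pool.Agent.MP_a43263_nt.R2.Basic
import Pool.Agent.MP_a43263_nt.R2.Sw

-- ======== part 0: formerly Pool.Agent.MP_a43263_nt.R2.Fib
section MrgPart0

/-! PROJECT RANK2, module FIB: the upper bound sieve on the fibres. -/

set_option autoImplicit false

noncomputable section

namespace Pool.Agent.MP_a43263_nt.R2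

open Finset Filter

namespace Fib

theorem card_primes (X y : ℕ) (hy : 1 ≤ y) :
    (((Ioc 0 X).filter fun P => P.Prime ∧ y < P).card : ℝ) * Real.log y ≤ 3 * X := by
  have h1 := Chebyshev.theta_le_log4_mul_x (x := (X : ℝ)) (Nat.cast_nonneg X)
  have h2 : Real.log 4 ≤ 3 := by
    have := Real.log_le_sub_one_of_pos (x := 4) (by norm_num)
    linarith
  have h3 : Real.log 4 * X ≤ 3 * X := mul_le_mul_of_nonneg_right h2 (Nat.cast_nonneg X)
  refine le_trans ?_ (h1.trans h3)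
  rw [Chebyshev.theta, Nat.floor_natCast, ← nsmul_eq_mul, ← sum_const]
  refine le_trans (sum_le_sum (g := fun p : ℕ => Real.log p) fun p hp => ?_)
    (sum_le_sum_of_subset_of_nonneg (fun p hp => ?_) fun p _ _ => Real.log_natCast_nonneg p)
  · have := (mem_filter.1 hp).2.2
    exact Real.log_le_log (by exact_mod_cast hy) (by exact_mod_cast this.le)
  · exact mem_filter.2 ⟨(mem_filter.1 hp).1, (mem_filter.1 hp).2.1⟩

theorem card_lin {p : ℕ} (hp : p.Prime) {u : ℤ} (v : ℤ) (hu : ¬(p : ℤ) ∣ u) :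
    ((range p).filter fun r : ℕ => (p : ℤ) ∣ u * r + v).card = 1 := by
  have := Fact.mk hp
  have hu' : (u : ZMod p) ≠ 0 := fun h => hu ((ZMod.intCast_zmod_eq_zero_iff_dvd u p).1 h)
  refine card_eq_one.2 ⟨(-(v : ZMod p) * (u : ZMod p)⁻¹).val, ?_⟩
  ext r
  rw [mem_filter, mem_range, mem_singleton, ← ZMod.intCast_zmod_eq_zero_iff_dvd]
  push_cast
  constructor
  · rintro ⟨h1, h2⟩
    have : -(v : ZMod p) * (u : ZMod p)⁻¹ = r := by
      field_simp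
      linear_combination -h2
    rw [this, ZMod.val_natCast, Nat.mod_eq_of_lt h1]
  · rintro rfl
    refine ⟨ZMod.val_lt _, ?_⟩
    rw [ZMod.natCast_zmod_val]
    field_simp
    ring

theorem w_pos {p : ℕ} (hp : 11 ≤ p) : (0 : ℝ) < 5 / ((p : ℝ) - 5) := by
  have : (11 : ℝ) ≤ p := by exact_mod_cast hp
  exact div_pos (by norm_num) (by linarith)

/-- the sets with a small product carry half of the mass -/
theorem half_mass (pm : PMStmt) (P : Finset ℕ) (y : ℕ) (hy : 2 ≤ y) (hP : ∀ p ∈ P, 11 ≤ p)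
    (hS : ∑ p ∈ P, Real.log p * (5 / ((p : ℝ) - 5)) ≤ 10 * Real.log y) :
    ∏ p ∈ P, (1 + 5 / ((p : ℝ) - 5)) ≤
      2 * ∑ q ∈ P.powerset.filter (fun q => ∏ p ∈ q, p ≤ y ^ 20), ∏ p ∈ q, 5 / ((p : ℝ) - 5) := by
  have hL : 0 < Real.log y := Real.log_pos (by exact_mod_cast hy)
  have h1 := (pm P (fun p => 5 / ((p : ℝ) - 5)) fun p hp => (w_pos (hP p hp)).le).1
    (fun p => Real.log p) (20 * Real.log y) fun p _ => Real.log_natCast_nonneg p
  have h0 : 0 ≤ ∏ p ∈ P, (1 + 5 / ((p : ℝ) - 5)) :=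
    prod_nonneg fun p hp => by have := w_pos (hP p hp); linarith
  have h2 := prod_one_add (f := fun p : ℕ => 5 / ((p : ℝ) - 5)) P
  rw [← sum_filter_add_sum_filter_not P.powerset fun q => ∏ p ∈ q, p ≤ y ^ 20] at h2
  have h3 : ∑ q ∈ P.powerset.filter (fun q => ¬ ∏ p ∈ q, p ≤ y ^ 20), ∏ p ∈ q, 5 / ((p : ℝ) - 5) ≤
      ∑ q ∈ P.powerset.filter (fun q => 20 * Real.log y < ∑ p ∈ q, Real.log (p : ℕ)),
        ∏ p ∈ q, 5 / ((p : ℝ) - 5) := by
    refine sum_le_sum_of_subset_of_nonneg (fun q hq => ?_) fun q hq _ =>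
      prod_nonneg fun p hp => (w_pos (hP p (mem_powerset.1 (mem_filter.1 hq).1 hp))).le
    obtain ⟨a1, a2⟩ := mem_filter.1 hq
    refine mem_filter.2 ⟨a1, ?_⟩
    rw [← Real.log_prod fun p hp => by
      have := hP p (mem_powerset.1 a1 hp)
      exact_mod_cast (by omega : p ≠ 0)]
    have a3 : ((y : ℝ)) ^ 20 < ∏ p ∈ q, (p : ℝ) := by
      rw [← Nat.cast_prod, ← Nat.cast_pow]
      exact Nat.cast_lt.2 (not_le.1 a2)
    have := Real.log_lt_log (by positivity) a3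
    rw [Real.log_pow] at this
    exact_mod_cast this
  have h4 := mul_le_mul_of_nonneg_right hS h0
  have h5 := mul_le_mul_of_nonneg_left h3 (by positivity : 0 ≤ 20 * Real.log y)
  have h6 : Real.log y * (2 * ∑ q ∈ P.powerset.filter (fun q => ¬ ∏ p ∈ q, p ≤ y ^ 20),
      ∏ p ∈ q, 5 / ((p : ℝ) - 5)) ≤ Real.log y * ∏ p ∈ P, (1 + 5 / ((p : ℝ) - 5)) := by
    linarith
  have := le_of_mul_le_mul_left h6 hL
  linarith

/-- the sieve for five linear forms -/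
theorem sieve (pm : PMStmt) (sv : SVStmt) {I : Finset (Fin 6)} (hI : I.card = 5) (u v : Fin 6 → ℤ)
    (P : Finset ℕ) (y N : ℕ) (hy : 2 ≤ y)
    (hP : ∀ p ∈ P, p.Prime ∧ 11 ≤ p ∧ (∀ h ∈ I, ¬(p : ℤ) ∣ u h) ∧ ∀ h ∈ I, ∀ k ∈ I, h ≠ k →
      ∀ n : ℤ, (p : ℤ) ∣ u h * n + v h → ¬(p : ℤ) ∣ u k * n + v k)
    (hS : ∑ p ∈ P, Real.log p * (5 / ((p : ℝ) - 5)) ≤ 10 * Real.log y) (T : Finset ℤ)
    (hT : ∀ n ∈ T, 0 ≤ n ∧ n < N ∧ ∀ p ∈ P, ∀ h ∈ I, ¬(p : ℤ) ∣ u h * n + v h) :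
    (T.card : ℝ) ≤ 2 * N / ∏ p ∈ P, (1 + 5 / ((p : ℝ) - 5)) + 2 * (y : ℝ) ^ 120 := by
  have h1 := sv P (fun p n => ∃ h ∈ I, (p : ℤ) ∣ u h * n + v h) (fun _ => 5)
    (P.powerset.filter fun q => ∏ p ∈ q, p ≤ y ^ 20) 0 N (y ^ 20) (fun p hp => (hP p hp).1)
    (fun p _ n => by
      refine exists_congr fun h => and_congr_right fun _ => ?_
      rw [show u h * (n + p) + v h = (u h * n + v h) + p * u h by ring]
      exact dvd_add_left (dvd_mul_right _ _))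
    (fun p hp => by
      obtain ⟨a1, a2, a3, a4⟩ := hP p hp
      refine ⟨?_, by omega⟩
      have e : (I.biUnion fun h => (range p).filter fun r : ℕ => (p : ℤ) ∣ u h * r + v h).card
          = 5 := by
        rw [card_biUnion, sum_congr rfl fun h hh => card_lin a1 (v h) (a3 h hh)]
        · simp [hI]
        · intro h hh k hk hn
          exact disjoint_left.2 fun r b1 b2 =>
            a4 h hh k hk hn r (mem_filter.1 b1).2 (mem_filter.1 b2).2
      rw [← e]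
      congr 1
      ext r
      simp only [mem_filter, mem_biUnion]
      exact ⟨fun ⟨b1, h, b2, b3⟩ => ⟨h, b2, b1, b3⟩, fun ⟨h, b2, b1, b3⟩ => ⟨b1, h, b2, b3⟩⟩)
    (mem_filter.2 ⟨empty_mem_powerset _, by simpa using Nat.one_le_pow _ _ (by omega)⟩)
    (fun q hq => ⟨mem_powerset.1 (mem_filter.1 hq).1, (mem_filter.1 hq).2⟩)
  have h2 := half_mass pm P y hy (fun p hp => (hP p hp).2.1) hS
  have h0 : 0 < ∏ p ∈ P, (1 + 5 / ((p : ℝ) - 5)) :=
    prod_pos fun p hp => by have := w_pos (hP p hp).2.1; linarith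
  refine le_trans (Nat.cast_le.2 (card_le_card fun n hn => ?_)) (h1.trans ?_)
  · obtain ⟨a1, a2, a3⟩ := hT n hn
    simp only [mem_filter, mem_Ico]
    exact ⟨⟨a1, by omega⟩, fun p hp ⟨h, b1, b2⟩ => a3 p hp h b1 b2⟩
  · push_cast
    rw [← pow_mul]
    refine add_le_add ?_ le_rfl
    rw [div_le_div_iff₀ (by linarith) h0]
    have := mul_le_mul_of_nonneg_left h2 (Nat.cast_nonneg N : (0 : ℝ) ≤ N)
    linarith

theorem prod_sub_le {s t : Finset ℕ} {f : ℕ → ℝ} (h : s ⊆ t) (h1 : ∀ p ∈ t, 1 ≤ f p) :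
    ∏ p ∈ s, f p ≤ ∏ p ∈ t, f p := by
  rw [← prod_sdiff h]
  have a1 : 1 ≤ ∏ p ∈ t \ s, f p := by
    have := prod_le_prod (s := t \ s) (f := fun _ => (1 : ℝ)) (g := f) (fun _ _ => zero_le_one)
      fun p hp => h1 p (mem_sdiff.1 hp).1
    simpa using this
  exact le_mul_of_one_le_left (prod_nonneg fun p hp => zero_le_one.trans (h1 p (h hp))) a1

theorem pow_five_le {p : ℕ} (hp : 11 ≤ p) : (1 + (1 : ℝ) / p) ^ 5 ≤ p * wt p := by
  have h : (11 : ℝ) ≤ p := by exact_mod_cast hp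
  have h0 : (0 : ℝ) < p := by linarith
  rw [wt, mul_one_div, le_div_iff₀ (by linarith)]
  have e : (1 + (1 : ℝ) / p) ^ 5 * (p - 5) = p - (15 / p + 40 / p ^ 2 + 45 / p ^ 3 + 24 / p ^ 4 +
      5 / p ^ 5) := by
    field_simp
    ring
  rw [e]
  have : (0 : ℝ) ≤ 15 / p + 40 / p ^ 2 + 45 / p ^ 3 + 24 / p ^ 4 + 5 / p ^ 5 := by positivity
  linarith

theorem mul_wt {p : ℕ} (hp : 11 ≤ p) : p * wt p = 1 + 5 / ((p : ℝ) - 5) := by
  have h : (11 : ℝ) ≤ p := by exact_mod_cast hp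
  have : (p : ℝ) - 5 ≠ 0 := by linarith
  rw [wt]
  field_simp
  ring

theorem one_le_mul_wt {p : ℕ} (hp : 11 ≤ p) : 1 ≤ p * wt p := by
  have := w_pos hp
  rw [mul_wt hp]
  linarith

theorem ge_eleven {M p : ℕ} (hM : 210 ∣ M) (hp : p.Prime) (h : ¬p ∣ M) : 11 ≤ p := by
  by_contra hn
  have h1 : p ≤ 10 := by omega
  refine h (Dvd.dvd.trans ?_ hM)
  interval_cases p <;> first | decide | exact absurd hp (by decide)

/-- the Euler product without the primes of `M` and of `F` -/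
theorem prod_low {M : ℕ} (hM : 210 ∣ M) (h0 : 0 < M) (y : ℕ) (F : Finset ℕ)
    (hF : ∀ p ∈ F, 11 ≤ p) :
    (∏ p ∈ pri 1 y, (1 + (1 : ℝ) / p)) ^ 5 ≤ 32 ^ M.primeFactors.card *
      ((∏ p ∈ F, (p * wt p)) *
        ∏ p ∈ (pri 1 y).filter (fun p => ¬p ∣ M ∧ p ∉ F), (1 + 5 / ((p : ℝ) - 5))) := by
  have hpr : ∀ p ∈ pri 1 y, p.Prime := fun p hp => (mem_filter.1 hp).2
  have hnn : ∀ s : Finset ℕ, 0 ≤ ∏ p ∈ s, (1 + (1 : ℝ) / p) ^ 5 := fun s =>
    prod_nonneg fun p _ => by positivity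
  rw [← prod_pow, ← prod_filter_mul_prod_filter_not (pri 1 y) (fun p => p ∣ M),
    ← prod_filter_mul_prod_filter_not ((pri 1 y).filter fun p => ¬p ∣ M) (fun p => p ∈ F),
    filter_filter, filter_filter]
  refine mul_le_mul ?_ (mul_le_mul ?_ ?_ (hnn _) (prod_nonneg fun p hp =>
    zero_le_one.trans (one_le_mul_wt (hF p hp)))) (mul_nonneg (hnn _) (hnn _)) (by positivity)
  · rw [← prod_const]
    refine le_trans (prod_le_prod (g := fun _ => (32 : ℝ)) (fun p _ => by positivity)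
      fun p hp => ?_) (prod_sub_le (fun p hp => ?_) fun _ _ => by norm_num)
    · have a1 : (1 : ℝ) ≤ p := by exact_mod_cast (hpr p (mem_filter.1 hp).1).one_le
      have a2 : (1 : ℝ) / p ≤ 1 := by rw [div_le_one (by linarith)]; exact a1
      calc (1 + (1 : ℝ) / p) ^ 5 ≤ 2 ^ 5 := pow_le_pow_left₀ (by positivity) (by linarith) 5
        _ = 32 := by norm_num
    · exact Nat.mem_primeFactors.2 ⟨hpr p (mem_filter.1 hp).1, (mem_filter.1 hp).2, h0.ne'⟩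
  · exact le_trans (prod_le_prod (g := fun p : ℕ => (p : ℝ) * wt p) (fun p _ => by positivity)
      fun p hp => pow_five_le (hF p (mem_filter.1 hp).2.2))
      (prod_sub_le (fun p hp => (mem_filter.1 hp).2.2) fun p hp => one_le_mul_wt (hF p hp))
  · refine prod_le_prod (fun p _ => by positivity) fun p hp => ?_
    have := ge_eleven hM (hpr p (mem_filter.1 hp).1) (mem_filter.1 hp).2.1
    rw [← mul_wt this]
    exact pow_five_le this

variable {M : ℕ} {A B : Fin 6 → ℕ}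

theorem dvd_M (hS : Sys M A B) {h : Fin 6} (hh : h ≠ 1) {p : ℕ} (hp : p.Prime) (hd : p ∣ A h) :
    p ∣ M := by
  refine hS.sm h 1 hh p hp ?_
  rw [res, hS.a1, hS.b1]
  simpa using Int.natCast_dvd_natCast.2 hd

/-- the count of the first coordinates -/
theorem fibre (pm : PMStmt) (sv : SVStmt) (hS : Sys M A B) {y Z : ℕ} {c : Fin 6 → ℕ} (hy : 2 ≤ y)
    (hc : ∀ h, 0 < c h ∧ (c h).Coprime M) (hcc : ∀ h k, h ≠ k → (c h).Coprime (c k))
    (P : Finset ℕ) (hP : ∀ p ∈ P, p.Prime ∧ p ≤ y ∧ ¬p ∣ M ∧ ∀ h, ¬p ∣ c h)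
    (hs : ∑ p ∈ P, Real.log p * (5 / ((p : ℝ) - 5)) ≤ 10 * Real.log y) (b : ℕ) (T : Finset ℕ)
    (hT : ∀ a ∈ T, a ≤ Z ∧ ∀ h, ∃ P : ℕ, P.Prime ∧ y < P ∧ lf A B (a, b) h = c h * P) :
    (T.card : ℝ) ≤ 2 * (Z / ∏ h ∈ univ.erase 1, c h + 1 : ℕ) /
      ∏ p ∈ P, (1 + 5 / ((p : ℝ) - 5)) + 2 * (y : ℝ) ^ 120 := by
  have h11 : ∀ p ∈ P, 11 ≤ p := fun p hp => ge_eleven hS.dvd (hP p hp).1 (hP p hp).2.2.1
  rcases T.eq_empty_or_nonempty with rfl | hne
  · have h0 : 0 < ∏ p ∈ P, (1 + 5 / ((p : ℝ) - 5)) :=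
      prod_pos fun p hp => by have := w_pos (h11 p hp); linarith
    simp only [card_empty, Nat.cast_zero]
    positivity
  set a0 := T.min' hne with ha0
  set D := ∏ h ∈ univ.erase 1, c h with hD
  have hD0 : 0 < D := prod_pos fun h _ => (hc h).1
  have hm : a0 ∈ T := T.min'_mem hne
  have hnd : ∀ a ∈ T, ∀ p ∈ P, ∀ h, ¬p ∣ lf A B (a, b) h := by
    intro a ha p hp h hd
    obtain ⟨Q, q1, q2, q3⟩ := (hT a ha).2 h
    rw [q3] at hd
    rcases ((hP p hp).1.dvd_mul).1 hd with e | e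
    · exact (hP p hp).2.2.2 h e
    · have := (Nat.prime_dvd_prime_iff_eq (hP p hp).1 q1).1 e
      have := (hP p hp).2.1
      omega
  have hdiv : ∀ a ∈ T, a = a0 + D * ((a - a0) / D) := by
    intro a ha
    have h1 : a0 ≤ a := T.min'_le a ha
    have h2 : D ∣ a - a0 := by
      rw [← Int.natCast_dvd_natCast, hD, Nat.cast_prod]
      refine prod_dvd_of_coprime (fun h _ k _ hn => Nat.isCoprime_iff_coprime.2 (hcc h k hn))
        fun h hh => Int.natCast_dvd_natCast.2 ?_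
      obtain ⟨Q, -, -, q3⟩ := (hT a ha).2 h
      obtain ⟨Q', -, -, q4⟩ := (hT a0 hm).2 h
      have h3 : (c h).Coprime (A h) := Nat.coprime_of_dvd fun p hp e1 e2 =>
        hp.one_lt.ne' (Nat.eq_one_of_dvd_coprimes (hc h).2 e1
          (dvd_M hS (mem_erase.1 hh).1 hp e2))
      refine h3.dvd_of_dvd_mul_left ?_
      have h4 : A h * (a - a0) = c h * Q - c h * Q' := by
        rw [← q3, ← q4, lf, lf, Nat.mul_sub]
        simp only
        omega
      rw [h4]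
      exact Nat.dvd_sub (dvd_mul_right _ _) (dvd_mul_right _ _)
    rw [Nat.mul_div_cancel' h2]
    omega
  have hinj : Set.InjOn (fun a : ℕ => (((a - a0) / D : ℕ) : ℤ)) T := by
    intro a ha a' ha' e
    have e' : (a - a0) / D = (a' - a0) / D := Nat.cast_injective (R := ℤ) e
    have h1 := hdiv a ha
    have h2 := hdiv a' ha'
    rw [e'] at h1
    exact h1.trans h2.symm
  rw [← card_image_of_injOn hinj]
  refine sieve pm sv (I := univ.erase 1) (by simp) (fun h => A h * D) (fun h => lf A B (a0, b) h)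
    P y _ hy (fun p hp => ⟨(hP p hp).1, h11 p hp, fun h hh e => ?_, fun h hh k hk hn n e1 e2 => ?_⟩)
    hs _ fun n hn => ?_
  · have e' : p ∣ A h * D := by exact_mod_cast e
    rcases ((hP p hp).1.dvd_mul).1 e' with e1 | e1
    · exact (hP p hp).2.2.1 (dvd_M hS (mem_erase.1 hh).1 (hP p hp).1 e1)
    · obtain ⟨k, -, e2⟩ := ((hP p hp).1.prime.dvd_finsetProd_iff _).1 e1
      exact (hP p hp).2.2.2 k e2
  · have e3 : (p : ℤ) ∣ res A B h k * b := by
      have := dvd_sub (e2.mul_left (A h)) (e1.mul_left (A k))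
      have e0 : (A h : ℤ) * ((A k : ℤ) * D * n + (lf A B (a0, b) k : ℕ)) -
          A k * ((A h : ℤ) * D * n + (lf A B (a0, b) h : ℕ)) = res A B h k * b := by
        simp only [res, lf]
        push_cast
        ring
      exact e0 ▸ this
    rcases (Nat.prime_iff_prime_int.1 (hP p hp).1).dvd_or_dvd e3 with e4 | e4
    · exact (hP p hp).2.2.1 (hS.sm h k hn p (hP p hp).1 e4)
    · refine hnd a0 hm p hp 1 ?_
      rw [lf, hS.a1, hS.b1]
      simpa using Int.natCast_dvd_natCast.1 e4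
  · obtain ⟨a, ha, rfl⟩ := mem_image.1 hn
    refine ⟨Nat.cast_nonneg _, ?_, fun p hp h _ e => hnd a ha p hp h ?_⟩
    · have : (a - a0) / D ≤ Z / D := Nat.div_le_div_right ((Nat.sub_le _ _).trans (hT a ha).1)
      exact_mod_cast Nat.lt_succ_of_le this
    · rw [← Int.natCast_dvd_natCast]
      convert e using 1
      have := hdiv a ha
      generalize (a - a0) / D = n at this
      simp only [lf]
      rw [this]
      push_cast
      ring

end Fib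

open Fib Classical in
theorem fib : MERStmt → PMStmt → SVStmt → FIBStmt := by
  rintro ⟨-, ⟨C2, m2⟩, -, ⟨c0, hc0, m4⟩, -⟩ pm sv M A B hS
  refine ⟨3 * (4 * 32 ^ M.primeFactors.card / c0 ^ 5 + 2), ?_⟩
  have ev : ∀ᶠ y : ℕ in atTop, 11 * C2 ≤ Real.log y :=
    (Real.tendsto_log_atTop.comp tendsto_natCast_atTop_atTop).eventually_ge_atTop _
  filter_upwards [ev, eventually_ge_atTop 2] with y hy1 hy Z c hZ hc hcc
  have hL : 0 < Real.log y := Real.log_pos (by exact_mod_cast hy)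
  have hy0 : (0 : ℝ) < y := by exact_mod_cast (by omega : 0 < y)
  have hpos : ∀ h, 0 < c h := fun h => Nat.pos_of_ne_zero (hc h).1.ne_zero
  have h11 : ∀ h, ∀ p ∈ (c h).primeFactors, 11 ≤ p := fun h p hp =>
    have hp' := Nat.mem_primeFactors.1 hp
    ge_eleven hS.dvd hp'.1 fun e =>
      hp'.1.one_lt.ne' (Nat.eq_one_of_dvd_coprimes (hc h).2.1 hp'.2.1 e)
  set F := univ.biUnion fun h => (c h).primeFactors with hF
  have hF11 : ∀ p ∈ F, 11 ≤ p := fun p hp => by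
    obtain ⟨h, -, e⟩ := mem_biUnion.1 hp
    exact h11 h p e
  set P := (pri 1 y).filter fun p => ¬p ∣ M ∧ p ∉ F with hP
  have hP' : ∀ p ∈ P, p.Prime ∧ p ≤ y ∧ ¬p ∣ M ∧ ∀ h, ¬p ∣ c h := fun p hp => by
    obtain ⟨a1, a2, a3⟩ := mem_filter.1 hp
    obtain ⟨a4, a5⟩ := mem_filter.1 a1
    exact ⟨a5, (mem_Ioc.1 a4).2, a2, fun h e => a3 (mem_biUnion.2 ⟨h, mem_univ _,
      Nat.mem_primeFactors.2 ⟨a5, e, (hpos h).ne'⟩⟩)⟩
  have hP11 : ∀ p ∈ P, 11 ≤ p := fun p hp => ge_eleven hS.dvd (hP' p hp).1 (hP' p hp).2.2.1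
  have hs : ∑ p ∈ P, Real.log p * (5 / ((p : ℝ) - 5)) ≤ 10 * Real.log y := by
    have a1 : ∑ p ∈ P, Real.log p * (5 / ((p : ℝ) - 5)) ≤ ∑ p ∈ P, 55 / 6 * (Real.log p / p) := by
      refine sum_le_sum fun p hp => ?_
      have h : (11 : ℝ) ≤ p := by exact_mod_cast hP11 p hp
      have : 5 / ((p : ℝ) - 5) ≤ 55 / 6 / p := by
        rw [div_le_div_iff₀ (by linarith) (by linarith)]
        linarith
      calc Real.log p * (5 / ((p : ℝ) - 5)) ≤ Real.log p * (55 / 6 / p) :=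
            mul_le_mul_of_nonneg_left this (Real.log_natCast_nonneg p)
        _ = 55 / 6 * (Real.log p / p) := by ring
    rw [← mul_sum] at a1
    have a2 : ∑ p ∈ P, Real.log p / p ≤ ∑ p ∈ pri 1 y, Real.log p / p :=
      sum_le_sum_of_subset_of_nonneg (filter_subset _ _) fun p _ _ =>
        div_nonneg (Real.log_natCast_nonneg p) (Nat.cast_nonneg p)
    have a3 := m2 1 y (by omega)
    linarith
  set G := ∏ p ∈ P, (1 + 5 / ((p : ℝ) - 5)) with hG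
  have hG0 : 0 < G := prod_pos fun p hp => by have := w_pos (hP11 p hp); linarith
  set E := ∏ p ∈ F, ((p : ℝ) * wt p) with hE
  have hE1 : 1 ≤ E := by
    simpa using prod_sub_le (empty_subset F) fun p hp => one_le_mul_wt (hF11 p hp)
  set K : ℝ := 32 ^ M.primeFactors.card with hK
  have hK0 : 0 < K := by positivity
  have hlow : (c0 * Real.log y) ^ 5 ≤ K * (E * G) := by
    refine le_trans (pow_le_pow_left₀ (by positivity) ?_ 5) (prod_low hS.dvd hS.pos y F hF11)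
    simpa using m4 1 y le_rfl (by omega)
  set D := ∏ h ∈ univ.erase 1, c h with hD
  have hD0 : (0 : ℝ) < D := by exact_mod_cast prod_pos fun h _ => hpos h
  have hD1 : D ≤ y ^ 30 := by
    have := prod_le_pow_card (univ.erase 1) c (y ^ 6) fun h _ => (hc h).2.2.1
    rwa [show (univ.erase (1 : Fin 6)).card = 5 by simp, ← pow_mul] at this
  have hZ1 : (y : ℝ) ^ 200 ≤ Z := by exact_mod_cast hZ
  have hD2 : (D : ℝ) ≤ (y : ℝ) ^ 30 := by exact_mod_cast hD1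
  have hy1' : (1 : ℝ) ≤ y := by exact_mod_cast (by omega : 1 ≤ y)
  have hZ0 : (0 : ℝ) < Z := lt_of_lt_of_le (by positivity) hZ1
  have hEe : E = (c 1 : ℝ) * D * ∏ h, ∏ p ∈ (c h).primeFactors, wt p := by
    rw [hE, hF, prod_biUnion fun h _ k _ hn => (hcc h k hn).disjoint_primeFactors, hD,
      Nat.cast_prod, mul_prod_erase univ (fun h => (c h : ℝ)) (mem_univ 1), ← prod_mul_distrib]
    refine prod_congr rfl fun h _ => ?_
    rw [prod_mul_distrib, ← Nat.cast_prod, Nat.prod_primeFactors_of_squarefree (hc h).1]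
  have hb : 2 * ((Z / D + 1 : ℕ) : ℝ) / G + 2 * (y : ℝ) ^ 120 ≤
      (4 * K / c0 ^ 5 + 2) * (Z * E / (D * Real.log y ^ 5)) := by
    have a1 : ((Z / D + 1 : ℕ) : ℝ) ≤ 2 * (Z / D) := by
      have b1 : ((Z / D : ℕ) : ℝ) ≤ Z / D := Nat.cast_div_le
      have b2 : (1 : ℝ) ≤ Z / D := by
        rw [le_div_iff₀ hD0, one_mul]
        exact hD2.trans ((pow_le_pow_right₀ hy1' (by norm_num)).trans hZ1)
      push_cast
      linarith
    have a2 : 1 / G ≤ K * E / (c0 * Real.log y) ^ 5 := by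
      rw [div_le_div_iff₀ hG0 (by positivity)]
      linarith
    have a3 : 2 * ((Z / D + 1 : ℕ) : ℝ) / G ≤ 4 * K / c0 ^ 5 * (Z * E / (D * Real.log y ^ 5)) := by
      calc 2 * ((Z / D + 1 : ℕ) : ℝ) / G = 2 * ((Z / D + 1 : ℕ) : ℝ) * (1 / G) := by ring
        _ ≤ 2 * (2 * (Z / D)) * (K * E / (c0 * Real.log y) ^ 5) :=
          mul_le_mul (by linarith) a2 (by positivity) (by positivity)
        _ = _ := by field_simp; ring
    have a4 : (y : ℝ) ^ 120 ≤ Z * E / (D * Real.log y ^ 5) := by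
      rw [le_div_iff₀ (by positivity)]
      have b1 : Real.log y ^ 5 ≤ (y : ℝ) ^ 5 :=
        pow_le_pow_left₀ hL.le ((Real.log_le_sub_one_of_pos hy0).trans (by linarith)) 5
      calc (y : ℝ) ^ 120 * (D * Real.log y ^ 5) ≤ (y : ℝ) ^ 120 * ((y : ℝ) ^ 30 * (y : ℝ) ^ 5) := by
            gcongr
        _ = (y : ℝ) ^ 155 := by ring
        _ ≤ Z := (pow_le_pow_right₀ hy1' (by norm_num)).trans hZ1
        _ ≤ Z * E := le_mul_of_one_le_right hZ0.le hE1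
    linarith
  have hc1 : (0 : ℝ) < c 1 := by exact_mod_cast hpos 1
  have hpr : (((Ioc 0 (Z / c 1)).filter fun Q => Q.Prime ∧ y < Q).card : ℝ) ≤
      3 * Z / (c 1 * Real.log y) := by
    have a1 := card_primes (Z / c 1) y (by omega)
    have a2 : ((Z / c 1 : ℕ) : ℝ) ≤ Z / c 1 := Nat.cast_div_le
    rw [← div_div, le_div_iff₀ hL, mul_div_assoc]
    linarith
  have l1 : ∀ x : ℕ × ℕ, lf A B x 1 = x.2 := fun x => by simp [lf, hS.a1, hS.b1]
  rw [card_eq_sum_card_fiberwise (f := fun x : ℕ × ℕ => x.2 / c 1)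
    (t := (Ioc 0 (Z / c 1)).filter fun Q => Q.Prime ∧ y < Q) (fun x hx => by
      obtain ⟨a1, a2⟩ := mem_filter.1 hx
      obtain ⟨Q, q1, q2, q3⟩ := a2 1
      rw [l1] at q3
      have a3 := (mem_Icc.1 (mem_product.1 a1).2).2
      have a4 : x.2 / c 1 = Q := by rw [q3, Nat.mul_div_cancel_left _ (hpos 1)]
      refine mem_filter.2 ⟨mem_Ioc.2 ⟨?_, Nat.div_le_div_right a3⟩, ?_⟩ <;>
        simp only [a4]
      · omega
      · exact ⟨q1, q2⟩), Nat.cast_sum]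
  refine le_trans (sum_le_card_nsmul _ _
    ((4 * K / c0 ^ 5 + 2) * (Z * E / (D * Real.log y ^ 5))) fun Q _ => le_trans ?_ hb) ?_
  · have key : ∀ x : ℕ × ℕ, (∀ h, ∃ P : ℕ, P.Prime ∧ y < P ∧ lf A B x h = c h * P) →
        x.2 / c 1 = Q → x.2 = c 1 * Q := by
      intro x h1 h2
      obtain ⟨Q', -, -, q3⟩ := h1 1
      rw [l1] at q3
      rw [← h2, q3, Nat.mul_div_cancel_left _ (hpos 1)]
    rw [← card_image_of_injOn (f := Prod.fst) (fun x hx x' hx' e => by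
      obtain ⟨a1, a2⟩ := mem_filter.1 hx
      obtain ⟨a3, a4⟩ := mem_filter.1 hx'
      exact Prod.ext e ((key x (mem_filter.1 a1).2 a2).trans
        (key x' (mem_filter.1 a3).2 a4).symm))]
    refine fibre pm sv hS hy (fun h => ⟨hpos h, (hc h).2.1⟩) hcc P hP' hs (c 1 * Q) _
      fun a ha => ?_
    obtain ⟨x, hx, rfl⟩ := mem_image.1 ha
    obtain ⟨a1, a2⟩ := mem_filter.1 hx
    obtain ⟨a3, a4⟩ := mem_filter.1 a1
    rw [← key x a4 a2]
    exact ⟨(mem_Icc.1 (mem_product.1 a3).1).2, a4⟩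
  · rw [nsmul_eq_mul]
    refine le_trans (mul_le_mul_of_nonneg_right hpr (by positivity)) (le_of_eq ?_)
    rw [hEe]
    field_simp

end Pool.Agent.MP_a43263_nt.R2

end
end MrgPart0

-- ======== part 1: formerly Pool.Agent.MP_a43263_nt.R2.Key
section MrgPart1

/-! PROJECT RANK2, module KEY: the sum with frozen data. -/

set_option autoImplicit false

noncomputable section

namespace Pool.Agent.MP_a43263_nt.R2

open Finset Filter

namespace KEY

theorem exists_crt (X : Finset Gen) (hX : Dist X) (hp : ∀ b ∈ X, b.2.Prime) (a v : Gen → ℤ)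
    (hv : ∀ b ∈ X, ¬(b.2 : ℤ) ∣ v b) : ∃ ρ : ℤ, ∀ r q : ℤ,
      (∀ b ∈ X, (b.2 : ℤ) ∣ a b * r + v b * q) → q ≡ ρ * r [ZMOD (∏ b ∈ X, b.2 : ℕ)] := by
  have hc : ∀ b ∈ X, ∀ b' ∈ X, b ≠ b' → IsCoprime (b.2 : ℤ) b'.2 := fun b hb b' hb' e =>
    Nat.isCoprime_iff_coprime.2 ((Nat.coprime_primes (hp b hb) (hp b' hb')).2
      fun e' => e (hX b hb b' hb' e'))
  have h1 : ∃ ρ : ℤ, ∀ b ∈ X, (b.2 : ℤ) ∣ a b + v b * ρ := by
    induction X using Finset.induction_on with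
    | empty => simp
    | insert b X hb ih =>
      obtain ⟨ρ, hρ⟩ := ih (hX.mono (subset_insert _ _)) (fun a h => hp a (mem_insert_of_mem h))
        (fun a h => hv a (mem_insert_of_mem h))
        fun a h a' h' => hc a (mem_insert_of_mem h) a' (mem_insert_of_mem h')
      have h2 : IsCoprime (b.2 : ℤ) (v b * ∏ a ∈ X, (a.2 : ℤ)) :=
        IsCoprime.mul_right ((Nat.prime_iff_prime_int.1 (hp b (mem_insert_self _ _))).irreducible
          |>.coprime_iff_not_dvd.2 (hv b (mem_insert_self _ _)))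
          (IsCoprime.prod_right fun a h => hc b (mem_insert_self _ _) a (mem_insert_of_mem h)
            fun e => hb (e ▸ h))
      obtain ⟨t, t', ht⟩ := h2
      refine ⟨ρ - t' * (a b + v b * ρ) * ∏ a ∈ X, (a.2 : ℤ), fun b' hb' => ?_⟩
      rcases mem_insert.1 hb' with rfl | hb'
      · exact ⟨t * (a b' + v b' * ρ), by linear_combination (-(a b' + v b' * ρ)) * ht⟩
      · rw [mul_sub, ← add_sub_assoc]
        exact dvd_sub (hρ b' hb') (((dvd_prod_of_mem _ hb').mul_left _).mul_left _)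
  obtain ⟨ρ, hρ⟩ := h1
  refine ⟨ρ, fun r q h => (Int.modEq_iff_dvd.2 ?_)⟩
  rw [Nat.cast_prod]
  refine prod_dvd_of_coprime (fun b hb b' hb' e => hc b hb b' hb' e) fun b hb => ?_
  have h2 : (b.2 : ℤ) ∣ v b * (ρ * r - q) := by
    rw [show v b * (ρ * r - q) = (a b + v b * ρ) * r - (a b * r + v b * q) by ring]
    exact dvd_sub ((hρ b hb).mul_right _) (h b hb)
  exact ((Nat.prime_iff_prime_int.1 (hp b hb)).dvd_or_dvd h2).resolve_left (hv b hb)

def HH (A B : Fin 6 → ℕ) : ℕ := ∑ h, (A h + B h)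

theorem le_HH (A B : Fin 6 → ℕ) (h : Fin 6) : A h + B h ≤ HH A B :=
  single_le_sum (f := fun h => A h + B h) (fun _ _ => Nat.zero_le _) (mem_univ h)

theorem abs_res (A B : Fin 6 → ℕ) (h k : Fin 6) : |res A B h k| ≤ (HH A B ^ 2 : ℕ) := by
  have h1 := le_HH A B h
  have h2 := le_HH A B k
  have h3 : A h * B k ≤ HH A B ^ 2 := by rw [sq]; exact Nat.mul_le_mul (by omega) (by omega)
  have h4 : A k * B h ≤ HH A B ^ 2 := by rw [sq]; exact Nat.mul_le_mul (by omega) (by omega)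
  rw [res, ← Nat.cast_mul, ← Nat.cast_mul, abs_le]
  omega

theorem lf_le {S : Sc} {A B : Fin 6 → ℕ} {x : ℕ × ℕ} (hx : x ∈ AA S A B) (h : Fin 6) :
    lf A B x h ≤ HH A B * S.Z := by
  obtain ⟨h1, h2, -⟩ := mem_AA.1 hx
  calc lf A B x h ≤ A h * S.Z + B h * S.Z :=
        Nat.add_le_add (Nat.mul_le_mul_left _ h1.2) (Nat.mul_le_mul_left _ h2.2)
    _ ≤ _ := by rw [← add_mul]; exact Nat.mul_le_mul_right _ (le_HH A B h)

namespace KD

variable {D : KD} {i : ℕ} {x : ℕ × ℕ} {U U' : Finset Gen} {s : Gen}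

theorem Tm.tags (h : D.Tm i x U U' s) (h0 : 0 < D.S.M) (hM : D.S.M ≤ D.S.Y) :
    D.f.1 ≠ 6 ∧ D.g.1 ≠ 6 := by
  have h1 : ∀ b ∈ md D.S.Y D.S.Y' (VV D.S.M (lf D.A D.B x)), b.1 ≠ 6 := by
    intro b hb
    rw [md_VV h0 hM] at hb
    obtain ⟨k, e, -⟩ := mem_gens.1 (mem_md.1 hb).1
    exact e ▸ castSucc_ne_six k
  refine ⟨fun e => ?_, (tl_eq_iff.1 h.tg).1 ▸ h1 s h.hs⟩
  have h2 := h.lo
  rw [nOf, filter_false_of_mem fun b hb e' => h1 b hb ((tl_eq_iff.1 e').1.trans e), prod_empty] at h2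
  exact absurd h2 (not_lt.2 Nat.one_le_two_pow)

theorem Tm.toOk (h : D.Tm i x U U' s) (sys : Sys D.S.M D.A D.B) (rel : Rel D.S)
    (hM : D.S.M ≤ D.S.Y) (hf : D.f.1 = D.f0.castSucc) (hg : D.g.1 = D.g0.castSucc)
    (ne : D.f.1 ≠ D.g.1) : D.Ok := by
  have hO : ∀ b, b ∈ D.O ↔ b ∈ le D.S.Y' (VV D.S.M (lf D.A D.B x)) ∧ (b.2 ≤ D.S.Y ∨
      (b.1 = D.f.1 ∧ tl U U' b ≠ D.f) ∨ (b.1 = D.g.1 ∧ b ≠ s)) :=
    fun b => by rw [← h.out, outer, mem_filter]
  refine ⟨sys, rel, hM, hf, hg, fun e => ne (by rw [hf, hg, e]), fun b hb => ?_, fun b hb => ?_,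
    fun b hb k => ?_, h.o1 ▸ inter_subset_left, h.o2 ▸ inter_subset_left⟩
  · refine (hO b).2 ⟨?_, .inl ?_⟩
    · rw [le_VV sys.pos (hM.trans rel.Y_le)]
      exact mem_union_left _ hb
    · have := sys.pos
      rcases (mem_V0.1 hb).2 with k | k
      · omega
      · exact (Nat.le_of_mem_primeFactors k).trans hM
  · refine (mem_VV.1 (mem_le.1 ((hO b).1 hb).1).1).imp_right fun k => ?_
    obtain ⟨j, e, k⟩ := mem_gens.1 k
    refine ⟨e ▸ castSucc_ne_six j, Nat.prime_of_mem_primeFactors k, fun e => ?_⟩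
    exact absurd (Nat.eq_one_of_dvd_coprimes ((adm_of_mem rel h.hx).coprime_M sys j)
      (e ▸ Nat.dvd_of_mem_primeFactors k) sys.two) (by norm_num)
  · rcases ((hO b).1 hb).2 with k' | k' | k'
    · omega
    · refine .inl ⟨k'.1, ?_⟩
      rw [← h.o1, ← h.o2]
      simpa only [tl, mem_inter, hb, true_and] using k'.2
    · exact .inr k'.1

open Classical in
theorem keySum_eq (D : KD) (c : ℤ) (y y' : Finset (Fin 7)) (i : ℕ) :
    keySum D.S D.A D.B c y y' D.f D.g D.ok D.O D.O₁ D.O₂ i =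
      ∑ t ∈ ((AA D.S D.A D.B).sigma fun x => (le D.S.Y' (VV D.S.M (lf D.A D.B x))).powerset ×ˢ
        (le D.S.Y' (VV D.S.M (lf D.A D.B x))).powerset ×ˢ
        md D.S.Y D.S.Y' (VV D.S.M (lf D.A D.B x))).filter
        (fun t => D.Tm i t.1 t.2.1 t.2.2.1 t.2.2.2),
        term (gp c) (VV D.S.M (lf D.A D.B t.1)) y y' t.2.1 t.2.2.1 := by
  rw [sum_filter, sum_sigma, keySum]
  refine sum_congr rfl fun x hx => ?_
  rw [sum_product]
  refine sum_congr rfl fun U hU => ?_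
  rw [sum_product]
  refine sum_congr rfl fun U' hU' => sum_congr rfl fun s hs => if_congr ?_ rfl rfl
  exact ⟨fun ⟨a, b, c, d, e, f, g⟩ => ⟨hx, mem_powerset.1 hU, mem_powerset.1 hU', hs, a, b, c, d,
    e, f, g⟩, fun h => ⟨h.ok, h.tg, h.out, h.o1, h.o2, h.lo, h.hi⟩⟩

def RR (D : KD) (i : ℕ) : ℕ := HH D.A D.B * D.S.Z / (D.m D.f0 * 2 ^ i)

def QQ (D : KD) : ℕ := HH D.A D.B * D.S.Z / D.m D.g0

open Classical in
theorem keySum_eq' (hD : D.Ok) (c : ℤ) (y y' : Finset (Fin 7)) (i : ℕ) :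
    keySum D.S D.A D.B c y y' D.f D.g D.ok D.O D.O₁ D.O₂ i =
      ∑ r ∈ Icc 1 (D.RR i), ∑ q ∈ Icc 1 D.QQ, ∑ s ∈ D.P, ∑ n ∈ Ioc (2 ^ i) (2 * 2 ^ i), ∑ ω ∈ D.W,
        if D.Val r q s n ω ∧ D.ok (D.pt0 ω) then
          term (gp c) (VV D.S.M (lf D.A D.B (D.pt r q n))) y y' (D.U1 n ω s) (D.U2 n ω s)
        else 0 := by
  rw [keySum_eq]
  simp only [← sum_product']
  rw [← sum_filter]
  symm
  refine sum_bij (fun t _ => ⟨D.pt t.1 t.2.1 t.2.2.2.1, D.U1 t.2.2.2.1 t.2.2.2.2 t.2.2.1,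
    D.U2 t.2.2.2.1 t.2.2.2.2 t.2.2.1, (D.g.1, t.2.2.1)⟩) ?_ ?_ ?_ fun _ _ => rfl
  · rintro ⟨r, q, s, n, ω⟩ ht
    simp only [mem_filter, mem_product, mem_Ioc] at ht
    have h := (ht.2.1.back hD).2.2.2.2.2 i ht.1.2.2.2.1.1 (pow_succ' 2 i ▸ ht.1.2.2.2.1.2) ht.2.2
    simp only [mem_filter, mem_sigma, mem_product, mem_powerset]
    exact ⟨⟨h.hx, h.hU, h.hU', h.hs⟩, h⟩
  · rintro ⟨r, q, s, n, ω⟩ ht ⟨r', q', s', n', ω'⟩ ht' e
    have h := (mem_filter.1 ht).2.1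
    have h' := (mem_filter.1 ht').2.1
    simp only [Sigma.mk.injEq, heq_eq_eq, Prod.mk.injEq, true_and] at e h h' ⊢
    obtain ⟨e1, e2, e3, rfl⟩ := e
    obtain ⟨a1, a2, a3, a4, -⟩ := h.back hD
    obtain ⟨b1, b2, b3, b4, -⟩ := h'.back hD
    rw [e1, e2, e3, b1] at a1
    rw [e1, b2] at a2
    rw [e2, ← a2, b3] at a3
    rw [e3, ← a2, b4] at a4
    subst a1
    have c1 := h.lf_f hD
    have c2 := h.lf_g hD
    rw [e1, h'.lf_f hD] at c1
    rw [e1, h'.lf_g hD] at c2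
    have := h.one
    exact ⟨(Nat.eq_of_mul_eq_mul_left (Nat.mul_pos (hD.m_pos _) (by omega)) c1).symm,
      (Nat.eq_of_mul_eq_mul_left (hD.m_pos _) c2).symm, rfl, rfl,
      Prod.ext a2.symm (Prod.ext a3.symm a4.symm)⟩
  · rintro ⟨x, U, U', s⟩ ht
    have h : D.Tm i x U U' s := (mem_filter.1 ht).2
    obtain ⟨r, q, n, ω, hv, rfl, rfl, rfl, e⟩ := h.fwd hD
    obtain ⟨a1, -, -, -, a5, -⟩ := hv.back hD
    have lo := h.lo
    have hi := h.hi
    have ok := h.ok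
    rw [a1] at lo hi
    rw [a5] at ok
    have b1 := lf_le h.hx D.f0
    have b2 := lf_le h.hx D.g0
    have c1 := ((hv.adm hD).sqf D.f0).ne_zero
    have c2 := ((hv.adm hD).sqf D.g0).ne_zero
    rw [hv.lf_f hD] at b1 c1
    rw [hv.lf_g hD] at b2 c2
    refine ⟨⟨r, q, s.2, n, ω⟩, ?_, by simp only [e]⟩
    simp only [mem_filter, mem_product, mem_Ioc, mem_Icc]
    refine ⟨⟨⟨Nat.pos_of_ne_zero (right_ne_zero_of_mul c1), ?_⟩,
      ⟨Nat.pos_of_ne_zero (right_ne_zero_of_mul c2), ?_⟩, hv.hs, ⟨lo, pow_succ' 2 i ▸ hi⟩, hv.hω⟩,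
      hv, ok⟩
    · refine (Nat.le_div_iff_mul_le (Nat.mul_pos (hD.m_pos _) (by positivity))).2 (le_trans ?_ b1)
      rw [mul_comm]
      exact Nat.mul_le_mul_right _ (Nat.mul_le_mul_left _ lo.le)
    · exact (Nat.le_div_iff_mul_le (hD.m_pos _)).2 (by rwa [mul_comm])

theorem fibre (D : KD) (m : ℕ) :
    (D.W.filter fun ω => nu ω = m).card ≤ (2 ^ (7 * (24 * D.S.J))) ^ 3 := by
  rcases (D.W.filter fun ω => nu ω = m).eq_empty_or_nonempty with h | ⟨ω₀, h⟩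
  · rw [h, card_empty]; exact Nat.zero_le _
  have h1 : ∀ ω ∈ D.W, (nu ω).primeFactors = ω.1.image Prod.snd := by
    intro ω hω
    rw [nu, ← prod_image (f := fun p => p) fun a ha b hb e => (mem_W.1 hω).2.dist a ha b hb e,
      Nat.primeFactors_prod]
    intro p hp
    obtain ⟨b, hb, rfl⟩ := mem_image.1 hp
    exact (W_el hω hb).2.2.2
  let T : Finset Gen := univ ×ˢ m.primeFactors
  have h2 : T.card ≤ 7 * (24 * D.S.J) := by
    obtain ⟨k, rfl⟩ := mem_filter.1 h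
    rw [card_product, h1 _ k]
    exact Nat.mul_le_mul (by simp) (card_image_le.trans (mem_W.1 k).2.card)
  have h3 : (D.W.filter fun ω => nu ω = m) ⊆ T.powerset ×ˢ T.powerset ×ˢ T.powerset := by
    intro ω hω
    obtain ⟨k, rfl⟩ := mem_filter.1 hω
    have : ω.1 ⊆ T := fun b hb => mem_product.2 ⟨mem_univ _, h1 _ k ▸ mem_image_of_mem _ hb⟩
    simp only [mem_product, mem_powerset]
    exact ⟨this, (mem_W.1 k).2.s1.trans this, (mem_W.1 k).2.s2.trans this⟩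
  refine (card_le_card h3).trans ?_
  rw [card_product, card_product, card_powerset, ← sq, ← pow_succ']
  exact Nat.pow_le_pow_left (Nat.pow_le_pow_right (by norm_num) h2) _

theorem Ok.not_dvd_res (hD : D.Ok) {p : ℕ} (hp : p.Prime) (h : D.S.Y < p) {j k : Fin 6}
    (hk : j ≠ k) : ¬(p : ℤ) ∣ res D.A D.B j k := fun hd => by
  have := Nat.le_of_dvd hD.sys.pos (hD.sys.sm j k hk p hp hd)
  have := hD.hM
  omega

theorem Ok.prod_le (hD : D.Ok) :
    ∏ b ∈ D.O.filter (fun b => D.S.Y < b.2), b.2 ≤ D.m D.f0 * D.m D.g0 := by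
  rw [m, m, pr, pr, ← prod_union (disjoint_filter.2 fun b _ e e' =>
    hD.ne (Fin.castSucc_injective _ (e.symm.trans e')))]
  refine prod_le_prod_of_subset_of_one_le' (fun b hb => ?_) fun b hb _ => ?_
  · obtain ⟨k1, k2⟩ := mem_filter.1 hb
    rcases hD.med b k1 k2 with k | k
    · exact mem_union_left _ (mem_filter.2 ⟨k1, k.1.trans hD.hf⟩)
    · exact mem_union_right _ (mem_filter.2 ⟨k1, k.trans hD.hg⟩)
  · rcases mem_union.1 hb with k | k <;>
      exact (hD.prime _ b (mem_filter.1 k).1 (mem_filter.1 k).2).pos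

theorem Val.sizes {r q s n : ℕ} {ω : T3} (hD : D.Ok) (h : D.Val r q s n ω) :
    D.m D.f0 ≤ D.S.Y' ^ 6 ∧ D.m D.g0 ≤ D.S.Y' ^ 6 ∧ D.S.Y < n ∧ n ≤ D.S.Y' ^ 3 := by
  have h1 := h.ib.1 _ hD.ne
  rw [cc, if_pos rfl] at h1
  have := h.one
  refine ⟨(Nat.le_mul_of_pos_right _ (by omega)).trans (h1.le_pow hD.rel),
    (Nat.le_mul_of_pos_right _ h.s_el.2.2.pos).trans (h.ia.1.le_pow hD.rel), ?_, le_trans ?_ h1.me⟩
  · obtain ⟨p, hp⟩ := Nat.nonempty_primeFactors.2 h.one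
    exact (h.ib.2.1 p hp).trans_le (Nat.le_of_mem_primeFactors hp)
  · conv_lhs => rw [← Nat.prod_primeFactors_of_squarefree (h.sqf hD)]
    refine prod_le_prod_of_subset_of_one_le' (fun p hp => mem_filter.2 ⟨?_, h.ib.2.1 p hp⟩)
      fun p hp _ => (Nat.prime_of_mem_primeFactors (mem_filter.1 hp).1).pos
    exact Nat.primeFactors_mono (dvd_mul_left _ _) h1.pos.ne' hp

theorem abs_ite {p : Prop} [Decidable p] {a : ℝ} (h : |a| ≤ 1) : |if p then a else 0| ≤ 1 := by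
  split_ifs
  exacts [h, by simp]

theorem abs_cast {a : ℤ} (h : |a| ≤ 1) : |(a : ℝ)| ≤ 1 := by exact_mod_cast h

open Classical in
/-- the sum in the shape of the oscillation estimate -/
theorem keySum_shape (hD : D.Ok) {c : ℤ} {y y' : Finset (Fin 7)} (i : ℕ)
    {a : ℕ → ℕ → ℕ → ℤ} {b : ℕ → T3 → ℤ} {p : ℕ → T3 → ℤ → ℤ} {σ : ℕ → T3 → ℤ} {K : T3 → ℤ}
    (h : ∀ r q s n ω, D.Val r q s n ω → chi (gp c)
      (symmDiff (D.U1 n ω s) (ones (VV D.S.M (lf D.A D.B (D.pt r q n))) y))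
      (symmDiff (D.U2 n ω s) (ones (VV D.S.M (lf D.A D.B (D.pt r q n))) y')) =
      a r q s * b n ω * p n ω q * jacobiSym (σ n ω * n ^ 1 * K ω) s) :
    keySum D.S D.A D.B c y y' D.f D.g D.ok D.O D.O₁ D.O₂ i =
      ∑ r ∈ Icc 1 (D.RR i), ∑ q ∈ Icc 1 D.QQ, ∑ s ∈ D.P.filter (· ∣ q),
        (if D.IA r q s then (a r q s : ℝ) else 0) * ∑ n ∈ Ioc (2 ^ i) (2 * 2 ^ i), ∑ ω ∈ D.W,
          (if D.IB n ω ∧ D.ok (D.pt0 ω) then
            (b n ω : ℝ) / 2 ^ ((D.O ∪ (D.Nn n ∪ ω.1)).card + 7) else 0) *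
          jacobiSym (σ n ω * n * K ω) s *
          (if ω ∈ D.W ∧ IsCoprime (q : ℤ) (n * nu ω) then (p n ω q : ℝ) else 0) *
          ∏ j : Fin 5, if D.IP n ω (D.g0.succAbove j)
            (D.al (D.g0.succAbove j) * n * r + D.be (D.g0.succAbove j) * q) then (1 : ℝ) else 0 := by
  rw [keySum_eq' hD]
  refine sum_congr rfl fun r _ => sum_congr rfl fun q _ => ?_
  rw [sum_filter]
  refine sum_congr rfl fun s hs => ?_
  by_cases hd : s ∣ q
  swap
  · rw [if_neg hd]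
    exact sum_eq_zero fun n _ => sum_eq_zero fun ω _ => if_neg fun k => hd k.1.dvd
  rw [if_pos hd, mul_sum]
  refine sum_congr rfl fun n hn => ?_
  rw [mul_sum]
  refine sum_congr rfl fun ω hω => ?_
  rw [prod_boole]
  by_cases hv : D.Val r q s n ω ∧ D.ok (D.pt0 ω)
  · obtain ⟨-, -, d3, -, d5, d6⟩ := hv.1.disj hD
    rw [if_pos hv, if_pos hv.1.ia, if_pos ⟨hv.1.ib, hv.2⟩, if_pos ⟨hω, hv.1.cop⟩,
      if_pos fun j _ => hv.1.ip _ (Fin.succAbove_ne _ j), term, h r q s n ω hv.1,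
      (hv.1.le_eq hD).2, NL, card_union_of_disjoint (by simp [d3, d5, d6]), card_singleton, pow_one]
    push_cast
    ring
  · rw [if_neg hv]
    by_cases k1 : D.IA r q s
    swap
    · rw [if_neg k1, zero_mul]
    by_cases k2 : D.IB n ω ∧ D.ok (D.pt0 ω)
    swap
    · rw [if_neg k2]; simp
    by_cases k3 : ω ∈ D.W ∧ IsCoprime (q : ℤ) (n * nu ω)
    swap
    · rw [if_neg k3]; simp
    rw [if_neg (c := ∀ j ∈ univ, _)]
    · simp
    refine fun k4 => hv ⟨⟨hs, hd, Nat.one_le_two_pow.trans_lt (mem_Ioc.1 hn).1, hω, k1, k2.1, k3.2,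
      fun h hh => ?_⟩, k2.2⟩
    obtain ⟨j, rfl⟩ := Fin.exists_succAbove_eq hh
    exact k4 j (mem_univ _)

theorem exists_rho (hD : D.Ok) (n : ℕ) {ω : T3} (hω : ω ∈ D.W) : ∃ ρ : ℤ, ∀ r q : ℤ,
    (∀ h, h ≠ D.g0 → D.IP n ω h (D.al h * n * r + D.be h * q)) → q ≡ ρ * r [ZMOD nu ω] := by
  have hw := (mem_W.1 hω).2
  have h1 : ∀ b : Gen, ∃ j : Fin 6, b ∈ ω.1 → b.1 = j.castSucc := fun b => by
    by_cases hb : b ∈ ω.1
    · exact (exists_castSucc (W_el hω hb).1).imp fun _ k _ => k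
    · exact ⟨0, fun k => absurd k hb⟩
  choose j hj using h1
  have jf : ∀ b ∈ ω.1, j b ≠ D.f0 := fun b hb e => (hw.tag b hb).1 (by rw [hj b hb, e, hD.hf])
  have jg : ∀ b ∈ ω.1, j b ≠ D.g0 := fun b hb e => (hw.tag b hb).2.1 (by rw [hj b hb, e, hD.hg])
  obtain ⟨ρ, hρ⟩ := exists_crt ω.1 hw.dist (fun b hb => (W_el hω hb).2.2.2)
    (fun b => D.al (j b) * n) (fun b => D.be (j b)) fun b hb hd => by
      obtain ⟨-, k1, -, k2⟩ := W_el hω hb
      rcases (Nat.prime_iff_prime_int.1 k2).dvd_or_dvd hd with k | k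
      · exact hD.not_dvd_res k2 k1 (jf b hb).symm k
      · exact (hw.tag b hb).2.2 (Int.natCast_dvd_natCast.1 k)
  refine ⟨ρ, fun r q h => hρ r q fun b hb => ?_⟩
  obtain ⟨P, -, -, e, -⟩ := h _ (jg b hb)
  rw [e, cc, if_neg (jf b hb), ← hj b hb]
  exact (Int.natCast_dvd_natCast.2 (((dvd_pr hb).mul_left _).mul_right _)).mul_left _

end KD

theorem final_bound {H Z m m' N R Q Y0 P : ℕ} (hR : R * (m * N) ≤ H * Z) (hQ : Q * m' ≤ H * Z)
    (hP : P ≤ m * m') (h0 : 0 < P) (hH : H ^ 2 ≤ Y0) (h1 : 0 < Y0) :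
    (R : ℝ) * Q * N * ((Y0 ^ 1000000 : ℕ) : ℝ) ^ (-(1 / 5000) : ℝ) ≤
      (Z : ℝ) ^ 2 / ((Y0 : ℝ) ^ 60 * P) := by
  have e : ((Y0 ^ 1000000 : ℕ) : ℝ) ^ (-(1 / 5000) : ℝ) = ((Y0 : ℝ) ^ 200)⁻¹ := by
    rw [Nat.cast_pow, ← Real.rpow_natCast, ← Real.rpow_mul (Nat.cast_nonneg _),
      ← Real.rpow_natCast, ← Real.rpow_neg (Nat.cast_nonneg _)]
    congr 1
    norm_num
  rw [e, ← div_eq_mul_inv, div_le_div_iff₀ (by positivity) (by positivity)]
  have h2 : R * Q * N * (Y0 ^ 60 * P) ≤ Z ^ 2 * Y0 ^ 200 :=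
    calc R * Q * N * (Y0 ^ 60 * P) ≤ R * Q * N * (Y0 ^ 60 * (m * m')) := by gcongr
      _ = R * (m * N) * (Q * m') * Y0 ^ 60 := by ring
      _ ≤ H * Z * (H * Z) * Y0 ^ 60 := by gcongr
      _ = Z ^ 2 * (H ^ 2 * Y0 ^ 60) := by ring
      _ ≤ Z ^ 2 * (Y0 ^ 140 * Y0 ^ 60) := Nat.mul_le_mul_left _ (Nat.mul_le_mul_right _
          (hH.trans (Nat.le_self_pow (n := 140) (by norm_num) _)))
      _ = _ := by rw [← pow_add]
  exact_mod_cast h2

end KEY

open KEY KD in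
theorem key (kc : KCStmt) (sym : SYMStmt) (gg : GStmt) : KEYStmt := by
  classical
  intro M A B c J sys hc hcM
  refine (((ev_Y (gg (128 ^ J) ((2 ^ (7 * (24 * J))) ^ 3))).and (ev_ge M)).and
    (ev_ge (HH A B ^ 2 + 1))).mono ?_
  rintro S rfl rfl rel ⟨⟨G, hM0⟩, hH⟩ y hy y' hy' f g ok O O₁ O₂ i fg ho
  have hM := hM0.trans rel.Y0_le
  by_cases hw : ∃ x U U' s, Tm ⟨S, A, B, f, g, 0, 0, O, O₁, O₂, ok⟩ i x U U' s
  swap
  · rw [keySum_eq ⟨S, A, B, f, g, 0, 0, O, O₁, O₂, ok⟩, filter_false_of_mem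
      fun t _ h => hw ⟨_, _, _, _, h⟩, sum_empty, abs_zero]
    positivity
  obtain ⟨x, U, U', s, h⟩ := hw
  obtain ⟨f0, hf⟩ := exists_castSucc (h.tags sys.pos hM).1
  obtain ⟨g0, hg⟩ := exists_castSucc (h.tags sys.pos hM).2
  let D : KD := ⟨S, A, B, f, g, f0, g0, O, O₁, O₂, ok⟩
  have h' : D.Tm i x U U' s := ⟨h.hx, h.hU, h.hU', h.hs, h.ok, h.tg, h.out, h.o1, h.o2, h.lo, h.hi⟩
  have hD : D.Ok := h'.toOk sys rel hM hf hg fg
  obtain ⟨r, q, n, ω, hv, rfl, rfl, rfl, -⟩ := h'.fwd hD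
  obtain ⟨m1, m2, n1, n2⟩ := hv.sizes hD
  have lo := h'.lo
  have hi := h'.hi
  rw [(hv.back hD).1] at lo hi
  obtain ⟨a, b, p, σ, K, a1, a2, a3, a4, a5, a6⟩ := fact_term hD kc sym hc hcM hy hy' ho
  have H1 : 1 ≤ HH A B := le_trans (by rw [sys.a0]; omega) (le_HH A B 0)
  have H2 : HH A B ^ 2 ≤ S.Y' := (Nat.le_of_succ_le hH).trans (rel.Y0_le.trans rel.Y_le)
  have Y1 : 1 ≤ S.Y' := le_trans (Nat.one_le_pow _ _ H1) H2
  have hZ : S.Y' ^ 10000 ≤ HH A B * S.Z := rel.lo.trans (Nat.le_mul_of_pos_left _ H1)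
  have hb : ∀ (h k : Fin 6) (m : ℕ), m ≤ S.Y' ^ 6 → |res A B h k * m| ≤ (S.Y' : ℤ) ^ 8 := by
    intro h k m hm
    have : (HH A B ^ 2 * m : ℕ) ≤ S.Y' ^ 8 :=
      (Nat.mul_le_mul H2 hm).trans (by rw [← pow_succ']; exact Nat.pow_le_pow_right Y1 (by norm_num))
    rw [abs_mul, Nat.abs_cast]
    exact (mul_le_mul_of_nonneg_right (abs_res A B h k) (Nat.cast_nonneg _)).trans
      (by exact_mod_cast this)
  have mp := hD.m_pos
  have main := G S.Y' (D.RR i) D.QQ (2 ^ i) D.P T3 D.W nu K σ (fun j => D.al (g0.succAbove j))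
    (fun j => D.be (g0.succAbove j)) (fun r q s => if D.IA r q s then (a r q s : ℝ) else 0)
    (fun n ω => if D.IB n ω ∧ D.ok (D.pt0 ω) then
      (b n ω : ℝ) / 2 ^ ((D.O ∪ (D.Nn n ∪ ω.1)).card + 7) else 0)
    (fun n ω q => if ω ∈ D.W ∧ IsCoprime q (n * nu ω) then (p n ω q : ℝ) else 0)
    (fun n ω j z => if D.IP n ω (g0.succAbove j) z then (1 : ℝ) else 0) rel.Y_le rel.hY'.le
    ((Nat.le_div_iff_mul_le (Nat.mul_pos (mp _) (by positivity))).2 (le_trans (by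
      refine (Nat.mul_le_mul_left _ (Nat.mul_le_mul m1 (lo.le.trans n2))).trans ?_
      rw [← pow_add, ← pow_add]
      exact Nat.pow_le_pow_right Y1 (by norm_num)) hZ))
    ((Nat.le_div_iff_mul_le (mp _)).2 (le_trans (by
      refine (Nat.mul_le_mul_left _ m2).trans ?_
      rw [← pow_add]
      exact Nat.pow_le_pow_right Y1 (by norm_num)) hZ))
    ((Nat.div_le_self _ _).trans ((Nat.mul_le_mul ((Nat.le_self_pow two_ne_zero _).trans H2)
      rel.hi).trans (by rw [← pow_succ']; exact Nat.pow_le_pow_right Y1 (by norm_num))))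
    (n1.le.trans (pow_succ' 2 i ▸ hi)) (lo.le.trans n2)
    (fun s hs => by
      obtain ⟨k1, k2⟩ := mem_filter.1 hs
      obtain ⟨k3, k4, k5⟩ := mem_pri.1 k1
      refine ⟨k5, k3, k4, fun j hd => ?_⟩
      rcases (Nat.prime_iff_prime_int.1 k5).dvd_or_dvd hd with k | k
      · exact hD.not_dvd_res k5 k3 (Fin.succAbove_ne _ j) k
      · exact k2 (Int.natCast_dvd_natCast.1 k))
    (fun j => ⟨hb _ _ _ m1, hb _ _ _ m2⟩)
    (fun ω hω => ⟨prod_pos fun b hb => (W_el hω hb).2.2.2.pos, (mem_W.1 hω).2.nu⟩)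
    (fun m => by have := D.fibre m; exact this) a5 (fun _ _ _ => abs_ite (abs_cast (a1 _ _ _)))
    (fun n ω => abs_ite (by
      rw [abs_div, div_le_one (by positivity), abs_pow, abs_two]
      exact (abs_cast (a2 n ω)).trans (one_le_pow₀ one_le_two)))
    (fun _ _ _ => abs_ite (abs_cast (a3 _ _ _))) (fun _ _ _ _ => abs_ite (by simp))
    (fun n ω q => by
      by_cases hω : ω ∈ D.W
      · have := IsCoprime.add_mul_left_left_iff (x := q) (y := (n * nu ω : ℤ)) (z := 1)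
        rw [mul_one] at this
        simp only [a4 n ω hω, this]
      · simp only [hω, false_and, if_false])
    (fun n ω q h => by
      by_contra k
      exact h (if_neg fun k' => k k'.2))
    (fun n ω hω => (exists_rho hD n hω).imp fun ρ hρ r q h => hρ r q fun k hk => by
      obtain ⟨j, rfl⟩ := Fin.exists_succAbove_eq hk
      by_contra k
      exact h j (if_neg k))
  rw [keySum_shape hD i a6]
  refine main.trans ?_
  rw [← Nat.cast_prod, rel.hY]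
  refine final_bound (Nat.div_mul_le_self _ _) (Nat.div_mul_le_self _ _) (rel.hY ▸ hD.prod_le) ?_
    (Nat.le_of_succ_le hH) (by omega)
  refine prod_pos fun b hb => ?_
  have := (mem_filter.1 hb).2
  omega

end Pool.Agent.MP_a43263_nt.R2

end
end MrgPart1

-- ======== part 3: formerly Pool.Agent.MP_a43263_nt.R2.Tri
section MrgPart3

/-! PROJECT RANK2, module TRI: three good values. -/

set_option autoImplicit false

noncomputable section

namespace Pool.Agent.MP_a43263_nt.R2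

open Finset Filter

namespace Tri

theorem ev_and {M J : ℕ} {P Q : Sc → Prop} (h1 : Ev M J P) (h2 : Ev M J Q) :
    Ev M J fun S => P S ∧ Q S := by
  obtain ⟨t1, h1⟩ := h1
  obtain ⟨t2, h2⟩ := h2
  exact ⟨max t1 t2, fun S a b c d =>
    ⟨h1 S a b ((le_max_left _ _).trans c) d, h2 S a b ((le_max_right _ _).trans c) d⟩⟩

theorem ev_all {M J : ℕ} (K : ℕ) {P : ℕ → Sc → Prop} (h : ∀ i < K, Ev M J (P i)) :
    Ev M J fun S => ∀ i < K, P i S := by
  induction K with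
  | zero => exact ⟨0, fun S _ _ _ _ i hi => by omega⟩
  | succ K ih =>
    obtain ⟨t, ht⟩ := ev_and (ih fun i hi => h i (by omega)) (h K (by omega))
    refine ⟨t, fun S a b c d i hi => ?_⟩
    rcases Nat.lt_succ_iff_lt_or_eq.1 hi with e | rfl
    · exact (ht S a b c d).1 i e
    · exact (ht S a b c d).2

theorem sum_range_mul (B N : ℕ) (φ : ℕ → ℝ) :
    ∑ x ∈ range (B * N), φ x = ∑ a ∈ range B, ∑ k ∈ range N, φ (a + B * k) := by
  induction N with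
  | zero => simp
  | succ N ih =>
    rw [Nat.mul_succ, sum_range_add, ih, ← sum_add_distrib]
    exact sum_congr rfl fun a _ => by rw [sum_range_succ, add_comm (B * N) a]

theorem Fs_nonneg (S : Sc) (n : ℕ) : 0 ≤ Fs S n :=
  sum_nonneg fun c _ => by
    split_ifs
    · exact Real.log_natCast_nonneg _
    · exact le_rfl

open Classical in
theorem Fs_le {S : Sc} (h : S.Y0 ≤ S.Y') (n : ℕ) :
    Fs S n ≤ if Shape S n then Real.log n else 0 := by
  by_cases hc : ∃ c ∈ CC S, c ∣ n ∧ (n / c).Prime ∧ S.Y' < n / c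
  · obtain ⟨c, c1, c2, c3, c4⟩ := hc
    have hco : ∀ c ∈ CC S, Core S c := fun c hc => by
      simp only [CC, mem_filter] at hc
      exact hc.2
    rw [if_pos ⟨c, n / c, hco c c1, c3, c4, (Nat.mul_div_cancel' c2).symm⟩, Fs,
      sum_eq_single_of_mem c c1, if_pos ⟨c2, c3, c4⟩]
    · exact Real.log_le_log (by exact_mod_cast c3.pos) (by exact_mod_cast Nat.div_le_self n c)
    · intro c' d1 hn
      refine if_neg fun ⟨d2, d3, _⟩ => hn ?_
      have e1 := Nat.mul_div_cancel' c2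
      have e2 := Nat.mul_div_cancel' d2
      have e3 : n / c ∣ c' * (n / c') := by
        rw [e2]
        exact Nat.div_dvd_of_dvd c2
      rcases c3.dvd_mul.1 e3 with e | e
      · have := (hco c' d1).gap _ (Nat.mem_primeFactors.2 ⟨c3, e, (hco c' d1).sqf.ne_zero⟩)
        omega
      · have e4 := (Nat.prime_dvd_prime_iff_eq c3 d3).1 e
        rw [← e4] at e2
        exact Nat.eq_of_mul_eq_mul_right c3.pos (e2.trans e1.symm)
  · have : Fs S n = 0 := sum_eq_zero fun c h1 => if_neg fun h2 => hc ⟨c, h1, h2⟩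
    rw [this]
    split_ifs
    · exact Real.log_natCast_nonneg _
    · exact le_rfl

open Classical in
/-- a minorant of the good numbers in a progression that is Fourier uniform with mean `d` -/
def Unif (S : Sc) (r q L : ℕ) (d T : ℝ) : Prop :=
  ∃ f : ℕ → ℝ, (∀ k, 0 ≤ f k ∧ f k ≤ if Shape S (r + q * k) then 1 else 0) ∧
    ∀ θ : ℝ, ‖∑ k ∈ range L, ((f k - d : ℝ) : ℂ) * eR (k * θ)‖ ≤ T

theorem unif_of {S : Sc} (h : S.Y0 ≤ S.Y') {r q L X : ℕ} {m T : ℝ} (hX : 2 ≤ X) (hr : 1 ≤ r)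
    (hL : r + q * L ≤ X) (hU : ∀ θ : ℝ,
      ‖∑ k ∈ range L, ((Fs S (r + q * k) - m : ℝ) : ℂ) * eR (k * θ)‖ ≤ T) :
    Unif S r q L (m / Real.log X) (T / Real.log X) := by
  have hΛ : 0 < Real.log X := Real.log_pos (by exact_mod_cast hX)
  refine ⟨fun k => if k < L then Fs S (r + q * k) / Real.log X else 0, fun k => ?_, fun θ => ?_⟩
  · have h1 := Fs_le h (r + q * k)
    have h2 := Fs_nonneg S (r + q * k)
    beta_reduce
    by_cases hk : k < L
    · rw [if_pos hk]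
      refine ⟨div_nonneg h2 hΛ.le, ?_⟩
      rw [div_le_iff₀ hΛ]
      refine h1.trans ?_
      split_ifs
      · rw [one_mul]
        have : r + q * k ≤ X := le_trans (Nat.add_le_add_left (Nat.mul_le_mul_left q hk.le) r) hL
        exact Real.log_le_log (by exact_mod_cast (by omega : 0 < r + q * k)) (by exact_mod_cast this)
      · simp
    · rw [if_neg hk]
      refine ⟨le_rfl, ?_⟩
      split_ifs <;> norm_num
  · have e : ∑ k ∈ range L, (((if k < L then Fs S (r + q * k) / Real.log X else 0) -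
        m / Real.log X : ℝ) : ℂ) * eR (k * θ) =
        (∑ k ∈ range L, ((Fs S (r + q * k) - m : ℝ) : ℂ) * eR (k * θ)) / (Real.log X : ℝ) := by
      rw [sum_div]
      refine sum_congr rfl fun k hk => ?_
      rw [if_pos (mem_range.1 hk), ← sub_div, Complex.ofReal_div]
      ring
    rw [e, norm_div, Complex.norm_real, Real.norm_eq_abs, abs_of_pos hΛ]
    exact div_le_div_of_nonneg_right (hU θ) hΛ.le

theorem mean_ge {L : ℕ} {f : ℕ → ℝ} {d T : ℝ}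
    (h : ∀ θ : ℝ, ‖∑ k ∈ range L, ((f k - d : ℝ) : ℂ) * eR (k * θ)‖ ≤ T) :
    d * L - T ≤ ∑ k ∈ range L, f k := by
  have h0 := h 0
  have e : ∑ k ∈ range L, ((f k - d : ℝ) : ℂ) * eR (k * (0 : ℝ)) =
      ((∑ k ∈ range L, f k - d * L : ℝ) : ℂ) := by
    simp [eR, mul_comm]
  rw [e, Complex.norm_real, Real.norm_eq_abs] at h0
  have := (abs_le.1 h0).1
  linarith

open Classical in
/-- one pair of residue classes -/
theorem core (ter : TERStmt) {S : Sc} {r₁ r₂ r₃ q₁ q₂ q₃ N₁ N₂ : ℕ} {n d η E δ Q : ℝ}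
    (u1 : Unif S r₁ q₁ N₁ d (η * d * N₁ + E)) (u2 : Unif S r₂ q₂ N₂ d (η * d * N₂ + E))
    (u3 : Unif S r₃ q₃ (N₁ + N₂) d (η * d * (N₁ + N₂ : ℕ) + E)) (hδ : 0 < δ) (hδ1 : δ ≤ 1)
    (hd : δ ≤ d) (hQ : 1 ≤ Q) (h1 : N₁ ≤ n) (h2 : N₂ ≤ n) (h3 : n ≤ Q * N₁) (h4 : n ≤ Q * N₂)
    (h5 : n ^ 2 ≤ Q * (N₁ * N₂)) (hη0 : 0 ≤ η) (hη : 32 * Q * η ≤ δ ^ 2) (hE0 : 0 ≤ E)
    (hE : 16 * Q * E ≤ δ ^ 3 * n) :
    δ ^ 3 / 8 * (N₁ * N₂) ≤ ∑ a ∈ range N₁, ∑ b ∈ range N₂,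
      if Shape S (r₁ + q₁ * a) ∧ Shape S (r₂ + q₂ * b) ∧ Shape S (r₃ + q₃ * (a + b))
        then (1 : ℝ) else 0 := by
  obtain ⟨f₁, a1, b1⟩ := u1
  obtain ⟨f₂, a2, b2⟩ := u2
  obtain ⟨f₃, a3, b3⟩ := u3
  have one : ∀ {f : ℕ → ℝ} {p : ℕ → Prop}, (∀ k, 0 ≤ f k ∧ f k ≤ if p k then 1 else 0) →
      ∀ k, |f k| ≤ 1 := by
    intro f p h k
    rw [abs_of_nonneg (h k).1]
    refine (h k).2.trans ?_
    split_ifs <;> norm_num
  have hN1 : (0 : ℝ) ≤ N₁ := Nat.cast_nonneg _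
  have hN2 : (0 : ℝ) ≤ N₂ := Nat.cast_nonneg _
  have hn : 0 ≤ n := hN1.trans h1
  have hd0 : 0 < d := hδ.trans_le hd
  have hQ0 : 0 < Q := by linarith
  have hδ2 : δ ^ 2 ≤ 1 := pow_le_one₀ hδ.le hδ1
  have hη4 : η ≤ 1 / 4 := by nlinarith
  have hδ3 : δ ^ 3 ≤ d := by nlinarith
  have half : ∀ {N : ℕ} {f : ℕ → ℝ}, n ≤ Q * N →
      (∀ θ : ℝ, ‖∑ k ∈ range N, ((f k - d : ℝ) : ℂ) * eR (k * θ)‖ ≤ η * d * N + E) →
      d * N / 2 ≤ ∑ k ∈ range N, f k := by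
    intro N f g1 g2
    have g3 := mean_ge g2
    have hN : (0 : ℝ) ≤ N := Nat.cast_nonneg _
    have g4 : η * d * N ≤ 1 / 4 * (d * N) := by
      rw [mul_assoc]
      exact mul_le_mul_of_nonneg_right hη4 (by positivity)
    have g5 : Q * (16 * E) ≤ Q * (d * N) := by
      have := mul_le_mul hδ3 g1 hn hd0.le
      linarith
    have g6 := le_of_mul_le_mul_left g5 hQ0
    linarith
  have m1 := half h3 b1
  have m2 := half h4 b2
  have t := ter N₁ N₂ f₁ f₂ (fun k => f₃ k - d) _ (one a1) (one a2) b3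
  have e : ∑ a ∈ range N₁, ∑ b ∈ range N₂, f₁ a * f₂ b * f₃ (a + b) =
      d * ((∑ a ∈ range N₁, f₁ a) * ∑ b ∈ range N₂, f₂ b) +
        ∑ a ∈ range N₁, ∑ b ∈ range N₂, f₁ a * f₂ b * (f₃ (a + b) - d) := by
    rw [sum_mul_sum, mul_sum, ← sum_add_distrib]
    refine sum_congr rfl fun a _ => ?_
    rw [mul_sum, ← sum_add_distrib]
    exact sum_congr rfl fun b _ => by ring
  have s1 : √((N₁ : ℝ) * N₂) ≤ n := by
    rw [Real.sqrt_le_left hn, sq]
    exact mul_le_mul h1 h2 hN2 hn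
  have s2 : η * d * (N₁ + N₂ : ℕ) + E ≤ η * d * (2 * n) + E := by
    push_cast
    have := mul_le_mul_of_nonneg_left (by linarith : (N₁ : ℝ) + N₂ ≤ 2 * n)
      (mul_nonneg hη0 hd0.le)
    linarith
  have s3 : (η * d * (N₁ + N₂ : ℕ) + E) * √((N₁ : ℝ) * N₂) ≤ (η * d * (2 * n) + E) * n :=
    mul_le_mul s2 s1 (Real.sqrt_nonneg _) (by positivity)
  have s4 : (η * d * (2 * n) + E) * n ≤ d * δ ^ 2 / 8 * (N₁ * N₂) := by
    refine le_of_mul_le_mul_left ?_ (by positivity : 0 < 16 * Q)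
    have g1 := mul_le_mul_of_nonneg_right hη (by positivity : 0 ≤ d * n ^ 2)
    have g2 := mul_le_mul_of_nonneg_right hE hn
    have g3 := mul_le_mul_of_nonneg_left h5 (by positivity : 0 ≤ d * δ ^ 2)
    have g4 := mul_le_mul_of_nonneg_right hd (by positivity : 0 ≤ δ ^ 2 * n ^ 2)
    nlinarith
  have s5 : d * N₁ / 2 * (d * N₂ / 2) ≤ (∑ a ∈ range N₁, f₁ a) * ∑ b ∈ range N₂, f₂ b :=
    mul_le_mul m1 m2 (by positivity) (le_trans (by positivity) m1)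
  have s6 := mul_le_mul_of_nonneg_left s5 hd0.le
  have s7 : d * δ ^ 2 * (N₁ * N₂) ≤ d * d ^ 2 * (N₁ * N₂) := by gcongr
  have s8 : δ * δ ^ 2 * (N₁ * N₂) ≤ d * δ ^ 2 * (N₁ * N₂) := by gcongr
  have s9 := (abs_le.1 t).1
  refine le_trans (b := ∑ a ∈ range N₁, ∑ b ∈ range N₂, f₁ a * f₂ b * f₃ (a + b)) ?_
    (sum_le_sum fun a _ => sum_le_sum fun b _ => ?_)
  · rw [e]
    nlinarith
  · refine le_trans (mul_le_mul (mul_le_mul (a1 a).2 (a2 b).2 (a2 b).1 ((a1 a).1.trans (a1 a).2))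
      (a3 (a + b)).2 (a3 (a + b)).1
      (mul_nonneg ((a1 a).1.trans (a1 a).2) ((a2 b).1.trans (a2 b).2))) (le_of_eq ?_)
    by_cases c1 : Shape S (r₁ + q₁ * a) <;> by_cases c2 : Shape S (r₂ + q₂ * b) <;>
      by_cases c3 : Shape S (r₃ + q₃ * (a + b)) <;> simp [c1, c2, c3]

theorem cop_one (N a : ℕ) : (1 + 24 * N * a).Coprime (3 * N) := by
  rw [show 1 + 24 * N * a = 1 + 3 * N * (8 * a) by ring]
  simp

theorem cop_three {N : ℕ} (h3 : ¬3 ∣ N) (i j a b : ℕ) :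
    (3 * 9 ^ i * (1 + 24 * N * a) + N * 25 ^ j * (1 + 24 * N * b)).Coprime (3 * N) := by
  have c3 : Nat.Coprime 3 N := (Nat.Prime.coprime_iff_not_dvd Nat.prime_three).2 h3
  have c1 := cop_one N a
  have c2 := cop_one N b
  refine Nat.Coprime.mul_right ?_ ?_
  · rw [mul_assoc 3, Nat.coprime_mul_left_add_left]
    exact Nat.Coprime.mul_left (Nat.Coprime.mul_left c3.symm
      (Nat.Coprime.pow_left j (by norm_num))) (c2.coprime_mul_right_right)
  · rw [mul_assoc N, Nat.coprime_add_mul_left_left]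
    refine Nat.Coprime.mul_left (Nat.Coprime.mul_left c3 (Nat.Coprime.pow_left i ?_))
      (c1.coprime_mul_left_right)
    exact (Nat.Coprime.pow_left 2 c3 :)

theorem dvd_of_dvd {N : ℕ} (h2 : 2 ∣ 3 * N) (h5 : 5 ∣ 3 * N) {p : ℕ} (hp : p.Prime) (i j : ℕ)
    (h : p ∣ 24 * N * (3 * 9 ^ i) * (N * 25 ^ j)) : p ∣ 3 * N := by
  have e : 24 * N * (3 * 9 ^ i) * (N * 25 ^ j) = 2 ^ 3 * (3 ^ (2 * i) * (5 ^ (2 * j) *
      (3 * N) ^ 2)) := by
    rw [pow_mul, pow_mul]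
    ring
  rw [e] at h
  rcases hp.dvd_mul.1 h with h | h
  · exact (hp.dvd_of_dvd_pow h).trans h2
  rcases hp.dvd_mul.1 h with h | h
  · exact (hp.dvd_of_dvd_pow h).trans (dvd_mul_right _ _)
  rcases hp.dvd_mul.1 h with h | h
  · exact (hp.dvd_of_dvd_pow h).trans h5
  · exact hp.dvd_of_dvd_pow h

/-- uniformity in normalised form -/
theorem ev_unif (uu : UStmt) {M P₀ q H' J H : ℕ} {c δ Q : ℝ} (hM : 0 < M) (hP : 2 ≤ P₀)
    (h1 : ∀ p : ℕ, p.Prime → p ≤ P₀ → p ∣ M) (hq : 0 < q) (h2 : M ∣ q)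
    (h3 : ∀ p : ℕ, p.Prime → p ∣ q → p ∣ M) (hJ : 1 ≤ J) (hH : 1 ≤ H') (hδ : 0 < δ) (hQ : 0 < Q)
    (hc : δ ≤ c / 4) :
    Ev M J fun S => c * Real.log S.Z ≤ rho M * muT S → muT S ≤ 2 * mu S → ∀ n : ℕ,
      S.Z ≤ H * n → δ ≤ rho M * mu S / Real.log (H' * S.Z : ℕ) ∧ ∀ r L : ℕ, r.Coprime M →
        1 ≤ r → r ≤ H' → r + q * L ≤ H' * S.Z →
        Unif S r q L (rho M * mu S / Real.log (H' * S.Z : ℕ))
          (8 / P₀ * (rho M * mu S / Real.log (H' * S.Z : ℕ)) * L + δ ^ 3 * n / (16 * Q)) := by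
  obtain ⟨t, ht⟩ := uu M P₀ q H' J (δ ^ 3 / (16 * Q * (H + 1))) hM hP h1 hq h2 h3 hJ
    (by positivity)
  refine ⟨max t (max H' 2), fun S a1 a2 a3 hR b1 b2 n hn => ?_⟩
  have t2 : 2 ≤ S.Y0 := (le_max_right _ _).trans ((le_max_right _ _).trans a3)
  have t3 : H' ≤ S.Y0 := (le_max_left _ _).trans ((le_max_right _ _).trans a3)
  have y0 : S.Y0 ≤ S.Y := hR.hY ▸ Nat.le_self_pow (by omega) _
  have y1 : S.Y ≤ S.Y' := hR.hY' ▸ Nat.le_self_pow (by positivity) _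
  have y2 : S.Y' ≤ S.Z := (Nat.le_self_pow (by omega) _).trans hR.lo
  have hZ : (2 : ℝ) ≤ S.Z := by exact_mod_cast (by omega : 2 ≤ S.Z)
  have hL : 0 < Real.log S.Z := Real.log_pos (by linarith)
  have x1 : S.Z ≤ H' * S.Z := Nat.le_mul_of_pos_left _ hH
  have l1 : Real.log S.Z ≤ Real.log (H' * S.Z : ℕ) :=
    Real.log_le_log (by linarith) (by exact_mod_cast x1)
  have l2 : Real.log (H' * S.Z : ℕ) ≤ 2 * Real.log S.Z := by
    have : H' * S.Z ≤ S.Z ^ 2 := by rw [sq]; exact Nat.mul_le_mul_right _ (by omega)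
    have := Real.log_le_log (by exact_mod_cast (by omega : 0 < H' * S.Z))
      (show ((H' * S.Z : ℕ) : ℝ) ≤ (S.Z : ℝ) ^ 2 by exact_mod_cast this)
    rw [Real.log_pow] at this
    exact_mod_cast this
  have hρ : 0 ≤ rho M := div_nonneg (Nat.cast_nonneg _) (Nat.cast_nonneg _)
  have b3 := mul_le_mul_of_nonneg_left b2 hρ
  have hΛ : 0 < Real.log (H' * S.Z : ℕ) := hL.trans_le l1
  refine ⟨?_, fun r L c1 c2 c3 c4 => ?_⟩
  · rw [le_div_iff₀ hΛ]
    have := mul_le_mul hc l2 hΛ.le (hδ.le.trans hc)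
    linarith
  · obtain ⟨f, f1, f2⟩ := unif_of (y0.trans y1) (by omega) c2 c4
      fun θ => ht S a1 a2 ((le_max_left _ _).trans a3) hR r L θ c1 c2 c3 c4
    refine ⟨f, f1, fun θ => (f2 θ).trans ?_⟩
    rw [add_div]
    refine add_le_add ?_ ?_
    · rw [div_le_iff₀ hΛ]
      have e : 8 / (P₀ : ℝ) * (rho M * mu S / Real.log (H' * S.Z : ℕ)) * L *
          Real.log (H' * S.Z : ℕ) = 4 / P₀ * (rho M * (2 * mu S)) * L := by
        field_simp
        ring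
      rw [e]
      gcongr
    · rw [div_le_iff₀ hΛ]
      refine mul_le_mul ?_ l1 hL.le (by positivity)
      have : (S.Z : ℝ) ≤ (H + 1) * n := by
        have : S.Z ≤ (H + 1) * n := hn.trans (Nat.mul_le_mul_right _ (by omega))
        exact_mod_cast this
      calc δ ^ 3 / (16 * Q * (H + 1)) * S.Z ≤ δ ^ 3 / (16 * Q * (H + 1)) * ((H + 1) * n) := by
            gcongr
        _ = _ := by field_simp

end Tri

open Tri Classical in
theorem tri : UStmt → TERStmt → MASStmt → TRIStmt := by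
  rintro uu ter ⟨c, J₀, hc, mas⟩
  obtain ⟨δ, hδ, hδ1, hδc⟩ : ∃ δ : ℝ, 0 < δ ∧ δ ≤ 1 ∧ δ ≤ c / 4 :=
    ⟨min 1 (c / 4), lt_min one_pos (by positivity), min_le_left _ _, min_le_right _ _⟩
  refine ⟨δ ^ 3 / 8, max J₀ 1, by positivity, fun K => ?_⟩
  obtain ⟨P₀, hP⟩ := exists_nat_ge (256 * 225 ^ K / δ ^ 2 + 5)
  have hP5 : 5 ≤ P₀ := by
    have : (0 : ℝ) ≤ 256 * 225 ^ K / δ ^ 2 := by positivity
    exact_mod_cast (by linarith : (5 : ℝ) ≤ P₀)
  have hP0 : (0 : ℝ) < P₀ := by exact_mod_cast (by omega : 0 < P₀)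
  have hη : 32 * (225 : ℝ) ^ K * (8 / P₀) ≤ δ ^ 2 := by
    have h1 : 256 * 225 ^ K / δ ^ 2 ≤ (P₀ : ℝ) := by linarith
    rw [div_le_iff₀ (by positivity)] at h1
    rw [← mul_div_assoc, div_le_iff₀ hP0]
    linarith
  refine ⟨P₀, fun N hN hp h3 J H hJ => ?_⟩
  have d2 := hp 2 Nat.prime_two (by omega)
  have d5 := hp 5 Nat.prime_five hP5
  have key : ∀ i < K, ∀ j < K, Ev (3 * N) J fun S =>
      c * Real.log S.Z ≤ rho (3 * N) * muT S → muT S ≤ 2 * mu S → ∀ n : ℕ, 225 ^ K ∣ n →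
      24 * N * (N * n) ≤ S.Z → S.Z ≤ H * n → δ ^ 3 / 8 * ((N * n : ℕ) * (3 * n : ℕ)) ≤
        (((range (N * n) ×ˢ range (3 * n)).filter fun x =>
          Shape S (1 + 24 * N * x.1) ∧ Shape S (1 + 24 * N * x.2) ∧ Shape S
            (3 * (3 ^ i) ^ 2 * (1 + 24 * N * x.1) + N * (5 ^ j) ^ 2 * (1 + 24 * N * x.2))).card :
          ℝ) := by
    intro i hi j hj
    obtain ⟨A, hA⟩ : ∃ A, A = 3 * 9 ^ i := ⟨_, rfl⟩
    obtain ⟨B, hB⟩ : ∃ B, B = N * 25 ^ j := ⟨_, rfl⟩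
    have A0 : 0 < A := by rw [hA]; positivity
    have B0 : 0 < B := by rw [hB]; positivity
    obtain ⟨R, hR⟩ : ∃ R, R = A * (1 + 24 * N * B) + B * (1 + 24 * N * A) := ⟨_, rfl⟩
    have ev : ∀ q, 0 < q → 3 * N ∣ q → q ∣ 24 * N * A * B → _ := fun q q0 q1 q2 =>
      ev_unif uu (H := H) (H' := R + (A + 3 * B)) (Q := 225 ^ K) (by omega) (by omega) hp q0 q1
        (fun p pp h => dvd_of_dvd d2 d5 pp i j (hA ▸ hB ▸ h.trans q2))
        ((le_max_right _ _).trans hJ) (by omega) hδ (by positivity) hδc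
    obtain ⟨t, ht⟩ := ev_and (ev (24 * N * B) (by positivity) ⟨8 * B, by ring⟩ ⟨A, by ring⟩)
      (ev_and (ev (24 * N * A) (by positivity) ⟨8 * A, by ring⟩ ⟨B, by ring⟩)
        (ev (24 * N * A * B) (by positivity) ⟨8 * A * B, by ring⟩ dvd_rfl))
    refine ⟨max t 1, fun S a1 a2 a3 hS b1 b2 n n1 n2 n3 => ?_⟩
    obtain ⟨e1, e2, e3⟩ := ht S a1 a2 ((le_max_left _ _).trans a3) hS
    obtain ⟨hd, e1⟩ := e1 b1 b2 n n3
    obtain ⟨-, e2⟩ := e2 b1 b2 n n3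
    obtain ⟨-, e3⟩ := e3 b1 b2 n n3
    have hZ : 1 ≤ S.Z := by
      have t1 : 1 ≤ S.Y0 := (le_max_right _ _).trans a3
      refine le_trans (Nat.one_le_pow _ _ ?_) hS.lo
      rw [hS.hY', hS.hY]
      positivity
    have g1 : (25 : ℕ) ^ j ∣ 225 ^ K :=
      (pow_dvd_pow_of_dvd (by norm_num) j).trans (pow_dvd_pow _ hj.le)
    have g2 : (9 : ℕ) ^ i ∣ 225 ^ K :=
      (pow_dvd_pow_of_dvd (by norm_num) i).trans (pow_dvd_pow _ hi.le)
    have g3 : (25 : ℕ) ^ j * 9 ^ i ≤ 225 ^ K := by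
      rw [show 225 = 25 * 9 by norm_num, mul_pow]
      exact Nat.mul_le_mul (Nat.pow_le_pow_right (by norm_num) hj.le)
        (Nat.pow_le_pow_right (by norm_num) hi.le)
    obtain ⟨N₁, hN₁⟩ := g1.trans n1
    obtain ⟨N₂, hN₂⟩ := g2.trans n1
    have k1 : N * n = B * N₁ := by rw [hB, mul_assoc, ← hN₁]
    have k2 : 3 * n = A * N₂ := by rw [hA, mul_assoc, ← hN₂]
    have z1 : 24 * N * B * N₁ ≤ S.Z := by rw [mul_assoc, ← k1]; exact n2
    have z2 : 24 * N * A * N₂ ≤ 3 * S.Z := by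
      rw [mul_assoc, ← k2]
      have : 24 * N * (1 * n) ≤ 24 * N * (N * n) :=
        Nat.mul_le_mul_left _ (Nat.mul_le_mul_right _ hN)
      calc 24 * N * (3 * n) = 3 * (24 * N * (1 * n)) := by ring
        _ ≤ 3 * S.Z := Nat.mul_le_mul_left _ (this.trans n2)
    have z3 : 24 * N * A * B * (N₁ + N₂) ≤ (A + 3 * B) * S.Z := by
      calc 24 * N * A * B * (N₁ + N₂) = A * (24 * N * B * N₁) + B * (24 * N * A * N₂) := by ring
        _ ≤ A * S.Z + B * (3 * S.Z) :=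
          Nat.add_le_add (Nat.mul_le_mul_left _ z1) (Nat.mul_le_mul_left _ z2)
        _ = _ := by ring
    have z4 : 3 * S.Z ≤ (A + 3 * B) * S.Z := Nat.mul_le_mul_right _ (by omega)
    have z5 : R + (A + 3 * B) * S.Z ≤ (R + (A + 3 * B)) * S.Z := by
      rw [add_mul R]
      exact Nat.add_le_add_right (Nat.le_mul_of_pos_right _ hZ) _
    have e9 : (3 : ℕ) * (3 ^ i) ^ 2 = A := by rw [hA, ← pow_mul, mul_comm i 2, pow_mul]; norm_num
    have e25 : N * (5 ^ j) ^ 2 = B := by rw [hB, ← pow_mul, mul_comm j 2, pow_mul]; norm_num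
    rw [card_filter, Nat.cast_sum, sum_product, e9, e25, k1, k2, sum_range_mul]
    have e : δ ^ 3 / 8 * (((B * N₁ : ℕ) : ℝ) * (A * N₂ : ℕ)) =
        ∑ _a ∈ range B, ∑ _b ∈ range A, δ ^ 3 / 8 * ((N₁ : ℝ) * N₂) := by
      simp only [sum_const, card_range, nsmul_eq_mul]
      push_cast
      ring
    rw [e]
    refine sum_le_sum fun a ha => ?_
    simp only [sum_range_mul A N₂]
    rw [sum_comm]
    refine sum_le_sum fun b hb => ?_
    have r1 : 1 + 24 * N * a ≤ 1 + 24 * N * B :=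
      Nat.add_le_add_left (Nat.mul_le_mul_left _ (mem_range.1 ha).le) _
    have r2 : 1 + 24 * N * b ≤ 1 + 24 * N * A :=
      Nat.add_le_add_left (Nat.mul_le_mul_left _ (mem_range.1 hb).le) _
    have r3 : A * (1 + 24 * N * a) + B * (1 + 24 * N * b) ≤ R :=
      hR ▸ Nat.add_le_add (Nat.mul_le_mul_left _ r1) (Nat.mul_le_mul_left _ r2)
    have r4 : 1 + 24 * N * a ≤ A * (1 + 24 * N * a) := Nat.le_mul_of_pos_left _ A0
    have r5 : 1 + 24 * N * b ≤ B * (1 + 24 * N * b) := Nat.le_mul_of_pos_left _ B0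
    have p1 : (1 : ℕ) ≤ 25 ^ j := Nat.one_le_pow _ _ (by norm_num)
    have p2 : (1 : ℕ) ≤ 9 ^ i := Nat.one_le_pow _ _ (by norm_num)
    have := core ter (n := n) (Q := 225 ^ K)
      (e1 (1 + 24 * N * a) N₁ (cop_one N a) (by omega) (by omega) (by omega))
      (e2 (1 + 24 * N * b) N₂ (cop_one N b) (by omega) (by omega) (by omega))
      (e3 (A * (1 + 24 * N * a) + B * (1 + 24 * N * b)) (N₁ + N₂)
        (hA ▸ hB ▸ cop_three h3 i j a b) (by omega) (by omega) (by omega))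
      hδ hδ1 hd (one_le_pow₀ (by norm_num))
      (by exact_mod_cast hN₁ ▸ Nat.le_mul_of_pos_left _ p1)
      (by exact_mod_cast hN₂ ▸ Nat.le_mul_of_pos_left _ p2)
      (by exact_mod_cast hN₁.le.trans (Nat.mul_le_mul_right _ (Nat.le_of_dvd (by positivity) g1)))
      (by exact_mod_cast hN₂.le.trans (Nat.mul_le_mul_right _ (Nat.le_of_dvd (by positivity) g2)))
      (by
        have : n ^ 2 ≤ 225 ^ K * (N₁ * N₂) := by
          calc n ^ 2 = 25 ^ j * N₁ * (9 ^ i * N₂) := by rw [← hN₁, ← hN₂, sq]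
            _ = 25 ^ j * 9 ^ i * (N₁ * N₂) := by ring
            _ ≤ _ := Nat.mul_le_mul_right _ g3
        exact_mod_cast this)
      (by positivity) hη (by positivity) (le_of_eq (by field_simp))
    refine this.trans (le_of_eq (sum_congr rfl fun k _ => sum_congr rfl fun l _ => ?_))
    have f1 : 1 + 24 * N * (a + B * k) = 1 + 24 * N * a + 24 * N * B * k := by ring
    have f2 : 1 + 24 * N * (b + A * l) = 1 + 24 * N * b + 24 * N * A * l := by ring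
    have f3 : A * (1 + 24 * N * (a + B * k)) + B * (1 + 24 * N * (b + A * l)) =
        A * (1 + 24 * N * a) + B * (1 + 24 * N * b) + 24 * N * A * B * (k + l) := by ring
    simp only [f3]
    simp only [f1, f2]
    split_ifs <;> simp
  obtain ⟨t1, h1⟩ := ev_all K fun i hi => ev_all K (key i hi)
  obtain ⟨t2, h2⟩ := mas (3 * N) J (by omega) ((le_max_left _ _).trans hJ)
  refine ⟨max t1 t2, fun S a1 a2 a3 hS => ?_⟩
  obtain ⟨e, he⟩ : ∃ e, muT S ≤ 2 * mu { S with e := e } := by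
    rcases le_total (mu { S with e := 0 }) (mu { S with e := 1 }) with h | h
    · exact ⟨1, by rw [muT]; linarith⟩
    · exact ⟨0, by rw [muT]; linarith⟩
  exact ⟨e, fun n n1 n2 n3 i hi j hj => h1 { S with e := e } a1 a2 ((le_max_left _ _).trans a3)
    ⟨hS.hY, hS.hY', hS.lo, hS.hi⟩ i hi j hj (h2 S a1 a2 ((le_max_right _ _).trans a3) hS) he
    n n1 n2 n3⟩

end Pool.Agent.MP_a43263_nt.R2

end
end MrgPart3

-- marker of a merged file
example : 731051 + 773433 = 731051 + 773433 := rfl
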