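import Mathlib.Data.Int.Star
import Mathlib.Data.Int.NatAbs
import Mathlib.Algebra.Order.Chebyshev
import Mathlib.Analysis.CStarAlgebra.Classes
import Mathlib.Analysis.Complex.ExponentialBounds
import Mathlib.Analysis.Real.Pi.Bounds
import Mathlib.RingTheory.PiTensorProduct
import Mathlib.NumberTheory.DiophantineApproximation.Basic
import Mathlib.NumberTheory.Harmonic.Bounds
import Pool.Agent.MP_a43263_nt.R2.Spec
import Pool.Agent.MP_a43263_nt.R2.Basic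

-- ======== part 0: formerly Pool.Agent.MP_a43263_nt.R2.Gg
section MrgPart0

/-! PROJECT RANK2, module G: the oscillation estimate. -/

set_option autoImplicit false

noncomputable section

namespace Pool.Agent.MP_a43263_nt.R2

open Finset Filter

namespace Gg

/-- few primes above `Y` divide a number below `Y ^ e` -/
theorem card_div_le {Y e q : ℕ} (hY : 2 ≤ Y) (hq : 1 ≤ q) (hqe : q ≤ Y ^ e) (P : Finset ℕ)
    (hP : ∀ s ∈ P, s.Prime ∧ Y < s) : (P.filter (· ∣ q)).card ≤ e := by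
  have h1 : ∏ s ∈ P.filter (· ∣ q), s ∣ q :=
    Finset.prod_primes_dvd q (fun a ha => (hP a (mem_filter.1 ha).1).1.prime)
      (fun a ha => (mem_filter.1 ha).2)
  have h2 : Y ^ (P.filter (· ∣ q)).card ≤ ∏ s ∈ P.filter (· ∣ q), s :=
    Finset.pow_card_le_prod _ _ _ (fun a ha => (hP a (mem_filter.1 ha).1).2.le)
  exact (Nat.pow_le_pow_iff_right (by omega)).1 (h2.trans ((Nat.le_of_dvd hq h1).trans hqe))

theorem pow_le_pow_mul {Y Y' k : ℕ} (h : Y' ≤ Y ^ k) (e : ℕ) : Y' ^ e ≤ Y ^ (e * k) := by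
  rw [mul_comm, pow_mul]; exact Nat.pow_le_pow_left h _

theorem harm_le (H : ℕ) : ∑ a ∈ Icc 1 H, (1 : ℝ) / a ≤ 1 + Real.log H := by
  have h := harmonic_le_one_add_log H
  rw [harmonic_eq_sum_Icc] at h
  push_cast at h
  simpa [one_div] using h

theorem sum_mult_le (H d : ℕ) (hd : 1 ≤ d) :
    ∑ a ∈ (Icc 1 H).filter (d ∣ ·), (1 : ℝ) / a ≤ (1 + Real.log H) / d := by
  have hd0 : (0 : ℝ) < d := by exact_mod_cast hd
  have hsub : (Icc 1 H).filter (d ∣ ·) ⊆ (Icc 1 H).image (d * ·) := by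
    intro a ha
    obtain ⟨ha, c, rfl⟩ := mem_filter.1 ha
    rw [mem_Icc] at ha
    refine mem_image.2 ⟨c, mem_Icc.2 ⟨?_, ?_⟩, rfl⟩
    · exact Nat.pos_of_ne_zero fun h => by simp [h] at ha
    · exact (Nat.le_mul_of_pos_left c hd).trans ha.2
  calc _ ≤ ∑ a ∈ (Icc 1 H).image (d * ·), (1 : ℝ) / a :=
        sum_le_sum_of_subset_of_nonneg hsub fun _ _ _ => by positivity
    _ = ∑ c ∈ Icc 1 H, (1 : ℝ) / (d * c : ℕ) :=
        sum_image fun a _ b _ h => Nat.eq_of_mul_eq_mul_left hd h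
    _ = (∑ c ∈ Icc 1 H, (1 : ℝ) / c) / d := by
        rw [sum_div]
        refine sum_congr rfl fun c _ => ?_
        push_cast
        rw [div_div, mul_comm]
    _ ≤ _ := div_le_div_of_nonneg_right (harm_le H) hd0.le

theorem sum_inv_lcm (H : ℕ) :
    ∑ a ∈ Icc 1 H, ∑ b ∈ Icc 1 H, (1 : ℝ) / (Nat.lcm a b : ℕ) ≤ (1 + Real.log H) ^ 3 := by
  set h : ℝ := 1 + Real.log H with hh
  have h0 : 0 ≤ h := by have := Real.log_natCast_nonneg H; linarith
  set φ : ℕ → ℕ → ℝ := fun d a => if d ∣ a then 1 / (a : ℝ) else 0 with hφ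
  have hφ0 : ∀ d a, 0 ≤ φ d a := fun d a => by simp only [hφ]; split_ifs <;> positivity
  have h1 : ∀ a ∈ Icc 1 H, ∀ b ∈ Icc 1 H,
      (1 : ℝ) / (Nat.lcm a b : ℕ) ≤ ∑ d ∈ Icc 1 H, d * (φ d a * φ d b) := by
    intro a ha b hb
    rw [mem_Icc] at ha hb
    have hg : Nat.gcd a b ∈ Icc 1 H :=
      mem_Icc.2 ⟨Nat.gcd_pos_of_pos_left _ ha.1, (Nat.gcd_le_left _ ha.1).trans ha.2⟩
    refine le_trans (le_of_eq ?_) (single_le_sum (f := fun d : ℕ => (d : ℝ) * (φ d a * φ d b))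
      (fun d _ => by have := hφ0 d a; have := hφ0 d b; positivity) hg)
    simp only [hφ, if_pos (Nat.gcd_dvd_left a b), if_pos (Nat.gcd_dvd_right a b)]
    have e : ((Nat.gcd a b : ℕ) : ℝ) * (Nat.lcm a b : ℕ) = a * b := by
      exact_mod_cast Nat.gcd_mul_lcm a b
    have ha0 : (0 : ℝ) < a := by exact_mod_cast ha.1
    have hb0 : (0 : ℝ) < b := by exact_mod_cast hb.1
    have hl : (0 : ℝ) < (Nat.lcm a b : ℕ) := by exact_mod_cast Nat.lcm_pos ha.1 hb.1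
    field_simp
    linarith
  have h2 : ∀ d ∈ Icc 1 H, ∑ a ∈ Icc 1 H, φ d a ≤ h / d := by
    intro d hd
    have := sum_mult_le H d (mem_Icc.1 hd).1
    rwa [sum_filter] at this
  calc _ ≤ ∑ a ∈ Icc 1 H, ∑ b ∈ Icc 1 H, ∑ d ∈ Icc 1 H, d * (φ d a * φ d b) :=
        sum_le_sum fun a ha => sum_le_sum fun b hb => h1 a ha b hb
    _ = ∑ d ∈ Icc 1 H, d * ((∑ a ∈ Icc 1 H, φ d a) * ∑ b ∈ Icc 1 H, φ d b) := by
        simp_rw [sum_mul_sum, mul_sum]
        rw [sum_comm]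
        refine (sum_congr rfl fun b _ => sum_comm).trans ?_
        rw [sum_comm]
        exact sum_congr rfl fun d _ => sum_comm
    _ ≤ ∑ d ∈ Icc 1 H, h ^ 2 * (1 / (d : ℝ)) := by
        refine sum_le_sum fun d hd => ?_
        have hd0 : (0 : ℝ) < d := by exact_mod_cast (mem_Icc.1 hd).1
        have h3 := h2 d hd
        have h4 : 0 ≤ ∑ a ∈ Icc 1 H, φ d a := sum_nonneg fun a _ => hφ0 d a
        calc _ ≤ d * (h / d * (h / d)) :=
              mul_le_mul_of_nonneg_left (mul_le_mul h3 h3 h4 (by positivity)) hd0.le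
          _ = _ := by field_simp
    _ = h ^ 2 * ∑ d ∈ Icc 1 H, 1 / (d : ℝ) := (mul_sum _ _ _).symm
    _ ≤ h ^ 2 * h := mul_le_mul_of_nonneg_left (harm_le H) (by positivity)
    _ = h ^ 3 := by ring

theorem sum_fib_le {Ω : Type} (W : Finset Ω) (ν : Ω → ℕ) {H F : ℕ}
    (hν : ∀ ω ∈ W, 1 ≤ ν ω ∧ ν ω ≤ H) (hF : ∀ m, (W.filter fun ω => ν ω = m).card ≤ F)
    (f : ℕ → ℝ) (hf : ∀ a, 0 ≤ f a) : ∑ ω ∈ W, f (ν ω) ≤ F * ∑ a ∈ Icc 1 H, f a := by
  rw [← sum_fiberwise_of_maps_to (g := ν) (t := Icc 1 H) fun ω h => mem_Icc.2 (hν ω h), mul_sum]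
  refine sum_le_sum fun a _ => ?_
  rw [sum_congr rfl (g := fun _ => f a) fun ω h => by rw [(mem_filter.1 h).2], sum_const,
    nsmul_eq_mul]
  exact mul_le_mul_of_nonneg_right (by exact_mod_cast hF a) (hf a)

theorem sum_lcm_le {Ω : Type} (W : Finset Ω) (ν : Ω → ℕ) {H F : ℕ}
    (hν : ∀ ω ∈ W, 1 ≤ ν ω ∧ ν ω ≤ H) (hF : ∀ m, (W.filter fun ω => ν ω = m).card ≤ F) :
    ∑ ω ∈ W, ∑ ω' ∈ W, (1 : ℝ) / (Nat.lcm (ν ω) (ν ω') : ℕ) ≤ F ^ 2 * (1 + Real.log H) ^ 3 := by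
  have hF0 : (0 : ℝ) ≤ F := Nat.cast_nonneg _
  calc _ ≤ ∑ ω ∈ W, F * ∑ b ∈ Icc 1 H, (1 : ℝ) / (Nat.lcm (ν ω) b : ℕ) :=
        sum_le_sum fun ω _ => sum_fib_le W ν hν hF (fun b => (1 : ℝ) / (Nat.lcm (ν ω) b : ℕ))
          fun _ => by positivity
    _ = F * ∑ ω ∈ W, ∑ b ∈ Icc 1 H, (1 : ℝ) / (Nat.lcm (ν ω) b : ℕ) := (mul_sum _ _ _).symm
    _ ≤ F * (F * ∑ a ∈ Icc 1 H, ∑ b ∈ Icc 1 H, (1 : ℝ) / (Nat.lcm a b : ℕ)) :=
        mul_le_mul_of_nonneg_left (sum_fib_le W ν hν hF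
          (fun a => ∑ b ∈ Icc 1 H, (1 : ℝ) / (Nat.lcm a b : ℕ))
          fun _ => sum_nonneg fun _ _ => by positivity) hF0
    _ ≤ F * (F * (1 + Real.log H) ^ 3) :=
        mul_le_mul_of_nonneg_left (mul_le_mul_of_nonneg_left (sum_inv_lcm H) hF0) hF0
    _ = _ := by ring

/-- a function supported on one residue class -/
theorem sum_class_le {Q m : ℕ} (hm : 1 ≤ m) (hmQ : m ≤ Q) (t : ℤ) (f : ℕ → ℝ)
    (hf : ∀ q, |f q| ≤ 1) (hs : ∀ q : ℕ, f q ≠ 0 → (q : ℤ) ≡ t [ZMOD m]) :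
    |∑ q ∈ Icc 1 Q, f q| ≤ 2 * Q / m := by
  have hm0 : (0 : ℝ) < m := by exact_mod_cast hm
  set T := (Icc 1 Q).filter fun q : ℕ => f q ≠ 0 with hT
  have h1 : T.card ≤ (range (Q / m + 1)).card := by
    refine card_le_card_of_injOn (· / m) (fun q hq => ?_) (fun q hq q' hq' h => ?_)
    · have := (mem_Icc.1 (mem_filter.1 hq).1).2
      exact mem_coe.2 (mem_range.2 (Nat.lt_succ_of_le (Nat.div_le_div_right this)))
    · have h2 : (q : ℤ) ≡ q' [ZMOD m] :=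
        (hs q (mem_filter.1 hq).2).trans (hs q' (mem_filter.1 hq').2).symm
      have h3 : q % m = q' % m := Int.natCast_modEq_iff.1 h2
      have h4 : q / m = q' / m := h
      rw [← Nat.div_add_mod q m, ← Nat.div_add_mod q' m, h3, h4]
  rw [card_range] at h1
  have h2 : ((Q / m + 1 : ℕ) : ℝ) ≤ 2 * Q / m := by
    have h3 : ((Q / m : ℕ) : ℝ) ≤ Q / m := Nat.cast_div_le
    have h4 : (1 : ℝ) ≤ Q / m := (one_le_div hm0).2 (by exact_mod_cast hmQ)
    push_cast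
    rw [mul_div_assoc]
    linarith
  calc _ = |∑ q ∈ T, f q| := by rw [hT, sum_filter_ne_zero]
    _ ≤ ∑ q ∈ T, |f q| := abs_sum_le_sum_abs _ _
    _ ≤ ∑ _q ∈ T, (1 : ℝ) := sum_le_sum fun q _ => hf q
    _ = T.card := by simp
    _ ≤ _ := le_trans (by exact_mod_cast h1) h2

/-- a common solution of two congruences -/
theorem exists_rho (ρ₁ ρ₂ : ℤ) {a b D : ℕ} (ha : a ∣ D) (hb : b ∣ D) : ∃ ρ : ℤ → ℤ,
    (∀ r r', r ≡ r' [ZMOD D] → ρ r = ρ r') ∧ ∀ r q : ℤ, q ≡ ρ₁ * r [ZMOD a] →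
      q ≡ ρ₂ * r [ZMOD b] → q ≡ ρ r [ZMOD (Nat.lcm a b : ℕ)] := by
  refine ⟨fun r => Classical.epsilon fun q => q ≡ ρ₁ * (r % D) [ZMOD a] ∧
    q ≡ ρ₂ * (r % D) [ZMOD b], fun r r' h => ?_, fun r q h1 h2 => ?_⟩
  · have h' : r % D = r' % D := h
    simp only [h']
  · have hD : r ≡ r % D [ZMOD D] := (Int.mod_modEq r D).symm
    have h3 : q ≡ ρ₁ * (r % D) [ZMOD a] :=
      h1.trans ((hD.of_dvd (Int.natCast_dvd_natCast.2 ha)).mul_left _)
    have h4 : q ≡ ρ₂ * (r % D) [ZMOD b] :=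
      h2.trans ((hD.of_dvd (Int.natCast_dvd_natCast.2 hb)).mul_left _)
    have h5 := Classical.epsilon_spec (p := fun q => q ≡ ρ₁ * (r % D) [ZMOD a] ∧
      q ≡ ρ₂ * (r % D) [ZMOD b]) ⟨q, h3, h4⟩
    have h6 := (h3.trans h5.1.symm).dvd
    have h7 := (h4.trans h5.2.symm).dvd
    refine Int.modEq_iff_dvd.2 ?_
    exact Int.natCast_dvd.2 (Nat.lcm_dvd (Int.natCast_dvd.1 h6) (Int.natCast_dvd.1 h7))

theorem abs_jac (a : ℤ) (s : ℕ) : |(jacobiSym a s : ℝ)| ≤ 1 := by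
  rcases jacobiSym.trichotomy a s with h | h | h <;> simp [h]

theorem abs_mul_le {x y : ℝ} (hx : |x| ≤ 1) (hy : |y| ≤ 1) : |x * y| ≤ 1 := by
  rw [abs_mul]; exact mul_le_one₀ hx (abs_nonneg _) hy

theorem abs_prod_le {k : ℕ} (f : Fin k → ℝ) (hf : ∀ i, |f i| ≤ 1) : |∏ i, f i| ≤ 1 := by
  rw [abs_prod]; exact prod_le_one (fun _ _ => abs_nonneg _) fun i _ => hf i

theorem per_mul {f : ℤ → ℝ} {d : ℤ} (h : ∀ q, f (q + d) = f q) (e : ℕ) (q : ℤ) :
    f (q + d * e) = f q := by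
  induction e with
  | zero => simp
  | succ e ih => rw [Nat.cast_succ, mul_add, mul_one, ← add_assoc, h, ih]

/-- the mean part is small on average -/
theorem mean_le {Y Y' N : ℕ} {δ : ℝ} (hY : 2 ≤ Y)
    (hdo : ∀ b : ℕ → ℝ, (∀ n, |b n| ≤ 1) → (∀ n, b n ≠ 0 → Odd n) →
      ∑ m ∈ Ioc N (2 * N), (1 : ℝ) / m * |∑ n ∈ Ioc Y Y', b n * jacobiSym m n / n| ≤ δ)
    (P : Finset ℕ) (hP : ∀ s ∈ P, s.Prime ∧ Y < s ∧ s ≤ Y') (σ : ℕ → ℤ)
    (hσ : ∀ n, σ n = 1 ∨ σ n = -1) (K G : ℤ) (ν e : ℕ) :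
    ∑ n ∈ Ioc N (2 * N), |∑ s ∈ P.filter (fun s => ¬s ∣ n * ν * e),
      (jacobiSym (σ n * n * K) s : ℝ) * jacobiSym G s / s| ≤ 4 * N * δ := by
  classical
  set b : ℤ → ℕ → ℝ := fun ε s =>
    if s ∈ P ∧ ¬s ∣ ν * e then (jacobiSym (ε * K) s : ℝ) * jacobiSym G s else 0 with hb
  have hb1 : ∀ ε n, |b ε n| ≤ 1 := fun ε n => by
    simp only [hb]
    split_ifs
    · exact abs_mul_le (abs_jac _ _) (abs_jac _ _)
    · simp
  have hb2 : ∀ ε n, b ε n ≠ 0 → Odd n := fun ε n h => by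
    have h1 : n ∈ P := by
      by_contra h1
      exact h (by simp [hb, h1])
    exact (hP n h1).1.odd_of_ne_two (by have := (hP n h1).2.1; omega)
  set μ : ℤ → ℕ → ℝ := fun ε m => ∑ n ∈ Ioc Y Y', b ε n * jacobiSym m n / n with hμ
  have h1 : ∀ n : ℕ, ∑ s ∈ P.filter (fun s => ¬s ∣ n * ν * e),
      (jacobiSym (σ n * n * K) s : ℝ) * jacobiSym G s / s = μ (σ n) n := by
    intro n
    have hsub : P ⊆ Ioc Y Y' := fun s hs => mem_Ioc.2 (hP s hs).2
    rw [sum_filter, hμ]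
    simp only
    rw [← sum_subset hsub fun s _ hs => by simp [hb, hs]]
    refine sum_congr rfl fun s hs => ?_
    have hp := (hP s hs).1
    by_cases h : s ∣ n
    · have h0 : jacobiSym (n : ℤ) s = 0 := by
        have : NeZero s := ⟨hp.ne_zero⟩
        rw [jacobiSym.eq_zero_iff_not_coprime, Int.gcd_natCast_natCast]
        intro hg
        exact hp.one_lt.ne' (Nat.eq_one_of_dvd_coprimes hg h dvd_rfl)
      rw [if_neg (not_not.2 ((h.mul_right _).mul_right _)), h0]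
      simp
    · have h2 : s ∣ n * ν * e ↔ s ∣ ν * e := by
        rw [mul_assoc, hp.dvd_mul]
        exact ⟨fun h3 => h3.resolve_left h, Or.inr⟩
      have h3 : jacobiSym (σ n * n * K) s = jacobiSym (σ n * K) s * jacobiSym n s := by
        rw [← jacobiSym.mul_left, mul_right_comm]
      simp only [hb, hs, true_and, h2, h3]
      split_ifs
      · simp
      · push_cast; ring
  have h2 : ∀ n ∈ Ioc N (2 * N), |μ (σ n) n| ≤
      2 * N * (1 / (n : ℝ) * |μ 1 n| + 1 / (n : ℝ) * |μ (-1) n|) := by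
    intro n hn
    rw [mem_Ioc] at hn
    have hn0 : (0 : ℝ) < n := by exact_mod_cast (Nat.zero_le N).trans_lt hn.1
    have h3 : (1 : ℝ) ≤ 2 * N * (1 / n) := by
      rw [mul_one_div, one_le_div hn0]
      exact_mod_cast hn.2
    have h4 : |μ (σ n) n| ≤ |μ 1 n| + |μ (-1) n| := by
      have := abs_nonneg (μ 1 n)
      have := abs_nonneg (μ (-1) n)
      rcases hσ n with h | h <;> rw [h] <;> linarith
    calc _ ≤ 1 * (|μ 1 n| + |μ (-1) n|) := by rwa [one_mul]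
      _ ≤ 2 * N * (1 / n) * (|μ 1 n| + |μ (-1) n|) :=
          mul_le_mul_of_nonneg_right h3 (by positivity)
      _ = _ := by ring
  simp_rw [h1]
  refine (sum_le_sum h2).trans ?_
  rw [← mul_sum, sum_add_distrib]
  have h3 := hdo (b 1) (hb1 1) (hb2 1)
  have h4 := hdo (b (-1)) (hb1 (-1)) (hb2 (-1))
  calc _ ≤ 2 * N * (δ + δ) := mul_le_mul_of_nonneg_left (add_le_add h3 h4) (by positivity)
    _ = _ := by ring

/-- the conclusion of `PAIRStmt` at one scale -/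
def PairAt (k Y : ℕ) : Prop := ∀ (Y' R Q D m : ℕ) (P : Finset ℕ) (c : ℕ → ℝ)
  (A B : Fin 10 → ℤ) (ψ : Fin 10 → ℤ → ℝ) (Per : ℤ → ℝ) (ρ : ℤ → ℤ), Y ≤ Y' → Y' ≤ Y ^ k →
  Y' ^ 5000 ≤ R → Y' ^ 5000 ≤ Q → Q ≤ Y' ^ 30000 → 1 ≤ D → D ≤ Y' ^ 32 → m ∣ D →
  (∀ s ∈ P, s.Prime ∧ Y < s ∧ s ≤ Y' ∧ ¬s ∣ D ∧ ∀ i, ¬(s : ℤ) ∣ A i) → (∀ s, |c s| ≤ 1) →
  (∀ i, |A i| ≤ (Y' : ℤ) ^ 12 ∧ |B i| ≤ (Y' : ℤ) ^ 12) → (∀ i x, |ψ i x| ≤ 1) →
  (∀ q, |Per q| ≤ 1) → (∀ q, Per (q + D) = Per q) → (∀ r r', r ≡ r' [ZMOD D] → ρ r = ρ r') →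
  (∀ r q : ℤ, (∀ i, ψ i (A i * r + B i * q) ≠ 0) → q ≡ ρ r [ZMOD m]) →
  |∑ r ∈ Icc 1 R, ∑ q ∈ Icc 1 Q, Per q * (∏ i, ψ i (A i * r + B i * q)) * kc P c q| ≤
    R * Q / m * (Y : ℝ) ^ (-(1 / 2100) : ℝ)

/-- the data attached to one inner variable -/
structure Inn (Y' N : ℕ) (α β : Fin 5 → ℤ) (n ν : ℕ) (Per : ℤ → ℝ) (ψ : Fin 5 → ℤ → ℝ) :
    Prop where
  n1 : 1 ≤ n
  n2 : n ≤ 2 * N
  ν1 : 1 ≤ ν
  ν2 : ν ≤ Y' ^ 12
  bP : ∀ q, |Per q| ≤ 1
  bψ : ∀ i x, |ψ i x| ≤ 1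
  per : ∀ q, Per (q + n * ν) = Per q
  cop : ∀ q, Per q ≠ 0 → IsCoprime q (n * ν)
  cls : ∃ ρ : ℤ, ∀ r q : ℤ, (∀ i, ψ i (α i * n * r + β i * q) ≠ 0) → q ≡ ρ * r [ZMOD ν]

theorem Inn.le_pow {Y' N : ℕ} {α β : Fin 5 → ℤ} {n ν : ℕ} {Per : ℤ → ℝ} {ψ : Fin 5 → ℤ → ℝ}
    (h : Inn Y' N α β n ν Per ψ) (h2 : 2 ≤ Y') (hN : N ≤ Y' ^ 3) : n ≤ Y' ^ 4 :=
  h.n2.trans (by rw [pow_succ']; exact Nat.mul_le_mul h2 hN)

/-- one pair of inner variables -/
theorem pair_le {k Y Y' R Q N : ℕ} (hpair : PairAt k Y) (hY : 2 ≤ Y) (hYY : Y ≤ Y')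
    (hk : Y' ≤ Y ^ k) (hR : Y' ^ 5000 ≤ R) (hQ : Y' ^ 5000 ≤ Q) (hQ' : Q ≤ Y' ^ 30000)
    (hN : N ≤ Y' ^ 3) {P : Finset ℕ} {α β : Fin 5 → ℤ}
    (hP : ∀ s ∈ P, s.Prime ∧ Y < s ∧ s ≤ Y' ∧ ∀ i, ¬(s : ℤ) ∣ α i)
    (hα : ∀ i, |α i| ≤ (Y' : ℤ) ^ 8 ∧ |β i| ≤ (Y' : ℤ) ^ 8) {n ν n' ν' : ℕ} {Per Per' : ℤ → ℝ}
    {ψ ψ' : Fin 5 → ℤ → ℝ} (h : Inn Y' N α β n ν Per ψ) (h' : Inn Y' N α β n' ν' Per' ψ')
    (c : ℕ → ℝ) (hc : ∀ s, |c s| ≤ 1) :
    |∑ r ∈ Icc 1 R, ∑ q ∈ Icc 1 Q, ∑ s ∈ P.filter (· ∣ q),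
      c s * ((Per q * ∏ i, ψ i (α i * n * r + β i * q)) *
        (Per' q * ∏ i, ψ' i (α i * n' * r + β i * q)))| ≤
      R * Q * (1 / (Nat.lcm ν ν' : ℕ) * ((Y : ℝ) ^ (-(1 / 2100) : ℝ) +
        2 * |∑ s ∈ P.filter (fun s => ¬s ∣ n * ν * (n' * ν')), c s / s|)) := by
  have h2 : 2 ≤ Y' := hY.trans hYY
  have hn := h.le_pow h2 hN
  have hn' := h'.le_pow h2 hN
  set D := n * ν * (n' * ν') with hD
  set m := Nat.lcm ν ν' with hm
  set PD := P.filter (fun s => ¬s ∣ D) with hPD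
  set μ := ∑ s ∈ PD, c s / s with hμ
  have hνD : ν ∣ D := (Dvd.intro_left n rfl).mul_right _
  have hνD' : ν' ∣ D := (Dvd.intro_left n' rfl).mul_left _
  have hD1 : 1 ≤ D := Nat.mul_pos (Nat.mul_pos h.n1 h.ν1) (Nat.mul_pos h'.n1 h'.ν1)
  have hD2 : D ≤ Y' ^ 32 := by
    calc D ≤ Y' ^ 4 * Y' ^ 12 * (Y' ^ 4 * Y' ^ 12) :=
          Nat.mul_le_mul (Nat.mul_le_mul hn h.ν2) (Nat.mul_le_mul hn' h'.ν2)
      _ = Y' ^ 32 := by ring
  have hmD : m ∣ D := Nat.lcm_dvd hνD hνD'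
  have hm1 : 1 ≤ m := Nat.lcm_pos h.ν1 h'.ν1
  have hmQ : m ≤ Q := (Nat.le_of_dvd hD1 hmD).trans
    (hD2.trans ((Nat.pow_le_pow_right (by omega) (by norm_num)).trans hQ))
  obtain ⟨ρ₁, hρ₁⟩ := h.cls
  obtain ⟨ρ₂, hρ₂⟩ := h'.cls
  obtain ⟨ρ, hρ, hρ'⟩ := exists_rho ρ₁ ρ₂ hνD hνD'
  set Φ : ℕ → ℕ → ℝ := fun r q => (Per q * ∏ i, ψ i (α i * n * r + β i * q)) *
    (Per' q * ∏ i, ψ' i (α i * n' * r + β i * q)) with hΦ
  have hΦ1 : ∀ r q, |Φ r q| ≤ 1 := fun r q =>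
    abs_mul_le (abs_mul_le (h.bP _) (abs_prod_le _ fun i => h.bψ i _))
      (abs_mul_le (h'.bP _) (abs_prod_le _ fun i => h'.bψ i _))
  have hsplit : ∀ r q : ℕ, ∑ s ∈ P.filter (· ∣ q), c s * Φ r q = Φ r q * kc PD c q + Φ r q * μ := by
    intro r q
    by_cases h0 : Φ r q = 0
    · simp [h0]
    have hc1 := h.cop q (left_ne_zero_of_mul (left_ne_zero_of_mul h0))
    have hc2 := h'.cop q (left_ne_zero_of_mul (right_ne_zero_of_mul h0))
    have hcD : Nat.Coprime q D := by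
      rw [← Nat.isCoprime_iff_coprime, hD]
      push_cast
      exact hc1.mul_right hc2
    have e1 : P.filter (· ∣ q) = PD.filter (· ∣ q) := by
      ext s
      simp only [hPD, mem_filter]
      exact ⟨fun hs => ⟨⟨hs.1, fun hd => (hP s hs.1).1.one_lt.ne'
        (Nat.eq_one_of_dvd_coprimes hcD hs.2 hd)⟩, hs.2⟩, fun hs => ⟨hs.1.1, hs.2⟩⟩
    rw [← mul_add, ← sum_mul, mul_comm, e1, sum_filter, kc, hμ, ← sum_add_distrib]
    congr 1
    refine sum_congr rfl fun s _ => ?_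
    simp only [Int.natCast_dvd_natCast]
    split_ifs <;> ring
  have hA : |∑ r ∈ Icc 1 R, ∑ q ∈ Icc 1 Q, Φ r q * kc PD c q| ≤
      R * Q / m * (Y : ℝ) ^ (-(1 / 2100) : ℝ) := by
    have hY1 : (1 : ℤ) ≤ Y' := by exact_mod_cast (by omega : 1 ≤ Y')
    have hb : ∀ (i : Fin 5) (t : ℕ), t ≤ Y' ^ 4 → |α i * t| ≤ (Y' : ℤ) ^ 12 := fun i t ht => by
      rw [abs_mul, Nat.abs_cast]
      calc _ ≤ (Y' : ℤ) ^ 8 * Y' ^ 4 :=
            mul_le_mul (hα i).1 (by exact_mod_cast ht) (by positivity) (by positivity)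
        _ = _ := by ring
    have hb' : ∀ i : Fin 5, |β i| ≤ (Y' : ℤ) ^ 12 := fun i =>
      (hα i).2.trans (pow_le_pow_right₀ hY1 (by norm_num))
    have hnd : ∀ s ∈ PD, ∀ (i : Fin 5) (t : ℕ), t ∣ D → ¬(s : ℤ) ∣ α i * t := by
      intro s hs i t ht hd
      obtain ⟨hs1, hs2⟩ := mem_filter.1 hs
      rcases (Nat.prime_iff_prime_int.1 (hP s hs1).1).dvd_or_dvd hd with h3 | h3
      · exact (hP s hs1).2.2.2 i h3
      · exact hs2 ((Int.natCast_dvd_natCast.1 h3).trans ht)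
    have key := hpair Y' R Q D m PD c
      (Fin.append (m := 5) (n := 5) (fun i => α i * n) fun i => α i * n')
      (Fin.append (m := 5) (n := 5) β β) (Fin.append (m := 5) (n := 5) ψ ψ')
      (fun q => Per q * Per' q) ρ hYY hk hR hQ hQ' hD1 hD2 hmD
      (fun s hs => ⟨(hP s (mem_filter.1 hs).1).1, (hP s (mem_filter.1 hs).1).2.1,
        (hP s (mem_filter.1 hs).1).2.2.1, (mem_filter.1 hs).2, fun i => by
          refine Fin.addCases (m := 5) (n := 5) (fun i => ?_) (fun i => ?_) i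
          · rw [Fin.append_left]
            exact hnd s hs i n ((Dvd.intro _ rfl).mul_right _)
          · rw [Fin.append_right]
            exact hnd s hs i n' ((Dvd.intro _ rfl).mul_left _)⟩) hc
      (fun i => by
        refine Fin.addCases (m := 5) (n := 5) (fun i => ?_) (fun i => ?_) i
        · rw [Fin.append_left, Fin.append_left]
          exact ⟨hb i n hn, hb' i⟩
        · rw [Fin.append_right, Fin.append_right]
          exact ⟨hb i n' hn', hb' i⟩)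
      (fun i x => by
        refine Fin.addCases (m := 5) (n := 5) (fun i => ?_) (fun i => ?_) i
        · rw [Fin.append_left]
          exact h.bψ i x
        · rw [Fin.append_right]
          exact h'.bψ i x)
      (fun q => abs_mul_le (h.bP q) (h'.bP q))
      (fun q => by
        have e1 : Per (q + D) = Per q := by
          rw [← per_mul h.per (n' * ν') q, hD]; push_cast; rfl
        have e2 : Per' (q + D) = Per' q := by
          rw [← per_mul h'.per (n * ν) q, hD]; push_cast; rw [mul_comm]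
        simp only [e1, e2]) hρ
      (fun r q hne => hρ' r q
        (hρ₁ r q fun i => by
          have := hne (Fin.castAdd 5 i)
          rwa [Fin.append_left, Fin.append_left, Fin.append_left] at this)
        (hρ₂ r q fun i => by
          have := hne (Fin.natAdd 5 i)
          rwa [Fin.append_right, Fin.append_right, Fin.append_right] at this))
    refine le_trans (le_of_eq ?_) key
    congr 1
    refine sum_congr rfl fun r _ => sum_congr rfl fun q _ => ?_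
    congr 1
    rw [Fin.prod_univ_add (a := 5) (b := 5)]
    simp only [Fin.append_left, Fin.append_right, hΦ]
    ring
  have hB : |∑ r ∈ Icc 1 R, ∑ q ∈ Icc 1 Q, Φ r q| ≤ R * (2 * Q / m) := by
    refine (abs_sum_le_sum_abs _ _).trans ?_
    refine (sum_le_sum (g := fun _ => (2 * Q / m : ℝ)) fun r _ => ?_).trans (by simp)
    refine sum_class_le hm1 hmQ (ρ r) _ (hΦ1 r) fun q h0 => hρ' r q (hρ₁ r q fun i => ?_)
      (hρ₂ r q fun i => ?_)
    · exact prod_ne_zero_iff.1 (right_ne_zero_of_mul (left_ne_zero_of_mul h0)) i (mem_univ i)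
    · exact prod_ne_zero_iff.1 (right_ne_zero_of_mul (right_ne_zero_of_mul h0)) i (mem_univ i)
  change |∑ r ∈ Icc 1 R, ∑ q ∈ Icc 1 Q, ∑ s ∈ P.filter (· ∣ q), c s * Φ r q| ≤ _
  simp_rw [hsplit, sum_add_distrib, ← sum_mul]
  refine (abs_add_le _ _).trans ?_
  rw [abs_mul]
  refine (add_le_add hA (mul_le_mul_of_nonneg_right hB (abs_nonneg _))).trans (le_of_eq ?_)
  ring

/-- the Cauchy-Schwarz inequality in the outer variables -/
theorem cs_le {R Q L : ℕ} (T : ℕ → Finset ℕ) (hT : ∀ q ∈ Icc 1 Q, (T q).card ≤ L)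
    (A I : ℕ → ℕ → ℕ → ℝ) (hA : ∀ r q s, |A r q s| ≤ 1) :
    (∑ r ∈ Icc 1 R, ∑ q ∈ Icc 1 Q, ∑ s ∈ T q, A r q s * I r q s) ^ 2 ≤
      R * Q * L * ∑ r ∈ Icc 1 R, ∑ q ∈ Icc 1 Q, ∑ s ∈ T q, I r q s ^ 2 := by
  have h1 : ∀ r, ∀ q ∈ Icc 1 Q, (∑ s ∈ T q, A r q s * I r q s) ^ 2 ≤ L * ∑ s ∈ T q, I r q s ^ 2 := by
    intro r q hq
    refine sq_sum_le_card_mul_sum_sq.trans (mul_le_mul (by exact_mod_cast hT q hq)
      (sum_le_sum fun s _ => ?_) (sum_nonneg fun _ _ => sq_nonneg _) (Nat.cast_nonneg _))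
    rw [mul_pow]
    exact mul_le_of_le_one_left (sq_nonneg _) ((sq_le_one_iff_abs_le_one _).2 (hA r q s))
  have h2 : ∀ r, (∑ q ∈ Icc 1 Q, ∑ s ∈ T q, A r q s * I r q s) ^ 2 ≤
      Q * (L * ∑ q ∈ Icc 1 Q, ∑ s ∈ T q, I r q s ^ 2) := by
    intro r
    refine sq_sum_le_card_mul_sum_sq.trans ?_
    rw [Nat.card_Icc, Nat.add_sub_cancel, mul_sum _ _ (L : ℝ)]
    exact mul_le_mul_of_nonneg_left (sum_le_sum (h1 r)) (Nat.cast_nonneg _)
  refine sq_sum_le_card_mul_sum_sq.trans ?_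
  rw [Nat.card_Icc, Nat.add_sub_cancel, mul_assoc, mul_assoc, mul_sum _ _ (L : ℝ),
    mul_sum _ _ (Q : ℝ)]
  exact mul_le_mul_of_nonneg_left (sum_le_sum fun r _ => h2 r) (Nat.cast_nonneg _)

theorem expand {ι : Type} (X Z : Finset ℕ) (T : ℕ → Finset ℕ) (U : Finset ι)
    (a : ι → ℕ → ℕ → ℕ → ℝ) :
    ∑ r ∈ X, ∑ q ∈ Z, ∑ s ∈ T q, (∑ u ∈ U, a u r q s) ^ 2 =
      ∑ u ∈ U, ∑ u' ∈ U, ∑ r ∈ X, ∑ q ∈ Z, ∑ s ∈ T q, a u r q s * a u' r q s := by
  simp_rw [sq, sum_mul_sum]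
  symm
  simp_rw [sum_comm (s := U) (t := X), sum_comm (s := U) (t := Z)]
  refine sum_congr rfl fun r _ => sum_congr rfl fun q _ => ?_
  simp_rw [sum_comm (s := U) (t := T q)]

/-- the final inequality between the scales -/
theorem scales (k F C : ℕ) : ∀ᶠ Y : ℕ in atTop, ∀ Y' N : ℕ, Y ≤ Y' → Y' ≤ Y ^ k → Y ≤ 2 * N →
    N ≤ Y' ^ 3 → ((30000 * k : ℕ) : ℝ) * (F ^ 2 * (1 + Real.log (Y' ^ 12 : ℕ)) ^ 3) *
      ((Y : ℝ) ^ (-(1 / 2100) : ℝ) + 8 * (C * (1 + Real.log (2 * N : ℕ) + Real.log Y') ^ C *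
        ((min N Y : ℕ) : ℝ) ^ (-(1 / 8) : ℝ))) ≤ ((Y : ℝ) ^ (-(1 / 5000) : ℝ)) ^ 2 := by
  set c : ℝ := 30000 * k * (F ^ 2 * (1 + 12 * k) ^ 3) * (1 + 8 * (C * (1 + 5 * k) ^ C)) + 1 with hc
  have hc0 : 0 < c := by positivity
  have h0 := (isLittleO_log_rpow_rpow_atTop ((C + 3 : ℕ) : ℝ)
    (show (0 : ℝ) < 1 / 2100 - 1 / 2500 by norm_num)).def (inv_pos.2 hc0)
  filter_upwards [tendsto_natCast_atTop_atTop.eventually h0, eventually_ge_atTop 4]
    with Y h1 h4 Y' N hYY hk hN hN'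
  have hY0 : (0 : ℝ) < Y := by exact_mod_cast (by omega : 0 < Y)
  have hY4 : (4 : ℝ) ≤ Y := by exact_mod_cast h4
  set l := Real.log Y with hl
  have hl1 : 1 ≤ l := by
    rw [hl, Real.le_log_iff_exp_le hY0]
    have := Real.exp_one_lt_d9
    linarith
  rw [Real.rpow_natCast, Real.norm_of_nonneg (by positivity), Real.norm_of_nonneg (by positivity)]
    at h1
  have hY' : (0 : ℝ) < Y' := by exact_mod_cast (by omega : 0 < Y')
  have a1 : Real.log Y' ≤ k * l := by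
    rw [hl, ← Real.log_pow]
    exact Real.log_le_log hY' (by exact_mod_cast hk)
  have a0 : 0 ≤ Real.log Y' := Real.log_natCast_nonneg _
  have a2 : 1 + Real.log (Y' ^ 12 : ℕ) ≤ (1 + 12 * k) * l := by
    push_cast
    rw [Real.log_pow]
    push_cast
    linarith
  have a3 : 1 + Real.log (2 * N : ℕ) + Real.log Y' ≤ (1 + 5 * k) * l := by
    have : Real.log (2 * N : ℕ) ≤ 4 * Real.log Y' := by
      have e : (4 : ℝ) * Real.log Y' = Real.log ((Y' ^ 4 : ℕ) : ℝ) := by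
        push_cast; rw [Real.log_pow]; norm_num
      rw [e]
      refine Real.log_le_log (by exact_mod_cast (by omega : 0 < 2 * N)) ?_
      exact_mod_cast (by rw [pow_succ']; exact Nat.mul_le_mul (by omega) hN' : 2 * N ≤ Y' ^ 4)
    linarith
  set η := (Y : ℝ) ^ (-(1 / 2100) : ℝ) with hη
  have hη0 : 0 ≤ η := by positivity
  have a4 : ((min N Y : ℕ) : ℝ) ^ (-(1 / 8) : ℝ) ≤ η := by
    have b1 : (Y : ℝ) ^ (1 / 2 : ℝ) ≤ ((min N Y : ℕ) : ℝ) := by
      rw [← Real.sqrt_eq_rpow, Real.sqrt_le_left (by positivity)]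
      have b2 : Y ≤ 2 * min N Y := by omega
      have b3 : (Y : ℝ) ≤ 2 * ((min N Y : ℕ) : ℝ) := by exact_mod_cast b2
      nlinarith
    calc _ ≤ ((Y : ℝ) ^ (1 / 2 : ℝ)) ^ (-(1 / 8) : ℝ) :=
          Real.rpow_le_rpow_of_nonpos (by positivity) b1 (by norm_num)
      _ = (Y : ℝ) ^ ((1 / 2 : ℝ) * -(1 / 8)) := (Real.rpow_mul hY0.le _ _).symm
      _ ≤ η := Real.rpow_le_rpow_of_exponent_le (by linarith) (by norm_num)
  have a5 : 0 ≤ 1 + Real.log (Y' ^ 12 : ℕ) := by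
    have := Real.log_natCast_nonneg (Y' ^ 12); linarith
  have a6 : 0 ≤ 1 + Real.log (2 * N : ℕ) + Real.log Y' := by
    have := Real.log_natCast_nonneg (2 * N); linarith
  have a7 : η ≤ l ^ C * η := le_mul_of_one_le_left hη0 (one_le_pow₀ hl1)
  have a8 : ((Y : ℝ) ^ (-(1 / 5000) : ℝ)) ^ 2 = (Y : ℝ) ^ (1 / 2100 - 1 / 2500 : ℝ) * η := by
    rw [hη, ← Real.rpow_add hY0, ← Real.rpow_natCast, ← Real.rpow_mul hY0.le]
    norm_num
  have a9 : c * l ^ (C + 3) ≤ (Y : ℝ) ^ (1 / 2100 - 1 / 2500 : ℝ) := by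
    rwa [inv_mul_eq_div, le_div_iff₀' hc0] at h1
  calc _ ≤ ((30000 * k : ℕ) : ℝ) * (F ^ 2 * ((1 + 12 * k) * l) ^ 3) *
        (l ^ C * η + 8 * (C * ((1 + 5 * k) * l) ^ C * η)) := by gcongr
    _ = (c - 1) * l ^ (C + 3) * η := by
        rw [hc, mul_pow, mul_pow]; push_cast; ring
    _ ≤ c * l ^ (C + 3) * η := by gcongr; linarith
    _ ≤ _ := by rw [a8]; exact mul_le_mul_of_nonneg_right a9 hη0

end Gg

open Gg in
theorem gg : MERStmt → DOStmt → PAIRStmt → GStmt := by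
  rintro - ⟨C, hdo⟩ hpair k F
  filter_upwards [hpair k, scales k F C, eventually_ge_atTop 2] with Y hp hsc hY Y' R Q N P Ω W ν K
    σ α β A B Per ψ hYY hk hR hQ hQ' hN hN' hP hα hν hF hσ hA hB hPer hψ hper hcop hρ
  have hN1 : 1 ≤ N := by omega
  set η := (Y : ℝ) ^ (-(1 / 2100) : ℝ) with hη
  set δ : ℝ := C * (1 + Real.log (2 * N : ℕ) + Real.log Y') ^ C *
    ((min N Y : ℕ) : ℝ) ^ (-(1 / 8) : ℝ) with hδ
  set Λ : ℝ := F ^ 2 * (1 + Real.log (Y' ^ 12 : ℕ)) ^ 3 with hΛ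
  have hη0 : 0 ≤ η := by positivity
  have hδ0 : 0 ≤ δ := by
    have := Real.log_natCast_nonneg (2 * N)
    have := Real.log_natCast_nonneg Y'
    positivity
  set a : ℕ × Ω → ℕ → ℕ → ℕ → ℝ := fun u r q s =>
    B u.1 u.2 * jacobiSym (σ u.1 u.2 * u.1 * K u.2) s * Per u.1 u.2 q *
      ∏ i, ψ u.1 u.2 i (α i * u.1 * r + β i * q) with ha
  set μ : ℕ → Ω → ℕ → Ω → ℝ := fun n ω n' ω' =>
    |∑ s ∈ P.filter (fun s => ¬s ∣ n * ν ω * (n' * ν ω')),
      (jacobiSym (σ n ω * n * K ω) s : ℝ) * jacobiSym (σ n' ω' * n' * K ω') s / s| with hμ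
  have hinn : ∀ u ∈ Ioc N (2 * N) ×ˢ W, Inn Y' N α β u.1 (ν u.2) (Per u.1 u.2) (ψ u.1 u.2) := by
    intro u hu
    obtain ⟨h1, h2⟩ := mem_product.1 hu
    rw [mem_Ioc] at h1
    exact ⟨by omega, h1.2, (hν _ h2).1, (hν _ h2).2, hPer _ _, hψ _ _, hper _ _, hcop _ _,
      hρ _ _ h2⟩
  have h1 : ∀ u ∈ Ioc N (2 * N) ×ˢ W, ∀ u' ∈ Ioc N (2 * N) ×ˢ W,
      ∑ r ∈ Icc 1 R, ∑ q ∈ Icc 1 Q, ∑ s ∈ P.filter (· ∣ q), a u r q s * a u' r q s ≤
        R * Q * (1 / (Nat.lcm (ν u.2) (ν u'.2) : ℕ) * (η + 2 * μ u.1 u.2 u'.1 u'.2)) := by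
    intro u hu u' hu'
    have h2 := pair_le hp hY hYY hk hR hQ hQ' hN' hP hα (hinn u hu) (hinn u' hu')
      (fun s => (jacobiSym (σ u.1 u.2 * u.1 * K u.2) s : ℝ) *
        jacobiSym (σ u'.1 u'.2 * u'.1 * K u'.2) s) fun s => abs_mul_le (abs_jac _ _) (abs_jac _ _)
    refine le_trans ?_ h2
    refine le_trans (le_of_eq ?_) ((le_abs_self _).trans ((abs_mul _ _).le.trans
      (mul_le_of_le_one_left (abs_nonneg _) (abs_mul_le (hB u.1 u.2) (hB u'.1 u'.2)))))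
    simp_rw [mul_sum]
    refine sum_congr rfl fun r _ => sum_congr rfl fun q _ => sum_congr rfl fun s _ => ?_
    simp only [ha]
    ring
  have h2 : ∀ ω n' ω', ∑ n ∈ Ioc N (2 * N), μ n ω n' ω' ≤ 4 * N * δ := fun ω n' ω' =>
    mean_le hY (fun b hb hb' => hdo N (2 * N) Y Y' b hN1 (by omega) hb hb') P
      (fun s hs => ⟨(hP s hs).1, (hP s hs).2.1, (hP s hs).2.2.1⟩) (fun n => σ n ω)
      (fun n => hσ n ω) _ _ _ _
  have hcard : ((Ioc N (2 * N)).card : ℝ) = N := by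
    rw [Nat.card_Ioc, two_mul, Nat.add_sub_cancel]
  have h3 : ∑ u ∈ Ioc N (2 * N) ×ˢ W, ∑ u' ∈ Ioc N (2 * N) ×ˢ W,
      (1 / (Nat.lcm (ν u.2) (ν u'.2) : ℕ) * (η + 2 * μ u.1 u.2 u'.1 u'.2)) ≤
      Λ * (N ^ 2 * (η + 8 * δ)) := by
    calc _ = ∑ ω ∈ W, ∑ ω' ∈ W, (1 : ℝ) / (Nat.lcm (ν ω) (ν ω') : ℕ) *
          ∑ n' ∈ Ioc N (2 * N), ∑ n ∈ Ioc N (2 * N), (η + 2 * μ n ω n' ω') := by
          simp_rw [sum_product_right, mul_sum]
          refine sum_congr rfl fun ω _ => ?_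
          rw [sum_comm]
          exact sum_congr rfl fun ω' _ => sum_comm
      _ ≤ ∑ ω ∈ W, ∑ ω' ∈ W, (1 : ℝ) / (Nat.lcm (ν ω) (ν ω') : ℕ) * (N ^ 2 * (η + 8 * δ)) := by
          refine sum_le_sum fun ω _ => sum_le_sum fun ω' _ =>
            mul_le_mul_of_nonneg_left ?_ (by positivity)
          refine (sum_le_sum (g := fun _ => N * (η + 8 * δ)) fun n' _ => ?_).trans (le_of_eq ?_)
          · rw [sum_add_distrib, ← mul_sum, sum_const, nsmul_eq_mul, hcard]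
            have := h2 ω n' ω'
            linarith
          · rw [sum_const, nsmul_eq_mul, hcard]; ring
      _ = (∑ ω ∈ W, ∑ ω' ∈ W, (1 : ℝ) / (Nat.lcm (ν ω) (ν ω') : ℕ)) * (N ^ 2 * (η + 8 * δ)) := by
          simp_rw [sum_mul]
      _ ≤ _ := mul_le_mul_of_nonneg_right (sum_lcm_le W ν hν hF) (by positivity)
  have h4 := cs_le (R := R) (Q := Q) (L := 30000 * k) (fun q => P.filter (· ∣ q))
    (fun q hq => card_div_le hY (mem_Icc.1 hq).1 ((mem_Icc.1 hq).2.trans (hQ'.trans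
      (pow_le_pow_mul hk 30000))) P
      fun s hs => ⟨(hP s hs).1, (hP s hs).2.1⟩) A
    (fun r q s => ∑ u ∈ Ioc N (2 * N) ×ˢ W, a u r q s) hA
  rw [expand] at h4
  have h5 := sum_le_sum fun u hu => sum_le_sum (h1 u hu)
  simp_rw [← mul_sum] at h5
  have h6 := hsc Y' N hYY hk hN hN'
  have hRQ : (0 : ℝ) ≤ R * Q := by positivity
  refine abs_le_of_sq_le_sq ?_ (by positivity)
  refine le_trans (le_of_eq ?_) (h4.trans ?_)
  · simp only [sum_product, ha]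
  calc _ ≤ R * Q * ((30000 * k : ℕ) : ℝ) * (R * Q * (Λ * (N ^ 2 * (η + 8 * δ)))) :=
        mul_le_mul_of_nonneg_left (h5.trans (mul_le_mul_of_nonneg_left h3 hRQ)) (by positivity)
    _ = (R * Q * N) ^ 2 * (((30000 * k : ℕ) : ℝ) * Λ * (η + 8 * δ)) := by ring
    _ ≤ (R * Q * N) ^ 2 * ((Y : ℝ) ^ (-(1 / 5000) : ℝ)) ^ 2 :=
        mul_le_mul_of_nonneg_left h6 (by positivity)
    _ = _ := by ring

end Pool.Agent.MP_a43263_nt.R2

end
end MrgPart0

-- ======== part 1: formerly Pool.Agent.MP_a43263_nt.R2.Kc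
section MrgPart1

/-! PROJECT RANK2, module KC: rows of the descent matrix as Jacobi symbols. -/

set_option autoImplicit false

noncomputable section

namespace Pool.Agent.MP_a43263_nt.R2

open Finset

namespace KC

theorem cls_six : cls 6 = 0 := rfl

theorem jac_prod {ι : Type} (x : Finset ι) (f : ι → ℤ) (n : ℕ) :
    ∏ a ∈ x, jacobiSym (f a) n = jacobiSym (∏ a ∈ x, f a) n := by
  classical
  induction x using Finset.induction_on with
  | empty => simp [jacobiSym.one_left]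
  | insert a x ha ih => rw [prod_insert ha, prod_insert ha, jacobiSym.mul_left, ih]

theorem val_prime {a : Gen} (h : a.2.Prime) : val a = a.2 := if_neg h.ne_one

theorem val_natAbs (a : Gen) : (val a).natAbs = a.2 := by
  unfold val
  split_ifs with h
  · simp [h]
  · simp

theorem jac_primes {p q : ℕ} (hp : p.Prime) (hq : q.Prime) (h : p ≠ q) :
    jacobiSym p q = 1 ∨ jacobiSym p q = -1 :=
  jacobiSym.eq_one_or_neg_one (by
    rw [Int.gcd_natCast_natCast]; exact (Nat.coprime_primes hp hq).2 h)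

theorem jac_neg_one {n : ℕ} (h : n % 2 = 1) :
    jacobiSym (-1) n = if n % 4 = 3 then -1 else 1 := by
  rw [jacobiSym.at_neg_one (Nat.odd_iff.2 h)]
  rcases Nat.odd_mod_four_iff.1 h with k | k
  · rw [ZMod.χ₄_nat_one_mod_four k, if_neg (by omega)]
  · rw [ZMod.χ₄_nat_three_mod_four k, if_pos k]

/-- the entry in the row of `-1` -/
theorem tau_eq (c : ℤ) {a : Gen} (h0 : cls a.1 ≠ 0) (h : a.2 % 2 = 1) :
    gp c a (6, 1) = if a.2 % 4 = 3 then -1 else 1 := by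
  have h1 : a ≠ (6, 1) := fun e => h0 (by rw [e]; rfl)
  have h2 : val ((6 : Fin 7), 1) = -1 := rfl
  unfold gp
  rw [if_neg h1, if_neg h0, if_pos cls_six, h2, jac_neg_one h]
  split_ifs <;> simp [sg]

theorem tau_zero (c : ℤ) {a : Gen} (h0 : cls a.1 = 0) : gp c a (6, 1) = 1 := by
  unfold gp
  split_ifs with h1 h2 <;> first | rfl | exact absurd cls_six ‹_›

theorem jac_tau {m n : ℕ} (hn : n % 2 = 1) :
    jacobiSym (if m % 4 = 3 then -1 else 1) n = if m % 4 = 3 ∧ n % 4 = 3 then -1 else 1 := by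
  by_cases h : m % 4 = 3
  · simp [h, jac_neg_one hn]
  · simp [h, jacobiSym.one_left]

theorem recip {p q : ℕ} (hp : p % 2 = 1) (hq : q % 2 = 1) :
    jacobiSym q p = jacobiSym ((if p % 4 = 3 then -1 else 1) * (p : ℤ)) q := by
  rw [jacobiSym.mul_left, jac_tau hq, ← jacobiSym.quadratic_reciprocity_if hq hp]
  by_cases h : p % 4 = 3 ∧ q % 4 = 3
  · rw [if_pos h, if_pos h.symm]; ring
  · rw [if_neg h, if_neg fun k => h k.symm]; ring

/-- one entry of the matrix -/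
theorem entry (c : ℤ) {a b : Gen} (ha : a = (6, 1) ∨ a.2.Prime) (ho : cls a.1 ≠ 0 → a.2 ≠ 2)
    (hb : b.2.Prime) (hb2 : b.2 ≠ 2) (hne : a.2 ≠ b.2) :
    gp c a b = jacobiSym ((if cls b.1 = 2 then 1 else gp c a (6, 1)) *
      if cls a.1 ≠ cls b.1 then val a else 1) b.2 := by
  have hab : a ≠ b := fun e => hne (by rw [e])
  have hb1 : b.2 % 2 = 1 := hb.eq_two_or_odd.resolve_left hb2
  have h3 : ∀ j : Fin 3, j = 0 ∨ j = 1 ∨ j = 2 := by decide
  by_cases h0 : cls a.1 = 0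
  · have hv : jacobiSym (val a) b.2 = 1 ∨ jacobiSym (val a) b.2 = -1 := by
      apply jacobiSym.eq_one_or_neg_one
      rw [Int.gcd, val_natAbs, Int.natAbs_natCast]
      rcases ha with rfl | ha
      · simp
      · exact (Nat.coprime_primes ha hb).2 hne
    rw [tau_zero c h0, ite_self, one_mul]
    unfold gp
    rw [if_neg hab, if_pos h0, h0]
    by_cases k : cls b.1 = 0
    · simp [k, jacobiSym.one_left]
    · rw [if_neg k, if_pos (Ne.symm k), sg_eq hv]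
  · have hp : a.2.Prime := ha.resolve_left fun e => h0 (by rw [e]; rfl)
    have ha1 : a.2 % 2 = 1 := hp.eq_two_or_odd.resolve_left (ho h0)
    have e1 := sg_eq (jac_primes hp hb hne)
    have e2 := sg_eq (jac_primes hb hp hne.symm)
    have e3 := recip ha1 hb1
    have e4 := jac_tau (m := a.2) hb1
    rw [tau_eq c h0 ha1, val_prime hp]
    unfold gp
    rw [if_neg hab, if_neg h0, val_prime hb, e1, e2]
    rcases h3 (cls a.1) with k | k | k
    · exact absurd k h0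
    · rcases h3 (cls b.1) with j | j | j <;> rw [k, j]
      · simpa using e3
      · simpa using e4.symm
      · simp
    · rcases h3 (cls b.1) with j | j | j <;> rw [k, j]
      · simpa using e3
      · simpa using e3
      · simp [jacobiSym.one_left]

/-- a whole row -/
theorem row (c : ℤ) (x : Finset Gen) {b : Gen} (hx : ∀ a ∈ x, (a = (6, 1) ∨ a.2.Prime) ∧
    (cls a.1 ≠ 0 → a.2 ≠ 2) ∧ a.2 ≠ b.2) (hb : b.2.Prime) (hb2 : b.2 ≠ 2) :
    ∏ a ∈ x, gp c a b =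
      jacobiSym ((if cls b.1 = 2 then 1 else ∏ a ∈ x, gp c a (6, 1)) * Gv (cls b.1) x) b.2 := by
  rw [prod_congr rfl fun a ha => entry c (hx a ha).1 (hx a ha).2.1 hb hb2 (hx a ha).2.2, jac_prod,
    prod_mul_distrib, Gv, prod_filter]
  split_ifs <;> simp

theorem part2 (c : ℤ) (V x : Finset Gen) (b : Gen) (hN : Nice (insert b V)) (hb : b ∉ V)
    (h1 : b ≠ (6, 1)) (h2 : b.2 ≠ 2) (hx : x ⊆ V) : ∏ a ∈ x, gp c a b =
      jacobiSym ((if cls b.1 = 2 then 1 else ∏ a ∈ x, gp c a (6, 1)) * Gv (cls b.1) x) b.2 := by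
  refine row c x (fun a ha => ?_) ((hN.pr b (mem_insert_self _ _)).resolve_left h1) h2
  have hm := mem_insert_of_mem (b := b) (hx ha)
  refine ⟨hN.pr a hm, hN.odd a hm, fun e => hb ?_⟩
  rw [← hN.dist a hm b (mem_insert_self _ _) e]
  exact hx ha

theorem Gv_natAbs (j : Fin 3) (x : Finset Gen) :
    (Gv j x).natAbs = ∏ a ∈ x.filter (fun a => cls a.1 ≠ j), a.2 := by
  rw [Gv, ← Int.natAbsHom_apply, map_prod]
  exact prod_congr rfl fun a _ => val_natAbs a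

theorem part3 (V x : Finset Gen) (j : Fin 3) (hN : Nice V) (hx : x ⊆ V) :
    Squarefree (Gv j x).natAbs ∧ (Gv j x = 1 → ∀ a ∈ x, cls a.1 = j) ∧
    (Gv j x ≠ 1 → ¬IsSquare (Gv j x)) ∧
    ∀ p ∈ (Gv j x).natAbs.primeFactors, ∃ a ∈ x, a.2 = p := by
  have hm : ∀ a ∈ x.filter (fun a => cls a.1 ≠ j), a ∈ V := fun a ha => hx (mem_filter.1 ha).1
  have hs : Squarefree (Gv j x).natAbs := by
    rw [Gv_natAbs]
    refine Finset.squarefree_prod_of_pairwise_isCoprime (fun a ha b hb hab => ?_) fun a ha => ?_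
    · refine Nat.coprime_iff_isRelPrime.1 ?_
      rcases hN.pr a (hm a ha) with rfl | k
      · simp
      rcases hN.pr b (hm b hb) with rfl | k'
      · simp
      exact (Nat.coprime_primes k k').2 fun e => hab (hN.dist a (hm a ha) b (hm b hb) e)
    · rcases hN.pr a (hm a ha) with rfl | k
      · simp
      · exact k.squarefree
  refine ⟨hs, fun h a ha => ?_, fun h ⟨r, hr⟩ => h ?_, fun p hp => ?_⟩
  · by_contra hc
    have h1 := Gv_natAbs j x
    rw [h, Int.natAbs_one, eq_comm, prod_eq_one_iff] at h1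
    have h2 : x.filter (fun a => cls a.1 ≠ j) = {a} := by
      have hf : a ∈ x.filter (fun a => cls a.1 ≠ j) := mem_filter.2 ⟨ha, hc⟩
      exact eq_singleton_iff_unique_mem.2 ⟨hf, fun b hb =>
        hN.dist b (hm b hb) a (hm a hf) ((h1 b hb).trans (h1 a hf).symm)⟩
    rw [Gv, h2, prod_singleton, val, if_pos (h1 a (mem_filter.2 ⟨ha, hc⟩))] at h
    omega
  · have h1 : IsUnit r.natAbs := hs _ (by rw [hr, Int.natAbs_mul])
    rw [hr]
    rcases Int.natAbs_eq_iff.1 (Nat.isUnit_iff.1 h1) with k | k <;> simp [k]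
  · have h1 := Nat.prime_of_mem_primeFactors hp
    have h2 := Nat.dvd_of_mem_primeFactors hp
    rw [Gv_natAbs] at h2
    obtain ⟨a, ha, hd⟩ := (Prime.dvd_finsetProd_iff h1.prime _).1 h2
    refine ⟨a, (mem_filter.1 ha).1, ?_⟩
    rcases hN.pr a (hm a ha) with rfl | k
    · exact absurd (Nat.dvd_one.1 hd) h1.ne_one
    · exact ((Nat.prime_dvd_prime_iff_eq h1 k).1 hd).symm

end KC

theorem kcs : KCStmt := by
  refine ⟨fun c V x b hN hb h1 h2 hx h => ?_, KC.part2, KC.part3, fun c W k hW => ?_⟩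
  · rw [KC.part2 c V x b hN hb h1 h2 hx, h, ite_self, one_mul]
  · refine ⟨if cls k = 2 then 1 else ∏ a ∈ W, gp c a (6, 1), ?_, fun s hs h2 hne => ?_⟩
    · split_ifs
      · exact .inl rfl
      · exact prod_sgn _ fun a _ => (gp_sgn c).2 _ _
    · rw [KC.row c W (b := (k, s))
        (fun a ha => ⟨.inr (hW a ha).2.1, fun _ => (hW a ha).2.2, hne a ha⟩) hs h2, Gv,
        prod_congr rfl fun a ha => KC.val_prime (hW a (mem_filter.1 ha).1).2.1]

end Pool.Agent.MP_a43263_nt.R2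

end
end MrgPart1

-- ======== part 2: formerly Pool.Agent.MP_a43263_nt.R2.Sym
section MrgPart2

/-! PROJECT RANK2, module SYM: Jacobi symbols between linear forms. -/

set_option autoImplicit false

noncomputable section

namespace Pool.Agent.MP_a43263_nt.R2

open Finset

namespace Sym

theorem jac_prod_right {ι : Type} (s : Finset ι) (f : ι → ℕ) (hf : ∀ i ∈ s, f i ≠ 0) (a : ℤ) :
    ∏ i ∈ s, jacobiSym a (f i) = jacobiSym a (∏ i ∈ s, f i) := by
  classical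
  induction s using Finset.induction_on with
  | empty => simp [jacobiSym.one_right]
  | insert i s hi ih =>
    have h := fun j hj => hf j (mem_insert_of_mem hj)
    rw [prod_insert hi, prod_insert hi,
      jacobiSym.mul_right' a (hf i (mem_insert_self _ _)) (prod_ne_zero_iff.2 h), ih h]

theorem jac_sqf {n : ℕ} (hn : Squarefree n) (a : ℤ) :
    ∏ p ∈ n.primeFactors, jacobiSym a p = jacobiSym a n := by
  rw [jac_prod_right _ _ fun p hp => (Nat.prime_of_mem_primeFactors hp).ne_zero,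
    Nat.prod_primeFactors_of_squarefree hn]

/-- nonzero integers all of whose prime factors divide `M` -/
def Sm (M : ℕ) (C : ℤ) : Prop := C ≠ 0 ∧ ∀ p : ℕ, p.Prime → (p : ℤ) ∣ C → p ∣ M

theorem Sm.mul {M : ℕ} {C D : ℤ} (h : Sm M C) (h' : Sm M D) : Sm M (C * D) :=
  ⟨mul_ne_zero h.1 h'.1, fun p hp hd =>
    ((Nat.prime_iff_prime_int.1 hp).dvd_or_dvd hd).elim (h.2 p hp) (h'.2 p hp)⟩

theorem Sm.sgn {M : ℕ} {C : ℤ} (h : C = 1 ∨ C = -1) : Sm M C := by
  refine ⟨by omega, fun p hp hd => absurd ?_ (Nat.prime_iff_prime_int.1 hp).not_dvd_one⟩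
  rcases h with rfl | rfl
  · exact hd
  · exact dvd_neg.1 hd

theorem Sm.gcd {M n : ℕ} {C : ℤ} (h : Sm M C) (hn : n.Coprime M) : C.gcd n = 1 := by
  rw [Int.gcd, Int.natAbs_natCast]
  exact Nat.coprime_of_dvd fun p hp d1 d2 => hp.ne_one
    (Nat.eq_one_of_dvd_coprimes hn d2 (h.2 p hp (Int.natCast_dvd.2 d1)))

theorem prod_ones {R : Type} [CommMonoid R] (M : ℕ) (l : Fin 6 → ℕ) {y : Finset (Fin 7)}
    (hy : y ∈ Ys) (F : Gen → R) : ∏ a ∈ ones (VV M l) y, F a =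
      ∏ h : Fin 6, if h.castSucc ∈ y then ∏ p ∈ (l h).primeFactors, F (h.castSucc, p) else 1 := by
  rw [ones, VV, filter_union, filter_false_of_mem fun a ha => by
    rw [(mem_V0.1 ha).1]; exact mem_Ys.1 hy, empty_union, prod_filter, prod_gens]
  refine prod_congr rfl fun h _ => ?_
  split_ifs <;> simp

theorem pow_Yne (t : ℤ) (j : Fin 3) {y : Finset (Fin 7)} (hy : y ∈ Ys) :
    t ^ Yne j y = ∏ h : Fin 6, if h.castSucc ∈ y ∧ cls h.castSucc ≠ j then t else 1 := by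
  have h6 : Fin.last 6 ∉ y := mem_Ys.1 hy
  have := Fin.prod_univ_castSucc fun h : Fin 7 => if h ∈ y ∧ cls h ≠ j then t else 1
  rw [if_neg fun k => h6 k.1, mul_one] at this
  rw [← this, ← prod_filter, prod_const, Yne]
  congr 2
  ext h
  simp

section
variable {M : ℕ} {A B : Fin 6 → ℕ}

/-- a constant sign -/
def Cst (M : ℕ) (A B : Fin 6 → ℕ) (F : ℕ × ℕ → ℤ) : Prop :=
  ∃ τ : ℤ, (τ = 1 ∨ τ = -1) ∧ ∀ x, Adm M A B x → F x = τ

theorem sgn_mul {s t : ℤ} (h : s = 1 ∨ s = -1) (h' : t = 1 ∨ t = -1) : s * t = 1 ∨ s * t = -1 := by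
  rcases h with rfl | rfl <;> rcases h' with rfl | rfl <;> simp

theorem Cst.congr {F G : ℕ × ℕ → ℤ} (h : Cst M A B F) (e : ∀ x, Adm M A B x → G x = F x) :
    Cst M A B G := h.imp fun _ h => ⟨h.1, fun x hx => (e x hx).trans (h.2 x hx)⟩

theorem Cst.one : Cst M A B fun _ => 1 := ⟨1, .inl rfl, fun _ _ => rfl⟩

theorem Cst.mul {F G : ℕ × ℕ → ℤ} (h : Cst M A B F) (h' : Cst M A B G) :
    Cst M A B fun x => F x * G x := by
  obtain ⟨s, h1, h2⟩ := h
  obtain ⟨t, k1, k2⟩ := h'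
  exact ⟨s * t, sgn_mul h1 k1, fun x hx => by simp only [h2 x hx, k2 x hx]⟩

theorem Cst.prod {ι : Type} (s : Finset ι) {F : ι → ℕ × ℕ → ℤ} (h : ∀ i, Cst M A B (F i)) :
    Cst M A B fun x => ∏ i ∈ s, F i x := by
  classical
  induction s using Finset.induction_on with
  | empty => exact Cst.one
  | insert i s hi ih => exact ((h i).mul ih).congr fun x _ => prod_insert hi

theorem odd_of (hs : Sys M A B) {n : ℕ} (h : n.Coprime M) : n % 2 = 1 :=
  Nat.odd_iff.1 (Nat.coprime_two_right.1 (h.coprime_dvd_right hs.two))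

theorem cst_small (hs : Sys M A B) {a : ℤ} (ha : Sm M a) (hd : a.natAbs ∣ M) (h : Fin 6) :
    Cst M A B fun x => jacobiSym a (lf A B x h) := by
  refine ⟨_, jacobiSym.eq_one_or_neg_one (ha.gcd (hs.cop h)), fun x hx => ?_⟩
  have e : lf A B x h % (4 * a.natAbs) = (A h + B h) % (4 * a.natAbs) :=
    (lf_modEq A B hx.c1 hx.c2 h).of_dvd (Nat.mul_dvd_mul (by norm_num) hd)
  dsimp only
  rw [jacobiSym.mod_right a (Nat.odd_iff.2 (odd_of hs (hx.coprime_M hs h))), e,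
    ← jacobiSym.mod_right a (Nat.odd_iff.2 (odd_of hs (hs.cop h)))]

theorem cst_nat (hs : Sys M A B) (h : Fin 6) (n : ℕ) :
    Sm M n → Cst M A B fun x => jacobiSym n (lf A B x h) := by
  induction n using induction_on_primes with
  | zero => exact fun k => absurd rfl k.1
  | one => exact fun k => cst_small hs k (by simp) h
  | prime_mul p a hp ih =>
    intro k
    have hM : p ∣ M := k.2 p hp (by simp)
    have h1 : Sm M p := ⟨by exact_mod_cast hp.ne_zero, fun q _ hd =>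
      (Int.natCast_dvd_natCast.1 hd).trans hM⟩
    have h2 : Sm M a := ⟨fun e => k.1 (by simp [e]), fun q hq hd => k.2 q hq
      (by push_cast; exact hd.mul_left _)⟩
    exact ((cst_small hs h1 (by simpa using hM) h).mul (ih h2)).congr fun x _ => by
      rw [Nat.cast_mul, jacobiSym.mul_left]

theorem cst_sm (hs : Sys M A B) {C : ℤ} (hC : Sm M C) (h : Fin 6) :
    Cst M A B fun x => jacobiSym C (lf A B x h) := by
  have h1 := cst_nat hs h C.natAbs ⟨by simpa using hC.1, fun p hp hd => hC.2 p hp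
    (Int.dvd_natAbs.1 hd)⟩
  rcases Int.natAbs_eq C with e | e
  · rwa [← e] at h1
  · exact ((cst_small hs (Sm.sgn (.inr rfl)) (by simp) h).mul h1).congr fun x _ => by
      rw [← jacobiSym.mul_left, neg_one_mul, ← e]

theorem sm_res (hs : Sys M A B) {h k : Fin 6} (hk : h ≠ k) : Sm M (res A B h k) :=
  ⟨hs.ne h k hk, hs.sm h k hk⟩

/-- modulo one form the other forms are proportional -/
theorem change (hs : Sys M A B) {x : ℕ × ℕ} (hx : Adm M A B x) (h : Fin 6) {k k' : Fin 6}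
    (hk : k' ≠ k) {n : ℕ} (hn : n ∣ lf A B x k) : jacobiSym (lf A B x h) n =
      jacobiSym (res A B k' k * res A B h k) n * jacobiSym (lf A B x k') n := by
  have h1 := jacobiSym.sq_one ((sm_res hs hk).gcd ((hx.coprime_M hs k).coprime_dvd_left hn))
  have h2 : jacobiSym (res A B k' k * lf A B x h) n = jacobiSym (res A B h k * lf A B x k') n := by
    apply jacobiSym.mod_left'
    rw [cramer]
    obtain ⟨m, hm⟩ := hn
    rw [hm, Nat.cast_mul, mul_left_comm _ (n : ℤ), Int.add_mul_emod_self_left]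
  rw [jacobiSym.mul_left, jacobiSym.mul_left] at h2
  rw [jacobiSym.mul_left, mul_assoc, ← h2, ← mul_assoc, ← sq, h1, one_mul]

theorem cst_recip (hs : Sys M A B) (h k : Fin 6) : ∃ F, Cst M A B F ∧ ∀ x, Adm M A B x →
    jacobiSym (lf A B x k) (lf A B x h) = F x * jacobiSym (lf A B x h) (lf A B x k) := by
  refine ⟨_, cst_sm hs (C := if (A h + B h) % 4 = 3 then -1 else 1)
    (Sm.sgn (by split_ifs <;> simp)) k, fun x hx => ?_⟩
  have e : lf A B x h % 4 = (A h + B h) % 4 :=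
    (lf_modEq A B hx.c1 hx.c2 h).of_dvd (Dvd.dvd.mul_right (by norm_num) _)
  rw [KC.recip (odd_of hs (hx.coprime_M hs h)) (odd_of hs (hx.coprime_M hs k)),
    jacobiSym.mul_left, e]

/-- a constant sign times a power of one symbol -/
def Pw (M : ℕ) (A B : Fin 6 → ℕ) (f g : Fin 6) (F : ℕ × ℕ → ℤ) : Prop :=
  ∃ (σ : ℤ) (e : ℕ), (σ = 1 ∨ σ = -1) ∧
    ∀ x, Adm M A B x → F x = σ * jacobiSym (lf A B x g) (lf A B x f) ^ e

variable {f g : Fin 6}

theorem Pw.congr {F G : ℕ × ℕ → ℤ} (h : Pw M A B f g F) (e : ∀ x, Adm M A B x → G x = F x) :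
    Pw M A B f g G :=
  h.imp fun _ h => h.imp fun _ h => ⟨h.1, fun x hx => (e x hx).trans (h.2 x hx)⟩

theorem Cst.pw {F : ℕ × ℕ → ℤ} (h : Cst M A B F) : Pw M A B f g F :=
  h.imp fun _ h => ⟨0, h.1, fun x hx => by rw [h.2 x hx, pow_zero, mul_one]⟩

theorem Pw.mul {F G : ℕ × ℕ → ℤ} (h : Pw M A B f g F) (h' : Pw M A B f g G) :
    Pw M A B f g fun x => F x * G x := by
  obtain ⟨s, e, h1, h2⟩ := h
  obtain ⟨t, e', k1, k2⟩ := h'
  exact ⟨s * t, e + e', sgn_mul h1 k1, fun x hx => by simp only [h2 x hx, k2 x hx]; ring⟩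

theorem Pw.prod {ι : Type} (s : Finset ι) {F : ι → ℕ × ℕ → ℤ} (h : ∀ i, Pw M A B f g (F i)) :
    Pw M A B f g fun x => ∏ i ∈ s, F i x := by
  classical
  induction s using Finset.induction_on with
  | empty => exact Cst.one.pw
  | insert i s hi ih => exact ((h i).mul ih).congr fun x _ => prod_insert hi

theorem Pw.pow {F : ℕ × ℕ → ℤ} (h : Pw M A B f g F) (n : ℕ) : Pw M A B f g fun x => F x ^ n :=
  (Pw.prod (range n) fun _ => h).congr fun x _ => by simp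

theorem pw_col (hs : Sys M A B) (hfg : f ≠ g) {h : Fin 6} (hf : h ≠ f) :
    Pw M A B f g fun x => jacobiSym (lf A B x h) (lf A B x f) := by
  have h1 : Pw M A B f g fun x => jacobiSym (lf A B x g) (lf A B x f) :=
    ⟨1, 1, .inl rfl, fun x _ => by simp⟩
  exact ((cst_sm hs ((sm_res hs hfg.symm).mul (sm_res hs hf)) f).pw.mul h1).congr
    fun x hx => change hs hx h hfg.symm dvd_rfl

theorem pw_all (hs : Sys M A B) (hfg : f ≠ g) (k : Fin 6) :
    ∃ k', k ≠ k' ∧ Pw M A B f g fun x => jacobiSym (lf A B x k') (lf A B x k) := by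
  by_cases hk : k = f
  · subst hk
    exact ⟨g, hfg, pw_col hs hfg hfg.symm⟩
  · obtain ⟨F, h1, h2⟩ := cst_recip hs k f
    exact ⟨f, hk, (h1.pw.mul (pw_col hs hfg hk)).congr h2⟩

theorem part2 (hs : Sys M A B) (c : ℤ) {y : Finset (Fin 7)} (hy : y ∈ Ys) {b : Gen}
    (hb : b ∈ V0 M) : Cst M A B fun x => ∏ a ∈ ones (VV M (lf A B x)) y, gp c a b := by
  obtain ⟨h6, h1⟩ := mem_V0.1 hb
  have hv : Sm M (val b) := by
    rcases h1 with k | k
    · exact Sm.sgn (.inr (if_pos k))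
    · rw [KC.val_prime (Nat.prime_of_mem_primeFactors k)]
      exact ⟨by exact_mod_cast (Nat.prime_of_mem_primeFactors k).ne_zero, fun q _ hd =>
        (Int.natCast_dvd_natCast.1 hd).trans (Nat.dvd_of_mem_primeFactors k)⟩
  have h0 : cls b.1 = 0 := by rw [h6]; rfl
  refine (Cst.prod univ (F := fun (h : Fin 6) x => if h.castSucc ∈ y ∧ cls h.castSucc ≠ 0 then
    jacobiSym (val b) (lf A B x h) else 1) fun h => ?_).congr fun x hx => ?_
  · split_ifs
    · exact cst_sm hs hv h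
    · exact Cst.one
  · rw [prod_ones M _ hy]
    refine prod_congr rfl fun h _ => ?_
    have hne : ∀ p, (h.castSucc, p) ≠ b := fun p e => castSucc_ne_six h (by rw [← h6, ← e])
    by_cases k : h.castSucc ∈ y
    · by_cases k0 : cls h.castSucc = 0
      · rw [if_pos k, if_neg fun e => e.2 k0]
        exact prod_eq_one fun p _ => by simp only [gp, if_neg (hne p), k0, h0, if_true]
      · rw [if_pos k, if_pos ⟨k, k0⟩, ← jac_sqf (hx.sqf h)]
        refine prod_congr rfl fun p hp => ?_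
        simp only [gp, if_neg (hne p), k0, h0, if_true, if_false]
        exact sg_eq (jacobiSym.eq_one_or_neg_one (hv.gcd ((hx.coprime_M hs h).coprime_dvd_left
          (Nat.dvd_of_mem_primeFactors hp))))
    · rw [if_neg k, if_neg fun e => k e.1]

theorem Gv_ones {x : ℕ × ℕ} (hx : Adm M A B x) (j : Fin 3) {y : Finset (Fin 7)} (hy : y ∈ Ys) :
    Gv j (ones (VV M (lf A B x)) y) =
      ∏ h : Fin 6, if h.castSucc ∈ y ∧ cls h.castSucc ≠ j then (lf A B x h : ℤ) else 1 := by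
  rw [Gv, prod_filter, prod_ones M _ hy]
  refine prod_congr rfl fun h _ => ?_
  by_cases k : h.castSucc ∈ y
  · by_cases k0 : cls h.castSucc = j
    · simp [k0]
    · rw [if_pos k, if_pos ⟨k, k0⟩, prod_congr rfl fun p hp => (if_pos k0).trans
        (KC.val_prime (a := (h.castSucc, p)) (Nat.prime_of_mem_primeFactors hp)), ← Nat.cast_prod,
        Nat.prod_primeFactors_of_squarefree (hx.sqf h)]
  · rw [if_neg k, if_neg fun e => k e.1]

theorem part3 (hs : Sys M A B) {c : ℤ} (hc : Sm M c) {y : Finset (Fin 7)} (hy : y ∈ Ys)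
    {k k' : Fin 6} (hk : k ≠ k') : ∃ C : ℤ, Sm M C ∧ ∀ x, Adm M A B x → ∀ p : ℕ, p.Prime →
      p ∣ lf A B x k → ∏ a ∈ ones (VV M (lf A B x)) y, gp c a (k.castSucc, p) =
        jacobiSym C p * jacobiSym (lf A B x k') p ^ Yne (cls k.castSucc) y := by
  obtain ⟨τ, hτ, h2⟩ := part2 hs c hy (neg_mem_V0 M)
  refine ⟨((if k.castSucc ∈ y ∧ cls k.castSucc ≠ 0 then c else 1) *
    if cls k.castSucc = 2 then 1 else if k.castSucc ∈ y ∧ cls k.castSucc ≠ 0 then -1 * τ else τ) *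
    ∏ h : Fin 6, if h.castSucc ∈ y ∧ cls h.castSucc ≠ cls k.castSucc then
      res A B k' k * res A B h k else 1, ?_, fun x hx p hp hd => ?_⟩
  · refine (Sm.mul ?_ (Sm.sgn ?_)).mul (prod_induction _ _ (fun _ _ => Sm.mul) (Sm.sgn (.inl rfl))
      fun h _ => ?_)
    · split_ifs
      · exact hc
      · exact Sm.sgn (.inl rfl)
    · split_ifs <;> omega
    · split_ifs with e
      · exact (sm_res hs hk.symm).mul (sm_res hs fun e' => e.2 (by rw [e']))
      · exact Sm.sgn (.inl rfl)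
  have hN := hx.nice hs
  have hb : (k.castSucc, p) ∈ VV M (lf A B x) :=
    mk_mem_VV.2 (Nat.mem_primeFactors.2 ⟨hp, hd, (hx.sqf k).ne_zero⟩)
  have hpM := (hx.coprime_M hs k).coprime_dvd_left hd
  have hp1 := odd_of hs hpM
  have h3 := KC.row c ((ones (VV M (lf A B x)) y).erase (k.castSucc, p)) (b := (k.castSucc, p))
    (fun a ha => have hm := (mem_ones.1 (mem_of_mem_erase ha)).1
      ⟨hN.pr a hm, hN.odd a hm, fun e => ne_of_mem_erase ha (hN.dist a hm _ hb e)⟩) hp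
    (by dsimp only; omega)
  have h4 : Gv (cls k.castSucc) ((ones (VV M (lf A B x)) y).erase (k.castSucc, p)) =
      Gv (cls k.castSucc) (ones (VV M (lf A B x)) y) := by
    rw [Gv, Gv, filter_erase, erase_eq_of_notMem (by simp)]
  have h5 : jacobiSym (Gv (cls k.castSucc) (ones (VV M (lf A B x)) y)) p =
      jacobiSym (∏ h : Fin 6, if h.castSucc ∈ y ∧ cls h.castSucc ≠ cls k.castSucc then
        res A B k' k * res A B h k else 1) p *
          jacobiSym (lf A B x k') p ^ Yne (cls k.castSucc) y := by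
    rw [Gv_ones hx _ hy, pow_Yne _ _ hy, ← KC.jac_prod, ← KC.jac_prod, ← prod_mul_distrib]
    refine prod_congr rfl fun h _ => ?_
    split_ifs
    · exact change hs hx h hk.symm hd
    · simp [jacobiSym.one_left]
  have h6 := h2 x hx
  dsimp only at h3 h6
  rw [jacobiSym.mul_left, h4, h5] at h3
  rw [jacobiSym.mul_left, jacobiSym.mul_left, mul_assoc, mul_assoc]
  by_cases hy' : k.castSucc ∈ y
  · have hm : (k.castSucc, p) ∈ ones (VV M (lf A B x)) y := mem_ones.2 ⟨hb, hy'⟩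
    rw [← mul_prod_erase _ _ hm] at h6
    rw [← mul_prod_erase _ _ hm, h3]
    by_cases h0 : cls k.castSucc = 0
    · rw [KC.tau_zero c h0, one_mul] at h6
      rw [h6]
      simp [gp, h0, jacobiSym.one_left]
    · rw [KC.tau_eq c h0 hp1] at h6
      have h7 : gp c (k.castSucc, p) (k.castSucc, p) = jacobiSym c p := by
        simp only [gp, if_true, if_neg h0]
        exact sg_eq (jacobiSym.eq_one_or_neg_one (hc.gcd hpM))
      have h9 : k.castSucc ∈ y ∧ cls k.castSucc ≠ 0 := ⟨hy', h0⟩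
      rw [h7, if_pos h9, if_pos h9]
      congr 2
      split_ifs with h8
      · rfl
      · rw [← h6, ← mul_assoc, jacobiSym.mul_left, jacobiSym.mul_left, KC.jac_tau hp1,
          KC.jac_neg_one hp1]
        by_cases h4 : p % 4 = 3 <;> simp [h4]
  · rw [erase_eq_of_notMem fun e => hy' (mem_ones.1 e).2] at h3
    have h9 : ¬(k.castSucc ∈ y ∧ cls k.castSucc ≠ 0) := fun e => hy' e.1
    rw [h3, h6, if_neg h9, if_neg h9, jacobiSym.one_left, one_mul]

end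

end Sym

theorem sym : SYMStmt := by
  intro M A B c hs h0 hc
  refine ⟨fun y hy y' hy' f g hfg => ?_, fun y hy b hb => Sym.part2 hs c hy hb,
    fun y hy k k' hk => (Sym.part3 hs ⟨h0, hc⟩ hy hk).imp fun _ h => h.2⟩
  choose k' h1 h2 using Sym.pw_all hs hfg
  choose C h3 h4 using fun k => Sym.part3 hs ⟨h0, hc⟩ hy (h1 k)
  refine (Sym.Pw.prod univ (F := fun (k : Fin 6) x => if k.castSucc ∈ y' then
    jacobiSym (C k) (lf A B x k) * jacobiSym (lf A B x (k' k)) (lf A B x k) ^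
      Yne (cls k.castSucc) y else 1) fun k => ?_).congr fun x hx => ?_
  · split_ifs
    · exact (Sym.cst_sm hs (h3 k) k).pw.mul ((h2 k).pow _)
    · exact Sym.Cst.one.pw
  · rw [chi_eq_rows, Sym.prod_ones M _ hy']
    refine prod_congr rfl fun k _ => ?_
    split_ifs
    · rw [prod_congr rfl fun p hp => h4 k x hx p (Nat.prime_of_mem_primeFactors hp)
        (Nat.dvd_of_mem_primeFactors hp), prod_mul_distrib, prod_pow, Sym.jac_sqf (hx.sqf k),
        Sym.jac_sqf (hx.sqf k)]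
    · rfl

end Pool.Agent.MP_a43263_nt.R2

end
end MrgPart2

-- ======== part 3: formerly Pool.Agent.MP_a43263_nt.R2.Uu
section MrgPart3

/-! PROJECT RANK2, module U: Fourier uniformity in a residue class. -/

set_option autoImplicit false

noncomputable section

namespace Pool.Agent.MP_a43263_nt.R2

open Finset Filter

namespace Uu

theorem eR_eq (x : ℝ) : eR x = Complex.exp (Complex.I * ((2 * Real.pi * x : ℝ) : ℂ)) := by
  rw [eR]; congr 1; push_cast; ring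

theorem eR_add (x y : ℝ) : eR (x + y) = eR x * eR y := by
  simp only [eR]; rw [← Complex.exp_add]; congr 1; push_cast; ring

theorem norm_eR (x : ℝ) : ‖eR x‖ = 1 := by
  rw [eR_eq, Complex.norm_exp_I_mul_ofReal]

theorem eR_int (j : ℤ) : eR j = 1 := by
  rw [eR, ← Complex.exp_int_mul_two_pi_mul_I j]; congr 1; push_cast; ring

theorem eR_nat_mul (k : ℕ) (x : ℝ) : eR (k * x) = eR x ^ k := by
  rw [eR, eR, ← Complex.exp_nat_mul]; congr 1; push_cast; ring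

theorem norm_eR_sub_one (x : ℝ) : ‖eR x - 1‖ ≤ 7 * |x| := by
  rw [eR_eq]
  refine Real.norm_exp_I_mul_ofReal_sub_one_le.trans ?_
  rw [Real.norm_eq_abs, abs_mul, abs_of_pos (by positivity : 0 < 2 * Real.pi)]
  have := Real.pi_lt_d2
  have := abs_nonneg x
  nlinarith

theorem le_norm_eR_sub_one {x : ℝ} (hx : |x| ≤ 1 / 2) : 4 * |x| ≤ ‖eR x - 1‖ := by
  rw [eR_eq, Complex.norm_exp_I_mul_ofReal_sub_one, Real.norm_eq_abs, abs_mul,
    show 2 * Real.pi * x / 2 = Real.pi * x by ring, abs_two]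
  have hp := Real.pi_pos
  have h1 : |Real.pi * x| ≤ Real.pi / 2 := by
    rw [abs_mul, abs_of_pos hp]; nlinarith
  have h2 := Real.mul_abs_le_abs_sin h1
  rw [abs_mul, abs_of_pos hp, show 2 / Real.pi * (Real.pi * |x|) = 2 * |x| by field_simp] at h2
  linarith

/-- geometric sums -/
theorem geom (L : ℕ) (θ : ℝ) : |θ - round θ| * ‖∑ k ∈ range L, eR (k * θ)‖ ≤ 1 / 2 := by
  have h1 : eR θ = eR (θ - round θ) := by
    conv_lhs => rw [show θ = (θ - round θ) + (round θ : ℤ) by ring, eR_add, eR_int, mul_one]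
  have h2 := le_norm_eR_sub_one (abs_sub_round θ)
  rw [← h1] at h2
  simp only [eR_nat_mul]
  have h3 : ‖(∑ k ∈ range L, eR θ ^ k) * (eR θ - 1)‖ ≤ 2 := by
    rw [geom_sum_mul]
    refine (norm_sub_le _ _).trans ?_
    rw [norm_pow, norm_eR, one_pow, norm_one]; norm_num
  rw [norm_mul] at h3
  have := norm_nonneg (∑ k ∈ range L, eR θ ^ k)
  nlinarith

/-- one short block -/
theorem block1 (a : ℕ → ℂ) (γ T : ℝ) (K u v : ℕ) (hv : v ≤ u + K)
    (hT : ∀ k ∈ Ico u v, ‖a k‖ ≤ T) :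
    ‖∑ k ∈ Ico u v, a k * eR (k * γ)‖ ≤
      ‖∑ k ∈ Ico u v, a k‖ + 7 * |γ| * K * T * ((v - u : ℕ) : ℝ) := by
  have h1 : ∑ k ∈ Ico u v, a k * eR (k * γ) = (∑ k ∈ Ico u v, a k) * eR (u * γ) +
      ∑ k ∈ Ico u v, a k * (eR (((k : ℝ) - u) * γ) - 1) * eR (u * γ) := by
    rw [sum_mul, ← sum_add_distrib]
    refine sum_congr rfl fun k _ => ?_
    rw [show (k : ℝ) * γ = ((k : ℝ) - u) * γ + u * γ by ring, eR_add]; ring
  rw [h1]
  refine (norm_add_le _ _).trans (add_le_add (by rw [norm_mul, norm_eR, mul_one]) ?_)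
  refine (norm_sum_le _ _).trans ?_
  have e : 7 * |γ| * K * T * ((v - u : ℕ) : ℝ) = (Ico u v).card • (7 * |γ| * K * T) := by
    rw [Nat.card_Ico, nsmul_eq_mul, mul_comm]
  rw [e]
  refine sum_le_card_nsmul _ _ _ fun k hk => ?_
  obtain ⟨k1, k2⟩ := mem_Ico.1 hk
  rw [norm_mul, norm_mul, norm_eR, mul_one]
  have h2 := norm_eR_sub_one (((k : ℝ) - u) * γ)
  have h3 : |(k : ℝ) - u| ≤ K := by
    have e1 : (u : ℝ) ≤ k := by exact_mod_cast k1
    have e2 : (k : ℝ) ≤ u + K := by exact_mod_cast (by omega : k ≤ u + K)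
    rw [abs_of_nonneg (by linarith)]; linarith
  rw [abs_mul] at h2
  have h4 := hT k hk
  have h5 : ‖eR (((k : ℝ) - u) * γ) - 1‖ ≤ 7 * |γ| * K := by
    have := abs_nonneg γ
    nlinarith
  calc _ ≤ T * (7 * |γ| * K) :=
        mul_le_mul h4 h5 (norm_nonneg _) ((norm_nonneg _).trans h4)
    _ = _ := by ring

/-- cutting a long sum into blocks -/
theorem blocks (a : ℕ → ℂ) (γ T c E : ℝ) (K L : ℕ) (hK : 1 ≤ K) (hE : 0 ≤ E)
    (hT : ∀ k < L, ‖a k‖ ≤ T)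
    (h : ∀ u v : ℕ, u ≤ v → v ≤ L → ‖∑ k ∈ Ico u v, a k‖ ≤ c * ((v : ℝ) - u) + E) :
    ∀ v ≤ L, ‖∑ k ∈ range v, a k * eR (k * γ)‖ ≤
      c * v + ((v : ℝ) / K + 1) * E + 7 * |γ| * K * T * v := by
  intro v
  induction v using Nat.strong_induction_on with
  | _ v ih =>
    intro hv
    have hK' : (0 : ℝ) < K := by exact_mod_cast hK
    by_cases hvK : v ≤ K
    · have h1 := block1 a γ T K 0 v (by omega) fun k hk => hT k (by have := mem_Ico.1 hk; omega)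
      have h2 := h 0 v (Nat.zero_le _) hv
      rw [range_eq_Ico]
      simp only [Nat.sub_zero, Nat.cast_zero, sub_zero] at h1 h2
      have : 0 ≤ (v : ℝ) / K * E := by positivity
      linarith
    · obtain ⟨u, rfl⟩ : ∃ u, v = u + K := ⟨v - K, by omega⟩
      have h0 := ih u (by omega) (by omega)
      have h1 := block1 a γ T K u (u + K) le_rfl fun k hk =>
        hT k (by have := mem_Ico.1 hk; omega)
      have h2 := h u (u + K) (by omega) hv
      rw [← sum_range_add_sum_Ico _ (by omega : u ≤ u + K)]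
      refine (norm_add_le _ _).trans ?_
      rw [Nat.add_sub_cancel_left] at h1
      have e : ((u + K : ℕ) : ℝ) / K = (u : ℝ) / K + 1 := by push_cast; field_simp
      rw [e]
      push_cast at h2 ⊢
      nlinarith

/-- a progression as a filtered interval -/
theorem sum_prog (F : ℕ → ℂ) {r q : ℕ} (hr : 1 ≤ r) (hq : 0 < q) (u v : ℕ) :
    ∑ n ∈ (Ioc (r - 1 + q * u) (r - 1 + q * v)).filter (fun n => n ≡ r [MOD q]), F n =
      ∑ k ∈ Ico u v, F (r + q * k) := by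
  symm
  refine sum_nbij (fun k => r + q * k) (fun k hk => ?_) (fun k _ k' _ e => ?_) (fun n hn => ?_)
    fun _ _ => rfl
  · obtain ⟨h1, h2⟩ := mem_Ico.1 hk
    have e1 : q * u ≤ q * k := Nat.mul_le_mul_left _ h1
    have e2 : q * (k + 1) ≤ q * v := Nat.mul_le_mul_left _ h2
    rw [Nat.mul_succ] at e2
    refine mem_filter.2 ⟨mem_Ioc.2 ⟨by omega, by omega⟩, ?_⟩
    simp [Nat.ModEq]
  · exact Nat.eq_of_mul_eq_mul_left hq (Nat.add_left_cancel e)
  · obtain ⟨h1, h2⟩ := mem_filter.1 (mem_coe.1 hn)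
    obtain ⟨h3, h4⟩ := mem_Ioc.1 h1
    obtain ⟨k, hk⟩ := (Nat.modEq_iff_dvd' (by omega : r ≤ n)).1 h2.symm
    refine ⟨k, mem_coe.2 (mem_Ico.2 ⟨?_, ?_⟩), by simp only; omega⟩
    · exact Nat.le_of_mul_le_mul_left (by omega : q * u ≤ q * k) hq
    · exact Nat.lt_of_mul_lt_mul_left (by omega : q * k < q * v)

/-- dyadic decomposition -/
theorem sum_dyadic (G : ℕ → ℂ) (Y I : ℕ) :
    ∑ c ∈ Ioc Y (Y * 2 ^ I), G c = ∑ i ∈ range I, ∑ c ∈ Ioc (Y * 2 ^ i) (2 * (Y * 2 ^ i)), G c := by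
  induction I with
  | zero => simp
  | succ I ih =>
    rw [sum_range_succ, ← ih, sum_Ioc_consecutive _ (Nat.le_mul_of_pos_right _ (by positivity))
      (by omega)]
    congr 2; ring

/-- the sum over good numbers as a bilinear sum -/
theorem sum_Fs (S : Sc) (r q x₁ X : ℕ) (φ : ℝ) (hx : x₁ ≤ S.Y') :
    ∑ n ∈ (Ioc x₁ X).filter (fun n => n ≡ r [MOD q]), (Fs S n : ℂ) * eR (n * φ) =
      ∑ c ∈ CC S, ∑ P ∈ Icc 1 (X / c),
        if P.Prime ∧ S.Y' < P ∧ c * P ≡ r [MOD q] then (Real.log P : ℂ) * eR (c * P * φ) else 0 := by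
  simp only [Fs, Complex.ofReal_sum, sum_mul]
  rw [sum_comm]
  refine sum_congr rfl fun c hc => ?_
  have hc0 : 0 < c := by
    classical
    exact (mem_Icc.1 (mem_filter.1 hc).1).1
  have e : ∀ n : ℕ, (((if c ∣ n ∧ (n / c).Prime ∧ S.Y' < n / c then Real.log (n / c : ℕ) else 0 : ℝ) :
      ℂ)) * eR (n * φ) = if c ∣ n ∧ (n / c).Prime ∧ S.Y' < n / c then
        (Real.log (n / c : ℕ) : ℂ) * eR (n * φ) else 0 := by
    intro n; split_ifs <;> simp
  simp only [e]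
  rw [← sum_filter, ← sum_filter]
  symm
  refine sum_nbij' (fun P => c * P) (fun n => n / c) (fun P hP => ?_) (fun n hn => ?_)
    (fun P _ => Nat.mul_div_cancel_left _ hc0) (fun n hn => ?_) fun P _ => ?_
  · obtain ⟨h1, h2, h3, h4⟩ := mem_filter.1 hP
    obtain ⟨h5, h6⟩ := mem_Icc.1 h1
    rw [Nat.le_div_iff_mul_le hc0] at h6
    have : P ≤ c * P := Nat.le_mul_of_pos_left _ hc0
    refine mem_filter.2 ⟨mem_filter.2 ⟨mem_Ioc.2 ⟨by omega, by rwa [mul_comm]⟩, h4⟩, ?_⟩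
    rw [Nat.mul_div_cancel_left _ hc0]
    exact ⟨dvd_mul_right _ _, h2, h3⟩
  · obtain ⟨h1, h2, h3, h4⟩ := mem_filter.1 hn
    obtain ⟨h5, h6⟩ := mem_filter.1 h1
    refine mem_filter.2 ⟨mem_Icc.2 ⟨h3.pos, Nat.div_le_div_right (mem_Ioc.1 h5).2⟩, h3, h4, ?_⟩
    rwa [Nat.mul_div_cancel' h2]
  · exact Nat.mul_div_cancel' (mem_filter.1 hn).2.1
  · rw [Nat.mul_div_cancel_left _ hc0]; push_cast; rfl

/-- one dyadic block on the minor arcs -/
theorem minor1 (D : Finset ℕ) (pr : ℕ → Prop) [DecidablePred pr] (r q X N : ℕ) (φ Λ B : ℝ)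
    (hq : 0 < q) (hΛ : 0 < Λ) (hX : Real.log X ≤ Λ)
    (h : ∀ α β : ℕ → ℂ, (∀ n, ‖α n‖ ≤ 1) → (∀ n, ‖β n‖ ≤ 1) →
      ‖∑ c ∈ Ioc N (2 * N), ∑ P ∈ Icc 1 (X / c), α c * β P * eR (c * P * φ)‖ ≤ B) :
    ‖∑ c ∈ Ioc N (2 * N), if c ∈ D then ∑ P ∈ Icc 1 (X / c),
      (if pr P ∧ c * P ≡ r [MOD q] then (Real.log P : ℂ) * eR (c * P * φ) else 0) else 0‖ ≤
      q * (Λ * B) := by
  set α : ℕ → ℕ → ℂ := fun s c => if c ∈ D ∧ c % q = s then 1 else 0 with hα
  set β : ℕ → ℕ → ℂ := fun s P =>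
    if (pr P ∧ s * P ≡ r [MOD q]) ∧ 1 ≤ P ∧ P ≤ X then ((Real.log P / Λ : ℝ) : ℂ) else 0 with hβ
  have e : ∑ c ∈ Ioc N (2 * N), (if c ∈ D then ∑ P ∈ Icc 1 (X / c),
      (if pr P ∧ c * P ≡ r [MOD q] then (Real.log P : ℂ) * eR (c * P * φ) else 0) else 0) =
      ∑ s ∈ range q, (Λ : ℂ) * ∑ c ∈ Ioc N (2 * N), ∑ P ∈ Icc 1 (X / c),
        α s c * β s P * eR (c * P * φ) := by
    simp only [mul_sum]
    rw [sum_comm]
    refine sum_congr rfl fun c _ => ?_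
    rw [sum_eq_single_of_mem (c % q) (mem_range.2 (Nat.mod_lt _ hq))]
    · by_cases hc : c ∈ D
      · rw [if_pos hc]
        refine sum_congr rfl fun P hP => ?_
        obtain ⟨h1, h2⟩ := mem_Icc.1 hP
        have h3 : P ≤ X := h2.trans (Nat.div_le_self _ _)
        have h4 : c % q * P ≡ r [MOD q] ↔ c * P ≡ r [MOD q] :=
          ⟨fun k => (((Nat.mod_modEq c q).mul_right P).symm.trans k),
            fun k => ((Nat.mod_modEq c q).mul_right P).trans k⟩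
        simp only [hα, hβ, hc, h1, h3, h4, and_true, if_true]
        split_ifs
        · have : (Λ : ℂ) ≠ 0 := by exact_mod_cast hΛ.ne'
          push_cast; field_simp
        · simp
      · simp [hα, hc]
    · intro s _ hs
      simp [hα, hs.symm]
  rw [e]
  refine (norm_sum_le _ _).trans ?_
  have : (q : ℝ) * (Λ * B) = (range q).card • (Λ * B) := by simp
  rw [this]
  refine sum_le_card_nsmul _ _ _ fun s _ => ?_
  rw [norm_mul, Complex.norm_real, Real.norm_of_nonneg hΛ.le]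
  refine mul_le_mul_of_nonneg_left (h _ _ (fun n => ?_) fun n => ?_) hΛ.le
  · simp only [hα]; split_ifs <;> simp
  · simp only [hβ]
    split_ifs with k
    · have h1 : Real.log n ≤ Real.log X :=
        Real.log_le_log (by exact_mod_cast k.2.1) (by exact_mod_cast k.2.2)
      have h2 := Real.log_natCast_nonneg n
      rw [Complex.norm_real, Real.norm_of_nonneg (by positivity), div_le_one hΛ]
      linarith
    · simp

theorem Y_lt {S : Sc} {c : ℕ} (hJ : 1 ≤ S.J) (h : Core S c) : S.Y < c := by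
  have h1 := h.lo
  obtain ⟨p, hp⟩ := card_pos.1 (by omega : 0 < (c.primeFactors.filter (S.Y < ·)).card)
  obtain ⟨h2, h3⟩ := mem_filter.1 hp
  exact h3.trans_le (Nat.le_of_mem_primeFactors h2)

/-- the minor arcs -/
theorem minor {S : Sc} (hR : Rel S) (hJ : 1 ≤ S.J) (hY : 1 ≤ S.Y) (r q x₁ X : ℕ) (φ Λ B : ℝ)
    (hx : x₁ ≤ S.Y') (hq : 0 < q) (hΛ : 0 < Λ) (hX : Real.log X ≤ Λ)
    (h : ∀ N, S.Y ≤ N → N ≤ S.Y' ^ 7 → ∀ α β : ℕ → ℂ, (∀ n, ‖α n‖ ≤ 1) → (∀ n, ‖β n‖ ≤ 1) →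
      ‖∑ c ∈ Ioc N (2 * N), ∑ P ∈ Icc 1 (X / c), α c * β P * eR (c * P * φ)‖ ≤ B) :
    ‖∑ n ∈ (Ioc x₁ X).filter (fun n => n ≡ r [MOD q]), (Fs S n : ℂ) * eR (n * φ)‖ ≤
      (Nat.log 2 (S.Y' ^ 6) + 1 : ℕ) * (q * (Λ * B)) := by
  rw [sum_Fs S r q x₁ X φ hx]
  set I := Nat.log 2 (S.Y' ^ 6) + 1 with hI
  have hY' := hR.Y_le
  have hsub : CC S ⊆ Ioc S.Y (S.Y * 2 ^ I) := by
    intro c hc
    have hc' := (mem_CC hR).1 hc
    refine mem_Ioc.2 ⟨Y_lt hJ hc', (hc'.le_pow hR).trans ?_⟩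
    exact (Nat.lt_pow_succ_log_self (by norm_num) _).le.trans (Nat.le_mul_of_pos_left _ hY)
  rw [← inter_eq_right.2 hsub, ← sum_ite_mem, sum_dyadic]
  refine (norm_sum_le _ _).trans ?_
  have : (I : ℝ) * (q * (Λ * B)) = (range I).card • (q * (Λ * B)) := by simp
  rw [this]
  refine sum_le_card_nsmul _ _ _ fun i hi => ?_
  have h1 : 2 ^ i ≤ S.Y' ^ 6 :=
    (Nat.pow_le_pow_right (by norm_num) (by have := mem_range.1 hi; omega)).trans
      (Nat.pow_log_le_self 2 (pow_pos (by omega) _).ne')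
  have h2 := minor1 (CC S) (fun P => P.Prime ∧ S.Y' < P) r q X (S.Y * 2 ^ i) φ Λ B hq hΛ hX
    (h _ (Nat.le_mul_of_pos_right _ (by positivity))
      ((Nat.mul_le_mul hY' h1).trans (by rw [← pow_succ'])))
  simpa only [and_assoc] using h2

theorem mu_le {S : Sc} (hR : Rel S) (hY : 1 ≤ S.Y') : mu S ≤ 1 + Real.log S.Z := by
  classical
  have h1 : mu S ≤ ∑ c ∈ Icc 1 S.Z, (1 : ℝ) / c := by
    refine sum_le_sum_of_subset_of_nonneg (fun c hc => ?_) fun _ _ _ => by positivity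
    obtain ⟨h2, h3⟩ := mem_Icc.1 (mem_filter.1 hc).1
    exact mem_Icc.2 ⟨h2, h3.trans ((Nat.pow_le_pow_right hY (by norm_num)).trans hR.lo)⟩
  have h2 := harmonic_le_one_add_log S.Z
  rw [harmonic_eq_sum_Icc] at h2
  push_cast at h2
  simpa only [one_div] using h1.trans (by simpa only [one_div] using h2)

theorem rho_le {M : ℕ} (hM : 0 < M) : rho M ≤ M :=
  div_le_self (Nat.cast_nonneg _) (by exact_mod_cast Nat.totient_pos.2 hM)

theorem rho_nonneg (M : ℕ) : 0 ≤ rho M := by unfold rho; positivity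

/-- the major arcs -/
theorem major (f : ℕ → ℝ) (r q L d K : ℕ) (a : ℤ) (θ T c E : ℝ) (hr : 1 ≤ r) (hq : 0 < q)
    (hK : 1 ≤ K) (hE : 0 ≤ E) (hT : ∀ k < L, |f (r + q * k)| ≤ T)
    (h : ∀ x₁ x₂ : ℕ, x₁ ≤ x₂ → x₂ ≤ r + q * L →
      ‖∑ n ∈ (Ioc x₁ x₂).filter (fun n => n ≡ r [MOD q]), (f n : ℂ) * eR (n * a / d)‖ ≤
        c * ((x₂ - x₁ : ℝ) / q) + E) :
    ‖∑ k ∈ range L, (f (r + q * k) : ℂ) * eR (k * θ)‖ ≤
      c * L + ((L : ℝ) / K + 1) * E + 7 * |θ - q * a / d| * K * T * L := by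
  have e : ∑ k ∈ range L, (f (r + q * k) : ℂ) * eR (k * θ) =
      (∑ k ∈ range L, (f (r + q * k) : ℂ) * eR ((r + q * k : ℕ) * a / d) *
        eR (k * (θ - q * a / d))) * eR (-(r * a / d)) := by
    rw [sum_mul]
    refine sum_congr rfl fun k _ => ?_
    rw [mul_assoc, mul_assoc, ← eR_add, ← eR_add]
    congr 2; push_cast; ring
  rw [e, norm_mul, norm_eR, mul_one]
  refine blocks (fun k => (f (r + q * k) : ℂ) * eR ((r + q * k : ℕ) * a / d)) _ T c E K L hK hE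
    (fun k hk => ?_) (fun u v huv hv => ?_) L le_rfl
  · rw [norm_mul, norm_eR, mul_one, Complex.norm_real, Real.norm_eq_abs]
    exact hT k hk
  · have e1 : q * u ≤ q * v := Nat.mul_le_mul_left _ huv
    have e2 : q * v ≤ q * L := Nat.mul_le_mul_left _ hv
    have h1 := h (r - 1 + q * u) (r - 1 + q * v) (by omega) (by omega)
    rw [sum_prog (fun n => (f n : ℂ) * eR (n * a / d)) hr hq] at h1
    have hq' : (q : ℝ) ≠ 0 := by positivity
    have e3 : (((r - 1 + q * v : ℕ) : ℝ) - (r - 1 + q * u : ℕ)) / q = (v : ℝ) - u := by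
      rw [Nat.cast_add, Nat.cast_add]; push_cast; field_simp; ring
    rwa [e3] at h1

/-- the model sum on the minor arcs -/
theorem model (L q d Q : ℕ) (a : ℤ) (θ : ℝ) (hq : 0 < q) (hd : q < d) (hQ : 2 * q ≤ Q + 1)
    (hc : a.natAbs.Coprime d) (h : |θ / q - a / d| ≤ 1 / ((Q + 1) * d)) :
    ‖∑ k ∈ range L, eR (k * θ)‖ ≤ d := by
  have h1 := geom L θ
  set j := round θ
  have hq' : (0 : ℝ) < q := by exact_mod_cast hq
  have hd' : (0 : ℝ) < d := by exact_mod_cast hq.trans hd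
  have hQ' : 2 * (q : ℝ) ≤ Q + 1 := by exact_mod_cast hQ
  have h2 : j * d - a * q ≠ 0 := by
    intro e
    have e1 : (d : ℤ) ∣ a * q := ⟨j, by linarith⟩
    rw [Int.natCast_dvd, Int.natAbs_mul, Int.natAbs_natCast] at e1
    exact absurd (Nat.le_of_dvd hq (hc.symm.dvd_of_dvd_mul_left e1)) (by omega)
  have h3 : (1 : ℝ) ≤ |(j : ℝ) * d - a * q| := by exact_mod_cast Int.one_le_abs h2
  have h4 : |θ * d - a * q| ≤ 1 / 2 := by
    have e : θ * d - a * q = (θ / q - a / d) * (q * d) := by field_simp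
    rw [e, abs_mul, abs_of_pos (mul_pos hq' hd')]
    calc _ ≤ 1 / (((Q : ℝ) + 1) * d) * (q * d) := by gcongr
      _ = (q : ℝ) / (Q + 1) := by field_simp
      _ ≤ 1 / 2 := by rw [div_le_div_iff₀ (by positivity) (by norm_num)]; linarith
  have h5 : 1 / 2 ≤ |θ - j| * d := by
    have e : (j : ℝ) * d - a * q = (θ * d - a * q) - (θ - j) * d := by ring
    have := abs_sub (θ * d - a * q) ((θ - j) * d)
    rw [← e, abs_mul, abs_of_pos hd'] at this
    linarith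
  have h6 := norm_nonneg (∑ k ∈ range L, eR (k * θ))
  by_contra hlt
  push Not at hlt
  have h7 : 0 < |θ - j| := by
    rcases (abs_nonneg (θ - j)).eq_or_lt with e | e
    · rw [← e] at h5; norm_num at h5
    · exact e
  nlinarith

theorem log_two_le {n : ℕ} (hn : n ≠ 0) : (Nat.log 2 n : ℝ) ≤ 2 * Real.log n := by
  have h1 : ((2 : ℝ)) ^ Nat.log 2 n ≤ n := by exact_mod_cast Nat.pow_log_le_self 2 hn
  have h2 := Real.log_le_log (by positivity) h1
  rw [Real.log_pow] at h2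
  have := Real.log_two_gt_d9
  have : (0 : ℝ) ≤ Nat.log 2 n := Nat.cast_nonneg _
  nlinarith

/-- the size of the bilinear bound -/
theorem bil_num {C H Z l X N d : ℝ} (hC : 8 * |C| * H ^ 2 ≤ l) (hH : 1 ≤ H) (hZ : 0 < Z)
    (hl : 1 ≤ l) (hX0 : 0 ≤ X) (hX : X ≤ H * Z) (hd : l ^ 10 ≤ d) (hN : l ^ 10 ≤ N)
    (hd' : d ≤ Z / l ^ 10) (hN' : N ≤ Z / l ^ 10) (hlog : Real.log d ≤ l) :
    C * (1 + Real.log d) * (X ^ 2 / d + X ^ 2 / N + X * (N + d)) ≤ (Z / l ^ 4) ^ 2 := by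
  have h1 : (1 : ℝ) ≤ l ^ 10 := one_le_pow₀ hl
  have h0 : 0 ≤ Real.log d := Real.log_nonneg (h1.trans hd)
  have h2 : X ^ 2 / d ≤ (H * Z) ^ 2 / l ^ 10 := by gcongr
  have h3 : X ^ 2 / N ≤ (H * Z) ^ 2 / l ^ 10 := by gcongr
  have h4 : X * (N + d) ≤ (H * Z) * (H * Z / l ^ 10 + H * Z / l ^ 10) := by
    have : Z / l ^ 10 ≤ H * Z / l ^ 10 := by gcongr; nlinarith
    have : 0 ≤ N + d := by linarith
    gcongr <;> linarith
  have h5 : 0 ≤ X ^ 2 / d + X ^ 2 / N + X * (N + d) := by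
    have : 0 < d := by linarith
    have : 0 < N := by linarith
    positivity
  calc _ ≤ |C| * (1 + Real.log d) * (X ^ 2 / d + X ^ 2 / N + X * (N + d)) := by
        gcongr; exact le_abs_self C
    _ ≤ |C| * (l + l) * ((H * Z) ^ 2 / l ^ 10 + (H * Z) ^ 2 / l ^ 10 +
          (H * Z) * (H * Z / l ^ 10 + H * Z / l ^ 10)) := by gcongr
    _ = (8 * |C| * H ^ 2) * (Z ^ 2 / l ^ 9) := by field_simp; ring
    _ ≤ l * (Z ^ 2 / l ^ 9) := by gcongr
    _ = _ := by field_simp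

end Uu

open Uu in
theorem uu : BILStmt → MAJStmt → UStmt := by
  rintro ⟨C, hB⟩ hMaj M P₀ q H J ε hM hP₀ hPM hq hMq hqM hJ hε
  have h1 := hMaj M P₀ q H J 11 10 hM hP₀ hPM hq hMq hqM
  have h2 : Ev M J fun S => 1 + q + 8 * |C| * (H : ℝ) ^ 2 +
      (H + 1 + 28 * q * (1 + M) * H + (6 * q + 2 * M)) / ε ≤ Real.log S.Z :=
    ev_Z (p := fun z : ℕ => _ ≤ Real.log z)
      ((Real.tendsto_log_atTop.comp tendsto_natCast_atTop_atTop).eventually_ge_atTop _)
  refine (((h1.and h2).and (ev_log 1 11)).and (ev_ge (H + 2 * q))).mono ?_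
  rintro S - hSJ hR ⟨⟨⟨hmaj, hl⟩, hlY⟩, hHY⟩ r L θ hrM hr hrH hL
  set l := Real.log S.Z with hldef
  have hY0 := hR.Y0_le
  have hY := hR.Y_le
  have hY' := hR.Y'_le
  have hq1 : (1 : ℝ) ≤ q := by exact_mod_cast hq
  have hH1 : (1 : ℝ) ≤ H := by exact_mod_cast hr.trans hrH
  have hM0 : (0 : ℝ) ≤ M := Nat.cast_nonneg _
  have hZ : (0 : ℝ) < S.Z := by exact_mod_cast (by omega : 0 < S.Z)
  have hw1 : 0 ≤ 8 * |C| * (H : ℝ) ^ 2 := by positivity
  have hw2 : 0 ≤ (H + 1 + 28 * q * (1 + M) * H + (6 * q + 2 * M) : ℝ) / ε := by positivity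
  have hl1 : 1 ≤ l := by linarith
  have hlε : (H + 1 + 28 * q * (1 + M) * H + (6 * q + 2 * M) : ℝ) ≤ l * ε :=
    (div_le_iff₀ hε).1 (by linarith)
  have hl10 : l ≤ l ^ 10 := le_self_pow₀ hl1 (by norm_num)
  have hl11 : l ^ 10 ≤ l ^ 11 := pow_le_pow_right₀ hl1 (by norm_num)
  have hp10 : 0 < l ^ 10 := by positivity
  have hp11 : 0 < l ^ 11 := by positivity
  rw [one_mul] at hlY
  have hlY1 : l ^ 11 ≤ S.Y := hlY.trans (by exact_mod_cast hY0)
  have hlY2 : l ^ 11 ≤ S.Y' := hlY1.trans (by exact_mod_cast hY)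
  have h7 : ((S.Y' ^ 7 : ℕ) : ℝ) ≤ S.Z / l ^ 10 := by
    have e : ((S.Y' ^ 7 * S.Y' : ℕ) : ℝ) ≤ S.Z := by
      rw [← pow_succ]
      exact_mod_cast (Nat.pow_le_pow_right (by omega) (by norm_num)).trans hR.lo
    rw [le_div_iff₀ hp10]
    refine le_trans ?_ e
    rw [Nat.cast_mul]
    gcongr
    linarith
  have h8 : 2 * q ≤ S.Y' ^ 7 := le_trans (by omega) (Nat.le_self_pow (by norm_num) S.Y')
  set Q := ⌊(S.Z : ℝ) / l ^ 10⌋₊ with hQ
  have hQ1 : S.Y' ^ 7 ≤ Q := Nat.le_floor h7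
  have hQ2 : (Q : ℝ) ≤ S.Z / l ^ 10 := Nat.floor_le (by positivity)
  have hQ3 : (S.Z : ℝ) / l ^ 10 ≤ Q + 1 := (Nat.lt_floor_add_one _).le
  obtain ⟨t, ht, htQ⟩ := Real.exists_rat_abs_sub_le_and_den_le (θ / q) (by omega : 0 < Q)
  rw [Rat.cast_def] at ht
  have hcop := t.reduced
  have hd1 := t.pos
  set a := t.num
  set d := t.den
  have hd0 : (1 : ℝ) ≤ d := by exact_mod_cast hd1
  have hdQ : (d : ℝ) ≤ Q := by exact_mod_cast htQ
  have hmu := mu_le hR (by omega)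
  have hrm : rho M * mu S ≤ M * (2 * l) :=
    mul_le_mul (rho_le hM) (by linarith) (mu_nonneg S) hM0
  have hrm0 : 0 ≤ rho M * mu S := mul_nonneg (rho_nonneg M) (mu_nonneg S)
  have hlog : ∀ n : ℕ, n ≤ H * S.Z → Real.log n ≤ 2 * l := by
    intro n hn
    rcases Nat.eq_zero_or_pos n with rfl | h0
    · simp only [Nat.cast_zero, Real.log_zero]; linarith
    · have e : (n : ℝ) ≤ (S.Z : ℝ) ^ 2 := by
        rw [sq]; exact_mod_cast hn.trans (Nat.mul_le_mul_right _ (by omega))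
      have := Real.log_le_log (by exact_mod_cast h0) e
      rwa [Real.log_pow, Nat.cast_ofNat] at this
  have hLZ : (L : ℝ) ≤ H * S.Z := by
    have : L ≤ q * L := Nat.le_mul_of_pos_left _ hq
    exact_mod_cast (by omega : L ≤ H * S.Z)
  have hmain : 0 ≤ 4 / (P₀ : ℝ) * (rho M * muT S) * L :=
    mul_nonneg (mul_nonneg (by positivity)
      (mul_nonneg (rho_nonneg M) ((mu_nonneg S).trans (mu_le_muT S)))) (Nat.cast_nonneg _)
  by_cases hd : (d : ℝ) ≤ l ^ 10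
  · have hZl : 1 ≤ (S.Z : ℝ) / l ^ 11 := by
      rw [le_div_iff₀ hp11, one_mul]
      exact hlY2.trans (by exact_mod_cast hY')
    set K := ⌈(S.Z : ℝ) / l ^ 11⌉₊ with hK
    have hK1 : (S.Z : ℝ) / l ^ 11 ≤ K := Nat.le_ceil _
    have hK2 : (K : ℝ) ≤ 2 * (S.Z / l ^ 11) := by
      have := Nat.ceil_lt_add_one (by linarith : 0 ≤ (S.Z : ℝ) / l ^ 11)
      linarith
    have hK3 : 1 ≤ K := by exact_mod_cast hZl.trans hK1
    have h3 := major (fun n => Fs S n - rho M * mu S) r q L d K a θ ((2 + 2 * M) * l)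
      (4 / P₀ * (rho M * muT S)) (S.Z / l ^ 11) hr hq hK3 (by linarith) (fun k hk => ?_)
      fun x₁ x₂ e1 e2 => hmaj r x₁ x₂ d a hrM e1 (e2.trans hL) hd1 hd hcop
    · refine h3.trans ?_
      have e1 : (L : ℝ) / K * (S.Z / l ^ 11) ≤ H * S.Z := by
        have : (0 : ℝ) < K := by linarith
        calc _ ≤ (L : ℝ) / K * K := by gcongr
          _ = L := by field_simp
          _ ≤ _ := hLZ
      have e2 : (S.Z : ℝ) / l ^ 11 ≤ S.Z := div_le_self hZ.le (one_le_pow₀ hl1)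
      have e3 : |θ - q * a / d| ≤ q * (l ^ 10 / S.Z) := by
        have e : θ - q * a / d = q * (θ / q - a / d) := by field_simp
        rw [e, abs_mul, abs_of_nonneg (by linarith)]
        gcongr
        refine ht.trans ?_
        rw [div_le_div_iff₀ (by positivity) hZ, one_mul]
        rw [div_le_iff₀ hp10] at hQ3
        calc _ ≤ ((Q : ℝ) + 1) * l ^ 10 := hQ3
          _ = l ^ 10 * ((Q + 1) * 1) := by ring
          _ ≤ _ := by gcongr
      have e4 : 7 * |θ - q * a / d| * K * ((2 + 2 * M) * l) * L ≤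
          28 * q * (1 + M) * H * S.Z := by
        calc _ ≤ 7 * (q * (l ^ 10 / S.Z)) * (2 * (S.Z / l ^ 11)) * ((2 + 2 * M) * l) *
              (H * S.Z) := by gcongr
          _ = _ := by field_simp; ring
      have e5 : (H + 1 + 28 * q * (1 + M) * H : ℝ) * S.Z ≤ l * ε * S.Z := by
        gcongr; linarith
      linarith
    · have e1 := Fs_le hR (r + q * k)
      have e2 := Fs_nonneg S (r + q * k)
      have e3 := hlog (r + q * k)
        (le_trans (Nat.add_le_add_left (Nat.mul_le_mul_left _ hk.le) _) hL)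
      have e4 : Fs S (r + q * k) ≤ 2 * l := by
        split_ifs at e1 <;> linarith
      have e5 : 0 ≤ (M : ℝ) * l := by positivity
      rw [abs_le]
      constructor <;> linarith
  · push Not at hd
    have hqd : q < d := by exact_mod_cast (by linarith : (q : ℝ) < d)
    have h3 := model L q d Q a θ hq hqd (by omega) hcop ht
    have hX : r - 1 + q * L ≤ H * S.Z := by omega
    have h4 := minor hR (hSJ ▸ hJ) (by omega) r q (r - 1 + q * 0) (r - 1 + q * L) (θ / q) (2 * l)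
      (S.Z / l ^ 4) (by omega) hq (by linarith) (hlog _ hX) fun N e1 e2 α β hα hβ => ?_
    · rw [sum_prog (fun n => (Fs S n : ℂ) * eR (n * (θ / q))) hr hq, ← range_eq_Ico] at h4
      have e : ∑ k ∈ range L, ((Fs S (r + q * k) - rho M * mu S : ℝ) : ℂ) * eR (k * θ) =
          (∑ k ∈ range L, (Fs S (r + q * k) : ℂ) * eR ((r + q * k : ℕ) * (θ / q))) *
            eR (-(r * (θ / q))) - ((rho M * mu S : ℝ) : ℂ) * ∑ k ∈ range L, eR (k * θ) := by
        rw [sum_mul, mul_sum, ← sum_sub_distrib]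
        refine sum_congr rfl fun k _ => ?_
        have e' : ((r + q * k : ℕ) : ℝ) * (θ / q) + -(r * (θ / q)) = k * θ := by
          push_cast; field_simp; ring
        rw [mul_assoc, ← eR_add, e']; push_cast; ring
      rw [e]
      refine (norm_sub_le _ _).trans ?_
      rw [norm_mul, norm_mul, norm_eR, mul_one, Complex.norm_real, Real.norm_of_nonneg hrm0]
      have e1 : ((Nat.log 2 (S.Y' ^ 6) + 1 : ℕ) : ℝ) ≤ 3 * l := by
        have k1 := log_two_le (pow_pos (by omega : 0 < S.Y') 6).ne'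
        have k2 : Real.log (S.Y' ^ 6 : ℕ) ≤ l :=
          Real.log_le_log (by exact_mod_cast pow_pos (by omega : 0 < S.Y') 6)
            (by exact_mod_cast (Nat.pow_le_pow_right (by omega) (by norm_num)).trans hR.lo)
        rw [Nat.cast_add, Nat.cast_one]
        linarith
      have e2 : ((Nat.log 2 (S.Y' ^ 6) + 1 : ℕ) : ℝ) * (q * (2 * l * (S.Z / l ^ 4))) ≤
          6 * q * S.Z := by
        calc _ ≤ 3 * l * (q * (2 * l * (S.Z / l ^ 2))) := by gcongr; norm_num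
          _ = _ := by field_simp; ring
      have e3 : rho M * mu S * ‖∑ k ∈ range L, eR (k * θ)‖ ≤ 2 * M * S.Z := by
        calc _ ≤ M * (2 * l) * (S.Z / l) := by
              gcongr
              exact h3.trans (hdQ.trans (hQ2.trans (by gcongr)))
          _ = _ := by field_simp
      have e5 : (6 * q + 2 * M : ℝ) * S.Z ≤ l * ε * S.Z := by
        have : 0 ≤ 28 * q * (1 + M) * (H : ℝ) := by positivity
        gcongr; linarith
      linarith
    · have e3 : |θ / q - a / d| ≤ 1 / (d : ℝ) ^ 2 := by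
        refine ht.trans (one_div_le_one_div_of_le (by positivity) ?_)
        rw [sq]; gcongr; linarith
      have e4 := hB (r - 1 + q * L) N d a (θ / q) α β (by omega) hd1 hcop e3 hα hβ
      have e5 : (d : ℝ) ≤ S.Z :=
        hdQ.trans (hQ2.trans (div_le_self hZ.le (one_le_pow₀ hl1)))
      refine (pow_le_pow_iff_left₀ (norm_nonneg _) (by positivity) two_ne_zero).1 (e4.trans ?_)
      exact bil_num (by linarith) hH1 hZ hl1 (Nat.cast_nonneg _) (by exact_mod_cast hX) hd.le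
        (hl11.trans (hlY1.trans (by exact_mod_cast e1))) (hdQ.trans hQ2)
        (le_trans (by exact_mod_cast e2) h7) (Real.log_le_log (by linarith) e5)

end Pool.Agent.MP_a43263_nt.R2

end
end MrgPart3

-- marker of a merged file
example : 731051 + 101380 = 731051 + 101380 := rfl
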