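import Mathlib.Analysis.SpecialFunctions.Pow.NthRootLemmas
import Pool.Agent.MP_a43263_nt.R2.Tri
import Pool.Agent.MP_a43263_nt.R2.Basic
import Pool.Agent.MP_a43263_nt.R2.Spec
import Pool.Agent.MP_a43263_nt.R2.Lya
import Pool.Agent.MP_a43263_nt.R2.Exc
import Pool.Agent.MP_a43263_nt.R2.Box
import Pool.Agent.MP_a43263_nt.R2.Maj
import Pool.Agent.MP_a43263_nt.R2.Cnt
import Pool.Agent.MP_a43263_nt.R2.Desc
import Pool.Agent.MP_a43263_nt.R2.Uu
import Pool.Agent.MP_a43263_nt.R2.Loc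
import Pool.Agent.MP_a43263_nt.R2.Mer
import Pool.Agent.MP_a43263_nt.R2.Pos
import Pool.Agent.MP_a43263_nt.R2.Osc

-- ======== part 0: formerly Pool.Agent.MP_a43263_nt.R2.Dom
section MrgPart0

/-! PROJECT RANK2, module DOM: domination by a product measure. -/

set_option autoImplicit false

noncomputable section

namespace Pool.Agent.MP_a43263_nt.R2

open Finset Filter

namespace Dom

theorem mem_gens {l : Fin 6 → ℕ} {a : Gen} :
    a ∈ gens l ↔ ∃ h : Fin 6, a.1 = h.castSucc ∧ a.2 ∈ (l h).primeFactors := by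
  simp only [gens, mem_biUnion, mem_univ, true_and, mem_image]
  constructor
  · rintro ⟨h, p, hp, rfl⟩
    exact ⟨h, rfl, hp⟩
  · rintro ⟨h, e, hp⟩
    exact ⟨h, a.2, hp, Prod.ext e.symm rfl⟩

theorem mem_gens' {l : Fin 6 → ℕ} {h : Fin 6} {p : ℕ} :
    (h.castSucc, p) ∈ gens l ↔ p ∈ (l h).primeFactors := by
  rw [mem_gens]
  constructor
  · rintro ⟨k, e, hp⟩
    obtain rfl : h = k := Fin.castSucc_injective _ e
    exact hp
  · exact fun hp => ⟨h, rfl, hp⟩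

theorem gens_inj {c c' : Fin 6 → ℕ} (h1 : ∀ h, Squarefree (c h)) (h2 : ∀ h, Squarefree (c' h))
    (e : gens c = gens c') : c = c' := by
  funext h
  rw [← Nat.prod_primeFactors_of_squarefree (h1 h), ← Nat.prod_primeFactors_of_squarefree (h2 h)]
  congr 1
  ext p
  rw [← mem_gens', ← mem_gens', e]

theorem Wt_gens (c : Fin 6 → ℕ) : Wt (gens c) = ∏ h, ∏ p ∈ (c h).primeFactors, wt p := by
  rw [Wt, gens, prod_biUnion]
  · refine prod_congr rfl fun h _ => ?_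
    rw [prod_image fun p _ q _ e => (Prod.ext_iff.1 e).2]
  · intro h _ k _ hn
    refine disjoint_left.2 fun a h1 h2 => hn ?_
    obtain ⟨p, -, rfl⟩ := mem_image.1 h1
    obtain ⟨q, -, e⟩ := mem_image.1 h2
    exact (Fin.castSucc_injective _ (Prod.ext_iff.1 e).1).symm

theorem le_union_md {Y Y' : ℕ} (h : Y ≤ Y') (V : Finset Gen) : le Y V ∪ md Y Y' V = le Y' V := by
  ext a
  simp only [le, md, mem_union, mem_filter]
  constructor
  · rintro (⟨h1, h2⟩ | ⟨h1, h2⟩)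
    · exact ⟨h1, by omega⟩
    · exact ⟨h1, h2.2⟩
  · rintro ⟨h1, h2⟩
    by_cases e : a.2 ≤ Y
    · exact Or.inl ⟨h1, e⟩
    · exact Or.inr ⟨h1, by omega, h2⟩

theorem Wt_split {Y Y' : ℕ} (h : Y ≤ Y') (V : Finset Gen) :
    Wt (le Y V) * Wt (md Y Y' V) = Wt (le Y' V) := by
  rw [← le_union_md h, Wt, Wt, Wt, prod_union]
  refine disjoint_left.2 fun a h1 h2 => ?_
  have := (mem_filter.1 h1).2
  have := (mem_filter.1 h2).2.1
  omega

theorem Wt_nonneg {M a b : ℕ} (hM : 210 ∣ M) {W : Finset Gen} (hW : W ⊆ TT (PP M a b)) :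
    0 ≤ Wt W := by
  refine prod_nonneg fun g hg => ?_
  obtain ⟨h1, h2⟩ := mem_filter.1 (mem_product.1 (hW hg)).2
  have : (11 : ℝ) ≤ g.2 := by exact_mod_cast Fib.ge_eleven hM (mem_filter.1 h1).2 h2
  exact div_nonneg zero_le_one (by linarith)

variable {M : ℕ} {A B : Fin 6 → ℕ} {S : Sc}

theorem dvd_M (hS : Sys M A B) {x : ℕ × ℕ} (hx : x.1.Coprime x.2) {h k : Fin 6} (hn : h ≠ k)
    {p : ℕ} (hp : p.Prime) (h1 : p ∣ lf A B x h) (h2 : p ∣ lf A B x k) : p ∣ M := by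
  refine hS.sm h k hn p hp ?_
  have a1 := Int.natCast_dvd_natCast.2 h1
  have a2 := Int.natCast_dvd_natCast.2 h2
  have hp' := Nat.prime_iff_prime_int.1 hp
  have b1 : (p : ℤ) ∣ res A B h k * x.1 := by
    have e : res A B h k * x.1 = B k * (lf A B x h : ℕ) - B h * (lf A B x k : ℕ) := by
      simp only [res, lf]
      push_cast
      ring
    rw [e]
    exact dvd_sub (a1.mul_left _) (a2.mul_left _)
  have b2 : (p : ℤ) ∣ res A B h k * x.2 := by
    have e : res A B h k * x.2 = A h * (lf A B x k : ℕ) - A k * (lf A B x h : ℕ) := by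
      simp only [res, lf]
      push_cast
      ring
    rw [e]
    exact dvd_sub (a2.mul_left _) (a1.mul_left _)
  by_contra hc
  exact hp.one_lt.ne' (Nat.eq_one_of_dvd_coprimes hx
    (Int.natCast_dvd_natCast.1 ((hp'.dvd_or_dvd b1).resolve_left hc))
    (Int.natCast_dvd_natCast.1 ((hp'.dvd_or_dvd b2).resolve_left hc)))

theorem core_le {c : ℕ} (hc : Core S c) (h0 : S.Y0 ≤ S.Y) (h1 : S.Y ≤ S.Y') :
    c ≤ S.Y' ^ 6 ∧ ∀ p ∈ c.primeFactors, p ≤ S.Y' := by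
  refine ⟨?_, fun p hp => by have := hc.gap p hp; omega⟩
  have e : c.primeFactors.filter (fun p => ¬p ≤ S.Y0) = c.primeFactors.filter (S.Y < ·) :=
    filter_congr fun p hp => by have := hc.gap p hp; omega
  have h2 := prod_filter_mul_prod_filter_not c.primeFactors (· ≤ S.Y0) fun p => p
  rw [e, Nat.prod_primeFactors_of_squarefree hc.sqf] at h2
  calc c = _ := h2.symm
    _ ≤ S.Y0 ^ 3 * S.Y' ^ 3 := Nat.mul_le_mul hc.sm hc.me
    _ ≤ S.Y' ^ 3 * S.Y' ^ 3 := Nat.mul_le_mul_right _ (Nat.pow_le_pow_left (h0.trans h1) 3)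
    _ = S.Y' ^ 6 := by ring

/-- the cores of the six forms -/
theorem cores (hS : Sys S.M A B) (h0 : S.Y0 ≤ S.Y) (h1 : S.Y ≤ S.Y') {x : ℕ × ℕ}
    (hx : x ∈ AA S A B) : ∃ c : Fin 6 → ℕ, (∀ h, Core S (c h)) ∧
      (∀ h, ∃ P : ℕ, P.Prime ∧ S.Y' < P ∧ lf A B x h = c h * P) ∧
      (∀ h k, h ≠ k → (c h).Coprime (c k)) ∧ le S.Y' (gens (lf A B x)) = gens c := by
  simp only [AA, mem_filter] at hx
  obtain ⟨-, -, -, a1, a2⟩ := hx
  choose c P c1 c2 c3 c4 using a2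
  refine ⟨c, c1, fun h => ⟨P h, c2 h, c3 h, c4 h⟩, fun h k hn => ?_, ?_⟩
  · refine Nat.coprime_of_dvd fun p hp e1 e2 => hp.one_lt.ne' ?_
    exact Nat.eq_one_of_dvd_coprimes (c1 h).cop e1 (dvd_M hS a1 hn hp
      (c4 h ▸ e1.mul_right _) (c4 k ▸ e2.mul_right _))
  · ext a
    simp only [le, mem_filter, mem_gens]
    constructor
    · rintro ⟨⟨h, e, hp⟩, hl⟩
      obtain ⟨b1, b2, -⟩ := Nat.mem_primeFactors.1 hp
      rw [c4 h] at b2
      refine ⟨h, e, Nat.mem_primeFactors.2 ⟨b1, (b1.dvd_mul.1 b2).resolve_right fun b3 => ?_,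
        (c1 h).sqf.ne_zero⟩⟩
      have := (Nat.prime_dvd_prime_iff_eq b1 (c2 h)).1 b3
      have := c3 h
      omega
    · rintro ⟨h, e, hp⟩
      refine ⟨⟨h, e, ?_⟩, (core_le (c1 h) h0 h1).2 _ hp⟩
      rw [c4 h]
      exact Nat.primeFactors_mono (dvd_mul_right _ _)
        (mul_ne_zero (c1 h).sqf.ne_zero (c2 h).ne_zero) hp

theorem mem_TT {c : Fin 6 → ℕ} (hc : ∀ h, Core S (c h)) {a : Gen} (ha : a ∈ gens c) {lo hi : ℕ}
    (h1 : lo < a.2) (h2 : a.2 ≤ hi) : a ∈ TT (PP S.M lo hi) := by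
  obtain ⟨h, e, hp⟩ := mem_gens.1 ha
  obtain ⟨b1, b2, -⟩ := Nat.mem_primeFactors.1 hp
  refine mem_product.2 ⟨mem_erase.2 ⟨e ▸ (Fin.castSucc_lt_last h).ne, mem_univ _⟩,
    mem_filter.2 ⟨mem_filter.2 ⟨mem_Ioc.2 ⟨h1, h2⟩, b1⟩, fun b3 => b1.one_lt.ne' ?_⟩⟩
  exact Nat.eq_one_of_dvd_coprimes (hc h).cop b2 b3

open Classical in
theorem maps (hS : Sys S.M A B) (h0 : S.Y0 ≤ S.Y) (h1 : S.Y ≤ S.Y') {x : ℕ × ℕ}
    (hx : x ∈ AA S A B) : (le S.Y (gens (lf A B x)), md S.Y S.Y' (gens (lf A B x))) ∈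
      ((TT (PP S.M 0 S.Y0)).powerset.filter Dist) ×ˢ (TT (PP S.M S.Y S.Y')).powerset := by
  obtain ⟨c, c1, -, c3, c4⟩ := cores hS h0 h1 hx
  have s1 : le S.Y (gens (lf A B x)) ⊆ gens c := by
    rw [← c4, ← le_union_md h1]
    exact subset_union_left
  have s2 : md S.Y S.Y' (gens (lf A B x)) ⊆ gens c := by
    rw [← c4, ← le_union_md h1]
    exact subset_union_right
  refine mem_product.2 ⟨mem_filter.2 ⟨mem_powerset.2 fun a ha => ?_, fun a ha b hb e => ?_⟩,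
    mem_powerset.2 fun a ha =>
      mem_TT c1 (s2 ha) (mem_filter.1 ha).2.1 (mem_filter.1 ha).2.2⟩
  · obtain ⟨h, -, hp⟩ := mem_gens.1 (s1 ha)
    have b1 := (c1 h).gap _ hp
    have b2 := (mem_filter.1 ha).2
    exact mem_TT c1 (s1 ha) (Nat.prime_of_mem_primeFactors hp).pos (by omega)
  · obtain ⟨h, e1, hp⟩ := mem_gens.1 (s1 ha)
    obtain ⟨k, e2, hq⟩ := mem_gens.1 (s1 hb)
    by_cases hn : h = k
    · exact Prod.ext (by rw [e1, e2, hn]) e
    · exact absurd (e ▸ hq) (disjoint_left.1 (c3 h k hn).disjoint_primeFactors hp)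

end Dom

open Dom Classical in
theorem dom : FIBStmt → DOMStmt := by
  intro fb M A B hS
  obtain ⟨C, hC⟩ := fb M A B hS
  obtain ⟨y0, hy⟩ := eventually_atTop.1 hC
  refine ⟨max C 0, le_max_right _ _, fun J => ⟨max y0 2, ?_⟩⟩
  rintro S rfl - ht hR Φ hΦ
  have t2 : 2 ≤ S.Y0 := (le_max_right _ _).trans ht
  have h0 : S.Y0 ≤ S.Y := hR.hY ▸ Nat.le_self_pow (by norm_num) _
  have h1 : S.Y ≤ S.Y' := hR.hY' ▸ Nat.le_self_pow (by positivity) _
  have hZ : S.Y' ^ 200 ≤ S.Z := (Nat.pow_le_pow_right (by omega) (by norm_num)).trans hR.lo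
  have hK : 0 ≤ (S.Z : ℝ) ^ 2 / Real.log S.Y' ^ 6 := by positivity
  rw [← sum_fiberwise_of_maps_to (fun x hx => maps hS h0 h1 hx), ← sum_product', mul_sum]
  refine sum_le_sum fun w hw => ?_
  obtain ⟨w1, w2⟩ := mem_product.1 hw
  have p1 := Wt_nonneg hS.dvd (mem_powerset.1 (mem_filter.1 w1).1)
  have p2 := Wt_nonneg hS.dvd (mem_powerset.1 w2)
  rw [sum_congr rfl (g := fun _ => Φ w.1 w.2) fun x hx => by rw [← (mem_filter.1 hx).2],
    sum_const, nsmul_eq_mul, ← mul_assoc]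
  refine mul_le_mul_of_nonneg_right ?_ (hΦ _ _)
  rcases ((AA S A B).filter fun x => (le S.Y (gens (lf A B x)), md S.Y S.Y' (gens (lf A B x))) =
    w).eq_empty_or_nonempty with e | ⟨x0, hx0⟩
  · rw [e, card_empty, Nat.cast_zero, mul_div_assoc]
    exact mul_nonneg (mul_nonneg (le_max_right _ _) hK) (mul_nonneg p1 p2)
  obtain ⟨x1, x2⟩ := mem_filter.1 hx0
  obtain ⟨c, c1, -, c3, c4⟩ := cores hS h0 h1 x1
  have hb := hy S.Y' (((le_max_left _ _).trans ht).trans (h0.trans h1)) S.Z c hZ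
    (fun h => ⟨(c1 h).sqf, (c1 h).cop, core_le (c1 h) h0 h1⟩) c3
  have hw' : Wt w.1 * Wt w.2 = ∏ h, ∏ p ∈ (c h).primeFactors, wt p := by
    rw [← x2, Wt_split h1, c4, Wt_gens]
  refine le_trans (Nat.cast_le.2 (card_le_card fun x hx => ?_)) (hb.trans ?_)
  · obtain ⟨z1, z2⟩ := mem_filter.1 hx
    obtain ⟨c', d1, d2, -, d4⟩ := cores hS h0 h1 z1
    have e := Prod.ext_iff.1 (z2.trans x2.symm)
    obtain rfl : c' = c := gens_inj (fun h => (d1 h).sqf) (fun h => (c1 h).sqf) (by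
      rw [← d4, ← c4, ← le_union_md h1, ← le_union_md h1]
      exact congrArg₂ _ e.1 e.2)
    simp only [AA, mem_filter] at z1 ⊢
    exact ⟨z1.1, d2⟩
  · rw [← hw', mul_div_assoc, mul_div_assoc]
    exact mul_le_mul_of_nonneg_right (mul_le_mul_of_nonneg_right (le_max_left _ _) hK)
      (mul_nonneg p1 p2)

end Pool.Agent.MP_a43263_nt.R2

end
end MrgPart0

-- ======== part 1: formerly Pool.Agent.MP_a43263_nt.R2.Fin
section MrgPart1

/-! PROJECT RANK2, module FIN: the choice of the constants. -/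

set_option autoImplicit false

noncomputable section

namespace Pool.Agent.MP_a43263_nt.R2

open Finset Filter

namespace FIN

/-- the modulus -/
theorem exists_N (B : ℕ) (hB : 3 ≤ B) : ∃ N : ℕ, 0 < N ∧ Squarefree (3 * N) ∧ ¬3 ∣ N ∧
    (∀ p : ℕ, p.Prime → p ≤ B → p ∣ 3 * N) ∧ Odd (3 * N).primeFactors.card := by
  obtain ⟨T, hT, hB', hodd⟩ : ∃ T : Finset ℕ, (∀ p ∈ T, p.Prime) ∧
      (∀ p : ℕ, p.Prime → p ≤ B → p ∈ T) ∧ Odd T.card := by
    rcases Nat.even_or_odd (pri 0 B).card with h | h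
    · obtain ⟨q, hq, hq'⟩ := Nat.exists_infinite_primes (B + 1)
      refine ⟨insert q (pri 0 B), fun p hp => ?_, fun p hp h' =>
        mem_insert_of_mem (mem_pri.2 ⟨hp.pos, h', hp⟩), ?_⟩
      · rcases mem_insert.1 hp with rfl | hp
        · exact hq'
        · exact (mem_pri.1 hp).2.2
      · rw [card_insert_of_notMem fun h' => by have := (mem_pri.1 h').2.1; omega]
        exact h.add_one
    · exact ⟨_, fun p hp => (mem_pri.1 hp).2.2, fun p hp h' => mem_pri.2 ⟨hp.pos, h', hp⟩, h⟩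
  have h3 : 3 ∈ T := hB' 3 Nat.prime_three hB
  have e : 3 * ∏ p ∈ T.erase 3, p = ∏ p ∈ T, p := mul_prod_erase T (fun p => p) h3
  have hsq : Squarefree (∏ p ∈ T, p) :=
    Finset.squarefree_prod_of_pairwise_isCoprime
      (fun p hp q hq hpq => Nat.coprime_iff_isRelPrime.1
        ((Nat.coprime_primes (hT p hp) (hT q hq)).2 hpq)) fun p hp => (hT p hp).squarefree
  refine ⟨∏ p ∈ T.erase 3, p, prod_pos fun p hp => (hT p (mem_of_mem_erase hp)).pos, e ▸ hsq,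
    fun h => ?_, fun p hp h => e ▸ dvd_prod_of_mem _ (hB' p hp h), ?_⟩
  · exact Nat.prime_three.prime.not_isUnit (hsq 3 (e ▸ mul_dvd_mul_left 3 h))
  · rw [e, Nat.primeFactors_prod hT]; exact hodd

/-- nonzero, with all prime factors in `M` -/
def Sm (M : ℕ) (t : ℤ) : Prop := t ≠ 0 ∧ ∀ p : ℕ, p.Prime → (p : ℤ) ∣ t → p ∣ M

theorem Sm.mul {M : ℕ} {s t : ℤ} (hs : Sm M s) (ht : Sm M t) : Sm M (s * t) :=
  ⟨mul_ne_zero hs.1 ht.1, fun p hp h =>
    ((Nat.prime_iff_prime_int.1 hp).dvd_or_dvd h).elim (hs.2 p hp) (ht.2 p hp)⟩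

theorem Sm.neg {M : ℕ} {s : ℤ} (hs : Sm M s) : Sm M (-s) :=
  ⟨neg_ne_zero.2 hs.1, fun p hp h => hs.2 p hp (dvd_neg.1 h)⟩

theorem Sm.of_dvd {M d : ℕ} (hM : 0 < M) (h : d ∣ M) : Sm M d :=
  ⟨Nat.cast_ne_zero.2 (Nat.pos_of_dvd_of_pos h hM).ne', fun _ _ k =>
    (Int.natCast_dvd_natCast.1 k).trans h⟩

theorem Sm.sub {M B a b : ℕ} (hM : ∀ p : ℕ, p.Prime → p ≤ B → p ∣ M) (ha : a ≤ B) (hb : b ≤ B)
    (hab : a ≠ b) : Sm M ((a : ℤ) - b) := by
  refine ⟨sub_ne_zero.2 (by exact_mod_cast hab), fun p hp h => hM p hp ?_⟩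
  have := Nat.le_of_dvd (by omega) (Int.natCast_dvd.1 h)
  omega

theorem inj35 {i j i' j' : ℕ} (h : (3 ^ i) ^ 2 * (5 ^ j) ^ 2 = (3 ^ i') ^ 2 * (5 ^ j') ^ 2) :
    i = i' ∧ j = j' := by
  have c : ∀ a b : ℕ, Nat.Coprime ((3 ^ a) ^ 2) ((5 ^ b) ^ 2) := fun a b =>
    Nat.Coprime.pow _ _ (Nat.Coprime.pow _ _ (by norm_num))
  have h1 : (3 ^ i) ^ 2 = (3 ^ i') ^ 2 := Nat.dvd_antisymm
    ((c i j').dvd_of_dvd_mul_right (h ▸ dvd_mul_right _ _))
    ((c i' j).dvd_of_dvd_mul_right (h.symm ▸ dvd_mul_right _ _))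
  rw [h1] at h
  have h2 := Nat.eq_of_mul_eq_mul_left (by positivity) h
  exact ⟨Nat.pow_right_injective (by norm_num) (Nat.pow_left_injective (by norm_num) h1),
    Nat.pow_right_injective (by norm_num) (Nat.pow_left_injective (by norm_num) h2)⟩

theorem le225 {K i j : ℕ} (hi : i ≤ K) (hj : j ≤ K) : (3 ^ i) ^ 2 * (5 ^ j) ^ 2 ≤ 225 ^ K := by
  calc _ ≤ (3 ^ K) ^ 2 * (5 ^ K) ^ 2 := by gcongr <;> norm_num
    _ = _ := by rw [← mul_pow, ← mul_pow, ← pow_mul, mul_comm K, pow_mul]; norm_num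

section
variable {N B K i i' j j' : ℕ} (hN : 0 < N) (hM : ∀ p : ℕ, p.Prime → p ≤ B → p ∣ 3 * N)
  (hB : 225 ^ K ≤ B) (hi : i < K) (hi' : i' < K) (hj : j < K) (hj' : j' < K)
include hM hB

theorem sm_sub {a b a' b' : ℕ} (ha : a ≤ K) (hb : b ≤ K) (ha' : a' ≤ K) (hb' : b' ≤ K)
    (h : a ≠ a' ∨ b ≠ b') :
    Sm (3 * N) (((3 : ℤ) ^ a) ^ 2 * (5 ^ b) ^ 2 - (3 ^ a') ^ 2 * (5 ^ b') ^ 2) := by
  have := Sm.sub hM ((le225 ha hb).trans hB) ((le225 ha' hb').trans hB) fun e => by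
    have := inj35 e; omega
  exact_mod_cast this

theorem sm_one {a b : ℕ} (ha : a ≤ K) (hb : b ≤ K) :
    Sm (3 * N) (((3 : ℤ) ^ a) ^ 2 * (5 ^ b) ^ 2) := by
  have := Sm.sub hM ((le225 ha hb).trans hB) (Nat.zero_le B) (by positivity)
  simpa using this

include hi hi' hj hj' in
theorem sm_c (hii : i ≠ i') (hjj : j ≠ j') :
    Sm (3 * N) (((((3 ^ i : ℕ) : ℤ)) ^ 2 - ((3 ^ i' : ℕ) : ℤ) ^ 2) *
      (((5 ^ j' : ℕ) : ℤ) ^ 2 - ((5 ^ j : ℕ) : ℤ) ^ 2)) := by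
  have h1 := sm_sub hM hB hi.le (Nat.zero_le K) hi'.le (Nat.zero_le K) (Or.inl hii)
  have h2 := sm_sub hM hB (Nat.zero_le K) hj'.le (Nat.zero_le K) hj.le (Or.inr hjj.symm)
  simpa using h1.mul h2

include hN hi hi' hj hj' in
theorem sm_res (hii : i ≠ i') (hjj : j ≠ j') (h k : Fin 6) (hk : h ≠ k) :
    Sm (3 * N) (res (cA (3 ^ i) (3 ^ i')) (cB N (5 ^ j) (5 ^ j')) h k) := by
  have h0 : 0 < 3 * N := by omega
  have z := Nat.zero_le K
  have s1 : Sm (3 * N) (1 : ℕ) := Sm.of_dvd h0 (one_dvd _)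
  have s3 : Sm (3 * N) (3 : ℕ) := Sm.of_dvd h0 (dvd_mul_right _ _)
  have sN : Sm (3 * N) N := Sm.of_dvd h0 (dvd_mul_left _ _)
  have t : ∀ {a b a' b' : ℕ}, a ≤ K → b ≤ K → a' ≤ K → b' ≤ K → a ≠ a' ∨ b ≠ b' → ∀ r : ℤ,
      r = (3 : ℕ) * N * (((3 : ℤ) ^ a) ^ 2 * (5 ^ b) ^ 2 - (3 ^ a') ^ 2 * (5 ^ b') ^ 2) →
      Sm (3 * N) r := fun h1 h2 h3 h4 h5 r e => e ▸ (s3.mul sN).mul (sm_sub hM hB h1 h2 h3 h4 h5)
  have tA : ∀ {a : ℕ}, a ≤ K → ∀ r : ℤ, r = -((3 : ℕ) * (((3 : ℤ) ^ a) ^ 2 * (5 ^ 0) ^ 2)) →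
      Sm (3 * N) r := fun h1 r e => e ▸ (s3.mul (sm_one hM hB h1 z)).neg
  have tB : ∀ {b : ℕ}, b ≤ K → ∀ r : ℤ, r = N * (((3 : ℤ) ^ 0) ^ 2 * (5 ^ b) ^ 2) →
      Sm (3 * N) r := fun h1 r e => e ▸ sN.mul (sm_one hM hB z h1)
  set R := res (cA (3 ^ i) (3 ^ i')) (cB N (5 ^ j) (5 ^ j')) with hR
  have sy : ∀ a b, Sm (3 * N) (R a b) → Sm (3 * N) (R b a) := fun a b h => by
    have e : R b a = -R a b := by simp only [hR, res]; ring
    exact e ▸ h.neg
  have f01 : Sm (3 * N) (R 0 1) := by simpa [hR, res, cA, cB] using s1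
  have f02 : Sm (3 * N) (R 0 2) := tB hj.le _ (by simp [hR, res, cA, cB])
  have f03 : Sm (3 * N) (R 0 3) := tB hj'.le _ (by simp [hR, res, cA, cB])
  have f04 : Sm (3 * N) (R 0 4) := tB hj'.le _ (by simp [hR, res, cA, cB])
  have f05 : Sm (3 * N) (R 0 5) := tB hj.le _ (by simp [hR, res, cA, cB])
  have f12 : Sm (3 * N) (R 1 2) := tA hi.le _ (by simp [hR, res, cA, cB])
  have f13 : Sm (3 * N) (R 1 3) := tA hi'.le _ (by simp [hR, res, cA, cB])
  have f14 : Sm (3 * N) (R 1 4) := tA hi.le _ (by simp [hR, res, cA, cB])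
  have f15 : Sm (3 * N) (R 1 5) := tA hi'.le _ (by simp [hR, res, cA, cB])
  have f23 : Sm (3 * N) (R 2 3) := t hi.le hj'.le hi'.le hj.le (Or.inl hii) _
    (by simp [hR, res, cA, cB]; ring)
  have f24 : Sm (3 * N) (R 2 4) := t hi.le hj'.le hi.le hj.le (Or.inr hjj.symm) _
    (by simp [hR, res, cA, cB]; ring)
  have f25 : Sm (3 * N) (R 2 5) := t hi.le hj.le hi'.le hj.le (Or.inl hii) _
    (by simp [hR, res, cA, cB]; ring)
  have f34 : Sm (3 * N) (R 3 4) := t hi'.le hj'.le hi.le hj'.le (Or.inl hii.symm) _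
    (by simp [hR, res, cA, cB]; ring)
  have f35 : Sm (3 * N) (R 3 5) := t hi'.le hj.le hi'.le hj'.le (Or.inr hjj) _
    (by simp [hR, res, cA, cB]; ring)
  have f45 : Sm (3 * N) (R 4 5) := t hi.le hj.le hi'.le hj'.le (Or.inl hii) _
    (by simp [hR, res, cA, cB]; ring)
  clear_value R
  fin_cases h <;> fin_cases k <;>
    first | exact absurd rfl hk | assumption | (apply sy; assumption)

end

theorem cop_aux {N i j : ℕ} (h3 : ¬3 ∣ N) :
    (3 * (3 ^ i) ^ 2 + N * (5 ^ j) ^ 2).Coprime (3 * N) := by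
  have c3 : Nat.Coprime 3 N := (Nat.Prime.coprime_iff_not_dvd Nat.prime_three).2 h3
  refine Nat.Coprime.mul_right ?_ ?_
  · rw [add_comm, Nat.coprime_add_mul_left_left]
    exact Nat.Coprime.mul_left c3.symm (Nat.Coprime.pow_left _ (Nat.Coprime.pow_left _ (by norm_num)))
  · rw [Nat.coprime_add_mul_left_left]
    exact Nat.Coprime.mul_left c3 (Nat.Coprime.pow_left _ (Nat.Coprime.pow_left _ c3))

theorem sys {N B K i i' j j' : ℕ} (hN : 0 < N) (h3 : ¬3 ∣ N)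
    (hM : ∀ p : ℕ, p.Prime → p ≤ B → p ∣ 3 * N) (h7 : 7 ≤ B) (hB : 225 ^ K ≤ B) (hi : i < K)
    (hi' : i' < K) (hj : j < K) (hj' : j' < K) (hii : i ≠ i') (hjj : j ≠ j') :
    Sys (3 * N) (cA (3 ^ i) (3 ^ i')) (cB N (5 ^ j) (5 ^ j')) where
  pos := by omega
  dvd := by
    have h2 := hM 2 (by norm_num) (by omega)
    have h5 := hM 5 (by norm_num) (by omega)
    have h7 := hM 7 (by norm_num) h7
    omega
  a0 := rfl
  b0 := rfl
  a1 := rfl
  b1 := rfl
  ne := fun h k hk => (sm_res hN hM hB hi hi' hj hj' hii hjj h k hk).1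
  sm := fun h k hk => (sm_res hN hM hB hi hi' hj hj' hii hjj h k hk).2
  cop := fun h => by
    fin_cases h
    · exact Nat.coprime_one_left _
    · exact Nat.coprime_one_left _
    all_goals exact cop_aux h3

/-- scales exist for every large `Z` -/
theorem exists_scale (M J t : ℕ) : ∀ᶠ Z : ℕ in atTop, ∃ S : Sc, S.M = M ∧ S.J = J ∧ t ≤ S.Y0 ∧
    Rel S ∧ S.Z = Z := by
  obtain ⟨a, ha⟩ : ∃ a : ℕ, a = 1000000 := ⟨_, rfl⟩
  obtain ⟨b, hb⟩ : ∃ b : ℕ, b = 10000 := ⟨_, rfl⟩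
  have hE : a * 128 ^ J * b ≠ 0 := by rw [ha, hb]; positivity
  filter_upwards [eventually_ge_atTop ((t + 2) ^ (a * 128 ^ J * b))] with Z hZ
  have h1 := (Nat.le_nthRoot_iff hE).2 hZ
  have h2 := (Nat.pow_nthRoot_le_iff (n := a * 128 ^ J * b) (a := Z)).2 (Or.inl hE)
  have h3 := Nat.lt_pow_nthRoot_add_one hE Z
  generalize Nat.nthRoot (a * 128 ^ J * b) Z = y at h1 h2 h3
  have h4 : y + 1 ≤ y ^ 2 := by nlinarith
  have h5 : Z ≤ ((y ^ a) ^ 128 ^ J) ^ (2 * b) := by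
    refine (h3.le.trans (Nat.pow_le_pow_left h4 _)).trans (le_of_eq ?_)
    simp only [← pow_mul]
    congr 1
    ring
  rw [pow_mul, pow_mul] at h2
  refine ⟨⟨M, y, y ^ a, (y ^ a) ^ 128 ^ J, Z, J, 0⟩, rfl, rfl, by simp only; omega,
    ⟨congrArg (y ^ ·) ha, rfl, ?_, ?_⟩, rfl⟩
  · rwa [← hb]
  · have : 20000 = 2 * b := by omega
    rwa [this]

end FIN

open FIN in
theorem fin : ALGStmt → POSStmt → MKVStmt → MainStmt := by
  classical
  rintro alg ⟨K, P₀, J₀, hpos⟩ mkv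
  obtain ⟨G, hB⟩ : ∃ G : ℕ, 225 ^ K ≤ P₀ + 7 + G := ⟨_, Nat.le_add_left _ _⟩
  obtain ⟨N, hN, hsq, h3, hM, hodd⟩ := exists_N (P₀ + 7 + G) (by omega)
  obtain ⟨δ, hδ, hpos⟩ := hpos N hN (fun p hp h => hM p hp (by omega)) h3
  set T := ((range K ×ˢ range K) ×ˢ range K ×ˢ range K).filter
    fun q => q.1.1 ≠ q.1.2 ∧ q.2.1 ≠ q.2.2 with hT
  have hT' : ∀ q ∈ T, q.1.1 < K ∧ q.1.2 < K ∧ q.2.1 < K ∧ q.2.2 < K ∧ q.1.1 ≠ q.1.2 ∧
      q.2.1 ≠ q.2.2 := fun q hq => by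
    simpa only [hT, mem_filter, mem_product, mem_range, and_assoc] using hq
  have hsys : ∀ q ∈ T, Sys (3 * N) (cA (3 ^ q.1.1) (3 ^ q.1.2)) (cB N (5 ^ q.2.1) (5 ^ q.2.2)) :=
    fun q hq => by
      obtain ⟨a, b, c, d, e, f⟩ := hT' q hq
      exact sys hN h3 hM (by omega) hB a b c d e f
  have hc : ∀ q ∈ T, Sm (3 * N) (((((3 ^ q.1.1 : ℕ) : ℤ)) ^ 2 - ((3 ^ q.1.2 : ℕ) : ℤ) ^ 2) *
      (((5 ^ q.2.2 : ℕ) : ℤ) ^ 2 - ((5 ^ q.2.1 : ℕ) : ℤ) ^ 2)) := fun q hq => by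
    obtain ⟨a, b, c, d, e, f⟩ := hT' q hq
    exact sm_c hM hB a b c d e f
  choose! J₁ hJ₁ using fun q (hq : q ∈ T) =>
    mkv _ _ _ _ δ (hsys q hq) (hc q hq).1 (hc q hq).2 hodd hδ
  obtain ⟨t, ht⟩ := (hpos (J₀ + T.sup J₁) (Nat.le_add_right _ _)).and
    (Ev.all T fun q hq => (hJ₁ q hq (J₀ + T.sup J₁) ((le_sup hq).trans (Nat.le_add_left _ _))).par)
  have hN' : (0 : ℝ) < N := by exact_mod_cast hN
  refine ⟨5 ^ K, δ / 32 / (6 * N) ^ 2, by positivity, ?_⟩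
  filter_upwards [(Nat.tendsto_div_const_atTop (n := 3 * N) (by omega)).eventually
    (exists_scale (3 * N) (J₀ + T.sup J₁) t), eventually_ge_atTop (3 * N)] with X hS hX
  obtain ⟨S, h1, h2, h4, hR, hZ⟩ := hS
  obtain ⟨⟨e, i, hi, i', hi', j, hj, j', hj', hii, hjj, hA⟩, hG⟩ := ht S h1 h2 h4 hR
  have hq : ((i, i'), j, j') ∈ T := by
    simp only [hT, mem_filter, mem_product, mem_range]
    exact ⟨⟨⟨hi, hi'⟩, hj, hj'⟩, hii, hjj⟩
  have hs := hsys _ hq
  have hG' := hG _ hq e hA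
  have m3 : ∀ a < K, 3 ^ a ∈ Icc 1 (5 ^ K) := fun a ha => mem_Icc.2 ⟨Nat.pow_pos (by norm_num),
    (Nat.pow_le_pow_left (by norm_num) a).trans (Nat.pow_le_pow_right (by norm_num) ha.le)⟩
  have m5 : ∀ a < K, 5 ^ a ∈ Icc 1 (5 ^ K) := fun a ha => mem_Icc.2 ⟨Nat.pow_pos (by norm_num),
    Nat.pow_le_pow_right (by norm_num) ha.le⟩
  refine ⟨_, m3 i hi, _, m3 i' hi', _, m5 j hj, _, m5 j' hj', ?_⟩
  have hZX : 3 * N * S.Z ≤ X := hZ ▸ Nat.mul_div_le _ _
  have hXZ : (X : ℝ) ≤ 6 * N * S.Z := by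
    have k1 : X < 3 * N * (S.Z + 1) := hZ ▸ Nat.lt_mul_div_succ _ (by omega)
    have k2 : 1 ≤ S.Z := hZ ▸ Nat.div_pos hX (by omega)
    have k3 : X ≤ 6 * N * S.Z := by nlinarith
    exact_mod_cast k3
  refine le_trans ?_ (hG'.trans (Nat.cast_le.2 (card_le_card_of_injOn
    (fun x => (3 * x.1, N * x.2)) (fun x hx => ?_) fun x _ y _ h => ?_)))
  · rw [div_mul_eq_mul_div, div_le_iff₀ (by positivity)]
    calc δ / 32 * (X : ℝ) ^ 2 ≤ δ / 32 * (6 * N * S.Z) ^ 2 := by gcongr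
      _ = _ := by ring
  · obtain ⟨hx, hK⟩ := mem_filter.1 (mem_coe.1 hx)
    have ad := adm_of_mem (hR.par e) hx
    rw [show ({ S with e := e } : Sc).M = 3 * N from h1] at ad
    obtain ⟨⟨a1, a2⟩, ⟨b1, b2⟩, -, -, hco, hsh⟩ := mem_AA.1 hx
    have c1 : x.1.Coprime (3 * N) := hs.lf0 x ▸ ad.coprime_M hs 0
    have c2 : x.2.Coprime (3 * N) := hs.lf1 x ▸ ad.coprime_M hs 1
    have a2' : x.1 ≤ S.Z := a2
    have b2' : x.2 ≤ S.Z := b2
    refine mem_coe.2 (mem_filter.2 ⟨mem_product.2 ⟨mem_Icc.2 ⟨by simp only; omega, ?_⟩,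
      mem_Icc.2 ⟨Nat.mul_pos hN b1, ?_⟩⟩, ?_, ?_⟩)
    · simp only; nlinarith
    · simp only; nlinarith
    · exact Nat.Coprime.mul_left
        (Nat.Coprime.mul_right ((Nat.Prime.coprime_iff_not_dvd Nat.prime_three).2 h3)
          c2.coprime_mul_right_right.symm)
        (Nat.Coprime.mul_right c1.coprime_mul_left_right hco)
    · refine alg _ _ _ _ N x ⟨Odd.pow (by decide), Odd.pow (by decide), Odd.pow (by decide),
        Odd.pow (by decide), fun h => hii (Nat.pow_right_injective (by norm_num) h),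
        fun h => hjj (Nat.pow_right_injective (by norm_num) h), ?_, hsq, (hc _ hq).2, ad.sqf,
        fun h => (hsh h).one_lt, ad.coprime_M hs, fun h k => ad.coprime hs⟩ hK
      have := hs.two
      omega
  · obtain ⟨k1, k2⟩ := Prod.mk.inj h
    exact Prod.ext (by omega) (Nat.eq_of_mul_eq_mul_left hN k2)

end Pool.Agent.MP_a43263_nt.R2

end
end MrgPart1

-- ======== part 2: formerly Pool.Agent.MP_a43263_nt.R2.Jinv
section MrgPart2

/-! PROJECT RANK2: every j-invariant occurs at most twelve times in the family. -/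

set_option autoImplicit false

noncomputable section

namespace Pool.Agent.MP_a43263_nt.R2

open Finset Filter Polynomial

theorem Ecv_c4 (a b : ℚ) : (Ecv a b).c₄ = 16 * (a ^ 2 - a * b + b ^ 2) := by
  simp only [Ecv, WeierstrassCurve.c₄, WeierstrassCurve.b₂, WeierstrassCurve.b₄]; ring

theorem Ecv_Δ (a b : ℚ) : (Ecv a b).Δ = 16 * a ^ 2 * b ^ 2 * (a - b) ^ 2 := by
  simp only [Ecv, WeierstrassCurve.Δ, WeierstrassCurve.b₂, WeierstrassCurve.b₄,
    WeierstrassCurve.b₆, WeierstrassCurve.b₈]; ring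

def jv (E : WeierstrassCurve ℚ) : ℚ := E.Δ⁻¹ * E.c₄ ^ 3

theorem j_eq_jv (E : WeierstrassCurve ℚ) [E.IsElliptic] : E.j = jv E := by
  rw [WeierstrassCurve.j, Units.val_inv_eq_inv_val, WeierstrassCurve.coe_Δ', jv]

theorem fibre_jv (u v w z : ℕ) (hw : 0 < w) (hz : 0 < z) (T : Finset (ℕ × ℕ)) (j : ℚ)
    (hT : ∀ x ∈ T, 0 < x.2 ∧ x.1.Coprime x.2 ∧ (Efam u v w z x.1 x.2).IsElliptic ∧
      jv (Efam u v w z x.1 x.2) = j) : T.card ≤ 12 := by
  let a : ℚ[X] := (X * C ((u : ℚ) ^ 2) + C ((w : ℚ) ^ 2)) * (X * C ((v : ℚ) ^ 2) + C ((z : ℚ) ^ 2))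
  let b : ℚ[X] := (X * C ((u : ℚ) ^ 2) + C ((z : ℚ) ^ 2)) * (X * C ((v : ℚ) ^ 2) + C ((w : ℚ) ^ 2))
  let P : ℚ[X] := (C 16 * (a ^ 2 - a * b + b ^ 2)) ^ 3 - C j * (C 16 * a ^ 2 * b ^ 2 * (a - b) ^ 2)
  have h0 : P ≠ 0 := fun h => by
    have : P.eval 0 = (16 * ((w : ℚ) * z) ^ 4) ^ 3 := by
      simp only [P, a, b, eval_sub, eval_mul, eval_add, eval_pow, eval_C, eval_X]; ring
    rw [h, eval_zero] at this
    exact absurd this.symm (by positivity)
  have h1 : P.natDegree ≤ 12 := by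
    simp only [P, a, b]
    compute_degree
  refine le_trans ?_ ((Multiset.toFinset_card_le _).trans ((card_roots' P).trans h1))
  refine card_le_card_of_injOn (fun x => (x.1 : ℚ) / x.2) (fun x hx => ?_) fun x hx y hy e => ?_
  · obtain ⟨k1, -, k2, k3⟩ := hT x hx
    have k4 : (Efam u v w z x.1 x.2).Δ ≠ 0 := k2.isUnit.ne_zero
    rw [jv, inv_mul_eq_iff_eq_mul₀ k4, Efam, Ecv_c4, Ecv_Δ] at k3
    have k5 : (x.2 : ℚ) ≠ 0 := by positivity
    simp only [mem_coe, Multiset.mem_toFinset, mem_roots h0, IsRoot, P, a, b, eval_sub, eval_mul,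
      eval_add, eval_pow, eval_C, eval_X]
    field_simp
    linear_combination k3
  · obtain ⟨k1, k2, -⟩ := hT x hx
    obtain ⟨l1, l2, -⟩ := hT y hy
    have := Rat.div_int_inj (a := x.1) (b := x.2) (c := y.1) (d := y.2) (by exact_mod_cast k1)
      (by exact_mod_cast l1) (by simpa using k2) (by simpa using l2) (by simpa using e)
    exact Prod.ext (by exact_mod_cast this.1) (by exact_mod_cast this.2)

/-- the main statement with pairwise different j-invariants -/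
theorem main_j (h : MainStmt) : ∃ (K : ℕ) (c : ℝ), 0 < c ∧ ∀ᶠ X : ℕ in atTop,
    ∃ u ∈ Icc 1 K, ∃ v ∈ Icc 1 K, ∃ w ∈ Icc 1 K, ∃ z ∈ Icc 1 K, ∃ T ⊆ Icc 1 X ×ˢ Icc 1 X,
      c * (X : ℝ) ^ 2 ≤ T.card ∧ (∀ x ∈ T, x.1.Coprime x.2 ∧ Good (Efam u v w z x.1 x.2)) ∧
      Set.InjOn (fun x : ℕ × ℕ => jv (Efam u v w z x.1 x.2)) T := by
  classical
  obtain ⟨K, c, hc, h⟩ := h
  refine ⟨K, c / 12, by positivity, h.mono ?_⟩
  rintro X ⟨u, hu, v, hv, w, hw, z, hz, h⟩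
  refine ⟨u, hu, v, hv, w, hw, z, hz, ?_⟩
  set G := (Icc 1 X ×ˢ Icc 1 X).filter fun x : ℕ × ℕ =>
    x.1.Coprime x.2 ∧ Good (Efam u v w z x.1 x.2) with hG
  obtain ⟨T, t1, t2, t3⟩ := exists_subset_injOn_image_eq_of_surjOn (G : Set (ℕ × ℕ))
    (G.image fun x => jv (Efam u v w z x.1 x.2)) (f := fun x => jv (Efam u v w z x.1 x.2))
    (by rw [coe_image]; exact Set.surjOn_image _ _)
  have h1 := card_le_mul_card_image (f := fun x => jv (Efam u v w z x.1 x.2)) G 12 fun j _ =>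
    fibre_jv u v w z (mem_Icc.1 hw).1 (mem_Icc.1 hz).1 _ j fun x hx => by
      obtain ⟨k1, k2⟩ := mem_filter.1 hx
      obtain ⟨k3, k4, k5⟩ := mem_filter.1 k1
      exact ⟨(mem_Icc.1 (mem_product.1 k3).2).1, k4, k5.1, k2⟩
  rw [← t3, card_image_of_injOn t2] at h1
  have h2 : (G.card : ℝ) ≤ 12 * T.card := by exact_mod_cast h1
  exact ⟨T, fun x hx => (mem_filter.1 (t1 hx)).1, by linarith, fun x hx => (mem_filter.1 (t1 hx)).2,
    t2⟩

end Pool.Agent.MP_a43263_nt.R2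

end
end MrgPart2

-- ======== part 3: formerly Pool.Agent.MP_a43263_nt.R2.Step
section MrgPart3

/-! PROJECT RANK2: one new prime contracts the kernel on average. -/

set_option autoImplicit false

noncomputable section

namespace Pool.Agent.MP_a43263_nt.R2

open Finset Filter

namespace Step

theorem sum_tags (F : Fin 3 → ℝ) :
    ∑ h ∈ (univ : Finset (Fin 7)).erase 6, F (cls h) = 2 * (F 0 + F 1 + F 2) := by
  have : (univ : Finset (Fin 7)).erase 6 = {0, 1, 2, 3, 4, 5} := by decide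
  rw [this]
  simp [cls]
  ring

/-- the row of a new prime on the kernel -/
theorem row (hK : KCStmt) (c : ℤ) {V x : Finset Gen} (hV : Nice V) (hx : x ∈ Ker (gp c) V)
    (h : Fin 7) {p : ℕ} (hp : p.Prime) (h2 : p ≠ 2) (hn : ∀ a ∈ V, a.2 ≠ p) :
    ∏ a ∈ x, gp c a (h, p) = jacobiSym (Gv (cls h) x) p :=
  hK.1 c V x (h, p) (hV.insert hp h2 hn) (fun k => hn _ k rfl)
    (fun e => hp.ne_one (Prod.mk.inj e).2) h2 (mem_Ker.1 hx).1 ((mem_Ker.1 hx).2 _ hV.neg)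

/-- the vectors of the kernel that live in one class -/
def Kj (c : ℤ) (V : Finset Gen) (j : Fin 3) : Finset (Finset Gen) :=
  (Ker (gp c) V).filter fun x => Gv j x = 1

theorem Kj_mul (hK : KCStmt) (c : ℤ) {V : Finset Gen} (hV : Nice V) {i j : Fin 3} (hij : i ≠ j) :
    (Kj c V i).card * (Kj c V j).card ≤ (Ker (gp c) V).card := by
  have key : ∀ {k : Fin 3} {x : Finset Gen}, x ∈ Kj c V k → ∀ a ∈ x, cls a.1 = k := fun hx =>
    (hK.2.2.1 V _ _ hV (mem_Ker.1 (mem_filter.1 hx).1).1).2.1 (mem_filter.1 hx).2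
  rw [← card_product]
  refine card_le_card_of_injOn (fun p => symmDiff p.1 p.2) (fun p hp => ?_) ?_
  · obtain ⟨h1, h2⟩ := mem_product.1 hp
    exact symmDiff_mem_Ker (gp_sgn c) (mem_filter.1 h1).1 (mem_filter.1 h2).1
  · intro p hp q hq e
    obtain ⟨h1, h2⟩ := mem_product.1 hp
    obtain ⟨h3, h4⟩ := mem_product.1 hq
    have e' : ∀ a, a ∈ symmDiff p.1 p.2 ↔ a ∈ symmDiff q.1 q.2 := fun a => by
      rw [show symmDiff p.1 p.2 = symmDiff q.1 q.2 from e]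
    simp only [mem_symmDiff] at e'
    refine Prod.ext ?_ ?_ <;> ext a
    all_goals
      have a0 := e' a
      have a1 : ¬(a ∈ p.1 ∧ a ∈ p.2) := fun h => hij ((key h1 a h.1).symm.trans (key h2 a h.2))
      have a2 : ¬(a ∈ q.1 ∧ a ∈ q.2) := fun h => hij ((key h3 a h.1).symm.trans (key h4 a h.2))
      have a3 : ¬(a ∈ p.1 ∧ a ∈ q.2) := fun h => hij ((key h1 a h.1).symm.trans (key h4 a h.2))
      have a4 : ¬(a ∈ q.1 ∧ a ∈ p.2) := fun h => hij ((key h3 a h.1).symm.trans (key h2 a h.2))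
      tauto

theorem three {n a b c : ℝ} (hn : 10000 ≤ n) (ha : a ≤ n) (hb : b ≤ n) (hc : c ≤ n)
    (h1 : a * b ≤ n) (h2 : a * c ≤ n) (h3 : b * c ≤ n) : a + b + c ≤ 1.02 * n := by
  have key : ∀ x y : ℝ, x * y ≤ n → x ≤ n / 100 ∨ y ≤ n / 100 := by
    intro x y h
    by_contra hh
    push Not at hh
    have := mul_lt_mul'' hh.1 hh.2 (by linarith) (by linarith)
    nlinarith
  rcases key _ _ h1 with k1 | k1 <;> rcases key _ _ h2 with k2 | k2 <;>
    rcases key _ _ h3 with k3 | k3 <;> linarith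

theorem one (hB : BORStmt) (c : ℤ) (V : Finset Gen) {b : Gen} (hb : b ∉ V) :
    √((Ker (gp c) (insert b V)).card) * (Ker (gp c) V).card ≤
      0.71 * √((Ker (gp c) V).card) * ((Ker (gp c) V).card +
        ((∑ x ∈ Ker (gp c) V, ∏ a ∈ x, gp c a b : ℤ) : ℝ)) := by
  obtain ⟨b1, b2, b3, -⟩ := hB _ (gp_sgn c) V
  have s0 := Real.sqrt_nonneg ((Ker (gp c) V).card : ℝ)
  have s1 := Real.sq_sqrt (Nat.cast_nonneg (α := ℝ) (Ker (gp c) V).card)
  have s2 := Nat.cast_nonneg (α := ℝ) (Ker (gp c) V).card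
  rw [b3 b]
  split_ifs with h
  · have h1 := b1 {b}
    rw [union_comm, ← insert_eq, card_singleton, pow_one] at h1
    have h2 : ((Ker (gp c) (insert b V)).card : ℝ) ≤ 2 * (Ker (gp c) V).card := by
      exact_mod_cast h1
    have h3 : √((Ker (gp c) (insert b V)).card) ≤ 1.42 * √((Ker (gp c) V).card) :=
      Real.sqrt_le_iff.2 ⟨by positivity, by rw [mul_pow, s1]; linarith⟩
    have := mul_le_mul_of_nonneg_right h3 s2
    push_cast
    linarith
  · push Not at h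
    obtain ⟨x, hx, h⟩ := h
    have h1 := b2 b hb ⟨x, hx, (prod_sgn x fun a _ => (gp_sgn c).2 a b).resolve_left h⟩
    have h2 : 2 * ((Ker (gp c) (insert b V)).card : ℝ) = (Ker (gp c) V).card := by
      exact_mod_cast h1
    have h3 : √((Ker (gp c) (insert b V)).card) ≤ 0.71 * √((Ker (gp c) V).card) :=
      Real.sqrt_le_iff.2 ⟨by positivity, by rw [mul_pow, s1]; linarith⟩
    have := mul_le_mul_of_nonneg_right h3 s2
    push_cast
    linarith

end Step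

theorem step : BORStmt → KCStmt → STEPStmt := by
  intro hB hK c V P w hV hP hn hch
  set n : ℝ := ((Ker (gp c) V).card : ℝ) with hnd
  set δ := ∑ p ∈ P, w p with hδ
  have hδ0 : 0 ≤ δ := sum_nonneg fun p hp => (hP p hp).2.2.1
  have hn' : 10000 ≤ n := by rw [hnd]; exact_mod_cast hn
  have s0 := Real.sqrt_nonneg n
  have tag : ∀ h : Fin 7, (∑ p ∈ P, w p * √((Ker (gp c) (insert (h, p) V)).card)) * n ≤
      0.71 * √n * (δ * (1.01 * n + (Step.Kj c V (cls h)).card)) := by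
    intro h
    have e1 : (∑ p ∈ P, w p * √((Ker (gp c) (insert (h, p) V)).card)) * n ≤
        ∑ p ∈ P, 0.71 * √n * (w p * n +
          ∑ x ∈ Ker (gp c) V, w p * jacobiSym (Gv (cls h) x) p) := by
      rw [sum_mul]
      refine sum_le_sum fun p hp => ?_
      obtain ⟨p1, p2, p3, p4⟩ := hP p hp
      have := mul_le_mul_of_nonneg_left
        (Step.one hB c V (b := (h, p)) fun k => p4 _ k rfl) p3
      rw [sum_congr rfl fun x hx => Step.row hK c hV hx h p1 p2 p4] at this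
      push_cast at this
      rw [← mul_sum]
      linarith
    have e2 : ∑ p ∈ P, ∑ x ∈ Ker (gp c) V, w p * (jacobiSym (Gv (cls h) x) p : ℝ) ≤
        δ * (0.01 * n + (Step.Kj c V (cls h)).card) := by
      rw [sum_comm]
      have : ∀ x ∈ Ker (gp c) V, ∑ p ∈ P, w p * (jacobiSym (Gv (cls h) x) p : ℝ) ≤
          δ / 100 + if Gv (cls h) x = 1 then δ else 0 := by
        intro x hx
        split_ifs with e
        · rw [e]
          simp only [jacobiSym.one_left, Int.cast_one, mul_one]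
          linarith
        · linarith [(abs_le.1 (hch x (mem_Ker.1 hx).1 _ e)).2]
      refine (sum_le_sum this).trans (le_of_eq ?_)
      rw [sum_add_distrib, ← sum_filter, sum_const, sum_const, nsmul_eq_mul, nsmul_eq_mul]
      simp only [Step.Kj]
      ring
    rw [← mul_sum, sum_add_distrib, ← sum_mul] at e1
    refine e1.trans (mul_le_mul_of_nonneg_left ?_ (by positivity))
    linarith
  have e3 := sum_le_sum fun h (_ : h ∈ (univ : Finset (Fin 7)).erase 6) => tag h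
  rw [← sum_mul, Step.sum_tags fun j => 0.71 * √n * (δ * (1.01 * n + (Step.Kj c V j).card))]
    at e3
  have kl : ∀ j, ((Step.Kj c V j).card : ℝ) ≤ n := fun j =>
    Nat.cast_le.2 (card_filter_le _ _)
  have km : ∀ i j, i ≠ j → ((Step.Kj c V i).card : ℝ) * (Step.Kj c V j).card ≤ n :=
    fun i j h => by rw [hnd]; exact_mod_cast Step.Kj_mul hK c hV h
  have e4 := Step.three hn' (kl 0) (kl 1) (kl 2) (km 0 1 (by decide)) (km 0 2 (by decide))
    (km 1 2 (by decide))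
  rw [TT, sum_product]
  refine le_of_mul_le_mul_right (e3.trans ?_) (by linarith : 0 < n)
  have e5 := mul_le_mul_of_nonneg_left e4 (mul_nonneg s0 hδ0)
  have e6 : 0 ≤ √n * δ * n := by positivity
  nlinarith

end Pool.Agent.MP_a43263_nt.R2

end
end MrgPart3

-- ======== part 4: formerly Pool.Agent.MP_a43263_nt.R2.Kil
section MrgPart4

/-! PROJECT RANK2: small vectors are killed by the medium primes. -/

set_option autoImplicit false

noncomputable section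

namespace Pool.Agent.MP_a43263_nt.R2

open Finset Filter

namespace Kil

theorem exp_le {p : ℕ} (h : 11 ≤ p) : Real.exp (1 / p) ≤ 1 + wt p := by
  have h1 : (11 : ℝ) ≤ p := by exact_mod_cast h
  refine (Real.exp_bound_div_one_sub_of_interval (by positivity)
    (by rw [div_lt_one (by linarith)]; linarith)).trans ?_
  have e : 1 / (1 - 1 / (p : ℝ)) = 1 + 1 / ((p : ℝ) - 1) := by
    have : (p : ℝ) - 1 ≠ 0 := by linarith
    field_simp
    ring
  rw [e, wt]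
  exact add_le_add le_rfl (one_div_le_one_div_of_le (by linarith) (by linarith))

theorem exists_tag (j : Fin 3) : ∃ h : Fin 7, h ≠ 6 ∧ cls h = j := by
  revert j
  decide

open Classical in
/-- one vector -/
theorem vec (hK : KCStmt) (c : ℤ) {M Y0 Y Y' J : ℕ} (hM : 0 < M) (h210 : 210 ∣ M) (hMY : M ≤ Y)
    (h0 : Y0 ≤ Y) (hθ : J * Real.log 128 - 0.1 ≤ ∑ p ∈ pri Y Y', (1 : ℝ) / p)
    {W : Finset Gen} (hW : W ⊆ TT (PP M 0 Y0)) (hD : Dist W)
    (hE : ∀ x ⊆ V0 M ∪ W, ∀ j, Gv j x ≠ 1 → |chs (Gv j x) Y Y'| ≤ 1)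
    {x : Finset Gen} (hx : x ∈ Ker (gp c) (V0 M ∪ W)) (hne : x ≠ ∅) :
    ∑ W' ∈ (TT (PP M Y Y')).powerset, Wt W' *
      (if ∀ b ∈ W', ∏ a ∈ x, gp c a b = 1 then 1 else 0) ≤ 2 / 2 ^ J * Mass (PP M Y Y') := by
  have hV := nice_TT ((by norm_num : 2 ∣ 210).trans h210) hD hW
  obtain ⟨a, ha⟩ := nonempty_iff_ne_empty.2 hne
  obtain ⟨j, hj⟩ := exists_ne (cls a.1)
  have hG : Gv j x ≠ 1 := fun e =>
    hj ((hK.2.2.1 _ x j hV (mem_Ker.1 hx).1).2.1 e a ha).symm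
  obtain ⟨h, h6, rfl⟩ := exists_tag j
  have hrow : ∀ p ∈ PP M Y Y', ∏ a ∈ x, gp c a (h, p) = jacobiSym (Gv (cls h) x) p := by
    intro p hp
    have e1 := PP_ge h210 hp
    obtain ⟨e2, -, e3, e4⟩ := mem_PP.1 hp
    refine Step.row hK c hV hx h e3 (by omega) fun b hb e => ?_
    rcases mem_union.1 hb with hb | hb
    · rcases (mem_V0.1 hb).2 with k | k
      · omega
      · exact e4 (e ▸ Nat.dvd_of_mem_primeFactors k)
    · have := (mem_PP.1 (mem_TT.1 (hW hb)).2).2.1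
      omega
  let Q := (PP M Y Y').filter fun p => jacobiSym (Gv (cls h) x) p = -1
  let F : Finset Gen := Q.image fun p => (h, p)
  have hF : F ⊆ TT (PP M Y Y') := by
    intro b hb
    obtain ⟨p, hp, rfl⟩ := mem_image.1 hb
    exact mem_TT.2 ⟨h6, (mem_filter.1 hp).1⟩
  have hw : ∀ b ∈ TT (PP M Y Y'), 0 ≤ wt b.2 := fun b hb =>
    (wt_pos (PP_ge h210 (mem_TT.1 hb).2)).le
  have e1 : ∑ W' ∈ (TT (PP M Y Y')).powerset, Wt W' *
      (if ∀ b ∈ W', ∏ a ∈ x, gp c a b = 1 then 1 else 0) ≤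
      ∏ b ∈ TT (PP M Y Y') \ F, (1 + wt b.2) := by
    simp only [mul_ite, mul_one, mul_zero]
    rw [← sum_filter, prod_one_add]
    refine sum_le_sum_of_subset_of_nonneg (fun W' hW' => ?_) fun W' hW' _ =>
      Wt_nonneg h210 ((mem_powerset.1 hW').trans sdiff_subset)
    obtain ⟨k1, k2⟩ := mem_filter.1 hW'
    refine mem_powerset.2 fun b hb => mem_sdiff.2 ⟨mem_powerset.1 k1 hb, fun hbF => ?_⟩
    obtain ⟨p, hp, rfl⟩ := mem_image.1 hbF
    have := k2 _ hb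
    rw [hrow p (mem_filter.1 hp).1, (mem_filter.1 hp).2] at this
    norm_num at this
  have e2 : (∏ b ∈ TT (PP M Y Y') \ F, (1 + wt b.2)) * ∏ b ∈ F, (1 + wt b.2) =
      Mass (PP M Y Y') := by
    rw [prod_sdiff hF, Mass, ← prod_TT _ fun p => 1 + wt p]
  have e3 : Real.exp (∑ p ∈ Q, (1 : ℝ) / p) ≤ ∏ b ∈ F, (1 + wt b.2) := by
    rw [prod_image fun _ _ _ _ e => (Prod.mk.inj e).2, Real.exp_sum]
    exact prod_le_prod (fun _ _ => (Real.exp_pos _).le) fun p hp =>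
      exp_le (PP_ge h210 (mem_filter.1 hp).1)
  have e4 : 2 * ∑ p ∈ Q, (1 : ℝ) / p =
      ∑ p ∈ pri Y Y', (1 : ℝ) / p - chs (Gv (cls h) x) Y Y' := by
    rw [chs, ← PP_eq_pri hM hMY, ← sum_sub_distrib, sum_filter, mul_sum]
    refine sum_congr rfl fun p hp => ?_
    have := prod_sgn x fun a _ => (gp_sgn c).2 a (h, p)
    rw [hrow p hp] at this
    rcases this with k | k <;> rw [k] <;> norm_num
    ring
  have e5 := (abs_le.1 (hE x (mem_Ker.1 hx).1 _ hG)).2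
  have e6 : (2 : ℝ) ^ J / 2 ≤ ∏ b ∈ F, (1 + wt b.2) := by
    refine le_trans ?_ e3
    have l1 : Real.log 128 = 7 * Real.log 2 := by
      rw [show (128 : ℝ) = 2 ^ 7 by norm_num, Real.log_pow]; norm_num
    have l2 := Real.log_two_gt_d9
    have l3 : (2 : ℝ) ^ J / 2 = Real.exp (J * Real.log 2 - Real.log 2) := by
      rw [Real.exp_sub, ← Real.log_pow, Real.exp_log (by positivity), Real.exp_log (by norm_num)]
    have l4 : 0 ≤ J * Real.log 2 := mul_nonneg (Nat.cast_nonneg J) (by linarith)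
    rw [l3, Real.exp_le_exp]
    rw [l1] at hθ
    linarith
  have e7 : 0 ≤ ∏ b ∈ TT (PP M Y Y') \ F, (1 + wt b.2) :=
    prod_nonneg fun b hb => by linarith [hw b (mem_sdiff.1 hb).1]
  refine e1.trans ?_
  rw [← e2, div_mul_eq_mul_div, le_div_iff₀ (by positivity)]
  nlinarith [mul_le_mul_of_nonneg_left e6 e7]

open Classical in
/-- one small configuration -/
theorem conf (hK : KCStmt) (c : ℤ) {M Y0 Y Y' J : ℕ} (T : ℕ) (hM : 0 < M) (h210 : 210 ∣ M)
    (hMY : M ≤ Y) (h0 : Y0 ≤ Y) (hθ : J * Real.log 128 - 0.1 ≤ ∑ p ∈ pri Y Y', (1 : ℝ) / p)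
    {W : Finset Gen} (hW : W ⊆ TT (PP M 0 Y0)) (hD : Dist W) :
    ∑ W' ∈ (TT (PP M Y Y')).powerset, Wt W' *
      (if (Ker (gp c) (V0 M ∪ W)).card ≤ T ∧ Bad c (V0 M ∪ W) W' then 1 else 0) ≤
      T * Mass (PP M Y Y') * (2 / 2 ^ J +
        if ∃ x ⊆ V0 M ∪ W, ∃ j, Gv j x ≠ 1 ∧ 1 < |chs (Gv j x) Y Y'| then 2 ^ W.card else 0) := by
  have m1 := one_le_Mass h210 Y Y'
  by_cases hT : (Ker (gp c) (V0 M ∪ W)).card ≤ T
  swap
  · simp only [hT, false_and, if_false, mul_zero, sum_const_zero]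
    refine mul_nonneg (by positivity) (add_nonneg (by positivity) ?_)
    split_ifs <;> positivity
  have hT1 : (1 : ℝ) ≤ T := by exact_mod_cast (Ker_card_pos _).trans_le hT
  split_ifs with hE
  · have h1 : ∑ W' ∈ (TT (PP M Y Y')).powerset, Wt W' *
        (if (Ker (gp c) (V0 M ∪ W)).card ≤ T ∧ Bad c (V0 M ∪ W) W' then 1 else 0) ≤
        Mass (PP M Y Y') := by
      rw [← sum_Wt]
      refine sum_le_sum fun W' hW' => mul_le_of_le_one_right
        (Wt_nonneg h210 (mem_powerset.1 hW')) ?_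
      split_ifs <;> norm_num
    have h2 : (1 : ℝ) ≤ 2 / 2 ^ J + 2 ^ W.card :=
      le_add_of_nonneg_of_le (by positivity) (one_le_pow₀ (by norm_num))
    refine h1.trans (le_trans ?_ (le_mul_of_one_le_right (by positivity) h2))
    exact le_mul_of_one_le_left (by linarith) hT1
  push Not at hE
  have h1 : ∑ W' ∈ (TT (PP M Y Y')).powerset, Wt W' *
      (if (Ker (gp c) (V0 M ∪ W)).card ≤ T ∧ Bad c (V0 M ∪ W) W' then 1 else 0) ≤
      ∑ W' ∈ (TT (PP M Y Y')).powerset, ∑ x ∈ (Ker (gp c) (V0 M ∪ W)).erase ∅, Wt W' *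
        (if ∀ b ∈ W', ∏ a ∈ x, gp c a b = 1 then 1 else 0) := by
    refine sum_le_sum fun W' hW' => ?_
    rw [← mul_sum]
    refine mul_le_mul_of_nonneg_left ?_ (Wt_nonneg h210 (mem_powerset.1 hW'))
    have nn : ∀ x ∈ (Ker (gp c) (V0 M ∪ W)).erase ∅,
        (0 : ℝ) ≤ if ∀ b ∈ W', ∏ a ∈ x, gp c a b = 1 then 1 else 0 := fun x _ => by
      split_ifs <;> norm_num
    split_ifs with hb
    · obtain ⟨x, k1, k2, k3⟩ := hb.2
      refine le_trans ?_ (single_le_sum nn (mem_erase.2 ⟨k2, k1⟩))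
      rw [if_pos k3]
    · exact sum_nonneg nn
  rw [sum_comm] at h1
  refine h1.trans ((sum_le_card_nsmul _ _ _ fun x hx => vec hK c hM h210 hMY h0 hθ hW hD hE
    (mem_erase.1 hx).2 (mem_erase.1 hx).1).trans ?_)
  have h2 : (((Ker (gp c) (V0 M ∪ W)).erase ∅).card : ℝ) ≤ T := by
    exact_mod_cast card_erase_le.trans hT
  rw [nsmul_eq_mul, add_zero, mul_assoc, mul_comm (Mass _)]
  exact mul_le_mul_of_nonneg_right h2 (by positivity)

end Kil

theorem kil : KCStmt → MERStmt → EXPStmt → KILStmt := by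
  classical
  intro hK hm hE M c T J hM h210
  obtain ⟨C, hC⟩ := hm.1
  have v1 := ev_Y (M := M) (J := J) (hE M (128 ^ J) 1 (1 / 2 ^ J) hM h210 one_pos (by positivity))
  have v2 := ev_Y (M := M) (J := J) ((Real.tendsto_log_atTop.comp
    tendsto_natCast_atTop_atTop).eventually_ge_atTop (10 * |C|))
  have v3 := ev_Y (M := M) (J := J) (eventually_ge_atTop (M + 2))
  refine (v1.and (v2.and v3)).mono fun S _ hJ hR ⟨k1, k2, k3⟩ => ?_
  have k1 := k1 S.Y0 S.Y' hR.Y0_le (by rw [hR.hY', hJ])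
  have hθ : J * Real.log 128 - 0.1 ≤ ∑ p ∈ pri S.Y S.Y', (1 : ℝ) / p := by
    have e1 := (abs_le.1 (hC S.Y S.Y' (by omega) hR.Y_le)).1
    have e2 : 0 < Real.log S.Y := Real.log_pos (by exact_mod_cast (by omega : 1 < S.Y))
    have e3 : C / Real.log S.Y ≤ 0.1 := by
      rw [div_le_iff₀ e2]
      have : 10 * |C| ≤ Real.log S.Y := k2
      linarith [le_abs_self C]
    rw [hR.log_Y', hJ, mul_div_cancel_right₀ _ e2.ne', Real.log_pow] at e1
    linarith
  have m0 := one_le_Mass h210 0 S.Y0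
  have m1 := one_le_Mass h210 S.Y S.Y'
  have e1 := sum_le_sum fun W (hW : W ∈ (TT (PP M 0 S.Y0)).powerset.filter Dist) =>
    mul_le_mul_of_nonneg_left (Kil.conf hK c T hM h210 (by omega) hR.Y0_le hθ
      (mem_powerset.1 (mem_filter.1 hW).1) (mem_filter.1 hW).2)
      (Wt_nonneg h210 (mem_powerset.1 (mem_filter.1 hW).1))
  refine le_trans (le_of_eq (sum_congr rfl fun W _ => ?_)) (e1.trans ?_)
  · rw [mul_sum]
    exact sum_congr rfl fun W' _ => mul_assoc _ _ _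
  have e2 : ∑ W ∈ (TT (PP M 0 S.Y0)).powerset.filter Dist, Wt W ≤ Mass (PP M 0 S.Y0) := by
    rw [← sum_Wt]
    exact sum_le_sum_of_subset_of_nonneg (filter_subset _ _)
      fun W hW _ => Wt_nonneg h210 (mem_powerset.1 hW)
  rw [← filter_filter, sum_filter] at k1
  have e3 : ∀ W : Finset Gen, ∀ (p : Prop) [Decidable p], Wt W * (T * Mass (PP M S.Y S.Y') *
      (2 / 2 ^ J + if p then 2 ^ W.card else 0)) = T * Mass (PP M S.Y S.Y') *
        (2 / 2 ^ J * Wt W + if p then Wt W * 2 ^ W.card else 0) := by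
    intro W p _
    split_ifs <;> ring
  simp only [e3]
  rw [← mul_sum, sum_add_distrib, ← mul_sum]
  have e4 : (0 : ℝ) < 1 / 2 ^ J := by positivity
  have e5 : 3 * (T : ℝ) / 2 ^ J * (Mass (PP M 0 S.Y0) * Mass (PP M S.Y S.Y')) =
      T * Mass (PP M S.Y S.Y') * (2 / 2 ^ J * Mass (PP M 0 S.Y0) +
        1 / 2 ^ J * Mass (PP M 0 S.Y0)) := by ring
  rw [e5]
  refine mul_le_mul_of_nonneg_left (add_le_add (mul_le_mul_of_nonneg_left e2 (by positivity))
    (le_trans ?_ (le_mul_of_one_le_right e4.le m0))) (by positivity)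
  convert k1

end Pool.Agent.MP_a43263_nt.R2

end
end MrgPart4

-- ======== part 5: formerly Pool.Agent.MP_a43263_nt.R2.Mas
section MrgPart5

/-! PROJECT RANK2: good numbers have positive density. -/

set_option autoImplicit false

noncomputable section

namespace Pool.Agent.MP_a43263_nt.R2

open Finset Filter

namespace Mas

/-- the weight of a set of primes -/
def ww (A : Finset ℕ) : ℝ := ∏ p ∈ A, (1 : ℝ) / p

/-- the total weight -/
def tot (P : Finset ℕ) : ℝ := ∏ p ∈ P, (1 + (1 : ℝ) / p)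

theorem ww_nonneg (A : Finset ℕ) : 0 ≤ ww A := prod_nonneg fun _ _ => by positivity

theorem tot_nonneg (P : Finset ℕ) : 0 ≤ tot P := prod_nonneg fun _ _ => by positivity

theorem sum_ww (P : Finset ℕ) : ∑ A ∈ P.powerset, ww A = tot P := (prod_one_add P).symm

/-- sets with a large product have small weight -/
theorem markov (pm : PMStmt) {C : ℝ}
    (hC : ∀ a b : ℕ, 1 ≤ b → ∑ p ∈ pri a b, Real.log p / p ≤ Real.log b + C) {a y : ℕ}
    (hy : 2 ≤ y) (hCy : 8 * C ≤ Real.log y) {P : Finset ℕ} (hP : P ⊆ pri a y) :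
    ∑ A ∈ P.powerset.filter (fun A => ¬∏ p ∈ A, p ≤ y ^ 3), ww A ≤ 3 / 8 * tot P := by
  have hL : 0 < Real.log y := Real.log_pos (by exact_mod_cast hy)
  have h1 := (pm P (fun p => 1 / (p : ℝ)) fun _ _ => by positivity).1 (fun p => Real.log p)
    (3 * Real.log y) fun _ _ => Real.log_natCast_nonneg _
  have h2 : ∑ p ∈ P, Real.log p * (1 / (p : ℝ)) ≤ 9 / 8 * Real.log y := by
    calc _ = ∑ p ∈ P, Real.log p / p := sum_congr rfl fun _ _ => mul_one_div _ _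
      _ ≤ ∑ p ∈ pri a y, Real.log p / p := sum_le_sum_of_subset_of_nonneg hP fun _ _ _ =>
          div_nonneg (Real.log_natCast_nonneg _) (Nat.cast_nonneg _)
      _ ≤ _ := by linarith [hC a y (by omega)]
  have h3 : P.powerset.filter (fun A => ¬∏ p ∈ A, p ≤ y ^ 3) ⊆
      P.powerset.filter (fun A => 3 * Real.log y < ∑ p ∈ A, Real.log p) := by
    intro A hA
    obtain ⟨k1, k2⟩ := mem_filter.1 hA
    refine mem_filter.2 ⟨k1, ?_⟩
    have k3 : ∀ p ∈ A, (p : ℝ) ≠ 0 := fun p hp =>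
      Nat.cast_ne_zero.2 (mem_pri.1 (hP (mem_powerset.1 k1 hp))).2.2.ne_zero
    rw [← Real.log_prod k3]
    have k4 : ((y ^ 3 : ℕ) : ℝ) < ((∏ p ∈ A, p : ℕ) : ℝ) := Nat.cast_lt.2 (not_le.1 k2)
    have k5 := Real.log_lt_log (Nat.cast_pos.2 (by positivity)) k4
    rwa [Nat.cast_pow, Real.log_pow, Nat.cast_prod, Nat.cast_ofNat] at k5
  have h4 := sum_le_sum_of_subset_of_nonneg h3 fun A _ _ => ww_nonneg A
  have h5 := mul_le_mul_of_nonneg_right h2 (tot_nonneg P)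
  refine le_of_mul_le_mul_left ?_ (show 0 < 3 * Real.log y by positivity)
  calc _ ≤ _ := mul_le_mul_of_nonneg_left h4 (by positivity)
    _ ≤ _ := h1
    _ ≤ _ := h5
    _ = _ := by ring

/-- sets of unusual size have small weight -/
theorem cheb (pm : PMStmt) {P : Finset ℕ} {J : ℕ} (hJ : 160 ≤ J) (hP : ∀ p ∈ P, 15 ≤ p)
    (h1 : 4.8 * J ≤ ∑ p ∈ P, (1 : ℝ) / p) (h2 : ∑ p ∈ P, (1 : ℝ) / p ≤ 5 * J) :
    ∑ A ∈ P.powerset.filter (fun A => ¬(4 * J ≤ A.card ∧ A.card ≤ 6 * J)), ww A ≤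
      1 / 8 * tot P := by
  have hJ' : (160 : ℝ) ≤ J := by exact_mod_cast hJ
  have h3 := (pm P (fun p => 1 / (p : ℝ)) fun _ _ => by positivity).2
  set m := ∑ p ∈ P, 1 / (p : ℝ) / (1 + 1 / (p : ℝ)) with hm
  have h4 : m ≤ ∑ p ∈ P, (1 : ℝ) / p := sum_le_sum fun p _ =>
    div_le_self (by positivity) (le_add_of_nonneg_right (by positivity))
  have h5 : 15 / 16 * ∑ p ∈ P, (1 : ℝ) / p ≤ m := by
    rw [mul_sum]
    refine sum_le_sum fun p hp => ?_
    have k1 : (15 : ℝ) ≤ p := by exact_mod_cast hP p hp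
    have k2 : 1 / (p : ℝ) ≤ 1 / 15 := one_div_le_one_div_of_le (by norm_num) k1
    have k3 : 0 ≤ 1 / (p : ℝ) := by positivity
    rw [le_div_iff₀ (by positivity)]
    nlinarith
  refine le_of_mul_le_mul_left ?_ (show (0 : ℝ) < J ^ 2 / 4 by positivity)
  calc _ = ∑ A ∈ P.powerset.filter (fun A => ¬(4 * J ≤ A.card ∧ A.card ≤ 6 * J)),
        (J : ℝ) ^ 2 / 4 * ww A := mul_sum _ _ _
    _ ≤ ∑ A ∈ P.powerset.filter (fun A => ¬(4 * J ≤ A.card ∧ A.card ≤ 6 * J)),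
        ((A.card : ℝ) - m) ^ 2 * ww A := by
        refine sum_le_sum fun A hA => mul_le_mul_of_nonneg_right ?_ (ww_nonneg A)
        rcases not_and_or.1 (mem_filter.1 hA).2 with k | k
        · have k1 : (A.card : ℝ) ≤ 4 * J := by exact_mod_cast (not_le.1 k).le
          nlinarith
        · have k1 : 6 * (J : ℝ) ≤ A.card := by exact_mod_cast (not_le.1 k).le
          nlinarith
    _ ≤ ∑ A ∈ P.powerset, ((A.card : ℝ) - m) ^ 2 * ww A :=
        sum_le_sum_of_subset_of_nonneg (filter_subset _ _) fun A _ _ =>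
          mul_nonneg (sq_nonneg _) (ww_nonneg A)
    _ ≤ (∑ p ∈ P, (1 : ℝ) / p) * tot P := h3
    _ ≤ (J ^ 2 / 4 * (1 / 8)) * tot P :=
        mul_le_mul_of_nonneg_right (by nlinarith) (tot_nonneg P)
    _ = _ := by ring

/-- admissible sets of small primes -/
def G0 (S : Sc) : Finset (Finset ℕ) :=
  (PP S.M 0 S.Y0).powerset.filter fun A => ∏ p ∈ A, p ≤ S.Y0 ^ 3

/-- admissible sets of medium primes -/
def G1 (S : Sc) : Finset (Finset ℕ) :=
  (pri S.Y S.Y').powerset.filter fun B =>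
    ∏ p ∈ B, p ≤ S.Y' ^ 3 ∧ (4 * S.J ≤ B.card ∧ B.card ≤ 6 * S.J)

theorem half_of {P : Finset ℕ} {q : Finset ℕ → Prop} [DecidablePred q]
    (h : ∑ A ∈ P.powerset.filter (fun A => ¬q A), ww A ≤ 1 / 2 * tot P) :
    1 / 2 * tot P ≤ ∑ A ∈ P.powerset.filter q, ww A := by
  have := sum_filter_add_sum_filter_not P.powerset q ww
  rw [sum_ww] at this
  linarith

theorem sum_not_and {P : Finset ℕ} {q r : Finset ℕ → Prop} [DecidablePred q] [DecidablePred r] :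
    ∑ A ∈ P.powerset.filter (fun A => ¬(q A ∧ r A)), ww A ≤
      ∑ A ∈ P.powerset.filter (fun A => ¬q A), ww A +
        ∑ A ∈ P.powerset.filter (fun A => ¬r A), ww A := by
  simp only [sum_filter]
  rw [← sum_add_distrib]
  refine sum_le_sum fun A _ => ?_
  have := ww_nonneg A
  by_cases h1 : q A <;> by_cases h2 : r A <;> simp [h1, h2, this]

theorem sum_union_le' (s t : Finset ℕ) :
    ∑ c ∈ s ∪ t, (1 : ℝ) / c ≤ ∑ c ∈ s, (1 : ℝ) / c + ∑ c ∈ t, (1 : ℝ) / c := by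
  rw [← sum_union_inter]
  exact le_add_of_nonneg_right (sum_nonneg fun _ _ => by positivity)

section
variable {S : Sc} {A B : Finset ℕ}

theorem prime_of_mem (hA : A ∈ G0 S) (hB : B ∈ G1 S) : ∀ p ∈ A ∪ B, p.Prime := by
  intro p hp
  rcases mem_union.1 hp with h | h
  · exact (mem_PP.1 (mem_powerset.1 (mem_filter.1 hA).1 h)).2.2.1
  · exact (mem_pri.1 (mem_powerset.1 (mem_filter.1 hB).1 h)).2.2

theorem filter_small (hR : Rel S) (hA : A ∈ G0 S) (hB : B ∈ G1 S) :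
    (A ∪ B).filter (· ≤ S.Y0) = A := by
  rw [filter_union, filter_true_of_mem, filter_false_of_mem, union_empty]
  · intro p h
    have := (mem_pri.1 (mem_powerset.1 (mem_filter.1 hB).1 h)).1
    have := hR.Y0_le
    omega
  · exact fun p h => (mem_PP.1 (mem_powerset.1 (mem_filter.1 hA).1 h)).2.1

theorem filter_med (hR : Rel S) (hA : A ∈ G0 S) (hB : B ∈ G1 S) :
    (A ∪ B).filter (S.Y < ·) = B := by
  rw [filter_union, filter_false_of_mem, filter_true_of_mem, empty_union]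
  · exact fun p h => (mem_pri.1 (mem_powerset.1 (mem_filter.1 hB).1 h)).1
  · intro p h
    have := (mem_PP.1 (mem_powerset.1 (mem_filter.1 hA).1 h)).2.1
    have := hR.Y0_le
    omega

theorem disj (hR : Rel S) (hA : A ∈ G0 S) (hB : B ∈ G1 S) : Disjoint A B := by
  refine disjoint_left.2 fun p h h' => ?_
  have := (mem_PP.1 (mem_powerset.1 (mem_filter.1 hA).1 h)).2.1
  have := (mem_pri.1 (mem_powerset.1 (mem_filter.1 hB).1 h')).1
  have := hR.Y0_le
  omega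

theorem core (hR : Rel S) (hM : 0 < S.M) (hY : S.M ≤ S.Y) (hA : A ∈ G0 S) (hB : B ∈ G1 S)
    {e : ℕ} (he : ((A ∪ B).card + 1) % 2 = e % 2) :
    Core { S with e := e } (∏ p ∈ A ∪ B, p) := by
  have hp := prime_of_mem hA hB
  have hf := Nat.primeFactors_prod hp
  refine ⟨?_, ?_, ?_, ?_, ?_, ?_, ?_, ?_⟩
  · refine Finset.squarefree_prod_of_pairwise_isCoprime (fun p h q h' hne => ?_)
      fun p h => (hp p h).squarefree
    exact Nat.coprime_iff_isRelPrime.1 ((Nat.coprime_primes (hp p h) (hp q h')).2 hne)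
  · refine Nat.Coprime.prod_left fun p h => (hp p h).coprime_iff_not_dvd.2 ?_
    rcases mem_union.1 h with h | h
    · exact (mem_PP.1 (mem_powerset.1 (mem_filter.1 hA).1 h)).2.2.2
    · intro hd
      have := Nat.le_of_dvd hM hd
      have := (mem_pri.1 (mem_powerset.1 (mem_filter.1 hB).1 h)).1
      omega
  · rw [hf]
    intro p h
    rcases mem_union.1 h with h | h
    · exact .inl (mem_PP.1 (mem_powerset.1 (mem_filter.1 hA).1 h)).2.1
    · have := mem_pri.1 (mem_powerset.1 (mem_filter.1 hB).1 h)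
      exact .inr ⟨this.1, this.2.1⟩
  · rw [hf, filter_small hR hA hB]
    exact (mem_filter.1 hA).2
  · rw [hf, filter_med hR hA hB]
    exact (mem_filter.1 hB).2.1
  · rw [hf, filter_med hR hA hB]
    exact (mem_filter.1 hB).2.2.1
  · rw [hf, filter_med hR hA hB]
    exact (mem_filter.1 hB).2.2.2
  · rw [hf]
    exact he

end

/-- the cores are at least as heavy as the pairs of admissible sets -/
theorem prod_le_muT {S : Sc} (hR : Rel S) (hM : 0 < S.M) (hY : S.M ≤ S.Y) :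
    (∑ A ∈ G0 S, ww A) * ∑ B ∈ G1 S, ww B ≤ muT S := by
  rw [sum_mul_sum, ← sum_product']
  have h1 : ∀ x ∈ G0 S ×ˢ G1 S, ww x.1 * ww x.2 = (1 : ℝ) / (∏ p ∈ x.1 ∪ x.2, p : ℕ) := by
    intro x hx
    obtain ⟨hA, hB⟩ := mem_product.1 hx
    rw [ww, ww, ← prod_union (disj hR hA hB), Nat.cast_prod, prod_div_distrib, prod_const_one]
  have h2 : Set.InjOn (fun x : Finset ℕ × Finset ℕ => ∏ p ∈ x.1 ∪ x.2, p) (G0 S ×ˢ G1 S :) := by
    intro x hx y hy e
    obtain ⟨hA, hB⟩ := mem_product.1 (mem_coe.1 hx)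
    obtain ⟨hA', hB'⟩ := mem_product.1 (mem_coe.1 hy)
    have e' : x.1 ∪ x.2 = y.1 ∪ y.2 := by
      rw [← Nat.primeFactors_prod (prime_of_mem hA hB),
        ← Nat.primeFactors_prod (prime_of_mem hA' hB')]
      exact congrArg Nat.primeFactors e
    refine Prod.ext ?_ ?_
    · rw [← filter_small hR hA hB, e', filter_small hR hA' hB']
    · rw [← filter_med hR hA hB, e', filter_med hR hA' hB']
  rw [sum_congr rfl h1, ← sum_image (f := fun c : ℕ => (1 : ℝ) / c) h2]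
  refine le_trans (sum_le_sum_of_subset_of_nonneg ?_ fun _ _ _ => by positivity)
    (sum_union_le' _ _)
  intro c hc
  obtain ⟨x, hx, rfl⟩ := mem_image.1 hc
  obtain ⟨hA, hB⟩ := mem_product.1 hx
  rcases Nat.mod_two_eq_zero_or_one ((x.1 ∪ x.2).card + 1) with h | h
  · exact mem_union_left _ ((mem_CC (hR.par 0)).2 (core hR hM hY hA hB h))
  · exact mem_union_right _ ((mem_CC (hR.par 1)).2 (core hR hM hY hA hB h))

theorem tot_le_rho {M : ℕ} (hM : 0 < M) : tot M.primeFactors ≤ rho M := by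
  have h1 : (M.totient : ℝ) = M * ∏ p ∈ M.primeFactors, (1 - (p : ℝ)⁻¹) := by
    have := congrArg (fun q : ℚ => (q : ℝ)) (Nat.totient_eq_mul_prod_factors M)
    simpa using this
  rw [rho, le_div_iff₀ (Nat.cast_pos.2 (Nat.totient_pos.2 hM)), h1, mul_left_comm, tot,
    ← prod_mul_distrib]
  refine mul_le_of_le_one_right (Nat.cast_nonneg _) (prod_le_one (fun p hp => ?_) fun p _ => ?_)
  · have k : (1 : ℝ) ≤ p := by exact_mod_cast (Nat.prime_of_mem_primeFactors hp).pos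
    exact mul_nonneg (by positivity) (sub_nonneg.2 (inv_le_one_of_one_le₀ k))
  · rw [one_div]
    nlinarith [sq_nonneg (p : ℝ)⁻¹]

theorem tot_pri_le {M : ℕ} (hM : 0 < M) (y : ℕ) : tot (pri 1 y) ≤ rho M * tot (PP M 0 y) := by
  have h0 : ∀ p : ℕ, (1 : ℝ) ≤ 1 + 1 / p := fun p => le_add_of_nonneg_right (by positivity)
  have h1 : ∀ s t : Finset ℕ, s ⊆ t → tot s ≤ tot t := fun s t h =>
    prod_le_prod_of_subset_of_one_le h (fun p _ => zero_le_one.trans (h0 p)) fun p _ _ => h0 p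
  rw [tot, ← prod_filter_mul_prod_filter_not _ (· ∣ M)]
  refine mul_le_mul (le_trans (h1 _ _ fun p hp => ?_) (tot_le_rho hM)) (h1 _ _ fun p hp => ?_)
    (tot_nonneg _) ((tot_nonneg _).trans (tot_le_rho hM))
  · obtain ⟨k1, k2⟩ := mem_filter.1 hp
    exact Nat.mem_primeFactors.2 ⟨(mem_pri.1 k1).2.2, k2, hM.ne'⟩
  · obtain ⟨k1, k2⟩ := mem_filter.1 hp
    have := mem_pri.1 k1
    exact mem_PP.2 ⟨by omega, this.2.1, this.2.2, k2⟩

theorem ev_le_log (M J : ℕ) (C : ℝ) : Ev M J fun S => C ≤ Real.log S.Y0 :=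
  ev_Y0 (p := fun y => C ≤ Real.log y)
    ((Real.tendsto_log_atTop.comp tendsto_natCast_atTop_atTop).eventually_ge_atTop C)

end Mas

open Mas in
theorem mas : MERStmt → PMStmt → MASStmt := by
  rintro ⟨⟨C₁, h1⟩, ⟨C₂, h2⟩, -, ⟨c, hc, h4⟩, -⟩ pm
  refine ⟨c ^ 2 / (8000000 * 20000), 160, by positivity, fun M J hM hJ => ?_⟩
  refine (((ev_ge (max M 15)).and (ev_le_log M J (max (max C₁ (8 * C₂)) 1)))).mono
    fun S hS hS' hR ⟨k1, k2⟩ => ?_
  subst hS hS'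
  have a1 := hR.Y0_le
  have a2 := hR.Y_le
  have a3 : S.M ≤ S.Y0 := le_of_max_le_left k1
  have a4 : 15 ≤ S.Y0 := le_of_max_le_right k1
  have b1 : C₁ ≤ Real.log S.Y0 := le_of_max_le_left (le_of_max_le_left k2)
  have b2 : 8 * C₂ ≤ Real.log S.Y0 := le_of_max_le_right (le_of_max_le_left k2)
  have b3 : 1 ≤ Real.log S.Y0 := le_of_max_le_right k2
  have c1 := hR.log_Y
  have c2 : Real.log S.Y ≤ Real.log S.Y' :=
    Real.log_le_log (Nat.cast_pos.2 (by omega)) (Nat.cast_le.2 a2)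
  have hJ' : (160 : ℝ) ≤ S.J := by exact_mod_cast hJ
  have d0 : 1 / 2 * tot (PP S.M 0 S.Y0) ≤ ∑ A ∈ G0 S, ww A := by
    refine half_of ((markov pm h2 (a := 0) (P := PP S.M 0 S.Y0) (by omega) b2
      (filter_subset _ _)).trans ?_)
    linarith [tot_nonneg (PP S.M 0 S.Y0)]
  have d1 : 1 / 2 * tot (pri S.Y S.Y') ≤ ∑ A ∈ G1 S, ww A := by
    have e1 := h1 S.Y S.Y' (by omega) a2
    have e2 : Real.log (Real.log S.Y' / Real.log S.Y) = S.J * (7 * Real.log 2) := by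
      rw [hR.log_Y', mul_div_cancel_right₀ _ (by linarith), Real.log_pow,
        show (128 : ℝ) = 2 ^ 7 by norm_num, Real.log_pow, Nat.cast_ofNat]
    have e3 : C₁ / Real.log S.Y ≤ 1 := (div_le_one (by linarith)).2 (by linarith)
    rw [e2] at e1
    have e4 := abs_le.1 (e1.trans e3)
    have e5 := Real.log_two_gt_d9
    have e6 := Real.log_two_lt_d9
    have e7 := cheb pm (P := pri S.Y S.Y') hJ
      (fun p hp => by have := (mem_pri.1 hp).1; omega) (by nlinarith) (by nlinarith)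
    have e8 := markov pm h2 (a := S.Y) (y := S.Y') (by omega) (by linarith) subset_rfl
    exact half_of (sum_not_and.trans (by linarith))
  have f0 := h4 1 S.Y0 le_rfl (by omega)
  rw [Nat.cast_one, Real.log_one, add_zero, one_mul] at f0
  have f1 := f0.trans (tot_pri_le hM S.Y0)
  have f2 : c * Real.log S.Y' ≤ 2000000 * Real.log S.Y0 * tot (pri S.Y S.Y') :=
    (h4 S.Y S.Y' (by omega) a2).trans
      (mul_le_mul_of_nonneg_right (by linarith) (tot_nonneg _))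
  have f3 := (mul_le_mul d0 d1 (mul_nonneg (by norm_num) (tot_nonneg _))
    (sum_nonneg fun _ _ => ww_nonneg _)).trans (prod_le_muT hR hM (by omega))
  have f4 : 0 ≤ rho S.M := (tot_nonneg _).trans (tot_le_rho hM)
  have f5 := hR.log_Z_le
  calc c ^ 2 / (8000000 * 20000) * Real.log S.Z
      ≤ c ^ 2 / (8000000 * 20000) * (20000 * Real.log S.Y') :=
        mul_le_mul_of_nonneg_left f5 (by positivity)
    _ = c / 8000000 * (c * Real.log S.Y') := by ring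
    _ ≤ c / 8000000 * (2000000 * Real.log S.Y0 * tot (pri S.Y S.Y')) :=
        mul_le_mul_of_nonneg_left f2 (by positivity)
    _ = c * Real.log S.Y0 * (tot (pri S.Y S.Y') / 4) := by ring
    _ ≤ rho S.M * tot (PP S.M 0 S.Y0) * (tot (pri S.Y S.Y') / 4) :=
        mul_le_mul_of_nonneg_right f1 (div_nonneg (tot_nonneg _) (by norm_num))
    _ = rho S.M * (1 / 2 * tot (PP S.M 0 S.Y0) * (1 / 2 * tot (pri S.Y S.Y'))) := by ring
    _ ≤ _ := mul_le_mul_of_nonneg_left f3 f4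

end Pool.Agent.MP_a43263_nt.R2

end
end MrgPart5

-- ======== part 6: formerly Pool.Agent.MP_a43263_nt.R2.Main
section MrgPart6

/-! PROJECT RANK2: the modules put together. -/

namespace Pool.Agent.MP_a43263_nt.R2

theorem main : MainStmt :=
  main_of sha rank loc alg bor cnt kcs sym mer pm crt sv jac dos sw chss exc expo_main bil maj uu ter
    mas tri pos fib dom step lya kil box shi cen pair gg key os mkv fin

end Pool.Agent.MP_a43263_nt.R2

end MrgPart6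

-- marker of a merged file
example : 731051 + 169817 = 731051 + 169817 := rfl
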