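import Pool.Agent.MP_a43263_nt.R2.LocP

/-! PROJECT RANK2, module LOC: the local conditions of the 2-descent. -/

set_option autoImplicit false

noncomputable section

namespace Pool.Agent.MP_a43263_nt.R2

open Finset

namespace Loc

theorem sg_eq {j : ℤ} (h : j = 1 ∨ j = -1) : sg j = j := by
  rcases h with rfl | rfl <;> simp [sg]

theorem jac_prod (m : ℤ) (s : Finset Gen) (h : ∀ a ∈ s, a.2 ≠ 0) :
    jacobiSym m (∏ a ∈ s, a.2) = ∏ a ∈ s, jacobiSym m a.2 := by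
  induction s using Finset.induction_on with
  | empty => simp [jacobiSym.one_right]
  | insert a s ha ih =>
    rw [prod_insert ha, prod_insert ha, jacobiSym.mul_right' m (h a (mem_insert_self _ _))
      (prod_ne_zero_iff.2 fun b hb => h b (mem_insert_of_mem hb)),
      ih fun b hb => h b (mem_insert_of_mem hb)]

theorem val_prime {a : Gen} (h : a.2.Prime) : val a = a.2 := by simp [val, h.ne_one]

theorem prod_eq {n : ℤ} (hn : Squarefree n) {S : Finset Gen} (hd : Dist S)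
    (h1 : ((6, 1) : Gen) ∈ S ↔ n < 0) (h2 : ∀ a ∈ S, a ≠ (6, 1) → a.2.Prime ∧ (a.2 : ℤ) ∣ n)
    (h3 : ∀ p : ℕ, p.Prime → (p : ℤ) ∣ n → ∃ a ∈ S, a.2 = p) : ∏ a ∈ S, val a = n := by
  have e : ∏ a ∈ S.erase (6, 1), val a = (n.natAbs : ℤ) := by
    rw [← Nat.prod_primeFactors_of_squarefree (Int.squarefree_natAbs.2 hn), Nat.cast_prod]
    refine prod_bij (fun a _ => a.2) (fun a ha => ?_) (fun a ha b hb h => ?_) (fun q hq => ?_)
      (fun a ha => ?_)
    · obtain ⟨k1, k2⟩ := h2 a (mem_of_mem_erase ha) (ne_of_mem_erase ha)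
      exact Nat.mem_primeFactors.2 ⟨k1, Int.natCast_dvd.1 k2, Int.natAbs_ne_zero.2 hn.ne_zero⟩
    · exact hd a (mem_of_mem_erase ha) b (mem_of_mem_erase hb) h
    · obtain ⟨k1, k2, -⟩ := Nat.mem_primeFactors.1 hq
      obtain ⟨a, ha, rfl⟩ := h3 q k1 (Int.natCast_dvd.2 k2)
      exact ⟨a, mem_erase.2 ⟨by rintro rfl; exact Nat.not_prime_one k1, ha⟩, rfl⟩
    · exact val_prime (h2 a (mem_of_mem_erase ha) (ne_of_mem_erase ha)).1
  by_cases h : n < 0
  · rw [← mul_prod_erase S _ (h1.2 h), e]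
    simp only [val, if_true]
    omega
  · rw [erase_eq_of_notMem (mt h1.1 h)] at e
    omega

theorem Gv_mul (y : Finset Gen) :
    Gv 2 y * Gv 1 y = Gv 0 y * (∏ a ∈ y.filter (fun a => cls a.1 = 0), val a) ^ 2 := by
  simp only [Gv, prod_filter, ← prod_pow, ← prod_mul_distrib]
  refine prod_congr rfl fun a _ => ?_
  generalize cls a.1 = j
  fin_cases j <;> simp [sq]

theorem assemble (kc : KCStmt) (c : ℤ) {V : Finset Gen} (hV : Nice V) (h62 : (6, 2) ∈ V)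
    {n₂ n₃ : ℤ} (s2 : Squarefree n₂) (s3 : Squarefree n₃) (hs : n₂ < 0 ↔ n₃ < 0)
    (g2 : ∀ p : ℕ, p.Prime → (p : ℤ) ∣ n₂ → ∃ a ∈ V, a.2 = p ∧ cls a.1 ≠ 2)
    (g3 : ∀ p : ℕ, p.Prime → (p : ℤ) ∣ n₃ → ∃ a ∈ V, a.2 = p ∧ cls a.1 ≠ 1)
    (c0 : ∀ a ∈ V, a ≠ (6, 1) → cls a.1 = 0 → ((a.2 : ℤ) ∣ n₂ ↔ (a.2 : ℤ) ∣ n₃) ∧
      ∀ d e : ℤ, n₂ * n₃ = d * e ^ 2 → ¬(a.2 : ℤ) ∣ d →
        if a.2 = 2 then d % 8 = 1 else jacobiSym d a.2 = 1)
    (c1 : ∀ a ∈ V, cls a.1 = 1 → ¬(a.2 : ℤ) ∣ n₃ ∧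
      jacobiSym ((if (a.2 : ℤ) ∣ n₂ then -c else 1) * n₃) a.2 = 1)
    (c2 : ∀ a ∈ V, cls a.1 = 2 → ¬(a.2 : ℤ) ∣ n₂ ∧
      jacobiSym ((if (a.2 : ℤ) ∣ n₃ then c else 1) * n₂) a.2 = 1) :
    ∃ y ∈ Ker (gp c) V, Gv 2 y = n₂ ∧ Gv 1 y = n₃ := by
  let y := V.filter fun a : Gen => if a = (6, 1) then n₂ < 0 else (a.2 : ℤ) ∣ n₂ ∨ (a.2 : ℤ) ∣ n₃
  have hyV : y ⊆ V := filter_subset _ _
  have hy1 : (6, 1) ∈ y ↔ n₂ < 0 := by simp [y, hV.neg]
  have hy : ∀ a ∈ V, a ≠ (6, 1) → (a ∈ y ↔ (a.2 : ℤ) ∣ n₂ ∨ (a.2 : ℤ) ∣ n₃) := fun a ha h => by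
    simp [y, ha, h]
  clear_value y
  have pr : ∀ a ∈ V, a ≠ (6, 1) → a.2.Prime := fun a ha h => (hV.pr a ha).resolve_left h
  have tri : ∀ j : Fin 3, j = 0 ∨ j = 1 ∨ j = 2 := by decide
  have c61 : cls 6 = 0 := rfl
  have n61 : ∀ a : Gen, cls a.1 ≠ 0 → a ≠ (6, 1) := by rintro a h rfl; exact h rfl
  have dist : ∀ P : Gen → Prop, ∀ _ : DecidablePred P, Dist (y.filter P) := fun P _ a ha b hb =>
    hV.dist a (hyV (mem_of_mem_filter a ha)) b (hyV (mem_of_mem_filter b hb))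
  have G2 : Gv 2 y = n₂ := by
    refine prod_eq s2 (dist _ _) (by simp [hy1, c61]) (fun a ha h => ?_) fun q hq h => ?_
    · obtain ⟨ha, hc⟩ := mem_filter.1 ha
      refine ⟨pr a (hyV ha) h, ((hy a (hyV ha) h).1 ha).elim id fun k => ?_⟩
      rcases tri (cls a.1) with t | t | t
      · exact (c0 a (hyV ha) h t).1.2 k
      · exact absurd k (c1 a (hyV ha) t).1
      · exact absurd t hc
    · obtain ⟨a, ha, rfl, hc⟩ := g2 q hq h
      exact ⟨a, mem_filter.2 ⟨(hy a ha (by rintro rfl; exact Nat.not_prime_one hq)).2 (Or.inl h),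
        hc⟩, rfl⟩
  have G1 : Gv 1 y = n₃ := by
    refine prod_eq s3 (dist _ _) (by simp [hy1, c61, hs]) (fun a ha h => ?_) fun q hq h => ?_
    · obtain ⟨ha, hc⟩ := mem_filter.1 ha
      refine ⟨pr a (hyV ha) h, ((hy a (hyV ha) h).1 ha).elim (fun k => ?_) id⟩
      rcases tri (cls a.1) with t | t | t
      · exact (c0 a (hyV ha) h t).1.1 k
      · exact absurd t hc
      · exact absurd k (c2 a (hyV ha) t).1
    · obtain ⟨a, ha, rfl, hc⟩ := g3 q hq h
      exact ⟨a, mem_filter.2 ⟨(hy a ha (by rintro rfl; exact Nat.not_prime_one hq)).2 (Or.inr h),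
        hc⟩, rfl⟩
  have hm := Gv_mul y
  rw [G2, G1] at hm
  obtain ⟨d, hd⟩ : ∃ d : ℕ, d = ∏ a ∈ y.filter (fun a => cls a.1 ≠ 0), a.2 := ⟨_, rfl⟩
  have G0 : Gv 0 y = d := by
    rw [hd, Nat.cast_prod]
    exact prod_congr rfl fun a ha =>
      val_prime (pr a (hyV (mem_filter.1 ha).1) (n61 a (mem_filter.1 ha).2))
  have z0 : ∀ b ∈ V, b ≠ (6, 1) → cls b.1 = 0 →
      if b.2 = 2 then (d : ℤ) % 8 = 1 else jacobiSym d b.2 = 1 := fun b hb h t => by
    refine (c0 b hb h t).2 d _ (by rw [hm, G0]) fun k => ?_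
    rw [Int.natCast_dvd_natCast, hd, (pr b hb h).prime.dvd_finsetProd_iff] at k
    obtain ⟨a, ha, k⟩ := k
    obtain ⟨ha, hc⟩ := mem_filter.1 ha
    have := (Nat.prime_dvd_prime_iff_eq (pr b hb h) (pr a (hyV ha) (n61 a hc))).1 k
    exact hc (hV.dist b hb a (hyV ha) this ▸ t)
  have d8 : d % 8 = 1 := by
    have := z0 (6, 2) h62 (by decide) rfl
    simp only [if_true] at this
    omega
  have dodd : Odd d := Nat.odd_iff.2 (by omega)
  have row : ∀ b : Gen, cls b.1 = 0 → val b = -1 ∨ val b = 2 →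
      ∏ a ∈ y, gp c a b = jacobiSym (val b) d := fun b t hb => by
    rw [hd, jac_prod _ _ fun a ha =>
      (pr a (hyV (mem_filter.1 ha).1) (n61 a (mem_filter.1 ha).2)).ne_zero, prod_filter]
    refine prod_congr rfl fun a ha => ?_
    by_cases k : cls a.1 = 0
    · simp [gp, k, t]
    · have hab : a ≠ b := by rintro rfl; exact k t
      have hp := pr a (hyV ha) (n61 a k)
      have := Fact.mk hp
      simp only [gp, hab, k, t, if_true, if_false, ne_eq, not_false_eq_true]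
      refine sg_eq (jacobiSym.eq_one_or_neg_one (gcd_one fun h => ?_))
      rcases hb with hb | hb <;> rw [hb] at h
      · exact hp.not_dvd_one (by exact_mod_cast (dvd_neg.1 h))
      · exact hV.odd a (hyV ha) k ((Nat.prime_dvd_prime_iff_eq hp Nat.prime_two).1
          (by exact_mod_cast h))
  have row1 : ∏ a ∈ y, gp c a (6, 1) = 1 := by
    rw [row (6, 1) rfl (Or.inl rfl)]
    change jacobiSym (-1) d = 1
    rw [jacobiSym.at_neg_one dodd, ZMod.χ₄_nat_one_mod_four (by omega)]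
  refine ⟨y, mem_filter.2 ⟨mem_powerset.2 hyV, fun b hb => ?_⟩, G2, G1⟩
  by_cases b1 : b = (6, 1)
  · rw [b1, row1]
  by_cases b2 : b.2 = 2
  · rw [hV.dist b hb (6, 2) h62 b2, row (6, 2) rfl (Or.inr rfl)]
    change jacobiSym 2 d = 1
    rw [jacobiSym.at_two dodd, ZMod.χ₈_nat_eq_if_mod_eight]
    simp [d8, Nat.odd_iff.1 dodd]
  have K := kc.2.1 c (V.erase b) (y.erase b) b (by rwa [insert_erase hb]) (notMem_erase _ _) b1 b2
    (erase_subset_erase _ hyV)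
  have hG : Gv (cls b.1) (y.erase b) = Gv (cls b.1) y := by
    unfold Gv
    rw [filter_erase, erase_eq_of_notMem (by simp)]
  rw [hG] at K
  have hyb := hy b hb b1
  by_cases hby : b ∈ y
  · rw [← mul_prod_erase y _ hby] at row1 ⊢
    rw [K]
    generalize ∏ a ∈ y.erase b, gp c a (6, 1) = σ at row1 ⊢
    rcases tri (cls b.1) with t | t | t
    · have := z0 b hb b1 t
      simp only [gp, b1, t, c61, if_true, if_false, one_mul, b2] at row1 this ⊢
      simpa [row1, G0] using this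
    · obtain ⟨k1, k2⟩ := c1 b hb t
      rw [if_pos ((hyb.1 hby).resolve_right k1), neg_eq_neg_one_mul, jacobiSym.mul_left,
        jacobiSym.mul_left] at k2
      have e1 : gp c b b = sg (jacobiSym c b.2) := by simp [gp, t]
      have e2 : gp c b (6, 1) = sg (jacobiSym (-1) b.2) := by simp [gp, t, b1, c61, val]
      rw [e2] at row1
      rw [e1, t, if_neg (by decide), G1, jacobiSym.mul_left]
      have e3 : jacobiSym σ b.2 = jacobiSym (-1) b.2 := by
        rcases jacobiSym.trichotomy (-1) b.2 with u | u | u <;> rw [u] at row1 k2 ⊢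
        · simp at k2
        · have : σ = 1 := by simpa [sg] using row1
          rw [this, jacobiSym.one_left]
        · have : σ = -1 := by simp [sg] at row1; omega
          rw [this, u]
      rw [e3, sg_eq ((jacobiSym.trichotomy c b.2).resolve_left fun u => by simp [u] at k2)]
      linear_combination k2
    · obtain ⟨k1, k2⟩ := c2 b hb t
      rw [if_pos ((hyb.1 hby).resolve_left k1), jacobiSym.mul_left] at k2
      have e1 : gp c b b = sg (jacobiSym c b.2) := by simp [gp, t]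
      rw [e1, t, if_pos rfl, G2, one_mul,
        sg_eq ((jacobiSym.trichotomy c b.2).resolve_left fun u => by simp [u] at k2)]
      exact k2
  · rw [erase_eq_of_notMem hby, row1, ite_self, one_mul] at K
    rw [K]
    rw [hyb, not_or] at hby
    rcases tri (cls b.1) with t | t | t <;> rw [t]
    · simpa [b2, G0] using z0 b hb b1 t
    · simpa [hby.1, G1] using (c1 b hb t).2
    · simpa [hby.2, G2] using (c2 b hb t).2

theorem mem_VV (M : ℕ) (l : Fin 6 → ℕ) (a : Gen) : a ∈ VV M l ↔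
    a = (6, 1) ∨ a.2 ∈ (Fin.snoc (α := fun _ => ℕ) l M a.1).primeFactors := by
  obtain ⟨t, q⟩ := a
  have h6 : (6 : Fin 7) = Fin.last 6 := rfl
  cases t using Fin.lastCases with
  | last =>
    simp only [VV, V0, gens, h6, mem_union, mem_insert, mem_image, mem_biUnion, mem_univ,
      Prod.mk.injEq, Fin.snoc_last, true_and, exists_eq_right, Fin.castSucc_ne_last, false_and,
      and_false, exists_false, or_false]
  | cast i =>
    simp only [VV, V0, gens, h6, mem_union, mem_insert, mem_image, mem_biUnion, mem_univ,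
      Prod.mk.injEq, Fin.snoc_castSucc, true_and, Fin.castSucc_ne_last,
      (Fin.castSucc_ne_last i).symm, false_and, and_false, exists_false, false_or,
      Fin.castSucc_inj]
    exact ⟨fun ⟨h, r, hr, e1, e2⟩ => e1 ▸ e2 ▸ hr, fun h => ⟨i, q, h, rfl, rfl⟩⟩

theorem odd_sq {n : ℤ} (h : Odd n) : ∃ k, n ^ 2 = 8 * k + 1 := by
  obtain ⟨j, rfl⟩ := h
  obtain ⟨k, hk⟩ := Int.even_mul_succ_self j
  exact ⟨k, by linear_combination 4 * hk⟩

theorem transfer {p : ℕ} [hp : Fact p.Prime] {A B U W c m m' n : ℤ} (P : Prop) [Decidable P]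
    (h1 : (p : ℤ) ∣ A * U ^ 2 + B * W ^ 2) (h2 : ¬(p : ℤ) ^ 2 ∣ A * U ^ 2 + B * W ^ 2)
    (hA : ¬(p : ℤ) ∣ A) (hm : ¬(p : ℤ) ∣ m) (hm' : ¬(p : ℤ) ∣ m')
    (h3 : (p : ℤ) ∣ m * m' + A * B * c ^ 2) (h : jacobiSym ((if P then m else 1) * n) p = 1) :
    jacobiSym ((if P then m' else 1) * n) p = 1 := by
  split_ifs at h ⊢
  swap
  · exact h
  have pp := Nat.prime_iff_prime_int.1 hp.out
  have hW : ¬(p : ℤ) ∣ W := fun hW => by
    have k : (p : ℤ) ∣ A * U ^ 2 := (dvd_add_left ((hW.pow two_ne_zero).mul_left B)).1 h1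
    have hU := pp.dvd_of_dvd_pow ((pp.dvd_or_dvd k).resolve_left hA)
    exact h2 (((pow_dvd_pow_of_dvd hU 2).mul_left A).add ((pow_dvd_pow_of_dvd hW 2).mul_left B))
  have k := jac_of_sq (m := m * m' * W ^ 2) (r := A * U * c) (fun k => by
    rcases pp.dvd_or_dvd k with k | k
    · exact (pp.dvd_or_dvd k).elim hm hm'
    · exact hW (pp.dvd_of_dvd_pow k)) 
    (((h3.mul_right (W ^ 2)).sub (h1.mul_left (A * c ^ 2))).trans (dvd_of_eq (by ring)))
  rw [jacobiSym.mul_left, jacobiSym.sq_one' (gcd_one hW), jacobiSym.mul_left] at k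
  rw [jacobiSym.mul_left] at h ⊢
  have := jacobiSym.sq_one (gcd_one hm)
  linear_combination (jacobiSym m p * jacobiSym n p) * k + h -
    (jacobiSym m' p * jacobiSym n p) * this

end Loc

open Loc in
/-- the local conditions -/
theorem loc : KCStmt → LOCStmt := by
  intro kc u v w z N x F d₂ d₃ h2 h3 els
  obtain ⟨n₂, s, s2, hs, e2⟩ := exists_sqf h2
  obtain ⟨n₃, r, s3, hr, e3⟩ := exists_sqf h3
  have l0 : (lf (cA u v) (cB N w z) x 0 : ℤ) = x.1 := by simp [lf, cA, cB]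
  have l1 : (lf (cA u v) (cB N w z) x 1 : ℤ) = x.2 := by simp [lf, cA, cB]
  have l2 : (lf (cA u v) (cB N w z) x 2 : ℤ) = 3 * x.1 * u ^ 2 + N * x.2 * w ^ 2 := by
    simp [lf, cA, cB]; ring
  have l3 : (lf (cA u v) (cB N w z) x 3 : ℤ) = 3 * x.1 * v ^ 2 + N * x.2 * z ^ 2 := by
    simp [lf, cA, cB]; ring
  have l4 : (lf (cA u v) (cB N w z) x 4 : ℤ) = 3 * x.1 * u ^ 2 + N * x.2 * z ^ 2 := by
    simp [lf, cA, cB]; ring
  have l5 : (lf (cA u v) (cB N w z) x 5 : ℤ) = 3 * x.1 * v ^ 2 + N * x.2 * w ^ 2 := by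
    simp [lf, cA, cB]; ring
  have sqf := F.sqf
  have one := F.one
  have cM := F.cM
  have cop := F.cop
  have sm := F.sm
  generalize lf (cA u v) (cB N w z) x = l at *
  obtain ⟨c, hc⟩ : ∃ c : ℤ, c = ((u : ℤ) ^ 2 - v ^ 2) * (z ^ 2 - w ^ 2) := ⟨_, rfl⟩
  rw [← hc] at sm ⊢
  have mem := mem_VV (3 * N) l
  obtain ⟨L, hL⟩ : ∃ L : Fin 7 → ℕ, L = Fin.snoc (α := fun _ => ℕ) l (3 * N) := ⟨_, rfl⟩
  have L0 : L 0 = l 0 := by rw [hL]; rfl
  have L1 : L 1 = l 1 := by rw [hL]; rfl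
  have L2 : L 2 = l 2 := by rw [hL]; rfl
  have L3 : L 3 = l 3 := by rw [hL]; rfl
  have L4 : L 4 = l 4 := by rw [hL]; rfl
  have L5 : L 5 = l 5 := by rw [hL]; rfl
  have L6 : L 6 = 3 * N := by rw [hL]; rfl
  have Lne : ∀ i, L i ≠ 0 := fun i => by
    rw [hL]
    cases i using Fin.lastCases with
    | last => rw [Fin.snoc_last]; exact F.sqM.ne_zero
    | cast i => rw [Fin.snoc_castSucc]; exact (sqf i).ne_zero
  have nd : ∀ {p : ℕ}, p.Prime → ∀ i j, i ≠ j → p ∣ L i → ¬p ∣ L j := fun hp i j hij hi hj => by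
    refine hp.not_dvd_one ?_
    have : (L i).Coprime (L j) := by
      rw [hL]
      cases i using Fin.lastCases <;> cases j using Fin.lastCases
      · exact absurd rfl hij
      · rw [Fin.snoc_last, Fin.snoc_castSucc]; exact (cM _).symm
      · rw [Fin.snoc_last, Fin.snoc_castSucc]; exact cM _
      · simpa using cop _ _ fun h => hij (by rw [h])
    exact this ▸ Nat.dvd_gcd hi hj
  rw [← hL] at mem
  have two : 2 ∣ L 6 := L6 ▸ F.two.mul_left 3
  have mem' : ∀ a ∈ VV (3 * N) l, a ≠ (6, 1) → a.2.Prime ∧ a.2 ∣ L a.1 := fun a ha h =>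
    ⟨Nat.prime_of_mem_primeFactors (((mem a).1 ha).resolve_left h),
      Nat.dvd_of_mem_primeFactors (((mem a).1 ha).resolve_left h)⟩
  have nice : Nice (VV (3 * N) l) := by
    refine ⟨(mem _).2 (Or.inl rfl), fun a ha => ?_, fun a ha b hb h => ?_, fun a ha h h' => ?_⟩
    · exact (em _).imp_right fun h => (mem' a ha h).1
    · by_cases a1 : a = (6, 1) <;> by_cases b1 : b = (6, 1)
      · rw [a1, b1]
      · exact absurd (h ▸ (mem' b hb b1).1) (a1 ▸ Nat.not_prime_one)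
      · exact absurd (h ▸ (mem' a ha a1).1) (b1 ▸ Nat.not_prime_one)
      · refine Prod.ext (by_contra fun k => ?_) h
        exact nd (mem' a ha a1).1 _ _ k (mem' a ha a1).2 (h ▸ (mem' b hb b1).2)
    · exact nd Nat.prime_two 6 a.1 (by rintro k; rw [← k] at h; exact h rfl) two
        (h' ▸ (mem' a ha (by rintro rfl; exact h rfl)).2)
  have δ : (l 2 : ℤ) * l 3 - l 4 * l 5 = 3 * x.1 * (N * x.2) * c := by
    rw [l2, l3, l4, l5, hc]; ring
  have S : ∀ (p : ℕ) [Fact p.Prime],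
      Sol2 (((l 2 : ℤ) * l 3 : ℤ) : ℚ_[p]) (((l 4 : ℤ) * l 5 : ℤ) : ℚ_[p]) n₂ n₃ := fun p _ => by
    have := scale (n₂ := (n₂ : ℚ_[p])) (n₃ := n₃) (s := (s : ℚ_[p])) (r := (r : ℚ_[p]))
      (by exact_mod_cast hs) (by exact_mod_cast hr) (by exact_mod_cast e2) (by exact_mod_cast e3)
      (els.2 p)
    exact_mod_cast this
  have nm : ∀ {p : ℕ}, p.Prime → ∀ i j : Fin 6, ¬p ∣ l i → ¬p ∣ l j → ¬(p : ℤ) ∣ l i * l j :=
    fun hp i j hi hj h => by
      rcases (Nat.prime_iff_prime_int.1 hp).dvd_or_dvd h with h | h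
      · exact hi (by exact_mod_cast h)
      · exact hj (by exact_mod_cast h)
  have nA : ∀ {p : ℕ}, p.Prime → ¬p ∣ L 0 → ¬p ∣ L 6 → ¬(p : ℤ) ∣ 3 * x.1 := fun hp h0 h6 h => by
    rcases (Nat.prime_iff_prime_int.1 hp).dvd_or_dvd h with h | h
    · exact h6 (L6 ▸ Dvd.dvd.mul_right (by exact_mod_cast h) N)
    · exact h0 (by rw [L0]; exact_mod_cast l0 ▸ h)
  have nc : ∀ {p : ℕ}, p.Prime → ¬p ∣ L 6 → ¬(p : ℤ) ∣ c := fun hp h6 h => h6 (L6 ▸ sm _ hp h)
  have nsq : ∀ {p : ℕ}, p.Prime → ∀ m : ℕ, Squarefree m → ¬(p : ℤ) ^ 2 ∣ m := fun hp m hm h =>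
    hp.prime.not_isUnit (hm _ (by rw [← sq]; exact_mod_cast h))
  have c1 : ∀ a ∈ VV (3 * N) l, cls a.1 = 1 → ¬(a.2 : ℤ) ∣ n₃ ∧
      jacobiSym ((if (a.2 : ℤ) ∣ n₂ then -c else 1) * n₃) a.2 = 1 := by
    rintro ⟨t, p⟩ ha ht
    obtain ⟨hp, hd⟩ := mem' _ ha (by intro h; rw [h] at ht; exact absurd ht (by decide))
    have := Fact.mk hp
    have t23 := (by decide : ∀ t : Fin 7, cls t = 1 → t = 2 ∨ t = 3) t ht
    have o : ∀ j, cls j ≠ 1 → ¬p ∣ L j := fun j hj => nd hp t j (by rintro rfl; exact hj ht) hd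
    have hb := nm hp 4 5 (L4 ▸ o 4 (by decide)) (L5 ▸ o 5 (by decide))
    have hD : (p : ℤ) ∣ l 2 * l 3 := by
      rcases t23 with rfl | rfl
      · exact Dvd.dvd.mul_right (by exact_mod_cast L2 ▸ hd) _
      · exact Dvd.dvd.mul_left (by exact_mod_cast L3 ▸ hd) _
    obtain ⟨k1, k2⟩ := int_one s2 s3 (S p) hD (by
      exact_mod_cast nsq hp _ ((Nat.squarefree_mul (cop 2 3 (by decide))).2 ⟨sqf 2, sqf 3⟩)) hb
    have k3 : (p : ℤ) ∣ -((l 4 : ℤ) * l 5) * -c + 3 * x.1 * (N * x.2) * c ^ 2 :=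
      (hD.mul_right c).trans (dvd_of_eq (by linear_combination c * δ))
    have kA := nA hp (o 0 (by decide)) (o 6 (by decide))
    have kc' : ¬(p : ℤ) ∣ -c := by simpa using nc hp (o 6 (by decide))
    refine ⟨k1, ?_⟩
    rcases t23 with rfl | rfl
    · exact transfer _ (l2 ▸ by exact_mod_cast L2 ▸ hd) (l2 ▸ nsq hp _ (sqf 2)) kA
        (by simpa using hb) kc' k3 k2
    · exact transfer _ (l3 ▸ by exact_mod_cast L3 ▸ hd) (l3 ▸ nsq hp _ (sqf 3)) kA
        (by simpa using hb) kc' k3 k2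
  have c2 : ∀ a ∈ VV (3 * N) l, cls a.1 = 2 → ¬(a.2 : ℤ) ∣ n₂ ∧
      jacobiSym ((if (a.2 : ℤ) ∣ n₃ then c else 1) * n₂) a.2 = 1 := by
    rintro ⟨t, p⟩ ha ht
    obtain ⟨hp, hd⟩ := mem' _ ha (by intro h; rw [h] at ht; exact absurd ht (by decide))
    have := Fact.mk hp
    have t45 := (by decide : ∀ t : Fin 7, cls t = 2 → t = 4 ∨ t = 5) t ht
    have o : ∀ j, cls j ≠ 2 → ¬p ∣ L j := fun j hj => nd hp t j (by rintro rfl; exact hj ht) hd
    have hb := nm hp 2 3 (L2 ▸ o 2 (by decide)) (L3 ▸ o 3 (by decide))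
    have hD : (p : ℤ) ∣ l 4 * l 5 := by
      rcases t45 with rfl | rfl
      · exact Dvd.dvd.mul_right (by exact_mod_cast L4 ▸ hd) _
      · exact Dvd.dvd.mul_left (by exact_mod_cast L5 ▸ hd) _
    obtain ⟨k1, k2⟩ := int_one s3 s2 (swap (S p)) hD (by
      exact_mod_cast nsq hp _ ((Nat.squarefree_mul (cop 4 5 (by decide))).2 ⟨sqf 4, sqf 5⟩)) hb
    have k3 : (p : ℤ) ∣ -((l 2 : ℤ) * l 3) * c + 3 * x.1 * (N * x.2) * c ^ 2 :=
      (hD.mul_right (-c)).trans (dvd_of_eq (by linear_combination c * δ))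
    have kA := nA hp (o 0 (by decide)) (o 6 (by decide))
    have kc' := nc hp (o 6 (by decide))
    refine ⟨k1, ?_⟩
    rcases t45 with rfl | rfl
    · exact transfer _ (l4 ▸ by exact_mod_cast L4 ▸ hd) (l4 ▸ nsq hp _ (sqf 4)) kA
        (by simpa using hb) kc' k3 k2
    · exact transfer _ (l5 ▸ by exact_mod_cast L5 ▸ hd) (l5 ▸ nsq hp _ (sqf 5)) kA
        (by simpa using hb) kc' k3 k2
  have cover : ∀ p : ℕ, p.Prime → (p : ℤ) ∣ n₂ ∨ (p : ℤ) ∣ n₃ →
      ∃ t, (t, p) ∈ VV (3 * N) l := fun p hp h => by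
    by_contra k
    have o : ∀ j, ¬p ∣ L j := fun j hj =>
      k ⟨j, (mem _).2 (Or.inr (Nat.mem_primeFactors.2 ⟨hp, hj, Lne j⟩))⟩
    have := Fact.mk hp
    have pp := Nat.prime_iff_prime_int.1 hp
    have ha := nm hp 2 3 (L2 ▸ o 2) (L3 ▸ o 3)
    have hb := nm hp 4 5 (L4 ▸ o 4) (L5 ▸ o 5)
    have hδ : ¬(p : ℤ) ∣ l 2 * l 3 - l 4 * l 5 := by
      rw [δ]
      intro k
      rcases pp.dvd_or_dvd k with k | k
      · rcases pp.dvd_or_dvd k with k | k
        · exact nA hp (o 0) (o 6) k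
        · rcases pp.dvd_or_dvd k with k | k
          · exact o 6 (L6 ▸ Dvd.dvd.mul_left (by exact_mod_cast k) 3)
          · exact o 1 (by rw [L1]; exact_mod_cast l1 ▸ k)
      · exact nc hp (o 6) k
    exact h.elim (int_good s2 s3 (S p) ha hb hδ)
      (int_good s3 s2 (swap (S p)) hb ha (by rwa [dvd_sub_comm]))
  have SR : Sol2 ((l 2 * l 3 : ℕ) : ℝ) ((l 4 * l 5 : ℕ) : ℝ) n₂ n₃ := by
    have := scale (n₂ := (n₂ : ℝ)) (n₃ := n₃) (s := (s : ℝ)) (r := (r : ℝ))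
      (by exact_mod_cast hs) (by exact_mod_cast hr) (by exact_mod_cast e2) (by exact_mod_cast e3)
      els.1
    exact_mod_cast this
  have pos : ∀ i j, (0 : ℝ) < (l i * l j : ℕ) := fun i j => by
    exact_mod_cast Nat.mul_pos (one_pos.trans (one i)) (one_pos.trans (one j))
  obtain ⟨y, hy, G2, G1⟩ := assemble kc c nice
    ((mem _).2 (Or.inr (Nat.mem_primeFactors.2 ⟨Nat.prime_two, two, Lne 6⟩))) s2 s3
    ⟨fun h => by_contra fun k => real_aux (pos 4 5)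
        (by exact_mod_cast lt_of_le_of_ne (not_lt.1 k) s3.ne_zero.symm) (by exact_mod_cast h)
        (swap SR),
      fun h => by_contra fun k => real_aux (pos 2 3)
        (by exact_mod_cast lt_of_le_of_ne (not_lt.1 k) s2.ne_zero.symm) (by exact_mod_cast h) SR⟩
    (fun p hp h => by
      obtain ⟨t, ht⟩ := cover p hp (Or.inl h)
      exact ⟨_, ht, rfl, fun k => (c2 _ ht k).1 h⟩)
    (fun p hp h => by
      obtain ⟨t, ht⟩ := cover p hp (Or.inr h)
      exact ⟨_, ht, rfl, fun k => (c1 _ ht k).1 h⟩)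
    (by
      rintro ⟨t, p⟩ ha h61 ht
      obtain ⟨hp, hd⟩ := mem' _ ha h61
      have := Fact.mk hp
      have o : ∀ j, cls j ≠ 0 → ¬p ∣ L j := fun j hj => nd hp t j (by rintro rfl; exact hj ht) hd
      have hD := nm hp 2 3 (L2 ▸ o 2 (by decide)) (L3 ▸ o 3 (by decide))
      by_cases p2 : p = 2
      · subst p2
        obtain ⟨ku, hu⟩ := odd_sq (n := u) (by exact_mod_cast F.ou)
        obtain ⟨kv, hv⟩ := odd_sq (n := v) (by exact_mod_cast F.ov)
        obtain ⟨kw, hw⟩ := odd_sq (n := w) (by exact_mod_cast F.ow)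
        obtain ⟨kz, hz⟩ := odd_sq (n := z) (by exact_mod_cast F.oz)
        have lt : ∀ (k : ℕ) (m : ℤ), 2 ^ k ∣ m → ‖(m : ℚ_[2])‖ < ((2 : ℕ) : ℝ) ^ (-(k : ℤ) + 1) :=
          fun k m h => (Padic.norm_le_pow_iff_norm_lt_pow_add_one _ _).1
            ((Padic.norm_int_le_pow_iff_dvd m k).2 h)
        obtain ⟨k1, k2⟩ := int_zero s2 s3 (S 2) (η := ((2 : ℕ) : ℝ) ^ (-((3 : ℕ) : ℤ) + 1))
          (by norm_num) (by norm_num) hD (r := 3 * x.1 + N * x.2) (lt 3 _ (by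
            rw [l2, l3, hu, hv, hw, hz]
            exact ⟨(3 * x.1 + N * x.2) * (3 * x.1 * (ku + kv) + N * x.2 * (kw + kz)) +
              8 * (3 * x.1 * ku + N * x.2 * kw) * (3 * x.1 * kv + N * x.2 * kz), by ring⟩))
          ((lt 5 _ (by
            rw [δ, hc, hu, hv, hw, hz]
            exact ⟨2 * (3 * x.1 * (N * x.2) * (ku - kv) * (kz - kw)), by ring⟩)).trans_eq
            (by norm_num))
        refine ⟨k1, fun d e hd hn => ?_⟩
        obtain ⟨r, hr⟩ := extract (k := 3) (by norm_num) hn (k2 d e hd)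
        have hn' : ¬(2 : ℤ) ∣ d := hn
        have hr' : (8 : ℤ) ∣ d - r ^ 2 := hr
        rcases Int.even_or_odd r with ⟨j, hj⟩ | hj
        · have : r ^ 2 = 4 * j ^ 2 := by rw [hj]; ring
          omega
        · obtain ⟨j, hj⟩ := odd_sq hj
          rw [if_pos rfl]
          omega
      · have hAB : (p : ℤ) ∣ 3 * x.1 ∨ (p : ℤ) ∣ N * x.2 := by
          have t016 := (by decide : ∀ t : Fin 7, cls t = 0 → t = 0 ∨ t = 1 ∨ t = 6) t ht
          rcases t016 with rfl | rfl | rfl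
          · exact Or.inl (Dvd.dvd.mul_left (l0 ▸ by exact_mod_cast L0 ▸ hd) _)
          · exact Or.inr (Dvd.dvd.mul_left (l1 ▸ by exact_mod_cast L1 ▸ hd) _)
          · exact ((Nat.Prime.dvd_mul hp).1 (L6 ▸ hd)).imp
              (fun h => Dvd.dvd.mul_right (by exact_mod_cast h) _)
              fun h => Dvd.dvd.mul_right (by exact_mod_cast h) _
        obtain ⟨r, hr⟩ : ∃ r : ℤ, (p : ℤ) ∣ l 2 * l 3 - r ^ 2 := by
          rw [l2, l3]
          rcases hAB with h | h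
          · exact ⟨N * x.2 * w * z, (h.mul_right (3 * x.1 * u ^ 2 * v ^ 2 +
              N * x.2 * (u ^ 2 * z ^ 2 + v ^ 2 * w ^ 2))).trans (dvd_of_eq (by ring))⟩
          · exact ⟨3 * x.1 * u * v, (h.mul_right (N * x.2 * w ^ 2 * z ^ 2 +
              3 * x.1 * (u ^ 2 * z ^ 2 + v ^ 2 * w ^ 2))).trans (dvd_of_eq (by ring))⟩
        obtain ⟨k1, k2⟩ := int_zero s2 s3 (S p) one_pos le_rfl hD
          (Padic.norm_intCast_lt_one_iff.2 hr) (by
            rw [one_pow, Padic.norm_intCast_lt_one_iff, δ]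
            exact (hAB.elim (·.mul_right _) (·.mul_left _)).mul_right _)
        exact ⟨k1, fun d e hd hn => by rw [if_neg p2]; exact jac_of_Q hn (k2 d e hd)⟩) c1 c2
  exact ⟨y, hy, ⟨n₂ * s, by rw [G2, e2]; ring⟩, ⟨n₃ * r, by rw [G1, e3]; ring⟩⟩

end Pool.Agent.MP_a43263_nt.R2
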